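import Pool.Agent.Work.MP_c71557_gt.H.Prism

set_option autoImplicit false

/-!
# MP_c71557_gt, module H/Equiv: adjoint functors, equivalences, initial and terminal objects (S-M)

All from `HCmap_natTrans`, `HCmap_comp`, `HCmap_id`.
* `hiso_of_nat`: `F ⋙ G` and `G ⋙ F` induce the identity on homology, so `HCmap F n` is bijective.
* the point category: `Sx Pt n` has exactly one element, the complex is `ℚ ←0 ℚ ←1 ℚ ←0 …`
  (`d n` is multiplication by `∑_{i ≤ n+1} (-1)^i`), so `Acy Pt`.
* `Acy C ↔ HIso (toPt C)` (for `n = 0`: `H_0(C) → H_0(Pt) = ℚ` is the augmentation; `Acy` says that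
  it is injective, and surjective by `Nonempty`).
* an initial object `c` gives a natural transformation `const c ⟶ 𝟭`, a terminal one `𝟭 ⟶ const c`,
  so `𝟭` and `toPt C ⋙ ptF c` induce the same maps.
-/

namespace C715

open CategoryTheory

variable {C : Type} [SmallCategory C] {D : Type} [SmallCategory D]

private theorem nat_id (F : C ⥤ C) (h : Nonempty (𝟭 C ⟶ F) ∨ Nonempty (F ⟶ 𝟭 C)) (n : ℕ)
    (y : HC C n) : HCmap F n y = y := by
  have : HCmap F n = HCmap (𝟭 C) n := by
    rcases h with ⟨⟨α⟩⟩ | ⟨⟨α⟩⟩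
    · exact (HCmap_natTrans α n).symm
    · exact HCmap_natTrans α n
  rw [this, HCmap_id]

theorem hiso_of_nat (F : C ⥤ D) (G : D ⥤ C)
    (h1 : Nonempty (𝟭 C ⟶ F ⋙ G) ∨ Nonempty (F ⋙ G ⟶ 𝟭 C))
    (h2 : Nonempty (𝟭 D ⟶ G ⋙ F) ∨ Nonempty (G ⋙ F ⟶ 𝟭 D)) : HIso F := by
  intro n
  have e1 : Function.LeftInverse (HCmap G n) (HCmap F n) := fun y => by
    rw [← HCmap_comp]
    exact nat_id _ h1 n y
  have e2 : Function.RightInverse (HCmap G n) (HCmap F n) := fun y => by
    rw [← HCmap_comp]
    exact nat_id _ h2 n y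
  exact ⟨e1.injective, e2.surjective⟩

theorem hiso_of_equiv (F : C ⥤ D) [F.IsEquivalence] : HIso F :=
  hiso_of_nat F F.inv (Or.inl ⟨F.asEquivalence.unit⟩) (Or.inr ⟨F.asEquivalence.counit⟩)

/-- simplices of the point category -/
private instance ptUnique (n : ℕ) : Unique (Sx ActCat.Pt n) where
  default :=
    { o := fun _ => ⟨PUnit.unit⟩
      m := fun _ _ _ => 𝟙 _
      m_self := fun _ => rfl
      m_comp := fun _ _ _ _ _ => Category.id_comp _ }
  uniq σ := by
    rcases σ with ⟨o, m, _, _⟩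
    have h : o = fun _ => ⟨PUnit.unit⟩ := funext fun _ => Subsingleton.elim _ _
    subst h
    congr 1

private theorem pt_d (n : ℕ) (a : ℚ) : (NC ActCat.Pt).d n (Finsupp.single default a) =
    Finsupp.single default (if Even n then 0 else a) := by
  rw [NC_d_single]
  have h1 : ∀ i : Fin (n + 2), pre (dl i) (default : Sx ActCat.Pt (n + 1)) = default :=
    fun i => Subsingleton.elim _ _
  simp only [h1]
  rw [← Finset.sum_smul]
  have h2 : ∑ i : Fin (n + 2), (-1 : ℚ) ^ (i : ℕ) = if Even n then 0 else 1 := by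
    rw [Fin.sum_univ_eq_sum_range (fun i => (-1 : ℚ) ^ i) (n + 2), neg_one_geom_sum]
    simp [Nat.even_add_one, parity_simps]
  rw [h2]
  split_ifs
  · simp
  · simp

private theorem pt_single {n : ℕ} (x : (NC ActCat.Pt).X n) :
    x = Finsupp.single default ((x : Sx ActCat.Pt n →₀ ℚ) default) := by
  change (x : Sx ActCat.Pt n →₀ ℚ) = _
  exact Finsupp.unique_ext (by simp)

theorem acy_pt : Acy ActCat.Pt := by
  refine ⟨⟨⟨PUnit.unit⟩⟩, fun x hx => ?_, fun n => ?_⟩
  · rw [pt_single x] at hx ⊢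
    rw [Finsupp.linearCombination_single] at hx
    have : (x : Sx ActCat.Pt 0 →₀ ℚ) default = 0 := by simpa using hx
    rw [this, Finsupp.single_zero]
    exact Submodule.zero_mem _
  · rw [Cx.H_subsingleton]
    intro x hx
    rw [Cx.mem_Z_succ, pt_single x, pt_d] at hx
    rw [pt_single x]
    by_cases h : Even n
    · refine ⟨Finsupp.single default ((x : Sx ActCat.Pt (n + 1) →₀ ℚ) default), ?_⟩
      rw [pt_d, if_neg (by simpa [Nat.even_add_one] using h)]
    · rw [if_neg h] at hx
      have : (x : Sx ActCat.Pt (n + 1) →₀ ℚ) default = 0 := by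
        simpa using hx
      rw [this, Finsupp.single_zero]
      exact Submodule.zero_mem _

private theorem pt_push {n : ℕ} (x : (NC C).X n) : (NCmap (toPt C)).f n x =
    Finsupp.single default (Finsupp.linearCombination ℚ (fun _ => (1 : ℚ)) x) := by
  have : (NCmap (toPt C)).f n = (Finsupp.lsingle (R := ℚ) (default : Sx ActCat.Pt n)).comp
      (Finsupp.linearCombination ℚ (fun _ : Sx C n => (1 : ℚ))) := by
    refine Finsupp.lhom_ext fun σ a => ?_
    rw [NCmap_single, LinearMap.comp_apply, Finsupp.linearCombination_single]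
    simp only [smul_eq_mul, mul_one]
    exact congrArg (fun τ => Finsupp.single τ a) (Subsingleton.elim _ _)
  exact congrArg (fun l => l x) this

private theorem pt_Bd0 (y : (NC ActCat.Pt).X 0) (hy : y ∈ (NC ActCat.Pt).Bd 0) : y = 0 := by
  obtain ⟨z, rfl⟩ := hy
  rw [pt_single z, pt_d]
  simp

theorem acy_iff : Acy C ↔ HIso (toPt C) := by
  constructor
  · rintro ⟨⟨c⟩, h0, h1⟩ n
    cases n with
    | succ n =>
      have := h1 n
      have := acy_pt.2.2 n
      exact ⟨fun _ _ _ => Subsingleton.elim _ _, fun y => ⟨0, Subsingleton.elim _ _⟩⟩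
    | zero =>
      constructor
      · rw [injective_iff_map_eq_zero]
        intro y hy
        obtain ⟨x, hx, rfl⟩ := Cx.H_surj y
        rw [HCmap, Cx.H_cls, Cx.cls_eq_zero] at hy
        have h2 := pt_Bd0 _ hy
        rw [pt_push, Finsupp.single_eq_zero] at h2
        exact Cx.cls_eq_zero.2 (h0 x h2)
      · intro y
        obtain ⟨x, hx, rfl⟩ := Cx.H_surj y
        let σ : Sx C 0 :=
          { o := fun _ => c
            m := fun _ _ _ => 𝟙 _
            m_self := fun _ => rfl
            m_comp := fun _ _ _ _ _ => Category.id_comp _ }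
        refine ⟨(NC C).cls 0 (Finsupp.single σ ((x : Sx ActCat.Pt 0 →₀ ℚ) default)) trivial, ?_⟩
        rw [HCmap, Cx.H_cls, Cx.cls_eq]
        rw [pt_push, Finsupp.linearCombination_single, smul_eq_mul, mul_one]
        have h3 := pt_single x
        rw [← h3, sub_self]
        exact Submodule.zero_mem _
  · intro h
    refine ⟨?_, fun x hx => ?_, fun n => ?_⟩
    · by_contra hne
      rw [not_nonempty_iff] at hne
      obtain ⟨y, hy⟩ := (h 0).2 ((NC ActCat.Pt).cls 0 (Finsupp.single default 1) trivial)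
      have : IsEmpty (Sx C 0) := ⟨fun σ => hne.elim (σ.o 0)⟩
      obtain ⟨x, hx, rfl⟩ := Cx.H_surj y
      have hx0 : x = 0 := Subsingleton.elim (α := Sx C 0 →₀ ℚ) _ _
      subst hx0
      have h1 : (NC C).cls 0 0 hx = 0 := Cx.cls_eq_zero.2 (Submodule.zero_mem _)
      rw [h1, map_zero] at hy
      have h2 := pt_Bd0 _ (Cx.cls_eq_zero.1 hy.symm)
      rw [Finsupp.single_eq_zero] at h2
      exact one_ne_zero h2
    · have h1 : (NC C).cls 0 x trivial = 0 := by
        refine (h 0).1 ?_
        rw [map_zero, HCmap, Cx.H_cls, Cx.cls_eq_zero, pt_push, hx, Finsupp.single_zero]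
        exact Submodule.zero_mem _
      exact Cx.cls_eq_zero.1 h1
    · have := acy_pt.2.2 n
      exact ⟨fun a b => (h (n + 1)).1 (Subsingleton.elim _ _)⟩

theorem Acy.hiso (F : C ⥤ D) (hC : Acy C) (hD : Acy D) : HIso F := by
  have h : F ⋙ toPt D = toPt C := rfl
  refine HIso.of_comp_right (G := toPt D) (acy_iff.1 hD) ?_
  rw [h]
  exact acy_iff.1 hC

theorem Acy.congr {F : C ⥤ D} (hF : HIso F) : Acy C ↔ Acy D := by
  rw [acy_iff, acy_iff]
  have h : F ⋙ toPt D = toPt C := rfl
  constructor
  · intro hC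
    refine HIso.of_comp_left (F := F) hF ?_
    rw [h]
    exact hC
  · intro hD
    rw [← h]
    exact hF.comp hD

private theorem acy_of_nat (c : C) (h : Nonempty (𝟭 C ⟶ toPt C ⋙ ptF c) ∨
    Nonempty (toPt C ⋙ ptF c ⟶ 𝟭 C)) : Acy C := by
  rw [acy_iff]
  refine hiso_of_nat (toPt C) (ptF c) h (Or.inl ⟨?_⟩)
  exact eqToHom rfl

theorem acy_of_initial (c : C) (h : ∀ d, ∃! f : c ⟶ d, True) : Acy C := by
  refine acy_of_nat c (Or.inr ⟨?_⟩)
  exact
    { app := fun d => (h d).choose
      naturality := fun d e f => (h e).unique trivial trivial }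

theorem acy_of_terminal (c : C) (h : ∀ d, ∃! f : d ⟶ c, True) : Acy C := by
  refine acy_of_nat c (Or.inl ⟨?_⟩)
  exact
    { app := fun d => (h d).choose
      naturality := fun d e f => (h d).unique trivial trivial }

private theorem Sx_ext0 {σ τ : Sx C 0} (ho : σ.o 0 = τ.o 0) : σ = τ := by
  rcases σ with ⟨o, m, hm, _⟩
  rcases τ with ⟨o', m', hm', _⟩
  have h : o = o' := funext fun i => by
    have hi : i = 0 := Subsingleton.elim (α := Fin 1) _ _
    rw [hi]
    exact ho
  subst h
  have h' : m = m' := by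
    funext i j h
    obtain rfl : i = j := Subsingleton.elim (α := Fin 1) _ _
    exact (hm i).trans (hm' i).symm
  subst h'
  rfl

/-- the `0`-simplex of an object -/
private def pnt (c : C) : Sx C 0 where
  o := fun _ => c
  m := fun _ _ _ => 𝟙 _
  m_self := fun _ => rfl
  m_comp := fun _ _ _ _ _ => Category.id_comp _

private theorem edge_mem {a b : C} (f : a ⟶ b) (r : ℚ) :
    (Finsupp.single (pnt b) r - Finsupp.single (pnt a) r : Sx C 0 →₀ ℚ) ∈ (NC C).Bd 0 := by
  refine ⟨Finsupp.single (Sx.cons a (pnt b) f) r, ?_⟩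
  rw [NC_d_single, Fin.sum_univ_two]
  have h0 : pre (dl (0 : Fin 2)) (Sx.cons a (pnt b) f) = pnt b := Sx_ext0 rfl
  have h1 : pre (dl (1 : Fin 2)) (Sx.cons a (pnt b) f) = pnt a := Sx_ext0 rfl
  rw [h0, h1]
  simp [sub_eq_add_neg]

private theorem zig_mem {a b : C} (h : Relation.EqvGen (fun x y : C => Nonempty (x ⟶ y)) a b)
    (r : ℚ) :
    (Finsupp.single (pnt b) r - Finsupp.single (pnt a) r : Sx C 0 →₀ ℚ) ∈ (NC C).Bd 0 := by
  induction h with
  | rel x y h => exact edge_mem h.some r
  | refl x =>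
    rw [sub_self]
    exact Submodule.zero_mem _
  | symm x y _ h =>
    rw [← neg_sub]
    exact Submodule.neg_mem _ h
  | trans x y z _ _ h1 h2 =>
    rw [← sub_add_sub_cancel _ (Finsupp.single (pnt y) r)]
    exact Submodule.add_mem _ h2 h1

/-- `H_0` of a nonempty category in which all objects are connected by zigzags -/
theorem H0_of_connected (h : ∀ a b : C, Relation.EqvGen (fun x y => Nonempty (x ⟶ y)) a b)
    (x : (NC C).X 0) (hx : Finsupp.linearCombination ℚ (fun _ => (1 : ℚ)) x = 0) :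
    x ∈ (NC C).Bd 0 := by
  rcases isEmpty_or_nonempty C with hC | ⟨⟨c⟩⟩
  · have : IsEmpty (Sx C 0) := ⟨fun σ => hC.elim (σ.o 0)⟩
    have hx0 : x = 0 := Subsingleton.elim (α := Sx C 0 →₀ ℚ) _ _
    rw [hx0]
    exact Submodule.zero_mem _
  · have key : ∀ y : Sx C 0 →₀ ℚ, (y - Finsupp.single (pnt c)
        (Finsupp.linearCombination ℚ (fun _ => (1 : ℚ)) y) : Sx C 0 →₀ ℚ) ∈ (NC C).Bd 0 := by
      intro y
      induction y using Finsupp.induction_linear with
      | zero =>
        rw [map_zero, Finsupp.single_zero, sub_zero]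
        exact Submodule.zero_mem _
      | add f g hf hg =>
        have := Submodule.add_mem _ hf hg
        rw [map_add, Finsupp.single_add]
        convert this using 1
        abel
      | single σ r =>
        rw [Finsupp.linearCombination_single, smul_eq_mul, mul_one]
        have h1 : σ = pnt (σ.o 0) := Sx_ext0 rfl
        rw [h1]
        exact zig_mem (h c (σ.o 0)) r
    have := key x
    rw [hx, Finsupp.single_zero, sub_zero] at this
    exact this

end C715
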