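import Pool.Agent.Work.MP_c71557_gt.H.Defs2

set_option autoImplicit false
set_option linter.unusedVariables false

/-!
# MP_c71557_gt, block H: further definitions (functors between one object categories, suspension
categories, products)
-/

namespace C715

open CategoryTheory

namespace ActCat

variable {Γ Γ' : Type} [Group Γ] [Group Γ']

/-- functor of groups -/
def sgMap (φ : Γ →* Γ') (K : Subgroup Γ) (L : Subgroup Γ') (h : ∀ k ∈ K, φ k ∈ L) :
    (sg K).Obj ⥤ (sg L).Obj :=
  functor (A := sg K) (A' := sg L) (fun _ => ()) φ (fun {_ _ g} hg => h g hg) (fun {_ n} hn => by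
    change φ n ∈ (⊥ : Subgroup Γ')
    have hn' : n ∈ (⊥ : Subgroup Γ) := hn
    rw [Subgroup.mem_bot] at hn' ⊢
    rw [hn', map_one])

/-- inclusion of groups -/
def sgIncl {K L : Subgroup Γ} (h : K ≤ L) : (sg K).Obj ⥤ (sg L).Obj :=
  sgMap (MonoidHom.id Γ) K L (fun _ hk => h hk)

/-- the functor from a group to a quotient group -/
def sgToGrp (K N' N : Subgroup Γ) (hle : N ≤ N') (hn : ∀ g ∈ N', ∀ n ∈ N, g⁻¹ * n * g ∈ N)
    (h : K ≤ N') : (sg K).Obj ⥤ (grp N' N hle hn).Obj :=
  functor (A := sg K) (A' := grp N' N hle hn) (fun _ => ()) (MonoidHom.id Γ)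
    (fun {_ _ g} hg => h hg) (fun {_ n} hn => by
      change n ∈ N
      have hn' : n ∈ (⊥ : Subgroup Γ) := hn
      rw [Subgroup.mem_bot] at hn'
      rw [hn']
      exact N.one_mem)

/-- restriction to a set of objects -/
def restr (A : ActCat Γ) (P : A.Ob → Prop) : ActCat Γ where
  Ob := {a : A.Ob // P a}
  Adm a g b := A.Adm a.1 g b.1
  N a := A.N a.1
  one a := A.one a.1
  mul := fun h h' => A.mul h h'
  nAdm := fun h => A.nAdm h
  conj := fun h h' => A.conj h h'

/-- inclusion of a full subcategory -/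
def restrIncl (A : ActCat Γ) (P : A.Ob → Prop) : (A.restr P).Obj ⥤ A.Obj :=
  functor (A := A.restr P) (A' := A) (fun a => a.1) (MonoidHom.id Γ) (fun h => h) (fun h => h)

/-- functors induced by the identity of the group -/
def idFun {A A' : ActCat Γ} (f : A.Ob → A'.Ob)
    (hAdm : ∀ {a b : A.Ob} {g : Γ}, A.Adm a g b → A'.Adm (f a) g (f b))
    (hN : ∀ {a : A.Ob} {n : Γ}, n ∈ A.N a → n ∈ A'.N (f a)) : A.Obj ⥤ A'.Obj :=
  functor f (MonoidHom.id Γ) hAdm hN

end ActCat
end C715
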