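import Pool.Agent.Work.MP_c71557_gt.H.Filt
import Pool.Agent.Work.MP_c71557_gt.H.Defs3

set_option autoImplicit false

/-!
# MP_c71557_gt, module H/ActDir: criteria for acyclic categories over and under an object (M)

`F = idFun f hAdm hN : A ⥤ A'` (same group `Γ`).  The category over `⟨b⟩` has as objects the pairs
`(a, [g])`, `g` admissible `f a → b`; morphisms `(a,[g]) → (a',[g'])` are the classes of `h : a → a'`
with `[g' h] = [g]`.
* `acy_over`: it is thin (`hthin`: two such `h, h'` satisfy `h⁻¹ h' ∈ A'.N (f a)`, by cancelling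
  `g'`: `(g' h)⁻¹ (g' h') = h⁻¹ h'`) and directed: `acy_of_directed`.
* `acy_over_top`: the same with a terminal object.
* `acy_under`: the category under `⟨b⟩` is cofiltered: `acy_of_cofiltered`
  (build `IsCofiltered` from `IsCofilteredOrEmpty`: lower bounds and equalizing of parallel arrows).
-/

namespace C715

open CategoryTheory

namespace ActCat

variable {Γ : Type} [Group Γ] {A A' : ActCat Γ} (f : A.Ob → A'.Ob)
  (hAdm : ∀ {a b : A.Ob} {g : Γ}, A.Adm a g b → A'.Adm (f a) g (f b))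
  (hN : ∀ {a : A.Ob} {n : Γ}, n ∈ A.N a → n ∈ A'.N (f a))

private theorem map_hom {a a' : A.Ob} {k : Γ} (hk : A.Adm a k a') :
    (idFun f hAdm hN).map (A.hom k hk) = A'.hom k (hAdm hk) := rfl

/-- objects over `b` -/
private theorem over_cases {b : A'.Ob}
    (X : CostructuredArrow (idFun f hAdm hN) (⟨b⟩ : A'.Obj)) :
    ∃ (a : A.Ob) (g : Γ) (hg : A'.Adm (f a) g b),
      X = CostructuredArrow.mk (S := idFun f hAdm hN) (Y := (⟨a⟩ : A.Obj)) (A'.hom g hg) := by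
  obtain ⟨⟨a⟩, ⟨⟨⟩⟩, h⟩ := X
  obtain ⟨g, hg, rfl⟩ := hom_surj (A := A') h
  exact ⟨a, g, hg, rfl⟩

/-- objects under `b` -/
private theorem under_cases {b : A'.Ob}
    (X : StructuredArrow (⟨b⟩ : A'.Obj) (idFun f hAdm hN)) :
    ∃ (a : A.Ob) (g : Γ) (hg : A'.Adm b g (f a)),
      X = StructuredArrow.mk (T := idFun f hAdm hN) (Y := (⟨a⟩ : A.Obj)) (A'.hom g hg) := by
  obtain ⟨⟨⟨⟩⟩, ⟨a⟩, h⟩ := X
  obtain ⟨g, hg, rfl⟩ := hom_surj (A := A') h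
  exact ⟨a, g, hg, rfl⟩

/-- arrows over `b` -/
private theorem over_hom {b : A'.Ob} {a a' : A.Ob} {g g' : Γ} {hg : A'.Adm (f a) g b}
    {hg' : A'.Adm (f a') g' b}
    (u : CostructuredArrow.mk (S := idFun f hAdm hN) (Y := (⟨a⟩ : A.Obj)) (A'.hom g hg) ⟶
      CostructuredArrow.mk (S := idFun f hAdm hN) (Y := (⟨a'⟩ : A.Obj)) (A'.hom g' hg')) :
    ∃ (k : Γ) (hk : A.Adm a k a'), u.left = A.hom k hk ∧ (g' * k)⁻¹ * g ∈ A'.N (f a) := by
  obtain ⟨k, hk, e⟩ := hom_surj (A := A) (x := ⟨a⟩) (y := ⟨a'⟩) u.left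
  refine ⟨k, hk, e, ?_⟩
  have h1 := CostructuredArrow.w u
  rw [e] at h1
  have h2 : A'.hom (g' * k) (A'.mul (hAdm hk) hg') = A'.hom g hg := h1
  exact hom_eq.1 h2

/-- arrows under `b` -/
private theorem under_hom {b : A'.Ob} {a a' : A.Ob} {g g' : Γ} {hg : A'.Adm b g (f a)}
    {hg' : A'.Adm b g' (f a')}
    (u : StructuredArrow.mk (T := idFun f hAdm hN) (Y := (⟨a⟩ : A.Obj)) (A'.hom g hg) ⟶
      StructuredArrow.mk (T := idFun f hAdm hN) (Y := (⟨a'⟩ : A.Obj)) (A'.hom g' hg')) :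
    ∃ (k : Γ) (hk : A.Adm a k a'), u.right = A.hom k hk ∧ (k * g)⁻¹ * g' ∈ A'.N b := by
  obtain ⟨k, hk, e⟩ := hom_surj (A := A) (x := ⟨a⟩) (y := ⟨a'⟩) u.right
  refine ⟨k, hk, e, ?_⟩
  have h1 := StructuredArrow.w u
  rw [e] at h1
  have h2 : A'.hom (k * g) (A'.mul hg (hAdm hk)) = A'.hom g' hg' := h1
  exact hom_eq.1 h2

/-- constructing arrows over `b` -/
private theorem over_mk {b : A'.Ob} {a a' : A.Ob} {g g' : Γ} (hg : A'.Adm (f a) g b)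
    (hg' : A'.Adm (f a') g' b) (k : Γ) (hk : A.Adm a k a') (h : (g' * k)⁻¹ * g ∈ A'.N (f a)) :
    ∃ u : (CostructuredArrow.mk (S := idFun f hAdm hN) (Y := (⟨a⟩ : A.Obj)) (A'.hom g hg) ⟶
      CostructuredArrow.mk (S := idFun f hAdm hN) (Y := (⟨a'⟩ : A.Obj)) (A'.hom g' hg')),
      u.left = A.hom k hk := by
  refine ⟨CostructuredArrow.homMk (A.hom k hk) ?_, rfl⟩
  change A'.hom (g' * k) (A'.mul (hAdm hk) hg') = A'.hom g hg
  exact hom_eq.2 h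

/-- constructing arrows under `b` -/
private theorem under_mk {b : A'.Ob} {a a' : A.Ob} {g g' : Γ} (hg : A'.Adm b g (f a))
    (hg' : A'.Adm b g' (f a')) (k : Γ) (hk : A.Adm a k a') (h : (k * g)⁻¹ * g' ∈ A'.N b) :
    ∃ u : (StructuredArrow.mk (T := idFun f hAdm hN) (Y := (⟨a⟩ : A.Obj)) (A'.hom g hg) ⟶
      StructuredArrow.mk (T := idFun f hAdm hN) (Y := (⟨a'⟩ : A.Obj)) (A'.hom g' hg')),
      u.right = A.hom k hk := by
  refine ⟨StructuredArrow.homMk (A.hom k hk) ?_, rfl⟩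
  change A'.hom (k * g) (A'.mul hg (hAdm hk)) = A'.hom g' hg'
  exact hom_eq.2 h

/-- two arrows over `b` differ by an element of `N` -/
private theorem over_diff {g g' k k' : Γ} {N : Subgroup Γ} (h : (g' * k)⁻¹ * g ∈ N)
    (h' : (g' * k')⁻¹ * g ∈ N) : k⁻¹ * k' ∈ N := by
  have h1 := N.mul_mem h (N.inv_mem h')
  have h2 : (g' * k)⁻¹ * g * ((g' * k')⁻¹ * g)⁻¹ = k⁻¹ * k' := by group
  rwa [h2] at h1

theorem acy_over (b : A'.Ob) (hne : ∃ a g, A'.Adm (f a) g b)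
    (hdir : ∀ a1 g1 a2 g2, A'.Adm (f a1) g1 b → A'.Adm (f a2) g2 b →
      ∃ a3 g3 k1 k2, A'.Adm (f a3) g3 b ∧ A.Adm a1 k1 a3 ∧ A.Adm a2 k2 a3 ∧
        (g3 * k1)⁻¹ * g1 ∈ A'.N (f a1) ∧ (g3 * k2)⁻¹ * g2 ∈ A'.N (f a2))
    (hthin : ∀ a a' g k k', A'.Adm (f a') g b → A.Adm a k a' → A.Adm a k' a' →
      k⁻¹ * k' ∈ A'.N (f a) → k⁻¹ * k' ∈ A.N a) :
    Acy (CostructuredArrow (idFun f hAdm hN) (⟨b⟩ : A'.Obj)) := by
  refine acy_of_directed ?_ ?_ ?_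
  · obtain ⟨a, g, hg⟩ := hne
    exact ⟨CostructuredArrow.mk (S := idFun f hAdm hN) (Y := (⟨a⟩ : A.Obj)) (A'.hom g hg)⟩
  · intro X Y u v
    obtain ⟨a, g, hg, rfl⟩ := over_cases f hAdm hN X
    obtain ⟨a', g', hg', rfl⟩ := over_cases f hAdm hN Y
    obtain ⟨k, hk, e, h1⟩ := over_hom f hAdm hN u
    obtain ⟨k', hk', e', h2⟩ := over_hom f hAdm hN v
    refine CostructuredArrow.hom_ext _ _ ?_
    rw [e, e']
    exact hom_eq.2 (hthin a a' g' k k' hg' hk hk' (over_diff h1 h2))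
  · intro X Y
    obtain ⟨a, g, hg, rfl⟩ := over_cases f hAdm hN X
    obtain ⟨a', g', hg', rfl⟩ := over_cases f hAdm hN Y
    obtain ⟨a3, g3, k1, k2, h3, hk1, hk2, e1, e2⟩ := hdir a g a' g' hg hg'
    obtain ⟨u, -⟩ := over_mk f hAdm hN hg h3 k1 hk1 e1
    obtain ⟨v, -⟩ := over_mk f hAdm hN hg' h3 k2 hk2 e2
    exact ⟨_, ⟨u⟩, ⟨v⟩⟩

theorem acy_over_top (b : A'.Ob) (a0 : A.Ob) (g0 : Γ) (h0 : A'.Adm (f a0) g0 b)
    (htop : ∀ a g, A'.Adm (f a) g b → ∃ k, A.Adm a k a0 ∧ (g0 * k)⁻¹ * g ∈ A'.N (f a))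
    (hthin : ∀ a k k', A.Adm a k a0 → A.Adm a k' a0 →
      k⁻¹ * k' ∈ A'.N (f a) → k⁻¹ * k' ∈ A.N a) :
    Acy (CostructuredArrow (idFun f hAdm hN) (⟨b⟩ : A'.Obj)) := by
  refine acy_of_terminal
    (CostructuredArrow.mk (S := idFun f hAdm hN) (Y := (⟨a0⟩ : A.Obj)) (A'.hom g0 h0))
    fun X => ?_
  obtain ⟨a, g, hg, rfl⟩ := over_cases f hAdm hN X
  obtain ⟨k, hk, h1⟩ := htop a g hg
  obtain ⟨u, hu⟩ := over_mk f hAdm hN hg h0 k hk h1
  refine ⟨u, trivial, fun v _ => ?_⟩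
  obtain ⟨k', hk', e', h2⟩ := over_hom f hAdm hN v
  refine CostructuredArrow.hom_ext _ _ ?_
  rw [e', hu]
  exact hom_eq.2 (hthin a k' k hk' hk (over_diff h2 h1))

theorem acy_under (b : A'.Ob) (hne : ∃ a g, A'.Adm b g (f a))
    (hdir : ∀ a1 g1 a2 g2, A'.Adm b g1 (f a1) → A'.Adm b g2 (f a2) →
      ∃ a3 g3 k1 k2, A'.Adm b g3 (f a3) ∧ A.Adm a3 k1 a1 ∧ A.Adm a3 k2 a2 ∧
        (k1 * g3)⁻¹ * g1 ∈ A'.N b ∧ (k2 * g3)⁻¹ * g2 ∈ A'.N b)
    (heq : ∀ a a' g k k', A'.Adm b g (f a) → A.Adm a k a' → A.Adm a k' a' →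
      (k * g)⁻¹ * (k' * g) ∈ A'.N b →
      ∃ a3 g3 m, A'.Adm b g3 (f a3) ∧ A.Adm a3 m a ∧ (m * g3)⁻¹ * g ∈ A'.N b ∧
        (k * m)⁻¹ * (k' * m) ∈ A.N a3) :
    Acy (StructuredArrow (⟨b⟩ : A'.Obj) (idFun f hAdm hN)) := by
  have : IsCofiltered (StructuredArrow (⟨b⟩ : A'.Obj) (idFun f hAdm hN)) :=
    { cone_objs := fun X Y => by
        obtain ⟨a, g, hg, rfl⟩ := under_cases f hAdm hN X
        obtain ⟨a', g', hg', rfl⟩ := under_cases f hAdm hN Y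
        obtain ⟨a3, g3, k1, k2, h3, hk1, hk2, e1, e2⟩ := hdir a g a' g' hg hg'
        obtain ⟨u, -⟩ := under_mk f hAdm hN h3 hg k1 hk1 e1
        obtain ⟨v, -⟩ := under_mk f hAdm hN h3 hg' k2 hk2 e2
        exact ⟨_, u, v, trivial⟩
      cone_maps := fun X Y u v => by
        obtain ⟨a, g, hg, rfl⟩ := under_cases f hAdm hN X
        obtain ⟨a', g', hg', rfl⟩ := under_cases f hAdm hN Y
        obtain ⟨k, hk, e, h1⟩ := under_hom f hAdm hN u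
        obtain ⟨k', hk', e', h2⟩ := under_hom f hAdm hN v
        have h3 : (k * g)⁻¹ * (k' * g) ∈ A'.N b := by
          have h4 := (A'.N b).mul_mem h1 ((A'.N b).inv_mem h2)
          have h5 : (k * g)⁻¹ * g' * ((k' * g)⁻¹ * g')⁻¹ = (k * g)⁻¹ * (k' * g) := by group
          rwa [h5] at h4
        obtain ⟨a3, g3, m, h4, hm, h5, h6⟩ := heq a a' g k k' hg hk hk' h3
        obtain ⟨w, hw⟩ := under_mk f hAdm hN h4 hg m hm h5
        refine ⟨_, w, StructuredArrow.hom_ext _ _ ?_⟩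
        rw [StructuredArrow.comp_right, StructuredArrow.comp_right, e, e', hw]
        change A.hom (k * m) _ = A.hom (k' * m) _
        exact hom_eq.2 h6
      nonempty := by
        obtain ⟨a, g, hg⟩ := hne
        exact ⟨StructuredArrow.mk (T := idFun f hAdm hN) (Y := (⟨a⟩ : A.Obj)) (A'.hom g hg)⟩ }
  exact acy_of_cofiltered

end ActCat
end C715
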