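import Pool.Agent.Work.MP_c71557_gt.H.Les

set_option autoImplicit false

/-!
# MP_c71557_gt, module H/BarEx: exactness of chains with coefficients (S-M)

`BarX F n = ⨁_σ F (σ 0)`, everything is componentwise (`barHom α` acts on the summand `σ` by
`α.f (σ 0)`).
* `bar_SES`: a sequence of coefficient systems which is short exact at every object gives a short
  exact sequence of complexes.
* `barHom_bij`: an isomorphism of systems gives bijections.
* `exists_barE1`: the `E¹` page of `hoco L`: `H_q` of the column `p`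
  (`q ↦ ⨁_σ L_q (σ 0)`, differential componentwise) is `⨁_σ H_q (L (σ 0))`, i.e. the complex
  `(hoco L).E1 q` is isomorphic to `barC (L.HF q)`: the map sends the class of a cycle
  `bof (L.F q) σ x` (`x` a cycle of `L (σ 0)`) to `bof (L.HF q) σ [x]`.
  (Define the map on cycles of the column by `bdesc`/components: the component at `σ` of a cycle is
  a cycle; use `DirectSum`/`DFinsupp` components.)
* `bar_zero`: if `F c = 0` for all `c` then `BarX F n` is zero; hence the homology vanishes.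
-/

namespace C715

open CategoryTheory

variable {C : Type} [SmallCategory C]

/-- components of `bof` at the same simplex -/
private theorem bof_same (F : Coef C) {n : ℕ} (σ : Sx C n) (y : F.M (σ.o 0)) :
    (bof F σ y) σ = y := by
  classical
  unfold bof
  exact DirectSum.lof_apply (M := fun τ : Sx C n => F.M (τ.o 0)) ℚ σ y

/-- components of `bof` at another simplex -/
private theorem bof_other (F : Coef C) {n : ℕ} (σ τ : Sx C n) (h : σ ≠ τ) (y : F.M (σ.o 0)) :
    (bof F σ y) τ = 0 := by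
  classical
  unfold bof
  exact DFinsupp.single_eq_of_ne (β := fun τ : Sx C n => F.M (τ.o 0)) h.symm

/-- maps of chains are componentwise -/
private theorem desc_apply (F G : Coef C) {n : ℕ} (α : ∀ c, F.M c →ₗ[ℚ] G.M c) (x : BarX F n)
    (τ : Sx C n) :
    (bdesc F (fun σ => (bof G σ).comp (α (σ.o 0))) x : BarX G n) τ = α (τ.o 0) (x τ) := by
  induction x using bar_ind with
  | h0 => simp
  | h1 σ y =>
    rw [bdesc_bof]
    by_cases h : σ = τ
    · subst h
      rw [bof_same]
      exact bof_same _ _ _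
    · rw [bof_other F σ τ h, map_zero]
      exact bof_other _ _ _ h _
  | h2 x y hx hy =>
    rw [map_add, DirectSum.add_apply, DirectSum.add_apply, hx, hy, map_add]

private theorem barHom_apply {F G : Coef C} (α : Coef.Hom F G) {n : ℕ} (x : BarX F n)
    (τ : Sx C n) : ((barHom α).f n x : BarX G n) τ = α.f (τ.o 0) (x τ) :=
  desc_apply F G α.f x τ

private theorem bar_ext' {F : Coef C} {n : ℕ} {x y : BarX F n} (h : ∀ τ, x τ = y τ) : x = y :=
  DFinsupp.ext h

/-- choosing componentwise -/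
private theorem bar_choose {F G : Coef C} {n : ℕ} (x : BarX G n)
    (P : ∀ c, F.M c → G.M c → Prop) (h0 : ∀ c, P c 0 0)
    (h : ∀ τ : Sx C n, ∃ y, P (τ.o 0) y (x τ)) : ∃ y : BarX F n, ∀ τ, P (τ.o 0) (y τ) (x τ) := by
  classical
  let s : ∀ τ : Sx C n, G.M (τ.o 0) → F.M (τ.o 0) := fun τ z =>
    if hz : z = 0 then 0 else if hh : ∃ y, P (τ.o 0) y z then hh.choose else 0
  have hs : ∀ τ, s τ 0 = 0 := fun τ => by simp [s]
  refine ⟨DFinsupp.mapRange s hs x, fun τ => ?_⟩
  change P _ (DFinsupp.mapRange s hs x τ) _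
  rw [DFinsupp.mapRange_apply]
  by_cases hz : x τ = 0
  · have : s τ (x τ) = 0 := by rw [hz]; exact hs τ
    rw [this, hz]
    exact h0 _
  · have : s τ (x τ) = (h τ).choose := by
      simp only [s, dif_neg hz, dif_pos (h τ)]
    rw [this]
    exact (h τ).choose_spec

/-- induction for chains with restricted components -/
private theorem bar_ind' (F : Coef C) {n : ℕ} (W : ∀ σ : Sx C n, Submodule ℚ (F.M (σ.o 0)))
    {p : BarX F n → Prop} (x : BarX F n) (hx : ∀ σ, x σ ∈ W σ)
    (h0 : p 0) (h1 : ∀ σ, ∀ y ∈ W σ, p (bof F σ y)) (h2 : ∀ x y, p x → p y → p (x + y)) : p x := by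
  classical
  have h : x = ∑ σ ∈ DFinsupp.support x, bof F σ (x σ) := by
    conv_lhs => rw [← DirectSum.sum_support_of x]
    refine Finset.sum_congr (by congr) fun σ _ => ?_
    unfold bof
    rw [DirectSum.lof_eq_of]
  rw [h]
  exact Finset.sum_induction _ p h2 h0 fun σ _ => h1 σ _ (hx σ)

theorem bar_SES {F G K : Coef C} (i : Coef.Hom F G) (p : Coef.Hom G K)
    (h1 : ∀ c, Function.Injective (i.f c)) (h2 : ∀ c, Function.Exact (i.f c) (p.f c))
    (h3 : ∀ c, Function.Surjective (p.f c)) : Cx.SES (barHom i) (barHom p) := by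
  refine ⟨fun n x y h => ?_, fun n x => ?_, fun n x => ?_⟩
  · refine bar_ext' fun τ => h1 _ ?_
    rw [← barHom_apply i x τ, ← barHom_apply i y τ]
    exact congrArg (fun z : BarX G n => z τ) h
  · constructor
    · intro h
      have h' : ∀ τ : Sx C n, ∃ y, i.f (τ.o 0) y = (x : BarX G n) τ := fun τ => by
        refine (h2 _ _).1 ?_
        rw [← barHom_apply p x τ]
        exact congrArg (fun z : BarX K n => z τ) h
      obtain ⟨y, hy⟩ := bar_choose (F := F) (G := G) x (fun c y z => i.f c y = z)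
        (fun c => map_zero _) h'
      exact ⟨y, bar_ext' fun τ => (barHom_apply i y τ).trans (hy τ)⟩
    · rintro ⟨y, rfl⟩
      refine bar_ext' fun τ => ?_
      rw [barHom_apply p _ τ, barHom_apply i _ τ]
      exact (h2 _ _).2 ⟨_, rfl⟩
  · obtain ⟨y, hy⟩ := bar_choose (F := G) (G := K) x (fun c y z => p.f c y = z)
      (fun c => map_zero _) (fun τ => h3 _ _)
    exact ⟨y, bar_ext' fun τ => (barHom_apply p y τ).trans (hy τ)⟩

theorem barHom_bij {F G : Coef C} (i : Coef.Hom F G) (h : ∀ c, Function.Bijective (i.f c))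
    (n : ℕ) : Function.Bijective ((barHom i).f n) := by
  refine ⟨fun x y h' => ?_, fun x => ?_⟩
  · refine bar_ext' fun τ => (h _).1 ?_
    rw [← barHom_apply i x τ, ← barHom_apply i y τ]
    exact congrArg (fun z : BarX G n => z τ) h'
  · obtain ⟨y, hy⟩ := bar_choose (F := F) (G := G) x (fun c y z => i.f c y = z)
      (fun c => map_zero _) (fun τ => (h _).2 _)
    exact ⟨y, bar_ext' fun τ => (barHom_apply i y τ).trans (hy τ)⟩

theorem qis_of_bij {A B : Cx} (f : Cx.Hom A B) (h : ∀ n, Function.Bijective (f.f n)) :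
    Cx.Qis f := by
  intro n
  constructor
  · rw [injective_iff_map_eq_zero]
    intro y hy
    obtain ⟨x, hx, rfl⟩ := Cx.H_surj y
    rw [Cx.H_cls, Cx.cls_eq_zero, Cx.mem_Bd] at hy
    obtain ⟨z, hz⟩ := hy
    obtain ⟨w, rfl⟩ := (h (n + 1)).2 z
    rw [← f.comm] at hz
    exact Cx.cls_eq_zero.2 ⟨w, (h n).1 hz⟩
  · intro y
    obtain ⟨x, hx, rfl⟩ := Cx.H_surj y
    obtain ⟨w, rfl⟩ := (h n).2 x
    have hw : w ∈ A.Z n := by
      cases n with
      | zero => trivial
      | succ n =>
        rw [Cx.mem_Z_succ] at hx ⊢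
        refine (h n).1 ?_
        rw [f.comm, hx, map_zero]
    exact ⟨A.cls n w hw, rfl⟩

private theorem exists_ext (A : Cx) (q : ℕ) :
    ∃ ρ : A.X q →ₗ[ℚ] A.H q, ∀ x hx, ρ x = A.cls q x hx := by
  obtain ⟨g, hg⟩ := LinearMap.exists_extend (p := A.Z q)
    (Submodule.mkQ ((A.Bd q).submoduleOf (A.Z q)))
  exact ⟨g, fun x hx => congrArg (fun f => f ⟨x, hx⟩) hg⟩

theorem exists_barE1 (L : CoefCx C) (q : ℕ) :
    ∃ f : Cx.Hom (L.hoco.E1 q) (barC (L.HF q)), (∀ p, Function.Bijective (f.f p)) ∧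
      ∀ p (σ : Sx C p) (x : (L.F q).M (σ.o 0)) (hx : x ∈ (L.at' (σ.o 0)).Z q)
        (hx' : bof (L.F q) σ x ∈ (L.hoco.col p).Z q),
        f.f p ((L.hoco.col p).cls q (bof (L.F q) σ x) hx') =
          bof (L.HF q) σ ((L.at' (σ.o 0)).cls q x hx) := by
  choose ρ hρ using fun c : C => exists_ext (L.at' c) q
  -- cycles of a column are componentwise cycles
  have hZ : ∀ (q : ℕ) (p : ℕ) (x : BarX (L.F q) p), x ∈ (L.hoco.col p).Z q ↔
      ∀ σ : Sx C p, x σ ∈ (L.at' (σ.o 0)).Z q := by
    intro q p x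
    cases q with
    | zero => exact ⟨fun _ _ => trivial, fun _ => trivial⟩
    | succ q =>
      rw [Cx.mem_Z_succ]
      constructor
      · intro h σ
        rw [Cx.mem_Z_succ]
        have := barHom_apply (L.d q) x σ
        exact this.symm.trans (congrArg (fun z : BarX (L.F q) p => z σ) h)
      · intro h
        exact bar_ext' fun σ => (barHom_apply (L.d q) x σ).trans (h σ)
  let R : ∀ p, BarX (L.F q) p →ₗ[ℚ] BarX (L.HF q) p := fun p =>
    bdesc (L.F q) fun σ => (bof (L.HF q) σ).comp (ρ (σ.o 0))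
  have hR : ∀ p (x : BarX (L.F q) p) (τ : Sx C p), (R p x) τ = ρ (τ.o 0) (x τ) := fun p x τ =>
    desc_apply (L.F q) (L.HF q) ρ x τ
  have hRb : ∀ p (σ : Sx C p) (x : (L.F q).M (σ.o 0)), R p (bof (L.F q) σ x) =
      bof (L.HF q) σ (ρ (σ.o 0) x) := fun p σ x => bdesc_bof _ _ _ _
  have hker : ∀ p, ((L.hoco.col p).Bd q).submoduleOf ((L.hoco.col p).Z q) ≤
      LinearMap.ker ((R p).comp ((L.hoco.col p).Z q).subtype) := by
    rintro p ⟨x, hx⟩ ⟨y, hy⟩
    have hy' : (L.hoco.col p).d q y = x := hy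
    rw [LinearMap.mem_ker]
    refine bar_ext' fun τ => ?_
    change (R p x) τ = 0
    rw [hR]
    have h1 : (x : BarX (L.F q) p) τ = (L.at' (τ.o 0)).d q ((y : BarX (L.F (q + 1)) p) τ) := by
      rw [← hy']
      exact barHom_apply (L.d q) y τ
    rw [h1, hρ _ _ ((L.at' (τ.o 0)).d_mem_Z q _)]
    exact Cx.cls_eq_zero.2 ⟨_, rfl⟩
  let f : ∀ p, (L.hoco.col p).H q →ₗ[ℚ] BarX (L.HF q) p := fun p =>
    Submodule.liftQ _ ((R p).comp ((L.hoco.col p).Z q).subtype) (hker p)
  have hf : ∀ p x hx, f p ((L.hoco.col p).cls q x hx) = R p x := fun p x hx => rfl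
  have hcomm : ∀ {m n : ℕ} (φ : Fin (m + 1) →o Fin (n + 1)) (x : BarX (L.F q) n),
      x ∈ (L.hoco.col n).Z q → R m (barMap (L.F q) φ x) = barMap (L.HF q) φ (R n x) := by
    intro m n φ x hx
    rw [hZ] at hx
    refine bar_ind' (p := fun x => R m (barMap (L.F q) φ x) = barMap (L.HF q) φ (R n x))
      (L.F q) (fun σ => (L.at' (σ.o 0)).Z q) x hx ?_ ?_ ?_
    · simp
    · intro σ y hy
      rw [barMap_bof, hRb, hRb, barMap_bof]
      congr 1
      have h2 : (L.F q).map (σ.m 0 (φ 0) (Fin.zero_le _)) y ∈ (L.at' (σ.o (φ 0))).Z q :=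
        (L.mapAt (σ.m 0 (φ 0) (Fin.zero_le _))).map_Z q hy
      rw [hρ _ _ h2, hρ _ _ hy]
      rfl
    · intro x y h3 h4
      rw [map_add, map_add, map_add, map_add, h3, h4]
  refine ⟨⟨f, ?_⟩, ?_, ?_⟩
  · intro p y
    obtain ⟨x, hx, rfl⟩ := Cx.H_surj (A := L.hoco.col (p + 1)) y
    change f p ((L.hoco.col p).cls q ((L.hoco.colMap p).f q x) _) =
      (barS (L.HF q)).alt p (f (p + 1) ((L.hoco.col (p + 1)).cls q x hx))
    rw [hf, hf]
    change R p ((barS (L.F q)).alt p x) = _
    rw [SMod.alt_apply, SMod.alt_apply, map_sum]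
    refine Finset.sum_congr rfl fun i _ => ?_
    rw [map_smul]
    congr 1
    exact hcomm _ _ hx
  · intro p
    constructor
    · rw [injective_iff_map_eq_zero]
      intro y hy
      obtain ⟨x, hx, rfl⟩ := Cx.H_surj (A := L.hoco.col p) y
      change R p x = 0 at hy
      have h5 := (hZ q p x).1 hx
      have h6 : ∀ τ : Sx C p, ∃ z, (L.at' (τ.o 0)).d q z = (x : BarX (L.F q) p) τ := by
        intro τ
        have h7 : (R p x) τ = 0 := congrArg (fun z : BarX (L.HF q) p => z τ) hy
        rw [hR, hρ _ _ (h5 τ), Cx.cls_eq_zero] at h7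
        exact h7
      obtain ⟨z, hz⟩ := bar_choose (F := L.F (q + 1)) (G := L.F q) x
        (fun c y z => (L.at' c).d q y = z) (fun c => map_zero _) h6
      refine Cx.cls_eq_zero.2 ⟨z, ?_⟩
      exact bar_ext' fun τ => (barHom_apply (L.d q) z τ).trans (hz τ)
    · intro y
      change ∃ a, f p a = y
      induction y using bar_ind with
      | h0 => exact ⟨0, map_zero _⟩
      | h1 σ y =>
        obtain ⟨x, hx, rfl⟩ := Cx.H_surj (A := L.at' (σ.o 0)) y
        have hx' : bof (L.F q) σ x ∈ (L.hoco.col p).Z q := by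
          rw [hZ]
          intro τ
          by_cases h : σ = τ
          · subst h
            rw [bof_same]
            exact hx
          · rw [bof_other _ _ _ h]
            exact Submodule.zero_mem _
        refine ⟨(L.hoco.col p).cls q (bof (L.F q) σ x) hx', ?_⟩
        rw [hf, hRb, hρ _ _ hx]
      | h2 x y hx hy =>
        obtain ⟨a, rfl⟩ := hx
        obtain ⟨b, rfl⟩ := hy
        exact ⟨a + b, map_add _ _ _⟩
  · intro p σ x hx hx'
    change f p _ = _
    rw [hf, hRb, hρ _ _ hx]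

theorem bar_zero (F : Coef C) (h : ∀ c, Subsingleton (F.M c)) (n : ℕ) :
    Subsingleton ((barC F).H n) := by
  rw [Cx.H_subsingleton]
  intro x _
  have : x = 0 := bar_ext' (F := F) fun τ => (h _).elim _ _
  rw [this]
  exact Submodule.zero_mem _

end C715
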