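import Pool.Agent.Work.MP_c71557_gt.H.Equiv
import Pool.Agent.Work.MP_c71557_gt.H.BarEx

set_option autoImplicit false

/-!
# MP_c71557_gt, module H/Op: homology of the opposite category (S-M)

`rev σ` reverses a simplex.  `pre (dl i) (rev σ) = rev (pre (dl (Fin.rev i)) σ)`, hence
`∂ (rev σ) = (-1)^{n+1} rev (∂ σ)` for an `(n+1)`-simplex, so
`σ ↦ (-1)^{n(n+1)/2} rev σ` is a chain map `NC Cᵒᵖ → NC C`; it is bijective in each degree and
natural.
-/

namespace C715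

open CategoryTheory Opposite

variable {C : Type} [SmallCategory C] {D : Type} [SmallCategory D]

/-- reversed simplex -/
def Sx.rev {n : ℕ} (σ : Sx Cᵒᵖ n) : Sx C n where
  o i := (σ.o i.rev).unop
  m i j h := (σ.m j.rev i.rev (Fin.rev_le_rev.2 h)).unop
  m_self i := by
    rw [σ.m_self]
    rfl
  m_comp i j k h h' := by
    rw [← unop_comp, σ.m_comp]

/-- precomposition with an antitone map -/
private def apre {m n : ℕ} (g : Fin (m + 1) → Fin (n + 1)) (hg : Antitone g) (σ : Sx Cᵒᵖ n) :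
    Sx C m where
  o i := (σ.o (g i)).unop
  m i j h := (σ.m (g j) (g i) (hg h)).unop
  m_self i := by
    rw [σ.m_self]
    rfl
  m_comp i j k h h' := by
    rw [← unop_comp, σ.m_comp]

private theorem apre_congr {m n : ℕ} {g g' : Fin (m + 1) → Fin (n + 1)} (hg : Antitone g)
    (hg' : Antitone g') (h : g = g') (σ : Sx Cᵒᵖ n) : apre g hg σ = apre g' hg' σ := by
  subst h
  rfl

private theorem pre_rev {n : ℕ} (j : Fin (n + 2)) (σ : Sx Cᵒᵖ (n + 1)) :
    pre (dl j) σ.rev = (pre (dl j.rev) σ).rev := by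
  exact apre_congr (g := fun k => (dl j k).rev) (g' := fun k => dl j.rev k.rev)
    (fun a b h => Fin.rev_le_rev.2 ((dl j).monotone h))
    (fun a b h => (dl j.rev).monotone (Fin.rev_le_rev.2 h))
    (funext fun k => Fin.rev_succAbove j k) σ

private theorem eps_succ (n : ℕ) : (-1 : ℚ) ^ ((n + 1) * (n + 1 + 1) / 2) =
    (-1 : ℚ) ^ (n * (n + 1) / 2) * (-1) ^ (n + 1) := by
  rw [← pow_add]
  congr 1
  have h : (n + 1) * (n + 1 + 1) = n * (n + 1) + (n + 1) * 2 := by ring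
  rw [h, Nat.add_mul_div_right _ _ (by norm_num)]

theorem exists_opC (C : Type) [SmallCategory C] :
    ∃ f : Cx.Hom (NC Cᵒᵖ) (NC C), ∀ n (σ : Sx Cᵒᵖ n) (a : ℚ),
      f.f n (Finsupp.single σ a) = Finsupp.single σ.rev ((-1 : ℚ) ^ (n * (n + 1) / 2) * a) := by
  let f : ∀ n, (Sx Cᵒᵖ n →₀ ℚ) →ₗ[ℚ] (Sx C n →₀ ℚ) := fun n =>
    ((-1 : ℚ) ^ (n * (n + 1) / 2)) • Finsupp.lmapDomain ℚ ℚ Sx.rev
  have hf : ∀ n (σ : Sx Cᵒᵖ n) (a : ℚ), f n (Finsupp.single σ a) =
      Finsupp.single σ.rev ((-1 : ℚ) ^ (n * (n + 1) / 2) * a) := by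
    intro n σ a
    change ((-1 : ℚ) ^ (n * (n + 1) / 2)) • Finsupp.mapDomain (Sx.rev : Sx Cᵒᵖ n → Sx C n)
      (Finsupp.single σ a) = _
    rw [Finsupp.mapDomain_single, Finsupp.smul_single]
    rfl
  refine ⟨⟨f, fun n x => ?_⟩, hf⟩
  have : (f n).comp ((NC Cᵒᵖ).d n) = ((NC C).d n).comp (f (n + 1)) := by
    refine Finsupp.lhom_ext fun σ a => ?_
    rw [LinearMap.comp_apply, LinearMap.comp_apply, NC_d_single, hf, map_sum, NC_d_single]
    rw [← Equiv.sum_comp Fin.revPerm (fun i => ((-1 : ℚ) ^ (i : ℕ)) • Finsupp.single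
      (pre (dl i) σ.rev) _)]
    refine Finset.sum_congr rfl fun i _ => ?_
    rw [map_smul, hf]
    simp only [Fin.revPerm_apply]
    rw [pre_rev, Fin.rev_rev, Finsupp.smul_single, Finsupp.smul_single]
    congr 1
    rw [smul_eq_mul, smul_eq_mul, eps_succ, Fin.val_rev]
    have h1 : n + 1 = (n + 2 - ((i : ℕ) + 1)) + (i : ℕ) := by have := i.2; omega
    have h2 : (-1 : ℚ) ^ (n + 1) = (-1) ^ (n + 2 - ((i : ℕ) + 1)) * (-1) ^ (i : ℕ) := by
      rw [← pow_add, ← h1]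
    have h3 : (-1 : ℚ) ^ (n + 2 - ((i : ℕ) + 1)) * (-1) ^ (n + 2 - ((i : ℕ) + 1)) = 1 := by
      rw [← mul_pow]
      simp
    rw [h2]
    linear_combination (-((-1 : ℚ) ^ (i : ℕ) * (-1) ^ (n * (n + 1) / 2) * a)) * h3
  exact congrArg (fun l => l x) this

/-- the chain isomorphism `NC Cᵒᵖ → NC C` -/
noncomputable def opC (C : Type) [SmallCategory C] : Cx.Hom (NC Cᵒᵖ) (NC C) :=
  (exists_opC C).choose

theorem opC_single {n : ℕ} (σ : Sx Cᵒᵖ n) (a : ℚ) : (opC C).f n (Finsupp.single σ a) =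
    Finsupp.single σ.rev ((-1 : ℚ) ^ (n * (n + 1) / 2) * a) :=
  (exists_opC C).choose_spec n σ a

/-- the inverse of `Sx.rev` -/
private def ver {n : ℕ} (τ : Sx C n) : Sx Cᵒᵖ n where
  o i := op (τ.o i.rev)
  m i j h := (τ.m j.rev i.rev (Fin.rev_le_rev.2 h)).op
  m_self i := by
    rw [τ.m_self]
    rfl
  m_comp i j k h h' := by
    rw [← op_comp, τ.m_comp]

private theorem pre_rr {D : Type} [SmallCategory D] {n : ℕ} (τ : Sx D n) :
    pre ⟨fun i => i.rev.rev, fun _ _ h => Fin.rev_le_rev.2 (Fin.rev_le_rev.2 h)⟩ τ = τ := by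
  have : (⟨fun i => i.rev.rev, fun _ _ h => Fin.rev_le_rev.2 (Fin.rev_le_rev.2 h)⟩ :
      Fin (n + 1) →o Fin (n + 1)) = OrderHom.id := by
    ext i : 2
    simp
  rw [this]
  rfl

private theorem rev_ver {n : ℕ} (τ : Sx C n) : (ver τ).rev = τ := pre_rr τ

private theorem ver_rev {n : ℕ} (σ : Sx Cᵒᵖ n) : ver σ.rev = σ := pre_rr σ

theorem opC_bij (n : ℕ) : Function.Bijective ((opC C).f n) := by
  have hu : (-1 : ℚ) ^ (n * (n + 1) / 2) * (-1 : ℚ) ^ (n * (n + 1) / 2) = 1 := by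
    rw [← mul_pow]
    simp
  let g : (Sx C n →₀ ℚ) →ₗ[ℚ] (Sx Cᵒᵖ n →₀ ℚ) :=
    ((-1 : ℚ) ^ (n * (n + 1) / 2)) • Finsupp.lmapDomain ℚ ℚ ver
  have hg : ∀ (σ : Sx C n) (a : ℚ), g (Finsupp.single σ a) =
      Finsupp.single (ver σ) ((-1 : ℚ) ^ (n * (n + 1) / 2) * a) := by
    intro σ a
    change ((-1 : ℚ) ^ (n * (n + 1) / 2)) • Finsupp.mapDomain (ver : Sx C n → Sx Cᵒᵖ n)
      (Finsupp.single σ a) = _
    rw [Finsupp.mapDomain_single, Finsupp.smul_single]
    rfl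
  have h1 : g.comp ((opC C).f n) = LinearMap.id := by
    refine Finsupp.lhom_ext fun σ a => ?_
    rw [LinearMap.comp_apply, opC_single, hg, ver_rev, ← mul_assoc, hu, one_mul]
    rfl
  have h2 : ((opC C).f n).comp g = LinearMap.id := by
    refine Finsupp.lhom_ext fun σ a => ?_
    rw [LinearMap.comp_apply, hg, opC_single, rev_ver, ← mul_assoc, hu, one_mul]
    rfl
  refine ⟨Function.LeftInverse.injective (g := g) fun x => congrArg (fun l => l x) h1,
    Function.RightInverse.surjective (g := g) fun x => congrArg (fun l => l x) h2⟩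

theorem opC_nat (F : C ⥤ D) : (opC C).comp (NCmap F) = (NCmap F.op).comp (opC D) := by
  refine Cx.Hom.ext (funext fun n => Finsupp.lhom_ext fun σ a => ?_)
  change (NCmap F).f n ((opC C).f n (Finsupp.single σ a)) =
    (opC D).f n ((NCmap F.op).f n (Finsupp.single σ a))
  rw [opC_single, NCmap_single, NCmap_single, opC_single]
  rfl

theorem opC_qis : Cx.Qis (opC C) := qis_of_bij _ opC_bij

private theorem opC_aug (x : (NC Cᵒᵖ).X 0) :
    Finsupp.linearCombination ℚ (fun _ => (1 : ℚ)) ((opC C).f 0 x) =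
      Finsupp.linearCombination ℚ (fun _ => (1 : ℚ)) x := by
  have : (Finsupp.linearCombination ℚ (fun _ : Sx C 0 => (1 : ℚ))).comp ((opC C).f 0) =
      Finsupp.linearCombination ℚ (fun _ : Sx Cᵒᵖ 0 => (1 : ℚ)) := by
    refine Finsupp.lhom_ext fun σ a => ?_
    rw [LinearMap.comp_apply, opC_single, Finsupp.linearCombination_single,
      Finsupp.linearCombination_single]
    simp
  exact congrArg (fun l => l x) this

private theorem opC_Bd0 (x : (NC Cᵒᵖ).X 0) : (opC C).f 0 x ∈ (NC C).Bd 0 ↔ x ∈ (NC Cᵒᵖ).Bd 0 := by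
  have h1 := (opC_qis (C := C) 0).1
  rw [← Cx.cls_eq_zero (hx := Cx.mem_Z_zero x), ← map_eq_zero_iff _ h1, Cx.H_cls, Cx.cls_eq_zero]

theorem acy_op : Acy Cᵒᵖ ↔ Acy C := by
  refine and_congr ⟨fun ⟨c⟩ => ⟨c.unop⟩, fun ⟨c⟩ => ⟨op c⟩⟩ (and_congr ?_ (forall_congr' fun n => ?_))
  · constructor
    · intro h y hy
      obtain ⟨x, rfl⟩ := (opC_bij (C := C) 0).2 y
      rw [opC_Bd0]
      rw [opC_aug] at hy
      exact h x hy
    · intro h x hx
      rw [← opC_Bd0]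
      refine h _ ?_
      rw [opC_aug]
      exact hx
  · have := Equiv.ofBijective _ (opC_qis (C := C) (n + 1))
    exact this.subsingleton_congr

theorem hiso_op (F : C ⥤ D) : HIso F.op ↔ HIso F := by
  constructor
  · intro h
    have h1 : Cx.Qis ((opC C).comp (NCmap F)) := by
      rw [opC_nat]
      exact Cx.Qis.comp h opC_qis
    exact Cx.Qis.of_comp_left opC_qis h1
  · intro h
    have h1 : Cx.Qis ((NCmap F.op).comp (opC D)) := by
      rw [← opC_nat]
      exact Cx.Qis.comp opC_qis h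
    exact Cx.Qis.of_comp_right opC_qis h1

end C715
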