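import Pool.Agent.Work.MP_c71557_gt.H.Defs2

/-!
# MP_c71557_gt, module H/E2: estimate of the homology of a total complex (M-L)

Statement: if every `E²_{p,q} = H_p(E¹_{*,q})`, `E¹_{p,q} = H_q(column p)`, with `p + q = n`,
belongs to a Serre class `S`, then `H_n(Tot K)` belongs to `S`.

PROOF.  For `k ≥ 0` let `F_k` = set of classes in `H_n(Tot)` having a representative cycle `a` with
`a_{p,q} = 0` for `p ≥ k` (a subspace); `F_0 = 0`, `F_{n+1} = everything`.  Show `S.P F_k` by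
induction on `k ≤ n + 1`, using `S.ext3 F_k F_{k+1} E²_{k,n-k}`: for a cycle `a` supported in
`p ≤ k`, the equation `totd a = 0` at `(k, n-k-1)` says `dv a_{k,n-k} = 0` (as `a_{k+1,·} = 0`), so
`a_{k,n-k}` has a class in `E¹_{k,n-k}`, and at `(k-1, n-k)` it says
`dh a_{k,n-k} = ∓ dv a_{k-1,n-k+1}`, so that class is a cycle of `E¹_{*,n-k}`.  CLAIM: if its class
in `E²_{k,n-k}` is zero then `[a] ∈ F_k`.  Indeed then `a_{k,n-k} = dh y + dv x` with
`y ∈ K_{k+1,n-k}`, `dv y = 0` (or `n - k = 0`), `x ∈ K_{k,n-k+1}`; `a - totd (y + (-1)^k x)` is a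
cycle homologous to `a` supported in `p ≤ k - 1` (`totd y = dh y` because `dv y = 0`;
`totd ((-1)^k x) = dv x ± dh x` with `dh x` in column `k - 1`).
To get linear maps: let `W_k ⊆ Z_n(Tot)` be the subspace of cycles supported in `p ≤ k`; define
`W_k → E²_{k,n-k}` linear; its kernel maps into `F_k`; consider the images in `H_n`:
apply `ext3` to `F_k → F_{k+1} → E²/(image of the boundaries)`, or, simpler, prove `S.P` of the
quotient of `W_k` by `W_k ∩ boundaries` by induction: `ext3` with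
`U = W_{k-1}/(bd)`, `V = W_k/(bd)`, and `W` the quotient of the submodule
`image of W_k in E²` by the image of `W_k ∩ bd` (quotients and submodules of members of `S` are in
`S`: `Serre.of_inj`, `Serre.of_surj`).
-/

set_option autoImplicit false

namespace C715
namespace DCx

variable (K : DCx)

private def e2supp (n k : ℕ) : Submodule ℚ (K.Tot.X n) where
  carrier := {a | ∀ p q, k ≤ p → a.1 p q = 0}
  add_mem' {a b} ha hb p q h := by
    show a.1 p q + b.1 p q = 0
    rw [ha p q h, hb p q h, add_zero]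
  zero_mem' p q _ := rfl
  smul_mem' c a ha p q h := by
    show c • a.1 p q = 0
    rw [ha p q h, smul_zero]

/-- cycles supported in columns `< k` -/
private def e2W (n k : ℕ) : Submodule ℚ (K.Tot.X n) := K.Tot.Z n ⊓ e2supp K n k

private abbrev e2V (n k : ℕ) : Type := (e2W K n k) ⧸ (K.Tot.Bd n).submoduleOf (e2W K n k)

private theorem e2_tot {n : ℕ} {a : K.Tot.X n} (ha : a ∈ K.Tot.Z n) : K.totd a.1 = 0 := by
  cases n with
  | zero =>
    funext p q
    rw [totd_apply, a.2 (p + 1) q (by omega), a.2 p (q + 1) (by omega)]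
    simp
  | succ n => exact congrArg Subtype.val (Cx.mem_Z_succ.1 ha)

private def e2ev (n p q : ℕ) : K.Tot.X n →ₗ[ℚ] K.X p q :=
  (LinearMap.proj q).comp ((LinearMap.proj p).comp (K.totX n).subtype)

private theorem e2_cyc {k q : ℕ} {a : K.Tot.X (k + q)} (ha : a ∈ e2W K (k + q) (k + 1)) :
    a.1 k q ∈ (K.col k).Z q := by
  cases q with
  | zero => trivial
  | succ q =>
    refine Cx.mem_Z_succ.2 ?_
    have h := congrFun (congrFun (e2_tot K ha.1) k) q
    rw [totd_apply, ha.2 (k + 1) q le_rfl, map_zero, zero_add] at h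
    have h2 : ((-1 : ℚ) ^ k) ≠ 0 := by positivity
    exact (smul_eq_zero.1 h).resolve_left (pow_ne_zero _ (by norm_num))

private def e2psi (k q : ℕ) : e2W K (k + q) (k + 1) →ₗ[ℚ] (K.col k).Z q :=
  LinearMap.codRestrict _ ((e2ev K (k + q) k q).comp (e2W K (k + q) (k + 1)).subtype)
    (fun a => e2_cyc K a.2)

private theorem e2_cyc2 {k q : ℕ} (a : e2W K (k + q) (k + 1)) :
    (K.col k).cls q (a.1.1 k q) (e2_cyc K a.2) ∈ (K.E1 q).Z k := by
  cases k with
  | zero => trivial
  | succ k =>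
    refine Cx.mem_Z_succ.2 ?_
    show (K.colMap k).H q ((K.col (k + 1)).cls q (a.1.1 (k + 1) q) _) = 0
    rw [Cx.H_cls, Cx.cls_eq_zero]
    have h := congrFun (congrFun (e2_tot K a.2.1) k) q
    rw [totd_apply] at h
    refine ⟨-(((-1 : ℚ) ^ k) • a.1.1 k (q + 1)), ?_⟩
    rw [map_neg, map_smul]
    exact (eq_neg_of_add_eq_zero_left h).symm

private noncomputable def e2phi (k q : ℕ) : e2W K (k + q) (k + 1) →ₗ[ℚ] (K.E1 q).H k :=
  (Submodule.mkQ _).comp (LinearMap.codRestrict ((K.E1 q).Z k)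
    ((Submodule.mkQ ((K.col k).Bd q |>.submoduleOf ((K.col k).Z q))).comp (e2psi K k q))
    (fun a => e2_cyc2 K a))

private theorem e2phi_apply (k q : ℕ) (a : e2W K (k + q) (k + 1)) : e2phi K k q a =
    (K.E1 q).cls k ((K.col k).cls q (a.1.1 k q) (e2_cyc K a.2)) (e2_cyc2 K a) := rfl

private theorem e2_claim (k q : ℕ) (a : e2W K (k + q) (k + 1)) (h : e2phi K k q a = 0) :
    ∃ w : K.Tot.X (k + q + 1), a.1 - K.Tot.d (k + q) w ∈ e2W K (k + q) k := by
  rw [e2phi_apply, Cx.cls_eq_zero] at h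
  obtain ⟨c, hc⟩ := h
  obtain ⟨y, hy, rfl⟩ := Cx.H_surj (A := K.col (k + 1)) c
  have hc' : (K.colMap k).H q ((K.col (k + 1)).cls q y hy) =
    (K.col k).cls q (a.1.1 k q) (e2_cyc K a.2) := hc
  rw [Cx.H_cls] at hc'
  have hc2 := Cx.cls_eq.1 hc'.symm
  obtain ⟨x, hx⟩ := hc2
  have hx' : K.dv k q x = a.1.1 k q - K.dh k q y := hx
  let w1 : (p : ℕ) → (q : ℕ) → K.X p q :=
    Pi.single (M := fun p => (q : ℕ) → K.X p q) (k + 1) (Pi.single (M := fun q => K.X (k + 1) q) q y)
  let w2 : (p : ℕ) → (q : ℕ) → K.X p q :=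
    Pi.single (M := fun p => (q : ℕ) → K.X p q) k
      (Pi.single (M := fun q => K.X k q) (q + 1) (((-1 : ℚ) ^ k) • x))
  have hw1 : ∀ p q', (p ≠ k + 1 ∨ q' ≠ q) → w1 p q' = 0 := by
    rintro p q' h
    by_cases hp : p = k + 1
    · subst hp
      have hq : q' ≠ q := by
        rcases h with h | h
        · exact absurd rfl h
        · exact h
      show Pi.single (M := fun p => (q : ℕ) → K.X p q) (k + 1) _ (k + 1) q' = 0
      rw [Pi.single_eq_same, Pi.single_eq_of_ne hq]
    · show Pi.single (M := fun p => (q : ℕ) → K.X p q) (k + 1) _ p q' = 0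
      rw [Pi.single_eq_of_ne hp]
      rfl
  have hw1' : w1 (k + 1) q = y := by
    show Pi.single (M := fun p => (q : ℕ) → K.X p q) (k + 1) _ (k + 1) q = y
    rw [Pi.single_eq_same, Pi.single_eq_same]
  have hw2 : ∀ p q', (p ≠ k ∨ q' ≠ q + 1) → w2 p q' = 0 := by
    rintro p q' h
    by_cases hp : p = k
    · subst hp
      have hq : q' ≠ q + 1 := by
        rcases h with h | h
        · exact absurd rfl h
        · exact h
      show Pi.single (M := fun p => (q : ℕ) → K.X p q) p _ p q' = 0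
      rw [Pi.single_eq_same, Pi.single_eq_of_ne hq]
    · show Pi.single (M := fun p => (q : ℕ) → K.X p q) k _ p q' = 0
      rw [Pi.single_eq_of_ne hp]
      rfl
  have hw2' : w2 k (q + 1) = ((-1 : ℚ) ^ k) • x := by
    show Pi.single (M := fun p => (q : ℕ) → K.X p q) k _ k (q + 1) = _
    rw [Pi.single_eq_same, Pi.single_eq_same]
  have hmem : w1 + w2 ∈ K.totX (k + q + 1) := by
    intro p q' hpq
    show w1 p q' + w2 p q' = 0
    rw [hw1 p q' (by by_contra hcon; push Not at hcon; omega),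
      hw2 p q' (by by_contra hcon; push Not at hcon; omega), add_zero]
  refine ⟨⟨w1 + w2, hmem⟩, ?_, ?_⟩
  · exact (K.Tot.Z _).sub_mem a.2.1 (Cx.d_mem_Z _ _ _)
  · intro p q' hkp
    show a.1.1 p q' - K.totd (w1 + w2) p q' = 0
    rw [totd_apply]
    show a.1.1 p q' - (K.dh p q' (w1 (p + 1) q' + w2 (p + 1) q') +
      ((-1 : ℚ) ^ p) • K.dv p q' (w1 p (q' + 1) + w2 p (q' + 1))) = 0
    rcases eq_or_lt_of_le hkp with hp | hp
    · subst hp
      by_cases hq : q' = q
      · subst hq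
        rw [hw1', hw2 (k + 1) q' (Or.inl (by omega)), hw1 k (q' + 1) (Or.inl (by omega)), hw2',
          add_zero, zero_add, map_smul, hx', smul_smul, ← mul_pow]
        norm_num
      · rw [a.1.2 k q' (by omega), hw1 (k + 1) q' (Or.inr hq), hw2 (k + 1) q' (Or.inl (by omega)),
          hw1 k (q' + 1) (Or.inl (by omega)), hw2 k (q' + 1) (Or.inr (by omega))]
        simp
    · rw [a.2.2 p q' (by omega), hw1 (p + 1) q' (Or.inl (by omega)),
        hw2 (p + 1) q' (Or.inl (by omega)), hw2 p (q' + 1) (Or.inl (by omega))]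
      by_cases hpq : p = k + 1 ∧ q' + 1 = q
      · obtain ⟨rfl, rfl⟩ := hpq
        have hy' : K.dv (k + 1) q' y = 0 := Cx.mem_Z_succ.1 hy
        have e : K.dv (k + 1) q' (y + 0) = 0 := by
          rw [map_add, hy', map_zero, add_zero]
        rw [hw1', e]
        simp
      · rw [hw1 p (q' + 1) (by by_contra hcon; push Not at hcon; exact hpq ⟨hcon.1, hcon.2⟩)]
        simp

private theorem e2_step (S : Serre) (k q : ℕ) (h : S.P ((K.E1 q).H k))
    (ih : S.P (e2V K (k + q) k)) : S.P (e2V K (k + q) (k + 1)) := by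
  have hle : e2W K (k + q) k ≤ e2W K (k + q) (k + 1) := fun a ha =>
    ⟨ha.1, fun p q h => ha.2 p q (by omega)⟩
  let f : e2V K (k + q) k →ₗ[ℚ] e2V K (k + q) (k + 1) :=
    Submodule.mapQ _ _ (Submodule.inclusion hle) (fun a ha => ha)
  let B : Submodule ℚ (e2W K (k + q) (k + 1)) :=
    (K.Tot.Bd (k + q)).submoduleOf (e2W K (k + q) (k + 1))
  let g : e2V K (k + q) (k + 1) →ₗ[ℚ] (K.E1 q).H k ⧸ B.map (e2phi K k q) :=
    Submodule.mapQ _ _ (e2phi K k q) (Submodule.le_comap_map _ _)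
  refine S.ext3 _ _ _ f g ?_ ih (S.of_surj (Submodule.mkQ (B.map (e2phi K k q)))
    (Submodule.mkQ_surjective _) h)
  intro x hx
  obtain ⟨a, rfl⟩ := Submodule.Quotient.mk_surjective _ x
  have h1 : (Submodule.Quotient.mk (e2phi K k q a) :
      (K.E1 q).H k ⧸ B.map (e2phi K k q)) = 0 := hx
  rw [Submodule.Quotient.mk_eq_zero] at h1
  obtain ⟨b, hb, hbe⟩ := h1
  have h2 : e2phi K k q (a - b) = 0 := by rw [map_sub, hbe, sub_self]
  obtain ⟨w, hw⟩ := e2_claim K k q (a - b) h2
  refine ⟨Submodule.Quotient.mk ⟨_, hw⟩, ?_⟩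
  show (Submodule.Quotient.mk _ : e2V K (k + q) (k + 1)) = Submodule.Quotient.mk a
  rw [Submodule.Quotient.eq]
  show (a - b).1 - K.Tot.d (k + q) w - a.1 ∈ K.Tot.Bd (k + q)
  have e : (a - b).1 - K.Tot.d (k + q) w - a.1 = - (b.1 + K.Tot.d (k + q) w) := by
    rw [Submodule.coe_sub]
    abel
  rw [e]
  exact (K.Tot.Bd _).neg_mem ((K.Tot.Bd _).add_mem hb ⟨w, rfl⟩)

theorem serre (K : DCx) (S : Serre) (n : ℕ)
    (h : ∀ p q, p + q = n → S.P ((K.E1 q).H p)) : S.P (K.Tot.H n) := by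
  have key : ∀ k, k ≤ n + 1 → S.P (e2V K n k) := by
    intro k
    induction k with
    | zero =>
      intro _
      apply S.zero
      refine ⟨fun x y => ?_⟩
      obtain ⟨a, rfl⟩ := Submodule.Quotient.mk_surjective _ x
      obtain ⟨b, rfl⟩ := Submodule.Quotient.mk_surjective _ y
      congr 1
      apply Subtype.ext
      apply Subtype.ext
      funext p q
      rw [a.2.2 p q (Nat.zero_le _), b.2.2 p q (Nat.zero_le _)]
    | succ k ih =>
      intro hk
      obtain ⟨q, rfl⟩ : ∃ q, n = k + q := ⟨n - k, by omega⟩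
      exact e2_step K S k q (h k q rfl) (ih (by omega))
  have hle : e2W K n (n + 1) ≤ K.Tot.Z n := inf_le_left
  refine S.of_surj (Submodule.mapQ _ _ (Submodule.inclusion hle) (fun a ha => ha) :
    e2V K n (n + 1) →ₗ[ℚ] K.Tot.H n) ?_ (key (n + 1) le_rfl)
  intro y
  obtain ⟨a, ha, rfl⟩ := Cx.H_surj y
  exact ⟨Submodule.Quotient.mk ⟨a, ha, fun p q hp => a.2 p q (by omega)⟩, rfl⟩

end DCx
end C715
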