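import Pool.Agent.Work.MP_c71557_gt.H.Five
import Pool.Agent.Work.MP_c71557_gt.H.E2

/-!
# MP_c71557_gt, module H/TotEx: total complexes of short exact sequences, columnwise
quasi-isomorphisms (M)

* `tot_SES`: componentwise short exact sequences of double complexes give short exact sequences of
  total complexes (componentwise; lift a family with finite support condition: choose lifts for
  `p + q = n` and `0` elsewhere).
* `tot_qis`: if `g : K → L` is a quasi-isomorphism on every column then `g.tot` is one.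
  PROOF without spectral sequence: direct recursion as in module `H/Rows`.
  Surjectivity on `H_n`: `b ∈ Z_n(Tot L)`.  Suppose (descending from the last column) `b` is
  supported in columns `p ≤ k`.  Then `dv b_{k,n-k} = 0`, so there are `a_k ∈ K_{k,n-k}`,
  `dv a_k = 0` and `x ∈ L_{k,n-k+1}` with `b_{k,n-k} = g a_k + dv x`.  After subtracting
  `totd((-1)^k x)` we may assume `b_{k,n-k} = g a_k`.  Now `dh b_{k,n-k} = g (dh a_k)` is, up to
  sign, `dv b_{k-1,..}`; by injectivity of `H(col (k-1))`, `dh a_k = ∓ dv a_{k-1}` for some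
  `a_{k-1}`, and `b_{k-1} - g a_{k-1}` is a `dv`-cycle, so can again be corrected, etc.
  ALTERNATIVE (recommended): filter by columns.  Let `K^{≤k}` be the subcomplex of `Tot K` of
  families supported in `p ≤ k`; `Tot(K^{≤k})/Tot(K^{≤k-1})` is the column `k` (shifted).  Prove by
  induction on `k` that `Tot(K^{≤k}) → Tot(L^{≤k})` is a quasi-isomorphism (`Cx.qis_mid`), and use
  that a family in degree `n` is supported in `p ≤ n`, so `H_n(Tot K^{≤k}) = H_n(Tot K)` for
  `k ≥ n + 1`.
-/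

set_option autoImplicit false

namespace C715
namespace DCx

theorem tot_SES {K L M : DCx} (i : Hom K L) (p : Hom L M)
    (h1 : ∀ a b, Function.Injective (i.f a b)) (h2 : ∀ a b, Function.Exact (i.f a b) (p.f a b))
    (h3 : ∀ a b, Function.Surjective (p.f a b)) : Cx.SES i.tot p.tot where
  inj n := by
    intro x y hxy
    apply Subtype.ext
    funext a b
    apply h1 a b
    exact congrFun (congrFun (congrArg Subtype.val hxy) a) b
  exact n := by
    intro y
    constructor
    · intro hy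
      have hy' : ∀ a b, p.f a b (y.1 a b) = 0 := fun a b =>
        congrFun (congrFun (congrArg Subtype.val hy) a) b
      choose x hx using fun a b => (h2 a b (y.1 a b)).1 (hy' a b)
      refine ⟨⟨x, fun a b hab => ?_⟩, Subtype.ext (funext fun a => funext fun b => hx a b)⟩
      apply h1 a b
      rw [hx, map_zero]
      exact y.2 a b hab
    · rintro ⟨x, rfl⟩
      apply Subtype.ext
      funext a b
      exact (h2 a b _).2 ⟨x.1 a b, rfl⟩
  surj n := by
    classical
    intro y
    choose x hx using fun a b => h3 a b (y.1 a b)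
    refine ⟨⟨fun a b => if a + b = n then x a b else 0, fun a b hab => if_neg hab⟩, ?_⟩
    apply Subtype.ext
    funext a b
    show p.f a b (if a + b = n then x a b else 0) = y.1 a b
    by_cases hab : a + b = n
    · rw [if_pos hab, hx]
    · rw [if_neg hab, map_zero]
      exact (y.2 a b hab).symm

/-- families in the column `p` of `K` supported at `q' + 1 = q` -/
private def shK (K : DCx) (p q : ℕ) : Submodule ℚ ((q' : ℕ) → K.X p q') where
  carrier := {κ | ∀ q', q' + 1 ≠ q → κ q' = 0}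
  add_mem' {a b} ha hb q' h := by
    show a q' + b q' = 0
    rw [ha q' h, hb q' h, add_zero]
  zero_mem' q' _ := rfl
  smul_mem' c a ha q' h := by
    show c • a q' = 0
    rw [ha q' h, smul_zero]

private def coneDv {K L : DCx} (g : Hom K L) (p q : ℕ) :
    (L.X p (q + 1) × shK K p (q + 1)) →ₗ[ℚ] (L.X p q × shK K p q) where
  toFun c := (L.dv p q c.1 + g.f p q (c.2.1 q),
    ⟨fun q' => - K.dv p q' (c.2.1 (q' + 1)), fun q' h => by
      show - K.dv p q' (c.2.1 (q' + 1)) = 0
      rw [c.2.2 (q' + 1) (by omega), map_zero, neg_zero]⟩)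
  map_add' c d := by
    refine Prod.ext ?_ (Subtype.ext (funext fun q' => ?_))
    · show L.dv p q (c.1 + d.1) + g.f p q (c.2.1 q + d.2.1 q) =
        (L.dv p q c.1 + g.f p q (c.2.1 q)) + (L.dv p q d.1 + g.f p q (d.2.1 q))
      rw [map_add, map_add]
      abel
    · show - K.dv p q' (c.2.1 (q' + 1) + d.2.1 (q' + 1)) =
        - K.dv p q' (c.2.1 (q' + 1)) + - K.dv p q' (d.2.1 (q' + 1))
      rw [map_add, neg_add]
  map_smul' r c := by
    refine Prod.ext ?_ (Subtype.ext (funext fun q' => ?_))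
    · show L.dv p q (r • c.1) + g.f p q (r • c.2.1 q) = r • (L.dv p q c.1 + g.f p q (c.2.1 q))
      rw [map_smul, map_smul, smul_add]
    · show - K.dv p q' (r • c.2.1 (q' + 1)) = r • (- K.dv p q' (c.2.1 (q' + 1)))
      rw [map_smul, smul_neg]

private def coneDh {K L : DCx} (p q : ℕ) :
    (L.X (p + 1) q × shK K (p + 1) q) →ₗ[ℚ] (L.X p q × shK K p q) where
  toFun c := (L.dh p q c.1, ⟨fun q' => K.dh p q' (c.2.1 q'), fun q' h => by
      show K.dh p q' (c.2.1 q') = 0
      rw [c.2.2 q' h, map_zero]⟩)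
  map_add' c d := by
    refine Prod.ext ?_ (Subtype.ext (funext fun q' => ?_))
    · show L.dh p q (c.1 + d.1) = L.dh p q c.1 + L.dh p q d.1
      rw [map_add]
    · show K.dh p q' (c.2.1 q' + d.2.1 q') = K.dh p q' (c.2.1 q') + K.dh p q' (d.2.1 q')
      rw [map_add]
  map_smul' r c := by
    refine Prod.ext ?_ (Subtype.ext (funext fun q' => ?_))
    · show L.dh p q (r • c.1) = r • L.dh p q c.1
      rw [map_smul]
    · show K.dh p q' (r • c.2.1 q') = r • K.dh p q' (c.2.1 q')
      rw [map_smul]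

/-- the cone of a morphism of double complexes -/
private def cone {K L : DCx} (g : Hom K L) : DCx where
  X p q := L.X p q × shK K p q
  dh p q := coneDh p q
  dv p q := coneDv g p q
  hh p q c := by
    refine Prod.ext ?_ (Subtype.ext (funext fun q' => ?_))
    · exact L.hh p q c.1
    · exact K.hh p q' (c.2.1 q')
  vv p q c := by
    refine Prod.ext ?_ (Subtype.ext (funext fun q' => ?_))
    · show L.dv p q (L.dv p (q + 1) c.1 + g.f p (q + 1) (c.2.1 (q + 1))) +
        g.f p q (- K.dv p q (c.2.1 (q + 1))) = 0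
      rw [map_add, L.vv, zero_add, map_neg, g.vcomm, add_neg_cancel]
    · show - K.dv p q' (- K.dv p (q' + 1) (c.2.1 (q' + 1 + 1))) = 0
      rw [map_neg, K.vv, neg_zero, neg_zero]
  hv p q c := by
    refine Prod.ext ?_ (Subtype.ext (funext fun q' => ?_))
    · show L.dh p q (L.dv (p + 1) q c.1 + g.f (p + 1) q (c.2.1 q)) =
        L.dv p q (L.dh p (q + 1) c.1) + g.f p q (K.dh p q (c.2.1 q))
      rw [map_add, L.hv, g.hcomm]
    · show K.dh p q' (- K.dv (p + 1) q' (c.2.1 (q' + 1))) =
        - K.dv p q' (K.dh p (q' + 1) (c.2.1 (q' + 1)))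
      rw [map_neg, K.hv]

private theorem cone_acy {K L : DCx} (g : Hom K L) (h : ∀ p, Cx.Qis (g.col p)) (p q : ℕ) :
    Subsingleton (((cone g).col p).H q) := by
  classical
  rw [Cx.H_subsingleton]
  rintro ⟨l, κ, hκ⟩ hc
  cases q with
  | zero =>
    obtain ⟨y, hy⟩ := (h p 0).2 ((L.col p).cls 0 l trivial)
    obtain ⟨α, hα, rfl⟩ := Cx.H_surj y
    rw [Cx.H_cls, eq_comm, Cx.cls_eq] at hy
    obtain ⟨x, hx⟩ := hy
    have hx' : L.dv p 0 x = l - g.f p 0 α := hx
    refine ⟨(x, ⟨Pi.single 0 α, fun q' hq' => Pi.single_eq_of_ne (by omega) _⟩), ?_⟩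
    refine Prod.ext ?_ (Subtype.ext (funext fun q' => ?_))
    · show L.dv p 0 x + g.f p 0 ((Pi.single 0 α : (q' : ℕ) → K.X p q') 0) = l
      rw [Pi.single_eq_same, hx']
      abel
    · show - K.dv p q' ((Pi.single 0 α : (q' : ℕ) → K.X p q') (q' + 1)) = κ q'
      rw [Pi.single_eq_of_ne (by omega), map_zero, neg_zero, hκ q' (by omega)]
  | succ q =>
    have hc' := Cx.mem_Z_succ.1 hc
    have hc1 : L.dv p q l + g.f p q (κ q) = 0 := congrArg Prod.fst hc'
    have hc2 : ∀ q', - K.dv p q' (κ (q' + 1)) = 0 := fun q' =>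
      congrFun (congrArg Subtype.val (congrArg Prod.snd hc')) q'
    have hα : κ q ∈ (K.col p).Z q := by
      cases q with
      | zero => trivial
      | succ q => exact Cx.mem_Z_succ.2 (neg_eq_zero.1 (hc2 q))
    have h1 : (K.col p).cls q (κ q) hα = 0 := by
      have hinj := (h p q).1
      rw [injective_iff_map_eq_zero] at hinj
      apply hinj
      rw [Cx.H_cls, Cx.cls_eq_zero]
      refine ⟨- l, ?_⟩
      show L.dv p q (-l) = g.f p q (κ q)
      rw [map_neg]
      exact (eq_neg_of_add_eq_zero_right hc1).symm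
    obtain ⟨μ, hμ⟩ := Cx.cls_eq_zero.1 h1
    have hμ' : K.dv p q μ = κ q := hμ
    have hz : l + g.f p (q + 1) μ ∈ (L.col p).Z (q + 1) := by
      refine Cx.mem_Z_succ.2 ?_
      show L.dv p q (l + g.f p (q + 1) μ) = 0
      rw [map_add, ← g.vcomm, hμ', hc1]
    obtain ⟨y, hy⟩ := (h p (q + 1)).2 ((L.col p).cls (q + 1) _ hz)
    obtain ⟨ν, hν, rfl⟩ := Cx.H_surj y
    rw [Cx.H_cls, eq_comm, Cx.cls_eq] at hy
    obtain ⟨x, hx⟩ := hy
    have hx' : L.dv p (q + 1) x = l + g.f p (q + 1) μ - g.f p (q + 1) ν := hx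
    have hν' : K.dv p q ν = 0 := Cx.mem_Z_succ.1 hν
    refine ⟨(x, ⟨Pi.single (q + 1) (ν - μ), fun q' hq' => Pi.single_eq_of_ne (by omega) _⟩), ?_⟩
    refine Prod.ext ?_ (Subtype.ext (funext fun q' => ?_))
    · show L.dv p (q + 1) x +
        g.f p (q + 1) ((Pi.single (q + 1) (ν - μ) : (q' : ℕ) → K.X p q') (q + 1)) = l
      rw [Pi.single_eq_same, hx', map_sub]
      abel
    · show - K.dv p q' ((Pi.single (q + 1) (ν - μ) : (q' : ℕ) → K.X p q') (q' + 1)) = κ q'
      by_cases hq : q' = q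
      · subst hq
        rw [Pi.single_eq_same, map_sub, hν', hμ']
        abel
      · rw [Pi.single_eq_of_ne (by omega), map_zero, neg_zero, hκ q' (by omega)]

private theorem tot_Z_iff {K : DCx} {n : ℕ} (a : K.Tot.X n) :
    a ∈ K.Tot.Z n ↔ K.totd a.1 = 0 := by
  cases n with
  | zero =>
    refine ⟨fun _ => ?_, fun _ => trivial⟩
    funext p q
    rw [totd_apply, a.2 (p + 1) q (by omega), a.2 p (q + 1) (by omega)]
    simp
  | succ n =>
    rw [Cx.mem_Z_succ]
    exact ⟨fun h => congrArg Subtype.val h, fun h => Subtype.ext h⟩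

private theorem sg (p : ℕ) : ((-1 : ℚ) ^ p) * ((-1 : ℚ) ^ p) = 1 := by
  rw [← mul_pow]
  norm_num

theorem tot_qis {K L : DCx} (g : Hom K L) (h : ∀ p, Cx.Qis (g.col p)) : Cx.Qis g.tot := by
  classical
  have hC : ∀ n, Subsingleton ((cone g).Tot.H n) := fun n =>
    serre (cone g) Serre.triv n fun p q _ => by
      have h1 : ∀ p, Subsingleton (((cone g).E1 q).X p) := fun p => cone_acy g h p q
      show Subsingleton (((cone g).E1 q).H p)
      rw [Cx.H_subsingleton]
      intro x _
      rw [(h1 p).elim x 0]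
      exact Submodule.zero_mem _
  have hC' : ∀ (n : ℕ) (c : (p : ℕ) → (q : ℕ) → (cone g).X p q), c ∈ (cone g).totX n →
      (cone g).totd c = 0 → ∃ w ∈ (cone g).totX (n + 1), (cone g).totd w = c := by
    intro n c hc hc0
    obtain ⟨w, hw⟩ := Cx.H_subsingleton.1 (hC n) ⟨c, hc⟩ ((tot_Z_iff _).2 hc0)
    exact ⟨w.1, w.2, congrArg Subtype.val hw⟩
  intro n
  constructor
  · rw [injective_iff_map_eq_zero]
    intro y hy
    obtain ⟨a, ha, rfl⟩ := Cx.H_surj y
    rw [Cx.H_cls, Cx.cls_eq_zero] at hy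
    obtain ⟨x, hx⟩ := hy
    have hx' : ∀ p q, L.totd x.1 p q = g.f p q (a.1 p q) := fun p q =>
      congrFun (congrFun (congrArg Subtype.val hx) p) q
    have ha' : ∀ p q, K.dh p q (a.1 (p + 1) q) + ((-1 : ℚ) ^ p) • K.dv p q (a.1 p (q + 1)) = 0 :=
      fun p q => congrFun (congrFun ((tot_Z_iff a).1 ha) p) q
    let w : (p : ℕ) → (q : ℕ) → (cone g).X p q := fun p q =>
      (x.1 p q, ⟨fun q' => if q' + 1 = q then -(((-1 : ℚ) ^ p) • a.1 p q') else 0,
        fun q' h => if_neg h⟩)
    have hwm : w ∈ (cone g).totX (n + 1) := by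
      intro p q hpq
      refine Prod.ext ?_ (Subtype.ext (funext fun q' => ?_))
      · exact x.2 p q hpq
      · show (if q' + 1 = q then -(((-1 : ℚ) ^ p) • a.1 p q') else 0) = 0
        by_cases hq : q' + 1 = q
        · rw [if_pos hq, a.2 p q' (by omega), smul_zero, neg_zero]
        · rw [if_neg hq]
    have hw0 : (cone g).totd w = 0 := by
      funext p q
      rw [totd_apply]
      refine Prod.ext ?_ (Subtype.ext (funext fun q' => ?_))
      · show L.dh p q (x.1 (p + 1) q) + ((-1 : ℚ) ^ p) • (L.dv p q (x.1 p (q + 1)) +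
          g.f p q (if q + 1 = q + 1 then -(((-1 : ℚ) ^ p) • a.1 p q) else 0)) = 0
        have h1 := hx' p q
        rw [totd_apply] at h1
        rw [if_pos rfl, map_neg, map_smul, smul_add, smul_neg, smul_smul, sg, one_smul, ← h1]
        abel
      · show K.dh p q' (if q' + 1 = q then -(((-1 : ℚ) ^ (p + 1)) • a.1 (p + 1) q') else 0) +
          ((-1 : ℚ) ^ p) • (- K.dv p q' (if q' + 1 + 1 = q + 1 then
            -(((-1 : ℚ) ^ p) • a.1 p (q' + 1)) else 0)) = 0
        by_cases hq : q' + 1 = q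
        · rw [if_pos hq, if_pos (by omega), map_neg, map_neg, map_smul, map_smul, neg_neg,
            smul_smul, sg, one_smul, pow_succ]
          have h2 := ha' p q'
          have h3 : ((-1 : ℚ) ^ p) • (K.dh p q' (a.1 (p + 1) q') +
            ((-1 : ℚ) ^ p) • K.dv p q' (a.1 p (q' + 1))) = 0 := by rw [h2, smul_zero]
          rw [smul_add, smul_smul, sg, one_smul] at h3
          rw [← h3]
          module
        · rw [if_neg hq, if_neg (by omega)]
          simp
    obtain ⟨v, hv, hvw⟩ := hC' (n + 1) w hwm hw0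
    let m : (p : ℕ) → (q : ℕ) → K.X p q := fun p q => ((-1 : ℚ) ^ p) • (v p (q + 1)).2.1 q
    have hmm : m ∈ K.totX (n + 1) := by
      intro p q hpq
      show ((-1 : ℚ) ^ p) • (v p (q + 1)).2.1 q = 0
      rw [hv p (q + 1) (by omega)]
      exact smul_zero _
    have hm : K.totd m = a.1 := by
      funext p q
      rw [totd_apply]
      have h1 : K.dh p q ((v (p + 1) (q + 1)).2.1 q) +
          ((-1 : ℚ) ^ p) • (- K.dv p q ((v p (q + 1 + 1)).2.1 (q + 1))) =
          (if q + 1 = q + 1 then -(((-1 : ℚ) ^ p) • a.1 p q) else 0) :=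
        congrFun (congrArg Subtype.val (congrArg Prod.snd
          (congrFun (congrFun hvw p) (q + 1)))) q
      rw [if_pos rfl] at h1
      show K.dh p q (((-1 : ℚ) ^ (p + 1)) • (v (p + 1) (q + 1)).2.1 q) +
        ((-1 : ℚ) ^ p) • K.dv p q (((-1 : ℚ) ^ p) • (v p (q + 1 + 1)).2.1 (q + 1)) = a.1 p q
      have h2 : -(((-1 : ℚ) ^ p) • (K.dh p q ((v (p + 1) (q + 1)).2.1 q) +
          ((-1 : ℚ) ^ p) • (- K.dv p q ((v p (q + 1 + 1)).2.1 (q + 1))))) = a.1 p q := by
        rw [h1, smul_neg, neg_neg, smul_smul, sg, one_smul]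
      rw [← h2, map_smul, map_smul, smul_smul, sg, one_smul, smul_add, smul_smul, sg, one_smul,
        pow_succ]
      module
    rw [Cx.cls_eq_zero]
    exact ⟨⟨m, hmm⟩, Subtype.ext hm⟩
  · intro y
    obtain ⟨b, hb, rfl⟩ := Cx.H_surj y
    have hb' : ∀ p q, L.dh p q (b.1 (p + 1) q) + ((-1 : ℚ) ^ p) • L.dv p q (b.1 p (q + 1)) = 0 :=
      fun p q => congrFun (congrFun ((tot_Z_iff b).1 hb) p) q
    let c : (p : ℕ) → (q : ℕ) → (cone g).X p q := fun p q => (b.1 p q, 0)
    obtain ⟨w, hw, hwc⟩ := hC' n c (by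
      intro p q hpq
      refine Prod.ext ?_ rfl
      exact b.2 p q hpq) (by
      funext p q
      rw [totd_apply]
      refine Prod.ext ?_ (Subtype.ext (funext fun q' => ?_))
      · show L.dh p q (b.1 (p + 1) q) + ((-1 : ℚ) ^ p) • (L.dv p q (b.1 p (q + 1)) +
          g.f p q 0) = 0
        rw [map_zero, add_zero]
        exact hb' p q
      · show K.dh p q' 0 + ((-1 : ℚ) ^ p) • (- K.dv p q' 0) = 0
        simp)
    let m : (p : ℕ) → (q : ℕ) → K.X p q := fun p q => ((-1 : ℚ) ^ p) • (w p (q + 1)).2.1 q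
    have hmm : m ∈ K.totX n := by
      intro p q hpq
      show ((-1 : ℚ) ^ p) • (w p (q + 1)).2.1 q = 0
      rw [hw p (q + 1) (by omega)]
      exact smul_zero _
    have hm : K.totd m = 0 := by
      funext p q
      rw [totd_apply]
      have h1 : K.dh p q ((w (p + 1) (q + 1)).2.1 q) +
          ((-1 : ℚ) ^ p) • (- K.dv p q ((w p (q + 1 + 1)).2.1 (q + 1))) = 0 :=
        congrFun (congrArg Subtype.val (congrArg Prod.snd
          (congrFun (congrFun hwc p) (q + 1)))) q
      show K.dh p q (((-1 : ℚ) ^ (p + 1)) • (w (p + 1) (q + 1)).2.1 q) +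
        ((-1 : ℚ) ^ p) • K.dv p q (((-1 : ℚ) ^ p) • (w p (q + 1 + 1)).2.1 (q + 1)) = 0
      have h2 : -(((-1 : ℚ) ^ p) • (K.dh p q ((w (p + 1) (q + 1)).2.1 q) +
          ((-1 : ℚ) ^ p) • (- K.dv p q ((w p (q + 1 + 1)).2.1 (q + 1))))) = 0 := by
        rw [h1, smul_zero, neg_zero]
      rw [← h2, map_smul, map_smul, smul_smul, sg, one_smul, smul_add, smul_smul, sg, one_smul,
        pow_succ]
      module
    have hx1 : (fun p q => (w p q).1) ∈ L.totX (n + 1) := by
      intro p q hpq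
      show (w p q).1 = 0
      rw [hw p q hpq]
      rfl
    refine ⟨K.Tot.cls n ⟨m, hmm⟩ ((tot_Z_iff _).2 hm), ?_⟩
    rw [Cx.H_cls, eq_comm, Cx.cls_eq]
    refine ⟨⟨fun p q => (w p q).1, hx1⟩, ?_⟩
    apply Subtype.ext
    funext p q
    show L.dh p q (w (p + 1) q).1 + ((-1 : ℚ) ^ p) • L.dv p q (w p (q + 1)).1 =
      b.1 p q - g.f p q (((-1 : ℚ) ^ p) • (w p (q + 1)).2.1 q)
    have h1 : L.dh p q (w (p + 1) q).1 + ((-1 : ℚ) ^ p) • (L.dv p q (w p (q + 1)).1 +
        g.f p q ((w p (q + 1)).2.1 q)) = b.1 p q :=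
      congrArg Prod.fst (congrFun (congrFun hwc p) q)
    rw [← h1, map_smul, smul_add]
    abel

end DCx
end C715
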