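import Pool.Agent.Work.MP_c71557_gt.H.AW
import Pool.Agent.Work.MP_c71557_gt.H.Op
import Pool.Agent.Work.MP_c71557_gt.H.TotEx

set_option autoImplicit false

/-!
# MP_c71557_gt, module H/QA: Quillen's theorem A for homology, and its fibred version (M)

* `quillenA_over`: `eps1_qis`, `eps2_qis` and `eps_agree`: `HCmap R = eps2 ∘ eps1⁻¹`.
* `quillenA_under`: apply `quillenA_over` to `R.op : Tᵒᵖ ⥤ Bᵒᵖ` and `hiso_op`;
  `CostructuredArrow R.op (op b)` is equivalent to `(StructuredArrow b R)ᵒᵖ`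
  (Mathlib `costructuredArrowOpEquivalence` / `structuredArrowOpEquivalence`), `acy_op`.
* `fibIso_over`: the map of double complexes `hoco (overL (F ⋙ R)) → hoco (overL R)`,
  `(σ, (τ, f)) ↦ (σ, (τ.push F, f))` is a quasi-isomorphism on every column: the column `p` is the
  direct sum over `σ ∈ N_p B` of `ℚ[OvS (F ⋙ R) (σ 0) *] → ℚ[OvS R (σ 0) *]`, which is via `ovIso`
  the map `NCmap (CostructuredArrow.pre F R (σ 0))`.  By `DCx.tot_qis` and `eps1_qis`
  (`eps1 R ∘ (this map) = NCmap F ∘ eps1 (F ⋙ R)`), `NCmap F` is a quasi-isomorphism.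
* `fibIso_under` by passing to opposite categories.
-/

namespace C715

open CategoryTheory

variable {T B T' : Type} [SmallCategory T] [SmallCategory B] [SmallCategory T']

theorem quillenA_over (R : T ⥤ B) (h : ∀ b, Acy (CostructuredArrow R b)) : HIso R := by
  intro n
  have h1 := eps1_qis R n
  have h2 := eps2_qis R h n
  have h3 : ((eps2 R).hom.H n : (overL R).hoco.Tot.H n → HC B n) =
      (HCmap R n) ∘ ((eps1 R).hom.H n) := funext fun y => eps_agree R n y
  rw [h3] at h2
  exact (Function.Bijective.of_comp_iff _ h1).1 h2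

theorem quillenA_under (R : T ⥤ B) (h : ∀ b, Acy (StructuredArrow b R)) : HIso R := by
  rw [← hiso_op]
  refine quillenA_over R.op fun b => ?_
  have h1 : Acy (StructuredArrow b.unop R)ᵒᵖ := acy_op.2 (h _)
  exact (Acy.congr (hiso_of_equiv (structuredArrowOpEquivalence R b.unop).functor)).1 h1

namespace QA

/-- a columnwise quasi-isomorphism of complexes of coefficient systems -/
theorem col_qis {L L' : CoefCx B} (α : ∀ q, Coef.Hom (L.F q) (L'.F q))
    (g : DCx.Hom L.hoco L'.hoco) (hg : ∀ p q (x : BarX (L.F q) p), g.f p q x = (barHom (α q)).f p x)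
    (a : ∀ c, Cx.Hom (L.at' c) (L'.at' c)) (ha : ∀ c q x, (a c).f q x = (α q).f c x)
    (h : ∀ c, Cx.Qis (a c)) (p : ℕ) : Cx.Qis (g.col p) := by
  classical
  -- components of cycles are cycles
  have hZ : ∀ (M : CoefCx B) (q : ℕ) (x : BarX (M.F q) p), x ∈ (M.hoco.col p).Z q →
      ∀ σ : Sx B p, OvIso.cmp (M.F q) σ x ∈ (M.at' (σ.o 0)).Z q := by
    intro M q x hx σ
    cases q with
    | zero => trivial
    | succ q =>
      rw [Cx.mem_Z_succ] at hx ⊢
      have h2 := OvIso.cmp_barHom (M.d q) σ x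
      have hx' : (barHom (M.d q)).f p x = 0 := hx
      rw [hx', map_zero] at h2
      exact h2.symm
  intro q
  constructor
  · rw [injective_iff_map_eq_zero]
    intro y hy
    induction y using Cx.H_ind with
    | h x hx =>
      rw [Cx.H_cls, Cx.cls_eq_zero] at hy
      rw [Cx.cls_eq_zero]
      obtain ⟨z, hz⟩ := hy
      refine OvIso.solve (L.d q) x fun σ => ?_
      have h1 : (a (σ.o 0)).H q ((L.at' (σ.o 0)).cls q _ (hZ L q x hx σ)) = 0 := by
        rw [Cx.H_cls, Cx.cls_eq_zero]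
        refine ⟨OvIso.cmp (L'.F (q + 1)) σ z, ?_⟩
        have h2 := OvIso.cmp_barHom (L'.d q) σ z
        have h3 : (barHom (L'.d q)).f p z = (barHom (α q)).f p x := by
          rw [← hg]
          exact hz
        rw [h3, OvIso.cmp_barHom] at h2
        rw [ha]
        exact h2.symm
      have h2 := (injective_iff_map_eq_zero _).1 (h (σ.o 0) q).1 _ h1
      rw [Cx.cls_eq_zero] at h2
      exact h2
  · intro y
    induction y using Cx.H_ind with
    | h y hy =>
      have h1 : ∀ σ : Sx B p, ∃ x ∈ (L.at' (σ.o 0)).Z q, ∃ z,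
          (L'.d q).f (σ.o 0) z = (α q).f _ x - OvIso.cmp (L'.F q) σ y := by
        intro σ
        obtain ⟨w, hw⟩ := (h (σ.o 0) q).2 ((L'.at' (σ.o 0)).cls q _ (hZ L' q y hy σ))
        induction w using Cx.H_ind with
        | h x hx =>
          rw [Cx.H_cls, Cx.cls_eq] at hw
          obtain ⟨z, hz⟩ := hw
          refine ⟨x, hx, z, ?_⟩
          rw [← ha]
          exact hz
      choose x hx z hz using h1
      obtain ⟨s, hs⟩ := OvIso.sum_cmp (L'.F q) y
      have hX : (∑ σ ∈ s, bof (L.F q) σ (x σ)) ∈ (L.hoco.col p).Z q := by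
        refine Submodule.sum_mem _ fun σ _ => ?_
        cases q with
        | zero => trivial
        | succ q =>
          rw [Cx.mem_Z_succ]
          change (barHom (L.d q)).f p (bof (L.F (q + 1)) σ (x σ)) = 0
          rw [OvIso.barHom_bof]
          have := Cx.mem_Z_succ.1 (hx σ)
          have h3 : (L.d q).f (σ.o 0) (x σ) = 0 := this
          rw [h3, map_zero]
      refine ⟨(L.hoco.col p).cls q _ hX, ?_⟩
      rw [Cx.H_cls, Cx.cls_eq]
      refine ⟨∑ σ ∈ s, bof (L'.F (q + 1)) σ (z σ), ?_⟩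
      change (barHom (L'.d q)).f p (∑ σ ∈ s, bof (L'.F (q + 1)) σ (z σ)) =
        g.f p q (∑ σ ∈ s, bof (L.F q) σ (x σ)) - y
      rw [hg]
      conv_rhs => rw [← hs]
      rw [map_sum, map_sum, ← Finset.sum_sub_distrib]
      refine Finset.sum_congr rfl fun σ _ => ?_
      rw [OvIso.barHom_bof, OvIso.barHom_bof, hz, map_sub]

/-- push forward of simplices over `b` -/
noncomputable def be (F : T' ⥤ T) (R : T ⥤ B) (q : ℕ) : Coef.Hom (ovF (F ⋙ R) q) (ovF R q) where
  f c := Finsupp.lmapDomain ℚ ℚ fun x : OvS (F ⋙ R) c q => (⟨x.τ.push F, x.f⟩ : OvS R c q)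
  comm {a b} u x := by
    change Finsupp.mapDomain _ (Finsupp.mapDomain _ (x : OvS (F ⋙ R) a q →₀ ℚ)) =
      Finsupp.mapDomain _ (Finsupp.mapDomain _ (x : OvS (F ⋙ R) a q →₀ ℚ))
    rw [← Finsupp.mapDomain_comp, ← Finsupp.mapDomain_comp]
    rfl

theorem be_alt (F : T' ⥤ T) (R : T ⥤ B) (q : ℕ) (c : B) (x : OvS (F ⋙ R) c (q + 1) →₀ ℚ) :
    (be F R q).f c ((ovS (F ⋙ R) c).alt q x) = (ovS R c).alt q ((be F R (q + 1)).f c x) := by
  rw [SMod.alt_apply, SMod.alt_apply, map_sum]
  refine Finset.sum_congr rfl fun i _ => ?_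
  rw [map_smul]
  congr 1
  change Finsupp.mapDomain _ (Finsupp.mapDomain _ (x : OvS (F ⋙ R) c (q + 1) →₀ ℚ)) =
    Finsupp.mapDomain _ (Finsupp.mapDomain _ (x : OvS (F ⋙ R) c (q + 1) →₀ ℚ))
  rw [← Finsupp.mapDomain_comp, ← Finsupp.mapDomain_comp]
  rfl

/-- the map of double complexes -/
noncomputable def g (F : T' ⥤ T) (R : T ⥤ B) : DCx.Hom (overL (F ⋙ R)).hoco (overL R).hoco where
  f p q := (barHom (be F R q)).f p
  hcomm p q x := (barHom (be F R q)).comm p x
  vcomm p q x := by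
    have : ∀ x : BarX (ovF (F ⋙ R) (q + 1)) p,
        (barHom (be F R q)).f p ((barHom ((overL (F ⋙ R)).d q)).f p x) =
        (barHom ((overL R).d q)).f p ((barHom (be F R (q + 1))).f p x) := by
      intro x
      induction x using bar_ind with
      | h0 => simp only [map_zero]
      | h1 σ y =>
        rw [OvIso.barHom_bof, OvIso.barHom_bof, OvIso.barHom_bof, OvIso.barHom_bof]
        exact congrArg _ (be_alt F R q _ y)
      | h2 x y hx hy => simp only [map_add, hx, hy]
    exact this x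

/-- the map on the complexes at an object -/
noncomputable def ga (F : T' ⥤ T) (R : T ⥤ B) (b : B) :
    Cx.Hom ((overL (F ⋙ R)).at' b) ((overL R).at' b) where
  f q := (be F R q).f b
  comm q x := be_alt F R q b x

theorem ga_ov (F : T' ⥤ T) (R : T ⥤ B) (b : B) :
    Cx.Hom.comp (ovIso (F ⋙ R) b) (ga F R b) =
      Cx.Hom.comp (NCmap (CostructuredArrow.pre F R b)) (ovIso R b) := by
  refine Cx.Hom.ext (funext fun n => Finsupp.lhom_ext fun σ a => ?_)
  change (be F R n).f b ((ovIso (F ⋙ R) b).f n (Finsupp.single σ a)) =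
    (ovIso R b).f n ((NCmap (CostructuredArrow.pre F R b)).f n (Finsupp.single σ a))
  rw [NCmap_single, ovIso_single, ovIso_single]
  exact Finsupp.mapDomain_single

theorem ga_qis (F : T' ⥤ T) (R : T ⥤ B) (b : B) (h : HIso (CostructuredArrow.pre F R b)) :
    Cx.Qis (ga F R b) := by
  have h1 : Cx.Qis (ovIso (F ⋙ R) b) := qis_of_bij _ (ovIso_bij (F ⋙ R) b)
  have h2 : Cx.Qis (ovIso R b) := qis_of_bij _ (ovIso_bij R b)
  have h3 : Cx.Qis (Cx.Hom.comp (NCmap (CostructuredArrow.pre F R b)) (ovIso R b)) :=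
    Cx.Qis.comp h h2
  rw [← ga_ov] at h3
  exact Cx.Qis.of_comp_left h1 h3

theorem g_eps1 (F : T' ⥤ T) (R : T ⥤ B) :
    (g F R).tot.comp (eps1 R).hom = (eps1 (F ⋙ R)).hom.comp (NCmap F) := by
  refine Cx.Hom.ext (funext fun n => LinearMap.ext fun x => ?_)
  have : ((eps1 R).e n).comp ((barHom (be F R n)).f 0) =
      ((NCmap F).f n).comp ((eps1 (F ⋙ R)).e n) := by
    refine Eps1.pt_ind (F ⋙ R) n fun σ x => ?_
    change (eps1 R).e n ((barHom (be F R n)).f 0 (Eps1.pt (F ⋙ R) n σ x)) =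
      (NCmap F).f n ((eps1 (F ⋙ R)).e n (Eps1.pt (F ⋙ R) n σ x))
    rw [Eps1.e_pt, NCmap_single]
    have h1 : (be F R n).f _ (Finsupp.single x 1 : OvS (F ⋙ R) (σ.o 0) n →₀ ℚ) =
        (Finsupp.single (⟨x.τ.push F, x.f⟩ : OvS R (σ.o 0) n) 1 : OvS R (σ.o 0) n →₀ ℚ) :=
      Finsupp.mapDomain_single
    have h2 : (barHom (be F R n)).f 0 (Eps1.pt (F ⋙ R) n σ x) =
        Eps1.pt R n σ ⟨x.τ.push F, x.f⟩ := by
      unfold Eps1.pt
      rw [OvIso.barHom_bof]
      congr 1
    rw [h2, Eps1.e_pt]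
  exact LinearMap.congr_fun this (x.1 0 n)

end QA

theorem fibIso_over (F : T' ⥤ T) (R : T ⥤ B) (h : ∀ b, HIso (CostructuredArrow.pre F R b)) :
    HIso F := by
  have h1 : Cx.Qis (QA.g F R).tot := by
    refine DCx.tot_qis _ fun p => ?_
    exact QA.col_qis (L := overL (F ⋙ R)) (L' := overL R) (fun q => QA.be F R q) (QA.g F R)
      (fun p q x => rfl) (fun b => QA.ga F R b) (fun b q x => rfl)
      (fun b => QA.ga_qis F R b (h b)) p
  have h2 := Cx.Qis.comp h1 (eps1_qis R)
  rw [QA.g_eps1] at h2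
  exact Cx.Qis.of_comp_left (eps1_qis (F ⋙ R)) h2

namespace QA

open Opposite

/-- comparison of `pre` on the opposite side -/
def opT (F : T' ⥤ T) (R : T ⥤ B) (b : B) :
    (StructuredArrow.pre b F R).op ⋙ (structuredArrowOpEquivalence R b).functor ⟶
      (structuredArrowOpEquivalence (F ⋙ R) b).functor ⋙
        CostructuredArrow.pre F.op R.op (op b) where
  app X := CostructuredArrow.homMk (𝟙 _) (by
    change R.op.map (𝟙 _) ≫ _ = _
    rw [R.op.map_id]
    exact Category.id_comp _)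
  naturality X Y f := by
    ext
    exact (Category.comp_id _).trans (Category.id_comp _).symm

end QA

theorem fibIso_under (F : T' ⥤ T) (R : T ⥤ B) (h : ∀ b, HIso (StructuredArrow.pre b F R)) :
    HIso F := by
  rw [← hiso_op]
  refine fibIso_over F.op R.op fun b => ?_
  have h1 : HIso (StructuredArrow.pre b.unop F R).op := (hiso_op _).2 (h b.unop)
  have h2 : HIso ((StructuredArrow.pre b.unop F R).op ⋙
      (structuredArrowOpEquivalence R b.unop).functor) :=
    HIso.comp h1 (hiso_of_equiv _)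
  have h3 : HIso ((structuredArrowOpEquivalence (F ⋙ R) b.unop).functor ⋙
      CostructuredArrow.pre F.op R.op b) := by
    intro n
    rw [← HCmap_natTrans (QA.opT F R b.unop) n]
    exact h2 n
  exact HIso.of_comp_left (hiso_of_equiv (structuredArrowOpEquivalence (F ⋙ R) b.unop).functor) h3

end C715
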