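import Pool.Agent.Work.MP_c71557_gt.H.Filt
import Pool.Agent.Work.MP_c71557_gt.H.QA
import Pool.Agent.Work.MP_c71557_gt.H.Defs3

/-!
# MP_c71557_gt, module H/RelAcy: acyclicity through a directed set (M)

`acy_of_rel`: `P` a thin category, `S` a directed preorder, `r s p` a relation, decreasing in `s`
and increasing in `p`.  For each `p` the set `{s | r s p}` is nonempty and directed; for each `s`
the set `{p | r s p}` is nonempty and codirected.  Then `P` is acyclic.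

PROOF.  Let `W` be the category (preorder) of pairs `(p, s)` with `r s p`, `(p,s) ≤ (p',s')` iff
there is an arrow `p → p'` and `s ≤ s'`.
(1) `W → P` is a homology isomorphism (`quillenA_under`, or `quillenA_over`): the category of
`((p,s), p → p0)` over `p0` contains the directed set `{(p0, s)}`; the category over `p0` is
directed: given `(p1,s1), (p2,s2)` with `p1, p2 → p0`, we have `r s1 p0`, `r s2 p0` by monotonicity
and there is `t ≥ s1, s2` with `r t p0`: `(p0, t)` is an upper bound.  It is thin.  So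
`acy_of_directed`.
(2) `W → S`: the category under `s0`, i.e. of `((p,s), s0 ≤ s)`, is codirected: given
`(p1,s1), (p2,s2)` with `s0 ≤ s1, s2` we have `r s0 p1`, `r s0 p2`, hence `p3 → p1, p2` with
`r s0 p3`, and `(p3, s0)` is a lower bound.  So `quillenA_under`.
(3) `S` is directed, so acyclic; hence `W`, hence `P`.
`acy_over_rel` is the application to the thin category over `⟨b⟩` of `idFun f` (see `H/ActDir` for
its description); `r s a g` is the relation, invariant under the equivalence of `g`.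
-/

set_option autoImplicit false

namespace C715

open CategoryTheory

section rel

variable {P : Type} [SmallCategory P] {S : Type} [Preorder S] (r : S → P → Prop)

/-- pairs in relation -/
private structure W (r : S → P → Prop) where
  p : P
  s : S
  h : r s p

private instance : Preorder (W r) where
  le w w' := Nonempty (w.p ⟶ w'.p) ∧ w.s ≤ w'.s
  le_refl w := ⟨⟨𝟙 _⟩, le_refl _⟩
  le_trans a b c h h' := ⟨⟨h.1.some ≫ h'.1.some⟩, le_trans h.2 h'.2⟩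

private noncomputable def WP (hPthin : ∀ (a b : P) (f g : a ⟶ b), f = g) : W r ⥤ P where
  obj w := w.p
  map f := (leOfHom f).1.some
  map_id _ := hPthin _ _ _ _
  map_comp _ _ := hPthin _ _ _ _

private def WS : W r ⥤ S where
  obj w := w.s
  map f := homOfLE (leOfHom f).2
  map_id _ := Subsingleton.elim _ _
  map_comp _ _ := Subsingleton.elim _ _

end rel

theorem acy_of_rel {P : Type} [SmallCategory P] (hPthin : ∀ (a b : P) (f g : a ⟶ b), f = g)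
    {S : Type} [Preorder S] (hSne : Nonempty S) (hSdir : ∀ s s' : S, ∃ t, s ≤ t ∧ s' ≤ t)
    (r : S → P → Prop)
    (hmono : ∀ (s s' : S) (p p' : P), s ≤ s' → Nonempty (p ⟶ p') → r s' p → r s p')
    (h1 : ∀ p, (∃ s, r s p) ∧ ∀ s s', r s p → r s' p → ∃ t, r t p ∧ s ≤ t ∧ s' ≤ t)
    (h2 : ∀ s, (∃ p, r s p) ∧ ∀ p1 p2, r s p1 → r s p2 →
      ∃ p3, r s p3 ∧ Nonempty (p3 ⟶ p1) ∧ Nonempty (p3 ⟶ p2)) : Acy P := by
  have hP : HIso (WP r hPthin) := by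
    refine quillenA_over _ fun p0 => acy_of_directed ?_ ?_ ?_
    · obtain ⟨s, hs⟩ := (h1 p0).1
      exact ⟨CostructuredArrow.mk (S := WP r hPthin) (Y := (⟨p0, s, hs⟩ : W r)) (𝟙 p0)⟩
    · intro X Y f g
      ext
      exact Subsingleton.elim _ _
    · intro X Y
      have r1 : r X.left.s p0 := hmono _ _ _ _ le_rfl ⟨X.hom⟩ X.left.h
      have r2 : r Y.left.s p0 := hmono _ _ _ _ le_rfl ⟨Y.hom⟩ Y.left.h
      obtain ⟨t, ht, e1, e2⟩ := (h1 p0).2 _ _ r1 r2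
      refine ⟨CostructuredArrow.mk (S := WP r hPthin) (Y := (⟨p0, t, ht⟩ : W r)) (𝟙 p0),
        ⟨CostructuredArrow.homMk (homOfLE ⟨⟨X.hom⟩, e1⟩) (hPthin _ _ _ _)⟩,
        ⟨CostructuredArrow.homMk (homOfLE ⟨⟨Y.hom⟩, e2⟩) (hPthin _ _ _ _)⟩⟩
  have hS : HIso (WS r) := by
    refine quillenA_under _ fun s0 => acy_of_codirected ?_ ?_ ?_
    · obtain ⟨p, hp⟩ := (h2 s0).1
      exact ⟨StructuredArrow.mk (T := WS r) (Y := (⟨p, s0, hp⟩ : W r)) (𝟙 s0)⟩
    · intro X Y f g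
      ext
      exact Subsingleton.elim _ _
    · intro X Y
      have e1 : s0 ≤ X.right.s := leOfHom X.hom
      have e2 : s0 ≤ Y.right.s := leOfHom Y.hom
      have r1 : r s0 X.right.p := hmono _ _ _ _ e1 ⟨𝟙 _⟩ X.right.h
      have r2 : r s0 Y.right.p := hmono _ _ _ _ e2 ⟨𝟙 _⟩ Y.right.h
      obtain ⟨p3, h3, f1, f2⟩ := (h2 s0).2 _ _ r1 r2
      refine ⟨StructuredArrow.mk (T := WS r) (Y := (⟨p3, s0, h3⟩ : W r)) (𝟙 s0),
        ⟨StructuredArrow.homMk (homOfLE ⟨f1, e1⟩) (Subsingleton.elim _ _)⟩,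
        ⟨StructuredArrow.homMk (homOfLE ⟨f2, e2⟩) (Subsingleton.elim _ _)⟩⟩
  have aS : Acy S := by
    refine acy_of_directed hSne (fun a b f g => Subsingleton.elim _ _) (fun a b => ?_)
    obtain ⟨t, e1, e2⟩ := hSdir a b
    exact ⟨t, ⟨homOfLE e1⟩, ⟨homOfLE e2⟩⟩
  exact (Acy.congr hP).1 ((Acy.congr hS).2 aS)

namespace ActCat

variable {Γ : Type} [Group Γ] {A A' : ActCat Γ} (f : A.Ob → A'.Ob)
  (hAdm : ∀ {a b : A.Ob} {g : Γ}, A.Adm a g b → A'.Adm (f a) g (f b))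
  (hN : ∀ {a : A.Ob} {n : Γ}, n ∈ A.N a → n ∈ A'.N (f a))

theorem acy_over_rel (b : A'.Ob)
    (hthin : ∀ a a' g k k', A'.Adm (f a') g b → A.Adm a k a' → A.Adm a k' a' →
      k⁻¹ * k' ∈ A'.N (f a) → k⁻¹ * k' ∈ A.N a)
    {S : Type} [Preorder S] (hSne : Nonempty S) (hSdir : ∀ s s' : S, ∃ t, s ≤ t ∧ s' ≤ t)
    (r : S → A.Ob → Γ → Prop)
    (hrN : ∀ s a g g', A'.Adm (f a) g b → A'.Adm (f a) g' b → g⁻¹ * g' ∈ A'.N (f a) →
      r s a g → r s a g')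
    (hmono : ∀ s s' a a' g' k, s ≤ s' → A'.Adm (f a') g' b → A.Adm a k a' →
      r s' a (g' * k) → r s a' g')
    (h1 : ∀ a g, A'.Adm (f a) g b →
      (∃ s, r s a g) ∧ ∀ s s', r s a g → r s' a g → ∃ t, r t a g ∧ s ≤ t ∧ s' ≤ t)
    (h2 : ∀ s, (∃ a g, A'.Adm (f a) g b ∧ r s a g) ∧
      ∀ a1 g1 a2 g2, A'.Adm (f a1) g1 b → A'.Adm (f a2) g2 b → r s a1 g1 → r s a2 g2 →
        ∃ a3 g3 k1 k2, A'.Adm (f a3) g3 b ∧ r s a3 g3 ∧ A.Adm a3 k1 a1 ∧ A.Adm a3 k2 a2 ∧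
          (g1 * k1)⁻¹ * g3 ∈ A'.N (f a3) ∧ (g2 * k2)⁻¹ * g3 ∈ A'.N (f a3)) :
    Acy (CostructuredArrow (idFun f hAdm hN) (⟨b⟩ : A'.Obj)) := by
  have hsurj : ∀ X : CostructuredArrow (idFun f hAdm hN) (⟨b⟩ : A'.Obj), ∃ g,
      ∃ hg : A'.Adm (f X.left.o) g b, X.hom = A'.hom g hg := fun X => hom_surj (A := A') X.hom
  have hw : ∀ (X Y : CostructuredArrow (idFun f hAdm hN) (⟨b⟩ : A'.Obj)) (u : X ⟶ Y) (g g' k : Γ)
      (hg : A'.Adm (f X.left.o) g b) (hg' : A'.Adm (f Y.left.o) g' b)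
      (hk : A.Adm X.left.o k Y.left.o), X.hom = A'.hom g hg → Y.hom = A'.hom g' hg' →
      u.left = A.hom k hk → (g' * k)⁻¹ * g ∈ A'.N (f X.left.o) := by
    intro X Y u g g' k hg hg' hk h3 h4 h5
    have h6 : (idFun f hAdm hN).map u.left ≫ Y.hom = X.hom := CostructuredArrow.w u
    rw [h3, h4, h5] at h6
    have h7 : A'.comp (A'.cl k (hAdm hk)) (A'.cl g' hg') = A'.cl g hg := h6
    rw [comp_cl] at h7
    exact cl_eq.1 h7
  let r' : S → CostructuredArrow (idFun f hAdm hN) (⟨b⟩ : A'.Obj) → Prop := fun s X =>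
    ∃ g, ∃ hg : A'.Adm (f X.left.o) g b, X.hom = A'.hom g hg ∧ r s X.left.o g
  have hr' : ∀ s (X : CostructuredArrow (idFun f hAdm hN) (⟨b⟩ : A'.Obj)) g
      (hg : A'.Adm (f X.left.o) g b), X.hom = A'.hom g hg → r' s X → r s X.left.o g := by
    rintro s X g hg h ⟨g', hg', h', h''⟩
    rw [h] at h'
    have h3 : g⁻¹ * g' ∈ A'.N (f X.left.o) := (cl_eq (A := A')).1 h'
    refine hrN s _ g' g hg' hg ?_ h''
    simpa using (A'.N (f X.left.o)).inv_mem h3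
  refine acy_of_rel (fun X Y u v => ?_) hSne hSdir r' ?_ ?_ ?_
  · obtain ⟨g, hg, hX⟩ := hsurj X
    obtain ⟨g', hg', hY⟩ := hsurj Y
    obtain ⟨k, hk, hu⟩ := hom_surj (A := A) u.left
    obtain ⟨k', hk', hv⟩ := hom_surj (A := A) v.left
    have h3 := hw X Y u g g' k hg hg' hk hX hY hu
    have h4 := hw X Y v g g' k' hg hg' hk' hX hY hv
    ext
    rw [hu, hv]
    refine (cl_eq (A := A)).2 (hthin _ _ g' k k' hg' hk hk' ?_)
    have h5 := (A'.N (f X.left.o)).mul_mem h3 ((A'.N (f X.left.o)).inv_mem h4)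
    have h6 : (g' * k)⁻¹ * g * ((g' * k')⁻¹ * g)⁻¹ = k⁻¹ * k' := by group
    rwa [h6] at h5
  · rintro s s' X Y hs ⟨u⟩ h
    obtain ⟨g, hg, hX⟩ := hsurj X
    obtain ⟨g', hg', hY⟩ := hsurj Y
    obtain ⟨k, hk, hu⟩ := hom_surj (A := A) u.left
    have h3 := hw X Y u g g' k hg hg' hk hX hY hu
    have h4 := hr' s' X g hg hX h
    refine ⟨g', hg', hY, hmono s s' _ _ g' k hs hg' hk ?_⟩
    refine hrN s' _ g (g' * k) hg (A'.mul (hAdm hk) hg') ?_ h4
    simpa using (A'.N (f X.left.o)).inv_mem h3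
  · intro X
    obtain ⟨g, hg, hX⟩ := hsurj X
    obtain ⟨⟨s, hs⟩, h3⟩ := h1 _ g hg
    refine ⟨⟨s, g, hg, hX, hs⟩, fun s s' h4 h5 => ?_⟩
    obtain ⟨t, ht, h6⟩ := h3 s s' (hr' s X g hg hX h4) (hr' s' X g hg hX h5)
    exact ⟨t, ⟨g, hg, hX, ht⟩, h6⟩
  · intro s
    obtain ⟨⟨a, g, hg, hr⟩, h3⟩ := h2 s
    refine ⟨⟨CostructuredArrow.mk (S := idFun f hAdm hN) (Y := (⟨a⟩ : A.Obj)) (A'.hom g hg), g, hg,
      rfl, hr⟩, fun X Y hX hY => ?_⟩
    obtain ⟨g1, hg1, hX1⟩ := hsurj X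
    obtain ⟨g2, hg2, hY1⟩ := hsurj Y
    obtain ⟨a3, g3, k1, k2, hg3, hr3, hk1, hk2, e1, e2⟩ := h3 _ g1 _ g2 hg1 hg2
      (hr' s X g1 hg1 hX1 hX) (hr' s Y g2 hg2 hY1 hY)
    refine ⟨CostructuredArrow.mk (S := idFun f hAdm hN) (Y := (⟨a3⟩ : A.Obj)) (A'.hom g3 hg3),
      ⟨g3, hg3, rfl, hr3⟩, ⟨CostructuredArrow.homMk (A.hom k1 hk1) ?_⟩,
      ⟨CostructuredArrow.homMk (A.hom k2 hk2) ?_⟩⟩
    · rw [hX1]
      exact (cl_eq (A := A')).2 e1
    · rw [hY1]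
      exact (cl_eq (A := A')).2 e2

end ActCat
end C715
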