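import Pool.Agent.Work.MP_c71557_gt.H.Act

set_option autoImplicit false
set_option linter.unusedVariables false

/-!
# MP_c71557_gt, block H: first properties of `Cx` (proved)
-/

namespace C715

namespace Cx

theorem mem_Z_zero {A : Cx} (x : A.X 0) : x ∈ A.Z 0 := trivial

theorem mem_Z_succ {A : Cx} {n : ℕ} {x : A.X (n + 1)} : x ∈ A.Z (n + 1) ↔ A.d n x = 0 :=
  LinearMap.mem_ker

theorem mem_Bd {A : Cx} {n : ℕ} {x : A.X n} : x ∈ A.Bd n ↔ ∃ y, A.d n y = x := Iff.rfl

theorem Bd_le_Z (A : Cx) (n : ℕ) : A.Bd n ≤ A.Z n := by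
  rintro _ ⟨y, rfl⟩
  cases n with
  | zero => trivial
  | succ n => exact A.dd n y

theorem d_mem_Z (A : Cx) (n : ℕ) (y : A.X (n + 1)) : A.d n y ∈ A.Z n := A.Bd_le_Z n ⟨y, rfl⟩

theorem cls_eq_zero {A : Cx} {n : ℕ} {x : A.X n} {hx : x ∈ A.Z n} :
    A.cls n x hx = 0 ↔ x ∈ A.Bd n := by
  unfold cls
  rw [Submodule.Quotient.mk_eq_zero]
  rfl

theorem cls_eq {A : Cx} {n : ℕ} {x y : A.X n} {hx : x ∈ A.Z n} {hy : y ∈ A.Z n} :
    A.cls n x hx = A.cls n y hy ↔ x - y ∈ A.Bd n := by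
  unfold cls
  rw [Submodule.Quotient.eq]
  rfl

theorem cls_add {A : Cx} {n : ℕ} {x y : A.X n} (hx : x ∈ A.Z n) (hy : y ∈ A.Z n) :
    A.cls n (x + y) ((A.Z n).add_mem hx hy) = A.cls n x hx + A.cls n y hy := rfl

theorem cls_smul {A : Cx} {n : ℕ} {x : A.X n} (c : ℚ) (hx : x ∈ A.Z n) :
    A.cls n (c • x) ((A.Z n).smul_mem c hx) = c • A.cls n x hx := rfl

theorem H_ind {A : Cx} {n : ℕ} {p : A.H n → Prop} (h : ∀ x hx, p (A.cls n x hx)) (y : A.H n) :
    p y := by
  obtain ⟨⟨x, hx⟩, rfl⟩ := Submodule.Quotient.mk_surjective _ y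
  exact h x hx

theorem H_surj {A : Cx} {n : ℕ} (y : A.H n) : ∃ x hx, y = A.cls n x hx := by
  obtain ⟨⟨x, hx⟩, rfl⟩ := Submodule.Quotient.mk_surjective _ y
  exact ⟨x, hx, rfl⟩

theorem H_cls {A B : Cx} (f : Hom A B) (n : ℕ) (x : A.X n) (hx : x ∈ A.Z n) :
    f.H n (A.cls n x hx) = B.cls n (f.f n x) (f.map_Z n hx) := rfl

theorem H_id (A : Cx) (n : ℕ) (y : A.H n) : (Hom.id A).H n y = y := by
  induction y using H_ind with
  | h x hx => rfl

theorem H_comp {A B C : Cx} (f : Hom A B) (g : Hom B C) (n : ℕ) (y : A.H n) :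
    (f.comp g).H n y = g.H n (f.H n y) := by
  induction y using H_ind with
  | h x hx => rfl

theorem H_subsingleton {A : Cx} {n : ℕ} : Subsingleton (A.H n) ↔ ∀ x ∈ A.Z n, x ∈ A.Bd n := by
  constructor
  · intro h x hx
    exact cls_eq_zero.1 (Subsingleton.elim (A.cls n x hx) 0)
  · intro h
    refine ⟨fun a b => ?_⟩
    obtain ⟨x, hx, rfl⟩ := H_surj a
    obtain ⟨y, hy, rfl⟩ := H_surj b
    exact (cls_eq_zero.2 (h x hx)).trans (cls_eq_zero.2 (h y hy)).symm

/-- chain homotopy: `f - g = d h + h d` -/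
def Htpy {A B : Cx} (f g : Hom A B) : Prop :=
  ∃ h : ∀ n, A.X n →ₗ[ℚ] B.X (n + 1),
    (∀ x, f.f 0 x - g.f 0 x = B.d 0 (h 0 x)) ∧
    ∀ n x, f.f (n + 1) x - g.f (n + 1) x = B.d (n + 1) (h (n + 1) x) + h n (A.d n x)

theorem Htpy.H_eq {A B : Cx} {f g : Hom A B} (h : Htpy f g) (n : ℕ) : f.H n = g.H n := by
  obtain ⟨h, h0, h1⟩ := h
  refine LinearMap.ext fun y => ?_
  induction y using H_ind with
  | h x hx =>
    rw [H_cls, H_cls, cls_eq]
    cases n with
    | zero => exact ⟨h 0 x, (h0 x).symm⟩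
    | succ n =>
      rw [mem_Z_succ] at hx
      refine ⟨h (n + 1) x, ?_⟩
      rw [h1, hx, map_zero, add_zero]

theorem Qis.comp {A B C : Cx} {f : Hom A B} {g : Hom B C} (hf : Qis f) (hg : Qis g) :
    Qis (f.comp g) := fun n => by
  have : ((f.comp g).H n : A.H n → C.H n) = (g.H n) ∘ (f.H n) := funext fun y => H_comp f g n y
  rw [this]
  exact (hg n).comp (hf n)

theorem Qis.of_comp_left {A B C : Cx} {f : Hom A B} {g : Hom B C} (hf : Qis f)
    (hfg : Qis (f.comp g)) : Qis g := fun n => by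
  have : ((f.comp g).H n : A.H n → C.H n) = (g.H n) ∘ (f.H n) := funext fun y => H_comp f g n y
  have h1 := hfg n
  rw [this] at h1
  exact (Function.Bijective.of_comp_iff _ (hf n)).1 h1

theorem Qis.of_comp_right {A B C : Cx} {f : Hom A B} {g : Hom B C} (hg : Qis g)
    (hfg : Qis (f.comp g)) : Qis f := fun n => by
  have : ((f.comp g).H n : A.H n → C.H n) = (g.H n) ∘ (f.H n) := funext fun y => H_comp f g n y
  have h1 := hfg n
  rw [this] at h1
  exact (Function.Bijective.of_comp_iff' (hg n) _).1 h1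

theorem coker_SES {A B : Cx} (f : Hom A B) (h : ∀ n, Function.Injective (f.f n)) :
    SES f (toCoker f) where
  inj := h
  exact n x := by
    change (Submodule.Quotient.mk x : B.X n ⧸ LinearMap.range (f.f n)) = 0 ↔ _
    rw [Submodule.Quotient.mk_eq_zero]
    rfl
  surj n := Submodule.mkQ_surjective _

end Cx

namespace Serre

variable (S : Serre)

theorem of_inj {V W : Type} [AddCommGroup V] [Module ℚ V] [AddCommGroup W] [Module ℚ W]
    (f : V →ₗ[ℚ] W) (hf : Function.Injective f) (h : S.P W) : S.P V :=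
  S.ext3 PUnit V W 0 f (fun x hx => by
    rw [(injective_iff_map_eq_zero f).1 hf x hx]
    exact Submodule.zero_mem _) (S.zero _ inferInstance) h

theorem of_surj {V W : Type} [AddCommGroup V] [Module ℚ V] [AddCommGroup W] [Module ℚ W]
    (f : V →ₗ[ℚ] W) (hf : Function.Surjective f) (h : S.P V) : S.P W :=
  S.ext3 V W PUnit f 0 (fun x _ => hf x) h (S.zero _ inferInstance)

theorem congr {V W : Type} [AddCommGroup V] [Module ℚ V] [AddCommGroup W] [Module ℚ W]
    (e : V ≃ₗ[ℚ] W) : S.P V ↔ S.P W :=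
  ⟨S.of_surj e.toLinearMap e.surjective, S.of_inj e.toLinearMap e.injective⟩

/-- the zero class -/
def triv : Serre where
  P V _ _ := Subsingleton V
  zero V _ _ h := h
  ext3 U V W _ _ _ _ _ _ f g h hU hW := by
    refine ⟨fun a b => ?_⟩
    have key : ∀ x : V, x = 0 := fun x => by
      obtain ⟨u, rfl⟩ := h x (hW.elim _ _)
      rw [hU.elim u 0, map_zero]
    rw [key a, key b]

/-- the class of countable vector spaces -/
def cnt : Serre where
  P V _ _ := Countable V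
  zero V _ _ h := inferInstance
  ext3 U V W _ _ _ _ _ _ f g h hU hW := by
    have := hU
    have := hW
    choose s hs using fun w : LinearMap.range g => w.2
    have : Function.Surjective (fun p : U × LinearMap.range g => f p.1 + s p.2) := by
      intro x
      have hx : g (x - s ⟨g x, x, rfl⟩) = 0 := by
        rw [map_sub, hs, sub_self]
      obtain ⟨u, hu⟩ := h _ hx
      exact ⟨(u, ⟨g x, x, rfl⟩), by simp [hu]⟩
    exact this.countable

end Serre

section cat
open CategoryTheory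

variable {C : Type} [SmallCategory C] {D : Type} [SmallCategory D] {E : Type} [SmallCategory E]

theorem NCmap_comp (F : C ⥤ D) (G : D ⥤ E) : (NCmap F).comp (NCmap G) = NCmap (F ⋙ G) := by
  refine Cx.Hom.ext (funext fun n => Finsupp.lhom_ext fun σ a => ?_)
  change Finsupp.mapDomain _ (Finsupp.mapDomain _ (Finsupp.single σ a)) =
    Finsupp.mapDomain _ (Finsupp.single σ a)
  rw [Finsupp.mapDomain_single, Finsupp.mapDomain_single, Finsupp.mapDomain_single]
  rfl

theorem NCmap_id : NCmap (𝟭 C) = Cx.Hom.id (NC C) := by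
  refine Cx.Hom.ext (funext fun n => Finsupp.lhom_ext fun σ a => ?_)
  change Finsupp.mapDomain _ (Finsupp.single σ a) = Finsupp.single σ a
  rw [Finsupp.mapDomain_single]
  rfl

theorem HCmap_comp (F : C ⥤ D) (G : D ⥤ E) (n : ℕ) (y : HC C n) :
    HCmap (F ⋙ G) n y = HCmap G n (HCmap F n y) := by
  rw [← Cx.H_comp, NCmap_comp]

theorem HCmap_id (n : ℕ) (y : HC C n) : HCmap (𝟭 C) n y = y := by
  rw [HCmap, NCmap_id, Cx.H_id]

theorem HIso.comp {F : C ⥤ D} {G : D ⥤ E} (hF : HIso F) (hG : HIso G) : HIso (F ⋙ G) := by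
  have := Cx.Qis.comp (f := NCmap F) (g := NCmap G) hF hG
  rwa [NCmap_comp] at this

theorem HIso.of_comp_left {F : C ⥤ D} {G : D ⥤ E} (hF : HIso F) (hFG : HIso (F ⋙ G)) :
    HIso G := by
  refine Cx.Qis.of_comp_left (f := NCmap F) (g := NCmap G) hF ?_
  rwa [NCmap_comp]

theorem HIso.of_comp_right {F : C ⥤ D} {G : D ⥤ E} (hG : HIso G) (hFG : HIso (F ⋙ G)) :
    HIso F := by
  refine Cx.Qis.of_comp_right (f := NCmap F) (g := NCmap G) hG ?_
  rwa [NCmap_comp]

end cat
end C715
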