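import Pool.Agent.Work.MP_c71557_gt.H.Equiv
import Pool.Agent.Work.MP_c71557_gt.H.Op

set_option autoImplicit false

/-!
# MP_c71557_gt, module H/Filt: filtered and cofiltered categories are acyclic (M)

`C` filtered, `z` a cycle in degree `n + 1` (or degree `0` with augmentation `0`).  `z` is a finite
combination of simplices `σ_j`; let `O` be the finite set of all their objects and `H` the finite
set of all arrows `σ_j.m a b`.  By `IsFiltered.sup_exists` (Mathlib) there are an object `c` and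
arrows `t_x : x ⟶ c` (`x ∈ O`) commuting with all arrows of `H`.  Append `c`: for a simplex `σ` with
objects in `O` and arrows in `H` let `σ * c` be the simplex `(σ_0, …, σ_n, c)` with arrows
`t_{σ_i}`.  Then `∂(σ * c) = (∂ σ) * c + (-1)^{n+1} σ` (in degree `0`: `∂(σ * c) = c - σ`), so
`z = ± ∂ (z * c)` (resp. `z` is a boundary, as its augmentation vanishes).
It is convenient to avoid `snoc`: consider the subcategory-like preorder trick: the simplices with
objects in `O`, arrows in `H` are simplices of the category over `c`: a simplex `σ` together with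
the arrows `t` defines a simplex of `Over c` (arrows `t_{σ_i}`), and `Over c` has a terminal object,
so it is acyclic (`acy_of_terminal`), while `Over.forget` maps it back.  The lift
`z̃ = ∑ a_j (σ_j, t)` of `z` is a cycle, because its faces again have objects in `O` and arrows
among the `σ_j.m a b`, with the same `t`.
Cofiltered: the same with `IsCofiltered.inf_exists` and `Under c`.
Thin directed categories are filtered (`IsFiltered` from `Nonempty`, upper bounds, and equality of
parallel arrows).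
-/

namespace C715

open CategoryTheory

variable {C : Type} [SmallCategory C]

section filt

variable {O : Finset C} {c : C}

/-- simplices with objects in `O`, whose arrows commute with the given arrows to `c` -/
private def Good (T : ∀ X : C, X ∈ O → (X ⟶ c)) {n : ℕ} (σ : Sx C n) : Prop :=
  ∃ h : ∀ i, σ.o i ∈ O, ∀ i j hij, σ.m i j hij ≫ T _ (h j) = T _ (h i)

private theorem Good.pre {T : ∀ X : C, X ∈ O → (X ⟶ c)} {m n : ℕ} {σ : Sx C n} (h : Good T σ)
    (φ : Fin (m + 1) →o Fin (n + 1)) : Good T (pre φ σ) :=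
  ⟨fun i => h.1 (φ i), fun i j hij => h.2 (φ i) (φ j) (φ.monotone hij)⟩

/-- the lift to the category over `c` -/
private def lft (T : ∀ X : C, X ∈ O → (X ⟶ c)) {n : ℕ} (σ : Sx C n) (h : Good T σ) :
    Sx (Over c) n where
  o i := Over.mk (T _ (h.1 i))
  m i j hij := Over.homMk (σ.m i j hij) (h.2 i j hij)
  m_self i := Over.OverMorphism.ext (σ.m_self i)
  m_comp i j k h h' := Over.OverMorphism.ext (σ.m_comp i j k h h')

open Classical in
/-- linear lift -/
private noncomputable def lin (T : ∀ X : C, X ∈ O → (X ⟶ c)) (n : ℕ) :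
    (NC C).X n →ₗ[ℚ] (NC (Over c)).X n :=
  Finsupp.lsum ℚ fun σ => if h : Good T σ then Finsupp.lsingle (lft T σ h) else 0

private theorem lin_single (T : ∀ X : C, X ∈ O → (X ⟶ c)) {n : ℕ} (σ : Sx C n) (h : Good T σ)
    (a : ℚ) : lin T n (Finsupp.single σ a) = Finsupp.single (lft T σ h) a := by
  unfold lin
  rw [Finsupp.lsum_single, dif_pos h]
  rfl

private theorem good_ind (T : ∀ X : C, X ∈ O → (X ⟶ c)) {n : ℕ} {V : Type} [AddCommGroup V]
    [Module ℚ V] (f g : (NC C).X n →ₗ[ℚ] V) (h : ∀ σ a, Good T σ →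
      f (Finsupp.single σ a) = g (Finsupp.single σ a)) (y : Sx C n →₀ ℚ)
    (hy : ∀ σ ∈ y.support, Good T σ) : f y = g y := by
  have h1 : y = ∑ σ ∈ y.support, Finsupp.single σ (y σ) := (Finsupp.sum_single y).symm
  rw [h1]
  refine (map_sum f _ _).trans (Eq.trans ?_ (map_sum g _ _).symm)
  exact Finset.sum_congr rfl fun σ hσ => h σ _ (hy σ hσ)

private theorem lin_d (T : ∀ X : C, X ∈ O → (X ⟶ c)) {n : ℕ} (y : Sx C (n + 1) →₀ ℚ)
    (hy : ∀ σ ∈ y.support, Good T σ) :
    lin T n ((NC C).d n y) = (NC (Over c)).d n (lin T (n + 1) y) := by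
  refine good_ind T ((lin T n).comp ((NC C).d n)) (((NC (Over c)).d n).comp (lin T (n + 1)))
    (fun σ a h => ?_) y hy
  rw [LinearMap.comp_apply, LinearMap.comp_apply, NC_d_single, lin_single T σ h, NC_d_single,
    map_sum]
  refine Finset.sum_congr rfl fun i _ => ?_
  rw [map_smul, lin_single T _ (h.pre (dl i))]
  rfl

private theorem lin_push (T : ∀ X : C, X ∈ O → (X ⟶ c)) {n : ℕ} (y : Sx C n →₀ ℚ)
    (hy : ∀ σ ∈ y.support, Good T σ) :
    (NCmap (Over.forget c)).f n (lin T n y) = y := by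
  refine good_ind T (((NCmap (Over.forget c)).f n).comp (lin T n)) LinearMap.id
    (fun σ a h => ?_) y hy
  rw [LinearMap.comp_apply, lin_single T σ h, NCmap_single]
  rfl

private theorem lin_aug (T : ∀ X : C, X ∈ O → (X ⟶ c)) {n : ℕ} (y : Sx C n →₀ ℚ)
    (hy : ∀ σ ∈ y.support, Good T σ) :
    Finsupp.linearCombination ℚ (fun _ => (1 : ℚ)) (lin T n y) =
      Finsupp.linearCombination ℚ (fun _ => (1 : ℚ)) y := by
  refine good_ind T ((Finsupp.linearCombination ℚ (fun _ : Sx (Over c) n => (1 : ℚ))).comp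
    (lin T n)) (Finsupp.linearCombination ℚ (fun _ : Sx C n => (1 : ℚ)))
    (fun σ a h => ?_) y hy
  rw [LinearMap.comp_apply, lin_single T σ h, Finsupp.linearCombination_single,
    Finsupp.linearCombination_single]

end filt

private theorem exists_T [IsFiltered C] {n : ℕ} (z : Sx C n →₀ ℚ) :
    ∃ (O : Finset C) (c : C) (T : ∀ X : C, X ∈ O → (X ⟶ c)), ∀ σ ∈ z.support, Good T σ := by
  classical
  let O : Finset C := z.support.biUnion fun σ => Finset.univ.image σ.o
  have hO : ∀ σ ∈ z.support, ∀ i, σ.o i ∈ O := fun σ hσ i =>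
    Finset.mem_biUnion.2 ⟨σ, hσ, Finset.mem_image_of_mem _ (Finset.mem_univ i)⟩
  let g : {σ // σ ∈ z.support} × {q : Fin (n + 1) × Fin (n + 1) // q.1 ≤ q.2} →
      (Σ' (X Y : C) (_ : X ∈ O) (_ : Y ∈ O), X ⟶ Y) := fun p =>
    ⟨p.1.1.o p.2.1.1, p.1.1.o p.2.1.2, hO _ p.1.2 _, hO _ p.1.2 _, p.1.1.m _ _ p.2.2⟩
  obtain ⟨c, T, hT⟩ := IsFiltered.sup_exists O (Set.finite_range g).toFinset
  refine ⟨O, c, fun X hX => T hX, fun σ hσ => ⟨hO σ hσ, fun i j hij => ?_⟩⟩
  refine hT (hO σ hσ i) (hO σ hσ j) ?_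
  rw [Set.Finite.mem_toFinset]
  exact ⟨(⟨σ, hσ⟩, ⟨(i, j), hij⟩), rfl⟩

private theorem acy_over (c : C) : Acy (Over c) := by
  refine acy_of_terminal (Over.mk (𝟙 c)) fun d => ?_
  refine ⟨Over.mkIdTerminal.from d, trivial, fun f _ => ?_⟩
  exact Over.mkIdTerminal.hom_ext _ _

theorem acy_of_filtered [IsFiltered C] : Acy C := by
  refine ⟨IsFiltered.nonempty, fun x hx => ?_, fun n => ?_⟩
  · obtain ⟨O, c, T, hT⟩ := exists_T (n := 0) x
    have h1 : lin T 0 x ∈ (NC (Over c)).Bd 0 := by
      refine (acy_over c).2.1 _ ?_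
      rw [lin_aug T x hT]
      exact hx
    obtain ⟨w, hw⟩ := h1
    refine ⟨(NCmap (Over.forget c)).f 1 w, ?_⟩
    rw [← (NCmap (Over.forget c)).comm, hw]
    exact lin_push T x hT
  · rw [Cx.H_subsingleton]
    intro x hx
    rw [Cx.mem_Z_succ] at hx
    obtain ⟨O, c, T, hT⟩ := exists_T (n := n + 1) x
    have h1 : lin T (n + 1) x ∈ (NC (Over c)).Z (n + 1) := by
      rw [Cx.mem_Z_succ, ← lin_d T x hT, hx, map_zero]
    obtain ⟨w, hw⟩ := Cx.H_subsingleton.1 ((acy_over c).2.2 n) _ h1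
    refine ⟨(NCmap (Over.forget c)).f (n + 2) w, ?_⟩
    rw [← (NCmap (Over.forget c)).comm, hw]
    exact lin_push T x hT

theorem acy_of_cofiltered [IsCofiltered C] : Acy C := acy_op.1 acy_of_filtered

theorem acy_of_directed (hne : Nonempty C) (hthin : ∀ (a b : C) (f g : a ⟶ b), f = g)
    (hdir : ∀ a b : C, ∃ c, Nonempty (a ⟶ c) ∧ Nonempty (b ⟶ c)) : Acy C := by
  have : IsFiltered C :=
    { cocone_objs := fun a b => by
        obtain ⟨c, ⟨f⟩, ⟨g⟩⟩ := hdir a b
        exact ⟨c, f, g, trivial⟩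
      cocone_maps := fun a b f g => ⟨b, 𝟙 b, by rw [hthin _ _ f g]⟩
      nonempty := hne }
  exact acy_of_filtered

theorem acy_of_codirected (hne : Nonempty C) (hthin : ∀ (a b : C) (f g : a ⟶ b), f = g)
    (hdir : ∀ a b : C, ∃ c, Nonempty (c ⟶ a) ∧ Nonempty (c ⟶ b)) : Acy C := by
  have : IsCofiltered C :=
    { cone_objs := fun a b => by
        obtain ⟨c, ⟨f⟩, ⟨g⟩⟩ := hdir a b
        exact ⟨c, f, g, trivial⟩
      cone_maps := fun a b f g => ⟨a, 𝟙 a, by rw [hthin _ _ f g]⟩
      nonempty := hne }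
  exact acy_of_cofiltered

end C715
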