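import Pool.Agent.Work.MP_c71557_gt.H.LocNat
import Pool.Agent.Work.MP_c71557_gt.H.Equiv

set_option autoImplicit false

/-!
# MP_c71557_gt, module H/ConjIncl: inclusions `K ≤ L` which are homology isomorphisms (M)

PROOF.  Conjugation by `g ∈ L` on chains of `sg L`: the functor `sgMap (conj g) L L` is naturally
isomorphic to the identity (the natural transformation is `g`), so it acts trivially on homology.
*Surjectivity*: a cycle `z` of `sg L` involves a finite set `F ⊆ L` (all entries of all simplices);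
take `g` for `F0 = ∅`; the conjugated cycle has entries in `K`, so it comes from a cycle of
`sg K` (injectivity of `σ ↦ σ.push (sgIncl h)`), and it is homologous to `z`.
*Injectivity*: `z` a cycle of `sg K` and `w` a chain of `sg L` with `d w = z`; `F0` the entries of
`z`, `F` the entries of `w`; `g` commutes with `F0`, so `g w g⁻¹` is a chain of `sg K` with
boundary `g z g⁻¹ = z`.
For surjectivity alone (`conjIncl_surj`) only the case `F0 = ∅` is needed.
-/

namespace C715

open CategoryTheory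

namespace ActCat

variable {Γ : Type} [Group Γ]

/-- the group element of an arrow of `sg K` -/
private def val {K : Subgroup Γ} {x y : (sg K).Obj} (f : x ⟶ y) : Γ :=
  Quotient.lift (fun g : {g : Γ // (sg K).Adm x.o g y.o} => g.1) (by
    rintro ⟨g, hg⟩ ⟨g', hg'⟩ (e : g⁻¹ * g' ∈ (⊥ : Subgroup Γ))
    rw [Subgroup.mem_bot] at e
    exact inv_mul_eq_one.1 e) f

private theorem val_mem {K : Subgroup Γ} {x y : (sg K).Obj} (f : x ⟶ y) : val f ∈ K := by
  induction f using ActCat.ind with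
  | h g hg => exact hg

private theorem val_inj {K : Subgroup Γ} {x y : (sg K).Obj} {f f' : x ⟶ y}
    (h : val f = val f') : f = f' := by
  induction f using ActCat.ind with
  | h g hg =>
    induction f' using ActCat.ind with
    | h g' hg' =>
      refine cl_eq.2 ?_
      have e : g = g' := h
      change g⁻¹ * g' ∈ (⊥ : Subgroup Γ)
      rw [Subgroup.mem_bot, e, inv_mul_cancel]

private theorem val_comp {K : Subgroup Γ} {x y z : (sg K).Obj} (f : x ⟶ y) (f' : y ⟶ z) :
    val (f ≫ f') = val f' * val f := by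
  induction f using ActCat.ind with
  | h g hg =>
    induction f' using ActCat.ind with
    | h g' hg' => rfl

private theorem val_id {K : Subgroup Γ} (x : (sg K).Obj) : val (𝟙 x) = 1 := rfl

private theorem val_map {Γ' : Type} [Group Γ'] (φ : Γ →* Γ') (K : Subgroup Γ) (L : Subgroup Γ')
    (h : ∀ k ∈ K, φ k ∈ L) {x y : (sg K).Obj} (f : x ⟶ y) :
    val ((sgMap φ K L h).map f) = φ (val f) := by
  induction f using ActCat.ind with
  | h g hg => rfl

private theorem val_incl {K L : Subgroup Γ} (h : K ≤ L) {x y : (sg K).Obj} (f : x ⟶ y) :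
    val ((sgIncl h).map f) = val f := val_map _ _ _ _ f

private instance sgSub (K : Subgroup Γ) : Subsingleton (sg K).Obj :=
  ⟨fun _ _ => ActCat.Obj.ext (Subsingleton.elim (α := Unit) _ _)⟩

private theorem sx_ext {K : Subgroup Γ} {n : ℕ} {σ τ : Sx (sg K).Obj n}
    (h : ∀ i j hij, val (σ.m i j hij) = val (τ.m i j hij)) : σ = τ := by
  rcases σ with ⟨o, m, h1, h2⟩
  rcases τ with ⟨o', m', h1', h2'⟩
  have ho : o = o' := funext fun _ => Subsingleton.elim _ _
  subst ho
  have hm : m = m' := by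
    funext i j hij
    exact val_inj (h i j hij)
  subst hm
  rfl

/-- lift of a simplex with entries in `K` -/
private def lft {K L : Subgroup Γ} {n : ℕ} (σ : Sx (sg L).Obj n)
    (h : ∀ i j hij, val (σ.m i j hij) ∈ K) : Sx (sg K).Obj n where
  o _ := ⟨()⟩
  m i j hij := (sg K).hom (val (σ.m i j hij)) (h i j hij)
  m_self i := val_inj (by
    rw [val_id]
    change val (σ.m i i le_rfl) = 1
    rw [σ.m_self, val_id])
  m_comp i j k hij hjk := val_inj (by
    rw [val_comp]
    change val (σ.m j k hjk) * val (σ.m i j hij) = val (σ.m i k (hij.trans hjk))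
    rw [← σ.m_comp i j k hij hjk, val_comp])

private theorem lft_push {K L : Subgroup Γ} (hKL : K ≤ L) {n : ℕ} (σ : Sx (sg L).Obj n)
    (h : ∀ i j hij, val (σ.m i j hij) ∈ K) : (lft σ h).push (sgIncl hKL) = σ :=
  sx_ext fun i j hij => by
    change val ((sgIncl hKL).map ((lft σ h).m i j hij)) = _
    rw [val_incl]
    rfl

private theorem push_inj {K L : Subgroup Γ} (h : K ≤ L) (n : ℕ) :
    Function.Injective (fun σ : Sx (sg K).Obj n => σ.push (sgIncl h)) := by
  intro σ τ e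
  refine sx_ext fun i j hij => ?_
  have h1 : ∀ ρ : Sx (sg K).Obj n, val (ρ.m i j hij) = val ((ρ.push (sgIncl h)).m i j hij) := by
    intro ρ
    change _ = val ((sgIncl h).map (ρ.m i j hij))
    rw [val_incl]
  have e' : σ.push (sgIncl h) = τ.push (sgIncl h) := e
  rw [h1 σ, h1 τ, e']

private theorem chain_inj {K L : Subgroup Γ} (h : K ≤ L) (n : ℕ) :
    Function.Injective ((NCmap (sgIncl h)).f n) := by
  have := Finsupp.mapDomain_injective (M := ℚ) (push_inj h n)
  exact this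

private theorem chain_Z {K L : Subgroup Γ} (h : K ≤ L) (n : ℕ) (w : (NC (sg K).Obj).X n)
    (hw : (NCmap (sgIncl h)).f n w ∈ (NC (sg L).Obj).Z n) : w ∈ (NC (sg K).Obj).Z n := by
  cases n with
  | zero => trivial
  | succ n =>
    rw [Cx.mem_Z_succ] at hw ⊢
    rw [← (NCmap (sgIncl h)).comm] at hw
    exact chain_inj h n (by rw [hw, map_zero])

private theorem chain_lft {K L : Subgroup Γ} (h : K ≤ L) (n : ℕ) (z : Sx (sg L).Obj n →₀ ℚ)
    (hz : ∀ σ ∈ z.support, ∀ i j hij, val (σ.m i j hij) ∈ K) :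
    ∃ w : (NC (sg K).Obj).X n, (NCmap (sgIncl h)).f n w = z := by
  have h1 : z ∈ LinearMap.range ((NCmap (sgIncl h)).f n) := by
    rw [← Finsupp.sum_single z]
    refine Submodule.sum_mem _ fun σ hσ => ?_
    refine ⟨Finsupp.single (lft σ (hz σ hσ)) (z σ), ?_⟩
    rw [NCmap_single, lft_push h]
  exact h1

/-- the entries of a chain -/
private def entr {K : Subgroup Γ} {n : ℕ} (z : Sx (sg K).Obj n →₀ ℚ) : Set Γ := by
  classical
  exact (fun p : Sx (sg K).Obj n × (Fin (n + 1) × Fin (n + 1)) =>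
    if h : p.2.1 ≤ p.2.2 then val (p.1.m _ _ h) else 1) ''
      (↑(z.support ×ˢ (Finset.univ : Finset (Fin (n + 1) × Fin (n + 1)))) : Set _)

private theorem entr_fin {K : Subgroup Γ} {n : ℕ} (z : Sx (sg K).Obj n →₀ ℚ) :
    (entr z).Finite := by
  classical
  unfold entr
  exact (Finset.finite_toSet _).image _

private theorem entr_sub {K : Subgroup Γ} {n : ℕ} (z : Sx (sg K).Obj n →₀ ℚ) : entr z ⊆ K := by
  classical
  unfold entr
  rintro _ ⟨⟨σ, i, j⟩, -, rfl⟩
  dsimp only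
  split_ifs with h
  · exact val_mem _
  · exact K.one_mem

private theorem mem_entr {K : Subgroup Γ} {n : ℕ} (z : Sx (sg K).Obj n →₀ ℚ)
    (σ : Sx (sg K).Obj n) (hσ : σ ∈ z.support) (i j : Fin (n + 1)) (hij : i ≤ j) :
    val (σ.m i j hij) ∈ entr z := by
  classical
  unfold entr
  refine ⟨(σ, (i, j)), by simpa using hσ, ?_⟩
  dsimp only
  rw [dif_pos hij]

/-- conjugation by `g` -/
private def cj (L : Subgroup Γ) (g : Γ) (hg : g ∈ L) : (sg L).Obj ⥤ (sg L).Obj :=
  sgMap (MulAut.conj g).toMonoidHom L L (fun k hk => by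
    change g * k * g⁻¹ ∈ L
    exact L.mul_mem (L.mul_mem hg hk) (L.inv_mem hg))

private theorem val_cj (L : Subgroup Γ) (g : Γ) (hg : g ∈ L) {x y : (sg L).Obj} (f : x ⟶ y) :
    val ((cj L g hg).map f) = g * val f * g⁻¹ :=
  val_map (MulAut.conj g).toMonoidHom L L _ f

private theorem cj_id (L : Subgroup Γ) (g : Γ) (hg : g ∈ L) (n : ℕ) (y : HC (sg L).Obj n) :
    HCmap (cj L g hg) n y = y := by
  let α : 𝟭 (sg L).Obj ⟶ cj L g hg :=
    { app := fun x => (sg L).hom g hg
      naturality := fun x y f => val_inj (by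
        refine (val_comp f ((sg L).hom (a := y.o) (b := ()) g hg)).trans ?_
        refine Eq.trans ?_ (val_comp ((sg L).hom (a := x.o) (b := ()) g hg)
          ((cj L g hg).map f)).symm
        have e := val_cj L g hg f
        change g * val f = val ((cj L g hg).map f) * g
        exact (show g * val f = g * val f * g⁻¹ * g by group).trans
          (congrArg (fun t => t * g) e.symm)) }
  have h1 := HCmap_natTrans α n
  rw [← h1, HCmap_id]

private theorem cj_supp (L K : Subgroup Γ) (g : Γ) (hg : g ∈ L) (n : ℕ)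
    (z : Sx (sg L).Obj n →₀ ℚ) (h : ∀ f ∈ entr z, g * f * g⁻¹ ∈ K) :
    ∀ σ ∈ (Finsupp.mapDomain (fun σ : Sx (sg L).Obj n => σ.push (cj L g hg)) z).support,
      ∀ i j hij, val (σ.m i j hij) ∈ K := by
  classical
  intro σ hσ i j hij
  have h1 := Finsupp.mapDomain_support hσ
  rw [Finset.mem_image] at h1
  obtain ⟨τ, hτ, rfl⟩ := h1
  change val ((cj L g hg).map (τ.m i j hij)) ∈ K
  rw [val_cj]
  exact h _ (mem_entr z τ hτ i j hij)

private theorem cj_fix {K L : Subgroup Γ} (hKL : K ≤ L) (g : Γ) (hg : g ∈ L) (n : ℕ)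
    (z : Sx (sg K).Obj n →₀ ℚ) (h : ∀ f ∈ entr z, g * f = f * g) :
    (NCmap (cj L g hg)).f n ((NCmap (sgIncl hKL)).f n z) = (NCmap (sgIncl hKL)).f n z := by
  change Finsupp.mapDomain (fun σ : Sx (sg L).Obj n => σ.push (cj L g hg))
    (Finsupp.mapDomain (fun σ : Sx (sg K).Obj n => σ.push (sgIncl hKL)) z) =
    Finsupp.mapDomain (fun σ : Sx (sg K).Obj n => σ.push (sgIncl hKL)) z
  rw [← Finsupp.mapDomain_comp]
  refine Finsupp.mapDomain_congr fun σ hσ => ?_
  refine sx_ext fun i j hij => ?_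
  change val ((cj L g hg).map ((sgIncl hKL).map (σ.m i j hij))) =
    val ((sgIncl hKL).map (σ.m i j hij))
  rw [val_cj, val_incl, h _ (mem_entr z σ hσ i j hij)]
  group

theorem conjIncl_surj {K L : Subgroup Γ} (h : K ≤ L)
    (hc : ∀ F : Set Γ, F.Finite → F ⊆ L → ∃ g ∈ L, ∀ f ∈ F, g * f * g⁻¹ ∈ K) (n : ℕ) :
    Function.Surjective (HCmap (sgIncl h) n) := by
  intro y
  obtain ⟨z, hz, rfl⟩ := Cx.H_surj y
  obtain ⟨g, hg, hgF⟩ := hc (entr z) (entr_fin z) (entr_sub z)
  obtain ⟨w, hw⟩ := chain_lft h n _ (cj_supp L K g hg n z hgF)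
  have hw' : (NCmap (sgIncl h)).f n w = (NCmap (cj L g hg)).f n z := hw
  have hwZ : w ∈ (NC (sg K).Obj).Z n := chain_Z h n w (by
    rw [hw']
    exact (NCmap (cj L g hg)).map_Z n hz)
  refine ⟨(NC (sg K).Obj).cls n w hwZ, ?_⟩
  rw [← cj_id L g hg n ((NC (sg L).Obj).cls n z hz), HCmap, HCmap, Cx.H_cls, Cx.H_cls, Cx.cls_eq,
    hw', sub_self]
  exact Submodule.zero_mem _

theorem conjIncl_hiso {K L : Subgroup Γ} (h : K ≤ L)
    (hc : ∀ F0 F : Set Γ, F0.Finite → F.Finite → F0 ⊆ K → F ⊆ L →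
      ∃ g ∈ L, (∀ f ∈ F0, g * f = f * g) ∧ ∀ f ∈ F, g * f * g⁻¹ ∈ K) :
    HIso (sgIncl h) := by
  intro n
  constructor
  · rw [injective_iff_map_eq_zero]
    intro y hy
    obtain ⟨z, hz, rfl⟩ := Cx.H_surj y
    rw [HCmap, Cx.H_cls, Cx.cls_eq_zero] at hy
    obtain ⟨w, hw⟩ := hy
    obtain ⟨g, hg, hg1, hg2⟩ := hc (entr z) (entr w) (entr_fin z) (entr_fin w) (entr_sub z)
      (entr_sub w)
    obtain ⟨w', hw'⟩ := chain_lft h (n + 1) _ (cj_supp L K g hg (n + 1) w hg2)
    have hw2 : (NCmap (sgIncl h)).f (n + 1) w' = (NCmap (cj L g hg)).f (n + 1) w := hw'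
    rw [Cx.cls_eq_zero]
    refine ⟨w', chain_inj h n ?_⟩
    rw [(NCmap (sgIncl h)).comm, hw2, ← (NCmap (cj L g hg)).comm, hw]
    exact cj_fix h g hg n z hg1
  · refine conjIncl_surj h (fun F hF hFL => ?_) n
    obtain ⟨g, hg, -, hg2⟩ := hc ∅ F Set.finite_empty hF (Set.empty_subset _) hFL
    exact ⟨g, hg, hg2⟩

/-- complement of `N` in `N'` : `K → N'/N` is an isomorphism -/
theorem sgToGrp_hiso (K N' N : Subgroup Γ) (hle : N ≤ N')
    (hn : ∀ g ∈ N', ∀ n ∈ N, g⁻¹ * n * g ∈ N) (h : K ≤ N')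
    (h1 : ∀ k ∈ K, k ∈ N → k = 1) (h2 : ∀ g ∈ N', ∃ k ∈ K, k⁻¹ * g ∈ N) :
    HIso (sgToGrp K N' N hle hn h) := by
  have hf : (sgToGrp K N' N hle hn h).Faithful := ⟨fun {x y f f'} e => by
    induction f using ActCat.ind with
    | h g hg =>
      induction f' using ActCat.ind with
      | h g' hg' =>
        have e1 : g⁻¹ * g' ∈ N := cl_eq.1 e
        have e2 := h1 _ (K.mul_mem (K.inv_mem hg) hg') e1
        refine cl_eq.2 ?_
        change g⁻¹ * g' ∈ (⊥ : Subgroup Γ)
        rw [Subgroup.mem_bot, e2]⟩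
  have hl : (sgToGrp K N' N hle hn h).Full := ⟨fun {x y} f => by
    induction f using ActCat.ind with
    | h g hg =>
      obtain ⟨k, hk, hkg⟩ := h2 g hg
      exact ⟨(sg K).hom (a := x.o) (b := y.o) k hk, cl_eq.2 hkg⟩⟩
  have he : (sgToGrp K N' N hle hn h).EssSurj := ⟨fun y => ⟨⟨()⟩, ⟨eqToIso rfl⟩⟩⟩
  have : (sgToGrp K N' N hle hn h).IsEquivalence := { }
  exact hiso_of_equiv _

/-- an isomorphism of groups -/
theorem sgMap_hiso {Γ' : Type} [Group Γ'] (φ : Γ →* Γ') (K : Subgroup Γ) (L : Subgroup Γ')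
    (h : ∀ k ∈ K, φ k ∈ L) (hinj : ∀ k ∈ K, φ k = 1 → k = 1)
    (hsurj : ∀ l ∈ L, ∃ k ∈ K, φ k = l) : HIso (sgMap φ K L h) := by
  have hf : (sgMap φ K L h).Faithful := ⟨fun {x y f f'} e => by
    refine val_inj ?_
    have e1 : φ (val f) = φ (val f') := by
      rw [← val_map φ K L h, ← val_map φ K L h, e]
    have e2 := hinj _ (K.mul_mem (K.inv_mem (val_mem f)) (val_mem f')) (by
      rw [map_mul, map_inv, e1, inv_mul_cancel])
    exact inv_mul_eq_one.1 e2⟩
  have hl : (sgMap φ K L h).Full := ⟨fun {x y} f => by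
    obtain ⟨k, hk, hkl⟩ := hsurj _ (val_mem f)
    refine ⟨(sg K).hom (a := x.o) (b := y.o) k hk, val_inj ?_⟩
    rw [val_map]
    exact hkl⟩
  have he : (sgMap φ K L h).EssSurj := ⟨fun y => ⟨⟨()⟩, ⟨eqToIso rfl⟩⟩⟩
  have : (sgMap φ K L h).IsEquivalence := { }
  exact hiso_of_equiv _

end ActCat
end C715
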