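import Pool.Agent.Work.MP_c71557_gt.H.Defs3

set_option autoImplicit false
set_option linter.unusedVariables false

/-!
# MP_c71557_gt, block H: sets with action of the admissible elements, quotients of free
coefficient systems
-/

namespace C715

open CategoryTheory

/-- sets `X a` with an action of the admissible elements -/
structure ActSet {Γ : Type} [Group Γ] (A : ActCat Γ) where
  X : A.Ob → Type
  act : ∀ {a b : A.Ob} {g : Γ}, A.Adm a g b → X a → X b
  act_one : ∀ (a : A.Ob) (x : X a), act (A.one a) x = x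
  act_mul : ∀ {a b c : A.Ob} {g h : Γ} (hg : A.Adm a g b) (hh : A.Adm b h c) (x : X a),
    act (A.mul hg hh) x = act hh (act hg x)
  act_n : ∀ {a : A.Ob} {n : Γ} (hn : n ∈ A.N a) (x : X a), act (A.nAdm hn) x = x

namespace ActSet

variable {Γ : Type} [Group Γ] {A : ActCat Γ}

theorem act_eq (S : ActSet A) {a b : A.Ob} {g g' : Γ} (hg : A.Adm a g b) (hg' : A.Adm a g' b)
    (h : g⁻¹ * g' ∈ A.N a) (x : S.X a) : S.act hg x = S.act hg' x := by
  have h1 : g * (g⁻¹ * g') = g' := by group
  have h2 := S.act_mul (A.nAdm h) hg x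
  rw [S.act_n h x] at h2
  rw [← h2]
  congr 1

/-- the functor to types -/
def toF (S : ActSet A) : A.Obj ⥤ Type where
  obj a := S.X a.o
  map {a b} u := TypeCat.ofHom (Quotient.lift (fun g : {g : Γ // A.Adm a.o g b.o} => S.act g.2) (by
    rintro ⟨g, hg⟩ ⟨g', hg'⟩ (e : g⁻¹ * g' ∈ A.N a.o)
    exact funext fun x => S.act_eq hg hg' e x) u)
  map_id a := by
    ext x
    exact S.act_one a.o x
  map_comp u v := by
    induction u using ActCat.ind with
    | h f hf =>
      induction v using ActCat.ind with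
      | h g hg =>
        ext x
        exact S.act_mul hf hg x

theorem toF_map (S : ActSet A) {a b : A.Ob} {g : Γ} (hg : A.Adm a g b) (x : S.X a) :
    S.toF.map (A.hom g hg) x = S.act hg x := rfl

/-- the category of elements, as a category of partial group elements -/
def El (S : ActSet A) : ActCat Γ where
  Ob := Σ a : A.Ob, S.X a
  Adm p g q := ∃ h : A.Adm p.1 g q.1, S.act h p.2 = q.2
  N p := A.N p.1
  one p := ⟨A.one p.1, S.act_one p.1 p.2⟩
  mul := fun {p q r g h} hg hh => by
    obtain ⟨hg, e⟩ := hg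
    obtain ⟨hh, e'⟩ := hh
    exact ⟨A.mul hg hh, by rw [S.act_mul hg hh, e, e']⟩
  nAdm := fun {p n} hn => ⟨A.nAdm hn, S.act_n hn p.2⟩
  conj := fun {p q g n} hg hn => A.conj hg.1 hn

end ActSet

section QF

variable {C : Type} [SmallCategory C]

/-- `ℚ[X] / ℚ[Y]` for a functor `X` to types and a subfunctor `Y` -/
noncomputable def Coef.QF (X : C ⥤ Type) (Y : ∀ c, Set (X.obj c))
    (hY : ∀ {a b : C} (f : a ⟶ b) (x : X.obj a), x ∈ Y a → X.map f x ∈ Y b) : Coef C where
  M c := (X.obj c →₀ ℚ) ⧸ Finsupp.supported ℚ ℚ (Y c)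
  map {a b} f := Submodule.mapQ _ _ (Finsupp.lmapDomain ℚ ℚ (X.map f)) (by
    classical
    intro x hx
    rw [Submodule.mem_comap, Finsupp.mem_supported]
    rw [Finsupp.mem_supported] at hx
    intro y hy
    have h1 := Finsupp.mapDomain_support (f := (X.map f : X.obj a → X.obj b)) (s := x) hy
    rw [Finset.mem_image] at h1
    obtain ⟨z, hz, rfl⟩ := h1
    exact hY f z (hx hz))
  map_id a x := by
    obtain ⟨x, rfl⟩ := Submodule.Quotient.mk_surjective _ x
    refine congrArg Submodule.Quotient.mk ?_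
    change Finsupp.mapDomain _ x = x
    rw [X.map_id]
    exact Finsupp.mapDomain_id
  map_comp f g x := by
    obtain ⟨x, rfl⟩ := Submodule.Quotient.mk_surjective _ x
    refine congrArg Submodule.Quotient.mk ?_
    change Finsupp.mapDomain _ x = Finsupp.mapDomain _ (Finsupp.mapDomain _ x)
    rw [← Finsupp.mapDomain_comp, X.map_comp]
    rfl

/-- quotient of a coefficient system with an endomorphism `ι` by the image of `1 + ι` -/
noncomputable def Coef.anti (F : Coef C) (ι : Coef.Hom F F) : Coef C where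
  M c := F.M c ⧸ LinearMap.range (LinearMap.id + ι.f c)
  map {a b} f := Submodule.mapQ _ _ (F.map f) (by
    rintro _ ⟨y, rfl⟩
    refine ⟨F.map f y, ?_⟩
    simp [ι.comm])
  map_id a x := by
    obtain ⟨x, rfl⟩ := Submodule.Quotient.mk_surjective _ x
    exact congrArg Submodule.Quotient.mk (F.map_id a x)
  map_comp f g x := by
    obtain ⟨x, rfl⟩ := Submodule.Quotient.mk_surjective _ x
    exact congrArg Submodule.Quotient.mk (F.map_comp f g x)

/-- projection `F → F.anti ι` -/
noncomputable def Coef.toAnti (F : Coef C) (ι : Coef.Hom F F) : Coef.Hom F (F.anti ι) where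
  f c := Submodule.mkQ _
  comm _ _ := rfl

/-- projection `ℚ[X] → ℚ[X]/ℚ[Y]` -/
noncomputable def Coef.toQF (X : C ⥤ Type) (Y : ∀ c, Set (X.obj c))
    (hY : ∀ {a b : C} (f : a ⟶ b) (x : X.obj a), x ∈ Y a → X.map f x ∈ Y b) :
    Coef.Hom (Coef.free X) (Coef.QF X Y hY) where
  f c := Submodule.mkQ _
  comm _ _ := rfl

end QF
end C715
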