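import Pool.Agent.Work.MP_c71557_gt.H.RelUnder
import Pool.Agent.Work.MP_c71557_gt.H.QA

set_option autoImplicit false

/-!
# MP_c71557_gt, module H/RelAct: enlarging `N` in a category of partial group elements (M)

`A : ActCat Γ`, `N a ≤ N' a`; `R = A.proj … : A ⥤ A.enl N'`; `a0` an object;
`fib a = N' a / N a` as a one object category.

* `fibIncl_const`: the composite `fib a0 → A → A.enl N'` is constant at `a0` on simplices.
* `fibIncl_inj`: `σ ↦ σ.push (fibIncl a0)` is injective (the functor is injective on morphisms: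
  both are classes modulo `N a0`, `ActCat.cl_eq`).
* `fib_hiso`: the functor `fib a → StructuredArrow ⟨a⟩ R`, `∗ ↦ (⟨a⟩, 𝟙)`, `n ↦ n` is a homology
  isomorphism.  By `quillenA_over`: for an object `(b, u)` of the target, `u` the class modulo
  `N' a` of `g : a → b`, the category of arrows `∗ → (b,u)` has as objects the classes modulo `N a`
  of elements `h` with `h ≡ g` modulo `N' a`, and between two of them, `h` and `h'`, exactly one
  arrow (`n = h'⁻¹ h ∈ N' a`, modulo `N a`); nonempty (`h = g`).  So each object is initial: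
  `acy_of_initial`.
* naturality: for `g : a → b` the square of `fib b → fib a` (`fibConj g`) and
  `StructuredArrow.map : StructuredArrow ⟨b⟩ R → StructuredArrow ⟨a⟩ R` commutes up to the natural
  isomorphism given by `g` : the functor `fib b → StructuredArrow ⟨a⟩ R`,
  `n ↦ (n : (b, g) → (b, g))` and `n ↦ (g⁻¹ n g : (a, 1) → (a, 1))` are related by
  `g : (a, 1) → (b, g)` (`g (g⁻¹ n g) = n g`).  So on homology (`HCmap_natTrans`) the square
  commutes.
* `rel_act`: `rel_under` with `κ` the functor of `fib_hiso`; `hK0`, `hKne`: one object category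
  (`x ∈ NC_0` with augmentation `0` is `0`).  The hypothesis `hθ` is transported along `fib_hiso`.
-/

namespace C715

open CategoryTheory

namespace ActCat

variable {Γ : Type} [Group Γ] (A : ActCat Γ) (N' : A.Ob → Subgroup Γ)
  (h1 : ∀ {a n}, n ∈ N' a → A.Adm a n a)
  (h2 : ∀ {a b g n}, A.Adm a g b → n ∈ N' b → g⁻¹ * n * g ∈ N' a)
  (hle : ∀ a, A.N a ≤ N' a)

private theorem proj_fibIncl (a0 : A.Ob) {x y : (A.fib N' h1 hle a0).Obj} (u : x ⟶ y) :
    (A.proj N' h1 h2 hle).map ((A.fibIncl N' h1 hle a0).map u) =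
      𝟙 (⟨a0⟩ : (A.enl N' h1 h2).Obj) := by
  induction u using ActCat.ind with
  | h n hn =>
    refine (cl_eq (A := A.enl N' h1 h2) (a := a0) (b := a0)).2 ?_
    change n⁻¹ * 1 ∈ N' a0
    rw [mul_one]
    exact (N' a0).inv_mem hn

theorem fibIncl_const (a0 : A.Ob) (n : ℕ) (σ : Sx (A.fib N' h1 hle a0).Obj n) :
    (σ.push (A.fibIncl N' h1 hle a0)).push (A.proj N' h1 h2 hle) =
      (σ.push (toPt _)).push (ptF (⟨a0⟩ : (A.enl N' h1 h2).Obj)) := by
  refine Eps1.ext_heq (fun i => rfl) (fun i j h => heq_of_eq ?_)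
  exact proj_fibIncl A N' h1 h2 hle a0 (σ.m i j h)

private theorem push_heq {C : Type} [SmallCategory C] {n : ℕ} {s t : Sx C n} (h : s = t)
    (i j : Fin (n + 1)) (hij : i ≤ j) : HEq (s.m i j hij) (t.m i j hij) := by
  subst h
  exact HEq.rfl

private theorem fib_obj (a0 : A.Ob) (x y : (A.fib N' h1 hle a0).Obj) : x = y := by
  cases x
  cases y
  rfl

private theorem fibIncl_heq (a0 : A.Ob) {x y x' y' : (A.fib N' h1 hle a0).Obj} (u : x ⟶ y)
    (u' : x' ⟶ y') (h : (A.fibIncl N' h1 hle a0).map u = (A.fibIncl N' h1 hle a0).map u') :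
    HEq u u' := by
  obtain rfl := fib_obj A N' h1 hle a0 x x'
  obtain rfl := fib_obj A N' h1 hle a0 y y'
  refine heq_of_eq ?_
  revert h
  induction u using ActCat.ind with
  | h n hn =>
    induction u' using ActCat.ind with
    | h n' hn' =>
      intro h
      exact (cl_eq (A := A.fib N' h1 hle a0)).2 (cl_eq (A := A) (a := a0) (b := a0).1 h)

theorem fibIncl_inj (a0 : A.Ob) (n : ℕ) : Function.Injective
    (fun σ : Sx (A.fib N' h1 hle a0).Obj n => σ.push (A.fibIncl N' h1 hle a0)) := by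
  intro σ τ h
  refine Eps1.ext_heq (fun i => fib_obj A N' h1 hle a0 _ _) (fun i j hij => ?_)
  exact fibIncl_heq A N' h1 hle a0 _ _ (eq_of_heq (push_heq h i j hij))

/-- the fibre maps to the category under `⟨a⟩` -/
def fibUnder (a : A.Ob) : (A.fib N' h1 hle a).Obj ⥤
    StructuredArrow (⟨a⟩ : (A.enl N' h1 h2).Obj) (A.proj N' h1 h2 hle) where
  obj _ := StructuredArrow.mk (Y := (⟨a⟩ : A.Obj))
    (𝟙 (⟨a⟩ : (A.enl N' h1 h2).Obj) : (⟨a⟩ : (A.enl N' h1 h2).Obj) ⟶ (A.proj N' h1 h2 hle).obj ⟨a⟩)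
  map {x y} u := StructuredArrow.homMk ((A.fibIncl N' h1 hle a).map u) (by
    induction u using ActCat.ind with
    | h n hn =>
      refine (Category.id_comp _).trans ?_
      refine (cl_eq (A := A.enl N' h1 h2) (a := a) (b := a)).2 ?_
      change n⁻¹ * 1 ∈ N' a
      rw [mul_one]
      exact (N' a).inv_mem hn)
  map_id x := by
    ext
    exact (A.fibIncl N' h1 hle a).map_id x
  map_comp u v := by
    ext
    exact (A.fibIncl N' h1 hle a).map_comp u v

/-- arrows from the base object to an object under `⟨a⟩` -/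
private theorem under_hom {a : A.Ob}
    {X : StructuredArrow (⟨a⟩ : (A.enl N' h1 h2).Obj) (A.proj N' h1 h2 hle)}
    {x : (A.fib N' h1 hle a).Obj} (f : (A.fibUnder N' h1 h2 hle a).obj x ⟶ X) :
    (A.proj N' h1 h2 hle).map f.right = X.hom := by
  have := StructuredArrow.w f
  exact (Category.id_comp _).symm.trans this

theorem fib_hiso (a : A.Ob) : HIso (A.fibUnder N' h1 h2 hle a) := by
  refine quillenA_over _ fun X => ?_
  obtain ⟨b, u, rfl⟩ := X.mk_surjective
  obtain ⟨b⟩ := b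
  -- an object
  obtain ⟨g, hg, rfl⟩ := hom_surj (A := A.enl N' h1 h2) (x := ⟨a⟩) (y := ⟨b⟩) u
  have hf0 : (A.proj N' h1 h2 hle).map (A.hom g hg) = (A.enl N' h1 h2).hom g hg := rfl
  let c : CostructuredArrow (A.fibUnder N' h1 h2 hle a) (StructuredArrow.mk
      (S := (⟨a⟩ : (A.enl N' h1 h2).Obj)) (T := A.proj N' h1 h2 hle) (Y := (⟨b⟩ : A.Obj))
      ((A.enl N' h1 h2).hom g hg)) :=
    CostructuredArrow.mk (Y := (⟨()⟩ : (A.fib N' h1 hle a).Obj))
      (StructuredArrow.homMk (A.hom g hg) (Category.id_comp _))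
  refine acy_of_initial c fun d => ?_
  obtain ⟨h, hh, hd⟩ := hom_surj (A := A) (x := ⟨a⟩) (y := ⟨b⟩) d.hom.right
  have h3 := under_hom A N' h1 h2 hle d.hom
  rw [hd] at h3
  have h4 : h⁻¹ * g ∈ N' a := (cl_eq (A := A.enl N' h1 h2) (a := a) (b := b)).1 h3
  let n : c.left ⟶ d.left := (A.fib N' h1 hle a).hom (a := ()) (b := ()) (h⁻¹ * g) h4
  refine ⟨CostructuredArrow.homMk n ?_, trivial, ?_⟩
  · ext
    change A.comp (A.cl (h⁻¹ * g) (h1 h4)) d.hom.right = A.cl g hg
    rw [hd]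
    refine cl_eq.2 ?_
    have : (h * (h⁻¹ * g))⁻¹ * g = 1 := by group
    rw [this]
    exact (A.N a).one_mem
  · intro m _
    ext
    change m.left = n
    have hw := CostructuredArrow.w m
    have hw2 := congrArg (fun t => CommaMorphism.right t) hw
    obtain ⟨m0, hm0, hm⟩ := hom_surj (A := A.fib N' h1 hle a) (x := ⟨()⟩) (y := ⟨()⟩) m.left
    have hw3 : A.comp ((A.fibIncl N' h1 hle a).map m.left) d.hom.right = A.cl g hg := hw2
    rw [hd, hm] at hw3
    have hw4 : A.comp (A.cl m0 (h1 hm0)) (A.cl h hh) = A.cl g hg := hw3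
    rw [comp_cl] at hw4
    have hw5 := cl_eq.1 hw4
    rw [hm]
    refine (cl_eq (A := A.fib N' h1 hle a) (a := ()) (b := ())).2 ?_
    change m0⁻¹ * (h⁻¹ * g) ∈ A.N a
    have h6 : (h * m0)⁻¹ * g = m0⁻¹ * (h⁻¹ * g) := by group
    rwa [h6] at hw5

/-- the map of relative complexes `C(A)/C(fib a0) → C(A.enl N')/C(pt)` -/
noncomputable abbrev relActMap (a0 : A.Ob) :
    Cx.Hom (relC (A.fibIncl N' h1 hle a0)) (relC (ptF (⟨a0⟩ : (A.enl N' h1 h2).Obj))) :=
  relMap (A.fibIncl N' h1 hle a0) (ptF (⟨a0⟩ : (A.enl N' h1 h2).Obj))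
    (A.proj N' h1 h2 hle) (toPt _) (fibIncl_const A N' h1 h2 hle a0)

/-- the homology of the fibres is constant -/
def FibConst (a0 : A.Ob) : Prop :=
  ∀ q : ℕ, ∃ θ : ∀ a : A.Ob, HC (A.fib N' h1 hle a).Obj q ≃ₗ[ℚ] HC (A.fib N' h1 hle a0).Obj q,
    (∀ x, θ a0 x = x) ∧
    ∀ (a b : A.Ob) (g : Γ) (hg : A.Adm a g b) (x : HC (A.fib N' h1 hle b).Obj q),
      θ a (HCmap (A.fibConj N' h1 h2 hle hg) q x) = θ b x

/-- naturality of the comparison functors -/
private def natU {a b : A.Ob} {g : Γ} (hg : A.Adm a g b) :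
    A.fibConj N' h1 h2 hle hg ⋙ A.fibUnder N' h1 h2 hle a ⟶
      A.fibUnder N' h1 h2 hle b ⋙ StructuredArrow.map (T := A.proj N' h1 h2 hle)
        ((A.enl N' h1 h2).hom g hg) where
  app x := StructuredArrow.homMk (A.hom g hg) (by
    refine (Category.id_comp _).trans (Category.comp_id _).symm)
  naturality x y u := by
    ext
    induction u using ActCat.ind with
    | h n hn =>
      change A.comp (A.cl (g⁻¹ * n * g⁻¹⁻¹) _) (A.cl g hg) = A.comp (A.cl g hg) (A.cl n (h1 hn))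
      rw [comp_cl, comp_cl]
      refine cl_eq.2 ?_
      have : (g * (g⁻¹ * n * g⁻¹⁻¹))⁻¹ * (n * g) = 1 := by group
      rw [this]
      exact (A.N a).one_mem

private theorem theta_under (a0 : A.Ob) (hθ : A.FibConst N' h1 h2 hle a0) (q : ℕ) :
    ∃ θ : ∀ b : (A.enl N' h1 h2).Obj, HC (StructuredArrow b (A.proj N' h1 h2 hle)) q ≃ₗ[ℚ]
        HC (StructuredArrow (⟨a0⟩ : (A.enl N' h1 h2).Obj) (A.proj N' h1 h2 hle)) q,
      (∀ x, θ ⟨a0⟩ x = x) ∧
      ∀ (b b' : (A.enl N' h1 h2).Obj) (u : b ⟶ b')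
        (x : HC (StructuredArrow b' (A.proj N' h1 h2 hle)) q),
        θ b (HCmap (StructuredArrow.map (T := A.proj N' h1 h2 hle) u) q x) = θ b' x := by
  obtain ⟨θ, h3, h4⟩ := hθ q
  let e : ∀ a : A.Ob, HC (A.fib N' h1 hle a).Obj q ≃ₗ[ℚ]
      HC (StructuredArrow (⟨a⟩ : (A.enl N' h1 h2).Obj) (A.proj N' h1 h2 hle)) q := fun a =>
    LinearEquiv.ofBijective (HCmap (A.fibUnder N' h1 h2 hle a) q) (fib_hiso A N' h1 h2 hle a q)
  refine ⟨fun b => (e b.o).symm.trans ((θ b.o).trans (e a0)), fun x => ?_, fun b b' u x => ?_⟩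
  · change e a0 (θ a0 ((e a0).symm x)) = x
    rw [h3, LinearEquiv.apply_symm_apply]
  · obtain ⟨b⟩ := b
    obtain ⟨b'⟩ := b'
    obtain ⟨g, hg, rfl⟩ := hom_surj (A := A.enl N' h1 h2) u
    obtain ⟨y, rfl⟩ := (e b').surjective x
    change e a0 (θ b ((e b).symm (HCmap (StructuredArrow.map (T := A.proj N' h1 h2 hle)
      ((A.enl N' h1 h2).hom g hg)) q (e b' y)))) = e a0 (θ b' ((e b').symm (e b' y)))
    have h5 : HCmap (StructuredArrow.map (T := A.proj N' h1 h2 hle)
        ((A.enl N' h1 h2).hom g hg)) q (e b' y) =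
        e b (HCmap (A.fibConj N' h1 h2 hle hg) q y) := by
      change HCmap _ q (HCmap (A.fibUnder N' h1 h2 hle b') q y) =
        HCmap (A.fibUnder N' h1 h2 hle b) q (HCmap (A.fibConj N' h1 h2 hle hg) q y)
      rw [← HCmap_comp, ← HCmap_comp]
      exact (LinearMap.congr_fun (HCmap_natTrans (natU A N' h1 h2 hle hg) q) y).symm
    rw [h5, LinearEquiv.symm_apply_apply, LinearEquiv.symm_apply_apply, h4]

theorem rel_act (a0 : A.Ob) (hθ : A.FibConst N' h1 h2 hle a0) (S : Serre) (n : ℕ) :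
    ((∀ p q, 1 ≤ q → p + q = n → S.P (TensorProduct ℚ
        ((relC (ptF (⟨a0⟩ : (A.enl N' h1 h2).Obj))).H p) (HC (A.fib N' h1 hle a0).Obj q))) →
      S.P (LinearMap.ker ((A.relActMap N' h1 h2 hle a0).H n))) ∧
    ((∀ p q, 1 ≤ q → p + q + 1 = n → S.P (TensorProduct ℚ
        ((relC (ptF (⟨a0⟩ : (A.enl N' h1 h2).Obj))).H p) (HC (A.fib N' h1 hle a0).Obj q))) →
      S.P ((relC (ptF (⟨a0⟩ : (A.enl N' h1 h2).Obj))).H n ⧸
        LinearMap.range ((A.relActMap N' h1 h2 hle a0).H n))) := by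
  refine rel_under (A.proj N' h1 h2 hle) (⟨a0⟩ : (A.enl N' h1 h2).Obj)
    (A.fibUnder N' h1 h2 hle a0) (fib_hiso A N' h1 h2 hle a0) (fibIncl_inj A N' h1 hle a0)
    (fibIncl_const A N' h1 h2 hle a0) (fun c => HEq.rfl) ⟨⟨()⟩⟩ (fun x hx => ?_)
    (theta_under A N' h1 h2 hle a0 hθ) S n
  have hs : Subsingleton (Sx (A.fib N' h1 hle a0).Obj 0) := by
    refine ⟨fun σ τ => ?_⟩
    have ho : ∀ i, σ.o i = τ.o i := fun i => fib_obj A N' h1 hle a0 _ _
    refine Eps1.ext_heq ho (fun i j h => ?_)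
    obtain rfl : i = j := Fin.ext (by have := i.2; have := j.2; omega)
    rw [σ.m_self, τ.m_self, ho]
  have hx0 : x = 0 := by
    refine Finsupp.ext fun σ => ?_
    have h5 : x = Finsupp.single σ ((x : Sx (A.fib N' h1 hle a0).Obj 0 →₀ ℚ) σ) := by
      refine Finsupp.ext fun τ => ?_
      rw [Subsingleton.elim τ σ, Finsupp.single_eq_same]
    rw [h5, Finsupp.linearCombination_single] at hx
    simpa using hx
  rw [hx0]
  exact Submodule.zero_mem _

end ActCat
end C715
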