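import Pool.Agent.Work.MP_c71557_gt.H.BarEx

set_option autoImplicit false

/-!
# MP_c71557_gt, module H/ConstDir: coefficient systems which are constant (S)

`F` a coefficient system on which parallel arrows act equally.
* `const_up`: all arrows act bijectively and any two objects have an upper bound.  Put
  `θ b = F(c0 → c)⁻¹ F(b → c)` for any upper bound `c` of `b, c0`.  Independent of `c`: if `c, c'`
  are two upper bounds, take an upper bound `d` of `c, c'`; the arrows `b → c → d`, `b → c' → d`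
  are parallel, as are `c0 → c → d`, `c0 → c' → d`.  For `u : b → b'` use an upper bound `c` of
  `b', c0` for both.
* `const_down`: any two objects have a lower bound: `θ b = F(c → c0) F(c → b)⁻¹`.
* `const_all`: all `Hom`s are nonempty: then every arrow acts bijectively (`u : a → b`, `v : b → a`,
  `v u` is parallel to `𝟙`), and `const_up` applies (`c = c0`).
-/

namespace C715

open CategoryTheory

variable {C : Type} [SmallCategory C]

theorem const_up (F : Coef C) (hiso : ∀ (a b : C) (u : a ⟶ b), Function.Bijective (F.map u))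
    (hpar : ∀ (a b : C) (u v : a ⟶ b), F.map u = F.map v)
    (hdir : ∀ a b : C, ∃ c, Nonempty (a ⟶ c) ∧ Nonempty (b ⟶ c)) (c0 : C) :
    ∃ θ : ∀ b, F.M b ≃ₗ[ℚ] F.M c0, (∀ x, θ c0 x = x) ∧
      ∀ (b b' : C) (u : b ⟶ b') (x : F.M b), θ b' (F.map u x) = θ b x := by
  have ind : ∀ (b : C) (x : F.M b) (y : F.M c0) (c : C) (u : b ⟶ c) (w : c0 ⟶ c)
      (c' : C) (u' : b ⟶ c') (w' : c0 ⟶ c'), F.map w y = F.map u x → F.map w' y = F.map u' x := by
    intro b x y c u w c' u' w' h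
    obtain ⟨d, ⟨p⟩, ⟨p'⟩⟩ := hdir c c'
    refine (hiso _ _ p').1 ?_
    rw [← F.map_comp, ← F.map_comp, hpar _ _ (w' ≫ p') (w ≫ p), hpar _ _ (u' ≫ p') (u ≫ p),
      F.map_comp, F.map_comp, h]
  choose c hu hw using fun b => hdir b c0
  let E : ∀ {a b : C} (u : a ⟶ b), F.M a ≃ₗ[ℚ] F.M b := fun u =>
    LinearEquiv.ofBijective (F.map u) (hiso _ _ u)
  let θ : ∀ b, F.M b ≃ₗ[ℚ] F.M c0 := fun b => (E (hu b).some).trans (E (hw b).some).symm
  have hθ : ∀ b x, F.map (hw b).some (θ b x) = F.map (hu b).some x := fun b x =>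
    (E (hw b).some).apply_symm_apply _
  have hθ' : ∀ b x y, F.map (hw b).some y = F.map (hu b).some x → θ b x = y := fun b x y h => by
    refine (hiso _ _ (hw b).some).1 ?_
    rw [hθ, h]
  refine ⟨θ, fun x => hθ' _ _ _ ?_, fun b b' u x => hθ' _ _ _ ?_⟩
  · rw [hpar _ _ (hw c0).some (hu c0).some]
  · rw [← F.map_comp]
    exact ind b x (θ b x) _ _ _ _ _ _ (hθ b x)

theorem const_down (F : Coef C) (hiso : ∀ (a b : C) (u : a ⟶ b), Function.Bijective (F.map u))
    (hpar : ∀ (a b : C) (u v : a ⟶ b), F.map u = F.map v)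
    (hdir : ∀ a b : C, ∃ c, Nonempty (c ⟶ a) ∧ Nonempty (c ⟶ b)) (c0 : C) :
    ∃ θ : ∀ b, F.M b ≃ₗ[ℚ] F.M c0, (∀ x, θ c0 x = x) ∧
      ∀ (b b' : C) (u : b ⟶ b') (x : F.M b), θ b' (F.map u x) = θ b x := by
  have ind : ∀ (b c c' : C) (p : c ⟶ b) (q : c ⟶ c0) (p' : c' ⟶ b) (q' : c' ⟶ c0)
      (z : F.M c) (z' : F.M c'), F.map p z = F.map p' z' → F.map q z = F.map q' z' := by
    intro b c c' p q p' q' z z' h
    obtain ⟨d, ⟨r⟩, ⟨r'⟩⟩ := hdir c c'
    obtain ⟨t, rfl⟩ := (hiso _ _ r).2 z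
    obtain ⟨t', rfl⟩ := (hiso _ _ r').2 z'
    rw [← F.map_comp, ← F.map_comp, hpar _ _ (r' ≫ p') (r ≫ p)] at h
    rw [(hiso _ _ (r ≫ p)).1 h, ← F.map_comp, ← F.map_comp, hpar _ _ (r ≫ q) (r' ≫ q')]
  choose c hp hq using fun b => hdir b c0
  let E : ∀ {a b : C} (u : a ⟶ b), F.M a ≃ₗ[ℚ] F.M b := fun u =>
    LinearEquiv.ofBijective (F.map u) (hiso _ _ u)
  let θ : ∀ b, F.M b ≃ₗ[ℚ] F.M c0 := fun b => (E (hp b).some).symm.trans (E (hq b).some)
  have hθ : ∀ b z, θ b (F.map (hp b).some z) = F.map (hq b).some z := fun b z => by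
    change F.map (hq b).some ((E (hp b).some).symm (E (hp b).some z)) = _
    rw [LinearEquiv.symm_apply_apply]
  refine ⟨θ, fun x => ?_, fun b b' u x => ?_⟩
  · obtain ⟨z, rfl⟩ := (hiso _ _ (hp c0).some).2 x
    rw [hθ, hpar _ _ (hp c0).some (hq c0).some]
  · obtain ⟨z, rfl⟩ := (hiso _ _ (hp b).some).2 x
    rw [hθ]
    obtain ⟨z', hz'⟩ := (hiso _ _ (hp b').some).2 (F.map u (F.map (hp b).some z))
    rw [← hz', hθ]
    refine (ind b' _ _ (hp b').some _ ((hp b).some ≫ u) _ z' z ?_)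
    rw [hz', F.map_comp]

theorem const_all (F : Coef C) (hne : ∀ a b : C, Nonempty (a ⟶ b))
    (hpar : ∀ (a b : C) (u v : a ⟶ b), F.map u = F.map v) (c0 : C) :
    ∃ θ : ∀ b, F.M b ≃ₗ[ℚ] F.M c0, (∀ x, θ c0 x = x) ∧
      ∀ (b b' : C) (u : b ⟶ b') (x : F.M b), θ b' (F.map u x) = θ b x := by
  have hid : ∀ (a b : C) (u : a ⟶ b) (v : b ⟶ a) (x : F.M a), F.map v (F.map u x) = x := by
    intro a b u v x
    rw [← F.map_comp, hpar _ _ (u ≫ v) (𝟙 a), F.map_id]
  refine const_up F (fun a b u => ?_) hpar (fun a b => ⟨b, hne a b, hne b b⟩) c0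
  obtain ⟨v⟩ := hne b a
  exact ⟨Function.LeftInverse.injective (g := F.map v) (hid a b u v),
    Function.RightInverse.surjective (g := F.map v) (hid b a v u)⟩

end C715
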