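import Pool.Agent.Work.MP_c71557_gt.H.LocNat
import Pool.Agent.Work.MP_c71557_gt.H.RelAct
import Pool.Agent.Work.MP_c71557_gt.H.ConstDir

set_option autoImplicit false

/-!
# MP_c71557_gt, module H/FibLoc: criteria for constant fibre homology (M)

The maps `HCmap (fibConj g) q : H_q (fib b) → H_q (fib a)`, `g : a → b`, depend only on the class of
`g` in `A.enl N'` (for `n' ∈ N' a`, `fibConj (g n')` is `fibConj g` followed by conjugation by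
`n'⁻¹` on `N' a / N a`, which is naturally isomorphic to the identity) and are functorial
(contravariant).  So they form a coefficient system on the opposite category of `A.enl N'`; apply
`const_all` / `const_down` to it (or repeat their short proofs).

* `fibConst_move`: all `Adm a · b` are inhabited, and for `g1, g2 : a → b` and every finite
  `F ⊆ N' b` there is `v` commuting with `F` and with `g2⁻¹ v g1 ∈ N' a`.  Then
  `g1^* = g2^*` on `H_q` by `HCmap_locConj`: with `n' = g2⁻¹ v g1`,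
  `n' (g1⁻¹ n g1) n'⁻¹ = g2⁻¹ v n v⁻¹ g2 = g2⁻¹ n g2` for `n ∈ F`.
* `fibConst_trick`: `one_le a b` means `A.Adm a 1 b`.  Any two objects `a, b` have `c` with
  `Adm a 1 c`, `Adm b 1 c`; the maps `fibConj 1 : fib c → fib a` are bijective on homology
  (all `a, c` with `Adm a 1 c`); and for every `g : a → b` there is `c` with `Adm a 1 c`,
  `Adm b 1 c` and `g⁻¹ n g = n` modulo `N a` for all `n ∈ N' c`.  Then
  `fibConj g ∘ fibConj (1 : b → c) = fibConj (1 : a → c)` as functors, hence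
  `g^* = 1_{ac}^* (1_{bc}^*)⁻¹` on homology, for a certain `c`, and then for every `c` above `a, b`
  (compare through an upper bound).  So parallel arrows act equally, all arrows act bijectively.
-/

namespace C715

open CategoryTheory

namespace ActCat

variable {Γ : Type} [Group Γ] (A : ActCat Γ) (N' : A.Ob → Subgroup Γ)
  (h1 : ∀ {a n}, n ∈ N' a → A.Adm a n a)
  (h2 : ∀ {a b g n}, A.Adm a g b → n ∈ N' b → g⁻¹ * n * g ∈ N' a)
  (hle : ∀ a, A.N a ≤ N' a)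

include h1 h2 hle in
private theorem fib_eq {X Y : ActCat Γ} [Subsingleton Y.Ob] {F G : X.Obj ⥤ Y.Obj}
    (h : ∀ (x y : X.Ob) (n : Γ) (hn : X.Adm x n y),
      HEq (F.map (X.hom n hn)) (G.map (X.hom n hn))) : F = G := by
  refine Functor.hext (fun x => ActCat.Obj.ext (Subsingleton.elim _ _)) fun x y f => ?_
  induction f using ActCat.ind with
  | h g hg => exact h _ _ g hg

private instance fibSub (a : A.Ob) : Subsingleton (A.fib N' h1 hle a).Ob :=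
  ⟨fun _ _ => Subsingleton.elim (α := Unit) _ _⟩

private theorem conj_eq {a b : A.Ob} {g g' : Γ} (hg : A.Adm a g b) (hg' : A.Adm a g' b)
    (h : g⁻¹ * g' ∈ A.N a) :
    A.fibConj N' h1 h2 hle hg = A.fibConj N' h1 h2 hle hg' := by
  refine fib_eq A N' h1 h2 hle fun x y n hn => heq_of_eq (cl_eq.2 ?_)
  change (g⁻¹ * n * g⁻¹⁻¹)⁻¹ * (g'⁻¹ * n * g'⁻¹⁻¹) ∈ A.N a
  have h3 : (g⁻¹ * n * g⁻¹⁻¹)⁻¹ * (g'⁻¹ * n * g'⁻¹⁻¹) =
      ((g⁻¹ * n * g)⁻¹ * (g⁻¹ * g')⁻¹ * (g⁻¹ * n * g)) * (g⁻¹ * g') := by group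
  rw [h3]
  exact (A.N a).mul_mem (A.conj (h1 (h2 hg hn)) ((A.N a).inv_mem h)) h

private theorem conj_comp {a b c : A.Ob} {g h : Γ} (hg : A.Adm a g b) (hh : A.Adm b h c) (q : ℕ)
    (x : HC (A.fib N' h1 hle c).Obj q) :
    HCmap (A.fibConj N' h1 h2 hle (A.mul hg hh)) q x =
      HCmap (A.fibConj N' h1 h2 hle hg) q (HCmap (A.fibConj N' h1 h2 hle hh) q x) := by
  rw [← HCmap_comp]
  congr 2
  refine fib_eq A N' h1 h2 hle fun x y n hn => heq_of_eq (cl_eq.2 ?_)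
  change ((h * g)⁻¹ * n * (h * g)⁻¹⁻¹)⁻¹ * (g⁻¹ * (h⁻¹ * n * h⁻¹⁻¹) * g⁻¹⁻¹) ∈ A.N a
  have h3 : ((h * g)⁻¹ * n * (h * g)⁻¹⁻¹)⁻¹ * (g⁻¹ * (h⁻¹ * n * h⁻¹⁻¹) * g⁻¹⁻¹) = 1 := by group
  rw [h3]
  exact (A.N a).one_mem

private theorem conj_one (a : A.Ob) (q : ℕ) (x : HC (A.fib N' h1 hle a).Obj q) :
    HCmap (A.fibConj N' h1 h2 hle (A.one a)) q x = x := by
  have h3 : A.fibConj N' h1 h2 hle (A.one a) = 𝟭 _ := by
    refine fib_eq A N' h1 h2 hle fun x y n hn => heq_of_eq (cl_eq.2 ?_)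
    change (1⁻¹ * n * 1⁻¹⁻¹)⁻¹ * n ∈ A.N a
    have h4 : ((1 : Γ)⁻¹ * n * 1⁻¹⁻¹)⁻¹ * n = 1 := by group
    rw [h4]
    exact (A.N a).one_mem
  rw [h3, HCmap_id]

/-- the coefficient system `a ↦ H_q (fib a)` on the opposite category -/
private noncomputable def cof (q : ℕ) : Coef (A.Obj)ᵒᵖ where
  M x := HC (A.fib N' h1 hle x.unop.o).Obj q
  map {a b} f := Quotient.lift (fun g : {g : Γ // A.Adm b.unop.o g a.unop.o} =>
    HCmap (A.fibConj N' h1 h2 hle g.2) q) (by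
      rintro ⟨g, hg⟩ ⟨g', hg'⟩ (e : g⁻¹ * g' ∈ A.N b.unop.o)
      exact congrArg (fun F => HCmap F q) (conj_eq A N' h1 h2 hle hg hg' e)) f.unop
  map_id a x := conj_one A N' h1 h2 hle a.unop.o q x
  map_comp {a b c} f g x := by
    obtain ⟨f⟩ := f
    obtain ⟨g⟩ := g
    induction f using ActCat.ind with
    | h f hf =>
      induction g using ActCat.ind with
      | h g hg => exact conj_comp A N' h1 h2 hle hg hf q x

private theorem cof_map (q : ℕ) {a b : A.Ob} {g : Γ} (hg : A.Adm a g b)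
    (x : HC (A.fib N' h1 hle b).Obj q) :
    (cof A N' h1 h2 hle q).map (A.hom g hg).op x = HCmap (A.fibConj N' h1 h2 hle hg) q x := rfl

private theorem cof_par (q : ℕ) (h : ∀ (a b : A.Ob) (g1 g2 : Γ) (hg1 : A.Adm a g1 b)
    (hg2 : A.Adm a g2 b), HCmap (A.fibConj N' h1 h2 hle hg1) q =
      HCmap (A.fibConj N' h1 h2 hle hg2) q) (a b : (A.Obj)ᵒᵖ) (u v : a ⟶ b) :
    (cof A N' h1 h2 hle q).map u = (cof A N' h1 h2 hle q).map v := by
  obtain ⟨u⟩ := u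
  obtain ⟨v⟩ := v
  induction u using ActCat.ind with
  | h u hu =>
    induction v using ActCat.ind with
    | h v hv => exact h _ _ u v hu hv

private theorem const_of (a0 : A.Ob)
    (h : ∀ q : ℕ, ∃ θ : ∀ b, (cof A N' h1 h2 hle q).M b ≃ₗ[ℚ]
      (cof A N' h1 h2 hle q).M (Opposite.op ⟨a0⟩), (∀ x, θ (Opposite.op ⟨a0⟩) x = x) ∧
      ∀ (b b' : (A.Obj)ᵒᵖ) (u : b ⟶ b') (x : (cof A N' h1 h2 hle q).M b),
        θ b' ((cof A N' h1 h2 hle q).map u x) = θ b x) : A.FibConst N' h1 h2 hle a0 := by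
  intro q
  obtain ⟨θ, h3, h4⟩ := h q
  exact ⟨fun a => θ (Opposite.op ⟨a⟩), h3, fun a b g hg x => h4 _ _ (A.hom g hg).op x⟩

theorem fibConst_move (a0 : A.Ob) (hne : ∀ a b, ∃ g, A.Adm a g b)
    (hmove : ∀ (a b : A.Ob) (g1 g2 : Γ), A.Adm a g1 b → A.Adm a g2 b →
      ∀ F : Set Γ, F.Finite → F ⊆ N' b → ∃ v : Γ, (∀ n ∈ F, v * n = n * v) ∧
        g2⁻¹ * v * g1 ∈ N' a) :
    A.FibConst N' h1 h2 hle a0 := by
  refine const_of A N' h1 h2 hle a0 fun q => const_all _ (fun x y => ?_)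
    (cof_par A N' h1 h2 hle q fun a b g1 g2 hg1 hg2 => ?_) _
  · obtain ⟨g, hg⟩ := hne y.unop.o x.unop.o
    exact ⟨(A.hom g hg).op⟩
  · refine HCmap_locConj (A.fib N' h1 hle b) () _ _ (fun M hM hMb => ?_) q
    obtain ⟨v, hv1, hv2⟩ := hmove a b g1 g2 hg1 hg2 M hM hMb
    refine ⟨(A.fib N' h1 hle a).hom (a := ()) (b := ()) (g2⁻¹ * v * g1) hv2, fun g hg hgM => ?_⟩
    refine cl_eq.2 ?_
    change (g2⁻¹ * v * g1 * (g1⁻¹ * g * g1⁻¹⁻¹))⁻¹ * (g2⁻¹ * g * g2⁻¹⁻¹ * (g2⁻¹ * v * g1)) ∈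
      A.N a
    have h3 : (g2⁻¹ * v * g1 * (g1⁻¹ * g * g1⁻¹⁻¹))⁻¹ * (g2⁻¹ * g * g2⁻¹⁻¹ * (g2⁻¹ * v * g1)) =
        g1⁻¹ * ((v * g)⁻¹ * (g * v)) * g1 := by group
    rw [h3, hv1 g hgM, inv_mul_cancel, mul_one, inv_mul_cancel]
    exact (A.N a).one_mem

theorem fibConst_trick (a0 : A.Ob)
    (hdir : ∀ a b, ∃ c, A.Adm a 1 c ∧ A.Adm b 1 c)
    (hiso : ∀ (a c : A.Ob) (h : A.Adm a 1 c) (q : ℕ),
      Function.Bijective (HCmap (A.fibConj N' h1 h2 hle h) q))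
    (htrick : ∀ (a b : A.Ob) (g : Γ), A.Adm a g b → ∃ c, A.Adm a 1 c ∧ A.Adm b 1 c ∧
      ∀ n ∈ N' c, n⁻¹ * (g⁻¹ * n * g) ∈ A.N a) :
    A.FibConst N' h1 h2 hle a0 := by
  have key : ∀ (q : ℕ) (a b c : A.Ob) (g : Γ) (hg : A.Adm a g b) (hac : A.Adm a 1 c)
      (hbc : A.Adm b 1 c), (∀ n ∈ N' c, n⁻¹ * (g⁻¹ * n * g) ∈ A.N a) →
      ∀ x : HC (A.fib N' h1 hle c).Obj q,
        HCmap (A.fibConj N' h1 h2 hle hg) q (HCmap (A.fibConj N' h1 h2 hle hbc) q x) =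
        HCmap (A.fibConj N' h1 h2 hle hac) q x := by
    intro q a b c g hg hac hbc hn x
    rw [← HCmap_comp]
    congr 2
    refine fib_eq A N' h1 h2 hle fun x y n hn' => heq_of_eq (cl_eq.2 ?_)
    change (g⁻¹ * (1⁻¹ * n * 1⁻¹⁻¹) * g⁻¹⁻¹)⁻¹ * (1⁻¹ * n * 1⁻¹⁻¹) ∈ A.N a
    have h3 : (g⁻¹ * ((1 : Γ)⁻¹ * n * 1⁻¹⁻¹) * g⁻¹⁻¹)⁻¹ * (1⁻¹ * n * 1⁻¹⁻¹) =
        (n⁻¹ * (g⁻¹ * n * g))⁻¹ := by group
    rw [h3]
    exact (A.N a).inv_mem (hn n hn')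
  have mul1 : ∀ {a b c : A.Ob}, A.Adm a 1 b → A.Adm b 1 c → A.Adm a 1 c := by
    intro a b c h3 h4
    have := A.mul h3 h4
    rwa [mul_one] at this
  -- the formula for every upper bound far away
  have far : ∀ (q : ℕ) (a b c d : A.Ob) (g : Γ) (hg : A.Adm a g b) (hac : A.Adm a 1 c)
      (hbc : A.Adm b 1 c) (hcd : A.Adm c 1 d) (had : A.Adm a 1 d) (hbd : A.Adm b 1 d),
      (∀ n ∈ N' c, n⁻¹ * (g⁻¹ * n * g) ∈ A.N a) →
      ∀ x : HC (A.fib N' h1 hle d).Obj q,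
        HCmap (A.fibConj N' h1 h2 hle hg) q (HCmap (A.fibConj N' h1 h2 hle hbd) q x) =
        HCmap (A.fibConj N' h1 h2 hle had) q x := by
    intro q a b c d g hg hac hbc hcd had hbd hn x
    have e1 : ∀ (y : A.Ob) (hyc : A.Adm y 1 c) (hyd : A.Adm y 1 d),
        HCmap (A.fibConj N' h1 h2 hle hyd) q x = HCmap (A.fibConj N' h1 h2 hle hyc) q
          (HCmap (A.fibConj N' h1 h2 hle hcd) q x) := by
      intro y hyc hyd
      rw [← conj_comp A N' h1 h2 hle hyc hcd q x]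
      exact congrArg (fun F => HCmap F q x) (conj_eq A N' h1 h2 hle _ _ (by simp [(A.N y).one_mem]))
    rw [e1 b hbc hbd, e1 a hac had]
    exact key q a b c g hg hac hbc hn _
  have hpar : ∀ (q : ℕ) (a b : A.Ob) (g1 g2 : Γ) (hg1 : A.Adm a g1 b) (hg2 : A.Adm a g2 b),
      HCmap (A.fibConj N' h1 h2 hle hg1) q = HCmap (A.fibConj N' h1 h2 hle hg2) q := by
    intro q a b g1 g2 hg1 hg2
    obtain ⟨c, hac, hbc, hc⟩ := htrick a b g1 hg1
    obtain ⟨c', hac', hbc', hc'⟩ := htrick a b g2 hg2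
    obtain ⟨d, hcd, hcd'⟩ := hdir c c'
    refine LinearMap.ext fun y => ?_
    obtain ⟨x, rfl⟩ := (hiso b d (mul1 hbc hcd) q).2 y
    rw [far q a b c d g1 hg1 hac hbc hcd (mul1 hac hcd) (mul1 hbc hcd) hc,
      far q a b c' d g2 hg2 hac' hbc' hcd' (mul1 hac hcd) (mul1 hbc hcd) hc']
  refine const_of A N' h1 h2 hle a0 fun q => const_down _ (fun x y u => ?_)
    (cof_par A N' h1 h2 hle q (hpar q)) (fun x y => ?_) _
  · obtain ⟨u⟩ := u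
    induction u using ActCat.ind with
    | h g hg =>
      obtain ⟨c, hac, hbc, hc⟩ := htrick _ _ g hg
      change Function.Bijective (HCmap (A.fibConj N' h1 h2 hle hg) q)
      have e1 : (HCmap (A.fibConj N' h1 h2 hle hg) q : _ → _) ∘
          (HCmap (A.fibConj N' h1 h2 hle hbc) q) = HCmap (A.fibConj N' h1 h2 hle hac) q :=
        funext fun x => key q _ _ c g hg hac hbc hc x
      have e2 := hiso _ c hac q
      rw [← e1] at e2
      exact (Function.Bijective.of_comp_iff _ (hiso _ c hbc q)).1 e2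
  · obtain ⟨c, hxc, hyc⟩ := hdir x.unop.o y.unop.o
    exact ⟨Opposite.op ⟨c⟩, ⟨(A.hom 1 hxc).op⟩, ⟨(A.hom 1 hyc).op⟩⟩

/-- variant: all `Hom`s nonempty, and the maps `fibConj 1` only surjective on homology -/
theorem fibConst_trick' (a0 : A.Ob) (hne : ∀ a b, ∃ g, A.Adm a g b)
    (hsurj : ∀ (a c : A.Ob) (h : A.Adm a 1 c) (q : ℕ),
      Function.Surjective (HCmap (A.fibConj N' h1 h2 hle h) q))
    (htrick : ∀ (a b : A.Ob) (g1 g2 : Γ), A.Adm a g1 b → A.Adm a g2 b →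
      ∃ c, A.Adm b 1 c ∧ ∀ n ∈ N' c, (g1⁻¹ * n * g1)⁻¹ * (g2⁻¹ * n * g2) ∈ A.N a) :
    A.FibConst N' h1 h2 hle a0 := by
  refine const_of A N' h1 h2 hle a0 fun q => const_all _ (fun x y => ?_)
    (cof_par A N' h1 h2 hle q fun a b g1 g2 hg1 hg2 => ?_) _
  · obtain ⟨g, hg⟩ := hne y.unop.o x.unop.o
    exact ⟨(A.hom g hg).op⟩
  · obtain ⟨c, hbc, hc⟩ := htrick a b g1 g2 hg1 hg2
    refine LinearMap.ext fun y => ?_
    obtain ⟨x, rfl⟩ := hsurj b c hbc q y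
    rw [← HCmap_comp, ← HCmap_comp]
    congr 2
    refine fib_eq A N' h1 h2 hle fun x y n hn => heq_of_eq (cl_eq.2 ?_)
    change (g1⁻¹ * (1⁻¹ * n * 1⁻¹⁻¹) * g1⁻¹⁻¹)⁻¹ * (g2⁻¹ * (1⁻¹ * n * 1⁻¹⁻¹) * g2⁻¹⁻¹) ∈ A.N a
    have h3 : (g1⁻¹ * ((1 : Γ)⁻¹ * n * 1⁻¹⁻¹) * g1⁻¹⁻¹)⁻¹ * (g2⁻¹ * (1⁻¹ * n * 1⁻¹⁻¹) * g2⁻¹⁻¹) =
        (g1⁻¹ * n * g1)⁻¹ * (g2⁻¹ * n * g2) := by group
    rw [h3]
    exact hc n hn

end ActCat
end C715
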