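import Pool.Agent.Work.MP_c71557_gt.H.Defs5
import Pool.Agent.Work.MP_c71557_gt.H.Equiv

set_option autoImplicit false

/-!
# MP_c71557_gt, module H/H1: first homology (M)

`lp f` is the class of a loop `f : a ⟶ a` (`H/Defs5`).
* `arr_push`: `Sx.ext`, with `Fin.cases`.
* `lp_comp`: the 2-simplex `a → a → a` (`f`, `g`) has boundary `arr g - arr (f ≫ g) + arr f`.
* `lp_conj`: `f ≫ u = u ≫ g`: 2-simplices `(f, u)` and `(u, g)` have the same long edge.
* `lp_char`: the linear map `σ ↦ χ (σ.m 0 1)` on 1-chains kills boundaries.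
* `lp_span`: in a one object category every 1-chain is a combination of `arr f`'s, all of which are
  cycles (a simplex in degree 1 of a category with one object is `arr f`).
* `H1_zero`: take `V = HC _ 1`, `χ g = lp g`.
* `lp_torsion`: if `N'/N` is abelian and `a` has infinite order in it then there is an additive
  `χ : N'/N → ℚ` with `χ a ≠ 0` (`ℚ` is divisible, hence injective: Mathlib
  `AddCommGrpCat.injective_of_divisible` / `Module.Baer`, or tensor with `ℚ`:
  `ℤ → N'/N` injective gives `ℚ → ℚ ⊗ N'/N` injective by flatness), contradiction with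
  `lp_char`.
-/

namespace C715

open CategoryTheory

variable {C : Type} [SmallCategory C] {D : Type} [SmallCategory D]

private theorem sx1_ext' {σ τ : Sx C 1} (h0 : σ.o 0 = τ.o 0) (h1 : σ.o 1 = τ.o 1)
    (hm : HEq (σ.m 0 1 (Fin.zero_le _)) (τ.m 0 1 (Fin.zero_le _))) : σ = τ := by
  obtain ⟨o, m, ms, mc⟩ := σ
  obtain ⟨o', m', ms', mc'⟩ := τ
  have ho : o = o' := funext fun i => by
    fin_cases i
    · exact h0
    · exact h1
  subst ho
  have hm' : m = m' := by
    funext i j hij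
    fin_cases i <;> fin_cases j
    · exact (ms 0).trans (ms' 0).symm
    · exact eq_of_heq hm
    · exact absurd hij (by decide)
    · exact (ms 1).trans (ms' 1).symm
  subst hm'
  rfl

private theorem arr_m {a b : C} (f : a ⟶ b) : (Sx.arr f).m 0 1 (Fin.zero_le _) = f :=
  Category.comp_id f

private theorem sx1_arr (σ : Sx C 1) : σ = Sx.arr (σ.m 0 1 (Fin.zero_le _)) :=
  sx1_ext' rfl rfl (heq_of_eq (arr_m _).symm)

/-- the 2-simplex of two composable arrows -/
private def tri {a b c : C} (f : a ⟶ b) (g : b ⟶ c) : Sx C 2 := Sx.cons a (Sx.arr g) f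

private theorem tri0 {a b c : C} (f : a ⟶ b) (g : b ⟶ c) : pre (dl 0) (tri f g) = Sx.arr g := rfl

private theorem tri1 {a b c : C} (f : a ⟶ b) (g : b ⟶ c) :
    pre (dl 1) (tri f g) = Sx.arr (f ≫ g) :=
  sx1_ext' rfl rfl (heq_of_eq (by
    rw [arr_m]
    change f ≫ (Sx.arr g).m 0 1 (Fin.zero_le _) = f ≫ g
    rw [arr_m]
    rfl))

private theorem tri2 {a b c : C} (f : a ⟶ b) (g : b ⟶ c) : pre (dl 2) (tri f g) = Sx.arr f :=
  sx1_ext' rfl rfl (heq_of_eq (by
    rw [arr_m]
    change f ≫ (Sx.arr g).m 0 0 (Fin.zero_le _) = f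
    rw [(Sx.arr g).m_self 0]
    exact Category.comp_id f))

private theorem d_tri {a b c : C} (f : a ⟶ b) (g : b ⟶ c) :
    (NC C).d 1 (Finsupp.single (tri f g) 1) =
      Finsupp.single (Sx.arr g) 1 - Finsupp.single (Sx.arr (f ≫ g)) 1 +
        Finsupp.single (Sx.arr f) 1 := by
  rw [NC_d_single, Fin.sum_univ_three, tri0, tri1, tri2]
  simp [sub_eq_add_neg]

theorem arr_push {a b : C} (f : a ⟶ b) (F : C ⥤ D) :
    (Sx.arr f).push F = Sx.arr (F.map f) := by
  refine sx1_ext' rfl rfl (heq_of_eq ?_)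
  rw [arr_m]
  change F.map ((Sx.arr f).m 0 1 (Fin.zero_le _)) = F.map f
  rw [arr_m]
  rfl

theorem lp_map (F : C ⥤ D) {a : C} (f : a ⟶ a) : HCmap F 1 (lp f) = lp (F.map f) := by
  unfold lp
  rw [HCmap, Cx.H_cls, Cx.cls_eq, NCmap_single, arr_push, sub_self]
  exact Submodule.zero_mem _

theorem lp_comp {a : C} (f g : a ⟶ a) : lp (f ≫ g) = lp f + lp g := by
  unfold lp
  rw [← Cx.cls_add, Cx.cls_eq]
  refine ⟨-Finsupp.single (tri f g) 1, ?_⟩
  rw [map_neg, d_tri]
  abel

theorem lp_conj {a b : C} (f : a ⟶ a) (g : b ⟶ b) (u : a ⟶ b) (h : f ≫ u = u ≫ g) :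
    lp f = lp g := by
  unfold lp
  rw [Cx.cls_eq]
  refine ⟨Finsupp.single (tri f u) 1 - Finsupp.single (tri u g) 1, ?_⟩
  rw [map_sub, d_tri, d_tri, h]
  abel

theorem lp_char (V : Type) [AddCommGroup V] [Module ℚ V] (χ : ∀ {a b : C}, (a ⟶ b) → V)
    (hχ : ∀ {a b c : C} (f : a ⟶ b) (g : b ⟶ c), χ (f ≫ g) = χ f + χ g) :
    ∃ l : HC C 1 →ₗ[ℚ] V, ∀ (a : C) (f : a ⟶ a), l (lp f) = χ f := by
  let L : (Sx C 1 →₀ ℚ) →ₗ[ℚ] V :=
    Finsupp.linearCombination ℚ (fun σ : Sx C 1 => χ (σ.m 0 1 (Fin.zero_le _)))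
  have hL : ∀ y : (NC C).X 2, L ((NC C).d 1 y) = 0 := by
    intro y
    have h1 : L.comp ((NC C).d 1) = 0 := by
      refine Finsupp.lhom_ext fun σ r => ?_
      rw [LinearMap.comp_apply, NC_d_single, Fin.sum_univ_three, map_add, map_add, map_smul,
        map_smul, map_smul]
      have e : ∀ i : Fin 3, L (Finsupp.single (pre (dl i) σ) r) =
          r • χ ((pre (dl i) σ).m 0 1 (Fin.zero_le _)) := fun i =>
        Finsupp.linearCombination_single ℚ _ _
      rw [e, e, e]
      have e0 : χ ((pre (dl 0) σ).m 0 1 (Fin.zero_le _)) = χ (σ.m 1 2 (by decide)) := rfl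
      have e1 : χ ((pre (dl 1) σ).m 0 1 (Fin.zero_le _)) = χ (σ.m 0 2 (by decide)) := rfl
      have e2 : χ ((pre (dl 2) σ).m 0 1 (Fin.zero_le _)) = χ (σ.m 0 1 (by decide)) := rfl
      rw [e0, e1, e2, ← σ.m_comp 0 1 2 (by decide) (by decide), hχ]
      simp only [Fin.val_zero, pow_zero, one_smul, Fin.val_one, pow_one, Fin.val_two,
        LinearMap.zero_apply, smul_add, neg_smul]
      norm_num
    exact congrArg (fun l => l y) h1
  refine ⟨Submodule.liftQ _ (L.comp ((NC C).Z 1).subtype) ?_, fun a f => ?_⟩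
  · rintro ⟨x, hx⟩ ⟨y, hy⟩
    have h1 : (NC C).d 1 y = x := hy
    rw [LinearMap.mem_ker]
    change L x = 0
    rw [← h1]
    exact hL y
  · change L (Finsupp.single (Sx.arr f) 1) = χ f
    have e : L (Finsupp.single (Sx.arr f) 1) = (1 : ℚ) • χ ((Sx.arr f).m 0 1 (Fin.zero_le _)) :=
      Finsupp.linearCombination_single ℚ _ _
    rw [e, one_smul, arr_m]
    rfl

theorem lp_span {Γ : Type} [Group Γ] (A : ActCat Γ) [Subsingleton A.Ob] (a : A.Ob) :
    Submodule.span ℚ {x : HC A.Obj 1 | ∃ (g : Γ) (hg : A.Adm a g a), x = lp (A.hom g hg)} = ⊤ := by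
  have harr : ∀ σ : Sx A.Obj 1, ∃ (g : Γ) (hg : A.Adm a g a), σ = Sx.arr (A.hom g hg) := by
    intro σ
    have key : ∀ (x y : A.Obj) (f : x ⟶ y), ∃ (g : Γ) (hg : A.Adm a g a),
        Sx.arr f = Sx.arr (A.hom g hg) := by
      rintro ⟨x⟩ ⟨y⟩ f
      obtain rfl : x = a := Subsingleton.elim _ _
      obtain rfl : y = x := Subsingleton.elim _ _
      obtain ⟨g, hg, rfl⟩ := ActCat.hom_surj f
      exact ⟨g, hg, rfl⟩
    obtain ⟨g, hg, e⟩ := key _ _ (σ.m 0 1 (Fin.zero_le _))
    exact ⟨g, hg, (sx1_arr σ).trans e⟩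
  have hZ : ∀ x : Sx A.Obj 1 →₀ ℚ, x ∈ (NC A.Obj).Z 1 := by
    intro x
    induction x using Finsupp.induction_linear with
    | zero => exact Submodule.zero_mem _
    | add x y hx hy => exact Submodule.add_mem _ hx hy
    | single σ r =>
      obtain ⟨g, hg, rfl⟩ := harr σ
      change (NC A.Obj).d 0 _ = 0
      rw [NC_d_arr, sub_self]
  have hS : ∀ x : Sx A.Obj 1 →₀ ℚ, (NC A.Obj).cls 1 x (hZ x) ∈ Submodule.span ℚ
      {x : HC A.Obj 1 | ∃ (g : Γ) (hg : A.Adm a g a), x = lp (A.hom g hg)} := by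
    intro x
    induction x using Finsupp.induction_linear with
    | zero =>
      have : (NC A.Obj).cls 1 (0 : Sx A.Obj 1 →₀ ℚ) (hZ 0) = 0 :=
        Cx.cls_eq_zero.2 (Submodule.zero_mem _)
      rw [this]
      exact Submodule.zero_mem _
    | add x y hx hy =>
      have := Submodule.add_mem _ hx hy
      rw [← Cx.cls_add] at this
      exact this
    | single σ r =>
      obtain ⟨g, hg, rfl⟩ := harr σ
      have e : (NC A.Obj).cls 1 (Finsupp.single (Sx.arr (A.hom g hg)) r : Sx A.Obj 1 →₀ ℚ)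
          (hZ _) = r • lp (A.hom g hg) := by
        unfold lp
        rw [← Cx.cls_smul, Cx.cls_eq]
        have : (Finsupp.single (Sx.arr (A.hom g hg)) r : Sx A.Obj 1 →₀ ℚ) -
            r • Finsupp.single (Sx.arr (A.hom g hg)) (1 : ℚ) = 0 := by
          rw [Finsupp.smul_single, smul_eq_mul, mul_one, sub_self]
        exact this ▸ Submodule.zero_mem _
      rw [e]
      exact Submodule.smul_mem _ _ (Submodule.subset_span ⟨g, hg, rfl⟩)
  rw [eq_top_iff]
  intro y _
  obtain ⟨x, hx, rfl⟩ := Cx.H_surj y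
  exact hS x

theorem H1_zero {Γ : Type} [Group Γ] (K : Subgroup Γ)
    (h : ∀ (V : Type) [AddCommGroup V] [Module ℚ V] (χ : Γ → V),
      (∀ a ∈ K, ∀ b ∈ K, χ (a * b) = χ a + χ b) → ∀ a ∈ K, χ a = 0) :
    Subsingleton (HC (ActCat.sg K).Obj 1) := by
  classical
  have hsub : Subsingleton (ActCat.sg K).Ob := ⟨fun _ _ => Subsingleton.elim (α := Unit) _ _⟩
  have h1 := lp_span (ActCat.sg K) ()
  have h2 := h (HC (ActCat.sg K).Obj 1)
    (fun g => if hg : g ∈ K then lp ((ActCat.sg K).hom (a := ()) (b := ()) g hg) else 0) (by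
      intro a ha b hb
      simp only [dif_pos ha, dif_pos hb, dif_pos (K.mul_mem ha hb)]
      rw [add_comm]
      exact lp_comp ((ActCat.sg K).hom (a := ()) (b := ()) b hb)
        ((ActCat.sg K).hom (a := ()) (b := ()) a ha))
  refine subsingleton_of_forall_eq 0 fun y => ?_
  have h3 : y ∈ Submodule.span ℚ {x : HC (ActCat.sg K).Obj 1 | ∃ (g : Γ)
      (hg : (ActCat.sg K).Adm () g ()), x = lp ((ActCat.sg K).hom g hg)} := by
    rw [h1]
    exact Submodule.mem_top
  induction h3 using Submodule.span_induction with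
  | mem x hx =>
    obtain ⟨g, hg, rfl⟩ := hx
    have h4 := h2 g hg
    rw [dif_pos (show g ∈ K from hg)] at h4
    exact h4
  | zero => rfl
  | add x y _ _ hx hy => rw [hx, hy, add_zero]
  | smul r x _ hx => rw [hx, smul_zero]

theorem lp_torsion {Γ : Type} [Group Γ] (N' N : Subgroup Γ) (hle : N ≤ N')
    (hn : ∀ g ∈ N', ∀ n ∈ N, g⁻¹ * n * g ∈ N) (hab : ∀ a ∈ N', ∀ b ∈ N', a⁻¹ * b⁻¹ * a * b ∈ N)
    (a : Γ) (ha : (ActCat.grp N' N hle hn).Adm () a ())
    (h0 : lp ((ActCat.grp N' N hle hn).hom a ha) = 0) :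
    ∃ m : ℕ, 1 ≤ m ∧ a ^ m ∈ N := by
  by_contra hcon
  push Not at hcon
  have hN : (N.subgroupOf N').Normal := ⟨fun n hnn g => by
    rw [Subgroup.mem_subgroupOf] at hnn ⊢
    have := hn (g : Γ)⁻¹ (N'.inv_mem g.2) _ hnn
    rw [inv_inv] at this
    exact this⟩
  let G := N' ⧸ N.subgroupOf N'
  have hcomm : ∀ x y : G, x * y = y * x := by
    intro x y
    obtain ⟨x, rfl⟩ := QuotientGroup.mk_surjective x
    obtain ⟨y, rfl⟩ := QuotientGroup.mk_surjective y
    rw [← QuotientGroup.mk_mul, ← QuotientGroup.mk_mul, QuotientGroup.eq,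
      Subgroup.mem_subgroupOf]
    have := hab y y.2 x x.2
    simpa [mul_assoc] using this
  let cg : CommGroup G := { (inferInstance : Group G) with mul_comm := hcomm }
  let α : G := QuotientGroup.mk (⟨a, ha⟩ : N')
  have hinj : Function.Injective (zmultiplesHom (Additive G) (Additive.ofMul α)) := by
    rw [injective_iff_map_eq_zero]
    intro z hz
    by_contra hz0
    have h1 : α ^ z = 1 := hz
    have h2 : α ^ z.natAbs = 1 := by
      rcases Int.natAbs_eq z with e | e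
      · rw [e, zpow_natCast] at h1
        exact h1
      · rw [e, zpow_neg, zpow_natCast, inv_eq_one] at h1
        exact h1
    have h3 : (QuotientGroup.mk ((⟨a, ha⟩ : N') ^ z.natAbs) : G) = 1 := h2
    rw [QuotientGroup.eq_one_iff, Subgroup.mem_subgroupOf] at h3
    exact hcon z.natAbs (Int.natAbs_pos.2 hz0) h3
  obtain ⟨ψ, hψ⟩ := (Module.Baer.of_divisible ℚ).extension_property_addMonoidHom
    (zmultiplesHom (Additive G) (Additive.ofMul α)) hinj (Int.castAddHom ℚ)
  have hψ1 : ψ (Additive.ofMul α) = 1 := by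
    have := congrArg (fun l => l 1) hψ
    simpa using this
  obtain ⟨l, hl⟩ := lp_char (C := (ActCat.grp N' N hle hn).Obj) ℚ
    (fun {x y} u => Quotient.lift (fun g : {g : Γ // (ActCat.grp N' N hle hn).Adm x.o g y.o} =>
      ψ (Additive.ofMul (QuotientGroup.mk (⟨g.1, g.2⟩ : N') : G))) (by
        rintro ⟨g, hg⟩ ⟨g', hg'⟩ (e : g⁻¹ * g' ∈ N)
        refine congrArg (fun t => ψ (Additive.ofMul t)) ?_
        exact QuotientGroup.eq.2 e) u) (by
      intro x y z u v
      induction u using ActCat.ind with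
      | h u hu =>
        induction v using ActCat.ind with
        | h v hv =>
          change ψ (Additive.ofMul (QuotientGroup.mk (⟨v * u, _⟩ : N') : G)) =
            ψ (Additive.ofMul (QuotientGroup.mk (⟨u, _⟩ : N') : G)) +
              ψ (Additive.ofMul (QuotientGroup.mk (⟨v, _⟩ : N') : G))
          rw [add_comm, ← map_add]
          rfl)
  have h5 := hl ⟨()⟩ ((ActCat.grp N' N hle hn).hom a ha)
  rw [h0, map_zero] at h5
  have h6 : (0 : ℚ) = ψ (Additive.ofMul α) := h5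
  rw [hψ1] at h6
  exact zero_ne_one h6

end C715
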