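import Pool.Agent.Work.MP_c71557_gt.H.Les

set_option autoImplicit false

/-!
# MP_c71557_gt, module H/Five: consequences of the long exact sequence (M)

Diagram chases with `H/Les` (exact_mid, exact_right, exact_left, surj_zero, delta_nat).
The three `qis_*` are the five lemma (degree `0` uses `surj_zero`; note that in degree `0` the
sequence ends with `H 0 (C) → 0`).
* `qis_iff_coker`: for injective `f`, `0 → A → B → coker f → 0`; if all `H_n(coker f) = 0` then
  `f.H n` is injective (exact_left at `n`) and surjective (exact_mid); conversely.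
* Serre statements: `Serre.ext3` applied to the exact sequences.
* `coker_qis`: `cokerMap` of two quasi-isomorphisms between injective maps is a
  quasi-isomorphism (qis_right for the two sequences of cokernels `coker_SES`).
-/

namespace C715
namespace Cx

private theorem H_sq {A B A' B' : Cx} (i : Hom A B) (i' : Hom A' B') (α : Hom A A')
    (β : Hom B B') (hi : ∀ n x, β.f n (i.f n x) = i'.f n (α.f n x)) (n : ℕ) :
    (i'.H n).comp (α.H n) = (β.H n).comp (i.H n) := by
  refine LinearMap.ext fun y => ?_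
  obtain ⟨a, ha, rfl⟩ := H_surj y
  rw [LinearMap.comp_apply, LinearMap.comp_apply, H_cls, H_cls, H_cls, H_cls, cls_eq, hi,
    sub_self]
  exact Submodule.zero_mem _

private theorem delta_sq {A B C : Cx} {i : Hom A B} {p : Hom B C}
    (h : SES i p) {A' B' C' : Cx} {i' : Hom A' B'} {p' : Hom B' C'}
    (h' : SES i' p') (α : Hom A A') (β : Hom B B') (γ : Hom C C')
    (hi : ∀ n x, β.f n (i.f n x) = i'.f n (α.f n x))
    (hp : ∀ n x, γ.f n (p.f n x) = p'.f n (β.f n x)) (n : ℕ) :
    (delta h' n).comp (γ.H (n + 1)) = (α.H n).comp (delta h n) :=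
  LinearMap.ext fun y => (delta_nat h h' α β γ hi hp n y).symm

theorem qis_right {A B C A' B' C' : Cx} {i : Hom A B} {p : Hom B C} {i' : Hom A' B'}
    {p' : Hom B' C'} (h : SES i p) (h' : SES i' p') (α : Hom A A') (β : Hom B B') (γ : Hom C C')
    (hi : ∀ n x, β.f n (i.f n x) = i'.f n (α.f n x))
    (hp : ∀ n x, γ.f n (p.f n x) = p'.f n (β.f n x)) (hα : Qis α) (hβ : Qis β) : Qis γ := by
  intro n
  cases n with
  | zero =>
    exact LinearMap.bijective_of_surjective_of_bijective_of_right_exact (i.H 0) (p.H 0) (i'.H 0)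
      (p'.H 0) (α.H 0) (β.H 0) (γ.H 0) (H_sq i i' α β hi 0) (H_sq p p' β γ hp 0)
      (exact_mid h 0) (exact_mid h' 0) (hα 0).2 (hβ 0) (surj_zero h) (surj_zero h')
  | succ n =>
    exact LinearMap.bijective_of_surjective_of_bijective_of_bijective_of_injective
      (i.H (n + 1)) (p.H (n + 1)) (delta h n) (i.H n) (i'.H (n + 1)) (p'.H (n + 1)) (delta h' n)
      (i'.H n) (α.H (n + 1)) (β.H (n + 1)) (γ.H (n + 1)) (α.H n) (β.H n)
      (H_sq i i' α β hi (n + 1)) (H_sq p p' β γ hp (n + 1)) (delta_sq h h' α β γ hi hp n)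
      (H_sq i i' α β hi n) (exact_mid h (n + 1)) (exact_right h n) (exact_left h n)
      (exact_mid h' (n + 1)) (exact_right h' n) (exact_left h' n)
      (hα (n + 1)).2 (hβ (n + 1)) (hα n) (hβ n).1

theorem qis_mid {A B C A' B' C' : Cx} {i : Hom A B} {p : Hom B C} {i' : Hom A' B'}
    {p' : Hom B' C'} (h : SES i p) (h' : SES i' p') (α : Hom A A') (β : Hom B B') (γ : Hom C C')
    (hi : ∀ n x, β.f n (i.f n x) = i'.f n (α.f n x))
    (hp : ∀ n x, γ.f n (p.f n x) = p'.f n (β.f n x)) (hα : Qis α) (hγ : Qis γ) : Qis β := by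
  intro n
  cases n with
  | zero =>
    exact LinearMap.bijective_of_surjective_of_bijective_of_bijective_of_injective
      (delta h 0) (i.H 0) (p.H 0) (0 : C.H 0 →ₗ[ℚ] Unit) (delta h' 0) (i'.H 0) (p'.H 0)
      (0 : C'.H 0 →ₗ[ℚ] Unit) (γ.H 1) (α.H 0) (β.H 0) (γ.H 0) (0 : Unit →ₗ[ℚ] Unit)
      (delta_sq h h' α β γ hi hp 0) (H_sq i i' α β hi 0) (H_sq p p' β γ hp 0) (by simp)
      (exact_left h 0) (exact_mid h 0) ((LinearMap.exact_zero_iff_surjective _ _).2 (surj_zero h))
      (exact_left h' 0) (exact_mid h' 0)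
      ((LinearMap.exact_zero_iff_surjective _ _).2 (surj_zero h'))
      (hγ 1).2 (hα 0) (hγ 0) (fun _ _ _ => rfl)
  | succ n =>
    exact LinearMap.bijective_of_surjective_of_bijective_of_bijective_of_injective
      (delta h (n + 1)) (i.H (n + 1)) (p.H (n + 1)) (delta h n) (delta h' (n + 1))
      (i'.H (n + 1)) (p'.H (n + 1)) (delta h' n)
      (γ.H (n + 2)) (α.H (n + 1)) (β.H (n + 1)) (γ.H (n + 1)) (α.H n)
      (delta_sq h h' α β γ hi hp (n + 1)) (H_sq i i' α β hi (n + 1)) (H_sq p p' β γ hp (n + 1))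
      (delta_sq h h' α β γ hi hp n)
      (exact_left h (n + 1)) (exact_mid h (n + 1)) (exact_right h n)
      (exact_left h' (n + 1)) (exact_mid h' (n + 1)) (exact_right h' n)
      (hγ (n + 2)).2 (hα (n + 1)) (hγ (n + 1)) (hα n).1

theorem qis_left {A B C A' B' C' : Cx} {i : Hom A B} {p : Hom B C} {i' : Hom A' B'}
    {p' : Hom B' C'} (h : SES i p) (h' : SES i' p') (α : Hom A A') (β : Hom B B') (γ : Hom C C')
    (hi : ∀ n x, β.f n (i.f n x) = i'.f n (α.f n x))
    (hp : ∀ n x, γ.f n (p.f n x) = p'.f n (β.f n x)) (hβ : Qis β) (hγ : Qis γ) : Qis α := by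
  intro n
  exact LinearMap.bijective_of_surjective_of_bijective_of_bijective_of_injective
    (p.H (n + 1)) (delta h n) (i.H n) (p.H n) (p'.H (n + 1)) (delta h' n) (i'.H n) (p'.H n)
    (β.H (n + 1)) (γ.H (n + 1)) (α.H n) (β.H n) (γ.H n)
    (H_sq p p' β γ hp (n + 1)) (delta_sq h h' α β γ hi hp n) (H_sq i i' α β hi n)
    (H_sq p p' β γ hp n)
    (exact_right h n) (exact_left h n) (exact_mid h n)
    (exact_right h' n) (exact_left h' n) (exact_mid h' n)
    (hβ (n + 1)).2 (hγ (n + 1)) (hβ n) (hγ n).1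

theorem qis_iff_coker {A B : Cx} (f : Hom A B) (hf : ∀ n, Function.Injective (f.f n)) :
    Qis f ↔ ∀ n, Subsingleton ((coker f).H n) := by
  have hs := coker_SES f hf
  constructor
  · intro hq n
    have key : ∀ x : B.H n, (toCoker f).H n x = 0 := by
      intro x
      obtain ⟨z, rfl⟩ := (hq n).2 x
      exact (exact_mid hs n _).2 ⟨z, rfl⟩
    have key2 : ∀ y : (coker f).H n, y = 0 := by
      intro y
      cases n with
      | zero =>
        obtain ⟨x, rfl⟩ := surj_zero hs y
        exact key x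
      | succ n =>
        have h1 : f.H n (delta hs n y) = 0 := (exact_left hs n _).2 ⟨y, rfl⟩
        have h2 : delta hs n y = 0 := (hq n).1 (by rw [h1, map_zero])
        obtain ⟨x, rfl⟩ := (exact_right hs n y).1 h2
        exact key x
    exact ⟨fun a b => (key2 a).trans (key2 b).symm⟩
  · intro hc n
    constructor
    · rw [injective_iff_map_eq_zero]
      intro y hy
      obtain ⟨x, rfl⟩ := (exact_left hs n y).1 hy
      have := hc (n + 1)
      rw [Subsingleton.elim x 0, map_zero]
    · intro y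
      have := hc n
      exact (exact_mid hs n y).1 (Subsingleton.elim _ _)

theorem coker_qis {A B A' B' : Cx} (f : Hom A B) (f' : Hom A' B')
    (hf : ∀ n, Function.Injective (f.f n)) (hf' : ∀ n, Function.Injective (f'.f n))
    (a : Hom A A') (b : Hom B B') (h : ∀ n x, b.f n (f.f n x) = f'.f n (a.f n x))
    (ha : Qis a) (hb : Qis b) : Qis (cokerMap f f' a b h) := by
  exact qis_right (coker_SES f hf) (coker_SES f' hf') a b (cokerMap f f' a b h) h
    (fun n x => rfl) ha hb

theorem serre_mid {A B C : Cx} {i : Hom A B} {p : Hom B C} (h : SES i p) (S : Serre) (n : ℕ)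
    (hA : S.P (A.H n)) (hC : S.P (C.H n)) : S.P (B.H n) := by
  exact S.ext3 (A.H n) (B.H n) (C.H n) (i.H n) (p.H n) (fun x hx => (exact_mid h n x).1 hx) hA hC

theorem serre_right {A B C : Cx} {i : Hom A B} {p : Hom B C} (h : SES i p) (S : Serre) (n : ℕ)
    (hB : S.P (B.H (n + 1))) (hA : S.P (A.H n)) : S.P (C.H (n + 1)) := by
  exact S.ext3 (B.H (n + 1)) (C.H (n + 1)) (A.H n) (p.H (n + 1)) (delta h n)
    (fun x hx => (exact_right h n x).1 hx) hB hA

theorem serre_left {A B C : Cx} {i : Hom A B} {p : Hom B C} (h : SES i p) (S : Serre) (n : ℕ)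
    (hC : S.P (C.H (n + 1))) (hB : S.P (B.H n)) : S.P (A.H n) := by
  exact S.ext3 (C.H (n + 1)) (A.H n) (B.H n) (delta h n) (i.H n)
    (fun x hx => (exact_left h n x).1 hx) hC hB

end Cx
end C715
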