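import Pool.Agent.Work.MP_c71557_gt.H.Defs5
import Pool.Agent.Work.MP_c71557_gt.H.Equiv
import Pool.Agent.Work.MP_c71557_gt.H.Five

set_option autoImplicit false

/-!
# MP_c71557_gt, module H/RelPt: homology relative to a point, relative to an acyclic category (S-M)

* `relPt`: `H_{n+1}(C) → H_{n+1}(C, pt)` is an isomorphism, `H_0(C, pt) = 0` if `C` is connected:
  long exact sequence (`H/Les`, `coker_SES`); the point is acyclic, and `H_0(pt) → H_0(C)` is
  injective (augmentation), so the connecting map `H_1(C, pt) → H_0(pt)` is zero.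
  (`NCmap (ptF c)` is injective.)
* `relAcy`: if `C` is acyclic and `j : K ⥤ C` is injective on simplices, `K` connected and nonempty
  then `H_{n+2}(C, K) ≅ H_{n+1}(K)` through the connecting map and `H_0(C,K) = H_1(C,K) = 0`.
-/

namespace C715

open CategoryTheory

variable {C : Type} [SmallCategory C] {K : Type} [SmallCategory K]

private theorem pt_sub (n : ℕ) : Subsingleton (Sx ActCat.Pt n) := by
  refine ⟨fun σ τ => ?_⟩
  rcases σ with ⟨o, m, _, _⟩
  rcases τ with ⟨o', m', _, _⟩
  have h : o = o' := funext fun _ => Subsingleton.elim _ _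
  subst h
  congr 1
  exact funext fun i => funext fun j => funext fun h => Subsingleton.elim _ _

theorem ptF_inj (c : C) (n : ℕ) : Function.Injective ((NCmap (ptF c)).f n) := by
  have := pt_sub n
  exact Finsupp.mapDomain_injective (fun σ τ _ => Subsingleton.elim _ _)

theorem NCmap_inj (j : K ⥤ C) (hj : ∀ n, Function.Injective (fun σ : Sx K n => σ.push j))
    (n : ℕ) : Function.Injective ((NCmap j).f n) :=
  Finsupp.mapDomain_injective (hj n)

/-- augmentation -/
private noncomputable abbrev aug (C : Type) [SmallCategory C] : (NC C).X 0 →ₗ[ℚ] ℚ :=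
  Finsupp.linearCombination ℚ (fun _ => (1 : ℚ))

private theorem aug_d : (aug C).comp ((NC C).d 0) = 0 := by
  refine Finsupp.lhom_ext fun σ a => ?_
  rw [LinearMap.comp_apply, NC_d_single, Fin.sum_univ_two, map_add, map_smul, map_smul,
    Finsupp.linearCombination_single, Finsupp.linearCombination_single]
  simp

private theorem aug_Bd {x : (NC C).X 0} (hx : x ∈ (NC C).Bd 0) : aug C x = 0 := by
  obtain ⟨y, rfl⟩ := hx
  exact LinearMap.congr_fun (aug_d (C := C)) y

private theorem aug_map (j : K ⥤ C) (x : (NC K).X 0) : aug C ((NCmap j).f 0 x) = aug K x := by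
  have h : (aug C).comp ((NCmap j).f 0) = aug K := by
    refine Finsupp.lhom_ext fun σ a => ?_
    rw [LinearMap.comp_apply, NCmap_single, Finsupp.linearCombination_single,
      Finsupp.linearCombination_single]
  exact LinearMap.congr_fun h x

/-- surjectivity in degree `0` onto the homology of a connected category -/
private theorem surj0 (j : K ⥤ C) (k : K) (h0 : ∀ x : (NC C).X 0, aug C x = 0 → x ∈ (NC C).Bd 0) :
    Function.Surjective (HCmap j 0) := by
  intro y
  obtain ⟨x, hx, rfl⟩ := Cx.H_surj y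
  let σ : Sx K 0 :=
    { o := fun _ => k
      m := fun _ _ _ => 𝟙 _
      m_self := fun _ => rfl
      m_comp := fun _ _ _ _ _ => Category.id_comp _ }
  refine ⟨(NC K).cls 0 (Finsupp.single σ (aug C x)) trivial, ?_⟩
  rw [Cx.H_cls, Cx.cls_eq]
  refine h0 _ ?_
  rw [map_sub, NCmap_single, Finsupp.linearCombination_single]
  simp

private theorem coker_sub0 (f : Cx.Hom (NC K) (NC C)) (hf : ∀ n, Function.Injective (f.f n))
    (hs : Function.Surjective (f.H 0)) : Subsingleton ((Cx.coker f).H 0) := by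
  have key : ∀ y : (Cx.coker f).H 0, y = 0 := by
    intro y
    obtain ⟨x, rfl⟩ := Cx.surj_zero (Cx.coker_SES f hf) y
    obtain ⟨z, rfl⟩ := hs x
    exact (Cx.exact_mid (Cx.coker_SES f hf) 0 _).2 ⟨z, rfl⟩
  exact ⟨fun a b => (key a).trans (key b).symm⟩

theorem relPt (c : C) (n : ℕ) :
    Function.Bijective ((Cx.toCoker (NCmap (ptF c))).H (n + 1)) := by
  have hs := Cx.coker_SES (NCmap (ptF c)) (ptF_inj c)
  have hp : Subsingleton (HC ActCat.Pt (n + 1)) := acy_pt.2.2 n
  have hi : Function.Injective (HCmap (ptF c) n) := by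
    have h1 : Function.LeftInverse (HCmap (toPt C) n) (HCmap (ptF c) n) := by
      intro x
      rw [← HCmap_comp]
      have h2 : ptF c ⋙ toPt C = 𝟭 ActCat.Pt := rfl
      rw [h2, HCmap_id]
    exact h1.injective
  constructor
  · rw [injective_iff_map_eq_zero]
    intro y hy
    obtain ⟨x, rfl⟩ := (Cx.exact_mid hs (n + 1) y).1 hy
    rw [Subsingleton.elim x 0, map_zero]
  · intro y
    refine (Cx.exact_right hs n y).1 (hi ?_)
    rw [map_zero]
    exact (Cx.exact_left hs n _).2 ⟨y, rfl⟩

theorem relPt_zero (c : C)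
    (h0 : ∀ x : (NC C).X 0, Finsupp.linearCombination ℚ (fun _ => (1 : ℚ)) x = 0 →
      x ∈ (NC C).Bd 0) : Subsingleton ((relC (ptF c)).H 0) :=
  coker_sub0 _ (ptF_inj c) (surj0 (ptF c) ⟨PUnit.unit⟩ h0)

theorem relAcy (hC : Acy C) (j : K ⥤ C)
    (hj : ∀ n, Function.Injective (fun σ : Sx K n => σ.push j)) (hKne : Nonempty K)
    (hK0 : ∀ x : (NC K).X 0, Finsupp.linearCombination ℚ (fun _ => (1 : ℚ)) x = 0 →
      x ∈ (NC K).Bd 0) :
    (∀ n, Function.Bijective (Cx.delta (Cx.coker_SES (NCmap j) (NCmap_inj j hj)) (n + 1))) ∧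
      Subsingleton ((relC j).H 0) ∧ Subsingleton ((relC j).H 1) := by
  have hs := Cx.coker_SES (NCmap j) (NCmap_inj j hj)
  refine ⟨fun n => ⟨?_, ?_⟩, coker_sub0 _ (NCmap_inj j hj) (surj0 j hKne.some hC.2.1), ?_⟩
  · rw [injective_iff_map_eq_zero]
    intro y hy
    obtain ⟨x, rfl⟩ := (Cx.exact_right hs (n + 1) y).1 hy
    have := hC.2.2 (n + 1)
    rw [Subsingleton.elim x 0, map_zero]
  · intro y
    have := hC.2.2 n
    exact (Cx.exact_left hs (n + 1) y).1 (Subsingleton.elim _ _)
  · have key : ∀ y : (Cx.coker (NCmap j)).H 1, y = 0 := by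
      intro y
      have h1 : (NCmap j).H 0 (Cx.delta hs 0 y) = 0 := (Cx.exact_left hs 0 _).2 ⟨y, rfl⟩
      have h2 : Cx.delta hs 0 y = 0 := by
        obtain ⟨x, hx, e⟩ := Cx.H_surj (Cx.delta hs 0 y)
        rw [e] at h1 ⊢
        rw [Cx.H_cls, Cx.cls_eq_zero] at h1
        rw [Cx.cls_eq_zero]
        refine hK0 x ?_
        rw [← aug_map j x]
        exact aug_Bd h1
      obtain ⟨x, rfl⟩ := (Cx.exact_right hs 0 y).1 h2
      have := hC.2.2 0
      rw [Subsingleton.elim x 0, map_zero]
    exact ⟨fun a b => (key a).trans (key b).symm⟩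

end C715
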