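import Pool.Agent.Work.MP_c71557_gt.H.Defs2

set_option autoImplicit false

/-!
# MP_c71557_gt, module H/Les: long exact homology sequence (M)

`0 → A →(i) B →(p) C → 0` short exact sequence of complexes (`Cx.SES i p`).

* `exists_delta`: snake construction. For `y = [c]`, `c ∈ Z_{n+1}(C)`, choose `b` with `p b = c`
  (surjectivity); `p (d b) = d c = 0`, so `d b = i a` (exactness), `a` is a cycle by injectivity of
  `i`; `[a]` does not depend on the choices (two choices of `b` differ by `i a'` up to a boundary: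
  if `p b' - p b = d c'`, `c' = p b''`, then `b' - b - d b'' = i a'`, so `a_{b'} - a_b = d a'`).
  Linear by additivity of choices.  A convenient way: take a linear section of `p` (vector spaces:
  `(p.f n).exists_rightInverse_of_surjective`) and a linear left inverse on the range of `i`.
* exactness at the three places, surjectivity in degree `0`, naturality (immediate from
  `delta_spec`: every class of `C` has a representative `p b`, and `a` exists as above).
-/

namespace C715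
namespace Cx

variable {A B C : Cx} {i : Hom A B} {p : Hom B C}

theorem ses_mem_Z (h : SES i p) (n : ℕ) (a : A.X n) (hia : i.f n a ∈ B.Z n) : a ∈ A.Z n := by
  cases n with
  | zero => trivial
  | succ n =>
    rw [mem_Z_succ] at hia ⊢
    apply h.inj n
    rw [i.comm, hia, map_zero]

theorem ses_p_i (h : SES i p) (n : ℕ) (a : A.X n) : p.f n (i.f n a) = 0 :=
  (h.exact n _).2 ⟨a, rfl⟩

theorem ses_bd (h : SES i p) (n : ℕ) (b : B.X (n + 1)) (a : A.X n) (c : C.X (n + 2))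
    (h1 : i.f n a = B.d n b) (h2 : p.f (n + 1) b = C.d (n + 1) c) : a ∈ A.Bd n := by
  obtain ⟨b', rfl⟩ := h.surj (n + 2) c
  have h3 : p.f (n + 1) (b - B.d (n + 1) b') = 0 := by
    rw [map_sub, h2, p.comm, sub_self]
  obtain ⟨a', ha'⟩ := (h.exact (n + 1) _).1 h3
  refine ⟨a', h.inj n ?_⟩
  rw [i.comm, ha', map_sub, B.dd, sub_zero, h1]

theorem ses_lift (h : SES i p) (n : ℕ) (c : C.X (n + 1)) (hc : c ∈ C.Z (n + 1)) :
    ∃ (b : B.X (n + 1)) (a : A.X n), p.f (n + 1) b = c ∧ i.f n a = B.d n b ∧ a ∈ A.Z n := by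
  obtain ⟨b, rfl⟩ := h.surj (n + 1) c
  have h3 : p.f n (B.d n b) = 0 := by
    rw [p.comm]
    exact mem_Z_succ.1 hc
  obtain ⟨a, ha⟩ := (h.exact n _).1 h3
  refine ⟨b, a, rfl, ha, ses_mem_Z h n a ?_⟩
  rw [ha]
  exact B.d_mem_Z n b

theorem exists_delta (h : SES i p) (n : ℕ) :
    ∃ δ : C.H (n + 1) →ₗ[ℚ] A.H n,
      ∀ (b : B.X (n + 1)) (a : A.X n) (hb : p.f (n + 1) b ∈ C.Z (n + 1)) (_ : i.f n a = B.d n b)
        (ha : a ∈ A.Z n), δ (C.cls (n + 1) (p.f (n + 1) b) hb) = A.cls n a ha := by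
  obtain ⟨s, hs⟩ := (p.f (n + 1)).exists_rightInverse_of_surjective
    (LinearMap.range_eq_top.2 (h.surj (n + 1)))
  obtain ⟨r, hr⟩ := (i.f n).exists_leftInverse_of_injective
    (LinearMap.ker_eq_bot.2 (h.inj n))
  have hs' : ∀ c, p.f (n + 1) (s c) = c := fun c => LinearMap.congr_fun hs c
  have hr' : ∀ a, r (i.f n a) = a := fun a => LinearMap.congr_fun hr a
  have key : ∀ c ∈ C.Z (n + 1), i.f n (r (B.d n (s c))) = B.d n (s c) := by
    intro c hc
    have h3 : p.f n (B.d n (s c)) = 0 := by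
      rw [p.comm, hs']
      exact mem_Z_succ.1 hc
    obtain ⟨a, ha⟩ := (h.exact n _).1 h3
    rw [← ha, hr']
  let f : C.Z (n + 1) →ₗ[ℚ] A.Z n := LinearMap.codRestrict (A.Z n)
    (r.comp ((B.d n).comp (s.comp (C.Z (n + 1)).subtype))) (fun c => by
      refine ses_mem_Z h n _ ?_
      change i.f n (r (B.d n (s c.1))) ∈ _
      rw [key c.1 c.2]
      exact B.d_mem_Z n _)
  refine ⟨Submodule.mapQ _ _ f ?_, ?_⟩
  · rintro ⟨c, hc⟩ ⟨c', hc'⟩
    change r (B.d n (s c)) ∈ A.Bd n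
    refine ses_bd h n (s c) _ c' (key c hc) ?_
    rw [hs']
    exact hc'.symm
  · intro b a hb hi ha
    change A.cls n (r (B.d n (s (p.f (n + 1) b)))) _ = _
    rw [cls_eq]
    refine ses_bd h n (s (p.f (n + 1) b) - b) _ 0 ?_ ?_
    · rw [map_sub, map_sub, key _ hb, hi]
    · rw [map_sub, hs', sub_self, map_zero]

/-- connecting homomorphism -/
noncomputable def delta (h : SES i p) (n : ℕ) : C.H (n + 1) →ₗ[ℚ] A.H n :=
  (exists_delta h n).choose

theorem delta_spec (h : SES i p) (n : ℕ) (b : B.X (n + 1)) (a : A.X n)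
    (hb : p.f (n + 1) b ∈ C.Z (n + 1)) (hi : i.f n a = B.d n b) (ha : a ∈ A.Z n) :
    delta h n (C.cls (n + 1) (p.f (n + 1) b) hb) = A.cls n a ha :=
  (exists_delta h n).choose_spec b a hb hi ha

theorem exact_mid (h : SES i p) (n : ℕ) : Function.Exact (i.H n) (p.H n) := by
  intro y
  constructor
  · intro hy
    obtain ⟨b, hb, rfl⟩ := H_surj y
    rw [H_cls, cls_eq_zero] at hy
    obtain ⟨c, hc⟩ := hy
    obtain ⟨b', rfl⟩ := h.surj (n + 1) c
    have h3 : p.f n (b - B.d n b') = 0 := by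
      rw [map_sub, p.comm, hc, sub_self]
    obtain ⟨a, ha⟩ := (h.exact n _).1 h3
    have hb' : b - B.d n b' ∈ B.Z n := (B.Z n).sub_mem hb (B.d_mem_Z n b')
    refine ⟨A.cls n a (ses_mem_Z h n a (by rw [ha]; exact hb')), ?_⟩
    rw [H_cls, cls_eq, ha]
    refine ⟨-b', ?_⟩
    rw [map_neg]
    abel
  · rintro ⟨x, rfl⟩
    obtain ⟨a, ha, rfl⟩ := H_surj x
    rw [H_cls, H_cls, cls_eq_zero, ses_p_i h]
    exact Submodule.zero_mem _

theorem exact_right (h : SES i p) (n : ℕ) : Function.Exact (p.H (n + 1)) (delta h n) := by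
  intro y
  constructor
  · intro hy
    obtain ⟨c, hc, rfl⟩ := H_surj y
    obtain ⟨b, a, rfl, hi, ha⟩ := ses_lift h n c hc
    rw [delta_spec h n b a hc hi ha, cls_eq_zero] at hy
    obtain ⟨a', rfl⟩ := hy
    have hz : b - i.f (n + 1) a' ∈ B.Z (n + 1) := by
      rw [mem_Z_succ, map_sub, ← i.comm, hi, sub_self]
    refine ⟨B.cls (n + 1) (b - i.f (n + 1) a') hz, ?_⟩
    rw [H_cls, cls_eq, map_sub, ses_p_i h, sub_zero, sub_self]
    exact Submodule.zero_mem _
  · rintro ⟨x, rfl⟩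
    obtain ⟨b, hb, rfl⟩ := H_surj x
    rw [H_cls]
    rw [delta_spec h n b 0 _ (by rw [map_zero]; exact (mem_Z_succ.1 hb).symm)
      (Submodule.zero_mem _), cls_eq_zero]
    exact Submodule.zero_mem _

theorem exact_left (h : SES i p) (n : ℕ) : Function.Exact (delta h n) (i.H n) := by
  intro y
  constructor
  · intro hy
    obtain ⟨a, ha, rfl⟩ := H_surj y
    rw [H_cls, cls_eq_zero] at hy
    obtain ⟨b, hb⟩ := hy
    have hz : p.f (n + 1) b ∈ C.Z (n + 1) := by
      rw [mem_Z_succ, ← p.comm, hb, ses_p_i h]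
    exact ⟨C.cls (n + 1) (p.f (n + 1) b) hz, delta_spec h n b a hz hb.symm ha⟩
  · rintro ⟨x, rfl⟩
    obtain ⟨c, hc, rfl⟩ := H_surj x
    obtain ⟨b, a, rfl, hi, ha⟩ := ses_lift h n c hc
    rw [delta_spec h n b a hc hi ha, H_cls, cls_eq_zero, hi]
    exact ⟨b, rfl⟩

theorem surj_zero (h : SES i p) : Function.Surjective (p.H 0) := by
  intro y
  obtain ⟨c, hc, rfl⟩ := H_surj y
  obtain ⟨b, rfl⟩ := h.surj 0 c
  exact ⟨B.cls 0 b trivial, rfl⟩

theorem delta_nat (h : SES i p) {A' B' C' : Cx} {i' : Hom A' B'} {p' : Hom B' C'}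
    (h' : SES i' p') (α : Hom A A') (β : Hom B B') (γ : Hom C C')
    (hi : ∀ n x, β.f n (i.f n x) = i'.f n (α.f n x))
    (hp : ∀ n x, γ.f n (p.f n x) = p'.f n (β.f n x)) (n : ℕ) (y : C.H (n + 1)) :
    α.H n (delta h n y) = delta h' n (γ.H (n + 1) y) := by
  obtain ⟨c, hc, rfl⟩ := H_surj y
  obtain ⟨b, a, rfl, hia, ha⟩ := ses_lift h n c hc
  rw [delta_spec h n b a hc hia ha, H_cls, H_cls]
  have h1 : γ.f (n + 1) (p.f (n + 1) b) = p'.f (n + 1) (β.f (n + 1) b) := hp (n + 1) b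
  have h2 := γ.map_Z (n + 1) hc
  simp only [h1]
  refine (delta_spec h' n (β.f (n + 1) b) (α.f n a) _ ?_ _).symm
  rw [← hi, hia, β.comm]

end Cx
end C715
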