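import Pool.Agent.Work.MP_c71557_gt.H.Defs4

set_option autoImplicit false
set_option linter.unusedVariables false

/-!
# MP_c71557_gt, block H: full subcategories, products of complexes, loops
-/

namespace C715

open CategoryTheory

/-- full subcategory -/
@[ext] structure FSub {C : Type} [SmallCategory C] (P : C → Prop) where
  o : C
  h : P o

instance {C : Type} [SmallCategory C] (P : C → Prop) : SmallCategory (FSub P) where
  Hom a b := a.o ⟶ b.o
  id a := 𝟙 a.o
  comp f g := f ≫ g

/-- inclusion -/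
def FSub.incl {C : Type} [SmallCategory C] (P : C → Prop) : FSub P ⥤ C where
  obj a := a.o
  map f := f

/-- functor between full subcategories -/
def FSub.map {C D : Type} [SmallCategory C] [SmallCategory D] (F : C ⥤ D) (P : C → Prop)
    (Q : D → Prop) (h : ∀ c, P c → Q (F.obj c)) : FSub P ⥤ FSub Q where
  obj a := ⟨F.obj a.o, h a.o a.h⟩
  map {a b} f := (F.map (show a.o ⟶ b.o from f) : F.obj a.o ⟶ F.obj b.o)
  map_id a := F.map_id a.o
  map_comp {a b c} f g := F.map_comp (show a.o ⟶ b.o from f) (show b.o ⟶ c.o from g)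

/-- product of complexes -/
def Cx.prod (A B : Cx) : Cx where
  X n := A.X n × B.X n
  d n := LinearMap.prodMap (A.d n) (B.d n)
  dd n x := Prod.ext (A.dd n x.1) (B.dd n x.2)

section loops

variable {C : Type} [SmallCategory C] {D : Type} [SmallCategory D]

/-- object as a simplex -/
def Sx.pt (c : C) : Sx C 0 where
  o _ := c
  m _ _ _ := 𝟙 c
  m_self _ := rfl
  m_comp _ _ _ _ _ := Category.id_comp _

/-- arrow as a simplex -/
def Sx.arr {a b : C} (f : a ⟶ b) : Sx C 1 := Sx.cons a (Sx.pt b) f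

theorem pre0_arr {a b : C} (f : a ⟶ b) : pre (dl 0) (Sx.arr f) = Sx.pt b := rfl

theorem Sx.ext0 {σ τ : Sx C 0} (h : σ.o 0 = τ.o 0) : σ = τ := by
  obtain ⟨o, m, ms, mc⟩ := σ
  obtain ⟨o', m', ms', mc'⟩ := τ
  have ho : o = o' := funext fun i => by
    obtain rfl : i = 0 := Fin.fin_one_eq_zero i
    exact h
  subst ho
  have hm : m = m' := by
    funext i j hij
    obtain rfl : i = 0 := Fin.fin_one_eq_zero i
    obtain rfl : j = 0 := Fin.fin_one_eq_zero j
    exact (ms 0).trans (ms' 0).symm
  subst hm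
  rfl

theorem pre1_arr {a b : C} (f : a ⟶ b) : pre (dl 1) (Sx.arr f) = Sx.pt a := Sx.ext0 rfl

theorem NC_d_arr {a b : C} (f : a ⟶ b) (x : ℚ) :
    (NC C).d 0 (Finsupp.single (Sx.arr f) x) =
      Finsupp.single (Sx.pt b) x - Finsupp.single (Sx.pt a) x := by
  rw [NC_d_single, Fin.sum_univ_two, pre0_arr, pre1_arr]
  simp [sub_eq_add_neg]

/-- class of a loop -/
noncomputable def lp {a : C} (f : a ⟶ a) : HC C 1 :=
  (NC C).cls 1 (Finsupp.single (Sx.arr f) 1) (by
    change (NC C).d 0 _ = 0
    rw [NC_d_arr, sub_self])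

end loops
end C715
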