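import Pool.Agent.Work.MP_c71557_gt.H.Rows
import Pool.Agent.Work.MP_c71557_gt.H.Equiv

set_option autoImplicit false

/-!
# MP_c71557_gt, module H/OvIso: simplices over `b` are simplices of `CostructuredArrow R b` (M)

* `exists_ovIso`: the map `σ ↦ (σ.push proj, (σ (last)).hom)` is a bijection
  `Sx (CostructuredArrow R b) n → OvS R b n`: inverse: objects `i ↦ mk (R τ_{i,n} ≫ f)`, arrows
  `CostructuredArrow.homMk (τ.m i j)`.  It commutes with `pre` (the arrow to `b` of the object `φ(m)`
  is the composite with the arrow to the last object: `CostructuredArrow.w`).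
* naturality in `b` (`CostructuredArrow.map u`) and compatibility with the projection to `T`.
* `ov_acy`: if `CostructuredArrow R b` is acyclic then the augmented complex
  `… → ℚ[OvS R b 1] → ℚ[OvS R b 0] → ℚ → 0` is exact.
* `eps2_qis`: apply `DCx.ColAug.qis` to `eps2 R`: the columns are direct sums over `σ ∈ N_p B` of
  the augmented complexes of `ovS R (σ 0)`, exact by `ov_acy` (to solve `dv y = x` decompose
  `x = ∑ bof σ x_σ`: use the components of the direct sum; `dv (bof σ y) = bof σ (alt y)`).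
-/

namespace C715

open CategoryTheory

variable {T B : Type} [SmallCategory T] [SmallCategory B]

namespace OvIso

theorem ext_heq {C : Type} [SmallCategory C] {n : ℕ} {σ τ : Sx C n}
    (ho : ∀ i, σ.o i = τ.o i) (hm : ∀ i j h, HEq (σ.m i j h) (τ.m i j h)) : σ = τ := by
  cases σ with
  | mk o m h1 h2 =>
    cases τ with
    | mk o' m' h1' h2' =>
      have h : o = o' := funext ho
      subst h
      have h' : m = m' := by
        funext i j h
        exact eq_of_heq (hm i j h)
      subst h'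
      rfl

/-- a simplex of `R / b` as a simplex over `b` -/
abbrev io (R : T ⥤ B) (b : B) (n : ℕ) (σ : Sx (CostructuredArrow R b) n) : OvS R b n :=
  ⟨σ.push (CostructuredArrow.proj R b), (σ.o (Fin.last n)).hom⟩

/-- the inverse -/
def inv (R : T ⥤ B) (b : B) (n : ℕ) (x : OvS R b n) : Sx (CostructuredArrow R b) n where
  o i := CostructuredArrow.mk (R.map (x.τ.m i (Fin.last n) (Fin.le_last _)) ≫ x.f)
  m i j h := CostructuredArrow.homMk (x.τ.m i j h) (by
    change R.map _ ≫ R.map _ ≫ x.f = R.map _ ≫ x.f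
    rw [← Category.assoc, ← R.map_comp, x.τ.m_comp])
  m_self i := by
    ext
    exact x.τ.m_self i
  m_comp i j k h h' := by
    ext
    exact x.τ.m_comp i j k h h'

theorem io_inv (R : T ⥤ B) (b : B) (n : ℕ) (x : OvS R b n) : io R b n (inv R b n x) = x := by
  cases x with
  | mk τ f =>
    have h : R.map (τ.m (Fin.last n) (Fin.last n) (Fin.le_last _)) ≫ f = f := by
      rw [τ.m_self, R.map_id, Category.id_comp]
    exact congrArg (OvS.mk τ) h

theorem hom_heq {R : T ⥤ B} {b : B} {X Y X' Y' : CostructuredArrow R b} (hX : X = X') (hY : Y = Y')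
    (f : X ⟶ Y) (g : X' ⟶ Y') (h : HEq f.left g.left) : HEq f g := by
  subst hX
  subst hY
  refine heq_of_eq ?_
  ext
  exact eq_of_heq h

theorem inv_io (R : T ⥤ B) (b : B) (n : ℕ) (σ : Sx (CostructuredArrow R b) n) :
    inv R b n (io R b n σ) = σ := by
  have ho : ∀ i, (inv R b n (io R b n σ)).o i = σ.o i := by
    intro i
    have h := CostructuredArrow.w (σ.m i (Fin.last n) (Fin.le_last _))
    exact (congrArg CostructuredArrow.mk h).trans (CostructuredArrow.eq_mk _).symm
  refine ext_heq ho (fun i j h => ?_)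
  exact hom_heq (ho i) (ho j) _ _ HEq.rfl

theorem io_bij (R : T ⥤ B) (b : B) (n : ℕ) : Function.Bijective (io R b n) :=
  ⟨Function.LeftInverse.injective (inv_io R b n), Function.RightInverse.surjective (io_inv R b n)⟩

theorem io_pre (R : T ⥤ B) (b : B) {m n : ℕ} (φ : Fin (m + 1) →o Fin (n + 1))
    (σ : Sx (CostructuredArrow R b) n) : io R b m (pre φ σ) = OvS.pre φ (io R b n σ) := by
  have h := CostructuredArrow.w (σ.m (φ (Fin.last m)) (Fin.last n) (Fin.le_last _))
  exact congrArg (OvS.mk _) h.symm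

end OvIso

theorem exists_ovIso (R : T ⥤ B) (b : B) :
    ∃ f : Cx.Hom (NC (CostructuredArrow R b)) (ovS R b).cx, (∀ n, Function.Bijective (f.f n)) ∧
      ∀ n (σ : Sx (CostructuredArrow R b) n) (a : ℚ), f.f n (Finsupp.single σ a) =
        Finsupp.single (⟨σ.push (CostructuredArrow.proj R b), (σ.o (Fin.last n)).hom⟩ :
          OvS R b n) a := by
  let g : SMod.Hom (NS (CostructuredArrow R b)) (ovS R b) :=
    { f := fun n => Finsupp.lmapDomain ℚ ℚ (OvIso.io R b n)
      comm := by
        intro m n φ x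
        change Finsupp.mapDomain _ (Finsupp.mapDomain _
          (x : Sx (CostructuredArrow R b) n →₀ ℚ)) = Finsupp.mapDomain _ (Finsupp.mapDomain _
            (x : Sx (CostructuredArrow R b) n →₀ ℚ))
        rw [← Finsupp.mapDomain_comp, ← Finsupp.mapDomain_comp]
        congr 1
        exact funext fun σ => OvIso.io_pre R b φ σ }
  refine ⟨g.cx, fun n => ⟨?_, ?_⟩, fun n σ a => ?_⟩
  · exact Finsupp.mapDomain_injective (OvIso.io_bij R b n).1
  · exact Finsupp.mapDomain_surjective (OvIso.io_bij R b n).2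
  · exact Finsupp.mapDomain_single

/-- the isomorphism `C_*(CostructuredArrow R b) → ℚ[OvS R b]` -/
noncomputable def ovIso (R : T ⥤ B) (b : B) :
    Cx.Hom (NC (CostructuredArrow R b)) (ovS R b).cx := (exists_ovIso R b).choose

theorem ovIso_bij (R : T ⥤ B) (b : B) (n : ℕ) : Function.Bijective ((ovIso R b).f n) :=
  (exists_ovIso R b).choose_spec.1 n

theorem ovIso_single (R : T ⥤ B) (b : B) {n : ℕ} (σ : Sx (CostructuredArrow R b) n) (a : ℚ) :
    (ovIso R b).f n (Finsupp.single σ a) =
      Finsupp.single (⟨σ.push (CostructuredArrow.proj R b), (σ.o (Fin.last n)).hom⟩ :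
        OvS R b n) a :=
  (exists_ovIso R b).choose_spec.2 n σ a

theorem ovIso_nat (R : T ⥤ B) {b b' : B} (u : b ⟶ b') (n : ℕ)
    (x : (NC (CostructuredArrow R b)).X n) :
    (ovIso R b').f n ((NCmap (CostructuredArrow.map u)).f n x) =
      ((overL R).mapAt u).f n ((ovIso R b).f n x) := by
  have : ((ovIso R b').f n).comp ((NCmap (CostructuredArrow.map (S := R) u)).f n) =
      (((overL R).mapAt u).f n).comp ((ovIso R b).f n) := by
    refine Finsupp.lhom_ext fun σ a => ?_
    change (ovIso R b').f n ((NCmap (CostructuredArrow.map u)).f n (Finsupp.single σ a)) =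
      Finsupp.mapDomain (OvS.push u) ((ovIso R b).f n (Finsupp.single σ a))
    rw [NCmap_single, ovIso_single, ovIso_single]
    have h1 := Finsupp.mapDomain_single (M := ℚ) (f := (OvS.push u : OvS R b n → OvS R b' n))
      (a := (⟨σ.push (CostructuredArrow.proj R b), (σ.o (Fin.last n)).hom⟩ : OvS R b n)) (b := a)
    exact h1.symm
  exact LinearMap.congr_fun this x

theorem ov_acy (R : T ⥤ B) (b : B) (h : Acy (CostructuredArrow R b)) :
    (∀ x : OvS R b 0 →₀ ℚ, Finsupp.linearCombination ℚ (fun _ => (1 : ℚ)) x = 0 →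
      ∃ y, (ovS R b).alt 0 y = x) ∧
    (∀ n (x : OvS R b (n + 1) →₀ ℚ), (ovS R b).alt n x = 0 → ∃ y, (ovS R b).alt (n + 1) y = x) ∧
    Nonempty (OvS R b 0) := by
  obtain ⟨⟨c⟩, h0, h1⟩ := h
  refine ⟨fun x hx => ?_, fun n x hx => ?_, ?_⟩
  · obtain ⟨x', rfl⟩ := (ovIso_bij R b 0).2 x
    have ha : Finsupp.linearCombination ℚ (fun _ : Sx (CostructuredArrow R b) 0 => (1 : ℚ)) x' =
        0 := by
      have h2 : (Finsupp.linearCombination ℚ (fun _ : OvS R b 0 => (1 : ℚ))).comp
          ((ovIso R b).f 0) =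
          Finsupp.linearCombination ℚ (fun _ : Sx (CostructuredArrow R b) 0 => (1 : ℚ)) := by
        refine Finsupp.lhom_ext fun σ a => ?_
        change Finsupp.linearCombination ℚ _ ((ovIso R b).f 0 (Finsupp.single σ a)) = _
        rw [ovIso_single, Finsupp.linearCombination_single, Finsupp.linearCombination_single]
      rw [← h2]
      exact hx
    obtain ⟨y, hy⟩ := h0 x' ha
    refine ⟨(ovIso R b).f 1 y, ?_⟩
    have := (ovIso R b).comm 0 y
    rw [hy] at this
    exact this.symm
  · obtain ⟨x', rfl⟩ := (ovIso_bij R b (n + 1)).2 x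
    have hz : x' ∈ (NC (CostructuredArrow R b)).Z (n + 1) := by
      rw [Cx.mem_Z_succ]
      refine (ovIso_bij R b n).1 ?_
      rw [(ovIso R b).comm, map_zero]
      exact hx
    obtain ⟨y, hy⟩ := Cx.H_subsingleton.1 (h1 n) x' hz
    refine ⟨(ovIso R b).f (n + 2) y, ?_⟩
    have := (ovIso R b).comm (n + 1) y
    rw [hy] at this
    exact this.symm
  · refine ⟨OvS.pre (n := 0) OrderHom.id (OvIso.io R b 0 ?_)⟩
    exact { o := fun _ => c, m := fun _ _ _ => 𝟙 c, m_self := fun _ => rfl,
            m_comp := fun _ _ _ _ _ => Category.comp_id _ }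

namespace OvIso

variable {C : Type} [SmallCategory C]

/-- component of a chain with coefficients -/
noncomputable def cmp (F : Coef C) {n : ℕ} (σ : Sx C n) : BarX F n →ₗ[ℚ] F.M (σ.o 0) :=
  DirectSum.component ℚ (Sx C n) (fun τ : Sx C n => F.M (τ.o 0)) σ

theorem cmp_self (F : Coef C) {n : ℕ} (σ : Sx C n) (y : F.M (σ.o 0)) :
    cmp F σ (bof F σ y) = y := by
  classical
  unfold cmp bof
  exact DirectSum.component.lof_self ℚ (M := fun τ : Sx C n => F.M (τ.o 0)) σ y

theorem cmp_ne (F : Coef C) {n : ℕ} {σ τ : Sx C n} (h : τ ≠ σ) (y : F.M (τ.o 0)) :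
    cmp F σ (bof F τ y) = 0 := by
  classical
  unfold cmp bof
  refine (DirectSum.component.of ℚ (M := fun τ : Sx C n => F.M (τ.o 0)) σ τ y).trans ?_
  rw [dif_neg h]

theorem sum_cmp (F : Coef C) {n : ℕ} (x : BarX F n) :
    ∃ s : Finset (Sx C n), (∑ σ ∈ s, bof F σ (cmp F σ x)) = x := by
  classical
  refine ⟨DFinsupp.support x, ?_⟩
  exact DirectSum.sum_support_of x

theorem barHom_bof {F G : Coef C} (α : Coef.Hom F G) {n : ℕ} (σ : Sx C n) (y : F.M (σ.o 0)) :
    (barHom α).f n (bof F σ y) = bof G σ (α.f _ y) := bdesc_bof _ _ _ _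

theorem cmp_barHom {F G : Coef C} (α : Coef.Hom F G) {n : ℕ} (σ : Sx C n) (x : BarX F n) :
    cmp G σ ((barHom α).f n x) = α.f _ (cmp F σ x) := by
  induction x using bar_ind with
  | h0 => simp only [map_zero]
  | h1 τ y =>
    rw [barHom_bof]
    by_cases h : τ = σ
    · subst h
      rw [cmp_self, cmp_self]
    · rw [cmp_ne _ h, cmp_ne _ h, map_zero]
  | h2 x y hx hy => simp only [map_add, hx, hy]

theorem solve {F G : Coef C} (α : Coef.Hom F G) {n : ℕ} (x : BarX G n)
    (h : ∀ σ : Sx C n, ∃ y, α.f (σ.o 0) y = cmp G σ x) : ∃ y, (barHom α).f n y = x := by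
  choose y hy using h
  obtain ⟨s, hs⟩ := sum_cmp G x
  refine ⟨∑ σ ∈ s, bof F σ (y σ), ?_⟩
  rw [map_sum]
  refine (Finset.sum_congr rfl fun σ _ => ?_).trans hs
  rw [barHom_bof, hy]

end OvIso

theorem eps2_qis (R : T ⥤ B) (h : ∀ b, Acy (CostructuredArrow R b)) : Cx.Qis (eps2 R).hom := by
  classical
  have he : ∀ p (σ : Sx B p) (y : OvS R (σ.o 0) 0 →₀ ℚ), (eps2 R).e p (bof (ovF R 0) σ y) =
      Finsupp.single σ (Finsupp.linearCombination ℚ (fun _ : OvS R (σ.o 0) 0 => (1 : ℚ)) y) := by
    intro p σ y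
    exact bdesc_bof _ _ _ _
  refine DCx.ColAug.qis (eps2 R) (fun p => ?_) (fun p x hx => ?_) (fun p q x hx => ?_)
  · intro z
    induction z using Finsupp.induction_linear with
    | zero => exact ⟨0, map_zero _⟩
    | add f g hf hg =>
      obtain ⟨a, rfl⟩ := hf
      obtain ⟨b, rfl⟩ := hg
      exact ⟨a + b, map_add _ _ _⟩
    | single σ a =>
      obtain ⟨x⟩ := (ov_acy R (σ.o 0) (h _)).2.2
      refine ⟨bof (ovF R 0) σ (Finsupp.single x a : OvS R (σ.o 0) 0 →₀ ℚ), ?_⟩
      rw [he, Finsupp.linearCombination_single]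
      simp
  · refine OvIso.solve ((overL R).d 0) x fun σ => ?_
    refine (ov_acy R (σ.o 0) (h _)).1 _ ?_
    have key : ∀ x : BarX (ovF R 0) p, ((eps2 R).e p x : Sx B p →₀ ℚ) σ =
        Finsupp.linearCombination ℚ (fun _ : OvS R (σ.o 0) 0 => (1 : ℚ))
          (OvIso.cmp (ovF R 0) σ x) := by
      intro x
      induction x using bar_ind with
      | h0 => simp only [map_zero]; rfl
      | h1 τ y =>
        rw [he]
        by_cases hτ : τ = σ
        · subst hτ
          rw [OvIso.cmp_self, Finsupp.single_eq_same]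
        · rw [OvIso.cmp_ne _ hτ, map_zero]
          exact Finsupp.single_eq_of_ne (Ne.symm hτ)
      | h2 x y hx hy =>
        rw [map_add, map_add, map_add, ← hx, ← hy]
        rfl
    rw [← key, hx]
    rfl
  · refine OvIso.solve ((overL R).d (q + 1)) x fun σ => ?_
    refine (ov_acy R (σ.o 0) (h _)).2.1 q _ ?_
    have h2 := OvIso.cmp_barHom ((overL R).d q) σ x
    have hx' : (barHom ((overL R).d q)).f p x = 0 := hx
    rw [hx', map_zero] at h2
    exact h2.symm

end C715
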