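import Pool.Agent.Work.MP_c71557_gt.H.Eps1
import Pool.Agent.Work.MP_c71557_gt.H.OvIso

set_option autoImplicit false

/-!
# MP_c71557_gt, module H/AW: the two augmentations agree (M-L)

`eps2 = R_* ∘ eps1` on homology.

PROOF.  Naturality: the map of double complexes `hoco (overL R) → hoco (overL (𝟭 B))`,
`(σ, (τ, f)) ↦ (σ, (τ.push R, f))` is compatible with both augmentations (`eps1`: followed by
`NCmap R`; `eps2`: the same).  So it is enough to treat `R = 𝟭 B`, where both `eps1` (`eps1_qis`)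
and `eps2` (`eps2_qis`: `CostructuredArrow (𝟭 B) b` has a terminal object) are
quasi-isomorphisms.  For `R = 𝟭 B` there is the Alexander-Whitney chain map
`Δ : NC B → Tot (hoco (overL (𝟭 B)))`, whose `(p,q)` component (`p + q = n`) on a simplex `x` is
the pair (back face `x_q … x_n`, front face `(x_0 … x_q)` with arrow `𝟙 : x_q → x_q`), with sign
`(-1)^{p q}` (to be adjusted to the convention `totd = dh + (-1)^p dv`; check: one wants
`totd (Δ x) = Δ (d x)`; the faces `dl i` with `i < q` of `x` give the faces of the front part, the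
faces with `i > q` those of the back part with sign `(-1)^q`, and the terms last face of the front
`(q+1)`-part and face `0` of the back `(p+1)`-part coincide: both are
`(x_{q+1} … x_n ; (x_0 … x_q), x_q → x_{q+1})`, and cancel).  Then `eps1 ∘ Δ = id` and
`eps2 ∘ Δ = id`, so on homology `Δ = eps1⁻¹ = eps2⁻¹`, hence `eps1 = eps2`.
-/

namespace C715

open CategoryTheory

variable {T B : Type} [SmallCategory T] [SmallCategory B]

namespace AW

open Eps1

/-- the pair (back part, front part) of a simplex -/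
noncomputable def P {p q n : ℕ} (x : Sx B n) (φ : Fin (p + 1) →o Fin (n + 1))
    (ψ : Fin (q + 1) →o Fin (n + 1)) (h : ψ (Fin.last q) ≤ φ 0) : BarX (ovF (𝟭 B) q) p :=
  pt (𝟭 B) q (pre φ x) ⟨pre ψ x, x.m (ψ (Fin.last q)) (φ 0) h⟩

theorem P_congr {p q n : ℕ} (x : Sx B n) {φ φ' : Fin (p + 1) →o Fin (n + 1)}
    {ψ ψ' : Fin (q + 1) →o Fin (n + 1)} (hφ : φ = φ') (hψ : ψ = ψ') (h : ψ (Fin.last q) ≤ φ 0)
    (h' : ψ' (Fin.last q) ≤ φ' 0) : P x φ ψ h = P x φ' ψ' h' := by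
  subst hφ
  subst hψ
  rfl

theorem P_pre {p q n m : ℕ} (x : Sx B n) (θ : Fin (m + 1) →o Fin (n + 1))
    (φ : Fin (p + 1) →o Fin (m + 1)) (ψ : Fin (q + 1) →o Fin (m + 1))
    (h : ψ (Fin.last q) ≤ φ 0) :
    P (pre θ x) φ ψ h = P x (θ.comp φ) (θ.comp ψ) (θ.monotone h) := rfl

theorem dh_P {p q n : ℕ} (x : Sx B n) (φ : Fin (p + 2) →o Fin (n + 1))
    (ψ : Fin (q + 1) →o Fin (n + 1)) (h : ψ (Fin.last q) ≤ φ 0) :
    (barC (ovF (𝟭 B) q)).d p (P x φ ψ h) = ∑ i : Fin (p + 2), ((-1 : ℚ) ^ (i : ℕ)) •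
      P x (φ.comp (dl i)) ψ (h.trans (φ.monotone (Fin.zero_le _))) := by
  unfold P
  rw [d_pt]
  refine Finset.sum_congr rfl fun i _ => ?_
  congr 1
  refine pt_congr _ _ rfl rfl (heq_of_eq ?_)
  exact x.m_comp _ _ _ _ _

theorem dv_P {p q n : ℕ} (x : Sx B n) (φ : Fin (p + 1) →o Fin (n + 1))
    (ψ : Fin (q + 2) →o Fin (n + 1)) (h : ψ (Fin.last (q + 1)) ≤ φ 0) :
    (barHom ((overL (𝟭 B)).d q)).f p (P x φ ψ h) = ∑ j : Fin (q + 2), ((-1 : ℚ) ^ (j : ℕ)) •
      P x φ (ψ.comp (dl j)) ((ψ.monotone (Fin.le_last _)).trans h) := by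
  unfold P pt
  refine (OvIso.barHom_bof _ _ _).trans ?_
  change (bof (ovF (𝟭 B) q) (pre φ x)) ((ovS (𝟭 B) _).alt q _) = _
  rw [SMod.alt_apply, map_sum]
  refine Finset.sum_congr rfl fun j _ => ?_
  rw [map_smul]
  congr 1
  congr 1
  refine (Finsupp.mapDomain_single).trans ?_
  congr 1
  have h1 := x.m_comp (ψ (dl j (Fin.last q))) (ψ (Fin.last (q + 1))) (φ 0)
    (ψ.monotone (Fin.le_last _)) h
  exact congrArg (OvS.mk _) h1

/-- front part -/
def fr {p q n : ℕ} (h : p + q = n) : Fin (q + 1) →o Fin (n + 1) where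
  toFun i := ⟨i.1, by omega⟩
  monotone' i j hij := by simpa using hij

/-- back part -/
def bk {p q n : ℕ} (h : p + q = n) : Fin (p + 1) →o Fin (n + 1) where
  toFun i := ⟨q + i.1, by omega⟩
  monotone' i j hij := by simpa using hij

theorem fr_bk {p q n : ℕ} (h : p + q = n) : fr h (Fin.last q) ≤ bk h 0 := by
  change (q : ℕ) ≤ q + 0
  omega

/-- components of the Alexander-Whitney map -/
noncomputable def Dc (n p q : ℕ) : (Sx B n →₀ ℚ) →ₗ[ℚ] BarX (ovF (𝟭 B) q) p :=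
  if h : p + q = n then Finsupp.linearCombination ℚ fun x : Sx B n =>
    ((-1 : ℚ) ^ (p * q)) • P x (bk h) (fr h) (fr_bk h) else 0

theorem Dc_single {n p q : ℕ} (h : p + q = n) (x : Sx B n) :
    Dc n p q (Finsupp.single x 1) = ((-1 : ℚ) ^ (p * q)) • P x (bk h) (fr h) (fr_bk h) := by
  unfold Dc
  rw [dif_pos h, Finsupp.linearCombination_single, one_smul]

theorem Dc_ne {n p q : ℕ} (h : p + q ≠ n) (x : Sx B n →₀ ℚ) : Dc n p q x = 0 := by
  unfold Dc
  rw [dif_neg h]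
  rfl

theorem oh_ext {m n : ℕ} {φ ψ : Fin (m + 1) →o Fin (n + 1)}
    (h : ∀ i, ((φ i : Fin (n + 1)) : ℕ) = (ψ i : Fin (n + 1))) : φ = ψ :=
  OrderHom.ext _ _ (funext fun i => Fin.ext (h i))

theorem dl_val {n : ℕ} (i : Fin (n + 2)) (k : Fin (n + 1)) :
    ((dl i k : Fin (n + 2)) : ℕ) = if (k : ℕ) < i then (k : ℕ) else (k : ℕ) + 1 := by
  rw [dl_apply, Fin.succAbove]
  by_cases h : (k : ℕ) < i
  · rw [if_pos (show k.castSucc < i from h), if_pos h]
    rfl
  · rw [if_neg (show ¬ k.castSucc < i from h), if_neg h]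
    rfl

theorem keyA {p q n : ℕ} (h : p + q = n) (h1 : (p + 1) + q = n + 1) (e : (q + 1) + (p + 1) = n + 2)
    (x : Sx B (n + 1)) (i : Fin (p + 1)) :
    P x ((bk h1).comp (dl i.succ)) (fr h1) ((fr_bk h1).trans ((bk h1).monotone (Fin.zero_le _))) =
      P (pre (dl (Fin.cast e (Fin.natAdd (q + 1) i))) x) (bk h) (fr h) (fr_bk h) := by
  rw [P_pre]
  refine P_congr x (oh_ext fun j => ?_) (oh_ext fun j => ?_) _ _
  · change q + (dl i.succ j : ℕ) = (dl (Fin.cast e (Fin.natAdd (q + 1) i)) (bk h j) : ℕ)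
    rw [dl_val, dl_val]
    change q + (if (j : ℕ) < i.1 + 1 then (j : ℕ) else (j : ℕ) + 1) =
      if q + j.1 < q + 1 + i.1 then q + j.1 else q + j.1 + 1
    split_ifs <;> omega
  · change (j : ℕ) = (dl (Fin.cast e (Fin.natAdd (q + 1) i)) (fr h j) : ℕ)
    rw [dl_val]
    change (j : ℕ) = if j.1 < q + 1 + i.1 then j.1 else j.1 + 1
    have := j.2
    split_ifs <;> omega

theorem keyB {p q n : ℕ} (h : p + q = n) (h2 : p + (q + 1) = n + 1)
    (e : (q + 1) + (p + 1) = n + 2) (x : Sx B (n + 1)) (j : Fin (q + 1)) :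
    P x (bk h2) ((fr h2).comp (dl j.castSucc))
        (((fr h2).monotone (Fin.le_last _)).trans (fr_bk h2)) =
      P (pre (dl (Fin.cast e (Fin.castAdd (p + 1) j))) x) (bk h) (fr h) (fr_bk h) := by
  rw [P_pre]
  refine P_congr x (oh_ext fun i => ?_) (oh_ext fun i => ?_) _ _
  · change q + 1 + (i : ℕ) = (dl (Fin.cast e (Fin.castAdd (p + 1) j)) (bk h i) : ℕ)
    rw [dl_val]
    change q + 1 + (i : ℕ) = if q + i.1 < j.1 then q + i.1 else q + i.1 + 1
    have := j.2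
    split_ifs <;> omega
  · change (dl j.castSucc i : ℕ) = (dl (Fin.cast e (Fin.castAdd (p + 1) j)) (fr h i) : ℕ)
    rw [dl_val, dl_val]
    rfl

theorem keyC {p q n : ℕ} (h1 : (p + 1) + q = n + 1) (h2 : p + (q + 1) = n + 1)
    (x : Sx B (n + 1)) :
    P x ((bk h1).comp (dl 0)) (fr h1) ((fr_bk h1).trans ((bk h1).monotone (Fin.zero_le _))) =
      P x (bk h2) ((fr h2).comp (dl (Fin.last (q + 1))))
        (((fr h2).monotone (Fin.le_last _)).trans (fr_bk h2)) := by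
  refine P_congr x (oh_ext fun i => ?_) (oh_ext fun i => ?_) _ _
  · change q + (dl 0 i : ℕ) = q + 1 + (i : ℕ)
    rw [dl_val]
    change q + (if (i : ℕ) < 0 then (i : ℕ) else (i : ℕ) + 1) = _
    rw [if_neg (by omega)]
    omega
  · change (i : ℕ) = (dl (Fin.last (q + 1)) i : ℕ)
    rw [dl_val]
    change (i : ℕ) = if i.1 < q + 1 then i.1 else i.1 + 1
    rw [if_pos i.2]

theorem key {p q n : ℕ} (h : p + q = n) (x : Sx B (n + 1)) :
    (barC (ovF (𝟭 B) q)).d p (Dc (n + 1) (p + 1) q (Finsupp.single x 1)) +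
      ((-1 : ℚ) ^ p) • (barHom ((overL (𝟭 B)).d q)).f p (Dc (n + 1) p (q + 1)
        (Finsupp.single x 1)) = Dc n p q ((NC B).d n (Finsupp.single x 1)) := by
  have h1 : (p + 1) + q = n + 1 := by omega
  have h2 : p + (q + 1) = n + 1 := by omega
  have e : (q + 1) + (p + 1) = n + 2 := by omega
  rw [Dc_single h1, Dc_single h2, NC_d_single]
  simp only [map_smul, map_sum]
  simp only [Dc_single h]
  rw [dh_P, dv_P]
  have s1 : (∑ i : Fin (p + 2), ((-1 : ℚ) ^ (i : ℕ)) • P x ((bk h1).comp (dl i)) (fr h1)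
      ((fr_bk h1).trans ((bk h1).monotone (Fin.zero_le _)))) =
      P x (bk h2) ((fr h2).comp (dl (Fin.last (q + 1))))
        (((fr h2).monotone (Fin.le_last _)).trans (fr_bk h2)) +
      ∑ i : Fin (p + 1), ((-1 : ℚ) ^ ((i : ℕ) + 1)) •
        P (pre (dl (Fin.cast e (Fin.natAdd (q + 1) i))) x) (bk h) (fr h) (fr_bk h) := by
    rw [Fin.sum_univ_succ (fun i : Fin (p + 2) => ((-1 : ℚ) ^ (i : ℕ)) •
      P x ((bk h1).comp (dl i)) (fr h1) ((fr_bk h1).trans ((bk h1).monotone (Fin.zero_le _))))]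
    congr 1
    · rw [Fin.val_zero, pow_zero, one_smul]
      exact keyC h1 h2 x
    · refine Finset.sum_congr rfl fun i _ => ?_
      rw [Fin.val_succ]
      congr 1
      exact keyA h h1 e x i
  have s2 : (∑ j : Fin (q + 2), ((-1 : ℚ) ^ (j : ℕ)) • P x (bk h2) ((fr h2).comp (dl j))
      (((fr h2).monotone (Fin.le_last _)).trans (fr_bk h2))) =
      (∑ j : Fin (q + 1), ((-1 : ℚ) ^ (j : ℕ)) •
        P (pre (dl (Fin.cast e (Fin.castAdd (p + 1) j))) x) (bk h) (fr h) (fr_bk h)) +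
      ((-1 : ℚ) ^ (q + 1)) • P x (bk h2) ((fr h2).comp (dl (Fin.last (q + 1))))
        (((fr h2).monotone (Fin.le_last _)).trans (fr_bk h2)) := by
    rw [Fin.sum_univ_castSucc (fun j : Fin (q + 2) => ((-1 : ℚ) ^ (j : ℕ)) •
      P x (bk h2) ((fr h2).comp (dl j)) (((fr h2).monotone (Fin.le_last _)).trans (fr_bk h2)))]
    congr 1
    refine Finset.sum_congr rfl fun j _ => ?_
    rw [Fin.val_castSucc]
    congr 1
    exact keyB h h2 e x j
  have s3 : (∑ k : Fin (n + 2), ((-1 : ℚ) ^ (k : ℕ)) • ((-1 : ℚ) ^ (p * q)) •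
      P (pre (dl k) x) (bk h) (fr h) (fr_bk h)) =
      (∑ j : Fin (q + 1), ((-1 : ℚ) ^ (j : ℕ)) • ((-1 : ℚ) ^ (p * q)) •
        P (pre (dl (Fin.cast e (Fin.castAdd (p + 1) j))) x) (bk h) (fr h) (fr_bk h)) +
      ∑ i : Fin (p + 1), ((-1 : ℚ) ^ (q + 1 + (i : ℕ))) • ((-1 : ℚ) ^ (p * q)) •
        P (pre (dl (Fin.cast e (Fin.natAdd (q + 1) i))) x) (bk h) (fr h) (fr_bk h) := by
    rw [← Fin.sum_congr' _ e, Fin.sum_univ_add]
    rfl
  refine Eq.trans ?_ s3.symm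
  rw [s1, s2]
  have hs : ((-1 : ℚ) ^ p) * ((-1 : ℚ) ^ p) = 1 := by
    rw [← mul_pow]; norm_num
  have hq : ((-1 : ℚ) ^ q) * ((-1 : ℚ) ^ q) = 1 := by
    rw [← mul_pow]; norm_num
  generalize P x (bk h2) ((fr h2).comp (dl (Fin.last (q + 1))))
        (((fr h2).monotone (Fin.le_last _)).trans (fr_bk h2)) = C
  rw [smul_add, smul_add, smul_add, Finset.smul_sum, Finset.smul_sum, Finset.smul_sum]
  have e1 : ((-1 : ℚ) ^ ((p + 1) * q)) • C + ((-1 : ℚ) ^ p) • ((-1 : ℚ) ^ (p * (q + 1))) •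
      ((-1 : ℚ) ^ (q + 1)) • C = 0 := by
    rw [smul_smul, smul_smul, ← add_smul]
    have : ((-1 : ℚ) ^ ((p + 1) * q)) + ((-1 : ℚ) ^ p) * ((-1 : ℚ) ^ (p * (q + 1))) *
        ((-1 : ℚ) ^ (q + 1)) = 0 := by
      have h3 : ((-1 : ℚ) ^ ((p + 1) * q)) = ((-1 : ℚ) ^ (p * q)) * ((-1 : ℚ) ^ q) := by
        rw [← pow_add]; congr 1; ring
      have h4 : ((-1 : ℚ) ^ (p * (q + 1))) = ((-1 : ℚ) ^ (p * q)) * ((-1 : ℚ) ^ p) := by
        rw [← pow_add]; congr 1
      rw [h3, h4, pow_succ]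
      linear_combination (-((-1 : ℚ) ^ (p * q)) * ((-1 : ℚ) ^ q)) * hs
    rw [this, zero_smul]
  have e2 : ∀ i : Fin (p + 1), ((-1 : ℚ) ^ ((p + 1) * q)) • ((-1 : ℚ) ^ ((i : ℕ) + 1)) •
        P (pre (dl (Fin.cast e (Fin.natAdd (q + 1) i))) x) (bk h) (fr h) (fr_bk h) =
      ((-1 : ℚ) ^ (q + 1 + (i : ℕ))) • ((-1 : ℚ) ^ (p * q)) •
        P (pre (dl (Fin.cast e (Fin.natAdd (q + 1) i))) x) (bk h) (fr h) (fr_bk h) := by
    intro i
    rw [smul_smul, smul_smul, ← pow_add, ← pow_add]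
    congr 2
    ring
  have e3 : ∀ j : Fin (q + 1), ((-1 : ℚ) ^ p) • ((-1 : ℚ) ^ (p * (q + 1))) •
      ((-1 : ℚ) ^ (j : ℕ)) • P (pre (dl (Fin.cast e (Fin.castAdd (p + 1) j))) x) (bk h) (fr h)
        (fr_bk h) = ((-1 : ℚ) ^ (j : ℕ)) • ((-1 : ℚ) ^ (p * q)) •
        P (pre (dl (Fin.cast e (Fin.castAdd (p + 1) j))) x) (bk h) (fr h) (fr_bk h) := by
    intro j
    rw [smul_smul, smul_smul, smul_smul]
    congr 1
    have h4 : ((-1 : ℚ) ^ (p * (q + 1))) = ((-1 : ℚ) ^ (p * q)) * ((-1 : ℚ) ^ p) := by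
      rw [← pow_add]; congr 1
    rw [h4]
    linear_combination (((-1 : ℚ) ^ (p * q)) * ((-1 : ℚ) ^ (j : ℕ))) * hs
  rw [Finset.sum_congr rfl fun i _ => e2 i, Finset.sum_congr rfl fun j _ => e3 j]
  have fin : ∀ a b S U : BarX (ovF (𝟭 B) q) p, a + b = 0 → a + U + (S + b) = S + U := by
    intro a b S U hab
    have : a + U + (S + b) = (a + b) + (S + U) := by abel
    rw [this, hab, zero_add]
  exact fin _ _ _ _ e1

end AW

namespace AW

open Eps1

/-- the Alexander-Whitney chain map -/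
noncomputable def D : Cx.Hom (NC B) (overL (𝟭 B)).hoco.Tot where
  f n := LinearMap.codRestrict _ (LinearMap.pi fun p => LinearMap.pi fun q => Dc n p q)
    (fun x p q h => Dc_ne h x)
  comm n x := by
    refine Subtype.ext (funext fun p => funext fun q => ?_)
    change Dc n p q ((NC B).d n x) = (barC (ovF (𝟭 B) q)).d p (Dc (n + 1) (p + 1) q x) +
      ((-1 : ℚ) ^ p) • (barHom ((overL (𝟭 B)).d q)).f p (Dc (n + 1) p (q + 1) x)
    by_cases h : p + q = n
    · have : (Dc n p q).comp ((NC B).d n) =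
          ((barC (ovF (𝟭 B) q)).d p).comp (Dc (n + 1) (p + 1) q) +
          ((-1 : ℚ) ^ p) • ((barHom ((overL (𝟭 B)).d q)).f p).comp (Dc (n + 1) p (q + 1)) := by
        refine Finsupp.lhom_ext' fun σ => LinearMap.ext_ring ?_
        exact (key h σ).symm
      exact LinearMap.congr_fun this x
    · rw [Dc_ne h, Dc_ne (by omega), Dc_ne (by omega), map_zero, map_zero, smul_zero, add_zero]

theorem eps1_D (n : ℕ) (x : (NC B).X n) : (eps1 (𝟭 B)).hom.f n (D.f n x) = x := by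
  have : ((eps1 (𝟭 B)).e n).comp (Dc n 0 n) = LinearMap.id := by
    refine Finsupp.lhom_ext' fun σ => LinearMap.ext_ring ?_
    change (eps1 (𝟭 B)).e n (Dc n 0 n (Finsupp.single σ 1)) = Finsupp.single σ 1
    rw [Dc_single (by omega), map_smul, P, e_pt, Nat.zero_mul, pow_zero, one_smul]
    congr 1
  exact LinearMap.congr_fun this x

theorem eps2_D (n : ℕ) (x : (NC B).X n) : (eps2 (𝟭 B)).hom.f n (D.f n x) = x := by
  have : ((eps2 (𝟭 B)).e n).comp (Dc n n 0) = LinearMap.id := by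
    refine Finsupp.lhom_ext' fun σ => LinearMap.ext_ring ?_
    change (eps2 (𝟭 B)).e n (Dc n n 0 (Finsupp.single σ 1)) = Finsupp.single σ 1
    rw [Dc_single (by omega), map_smul, P, pt, Nat.mul_zero, pow_zero, one_smul]
    refine (bdesc_bof _ _ _ _).trans ?_
    change Finsupp.single _ (Finsupp.linearCombination ℚ _ (Finsupp.single _ 1)) = _
    rw [Finsupp.linearCombination_single, one_smul]
    congr 1
    have : bk (p := n) (q := 0) (n := n) (by omega) = OrderHom.id := oh_ext fun i => by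
      change 0 + (i : ℕ) = i
      omega
    rw [this]
    rfl
  exact LinearMap.congr_fun this x

/-- the map of double complexes -/
noncomputable def al (R : T ⥤ B) (q : ℕ) : Coef.Hom (ovF R q) (ovF (𝟭 B) q) where
  f c := Finsupp.lmapDomain ℚ ℚ fun x : OvS R c q => (⟨x.τ.push R, x.f⟩ : OvS (𝟭 B) c q)
  comm {a b} u x := by
    change Finsupp.mapDomain _ (Finsupp.mapDomain _ (x : OvS R a q →₀ ℚ)) =
      Finsupp.mapDomain _ (Finsupp.mapDomain _ (x : OvS R a q →₀ ℚ))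
    rw [← Finsupp.mapDomain_comp, ← Finsupp.mapDomain_comp]
    rfl

theorem al_alt (R : T ⥤ B) (q : ℕ) (c : B) (x : OvS R c (q + 1) →₀ ℚ) :
    (al R q).f c ((ovS R c).alt q x) = (ovS (𝟭 B) c).alt q ((al R (q + 1)).f c x) := by
  rw [SMod.alt_apply, SMod.alt_apply, map_sum]
  refine Finset.sum_congr rfl fun i _ => ?_
  rw [map_smul]
  congr 1
  change Finsupp.mapDomain _ (Finsupp.mapDomain _ (x : OvS R c (q + 1) →₀ ℚ)) =
    Finsupp.mapDomain _ (Finsupp.mapDomain _ (x : OvS R c (q + 1) →₀ ℚ))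
  rw [← Finsupp.mapDomain_comp, ← Finsupp.mapDomain_comp]
  rfl

/-- the map of double complexes -/
noncomputable def g (R : T ⥤ B) : DCx.Hom (overL R).hoco (overL (𝟭 B)).hoco where
  f p q := (barHom (al R q)).f p
  hcomm p q x := (barHom (al R q)).comm p x
  vcomm p q x := by
    have : ∀ x : BarX (ovF R (q + 1)) p, (barHom (al R q)).f p ((barHom ((overL R).d q)).f p x) =
        (barHom ((overL (𝟭 B)).d q)).f p ((barHom (al R (q + 1))).f p x) := by
      intro x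
      induction x using bar_ind with
      | h0 => simp only [map_zero]
      | h1 σ y =>
        rw [OvIso.barHom_bof, OvIso.barHom_bof, OvIso.barHom_bof, OvIso.barHom_bof]
        exact congrArg _ (al_alt R q _ y)
      | h2 x y hx hy => simp only [map_add, hx, hy]
    exact this x

theorem al_single (R : T ⥤ B) (q : ℕ) (c : B) (x : OvS R c q) :
    (al R q).f c (Finsupp.single x 1 : OvS R c q →₀ ℚ) =
      (Finsupp.single (⟨x.τ.push R, x.f⟩ : OvS (𝟭 B) c q) 1 : OvS (𝟭 B) c q →₀ ℚ) :=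
  Finsupp.mapDomain_single

theorem al_pt (R : T ⥤ B) (q : ℕ) {p : ℕ} (σ : Sx B p) (x : OvS R (σ.o 0) q) :
    (barHom (al R q)).f p (pt R q σ x) = pt (𝟭 B) q σ ⟨x.τ.push R, x.f⟩ := by
  unfold pt
  rw [OvIso.barHom_bof]
  congr 1
  exact al_single R q _ x

theorem e2_pt (R : T ⥤ B) {p : ℕ} (σ : Sx B p) (x : OvS R (σ.o 0) 0) :
    (eps2 R).e p (pt R 0 σ x) = Finsupp.single σ 1 := by
  unfold pt
  refine (bdesc_bof _ _ _ _).trans ?_
  change Finsupp.single _ (Finsupp.linearCombination ℚ _ (Finsupp.single x 1)) = _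
  rw [Finsupp.linearCombination_single, one_smul]

theorem eps1_g (R : T ⥤ B) (n : ℕ) (x : (overL R).hoco.Tot.X n) :
    (eps1 (𝟭 B)).hom.f n ((g R).tot.f n x) = (NCmap R).f n ((eps1 R).hom.f n x) := by
  have : ((eps1 (𝟭 B)).e n).comp ((barHom (al R n)).f 0) =
      ((NCmap R).f n).comp ((eps1 R).e n) := by
    refine pt_ind R n fun σ x => ?_
    change (eps1 (𝟭 B)).e n ((barHom (al R n)).f 0 (pt R n σ x)) =
      (NCmap R).f n ((eps1 R).e n (pt R n σ x))
    rw [al_pt, e_pt, e_pt, NCmap_single]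
  exact LinearMap.congr_fun this (x.1 0 n)

theorem eps2_g (R : T ⥤ B) (n : ℕ) (x : (overL R).hoco.Tot.X n) :
    (eps2 (𝟭 B)).hom.f n ((g R).tot.f n x) = (eps2 R).hom.f n x := by
  have : ((eps2 (𝟭 B)).e n).comp ((barHom (al R 0)).f n) = (eps2 R).e n := by
    refine pt_ind R 0 fun σ x => ?_
    change (eps2 (𝟭 B)).e n ((barHom (al R 0)).f n (pt R 0 σ x)) = (eps2 R).e n (pt R 0 σ x)
    rw [al_pt, e2_pt, e2_pt]
  exact LinearMap.congr_fun this (x.1 n 0)

end AW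

theorem eps_agree (R : T ⥤ B) (n : ℕ) (y : (overL R).hoco.Tot.H n) :
    (eps2 R).hom.H n y = HCmap R n ((eps1 R).hom.H n y) := by
  have e1 : (AW.g R).tot.comp (eps1 (𝟭 B)).hom = (eps1 R).hom.comp (NCmap R) :=
    Cx.Hom.ext (funext fun n => LinearMap.ext fun x => AW.eps1_g R n x)
  have e2 : (AW.g R).tot.comp (eps2 (𝟭 B)).hom = (eps2 R).hom :=
    Cx.Hom.ext (funext fun n => LinearMap.ext fun x => AW.eps2_g R n x)
  have e3 : (AW.D (B := B)).comp (eps1 (𝟭 B)).hom = Cx.Hom.id _ :=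
    Cx.Hom.ext (funext fun n => LinearMap.ext fun x => AW.eps1_D n x)
  have e4 : (AW.D (B := B)).comp (eps2 (𝟭 B)).hom = Cx.Hom.id _ :=
    Cx.Hom.ext (funext fun n => LinearMap.ext fun x => AW.eps2_D n x)
  have key : ∀ z : (overL (𝟭 B)).hoco.Tot.H n,
      (eps2 (𝟭 B)).hom.H n z = (eps1 (𝟭 B)).hom.H n z := by
    intro z
    have h1 : z = (AW.D (B := B)).H n ((eps1 (𝟭 B)).hom.H n z) := by
      refine (eps1_qis (𝟭 B) n).1 ?_
      rw [← Cx.H_comp (AW.D (B := B)) (eps1 (𝟭 B)).hom, e3, Cx.H_id]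
    conv_lhs => rw [h1]
    rw [← Cx.H_comp (AW.D (B := B)) (eps2 (𝟭 B)).hom, e4, Cx.H_id]
  calc (eps2 R).hom.H n y = ((AW.g R).tot.comp (eps2 (𝟭 B)).hom).H n y := by rw [e2]
    _ = (eps2 (𝟭 B)).hom.H n ((AW.g R).tot.H n y) := Cx.H_comp _ _ _ _
    _ = (eps1 (𝟭 B)).hom.H n ((AW.g R).tot.H n y) := key _
    _ = ((AW.g R).tot.comp (eps1 (𝟭 B)).hom).H n y := (Cx.H_comp _ _ _ _).symm
    _ = ((eps1 R).hom.comp (NCmap R)).H n y := by rw [e1]
    _ = HCmap R n ((eps1 R).hom.H n y) := Cx.H_comp _ _ _ _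

end C715
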