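import Pool.Agent.Work.MP_c71557_gt.H.BarEx

set_option autoImplicit false

/-!
# MP_c71557_gt, module H/Const: constant coefficients (M)

* `exists_constIso`: `(Sx C n →₀ ℚ) ⊗ V ≅ ⨁_σ V`.
* `tens_H`: homology commutes with `⊗ V` (vector spaces are flat): with a basis `I` of `V`,
  `A ⊗ V = A^{(I)}`.  For instance choose linear splittings `X_n = B_n ⊕ H_n ⊕ B_{n-1}`, or use
  exactness of `rTensor V` (`Module.Flat.rTensor_exact`) on `ker d → X → X`.
* `tens_coker`: `(coker f) ⊗ V ≅ coker (f ⊗ V)` (right exactness); only the consequence for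
  homology is stated, for the functor of a point `ptF b`: the complex
  `coker (barPush : barC (const V) on Pt → barC (const V) on C)`.
* `serre_const`: `S.P (H_n(relC (ptF b)) ⊗ V) → S.P (H_n of that complex)`.
-/

namespace C715

open CategoryTheory

variable {C : Type} [SmallCategory C]

theorem exists_constIso (V : Type) [AddCommGroup V] [Module ℚ V] :
    ∃ f : Cx.Hom ((NC C).tens V) (barC (Coef.const C V)), (∀ n, Function.Bijective (f.f n)) ∧
      ∀ n (σ : Sx C n) (a : ℚ) (v : V),
        f.f n (TensorProduct.tmul ℚ (Finsupp.single σ a) v) = bof (Coef.const C V) σ (a • v) := by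
  let f : ∀ n, TensorProduct ℚ (Sx C n →₀ ℚ) V →ₗ[ℚ] BarX (Coef.const C V) n := fun n =>
    TensorProduct.lift (Finsupp.lsum ℚ fun σ : Sx C n =>
      (LinearMap.lsmul ℚ V).compr₂ (bof (Coef.const C V) σ))
  have hf : ∀ n (σ : Sx C n) (a : ℚ) (v : V),
      f n (TensorProduct.tmul ℚ (Finsupp.single σ a) v) = bof (Coef.const C V) σ (a • v) := by
    intro n σ a v
    change TensorProduct.lift _ _ = _
    rw [TensorProduct.lift.tmul, Finsupp.lsum_single]
    rfl
  let g : ∀ n, BarX (Coef.const C V) n →ₗ[ℚ] TensorProduct ℚ (Sx C n →₀ ℚ) V := fun n =>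
    bdesc (Coef.const C V) fun σ => TensorProduct.mk ℚ (Sx C n →₀ ℚ) V (Finsupp.single σ 1)
  have hg : ∀ n (σ : Sx C n) (v : V), g n (bof (Coef.const C V) σ v) =
      TensorProduct.tmul ℚ (Finsupp.single σ 1) v := fun n σ v => bdesc_bof _ _ _ _
  have hgf : ∀ n x, g n (f n x) = x := by
    intro n x
    have : (g n).comp (f n) = LinearMap.id := by
      refine TensorProduct.ext' fun y v => ?_
      induction y using Finsupp.induction_linear with
      | zero => rw [TensorProduct.zero_tmul, map_zero, map_zero]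
      | add y z hy hz => rw [TensorProduct.add_tmul, map_add, map_add, hy, hz]
      | single σ a =>
        rw [LinearMap.comp_apply, hf]
        refine (hg n σ (a • v)).trans ?_
        rw [TensorProduct.tmul_smul, TensorProduct.smul_tmul', Finsupp.smul_single, smul_eq_mul,
          mul_one]
        rfl
    exact congrArg (fun l => l x) this
  have hfg : ∀ n x, f n (g n x) = x := by
    intro n x
    have : (f n).comp (g n) = LinearMap.id := by
      refine bar_ext _ fun σ v => ?_
      rw [LinearMap.comp_apply, hg, hf, one_smul]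
      rfl
    exact congrArg (fun l => l x) this
  refine ⟨⟨f, fun n x => ?_⟩, fun n => ⟨Function.LeftInverse.injective (hgf n),
    Function.RightInverse.surjective (hfg n)⟩, hf⟩
  have : (f n).comp (LinearMap.rTensor V ((NC C).d n)) =
      ((barC (Coef.const C V)).d n).comp (f (n + 1)) := by
    refine TensorProduct.ext' fun y v => ?_
    induction y using Finsupp.induction_linear with
    | zero => rw [TensorProduct.zero_tmul, map_zero, map_zero]
    | add y z hy hz => rw [TensorProduct.add_tmul, map_add, map_add, hy, hz]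
    | single σ a =>
      rw [LinearMap.comp_apply, LinearMap.comp_apply, hf, LinearMap.rTensor_tmul, NC_d_single,
        TensorProduct.sum_tmul, map_sum]
      change _ = (barS (Coef.const C V)).alt n _
      rw [SMod.alt_apply]
      refine Finset.sum_congr rfl fun i _ => ?_
      rw [← TensorProduct.smul_tmul', map_smul, hf]
      congr 1
      change _ = barMap _ _ _
      rw [barMap_bof]
      rfl
  exact congrArg (fun l => l x) this

/-- tensor product of a chain map with a vector space -/
private noncomputable def tensHom {A B : Cx} (f : Cx.Hom A B) (V : Type) [AddCommGroup V]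
    [Module ℚ V] : Cx.Hom (A.tens V) (B.tens V) where
  f n := LinearMap.rTensor V (f.f n)
  comm n x := by
    change LinearMap.rTensor V (f.f n) (LinearMap.rTensor V (A.d n) x) =
      LinearMap.rTensor V (B.d n) (LinearMap.rTensor V (f.f (n + 1)) x)
    rw [← LinearMap.comp_apply, ← LinearMap.comp_apply, ← LinearMap.rTensor_comp,
      ← LinearMap.rTensor_comp]
    congr 2
    ext x
    exact f.comm n x

private theorem iso_of_surj {A B B' : Cx} (p : Cx.Hom A B) (p' : Cx.Hom A B')
    (hs : ∀ n, Function.Surjective (p.f n)) (hs' : ∀ n, Function.Surjective (p'.f n))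
    (hk : ∀ n x, p.f n x = 0 ↔ p'.f n x = 0) :
    ∃ e : Cx.Hom B B', ∀ n, Function.Bijective (e.f n) := by
  have hk' : ∀ n, LinearMap.ker (p.f n) = LinearMap.ker (p'.f n) := fun n => by
    ext x
    exact hk n x
  let e : ∀ n, B.X n ≃ₗ[ℚ] B'.X n := fun n =>
    ((p.f n).quotKerEquivOfSurjective (hs n)).symm.trans
      ((Submodule.quotEquivOfEq _ _ (hk' n)).trans ((p'.f n).quotKerEquivOfSurjective (hs' n)))
  have he : ∀ n x, e n (p.f n x) = p'.f n x := by
    intro n x
    have h1 : ((p.f n).quotKerEquivOfSurjective (hs n)).symm (p.f n x) =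
        Submodule.Quotient.mk x := by
      rw [LinearEquiv.symm_apply_eq]
      rfl
    change (p'.f n).quotKerEquivOfSurjective (hs' n) (Submodule.quotEquivOfEq _ _ (hk' n)
      (((p.f n).quotKerEquivOfSurjective (hs n)).symm (p.f n x))) = _
    rw [h1]
    rfl
  refine ⟨⟨fun n => (e n).toLinearMap, fun n y => ?_⟩, fun n => (e n).bijective⟩
  obtain ⟨x, rfl⟩ := hs (n + 1) y
  change e n (B.d n (p.f (n + 1) x)) = B'.d n (e (n + 1) (p.f (n + 1) x))
  rw [← p.comm, he, he, p'.comm]

private theorem tens_Z (A : Cx) (V : Type) [AddCommGroup V] [Module ℚ V] (n : ℕ)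
    (x : TensorProduct ℚ (A.X n) V) : x ∈ (A.tens V).Z n ↔
      ∃ y : TensorProduct ℚ (A.Z n) V, LinearMap.rTensor V (A.Z n).subtype y = x := by
  cases n with
  | zero =>
    refine ⟨fun _ => ?_, fun _ => trivial⟩
    refine LinearMap.rTensor_surjective V (g := (A.Z 0).subtype) ?_ x
    intro y
    exact ⟨⟨y, trivial⟩, rfl⟩
  | succ n =>
    refine (Cx.mem_Z_succ (A := A.tens V) (x := x)).trans ?_
    have h1 : Function.Exact (A.Z (n + 1)).subtype (A.d n) := by
      intro y
      constructor
      · intro h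
        exact ⟨⟨y, Cx.mem_Z_succ.2 h⟩, rfl⟩
      · rintro ⟨y, rfl⟩
        exact Cx.mem_Z_succ.1 y.2
    exact Module.Flat.rTensor_exact V h1 x

theorem tens_H (A : Cx) (V : Type) [AddCommGroup V] [Module ℚ V] (n : ℕ) :
    Nonempty (TensorProduct ℚ (A.H n) V ≃ₗ[ℚ] (A.tens V).H n) := by
  let ι : TensorProduct ℚ (A.Z n) V →ₗ[ℚ] TensorProduct ℚ (A.X n) V :=
    LinearMap.rTensor V (A.Z n).subtype
  have hι : Function.Injective ι :=
    Module.Flat.rTensor_preserves_injective_linearMap _ (A.Z n).injective_subtype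
  let ψ : TensorProduct ℚ (A.Z n) V →ₗ[ℚ] (A.tens V).Z n :=
    ι.codRestrict ((A.tens V).Z n) fun y => (tens_Z A V n _).2 ⟨y, rfl⟩
  let p2 : TensorProduct ℚ (A.Z n) V →ₗ[ℚ] (A.tens V).H n := (Submodule.mkQ _).comp ψ
  let p1 : TensorProduct ℚ (A.Z n) V →ₗ[ℚ] TensorProduct ℚ (A.H n) V :=
    LinearMap.rTensor V (Submodule.mkQ _)
  let δ : A.X (n + 1) →ₗ[ℚ] A.Z n := (A.d n).codRestrict _ (A.d_mem_Z n)
  have hs1 : Function.Surjective p1 :=
    LinearMap.rTensor_surjective V (Submodule.mkQ_surjective _)
  have hs2 : Function.Surjective p2 := by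
    intro y
    obtain ⟨⟨x, hx⟩, rfl⟩ := Submodule.Quotient.mk_surjective _ y
    obtain ⟨z, hz⟩ := (tens_Z A V n x).1 hx
    exact ⟨z, congrArg Submodule.Quotient.mk (Subtype.ext hz)⟩
  have hex : Function.Exact δ (Submodule.mkQ ((A.Bd n).submoduleOf (A.Z n))) := by
    intro y
    change (Submodule.Quotient.mk y : A.H n) = 0 ↔ _
    rw [Submodule.Quotient.mk_eq_zero]
    constructor
    · rintro ⟨z, hz⟩
      exact ⟨z, Subtype.ext hz⟩
    · rintro ⟨z, rfl⟩
      exact ⟨z, rfl⟩
  have hk1 : ∀ y, p1 y = 0 ↔ ∃ z, LinearMap.rTensor V δ z = y := fun y =>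
    rTensor_exact V hex (Submodule.mkQ_surjective _) y
  have hk2 : ∀ y, p2 y = 0 ↔ ∃ z, LinearMap.rTensor V δ z = y := by
    intro y
    change (Submodule.Quotient.mk (ψ y) : (A.tens V).H n) = 0 ↔ _
    rw [Submodule.Quotient.mk_eq_zero]
    have hcomp : ∀ z, ι (LinearMap.rTensor V δ z) = (A.tens V).d n z := by
      intro z
      change LinearMap.rTensor V (A.Z n).subtype (LinearMap.rTensor V δ z) =
        LinearMap.rTensor V (A.d n) z
      rw [← LinearMap.comp_apply, ← LinearMap.rTensor_comp]
      rfl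
    constructor
    · rintro ⟨z, hz⟩
      have hz' : (A.tens V).d n z = ι y := hz
      exact ⟨z, hι ((hcomp z).trans hz')⟩
    · rintro ⟨z, rfl⟩
      exact ⟨z, (hcomp z).symm⟩
  have hk : LinearMap.ker p1 = LinearMap.ker p2 := by
    ext y
    exact (hk1 y).trans (hk2 y).symm
  exact ⟨(p1.quotKerEquivOfSurjective hs1).symm.trans
    ((Submodule.quotEquivOfEq _ _ hk).trans (p2.quotKerEquivOfSurjective hs2))⟩

/-- the inclusion of the chains at the point `b`, constant coefficients -/
noncomputable abbrev constPt (b : C) (V : Type) [AddCommGroup V] [Module ℚ V] :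
    Cx.Hom (barC ((Coef.const C V).pull (ptF b))) (barC (Coef.const C V)) :=
  barPush (ptF b) (Coef.const C V)

theorem serre_const (b : C) (V : Type) [AddCommGroup V] [Module ℚ V] (S : Serre) (n : ℕ)
    (h : S.P (TensorProduct ℚ ((relC (ptF b)).H n) V)) :
    S.P ((Cx.coker (constPt b V)).H n) := by
  obtain ⟨f, hfb, hf⟩ := exists_constIso (C := C) V
  obtain ⟨f', hfb', hf'⟩ := exists_constIso (C := ActCat.Pt) V
  have hnat : ∀ m (z : TensorProduct ℚ ((NC ActCat.Pt).X m) V),
      f.f m (LinearMap.rTensor V ((NCmap (ptF b)).f m) z) = (constPt b V).f m (f'.f m z) := by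
    intro m z
    have : (f.f m).comp (LinearMap.rTensor V ((NCmap (ptF b)).f m)) =
        ((constPt b V).f m).comp (f'.f m) := by
      refine TensorProduct.ext' fun y v => ?_
      induction y using Finsupp.induction_linear with
      | zero => rw [TensorProduct.zero_tmul, map_zero, map_zero]
      | add y z hy hz => rw [TensorProduct.add_tmul, map_add, map_add, hy, hz]
      | single σ a =>
        change f.f m (LinearMap.rTensor V ((NCmap (ptF b)).f m)
          (TensorProduct.tmul ℚ (Finsupp.single σ a) v)) =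
          (constPt b V).f m (f'.f m (TensorProduct.tmul ℚ (Finsupp.single σ a) v))
        rw [hf', LinearMap.rTensor_tmul, NCmap_single, hf]
        refine Eq.symm ?_
        change bdesc ((Coef.const C V).pull (ptF b)) (fun σ => bof (Coef.const C V) (σ.push (ptF b)))
          (bof ((Coef.const C V).pull (ptF b)) σ (a • v)) = _
        rw [bdesc_bof]
    exact congrArg (fun l => l z) this
  obtain ⟨e, he⟩ := iso_of_surj (tensHom (Cx.toCoker (NCmap (ptF b))) V)
    (f.comp (Cx.toCoker (constPt b V)))
    (fun m => by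
      change Function.Surjective (LinearMap.rTensor V ((Cx.toCoker (NCmap (ptF b))).f m))
      exact LinearMap.rTensor_surjective V (Submodule.mkQ_surjective _))
    (fun m => (Submodule.mkQ_surjective _).comp (hfb m).2) (fun m x => by
      have hex : Function.Exact ((NCmap (ptF b)).f m) ((Cx.toCoker (NCmap (ptF b))).f m) := by
        intro y
        change (Submodule.Quotient.mk y : _ ⧸ LinearMap.range ((NCmap (ptF b)).f m)) = 0 ↔ _
        rw [Submodule.Quotient.mk_eq_zero]
        rfl
      refine (rTensor_exact V hex (Submodule.mkQ_surjective _) x).trans ?_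
      change _ ↔ (Submodule.Quotient.mk (f.f m x) : _ ⧸ LinearMap.range ((constPt b V).f m)) = 0
      rw [Submodule.Quotient.mk_eq_zero]
      constructor
      · rintro ⟨z, rfl⟩
        exact ⟨f'.f m z, (hnat m z).symm⟩
      · rintro ⟨y, hy⟩
        obtain ⟨z, rfl⟩ := (hfb' m).2 y
        exact ⟨z, (hfb m).1 ((hnat m z).trans hy)⟩)
  obtain ⟨t⟩ := tens_H (relC (ptF b)) V n
  exact (S.congr (t.trans (LinearEquiv.ofBijective _ (qis_of_bij e he n)))).1 h

/-- a coefficient system with nonempty `Hom`s on which parallel arrows act equally is constant -/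
theorem constCoef (F : Coef C) (h1 : ∀ a b : C, Nonempty (a ⟶ b))
    (h2 : ∀ (a b : C) (u v : a ⟶ b), F.map u = F.map v) (c : C) :
    ∃ θ : Coef.Hom F (Coef.const C (F.M c)), (∀ a, Function.Bijective (θ.f a)) ∧
      θ.f c = LinearMap.id := by
  have hid : ∀ (a : C) (u : a ⟶ a), F.map u = LinearMap.id := fun a u => by
    rw [h2 a a u (𝟙 a)]
    exact LinearMap.ext fun x => F.map_id a x
  refine ⟨⟨fun a => F.map (h1 a c).some, fun {a b} u x => ?_⟩, fun a => ?_, hid c _⟩
  · change F.map _ (F.map u x) = F.map _ x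
    rw [← F.map_comp, h2 a c (u ≫ (h1 b c).some) (h1 a c).some]
  · refine ⟨Function.LeftInverse.injective (g := F.map (h1 c a).some) fun x => ?_,
      Function.RightInverse.surjective (g := F.map (h1 c a).some) fun x => ?_⟩
    · change F.map _ (F.map _ x) = x
      rw [← F.map_comp, hid]
      rfl
    · change F.map _ (F.map _ x) = x
      rw [← F.map_comp, hid]
      rfl

end C715
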