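import Pool.Agent.Work.MP_c71557_gt.H.E2
import Pool.Agent.Work.MP_c71557_gt.H.Five

set_option autoImplicit false

/-!
# MP_c71557_gt, module H/E2Aug: comparison of a total complex with its bottom row (M-L)

`r : ColAug K A` with `r.e p : K_{p,0} → A_p` inducing `H_0(column p) ≅ A_p` (surjective, kernel
= image of `dv`).  Then kernel and cokernel of `H_n(Tot K) → H_n(A)` are controlled by the
`E²_{p,q}` with `q ≥ 1`.

PROOF.  Let `N` be the double complex with `N_{p,0} = ker (r.e p)`, `N_{p,q} = K_{p,q}` for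
`q ≥ 1` (a sub double complex, define it with a `match` on `q`; `r.comm` shows that `dh` preserves
it, `r.zero` that `dv` lands in it).  `0 → Tot N → Tot K → A → 0` is short exact (`r.hom` is
`a ↦ e a_{n,0}`).  `E¹_{p,0}(N) = 0` and `E¹_{p,q}(N) ≅ E¹_{p,q}(K)` for `q ≥ 1` (same cycles and
boundaries; for `q = 1` the cycles of `N_{p,1}` are the same because `N_{p,0} ⊆ K_{p,0}`).
By `DCx.serre`: `S.P (H_n(Tot N))` if `S.P (E²_{p,q}(K))` for all `p + q = n`, `q ≥ 1`.
The long exact sequence: `ker (H_n(Tot K) → H_n(A))` is a quotient of `H_n(Tot N)`, and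
`H_n(A)/im` embeds into `H_{n-1}(Tot N)` (`n ≥ 1`; for `n = 0` it is zero).
-/

namespace C715
namespace DCx

/-- sub double complex -/
private def sub (K : DCx) (W : ∀ p q, Submodule ℚ (K.X p q))
    (h1 : ∀ p q, ∀ x ∈ W (p + 1) q, K.dh p q x ∈ W p q)
    (h2 : ∀ p q, ∀ x ∈ W p (q + 1), K.dv p q x ∈ W p q) : DCx where
  X p q := W p q
  dh p q := (K.dh p q).restrict (h1 p q)
  dv p q := (K.dv p q).restrict (h2 p q)
  hh p q x := Subtype.ext (K.hh p q x.1)
  vv p q x := Subtype.ext (K.vv p q x.1)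
  hv p q x := Subtype.ext (K.hv p q x.1)

private def subHom (K : DCx) (W : ∀ p q, Submodule ℚ (K.X p q))
    (h1 : ∀ p q, ∀ x ∈ W (p + 1) q, K.dh p q x ∈ W p q)
    (h2 : ∀ p q, ∀ x ∈ W p (q + 1), K.dv p q x ∈ W p q) : Hom (sub K W h1 h2) K where
  f p q := (W p q).subtype
  hcomm _ _ _ := rfl
  vcomm _ _ _ := rfl

private theorem bij_H {A B : Cx} (f : Cx.Hom A B) (h : ∀ n, Function.Bijective (f.f n)) (n : ℕ) :
    Function.Bijective (f.H n) := by
  have hz : ∀ n x, f.f n x ∈ B.Z n → x ∈ A.Z n := by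
    intro n x hx
    cases n with
    | zero => trivial
    | succ n =>
      rw [Cx.mem_Z_succ] at hx ⊢
      apply (h n).1
      rw [f.comm, hx, map_zero]
  constructor
  · rw [injective_iff_map_eq_zero]
    intro y hy
    obtain ⟨x, hx, rfl⟩ := Cx.H_surj y
    rw [Cx.H_cls, Cx.cls_eq_zero] at hy
    rw [Cx.cls_eq_zero]
    obtain ⟨z, hz⟩ := hy
    obtain ⟨w, rfl⟩ := (h (n + 1)).2 z
    refine ⟨w, (h n).1 ?_⟩
    rw [f.comm, hz]
  · intro y
    obtain ⟨x, hx, rfl⟩ := Cx.H_surj y
    obtain ⟨w, rfl⟩ := (h n).2 x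
    exact ⟨A.cls n w (hz n w hx), rfl⟩

private def W {K : DCx} {A : Cx} (r : ColAug K A) : ∀ p q, Submodule ℚ (K.X p q)
  | p, 0 => LinearMap.ker (r.e p)
  | _, _ + 1 => ⊤

private theorem W_h {K : DCx} {A : Cx} (r : ColAug K A) :
    ∀ p q, ∀ x ∈ W r (p + 1) q, K.dh p q x ∈ W r p q := by
  intro p q x hx
  cases q with
  | zero =>
    change r.e p (K.dh p 0 x) = 0
    have hx' : r.e (p + 1) x = 0 := hx
    rw [r.comm, hx', map_zero]
  | succ q => trivial

private theorem W_v {K : DCx} {A : Cx} (r : ColAug K A) :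
    ∀ p q, ∀ x ∈ W r p (q + 1), K.dv p q x ∈ W r p q := by
  intro p q x hx
  cases q with
  | zero => exact r.zero p x
  | succ q => trivial

private abbrev N {K : DCx} {A : Cx} (r : ColAug K A) : DCx := sub K (W r) (W_h r) (W_v r)

private abbrev NI {K : DCx} {A : Cx} (r : ColAug K A) : Hom (N r) K := subHom K (W r) (W_h r) (W_v r)

private theorem N_SES {K : DCx} {A : Cx} (r : ColAug K A)
    (h1 : ∀ p, Function.Surjective (r.e p)) : Cx.SES (NI r).tot r.hom where
  inj n := by
    intro a b hab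
    refine Subtype.ext (funext fun p => funext fun q => Subtype.ext ?_)
    have h := congrArg (fun z : K.totX n => z.1 p q) hab
    exact h
  exact n := by
    intro a
    constructor
    · intro ha
      have ha' : r.e n (a.1 n 0) = 0 := ha
      have key : ∀ p q, a.1 p q ∈ W r p q := by
        intro p q
        by_cases hpq : p + q = n
        · cases q with
          | zero =>
            obtain rfl : p = n := hpq
            exact ha'
          | succ q => trivial
        · rw [a.2 p q hpq]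
          exact Submodule.zero_mem _
      refine ⟨⟨fun p q => ⟨a.1 p q, key p q⟩, fun p q hpq => Subtype.ext (a.2 p q hpq)⟩, ?_⟩
      rfl
    · rintro ⟨b, rfl⟩
      exact (b.1 n 0).2
  surj n := by
    intro y
    obtain ⟨x, hx⟩ := h1 n y
    refine ⟨⟨Pi.single n (Pi.single 0 x), ?_⟩, ?_⟩
    · intro p q hpq
      by_cases hp : p = n
      · subst hp
        rw [Pi.single_eq_same, Pi.single_eq_of_ne]
        omega
      · rw [Pi.single_eq_of_ne hp]
        rfl
    · change r.e n ((Pi.single n (Pi.single 0 x) : (p : ℕ) → (q : ℕ) → K.X p q) n 0) = y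
      rw [Pi.single_eq_same, Pi.single_eq_same, hx]

private theorem NI_col {K : DCx} {A : Cx} (r : ColAug K A) (p q : ℕ) :
    Function.Bijective (((NI r).col p).H (q + 1)) := by
  constructor
  · rw [injective_iff_map_eq_zero]
    intro y hy
    obtain ⟨x, hx, rfl⟩ := Cx.H_surj y
    rw [Cx.H_cls, Cx.cls_eq_zero] at hy
    rw [Cx.cls_eq_zero]
    obtain ⟨z, hz⟩ := hy
    exact ⟨⟨z, trivial⟩, Subtype.ext hz⟩
  · intro y
    obtain ⟨x, hx, rfl⟩ := Cx.H_surj y
    rw [Cx.mem_Z_succ] at hx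
    refine ⟨((N r).col p).cls (q + 1) ⟨x, trivial⟩ ?_, rfl⟩
    rw [Cx.mem_Z_succ]
    exact Subtype.ext hx

private theorem N_serre {K : DCx} {A : Cx} (r : ColAug K A)
    (h2 : ∀ p (x : K.X p 0), r.e p x = 0 → ∃ y, K.dv p 0 y = x)
    (S : Serre) (n : ℕ) (h : ∀ p q, 1 ≤ q → p + q = n → S.P ((K.E1 q).H p)) :
    S.P ((N r).Tot.H n) := by
  refine DCx.serre (N r) S n fun p q hpq => ?_
  cases q with
  | zero =>
    refine S.zero _ ?_
    have hs : ∀ p, Subsingleton (((N r).col p).H 0) := by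
      intro p
      rw [Cx.H_subsingleton]
      rintro ⟨x, hx⟩ _
      obtain ⟨y, hy⟩ := h2 p x hx
      exact ⟨⟨y, trivial⟩, Subtype.ext hy⟩
    rw [Cx.H_subsingleton]
    intro x _
    have := hs p
    rw [Subsingleton.elim x 0]
    exact Submodule.zero_mem _
  | succ q =>
    let g : Cx.Hom ((N r).E1 (q + 1)) (K.E1 (q + 1)) :=
      { f := fun p => ((NI r).col p).H (q + 1)
        comm := by
          intro p y
          obtain ⟨x, hx, rfl⟩ := Cx.H_surj y
          rfl }
    have hg : Function.Bijective (g.H p) := bij_H g (fun p => NI_col r p q) p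
    exact S.of_inj (g.H p) hg.1 (h p (q + 1) (by omega) hpq)

theorem ColAug.serre_ker {K : DCx} {A : Cx} (r : ColAug K A)
    (h1 : ∀ p, Function.Surjective (r.e p))
    (h2 : ∀ p (x : K.X p 0), r.e p x = 0 → ∃ y, K.dv p 0 y = x)
    (S : Serre) (n : ℕ) (h : ∀ p q, 1 ≤ q → p + q = n → S.P ((K.E1 q).H p)) :
    S.P (LinearMap.ker (r.hom.H n)) := by
  have hs := N_SES r h1
  have hN := N_serre r h2 S n h
  have hex := Cx.exact_mid hs n
  refine S.of_surj (LinearMap.codRestrict (LinearMap.ker (r.hom.H n)) ((NI r).tot.H n)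
    (fun x => (hex _).2 ⟨x, rfl⟩)) ?_ hN
  rintro ⟨y, hy⟩
  obtain ⟨x, hx⟩ := (hex y).1 hy
  exact ⟨x, Subtype.ext hx⟩

theorem ColAug.serre_coker {K : DCx} {A : Cx} (r : ColAug K A)
    (h1 : ∀ p, Function.Surjective (r.e p))
    (h2 : ∀ p (x : K.X p 0), r.e p x = 0 → ∃ y, K.dv p 0 y = x)
    (S : Serre) (n : ℕ) (h : ∀ p q, 1 ≤ q → p + q + 1 = n → S.P ((K.E1 q).H p)) :
    S.P (A.H n ⧸ LinearMap.range (r.hom.H n)) := by
  have hs := N_SES r h1
  cases n with
  | zero =>
    refine S.zero _ ?_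
    rw [Submodule.Quotient.subsingleton_iff, LinearMap.range_eq_top]
    exact Cx.surj_zero hs
  | succ n =>
    have hN := N_serre r h2 S n (fun p q hq hpq => h p q hq (by omega))
    have hex := Cx.exact_right hs n
    refine S.of_inj (Submodule.liftQ (LinearMap.range (r.hom.H (n + 1))) (Cx.delta hs n) ?_) ?_ hN
    · rintro _ ⟨x, rfl⟩
      exact (hex _).2 ⟨x, rfl⟩
    · rw [injective_iff_map_eq_zero]
      intro y hy
      obtain ⟨y, rfl⟩ := Submodule.Quotient.mk_surjective _ y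
      rw [Submodule.liftQ_apply] at hy
      rw [Submodule.Quotient.mk_eq_zero]
      exact (hex y).1 hy

end DCx
end C715
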