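import Pool.Agent.Work.MP_c71557_gt.H.RelG

set_option autoImplicit false

/-!
# MP_c71557_gt, module H/RelGNat: naturality of the relative coefficient complexes

Used by `H/RelTop`.  `R : T ⥤ B`, `R' : T' ⥤ B'`, `FB : B ⥤ B'`, `FT : T ⥤ T'` with
`(σ.push R).push FB = (σ.push FT).push R'` on simplices.  `gD : hoco (G R) → hoco (G R')`,
compatible with the augmentations `rho` and with the comparison `E1 q ≅ barC (HF q)`.
-/

namespace C715

open CategoryTheory

namespace RelG

/-- comparison of the lines of `E1` with the bar complex -/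
noncomputable def e1 {C : Type} [SmallCategory C] (L : CoefCx C) (q : ℕ) :
    Cx.Hom (L.hoco.E1 q) (barC (L.HF q)) := (exists_barE1 L q).choose

theorem e1_bij {C : Type} [SmallCategory C] (L : CoefCx C) (q p : ℕ) :
    Function.Bijective ((e1 L q).f p) := (exists_barE1 L q).choose_spec.1 p

theorem e1_cls {C : Type} [SmallCategory C] (L : CoefCx C) (q p : ℕ) (σ : Sx C p)
    (x : (L.F q).M (σ.o 0)) (hx : x ∈ (L.at' (σ.o 0)).Z q)
    (hx' : bof (L.F q) σ x ∈ (L.hoco.col p).Z q) :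
    (e1 L q).f p ((L.hoco.col p).cls q (bof (L.F q) σ x) hx') =
      bof (L.HF q) σ ((L.at' (σ.o 0)).cls q x hx) :=
  (exists_barE1 L q).choose_spec.2 p σ x hx hx'

theorem bof_Z {C : Type} [SmallCategory C] (L : CoefCx C) (q p : ℕ) (σ : Sx C p)
    (x : (L.F q).M (σ.o 0)) (hx : x ∈ (L.at' (σ.o 0)).Z q) :
    bof (L.F q) σ x ∈ (L.hoco.col p).Z q := by
  cases q with
  | zero => trivial
  | succ q =>
    have h : (L.d q).f (σ.o 0) x = 0 := hx
    change (barHom (L.d q)).f p (bof (L.F (q + 1)) σ x) = 0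
    rw [OvIso.barHom_bof, h, map_zero]

theorem bar_sub {C : Type} [SmallCategory C] (F : Coef C) (h : ∀ c, Subsingleton (F.M c))
    (n : ℕ) : Subsingleton (BarX F n) := by
  have key : ∀ x : BarX F n, x = 0 := by
    intro x
    induction x using bar_ind with
    | h0 => rfl
    | h1 σ y => rw [(h _).elim y 0, map_zero]
    | h2 x y hx hy => rw [hx, hy, add_zero]
  exact ⟨fun x y => by rw [key x, key y]⟩

theorem col_zero {C : Type} [SmallCategory C] (L : CoefCx C) (q : ℕ)
    (h : ∀ c, Subsingleton ((L.at' c).H q)) (p : ℕ) : Subsingleton ((L.hoco.col p).H q) := by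
  have := bar_sub (L.HF q) h p
  exact (e1_bij L q p).1.subsingleton

/-! ### one dimensional coefficient systems supported on a subcategory -/

section kp

variable {C D : Type} [SmallCategory C] [SmallCategory D]

/-- chains of `D` as chains with coefficients in `F`, for an invariant family `v` -/
noncomputable def kp (F : Coef C) (U : D ⥤ C) (v : ∀ d, F.M (U.obj d))
    (hv : ∀ {d d' : D} (u : d ⟶ d'), F.map (U.map u) (v d) = v d') :
    Cx.Hom (NC D) (barC F) where
  f n := Finsupp.linearCombination ℚ fun σ : Sx D n => bof F (σ.push U) (v (σ.o 0))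
  comm n x := by
    have key : (Finsupp.linearCombination ℚ fun σ : Sx D n =>
        bof F (σ.push U) (v (σ.o 0))).comp ((NC D).d n) = ((barC F).d n).comp
          (Finsupp.linearCombination ℚ fun σ : Sx D (n + 1) =>
            bof F (σ.push U) (v (σ.o 0))) := by
      refine Finsupp.lhom_ext' fun σ => LinearMap.ext_ring ?_
      change Finsupp.linearCombination ℚ _ ((NC D).d n (Finsupp.single σ 1)) =
        (barS F).alt n (Finsupp.linearCombination ℚ _ (Finsupp.single σ 1))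
      rw [NC_d_single, map_sum, Finsupp.linearCombination_single, one_smul, SMod.alt_apply]
      refine Finset.sum_congr rfl fun i _ => ?_
      rw [map_smul, Finsupp.linearCombination_single, one_smul]
      congr 1
      refine Eq.trans ?_ (barMap_bof F (dl i) (σ.push U) (v (σ.o 0))).symm
      exact congrArg _ (hv _).symm
    exact LinearMap.congr_fun key x

theorem kp_single (F : Coef C) (U : D ⥤ C) (v : ∀ d, F.M (U.obj d))
    (hv : ∀ {d d' : D} (u : d ⟶ d'), F.map (U.map u) (v d) = v d') {n : ℕ} (σ : Sx D n) (a : ℚ) :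
    (kp F U v hv).f n (Finsupp.single σ a) = a • bof F (σ.push U) (v (σ.o 0)) :=
  Finsupp.linearCombination_single _ _ _

theorem kp_bij (F : Coef C) (U : D ⥤ C) (v : ∀ d, F.M (U.obj d))
    (hv : ∀ {d d' : D} (u : d ⟶ d'), F.map (U.map u) (v d) = v d')
    (hU : ∀ n, Function.Injective (fun σ : Sx D n => σ.push U))
    (h0 : ∀ d, v d ≠ 0) (h1 : ∀ d (w : F.M (U.obj d)), ∃ a : ℚ, w = a • v d)
    (h2 : ∀ n (σ : Sx C n), (∃ τ : Sx D n, τ.push U = σ) ∨ Subsingleton (F.M (σ.o 0))) (n : ℕ) :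
    Function.Bijective ((kp F U v hv).f n) := by
  classical
  constructor
  · rw [injective_iff_map_eq_zero]
    intro x hx
    ext τ
    have key : (OvIso.cmp F (τ.push U)).comp ((kp F U v hv).f n) =
        (LinearMap.toSpanSingleton ℚ (F.M (U.obj (τ.o 0))) (v (τ.o 0))).comp
          (Finsupp.lapply τ) := by
      refine Finsupp.lhom_ext' fun σ => LinearMap.ext_ring ?_
      change OvIso.cmp F (τ.push U) ((kp F U v hv).f n (Finsupp.single σ 1)) =
        ((Finsupp.single σ (1 : ℚ) : Sx D n →₀ ℚ) τ) • v (τ.o 0)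
      rw [kp_single, one_smul]
      by_cases hσ : σ = τ
      · subst hσ
        rw [Finsupp.single_eq_same, one_smul]
        exact OvIso.cmp_self _ _ _
      · rw [Finsupp.single_eq_of_ne (Ne.symm hσ), zero_smul]
        exact OvIso.cmp_ne _ (fun e => hσ (hU n e)) _
    have h3 := LinearMap.congr_fun key x
    have h4 : x τ • v (τ.o 0) = 0 := by
      refine Eq.trans h3.symm ?_
      change OvIso.cmp F (τ.push U) ((kp F U v hv).f n x) = 0
      rw [hx, map_zero]
    exact (smul_eq_zero.1 h4).resolve_right (h0 _)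
  · intro y
    induction y using bar_ind with
    | h0 => exact ⟨0, map_zero _⟩
    | h1 σ y =>
      rcases h2 n σ with ⟨τ, rfl⟩ | h3
      · obtain ⟨a, ha⟩ := h1 _ y
        refine ⟨Finsupp.single τ a, ?_⟩
        rw [kp_single, ← map_smul]
        exact congrArg _ ha.symm
      · exact ⟨0, by rw [map_zero, h3.elim y 0, map_zero]⟩
    | h2 x y hx hy =>
      obtain ⟨x', rfl⟩ := hx
      obtain ⟨y', rfl⟩ := hy
      exact ⟨x' + y', map_add _ _ _⟩

theorem kp_nat {C' D' : Type} [SmallCategory C'] [SmallCategory D'] {F : Coef C} {U : D ⥤ C}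
    {v : ∀ d, F.M (U.obj d)} {hv : ∀ {d d' : D} (u : d ⟶ d'), F.map (U.map u) (v d) = v d'}
    {F' : Coef C'} {U' : D' ⥤ C'} {v' : ∀ d, F'.M (U'.obj d)}
    {hv' : ∀ {d d' : D'} (u : d ⟶ d'), F'.map (U'.map u) (v' d) = v' d'}
    (φ : Cx.Hom (barC F) (barC F')) (W : D ⥤ D')
    (hφ : ∀ n (σ : Sx D n), φ.f n (bof F (σ.push U) (v (σ.o 0))) =
      bof F' ((σ.push W).push U') (v' ((σ.push W).o 0))) (n : ℕ) (x : HC D n) :
    (kp F' U' v' hv').H n (HCmap W n x) = φ.H n ((kp F U v hv).H n x) := by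
  obtain ⟨x, hx, rfl⟩ := Cx.H_surj x
  refine Cx.cls_eq.2 ?_
  have key : ((kp F' U' v' hv').f n).comp ((NCmap W).f n) = (φ.f n).comp ((kp F U v hv).f n) := by
    refine Finsupp.lhom_ext' fun σ => LinearMap.ext_ring ?_
    change (kp F' U' v' hv').f n ((NCmap W).f n (Finsupp.single σ 1)) =
      φ.f n ((kp F U v hv).f n (Finsupp.single σ 1))
    rw [NCmap_single, kp_single, kp_single, one_smul, one_smul]
    exact (hφ n σ).symm
  have h1 := LinearMap.congr_fun key x
  change (kp F' U' v' hv').f n ((NCmap W).f n x) - φ.f n ((kp F U v hv).f n x) ∈ _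
  rw [show (kp F' U' v' hv').f n ((NCmap W).f n x) = φ.f n ((kp F U v hv).f n x) from h1, sub_self]
  exact Submodule.zero_mem _

theorem bof_congr (F : Coef C) {n : ℕ} (o : Fin (n + 1) → C)
    (m m' : ∀ i j : Fin (n + 1), i ≤ j → (o i ⟶ o j)) (ms : ∀ i, m i i le_rfl = 𝟙 (o i))
    (ms' : ∀ i, m' i i le_rfl = 𝟙 (o i))
    (mc : ∀ i j k (h : i ≤ j) (h' : j ≤ k), m i j h ≫ m j k h' = m i k (h.trans h'))
    (mc' : ∀ i j k (h : i ≤ j) (h' : j ≤ k), m' i j h ≫ m' j k h' = m' i k (h.trans h'))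
    (h : m = m') (x : F.M (o 0)) :
    bof F (⟨o, m, ms, mc⟩ : Sx C n) x = bof F (⟨o, m', ms', mc'⟩ : Sx C n) x := by
  subst h
  rfl

end kp

section nat

variable {T B T' B' : Type} [SmallCategory T] [SmallCategory B] [SmallCategory T']
  [SmallCategory B']

/-- functoriality of the simplices over an object -/
abbrev bp (FB : B ⥤ B') (b : B) (q : ℕ) (x : OvS (𝟭 B) b q) : OvS (𝟭 B') (FB.obj b) q :=
  ⟨x.τ.push FB, FB.map x.f⟩

theorem exists_lift (R' : T' ⥤ B') {q : ℕ} (s : Sx B' q) (τ' : Sx T' q) (hs : s = τ'.push R')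
    (b' : B') (f' : s.o (Fin.last q) ⟶ b') :
    ∃ y : OvS R' b' q, (⟨y.τ.push R', y.f⟩ : OvS (𝟭 B') b' q) = ⟨s, f'⟩ := by
  subst hs
  exact ⟨⟨τ', f'⟩, rfl⟩

/-- functoriality of the chains of the categories over an object -/
noncomputable def bAt (FB : B ⥤ B') (b : B) :
    Cx.Hom ((overL (𝟭 B)).at' b) ((overL (𝟭 B')).at' (FB.obj b)) where
  f q := Finsupp.lmapDomain ℚ ℚ (bp FB b q)
  comm q x := by
    change Finsupp.mapDomain (bp FB b q) ((ovS (𝟭 B) b).alt q x) =
      (ovS (𝟭 B') (FB.obj b)).alt q (Finsupp.mapDomain (bp FB b (q + 1)) x)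
    rw [SMod.alt_apply, SMod.alt_apply]
    change Finsupp.lmapDomain ℚ ℚ (bp FB b q) _ = _
    rw [map_sum]
    refine Finset.sum_congr rfl fun i _ => ?_
    rw [map_smul]
    congr 1
    change Finsupp.mapDomain _ (Finsupp.mapDomain _ (x : OvS (𝟭 B) b (q + 1) →₀ ℚ)) =
      Finsupp.mapDomain _ (Finsupp.mapDomain _ (x : OvS (𝟭 B) b (q + 1) →₀ ℚ))
    rw [← Finsupp.mapDomain_comp, ← Finsupp.mapDomain_comp]
    congr 1
    exact funext fun y => OvS.ext rfl (heq_of_eq (FB.map_comp _ _))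

theorem bAt_nat (FB : B ⥤ B') {a b : B} (u : a ⟶ b) (q : ℕ) (x : ((overL (𝟭 B)).at' a).X q) :
    (bAt FB b).f q (((overL (𝟭 B)).mapAt u).f q x) =
      ((overL (𝟭 B')).mapAt (FB.map u)).f q ((bAt FB a).f q x) := by
  change Finsupp.mapDomain _ (Finsupp.mapDomain _ (x : OvS (𝟭 B) a q →₀ ℚ)) =
    Finsupp.mapDomain _ (Finsupp.mapDomain _ (x : OvS (𝟭 B) a q →₀ ℚ))
  rw [← Finsupp.mapDomain_comp, ← Finsupp.mapDomain_comp]
  congr 1
  exact funext fun y => OvS.ext rfl (heq_of_eq (FB.map_comp _ _))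

variable (R : T ⥤ B) (R' : T' ⥤ B') (FB : B ⥤ B') (FT : T ⥤ T')

theorem bAt_range (h : ∀ n (σ : Sx T n), (σ.push R).push FB = (σ.push FT).push R') (b : B)
    (q : ℕ) (y : ((overL R).at' b).X q) :
    (bAt FB b).f q ((alAt R b).f q y) ∈ LinearMap.range ((alAt R' (FB.obj b)).f q) := by
  have h1 : ∀ x : OvS R b q, ∃ z : OvS R' (FB.obj b) q,
      (⟨z.τ.push R', z.f⟩ : OvS (𝟭 B') (FB.obj b) q) = ⟨(x.τ.push R).push FB, FB.map x.f⟩ :=
    fun x => exists_lift R' _ _ (h q x.τ) _ _
  choose w hw using h1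
  refine ⟨Finsupp.mapDomain w y, ?_⟩
  change Finsupp.mapDomain _ (Finsupp.mapDomain _ (y : OvS R b q →₀ ℚ)) =
    Finsupp.mapDomain _ (Finsupp.mapDomain _ (y : OvS R b q →₀ ℚ))
  rw [← Finsupp.mapDomain_comp, ← Finsupp.mapDomain_comp]
  congr 1
  exact funext hw

variable {R R' FB FT}

/-- functoriality of the relative complexes -/
noncomputable def gAt (h : ∀ n (σ : Sx T n), (σ.push R).push FB = (σ.push FT).push R') (b : B) :
    Cx.Hom ((G R).at' b) ((G R').at' (FB.obj b)) where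
  f q := Submodule.mapQ _ _ ((bAt FB b).f q) (by
    rintro _ ⟨y, rfl⟩
    exact bAt_range R R' FB FT h b q y)
  comm q x := by
    obtain ⟨x, rfl⟩ := Submodule.Quotient.mk_surjective _ x
    exact congrArg Submodule.Quotient.mk ((bAt FB b).comm q x)

theorem gAt_nat (h : ∀ n (σ : Sx T n), (σ.push R).push FB = (σ.push FT).push R') {a b : B}
    (u : a ⟶ b) (q : ℕ) (x : ((G R).at' a).X q) :
    (gAt h b).f q (((G R).mapAt u).f q x) =
      ((G R').mapAt (FB.map u)).f q ((gAt h a).f q x) := by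
  obtain ⟨x, rfl⟩ := Submodule.Quotient.mk_surjective _ x
  exact congrArg Submodule.Quotient.mk (bAt_nat FB u q x)

/-- as a map of coefficient systems -/
noncomputable def gC (h : ∀ n (σ : Sx T n), (σ.push R).push FB = (σ.push FT).push R') (q : ℕ) :
    Coef.Hom (GF R q) ((GF R' q).pull FB) where
  f b := (gAt h b).f q
  comm u x := gAt_nat h u q x

/-- the components of the map of double complexes -/
noncomputable def gf (h : ∀ n (σ : Sx T n), (σ.push R).push FB = (σ.push FT).push R') (q : ℕ) :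
    Cx.Hom (barC (GF R q)) (barC (GF R' q)) :=
  (barHom (gC h q)).comp (barPush FB (GF R' q))

theorem gf_bof (h : ∀ n (σ : Sx T n), (σ.push R).push FB = (σ.push FT).push R') (q p : ℕ)
    (σ : Sx B p) (x : (GF R q).M (σ.o 0)) :
    (gf h q).f p (bof (GF R q) σ x) = bof (GF R' q) (σ.push FB) ((gAt h (σ.o 0)).f q x) := by
  change (barPush FB (GF R' q)).f p ((barHom (gC h q)).f p (bof (GF R q) σ x)) = _
  rw [OvIso.barHom_bof]
  exact bdesc_bof _ _ _ _

/-- the map of double complexes -/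
noncomputable def gD (h : ∀ n (σ : Sx T n), (σ.push R).push FB = (σ.push FT).push R') :
    DCx.Hom (G R).hoco (G R').hoco where
  f p q := (gf h q).f p
  hcomm p q x := (gf h q).comm p x
  vcomm p q x := by
    have : ∀ x : BarX (GF R (q + 1)) p, (gf h q).f p ((barHom ((G R).d q)).f p x) =
        (barHom ((G R').d q)).f p ((gf h (q + 1)).f p x) := by
      intro x
      induction x using bar_ind with
      | h0 => simp only [map_zero]
      | h1 σ y =>
        rw [OvIso.barHom_bof, gf_bof, gf_bof, OvIso.barHom_bof]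
        exact congrArg _ ((gAt h (σ.o 0)).comm q y)
      | h2 x y hx hy => simp only [map_add, hx, hy]
    exact this x

theorem rhoE_nat (h : ∀ n (σ : Sx T n), (σ.push R).push FB = (σ.push FT).push R') (q : ℕ)
    (x : BarX (GF R q) 0) :
    (relMap R R' FB FT h).f q (rhoE R q x) = rhoE R' q ((gf h q).f 0 x) := by
  induction x using bar_ind with
  | h0 => simp only [map_zero]
  | h1 σ y =>
    rw [gf_bof]
    change (relMap R R' FB FT h).f q (bdesc _ _ (bof (GF R q) σ y)) =
      bdesc _ _ (bof (GF R' q) (σ.push FB) _)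
    rw [bdesc_bof, bdesc_bof]
    obtain ⟨y, rfl⟩ := Submodule.Quotient.mk_surjective _ y
    change Submodule.Quotient.mk (Finsupp.mapDomain _ (Finsupp.mapDomain _
      (y : OvS (𝟭 B) (σ.o 0) q →₀ ℚ))) = Submodule.Quotient.mk (Finsupp.mapDomain _
        (Finsupp.mapDomain _ (y : OvS (𝟭 B) (σ.o 0) q →₀ ℚ)))
    rw [← Finsupp.mapDomain_comp, ← Finsupp.mapDomain_comp]
    rfl
  | h2 x y hx hy => simp only [map_add, hx, hy]

theorem rho_nat (h : ∀ n (σ : Sx T n), (σ.push R).push FB = (σ.push FT).push R') (n : ℕ)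
    (y : (G R).hoco.Tot.H n) :
    (relMap R R' FB FT h).H n ((rho R).hom.H n y) =
      (rho R').hom.H n ((gD h).tot.H n y) := by
  obtain ⟨x, hx, rfl⟩ := Cx.H_surj y
  refine Cx.cls_eq.2 ?_
  have h1 := rhoE_nat h n (x.1 0 n)
  change (relMap R R' FB FT h).f n (rhoE R n (x.1 0 n)) -
    rhoE R' n ((gf h n).f 0 (x.1 0 n)) ∈ _
  rw [h1, sub_self]
  exact Submodule.zero_mem _

/-- functoriality of the homology coefficient systems -/
noncomputable def hC (h : ∀ n (σ : Sx T n), (σ.push R).push FB = (σ.push FT).push R') (q : ℕ) :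
    Coef.Hom ((G R).HF q) (((G R').HF q).pull FB) where
  f b := (gAt h b).H q
  comm {a b} u x := by
    obtain ⟨x, hx, rfl⟩ := Cx.H_surj x
    refine Cx.cls_eq.2 ?_
    have h1 := gAt_nat h u q x
    change (gAt h b).f q (((G R).mapAt u).f q x) -
      ((G R').mapAt (FB.map u)).f q ((gAt h a).f q x) ∈ _
    rw [h1, sub_self]
    exact Submodule.zero_mem _

/-- functoriality of the bar complexes -/
noncomputable def hf (h : ∀ n (σ : Sx T n), (σ.push R).push FB = (σ.push FT).push R') (q : ℕ) :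
    Cx.Hom (barC ((G R).HF q)) (barC ((G R').HF q)) :=
  (barHom (hC h q)).comp (barPush FB ((G R').HF q))

theorem hf_bof (h : ∀ n (σ : Sx T n), (σ.push R).push FB = (σ.push FT).push R') (q p : ℕ)
    (σ : Sx B p) (x : ((G R).at' (σ.o 0)).H q) :
    (hf h q).f p (bof ((G R).HF q) σ x) =
      bof ((G R').HF q) (σ.push FB) ((gAt h (σ.o 0)).H q x) := by
  change (barPush FB ((G R').HF q)).f p ((barHom (hC h q)).f p (bof ((G R).HF q) σ x)) = _
  rw [OvIso.barHom_bof]
  exact bdesc_bof _ _ _ _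

theorem e1_nat_chain (h : ∀ n (σ : Sx T n), (σ.push R).push FB = (σ.push FT).push R')
    (q p : ℕ) (z : ((G R).hoco.E1 q).X p) :
    (e1 (G R') q).f p (((gD h).E1 q).f p z) = (hf h q).f p ((e1 (G R) q).f p z) := by
  obtain ⟨w, rfl⟩ : ∃ w, z = (LinearEquiv.ofBijective _ (e1_bij (G R) q p)).symm w :=
    ⟨LinearEquiv.ofBijective _ (e1_bij (G R) q p) z, (LinearEquiv.symm_apply_apply _ _).symm⟩
  have h1 : ∀ w : BarX ((G R).HF q) p, (e1 (G R) q).f p
      ((LinearEquiv.ofBijective _ (e1_bij (G R) q p)).symm w) = w :=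
    fun w => LinearEquiv.apply_symm_apply (LinearEquiv.ofBijective _ (e1_bij (G R) q p)) w
  rw [h1]
  induction w using bar_ind with
  | h0 => simp only [map_zero]
  | h1 σ y =>
    obtain ⟨x, hx, rfl⟩ := Cx.H_surj y
    have h2 : (LinearEquiv.ofBijective _ (e1_bij (G R) q p)).symm
        (bof ((G R).HF q) σ (((G R).at' (σ.o 0)).cls q x hx)) =
        ((G R).hoco.col p).cls q (bof (GF R q) σ x) (bof_Z (G R) q p σ x hx) := by
      rw [LinearEquiv.symm_apply_eq]
      exact (e1_cls (G R) q p σ x hx _).symm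
    rw [h2, hf_bof]
    have h3 : ((gD h).E1 q).f p (((G R).hoco.col p).cls q (bof (GF R q) σ x)
        (bof_Z (G R) q p σ x hx)) = ((G R').hoco.col p).cls q
          (bof (GF R' q) (σ.push FB) ((gAt h (σ.o 0)).f q x))
          (bof_Z (G R') q p (σ.push FB) _ ((gAt h (σ.o 0)).map_Z q hx)) := by
      refine Cx.cls_eq.2 ?_
      change (gf h q).f p (bof (GF R q) σ x) - _ ∈ _
      rw [gf_bof, sub_self]
      exact Submodule.zero_mem _
    rw [h3]
    exact e1_cls (G R') q p (σ.push FB) _ _ _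
  | h2 x y hx hy => simp only [map_add, hx, hy]

theorem e1_nat (h : ∀ n (σ : Sx T n), (σ.push R).push FB = (σ.push FT).push R')
    (q n : ℕ) (z : ((G R).hoco.E1 q).H n) :
    (e1 (G R') q).H n (((gD h).E1 q).H n z) = (hf h q).H n ((e1 (G R) q).H n z) := by
  obtain ⟨x, hx, rfl⟩ := Cx.H_surj z
  refine Cx.cls_eq.2 ?_
  have h1 := e1_nat_chain h q n x
  change (e1 (G R') q).f n (((gD h).E1 q).f n x) - (hf h q).f n ((e1 (G R) q).f n x) ∈ _
  rw [h1, sub_self]
  exact Submodule.zero_mem _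

/-! ### the comparison maps -/

variable (R)

/-- to the relative complex -/
noncomputable def J (n : ℕ) : (G R).hoco.S2.Tot.H (n + 2) →ₗ[ℚ] (relC R).H (n + 2) :=
  ((rho R).hom.H (n + 2)).comp ((G R).hoco.S2i.tot.H (n + 2))

/-- to the bar complex -/
noncomputable def P (n : ℕ) : (G R).hoco.S2.Tot.H (n + 2) →ₗ[ℚ] (barC ((G R).HF 2)).H n :=
  ((e1 (G R) 2).H n).comp (((G R).hoco.S2p.H n).comp ((G R).hoco.S2.Tot.shH n))

variable {R}

theorem J_bij (hR : Inj R) (h0 : ∀ b, Subsingleton (((G R).at' b).H 0))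
    (h1 : ∀ b, Subsingleton (((G R).at' b).H 1)) (n : ℕ) : Function.Bijective (J R n) :=
  (hR.rho (n + 2)).comp (DCx.S2i_qis _ (col_zero (G R) 0 h0) (col_zero (G R) 1 h1) (n + 2))

theorem P_bij (h3 : ∀ b q, Subsingleton (((G R).at' b).H (q + 3))) (n : ℕ) :
    Function.Bijective (P R n) :=
  (qis_of_bij _ (e1_bij (G R) 2) n).comp ((DCx.S2p_qis _ (fun p q =>
    col_zero (G R) (q + 3) (fun b => h3 b q) p) n).comp
      (Cx.shH_bij _ (DCx.S2_tot_one _) n))

theorem rel_zero (hR : Inj R) (h0 : ∀ b, Subsingleton (((G R).at' b).H 0))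
    (h1 : ∀ b, Subsingleton (((G R).at' b).H 1)) : Subsingleton ((relC R).H 0) := by
  have h2 := DCx.S2i_qis _ (col_zero (G R) 0 h0) (col_zero (G R) 1 h1) 0
  have h3 := hR.rho 0
  have h4 : Subsingleton ((G R).hoco.S2.Tot.H 0) := by
    rw [Cx.H_subsingleton]
    intro x _
    have : x = 0 := by
      refine Subtype.ext (funext fun p => funext fun q => ?_)
      match q with
      | 0 => exact Subtype.ext (x.1 p 0).2
      | q + 1 => exact x.2 p (q + 1) (by omega)
    rw [this]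
    exact Submodule.zero_mem _
  exact (h3.comp h2).2.subsingleton

theorem rel_one (hR : Inj R) (h0 : ∀ b, Subsingleton (((G R).at' b).H 0))
    (h1 : ∀ b, Subsingleton (((G R).at' b).H 1)) : Subsingleton ((relC R).H 1) := by
  have h2 := DCx.S2i_qis _ (col_zero (G R) 0 h0) (col_zero (G R) 1 h1) 1
  have h3 := hR.rho 1
  have h4 : Subsingleton ((G R).hoco.S2.Tot.H 1) := by
    rw [Cx.H_subsingleton]
    intro x _
    have := DCx.S2_tot_one (G R).hoco
    rw [Subsingleton.elim x 0]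
    exact Submodule.zero_mem _
  exact (h3.comp h2).2.subsingleton

theorem J_nat (h : ∀ n (σ : Sx T n), (σ.push R).push FB = (σ.push FT).push R') (n : ℕ)
    (s : (G R).hoco.S2.Tot.H (n + 2)) :
    J R' n ((gD h).S2.tot.H (n + 2) s) = (relMap R R' FB FT h).H (n + 2) (J R n s) := by
  change (rho R').hom.H (n + 2) ((G R').hoco.S2i.tot.H (n + 2) ((gD h).S2.tot.H (n + 2) s)) =
    (relMap R R' FB FT h).H (n + 2) ((rho R).hom.H (n + 2) ((G R).hoco.S2i.tot.H (n + 2) s))
  rw [rho_nat, DCx.S2i_nat]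

theorem P_nat (h : ∀ n (σ : Sx T n), (σ.push R).push FB = (σ.push FT).push R') (n : ℕ)
    (s : (G R).hoco.S2.Tot.H (n + 2)) :
    P R' n ((gD h).S2.tot.H (n + 2) s) = (hf h 2).H n (P R n s) := by
  change (e1 (G R') 2).H n ((G R').hoco.S2p.H n ((G R').hoco.S2.Tot.shH n
    ((gD h).S2.tot.H (n + 2) s))) = (hf h 2).H n ((e1 (G R) 2).H n ((G R).hoco.S2p.H n
      ((G R).hoco.S2.Tot.shH n s)))
  rw [Cx.shH_nat, ← DCx.S2p_nat, e1_nat]

end nat

end RelG
end C715
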