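import Pool.Agent.Work.MP_c71557_gt.H.Defs6
import Pool.Agent.Work.MP_c71557_gt.H.AW
import Pool.Agent.Work.MP_c71557_gt.H.E2Aug
import Pool.Agent.Work.MP_c71557_gt.H.TotEx
import Pool.Agent.Work.MP_c71557_gt.H.Const
import Pool.Agent.Work.MP_c71557_gt.H.ConstDir
import Pool.Agent.Work.MP_c71557_gt.H.RelPt
import Pool.Agent.Work.MP_c71557_gt.H.RelGNat

set_option autoImplicit false

/-!
# MP_c71557_gt, module H/RelTop: relative homology when the category over the top object is a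
homology circle (L)

`A : ActCat Γ`, `Q ≤ Γ` containing all admissible elements, `K = A.top Q`, `j = topIncl : A → K`,
`j` over `none` = `CostructuredArrow j none`.  Hypothesis `TopCirc`: this category is connected
and nonempty, `H_1 ≅ ℚ`, `H_{n+2} = 0`, and `Q` acts trivially on `H_1` (through
`CostructuredArrow.map (g : none → none)`).
Conclusions: `H_0(K, A) = H_1(K, A) = 0` and `H_{i+2}(K, A) ≅ H_i(Q)`, naturally.

PROOF.  (1) The relative complex `relC j = C(K)/C(A)` is spanned by the simplices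
`(a_0, …, a_{q-1}, ⊤, …, ⊤)` with `p + 1 ≥ 1` copies of `⊤ = none` (`q ≥ 0`), `n = p + q`.
Consider the double complex `M_{p,q}`, `p, q ≥ 0`, spanned by them.  The faces omitting one of the
`a_i` give the vertical differential, those omitting a `⊤` the horizontal one (if `p = 0`, omitting
the only `⊤` gives a simplex of `A`, which is `0` in the quotient).  `relC j ≅ Tot M` up to signs.
For fixed `p` the column is the direct sum over `(g_1, …, g_p) ∈ Q^p` (the arrows `⊤ → … → ⊤`) of the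
augmented complex, shifted by one, of the category over the first `⊤`:
`q ↦ ℚ[OvS j ⊤ (q-1)]`, `q = 0 ↦ ℚ`.
In the language of this library: let `L̄ : CoefCx (sg Q)`, `L̄_0 = const ℚ`,
`L̄_{q+1} = ` restriction of `ovF j q` along `atTop : sg Q → K`, differential `L̄_1 → L̄_0` the
augmentation.  `Tot (L̄.hoco)` is isomorphic to `relC j`; or avoid this isomorphism by the
following argument: let `L̄K : CoefCx K` be the augmented complex `ovF j (q-1)`, `const ℚ`, on all of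
`K`.  Over the objects `some a` it is exact (`CostructuredArrow j (some a)` has a terminal object, as
`j` is fully faithful), and `H_n(Tot L̄K.hoco)` is the homology of the cone of
`Tot (overL j).hoco → NC K`, i.e. by `eps1_qis`, `eps_agree` of `NC A → NC K` (`TotEx.tot_SES` for
`0 → const ℚ → L̄K → (overL j)[1] → 0`).
(2) By the hypotheses the homology `H_q` of `L̄` is zero except for `q = 2`, where it is
`H_1(j/⊤) ≅ ℚ` with trivial action of `Q`.  So `E¹_{p,q} = 0` for `q ≠ 2` and the row `q = 2` is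
`barC (const ℚ)` on `sg Q`, whose homology is `H_p(Q)`.  A double complex whose columns have
homology only in degree `2` satisfies `H_{n+2}(Tot) ≅ H_n(E1 2)`, `H_0 = H_1 = 0`, naturally: (a)
replace the columns by their truncations (subcomplex of elements of degree `q ≥ 3` and cycles of
degree `2`: a column quasi-isomorphism), (b) map to the row `H_2`.
(3) Naturality: everything is functorial for `topMap`; `TopCirc` for `A` and `A'` and
the map on `H_1` of the categories over `⊤` bijective: it gives the scalar relating the two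
identifications with `ℚ`, which can be absorbed in `ψ`.
The module may be split.
-/

namespace C715

open CategoryTheory

namespace ActCat

variable {Γ : Type} [Group Γ]

/-- the category over the top object -/
abbrev OvTop (A : ActCat Γ) (Q : Subgroup Γ) (hQ : ∀ {a b g}, A.Adm a g b → g ∈ Q) : Type :=
  CostructuredArrow (A.topIncl Q hQ) (⟨none⟩ : (A.top Q hQ).Obj)

/-- the category over the top object is a homology circle with trivial action of `Q` -/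
structure TopCirc (A : ActCat Γ) (Q : Subgroup Γ) (hQ : ∀ {a b g}, A.Adm a g b → g ∈ Q) :
    Prop where
  ne : Nonempty (OvTop A Q hQ)
  conn : ∀ x : (NC (OvTop A Q hQ)).X 0,
    Finsupp.linearCombination ℚ (fun _ => (1 : ℚ)) x = 0 → x ∈ (NC (OvTop A Q hQ)).Bd 0
  one : Nonempty (HC (OvTop A Q hQ) 1 ≃ₗ[ℚ] ℚ)
  two : ∀ n, Subsingleton (HC (OvTop A Q hQ) (n + 2))
  act : ∀ (g : Γ) (hg : g ∈ Q) (x : HC (OvTop A Q hQ) 1),
    HCmap (CostructuredArrow.map (S := A.topIncl Q hQ)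
      ((A.top Q hQ).hom (a := none) (b := none) g hg)) 1 x = x

/-! ### auxiliary lemmas (private) -/

private theorem top_inj (A : ActCat Γ) (Q : Subgroup Γ) (hQ : ∀ {a b g}, A.Adm a g b → g ∈ Q) :
    RelG.Inj (A.topIncl Q hQ) := by
  intro n σ τ h
  obtain ⟨o, m, ms, mc⟩ := σ
  obtain ⟨o', m', ms', mc'⟩ := τ
  have ho : o = o' := by
    funext i
    have h1 := congrFun (congrArg Sx.o h) i
    have h2 : (some (o i).o : Option A.Ob) = some (o' i).o := congrArg Obj.o h1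
    exact Obj.ext (Option.some.inj h2)
  subst ho
  have hm : m = m' := by
    have h1 := (Sx.ext_iff.1 h).2
    have h2 := eq_of_heq h1
    funext i j hij
    have h3 := congrFun (congrFun (congrFun h2 i) j) hij
    obtain ⟨g, hg, e⟩ := hom_surj (m i j hij)
    obtain ⟨g', hg', e'⟩ := hom_surj (m' i j hij)
    change (A.topIncl Q hQ).map (m i j hij) = (A.topIncl Q hQ).map (m' i j hij) at h3
    rw [e, e'] at h3 ⊢
    exact hom_eq.2 (hom_eq.1 h3)
  subst hm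
  rfl

private theorem acy_some (A : ActCat Γ) (Q : Subgroup Γ) (hQ : ∀ {a b g}, A.Adm a g b → g ∈ Q)
    (a : A.Ob) : Acy (CostructuredArrow (A.topIncl Q hQ) (⟨some a⟩ : (A.top Q hQ).Obj)) := by
  refine acy_of_terminal (CostructuredArrow.mk (S := A.topIncl Q hQ) (Y := (⟨a⟩ : A.Obj))
    (𝟙 (⟨some a⟩ : (A.top Q hQ).Obj))) fun d => ?_
  obtain ⟨g, hg, e⟩ := hom_surj d.hom
  have hg' : A.Adm d.left.o g a := hg
  refine ⟨CostructuredArrow.homMk (A.hom (a := d.left.o) (b := a) g hg') ?_, trivial,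
    fun f _ => ?_⟩
  · rw [e]
    exact Category.comp_id _
  · ext
    have h1 := CostructuredArrow.w f
    have h2 : (A.topIncl Q hQ).map f.left = d.hom := (Category.comp_id _).symm.trans h1
    obtain ⟨g', hg'', e'⟩ := hom_surj f.left
    rw [e', e] at h2
    rw [e']
    exact hom_eq.2 (hom_eq.1 h2)

private theorem cn_top {A : ActCat Γ} {Q : Subgroup Γ} {hQ : ∀ {a b g}, A.Adm a g b → g ∈ Q}
    (h : TopCirc A Q hQ) : RelG.Cn (A.topIncl Q hQ) (⟨none⟩ : (A.top Q hQ).Obj) :=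
  ⟨h.ne, h.conn⟩

private theorem G0 {A : ActCat Γ} {Q : Subgroup Γ} {hQ : ∀ {a b g}, A.Adm a g b → g ∈ Q}
    (h : TopCirc A Q hQ) (b : (A.top Q hQ).Obj) :
    Subsingleton (((RelG.G (A.topIncl Q hQ)).at' b).H 0) := by
  obtain ⟨_ | a⟩ := b
  · exact RelG.G_zero (cn_top h).ov.1
  · exact RelG.G_acy (top_inj A Q hQ) _ (acy_some A Q hQ a) 0

private theorem G1 {A : ActCat Γ} {Q : Subgroup Γ} {hQ : ∀ {a b g}, A.Adm a g b → g ∈ Q}
    (h : TopCirc A Q hQ) (b : (A.top Q hQ).Obj) :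
    Subsingleton (((RelG.G (A.topIncl Q hQ)).at' b).H 1) := by
  obtain ⟨_ | a⟩ := b
  · exact RelG.G_one (top_inj A Q hQ) (cn_top h).ov.2
  · exact RelG.G_acy (top_inj A Q hQ) _ (acy_some A Q hQ a) 1

private theorem G3 {A : ActCat Γ} {Q : Subgroup Γ} {hQ : ∀ {a b g}, A.Adm a g b → g ∈ Q}
    (h : TopCirc A Q hQ) (b : (A.top Q hQ).Obj) (q : ℕ) :
    Subsingleton (((RelG.G (A.topIncl Q hQ)).at' b).H (q + 3)) := by
  obtain ⟨_ | a⟩ := b
  · exact RelG.G_succ (top_inj A Q hQ) _ (q + 1) (h.two q)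
  · exact RelG.G_acy (top_inj A Q hQ) _ (acy_some A Q hQ a) (q + 3)

/-- the one dimensional space `H_2` of the relative complex over the top object -/
private abbrev V (A : ActCat Γ) (Q : Subgroup Γ) (hQ : ∀ {a b g}, A.Adm a g b → g ∈ Q) : Type :=
  ((RelG.G (A.topIncl Q hQ)).at' (⟨none⟩ : (A.top Q hQ).Obj)).H 2

private theorem V_act {A : ActCat Γ} {Q : Subgroup Γ} {hQ : ∀ {a b g}, A.Adm a g b → g ∈ Q}
    (h : TopCirc A Q hQ) (u : (⟨none⟩ : (A.top Q hQ).Obj) ⟶ ⟨none⟩) (v : V A Q hQ) :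
    ((RelG.G (A.topIncl Q hQ)).HF 2).map u v = v := by
  have hi := top_inj A Q hQ
  refine (RelG.dlt_bij hi (⟨none⟩ : (A.top Q hQ).Obj) 0).1 ?_
  change RelG.dlt hi _ 1 (((RelG.G (A.topIncl Q hQ)).mapAt u).H 2 v) = RelG.dlt hi _ 1 v
  rw [← RelG.dlt_nat hi u 1 v]
  obtain ⟨y, hy⟩ := (RelG.io (A.topIncl Q hQ) (⟨none⟩ : (A.top Q hQ).Obj) 1).surjective
    (RelG.dlt hi _ 1 v)
  rw [← hy, ← RelG.io_nat]
  obtain ⟨g, hg, rfl⟩ := hom_surj u
  exact congrArg _ (h.act g hg y)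

/-- `v` spans the one dimensional space -/
private def Gen {A : ActCat Γ} {Q : Subgroup Γ} {hQ : ∀ {a b g}, A.Adm a g b → g ∈ Q}
    (v : V A Q hQ) : Prop := v ≠ 0 ∧ ∀ w : V A Q hQ, ∃ a : ℚ, w = a • v

private theorem exists_gen {A : ActCat Γ} {Q : Subgroup Γ} {hQ : ∀ {a b g}, A.Adm a g b → g ∈ Q}
    (h : TopCirc A Q hQ) : ∃ v : V A Q hQ, Gen v := by
  have hi := top_inj A Q hQ
  obtain ⟨e⟩ := h.one
  let f : V A Q hQ ≃ₗ[ℚ] ℚ :=
    (LinearEquiv.ofBijective (RelG.dlt hi (⟨none⟩ : (A.top Q hQ).Obj) 1)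
      (RelG.dlt_bij hi _ 0)).trans
      ((RelG.io (A.topIncl Q hQ) (⟨none⟩ : (A.top Q hQ).Obj) 1).symm.trans e)
  refine ⟨f.symm 1, fun h0 => ?_, fun w => ⟨f w, ?_⟩⟩
  · rw [LinearEquiv.map_eq_zero_iff] at h0
    exact one_ne_zero h0
  · apply f.injective
    rw [map_smul, LinearEquiv.apply_symm_apply, smul_eq_mul, mul_one]

/-- the comparison of `C_*(Q)` and the bar complex of `H_2` -/
private noncomputable def kp {A : ActCat Γ} {Q : Subgroup Γ}
    {hQ : ∀ {a b g}, A.Adm a g b → g ∈ Q} (h : TopCirc A Q hQ) (v : V A Q hQ) :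
    Cx.Hom (NC (sg Q).Obj) (barC ((RelG.G (A.topIncl Q hQ)).HF 2)) :=
  RelG.kp ((RelG.G (A.topIncl Q hQ)).HF 2) (A.atTop Q hQ) (fun _ => v)
    (fun {_ _} u => V_act h ((A.atTop Q hQ).map u) v)

private theorem atTop_inj (A : ActCat Γ) (Q : Subgroup Γ)
    (hQ : ∀ {a b g}, A.Adm a g b → g ∈ Q) (n : ℕ) :
    Function.Injective (fun σ : Sx (sg Q).Obj n => σ.push (A.atTop Q hQ)) := by
  intro σ τ h
  obtain ⟨o, m, ms, mc⟩ := σ
  obtain ⟨o', m', ms', mc'⟩ := τ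
  have ho : o = o' := funext fun i => Obj.ext rfl
  subst ho
  have hm : m = m' := by
    have h1 := (Sx.ext_iff.1 h).2
    have h2 := eq_of_heq h1
    funext i j hij
    have h3 := congrFun (congrFun (congrFun h2 i) j) hij
    obtain ⟨g, hg, e⟩ := hom_surj (m i j hij)
    obtain ⟨g', hg', e'⟩ := hom_surj (m' i j hij)
    change (A.atTop Q hQ).map (m i j hij) = (A.atTop Q hQ).map (m' i j hij) at h3
    rw [e, e'] at h3 ⊢
    change (A.top Q hQ).hom (a := none) (b := none) g hg =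
      (A.top Q hQ).hom (a := none) (b := none) g' hg' at h3
    exact hom_eq.2 (hom_eq.1 h3)
  subst hm
  rfl

private theorem atTop_lift (A : ActCat Γ) (Q : Subgroup Γ)
    (hQ : ∀ {a b g}, A.Adm a g b → g ∈ Q) (n : ℕ) (σ : Sx (A.top Q hQ).Obj n)
    (h0 : σ.o 0 = ⟨none⟩) : ∃ τ : Sx (sg Q).Obj n, τ.push (A.atTop Q hQ) = σ := by
  obtain ⟨o, m, ms, mc⟩ := σ
  have ho : o = fun _ => ⟨none⟩ := by
    funext i
    obtain ⟨g, hg, -⟩ := hom_surj (m 0 i (Fin.zero_le _))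
    have h0' : o 0 = ⟨none⟩ := h0
    rw [h0'] at hg
    generalize o i = c at hg
    obtain ⟨_ | a⟩ := c
    · rfl
    · exact False.elim hg
  subst ho
  refine ⟨⟨fun _ => ⟨()⟩, fun i j hij => m i j hij, fun i => ms i, fun i j k h h' =>
    mc i j k h h'⟩, ?_⟩
  refine Sx.ext rfl (heq_of_eq ?_)
  funext i j hij
  change (A.atTop Q hQ).map (X := (⟨()⟩ : (sg Q).Obj)) (Y := (⟨()⟩ : (sg Q).Obj)) (m i j hij) =
    m i j hij
  obtain ⟨g, hg, e⟩ := hom_surj (m i j hij)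
  rw [e]
  rfl

private theorem kp_bij {A : ActCat Γ} {Q : Subgroup Γ}
    {hQ : ∀ {a b g}, A.Adm a g b → g ∈ Q} (h : TopCirc A Q hQ) (v : V A Q hQ) (hv : Gen v)
    (n : ℕ) : Function.Bijective ((kp h v).f n) := by
  refine RelG.kp_bij ((RelG.G (A.topIncl Q hQ)).HF 2) (A.atTop Q hQ) (fun _ => v)
    (fun {_ _} u => V_act h ((A.atTop Q hQ).map u) v) (atTop_inj A Q hQ) (fun _ => hv.1)
    (fun _ w => hv.2 w) (fun n σ => ?_) n
  rcases hσ : σ.o 0 with ⟨_ | a⟩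
  · exact Or.inl (atTop_lift A Q hQ n σ hσ)
  · right
    exact RelG.G_acy (top_inj A Q hQ) _ (acy_some A Q hQ a) 2

/-- the isomorphism -/
private noncomputable def psi {A : ActCat Γ} {Q : Subgroup Γ}
    {hQ : ∀ {a b g}, A.Adm a g b → g ∈ Q} (h : TopCirc A Q hQ) (v : V A Q hQ) (hv : Gen v)
    (i : ℕ) : (relC (A.topIncl Q hQ)).H (i + 2) ≃ₗ[ℚ] HC (sg Q).Obj i :=
  (LinearEquiv.ofBijective _ (RelG.J_bij (top_inj A Q hQ) (G0 h) (G1 h) i)).symm.trans
    ((LinearEquiv.ofBijective _ (RelG.P_bij (G3 h) i)).trans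
      (LinearEquiv.ofBijective _ (qis_of_bij (kp h v) (kp_bij h v hv) i)).symm)

private theorem psi_spec {A : ActCat Γ} {Q : Subgroup Γ}
    {hQ : ∀ {a b g}, A.Adm a g b → g ∈ Q} (h : TopCirc A Q hQ) (v : V A Q hQ) (hv : Gen v)
    (i : ℕ) (s : (RelG.G (A.topIncl Q hQ)).hoco.S2.Tot.H (i + 2)) :
    (kp h v).H i (psi h v hv i (RelG.J (A.topIncl Q hQ) i s)) =
      RelG.P (A.topIncl Q hQ) i s := by
  have h1 : (LinearEquiv.ofBijective _ (RelG.J_bij (top_inj A Q hQ) (G0 h) (G1 h) i)).symm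
      (RelG.J (A.topIncl Q hQ) i s) = s := by
    rw [LinearEquiv.symm_apply_eq]
    rfl
  change (LinearEquiv.ofBijective _ (qis_of_bij (kp h v) (kp_bij h v hv) i))
    ((LinearEquiv.ofBijective _ (qis_of_bij (kp h v) (kp_bij h v hv) i)).symm
      ((LinearEquiv.ofBijective _ (RelG.P_bij (G3 h) i)) ((LinearEquiv.ofBijective _
        (RelG.J_bij (top_inj A Q hQ) (G0 h) (G1 h) i)).symm
          (RelG.J (A.topIncl Q hQ) i s)))) = _
  rw [h1, LinearEquiv.apply_symm_apply]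
  rfl

theorem relTop (A : ActCat Γ) (Q : Subgroup Γ) (hQ : ∀ {a b g}, A.Adm a g b → g ∈ Q)
    (h : TopCirc A Q hQ) :
    Subsingleton ((relC (A.topIncl Q hQ)).H 0) ∧ Subsingleton ((relC (A.topIncl Q hQ)).H 1) ∧
      ∀ i, Nonempty ((relC (A.topIncl Q hQ)).H (i + 2) ≃ₗ[ℚ] HC (sg Q).Obj i) := by
  obtain ⟨v, hv⟩ := exists_gen h
  exact ⟨RelG.rel_zero (top_inj A Q hQ) (G0 h) (G1 h), RelG.rel_one (top_inj A Q hQ) (G0 h) (G1 h),
    fun i => ⟨psi h v hv i⟩⟩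

/-- the functor on the categories over the top object induced by `topMap` -/
def ovTopMap {A A' : ActCat Γ} {Q Q' : Subgroup Γ} (hQ : ∀ {a b g}, A.Adm a g b → g ∈ Q)
    (hQ' : ∀ {a b g}, A'.Adm a g b → g ∈ Q') (hle : Q ≤ Q') (f : A.Ob → A'.Ob)
    (hAdm : ∀ {a b : A.Ob} {g : Γ}, A.Adm a g b → A'.Adm (f a) g (f b))
    (hN : ∀ {a : A.Ob} {n : Γ}, n ∈ A.N a → n ∈ A'.N (f a)) :
    OvTop A Q hQ ⥤ OvTop A' Q' hQ' where
  obj x := CostructuredArrow.mk (Y := (idFun f hAdm hN).obj x.left)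
    ((topMap hQ hQ' hle f hAdm hN).map x.hom :
      (A'.topIncl Q' hQ').obj ((idFun f hAdm hN).obj x.left) ⟶ (⟨none⟩ : (A'.top Q' hQ').Obj))
  map {x y} u := CostructuredArrow.homMk ((idFun f hAdm hN).map u.left) (by
    have h := CostructuredArrow.w u
    have h1 := congrArg (fun v => (topMap hQ hQ' hle f hAdm hN).map v) h
    simp only [Functor.map_comp] at h1
    obtain ⟨g, hg, e⟩ := hom_surj u.left
    rw [e] at h1 ⊢
    exact h1)
  map_id x := by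
    ext
    exact (idFun f hAdm hN).map_id x.left
  map_comp u v := by
    ext
    exact (idFun f hAdm hN).map_comp u.left v.left

section natP

variable {A A' : ActCat Γ} {Q Q' : Subgroup Γ} (hQ : ∀ {a b g}, A.Adm a g b → g ∈ Q)
  (hQ' : ∀ {a b g}, A'.Adm a g b → g ∈ Q') (hle : Q ≤ Q') (f : A.Ob → A'.Ob)
  (hAdm : ∀ {a b : A.Ob} {g : Γ}, A.Adm a g b → A'.Adm (f a) g (f b))
  (hN : ∀ {a : A.Ob} {n : Γ}, n ∈ A.N a → n ∈ A'.N (f a))

private theorem sq {x y : A.Obj} (u : x ⟶ y) :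
    (topMap hQ hQ' hle f hAdm hN).map ((A.topIncl Q hQ).map u) =
      (A'.topIncl Q' hQ').map ((idFun f hAdm hN).map u) := by
  obtain ⟨g, hg, rfl⟩ := hom_surj u
  rfl

private def oq (q : ℕ) (x : OvS (A.topIncl Q hQ) (⟨none⟩ : (A.top Q hQ).Obj) q) :
    OvS (A'.topIncl Q' hQ') (⟨none⟩ : (A'.top Q' hQ').Obj) q where
  τ := x.τ.push (idFun f hAdm hN)
  f := (topMap hQ hQ' hle f hAdm hN).map x.f

private noncomputable def oAt :
    Cx.Hom ((overL (A.topIncl Q hQ)).at' (⟨none⟩ : (A.top Q hQ).Obj))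
      ((overL (A'.topIncl Q' hQ')).at' (⟨none⟩ : (A'.top Q' hQ').Obj)) where
  f q := Finsupp.lmapDomain ℚ ℚ (oq hQ hQ' hle f hAdm hN q)
  comm q x := by
    change Finsupp.lmapDomain ℚ ℚ (oq hQ hQ' hle f hAdm hN q)
      ((ovS (A.topIncl Q hQ) (⟨none⟩ : (A.top Q hQ).Obj)).alt q x) =
      (ovS (A'.topIncl Q' hQ') (⟨none⟩ : (A'.top Q' hQ').Obj)).alt q
        (Finsupp.mapDomain (oq hQ hQ' hle f hAdm hN (q + 1)) x)
    rw [SMod.alt_apply, SMod.alt_apply, map_sum]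
    refine Finset.sum_congr rfl fun i _ => ?_
    rw [map_smul]
    congr 1
    change Finsupp.mapDomain _ (Finsupp.mapDomain _
      (x : OvS (A.topIncl Q hQ) (⟨none⟩ : (A.top Q hQ).Obj) (q + 1) →₀ ℚ)) =
      Finsupp.mapDomain _ (Finsupp.mapDomain _
        (x : OvS (A.topIncl Q hQ) (⟨none⟩ : (A.top Q hQ).Obj) (q + 1) →₀ ℚ))
    rw [← Finsupp.mapDomain_comp, ← Finsupp.mapDomain_comp]
    congr 1
    refine funext fun y => OvS.ext rfl (heq_of_eq ?_)
    refine ((topMap hQ hQ' hle f hAdm hN).map_comp _ _).trans ?_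
    exact congrArg (fun u => u ≫ (topMap hQ hQ' hle f hAdm hN).map y.f)
      (sq hQ hQ' hle f hAdm hN _)

private theorem io_oAt (q : ℕ) (y : HC (OvTop A Q hQ) q) :
    RelG.io (A'.topIncl Q' hQ') (⟨none⟩ : (A'.top Q' hQ').Obj) q
      (HCmap (ovTopMap hQ hQ' hle f hAdm hN) q y) =
      (oAt hQ hQ' hle f hAdm hN).H q
        (RelG.io (A.topIncl Q hQ) (⟨none⟩ : (A.top Q hQ).Obj) q y) := by
  obtain ⟨x, hx, rfl⟩ := Cx.H_surj y
  refine Cx.cls_eq.2 ?_
  have key : ((ovIso (A'.topIncl Q' hQ') (⟨none⟩ : (A'.top Q' hQ').Obj)).f q).comp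
      ((NCmap (ovTopMap hQ hQ' hle f hAdm hN)).f q) =
      ((oAt hQ hQ' hle f hAdm hN).f q).comp
        ((ovIso (A.topIncl Q hQ) (⟨none⟩ : (A.top Q hQ).Obj)).f q) := by
    refine Finsupp.lhom_ext fun σ a => ?_
    change (ovIso (A'.topIncl Q' hQ') (⟨none⟩ : (A'.top Q' hQ').Obj)).f q
      ((NCmap (ovTopMap hQ hQ' hle f hAdm hN)).f q (Finsupp.single σ a)) =
      Finsupp.mapDomain (oq hQ hQ' hle f hAdm hN q)
        ((ovIso (A.topIncl Q hQ) (⟨none⟩ : (A.top Q hQ).Obj)).f q (Finsupp.single σ a))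
    rw [NCmap_single, ovIso_single, ovIso_single]
    refine Eq.trans ?_ (Finsupp.mapDomain_single (M := ℚ)
      (f := oq hQ hQ' hle f hAdm hN q)).symm
    rfl
  have h1 := LinearMap.congr_fun key x
  change (ovIso (A'.topIncl Q' hQ') (⟨none⟩ : (A'.top Q' hQ').Obj)).f q
      ((NCmap (ovTopMap hQ hQ' hle f hAdm hN)).f q x) -
      (oAt hQ hQ' hle f hAdm hN).f q
        ((ovIso (A.topIncl Q hQ) (⟨none⟩ : (A.top Q hQ).Obj)).f q x) ∈ _
  rw [show (ovIso (A'.topIncl Q' hQ') (⟨none⟩ : (A'.top Q' hQ').Obj)).f q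
      ((NCmap (ovTopMap hQ hQ' hle f hAdm hN)).f q x) = (oAt hQ hQ' hle f hAdm hN).f q
        ((ovIso (A.topIncl Q hQ) (⟨none⟩ : (A.top Q hQ).Obj)).f q x) from h1, sub_self]
  exact Submodule.zero_mem _

/-- the map `V → V'` -/
private noncomputable def vm : V A Q hQ →ₗ[ℚ] V A' Q' hQ' :=
  (RelG.gAt (topMap_comm hQ hQ' hle f hAdm hN) (⟨none⟩ : (A.top Q hQ).Obj)).H 2

private theorem dlt_vm (v : V A Q hQ) :
    (oAt hQ hQ' hle f hAdm hN).H 1 (RelG.dlt (top_inj A Q hQ)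
      (⟨none⟩ : (A.top Q hQ).Obj) 1 v) = RelG.dlt (top_inj A' Q' hQ')
        (⟨none⟩ : (A'.top Q' hQ').Obj) 1 (vm hQ hQ' hle f hAdm hN v) := by
  refine Cx.delta_nat ((top_inj A Q hQ).ses (⟨none⟩ : (A.top Q hQ).Obj))
    ((top_inj A' Q' hQ').ses (⟨none⟩ : (A'.top Q' hQ').Obj)) (oAt hQ hQ' hle f hAdm hN)
    (RelG.bAt (topMap hQ hQ' hle f hAdm hN) (⟨none⟩ : (A.top Q hQ).Obj))
    (RelG.gAt (topMap_comm hQ hQ' hle f hAdm hN) (⟨none⟩ : (A.top Q hQ).Obj))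
    (fun n x => ?_) (fun n x => rfl) 1 v
  change Finsupp.mapDomain _ (Finsupp.mapDomain _
      (x : OvS (A.topIncl Q hQ) (⟨none⟩ : (A.top Q hQ).Obj) n →₀ ℚ)) =
      Finsupp.mapDomain _ (Finsupp.mapDomain _
        (x : OvS (A.topIncl Q hQ) (⟨none⟩ : (A.top Q hQ).Obj) n →₀ ℚ))
  rw [← Finsupp.mapDomain_comp, ← Finsupp.mapDomain_comp]
  congr 1
  exact funext fun y => OvS.ext (topMap_comm hQ hQ' hle f hAdm hN n y.τ) HEq.rfl

private theorem vm_bij (h1 : Function.Bijective (HCmap (ovTopMap hQ hQ' hle f hAdm hN) 1)) :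
    Function.Bijective (vm hQ hQ' hle f hAdm hN) := by
  have h2 : Function.Bijective ((oAt hQ hQ' hle f hAdm hN).H 1) := by
    have h3 : ((oAt hQ hQ' hle f hAdm hN).H 1) ∘
        (RelG.io (A.topIncl Q hQ) (⟨none⟩ : (A.top Q hQ).Obj) 1) =
        (RelG.io (A'.topIncl Q' hQ') (⟨none⟩ : (A'.top Q' hQ').Obj) 1) ∘
          (HCmap (ovTopMap hQ hQ' hle f hAdm hN) 1) :=
      funext fun y => (io_oAt hQ hQ' hle f hAdm hN 1 y).symm
    refine (Function.Bijective.of_comp_iff _ (LinearEquiv.bijective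
      (RelG.io (A.topIncl Q hQ) (⟨none⟩ : (A.top Q hQ).Obj) 1))).1 ?_
    rw [h3]
    exact (LinearEquiv.bijective _).comp h1
  have h4 : (RelG.dlt (top_inj A' Q' hQ') (⟨none⟩ : (A'.top Q' hQ').Obj) 1) ∘
      (vm hQ hQ' hle f hAdm hN) = ((oAt hQ hQ' hle f hAdm hN).H 1) ∘
        (RelG.dlt (top_inj A Q hQ) (⟨none⟩ : (A.top Q hQ).Obj) 1) :=
    funext fun v => (dlt_vm hQ hQ' hle f hAdm hN v).symm
  refine (Function.Bijective.of_comp_iff' (RelG.dlt_bij (top_inj A' Q' hQ')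
    (⟨none⟩ : (A'.top Q' hQ').Obj) 0) _).1 ?_
  rw [h4]
  exact h2.comp (RelG.dlt_bij (top_inj A Q hQ) (⟨none⟩ : (A.top Q hQ).Obj) 0)

private theorem vm_gen (h1 : Function.Bijective (HCmap (ovTopMap hQ hQ' hle f hAdm hN) 1))
    (v : V A Q hQ) (hv : Gen v) : Gen (vm hQ hQ' hle f hAdm hN v) := by
  have hb := vm_bij hQ hQ' hle f hAdm hN h1
  refine ⟨fun h0 => hv.1 ?_, fun w => ?_⟩
  · exact hb.1 (h0.trans (map_zero _).symm)
  · obtain ⟨w, rfl⟩ := hb.2 w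
    obtain ⟨a, rfl⟩ := hv.2 w
    exact ⟨a, map_smul _ _ _⟩

private theorem kp_natP (h : TopCirc A Q hQ) (h' : TopCirc A' Q' hQ') (v : V A Q hQ) (n : ℕ)
    (x : HC (sg Q).Obj n) :
    (kp h' (vm hQ hQ' hle f hAdm hN v)).H n (HCmap (sgIncl hle) n x) =
      (RelG.hf (topMap_comm hQ hQ' hle f hAdm hN) 2).H n ((kp h v).H n x) := by
  refine RelG.kp_nat (hv := fun {_ _} u => V_act h ((A.atTop Q hQ).map u) v)
    (hv' := fun {_ _} u => V_act h' ((A'.atTop Q' hQ').map u) _)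
    (RelG.hf (topMap_comm hQ hQ' hle f hAdm hN) 2) (sgIncl hle) (fun n σ => ?_) n x
  refine (RelG.hf_bof (topMap_comm hQ hQ' hle f hAdm hN) 2 n (σ.push (A.atTop Q hQ)) v).trans ?_
  refine RelG.bof_congr ((RelG.G (A'.topIncl Q' hQ')).HF 2) (fun _ => ⟨none⟩) _ _ _ _ _ _ ?_
    (vm hQ hQ' hle f hAdm hN v)
  funext i j hij
  obtain ⟨g, hg, e⟩ := hom_surj (σ.m i j hij)
  change (topMap hQ hQ' hle f hAdm hN).map ((A.atTop Q hQ).map (σ.m i j hij)) =
    (A'.atTop Q' hQ').map ((sgIncl hle).map (σ.m i j hij))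
  rw [e]
  rfl

end natP

theorem relTop_nat {A A' : ActCat Γ} {Q Q' : Subgroup Γ} (hQ : ∀ {a b g}, A.Adm a g b → g ∈ Q)
    (hQ' : ∀ {a b g}, A'.Adm a g b → g ∈ Q') (hle : Q ≤ Q') (f : A.Ob → A'.Ob)
    (hAdm : ∀ {a b : A.Ob} {g : Γ}, A.Adm a g b → A'.Adm (f a) g (f b))
    (hN : ∀ {a : A.Ob} {n : Γ}, n ∈ A.N a → n ∈ A'.N (f a))
    (h : TopCirc A Q hQ) (h' : TopCirc A' Q' hQ')
    (h1 : Function.Bijective (HCmap (ovTopMap hQ hQ' hle f hAdm hN) 1)) (i : ℕ) :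
    ∃ (ψ : (relC (A.topIncl Q hQ)).H (i + 2) ≃ₗ[ℚ] HC (sg Q).Obj i)
      (ψ' : (relC (A'.topIncl Q' hQ')).H (i + 2) ≃ₗ[ℚ] HC (sg Q').Obj i),
      ∀ x, ψ' ((relMap (A.topIncl Q hQ) (A'.topIncl Q' hQ') (topMap hQ hQ' hle f hAdm hN)
        (idFun f hAdm hN) (topMap_comm hQ hQ' hle f hAdm hN)).H (i + 2) x) =
        HCmap (sgIncl hle) i (ψ x) := by
  obtain ⟨v, hv⟩ := exists_gen h
  have hv' := vm_gen hQ hQ' hle f hAdm hN h1 v hv
  refine ⟨psi h v hv i, psi h' _ hv' i, fun x => ?_⟩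
  obtain ⟨s, rfl⟩ := (RelG.J_bij (top_inj A Q hQ) (G0 h) (G1 h) i).2 x
  rw [← RelG.J_nat (topMap_comm hQ hQ' hle f hAdm hN) i s]
  refine (qis_of_bij (kp h' _) (kp_bij h' _ hv') i).1 ?_
  rw [psi_spec h' _ hv' i, kp_natP hQ hQ' hle f hAdm hN h h' v i, psi_spec h v hv i, RelG.P_nat]

end ActCat
end C715
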