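import Pool.Agent.Work.MP_c71557_gt.H.BarEx

set_option autoImplicit false

/-!
# MP_c71557_gt, module H/FreeEl: chains with free coefficients are chains of the category of
elements (S-M)

`⨁_σ ℚ[X (σ 0)]` has as basis the pairs `(σ, x ∈ X (σ 0))`, which are the simplices of
`X.Elements` (the objects over `σ i` are `X(σ_{0i}) x`, the arrows are the arrows of `σ`).
-/

namespace C715

open CategoryTheory

variable {C : Type} [SmallCategory C]

/-- the lift of a simplex to the category of elements -/
private def liftS (X : C ⥤ Type) {n : ℕ} (σ : Sx C n) (x : X.obj (σ.o 0)) : Sx X.Elements n where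
  o i := ⟨σ.o i, X.map (σ.m 0 i (Fin.zero_le _)) x⟩
  m i j h := ⟨σ.m i j h, by
    change X.map (σ.m i j h) (X.map (σ.m 0 i (Fin.zero_le _)) x) = X.map (σ.m 0 j (Fin.zero_le _)) x
    rw [← σ.m_comp 0 i j (Fin.zero_le _) h, X.map_comp]
    rfl⟩
  m_self i := Subtype.ext (σ.m_self i)
  m_comp i j k h h' := Subtype.ext (σ.m_comp i j k h h')

private theorem liftS_push (X : C ⥤ Type) {n : ℕ} (σ : Sx C n) (x : X.obj (σ.o 0)) :
    (liftS X σ x).push (CategoryOfElements.π X) = σ := rfl

private theorem Sx_ext' {n : ℕ} {σ τ : Sx C n} (ho : ∀ i, σ.o i = τ.o i)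
    (hm : ∀ i j h, σ.m i j h ≫ eqToHom (ho j) = eqToHom (ho i) ≫ τ.m i j h) : σ = τ := by
  rcases σ with ⟨o, m, _, _⟩
  rcases τ with ⟨o', m', _, _⟩
  have h : o = o' := funext ho
  subst h
  have h' : m = m' := by
    funext i j h
    have := hm i j h
    simpa using this
  subst h'
  rfl

private theorem liftS_eq (X : C ⥤ Type) {n : ℕ} (σ : Sx X.Elements n) :
    liftS X (σ.push (CategoryOfElements.π X)) (σ.o 0).2 = σ := by
  refine Sx_ext' (fun i => ?_) (fun i j h => ?_)
  · refine Sigma.ext rfl (heq_of_eq ?_)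
    exact (σ.m 0 i (Fin.zero_le _)).2
  · apply (CategoryOfElements.π X).map_injective
    rw [Functor.map_comp, Functor.map_comp, eqToHom_map, eqToHom_map]
    exact (Category.comp_id _).trans (Category.id_comp _).symm

private theorem liftS_pre (X : C ⥤ Type) {m n : ℕ} (φ : Fin (m + 1) →o Fin (n + 1))
    (σ : Sx X.Elements n) : X.map ((σ.push (CategoryOfElements.π X)).m 0 (φ 0) (Fin.zero_le _))
      (σ.o 0).2 = (σ.o (φ 0)).2 := (σ.m 0 (φ 0) (Fin.zero_le _)).2

theorem exists_freeIso (X : C ⥤ Type) :
    ∃ f : Cx.Hom (NC X.Elements) (barC (Coef.free X)), (∀ n, Function.Bijective (f.f n)) ∧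
      ∀ n (σ : Sx X.Elements n) (a : ℚ), f.f n (Finsupp.single σ a) =
        bof (Coef.free X) (σ.push (CategoryOfElements.π X)) (Finsupp.single (σ.o 0).2 a) := by
  let f : ∀ n, (Sx X.Elements n →₀ ℚ) →ₗ[ℚ] BarX (Coef.free X) n := fun n =>
    Finsupp.lsum ℚ fun σ => (bof (Coef.free X) (σ.push (CategoryOfElements.π X))).comp
      (Finsupp.lsingle (σ.o 0).2)
  have hf : ∀ n σ a, f n (Finsupp.single σ a) =
      bof (Coef.free X) (σ.push (CategoryOfElements.π X)) (Finsupp.single (σ.o 0).2 a) :=
    fun n σ a => Finsupp.lsum_single _ _ _ _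
  let g : ∀ n, BarX (Coef.free X) n →ₗ[ℚ] (Sx X.Elements n →₀ ℚ) := fun n =>
    bdesc (Coef.free X) fun σ => Finsupp.lmapDomain ℚ ℚ (liftS X σ)
  have hg : ∀ n (σ : Sx C n) (x : X.obj (σ.o 0)) (a : ℚ),
      g n (bof (Coef.free X) σ (Finsupp.single x a)) = Finsupp.single (liftS X σ x) a :=
    fun n σ x a => (bdesc_bof _ _ _ _).trans Finsupp.mapDomain_single
  have hgf : ∀ n x, g n (f n x) = x := by
    intro n x
    have : (g n).comp (f n) = LinearMap.id := by
      refine Finsupp.lhom_ext fun σ a => ?_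
      rw [LinearMap.comp_apply, hf, hg, LinearMap.id_apply]
      exact congrArg (fun τ => Finsupp.single τ a) (liftS_eq X σ)
    exact congrArg (fun l => l x) this
  have hfg : ∀ n x, f n (g n x) = x := by
    intro n x
    have : (f n).comp (g n) = LinearMap.id := by
      refine bar_ext _ fun σ y => ?_
      rw [LinearMap.comp_apply, LinearMap.id_apply]
      have h2 : ((f n).comp (g n)).comp (bof (Coef.free X) σ) = bof (Coef.free X) σ := by
        refine Finsupp.lhom_ext fun x a => ?_
        change f n (g n (bof (Coef.free X) σ (Finsupp.single x a))) = _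
        rw [hg, hf]
        change bof (Coef.free X) σ (Finsupp.single (X.map (σ.m 0 0 _) x) a) = _
        have h3 : X.map (σ.m 0 0 (Fin.zero_le _)) x = x := by
          rw [show σ.m 0 0 (Fin.zero_le _) = 𝟙 _ from σ.m_self 0, X.map_id]
          rfl
        rw [h3]
      exact congrArg (fun l => l y) h2
    exact congrArg (fun l => l x) this
  refine ⟨⟨f, ?_⟩, ?_, ?_⟩
  · intro n x
    have : (f n).comp ((NC X.Elements).d n) = ((barC (Coef.free X)).d n).comp (f (n + 1)) := by
      refine Finsupp.lhom_ext fun σ a => ?_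
      rw [LinearMap.comp_apply, LinearMap.comp_apply, NC_d_single, hf, map_sum]
      change _ = (barS (Coef.free X)).alt n _
      rw [SMod.alt_apply]
      refine Finset.sum_congr rfl fun i _ => ?_
      rw [map_smul, hf]
      congr 1
      change _ = barMap (Coef.free X) (dl i) (bof _ _ _)
      rw [barMap_bof]
      change _ = bof (Coef.free X) (pre (dl i) (σ.push (CategoryOfElements.π X)))
        (Finsupp.mapDomain _ (Finsupp.single (σ.o 0).2 a))
      rw [Finsupp.mapDomain_single, liftS_pre]
    exact congrArg (fun l => l x) this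
  · intro n
    exact ⟨Function.LeftInverse.injective (hgf n), Function.RightInverse.surjective (hfg n)⟩
  · exact hf

/-- the isomorphism `NC X.Elements → barC (Coef.free X)` -/
noncomputable def freeIso (X : C ⥤ Type) : Cx.Hom (NC X.Elements) (barC (Coef.free X)) :=
  (exists_freeIso X).choose

theorem freeIso_bij (X : C ⥤ Type) (n : ℕ) : Function.Bijective ((freeIso X).f n) :=
  (exists_freeIso X).choose_spec.1 n

theorem freeIso_single (X : C ⥤ Type) {n : ℕ} (σ : Sx X.Elements n) (a : ℚ) :
    (freeIso X).f n (Finsupp.single σ a) =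
      bof (Coef.free X) (σ.push (CategoryOfElements.π X)) (Finsupp.single (σ.o 0).2 a) :=
  (exists_freeIso X).choose_spec.2 n σ a

end C715
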