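import Pool.Agent.Work.MP_c71557_gt.H.Defs4
import Pool.Agent.Work.MP_c71557_gt.H.FreeEl
import Pool.Agent.Work.MP_c71557_gt.H.Equiv
import Pool.Agent.Work.MP_c71557_gt.H.Five

/-!
# MP_c71557_gt, module H/ActEl: categories of elements and quotients of free systems (M)

* `el_equiv`: `S.El.Obj ⥤ S.toF.Elements`, `⟨a, x⟩ ↦ ⟨⟨a⟩, x⟩`, `[g] ↦ [g]` is an equivalence
  (bijective on objects and arrows).
* `free_qis`: `κ = idFun f : A ⥤ A'`, `S'` on `A'`, `S` on `A`, `ξ a : S.X a → S'.X (f a)`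
  equivariant; `elMap : S.El → S'.El`.  For `ξ` bijective: if `elMap` is a homology isomorphism
  then `barPush κ (free S'.toF)` is a quasi-isomorphism (the coefficient system
  `(free S'.toF).pull κ` is isomorphic to `free S.toF` through `ξ`; `freeIso`, naturality).
* `qf_qis`: the same for the quotients `ℚ[S'] / ℚ[Y']`: here `ξ` need only induce a bijection
  `S.X a ∖ Y a → S'.X (f a) ∖ Y' (f a)` and map `Y` to `Y'`.  Short exact sequences of coefficient
  systems `0 → ℚ[Y] → ℚ[S] → ℚ[S]/ℚ[Y] → 0` on `A` (and on `A'`), `bar_SES`, `Cx.qis_right` for the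
  vertical maps `barC (free ..) → barC (free' ..)` (`σ ⊗ x ↦ κσ ⊗ ξ x`, which are the maps
  `NCmap (elMap)` through `freeIso`); finally the map `ℚ[S]/ℚ[Y] → κ^*(ℚ[S']/ℚ[Y'])` of coefficient
  systems on `A` is an isomorphism, by the bijection above, so `barHom` of it is bijective, and
  the quasi-isomorphism just obtained is `barPush κ (QF ..)` composed with it.
The subsets `Y` are given as predicates on `S.X a` closed under `act`; `subS` is the corresponding
`ActSet`.
-/

set_option autoImplicit false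

namespace C715

open CategoryTheory

namespace ActSet

variable {Γ : Type} [Group Γ] {A A' : ActCat Γ}

/-- the sub-`ActSet` of a closed predicate -/
def sub (S : ActSet A) (Y : ∀ a, Set (S.X a))
    (hY : ∀ {a b : A.Ob} {g : Γ} (h : A.Adm a g b) (x : S.X a), x ∈ Y a → S.act h x ∈ Y b) :
    ActSet A where
  X a := {x : S.X a // x ∈ Y a}
  act h x := ⟨S.act h x.1, hY h x.1 x.2⟩
  act_one a x := Subtype.ext (S.act_one a x.1)
  act_mul hg hh x := Subtype.ext (S.act_mul hg hh x.1)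
  act_n hn x := Subtype.ext (S.act_n hn x.1)

/-- functor between categories of elements -/
def elMap (S : ActSet A) (S' : ActSet A') (f : A.Ob → A'.Ob)
    (hAdm : ∀ {a b : A.Ob} {g : Γ}, A.Adm a g b → A'.Adm (f a) g (f b))
    (hN : ∀ {a : A.Ob} {n : Γ}, n ∈ A.N a → n ∈ A'.N (f a))
    (ξ : ∀ a, S.X a → S'.X (f a))
    (hξ : ∀ {a b : A.Ob} {g : Γ} (h : A.Adm a g b) (x : S.X a),
      ξ b (S.act h x) = S'.act (hAdm h) (ξ a x)) : S.El.Obj ⥤ S'.El.Obj :=
  ActCat.idFun (A := S.El) (A' := S'.El) (fun p => ⟨f p.1, ξ p.1 p.2⟩)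
    (fun {p q g} h => by
      obtain ⟨h, e⟩ := h
      exact ⟨hAdm h, by rw [← hξ h, e]⟩)
    (fun hn => hN hn)

/-- the quotient coefficient system `ℚ[S]/ℚ[Y]` -/
noncomputable abbrev qf (S : ActSet A) (Y : ∀ a, Set (S.X a))
    (hY : ∀ {a b : A.Ob} {g : Γ} (h : A.Adm a g b) (x : S.X a), x ∈ Y a → S.act h x ∈ Y b) :
    Coef A.Obj :=
  Coef.QF S.toF (fun c => Y c.o) (fun {a b} u x hx => by
    induction u using ActCat.ind with
    | h g hg => exact hY hg x hx)

private theorem adm_of {S : ActSet A} {p q : S.El.Ob} {g : Γ} (h : S.El.Adm p g q) :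
    A.Adm p.1 g q.1 := h.1

private theorem act_of {S : ActSet A} {p q : S.El.Ob} {g : Γ} (h : S.El.Adm p g q) :
    S.act (adm_of h) p.2 = q.2 := h.2

/-- comparison of the two categories of elements -/
private def eF (S : ActSet A) : S.El.Obj ⥤ S.toF.Elements where
  obj p := ⟨⟨p.o.1⟩, p.o.2⟩
  map {p q} u := ⟨Quotient.lift (fun g : {g : Γ // S.El.Adm p.o g q.o} =>
      A.cl g.1 (adm_of g.2)) (by
        rintro ⟨g, hg⟩ ⟨g', hg'⟩ (e : g⁻¹ * g' ∈ A.N p.o.1)
        exact ActCat.cl_eq.2 e) u, by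
      induction u using ActCat.ind with
      | h g hg => exact act_of hg⟩
  map_id p := Subtype.ext rfl
  map_comp u v := Subtype.ext (by
    induction u using ActCat.ind with
    | h g hg =>
      induction v using ActCat.ind with
      | h g' hg' => rfl)

private theorem eF_map {S : ActSet A} {p q : S.El.Obj} {g : Γ} (hg : S.El.Adm p.o g q.o) :
    ((eF S).map (show p ⟶ q from S.El.cl g hg)).1 = A.cl g (adm_of hg) := rfl

private theorem eF_hiso (S : ActSet A) : HIso (eF S) := by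
  have h1 : (eF S).Faithful := ⟨fun {p q} u v h => by
    have h' : ((eF S).map u).1 = ((eF S).map v).1 := congrArg Subtype.val h
    revert h'
    induction u using ActCat.ind with
    | h g hg =>
      induction v using ActCat.ind with
      | h g' hg' =>
        intro h'
        exact ActCat.cl_eq.2 (ActCat.cl_eq (A := A).1 h')⟩
  have h2 : (eF S).Full := ⟨fun {p q} u => by
    obtain ⟨u, hu⟩ := u
    obtain ⟨g, hg, rfl⟩ := ActCat.hom_surj (A := A) u
    exact ⟨S.El.cl g ⟨hg, hu⟩, Subtype.ext rfl⟩⟩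
  have h3 : (eF S).EssSurj := ⟨fun Y => ⟨⟨⟨Y.1.o, Y.2⟩⟩, ⟨Iso.refl _⟩⟩⟩
  have : (eF S).IsEquivalence := ⟨h1, h2, h3⟩
  exact hiso_of_equiv _

/-- chains of the category of elements -/
private noncomputable def el (S : ActSet A) : Cx.Hom (NC S.El.Obj) (barC (Coef.free S.toF)) :=
  (NCmap (eF S)).comp (freeIso S.toF)

private theorem el_qis (S : ActSet A) : Cx.Qis (el S) :=
  Cx.Qis.comp (f := NCmap (eF S)) (g := freeIso S.toF) (eF_hiso S) (qis_of_bij _ (freeIso_bij _))

private theorem el_single (S : ActSet A) {n : ℕ} (σ : Sx S.El.Obj n) (a : ℚ) :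
    (el S).f n (Finsupp.single σ a) =
      bof (Coef.free S.toF) ((σ.push (eF S)).push (CategoryOfElements.π S.toF))
        (Finsupp.single (σ.o 0).o.2 a) := by
  change (freeIso S.toF).f n ((NCmap (eF S)).f n (Finsupp.single σ a)) = _
  rw [NCmap_single, freeIso_single]
  rfl

private theorem sxheq {C : Type} [SmallCategory C] {n : ℕ} {σ τ : Sx C n}
    (ho : ∀ i, σ.o i = τ.o i) (hm : ∀ i j h, HEq (σ.m i j h) (τ.m i j h)) : σ = τ := by
  cases σ with
  | mk o m h1 h2 =>
    cases τ with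
    | mk o' m' h1' h2' =>
      have h : o = o' := funext ho
      subst h
      have h' : m = m' := by
        funext i j h
        exact eq_of_heq (hm i j h)
      subst h'
      rfl

private theorem bof_congr {C : Type} [SmallCategory C] (F : Coef C) {n : ℕ} {σ σ' : Sx C n}
    (h : σ = σ') {x : F.M (σ.o 0)} {x' : F.M (σ'.o 0)} (hx : HEq x x') :
    bof F σ x = bof F σ' x' := by
  subst h
  obtain rfl := eq_of_heq hx
  rfl

/-- map of chains covering a functor -/
private noncomputable def psiM {C D : Type} [SmallCategory C] [SmallCategory D] (κ : C ⥤ D)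
    {F : Coef C} {G : Coef D} (α : Coef.Hom F (G.pull κ)) : Cx.Hom (barC F) (barC G) :=
  (barHom α).comp (barPush κ G)

private theorem psiM_bof {C D : Type} [SmallCategory C] [SmallCategory D] (κ : C ⥤ D)
    {F : Coef C} {G : Coef D} (α : Coef.Hom F (G.pull κ)) {n : ℕ} (σ : Sx C n)
    (y : F.M (σ.o 0)) : (psiM κ α).f n (bof F σ y) = bof G (σ.push κ) (α.f _ y) := by
  change (barPush κ G).f n ((barHom α).f n (bof F σ y)) = _
  have h1 : (barHom α).f n (bof F σ y) = bof (G.pull κ) σ (α.f _ y) := bdesc_bof _ _ _ _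
  rw [h1]
  exact bdesc_bof (G.pull κ) (fun σ => bof G (σ.push κ)) σ _

section maps

variable (S : ActSet A) (S' : ActSet A') (f : A.Ob → A'.Ob)
    (hAdm : ∀ {a b : A.Ob} {g : Γ}, A.Adm a g b → A'.Adm (f a) g (f b))
    (hN : ∀ {a : A.Ob} {n : Γ}, n ∈ A.N a → n ∈ A'.N (f a))
    (ξ : ∀ a, S.X a → S'.X (f a))
    (hξ : ∀ {a b : A.Ob} {g : Γ} (h : A.Adm a g b) (x : S.X a),
      ξ b (S.act h x) = S'.act (hAdm h) (ξ a x))

/-- the morphism of coefficient systems -/
private noncomputable def Xi : Coef.Hom (Coef.free S.toF)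
    ((Coef.free S'.toF).pull (ActCat.idFun f hAdm hN)) where
  f c := Finsupp.lmapDomain ℚ ℚ (ξ c.o)
  comm {a b} u x := by
    change Finsupp.mapDomain _ (Finsupp.mapDomain _ (x : S.X a.o →₀ ℚ)) =
      Finsupp.mapDomain _ (Finsupp.mapDomain _ (x : S.X a.o →₀ ℚ))
    rw [← Finsupp.mapDomain_comp, ← Finsupp.mapDomain_comp]
    congr 1
    induction u using ActCat.ind with
    | h g hg => exact funext fun y => hξ hg y

private theorem m_eq {p q : S.El.Obj} (u : p ⟶ q) :
    (ActCat.idFun f hAdm hN).map ((CategoryOfElements.π S.toF).map ((eF S).map u)) =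
      (CategoryOfElements.π S'.toF).map ((eF S').map ((elMap S S' f hAdm hN ξ hξ).map u)) := by
  induction u using ActCat.ind with
  | h g hg => rfl

private theorem el_nat : (NCmap (elMap S S' f hAdm hN ξ hξ)).comp (el S') =
    (el S).comp (psiM (ActCat.idFun f hAdm hN) (Xi S S' f hAdm hN ξ hξ)) := by
  refine Cx.Hom.ext (funext fun n => Finsupp.lhom_ext fun σ a => ?_)
  change (el S').f n ((NCmap (elMap S S' f hAdm hN ξ hξ)).f n (Finsupp.single σ a)) =
    (psiM (ActCat.idFun f hAdm hN) (Xi S S' f hAdm hN ξ hξ)).f n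
      ((el S).f n (Finsupp.single σ a))
  rw [NCmap_single, el_single, el_single, psiM_bof]
  refine bof_congr _ ?_ ?_
  · refine sxheq (fun i => rfl) (fun i j h => heq_of_eq ?_)
    exact (m_eq S S' f hAdm hN ξ hξ (σ.m i j h)).symm
  · refine heq_of_eq ?_
    exact Finsupp.mapDomain_single.symm

private theorem psi_free (hiso : HIso (elMap S S' f hAdm hN ξ hξ)) :
    Cx.Qis (psiM (ActCat.idFun f hAdm hN) (Xi S S' f hAdm hN ξ hξ)) := by
  refine Cx.Qis.of_comp_left (f := el S) (el_qis S) ?_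
  rw [← el_nat]
  exact Cx.Qis.comp (f := NCmap (elMap S S' f hAdm hN ξ hξ)) (g := el S') hiso (el_qis S')

end maps

theorem free_qis (S : ActSet A) (S' : ActSet A') (f : A.Ob → A'.Ob)
    (hAdm : ∀ {a b : A.Ob} {g : Γ}, A.Adm a g b → A'.Adm (f a) g (f b))
    (hN : ∀ {a : A.Ob} {n : Γ}, n ∈ A.N a → n ∈ A'.N (f a))
    (ξ : ∀ a, S.X a → S'.X (f a))
    (hξ : ∀ {a b : A.Ob} {g : Γ} (h : A.Adm a g b) (x : S.X a),
      ξ b (S.act h x) = S'.act (hAdm h) (ξ a x))
    (hbij : ∀ a, Function.Bijective (ξ a)) (hiso : HIso (elMap S S' f hAdm hN ξ hξ)) :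
    Cx.Qis (barPush (ActCat.idFun f hAdm hN) (Coef.free S'.toF)) := by
  refine Cx.Qis.of_comp_left (f := barHom (Xi S S' f hAdm hN ξ hξ)) (qis_of_bij _ ?_)
    (psi_free S S' f hAdm hN ξ hξ hiso)
  refine barHom_bij _ fun c => ⟨Finsupp.mapDomain_injective (hbij c.o).1,
    Finsupp.mapDomain_surjective (hbij c.o).2⟩

/-- the inclusion of the free system on a subset -/
private noncomputable def subI (S : ActSet A) (Y : ∀ a, Set (S.X a))
    (hY : ∀ {a b : A.Ob} {g : Γ} (h : A.Adm a g b) (x : S.X a), x ∈ Y a → S.act h x ∈ Y b) :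
    Coef.Hom (Coef.free (S.sub Y hY).toF) (Coef.free S.toF) where
  f c := Finsupp.lmapDomain ℚ ℚ (fun x : {x : S.X c.o // x ∈ Y c.o} => x.1)
  comm {a b} u x := by
    change Finsupp.mapDomain _ (Finsupp.mapDomain _ (x : {x : S.X a.o // x ∈ Y a.o} →₀ ℚ)) =
      Finsupp.mapDomain _ (Finsupp.mapDomain _ (x : {x : S.X a.o // x ∈ Y a.o} →₀ ℚ))
    rw [← Finsupp.mapDomain_comp, ← Finsupp.mapDomain_comp]
    congr 1
    induction u using ActCat.ind with
    | h g hg => rfl

private noncomputable def toQ (S : ActSet A) (Y : ∀ a, Set (S.X a))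
    (hY : ∀ {a b : A.Ob} {g : Γ} (h : A.Adm a g b) (x : S.X a), x ∈ Y a → S.act h x ∈ Y b) :
    Coef.Hom (Coef.free S.toF) (S.qf Y hY) :=
  Coef.toQF S.toF (fun c => Y c.o) (fun {a b} u x hx => by
    induction u using ActCat.ind with
    | h g hg => exact hY hg x hx)

private theorem range_val {X : Type} (Y : Set X) (x : X →₀ ℚ) :
    x ∈ Finsupp.supported ℚ ℚ Y ↔ ∃ y : {x : X // x ∈ Y} →₀ ℚ,
      Finsupp.lmapDomain ℚ ℚ (fun x : {x : X // x ∈ Y} => x.1) y = x := by
  have h1 := Finsupp.lmapDomain_supported (M := ℚ) (R := ℚ) (fun x : {x : X // x ∈ Y} => x.1)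
    Set.univ
  rw [Finsupp.supported_univ, Set.image_univ, Subtype.range_val_subtype] at h1
  have h2 : Finsupp.supported ℚ ℚ Y = Submodule.map (Finsupp.lmapDomain ℚ ℚ
    (fun x : {x : X // x ∈ Y} => x.1)) ⊤ := h1.symm
  rw [h2]
  constructor
  · rintro ⟨y, -, rfl⟩
    exact ⟨y, rfl⟩
  · rintro ⟨y, rfl⟩
    exact ⟨y, trivial, rfl⟩

private theorem q_ses (S : ActSet A) (Y : ∀ a, Set (S.X a))
    (hY : ∀ {a b : A.Ob} {g : Γ} (h : A.Adm a g b) (x : S.X a), x ∈ Y a → S.act h x ∈ Y b) :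
    Cx.SES (barHom (S.subI Y hY)) (barHom (S.toQ Y hY)) := by
  refine bar_SES _ _ (fun c => Finsupp.mapDomain_injective Subtype.val_injective)
    (fun c x => ?_) (fun c => Submodule.mkQ_surjective _)
  change (Submodule.Quotient.mk x : (S.X c.o →₀ ℚ) ⧸ Finsupp.supported ℚ ℚ (Y c.o)) = 0 ↔ _
  rw [Submodule.Quotient.mk_eq_zero]
  exact range_val (Y c.o) x

private theorem bh_bof {C : Type} [SmallCategory C] {F G : Coef C} (α : Coef.Hom F G) {n : ℕ}
    (σ : Sx C n) (y : F.M (σ.o 0)) : (barHom α).f n (bof F σ y) = bof G σ (α.f _ y) :=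
  bdesc_bof _ _ _ _

theorem qf_qis (S : ActSet A) (S' : ActSet A') (f : A.Ob → A'.Ob)
    (hAdm : ∀ {a b : A.Ob} {g : Γ}, A.Adm a g b → A'.Adm (f a) g (f b))
    (hN : ∀ {a : A.Ob} {n : Γ}, n ∈ A.N a → n ∈ A'.N (f a))
    (ξ : ∀ a, S.X a → S'.X (f a))
    (hξ : ∀ {a b : A.Ob} {g : Γ} (h : A.Adm a g b) (x : S.X a),
      ξ b (S.act h x) = S'.act (hAdm h) (ξ a x))
    (Y : ∀ a, Set (S.X a))
    (hY : ∀ {a b : A.Ob} {g : Γ} (h : A.Adm a g b) (x : S.X a), x ∈ Y a → S.act h x ∈ Y b)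
    (Y' : ∀ a, Set (S'.X a))
    (hY' : ∀ {a b : A'.Ob} {g : Γ} (h : A'.Adm a g b) (x : S'.X a), x ∈ Y' a →
      S'.act h x ∈ Y' b)
    (hYY : ∀ a x, ξ a x ∈ Y' (f a) ↔ x ∈ Y a) (hinj : ∀ a, Function.Injective (ξ a))
    (hsurj : ∀ a (y : S'.X (f a)), y ∉ Y' (f a) → ∃ x, ξ a x = y)
    (hiso : HIso (elMap S S' f hAdm hN ξ hξ))
    (hisoY : HIso (elMap (S.sub Y hY) (S'.sub Y' hY') f hAdm hN
      (fun a x => ⟨ξ a x.1, (hYY a x.1).2 x.2⟩) (fun h x => Subtype.ext (hξ h x.1)))) :
    Cx.Qis (barPush (ActCat.idFun f hAdm hN) (S'.qf Y' hY')) := by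
  classical
  have q1 := psi_free S S' f hAdm hN ξ hξ hiso
  have q2 := psi_free (S.sub Y hY) (S'.sub Y' hY') f hAdm hN
    (fun a x => ⟨ξ a x.1, (hYY a x.1).2 x.2⟩) (fun h x => Subtype.ext (hξ h x.1)) hisoY
  -- the map of quotients
  let Q : Coef.Hom (S.qf Y hY) ((S'.qf Y' hY').pull (ActCat.idFun f hAdm hN)) :=
    { f := fun c => Submodule.mapQ (Finsupp.supported ℚ ℚ (Y c.o))
        (Finsupp.supported ℚ ℚ (Y' (f c.o))) (Finsupp.lmapDomain ℚ ℚ (ξ c.o)) (by
          intro x hx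
          obtain ⟨y, rfl⟩ := (range_val (Y c.o) x).1 hx
          refine (range_val (Y' (f c.o)) _).2 ⟨Finsupp.lmapDomain ℚ ℚ
            (fun x : {x : S.X c.o // x ∈ Y c.o} =>
              (⟨ξ c.o x.1, (hYY c.o x.1).2 x.2⟩ : {x : S'.X (f c.o) // x ∈ Y' (f c.o)})) y, ?_⟩
          change Finsupp.mapDomain _ (Finsupp.mapDomain _ _) =
            Finsupp.mapDomain _ (Finsupp.mapDomain _ _)
          rw [← Finsupp.mapDomain_comp, ← Finsupp.mapDomain_comp]
          rfl)
      comm := fun {a b} u x => by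
        obtain ⟨x, rfl⟩ := Submodule.Quotient.mk_surjective _ x
        exact congrArg Submodule.Quotient.mk ((Xi S S' f hAdm hN ξ hξ).comm u x) }
  have hQ : ∀ c, Function.Bijective (Q.f c) := by
    intro c
    constructor
    · rw [injective_iff_map_eq_zero]
      intro x hx
      obtain ⟨x, rfl⟩ := Submodule.Quotient.mk_surjective _ x
      have hx' : (Submodule.Quotient.mk (Finsupp.mapDomain (ξ c.o) x) :
        (S'.X (f c.o) →₀ ℚ) ⧸ Finsupp.supported ℚ ℚ (Y' (f c.o))) = 0 := hx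
      rw [Submodule.Quotient.mk_eq_zero, Finsupp.mem_supported,
        Finsupp.mapDomain_support_of_injective (hinj c.o)] at hx'
      refine (Submodule.Quotient.mk_eq_zero _).2 ?_
      rw [Finsupp.mem_supported]
      intro y hy
      refine (hYY c.o y).1 (hx' ?_)
      exact Finset.mem_coe.2 (Finset.mem_image_of_mem _ hy)
    · intro y
      obtain ⟨y, rfl⟩ := Submodule.Quotient.mk_surjective _ y
      induction y using Finsupp.induction_linear with
      | zero => exact ⟨0, map_zero _⟩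
      | add u v hu hv =>
        obtain ⟨a, ha⟩ := hu
        obtain ⟨b, hb⟩ := hv
        exact ⟨a + b, (map_add _ _ _).trans (by rw [ha, hb]; rfl)⟩
      | single y a =>
        by_cases hy : y ∈ Y' (f c.o)
        · refine ⟨0, (map_zero _).trans ?_⟩
          symm
          refine (Submodule.Quotient.mk_eq_zero _).2 ?_
          exact Finsupp.single_mem_supported ℚ a hy
        · obtain ⟨x, rfl⟩ := hsurj c.o y hy
          refine ⟨Submodule.Quotient.mk (Finsupp.single x a), ?_⟩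
          exact congrArg Submodule.Quotient.mk Finsupp.mapDomain_single
  have q3 : Cx.Qis (psiM (ActCat.idFun f hAdm hN) Q) := by
    refine Cx.qis_right (q_ses S Y hY) (q_ses S' Y' hY') _ _ _ (fun n x => ?_) (fun n x => ?_)
      q2 q1
    · induction x using bar_ind with
      | h0 => simp only [map_zero]
      | h1 σ y =>
        rw [bh_bof, psiM_bof, psiM_bof, bh_bof]
        congr 1
        change Finsupp.mapDomain _ (Finsupp.mapDomain _ _) =
          Finsupp.mapDomain _ (Finsupp.mapDomain _ _)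
        rw [← Finsupp.mapDomain_comp, ← Finsupp.mapDomain_comp]
        rfl
      | h2 x y hx hy => simp only [map_add, hx, hy]
    · induction x using bar_ind with
      | h0 => simp only [map_zero]
      | h1 σ y =>
        rw [bh_bof, psiM_bof, psiM_bof, bh_bof]
        rfl
      | h2 x y hx hy => simp only [map_add, hx, hy]
  exact Cx.Qis.of_comp_left (f := barHom Q) (qis_of_bij _ (barHom_bij Q hQ)) q3

end ActSet
end C715
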