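import Pool.Agent.Work.MP_c71557_gt.H.Defs5

set_option autoImplicit false
set_option linter.unusedVariables false

/-!
# MP_c71557_gt, block H: adding a top object, suspension categories, twisted functors
-/

namespace C715

open CategoryTheory

namespace ActCat

variable {Γ : Type} [Group Γ]

/-- add an object `none` with `Adm a g none ↔ g ∈ Q`, no arrows out of `none` except to itself -/
def top (A : ActCat Γ) (Q : Subgroup Γ) (hQ : ∀ {a b g}, A.Adm a g b → g ∈ Q) : ActCat Γ where
  Ob := Option A.Ob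
  Adm x g y := match x, y with
    | some a, some b => A.Adm a g b
    | some _, none => g ∈ Q
    | none, none => g ∈ Q
    | none, some _ => False
  N x := match x with
    | some a => A.N a
    | none => ⊥
  one x := match x with
    | some a => A.one a
    | none => Q.one_mem
  mul := fun {x y z g h} hg hh => match x, y, z, hg, hh with
    | some _, some _, some _, hg, hh => A.mul hg hh
    | some _, some _, none, hg, hh => Q.mul_mem hh (hQ hg)
    | some _, none, none, hg, hh => Q.mul_mem hh hg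
    | none, none, none, hg, hh => Q.mul_mem hh hg
  nAdm := fun {x n} hn => match x, hn with
    | some _, hn => A.nAdm hn
    | none, hn => by
      rw [Subgroup.mem_bot] at hn
      subst hn
      exact Q.one_mem
  conj := fun {x y g n} hg hn => match x, y, hg, hn with
    | some _, some _, hg, hn => A.conj hg hn
    | some a, none, _, hn => by
      rw [Subgroup.mem_bot] at hn
      subst hn
      have : g⁻¹ * 1 * g = 1 := by group
      rw [this]
      exact (A.N a).one_mem
    | none, none, _, hn => by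
      rw [Subgroup.mem_bot] at hn
      subst hn
      have : g⁻¹ * 1 * g = 1 := by group
      rw [this]
      exact Subgroup.one_mem _

/-- inclusion of `A` in `A.top Q` -/
def topIncl (A : ActCat Γ) (Q : Subgroup Γ) (hQ : ∀ {a b g}, A.Adm a g b → g ∈ Q) :
    A.Obj ⥤ (A.top Q hQ).Obj :=
  idFun (A' := A.top Q hQ) (fun a => some a) (fun h => h) (fun h => h)

/-- `sg Q` at the top object -/
def atTop (A : ActCat Γ) (Q : Subgroup Γ) (hQ : ∀ {a b g}, A.Adm a g b → g ∈ Q) :
    (sg Q).Obj ⥤ (A.top Q hQ).Obj :=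
  idFun (A := sg Q) (A' := A.top Q hQ) (fun _ => none) (fun h => h) (fun h => h)

/-- functor `A.top Q → A'.top Q'` -/
def topMap {A A' : ActCat Γ} {Q Q' : Subgroup Γ} (hQ : ∀ {a b g}, A.Adm a g b → g ∈ Q)
    (hQ' : ∀ {a b g}, A'.Adm a g b → g ∈ Q') (hle : Q ≤ Q') (f : A.Ob → A'.Ob)
    (hAdm : ∀ {a b : A.Ob} {g : Γ}, A.Adm a g b → A'.Adm (f a) g (f b))
    (hN : ∀ {a : A.Ob} {n : Γ}, n ∈ A.N a → n ∈ A'.N (f a)) :
    (A.top Q hQ).Obj ⥤ (A'.top Q' hQ').Obj :=
  idFun (A := A.top Q hQ) (A' := A'.top Q' hQ') (Option.map f)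
    (fun {x y g} h => match x, y, h with
      | some _, some _, h => hAdm h
      | some _, none, h => hle h
      | none, none, h => hle h)
    (fun {x n} h => match x, h with
      | some _, h => hN h
      | none, h => h)

theorem topMap_comm {A A' : ActCat Γ} {Q Q' : Subgroup Γ} (hQ : ∀ {a b g}, A.Adm a g b → g ∈ Q)
    (hQ' : ∀ {a b g}, A'.Adm a g b → g ∈ Q') (hle : Q ≤ Q') (f : A.Ob → A'.Ob)
    (hAdm : ∀ {a b : A.Ob} {g : Γ}, A.Adm a g b → A'.Adm (f a) g (f b))
    (hN : ∀ {a : A.Ob} {n : Γ}, n ∈ A.N a → n ∈ A'.N (f a)) (n : ℕ) (σ : Sx A.Obj n) :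
    (σ.push (A.topIncl Q hQ)).push (topMap hQ hQ' hle f hAdm hN) =
      (σ.push (idFun f hAdm hN)).push (A'.topIncl Q' hQ') := by
  refine Sx.ext rfl (heq_of_eq ?_)
  funext i j h
  obtain ⟨g, hg, e⟩ := hom_surj (σ.m i j h)
  change (topMap hQ hQ' hle f hAdm hN).map ((A.topIncl Q hQ).map (σ.m i j h)) =
    (A'.topIncl Q' hQ').map ((idFun f hAdm hN).map (σ.m i j h))
  rw [e]
  rfl

/-- three objects -/
inductive S3 : Type
  | a | b | t

/-- the suspension category of a group `H`: `a → t ← b`, `Aut t = H`, `a`, `b` rigid -/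
def susp (H : Subgroup Γ) : ActCat Γ where
  Ob := S3
  Adm x g y := (x = y ∨ y = S3.t) ∧ g ∈ H
  N x := match x with
    | S3.a => H
    | S3.b => H
    | S3.t => ⊥
  one x := ⟨Or.inl rfl, H.one_mem⟩
  mul := fun {x y z g h} hg hh => ⟨by
    rcases hg.1 with rfl | rfl
    · exact hh.1
    · rcases hh.1 with rfl | rfl
      · exact Or.inr rfl
      · exact Or.inr rfl, H.mul_mem hh.2 hg.2⟩
  nAdm := fun {x n} hn => ⟨Or.inl rfl, by
    cases x
    · exact hn
    · exact hn
    · have hn' : n ∈ (⊥ : Subgroup Γ) := hn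
      rw [Subgroup.mem_bot] at hn'
      subst hn'
      exact H.one_mem⟩
  conj := fun {x y g n} hg hn => by
    have hH : n ∈ H := by
      cases y
      · exact hn
      · exact hn
      · have hn' : n ∈ (⊥ : Subgroup Γ) := hn
        rw [Subgroup.mem_bot] at hn'
        subst hn'
        exact H.one_mem
    cases x
    · exact H.mul_mem (H.mul_mem (H.inv_mem hg.2) hH) hg.2
    · exact H.mul_mem (H.mul_mem (H.inv_mem hg.2) hH) hg.2
    · have hy : y = S3.t := by
        rcases hg.1 with h | h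
        · exact h.symm
        · exact h
      subst hy
      have hn' : n ∈ (⊥ : Subgroup Γ) := hn
      rw [Subgroup.mem_bot] at hn'
      subst hn'
      change g⁻¹ * 1 * g ∈ (⊥ : Subgroup Γ)
      rw [Subgroup.mem_bot]
      group

/-- the same with `Aut b = H` -/
def suspP (H : Subgroup Γ) : ActCat Γ where
  Ob := S3
  Adm x g y := (x = y ∨ y = S3.t) ∧ g ∈ H
  N x := match x with
    | S3.a => H
    | S3.b => ⊥
    | S3.t => ⊥
  one x := ⟨Or.inl rfl, H.one_mem⟩
  mul := fun {x y z g h} hg hh => ⟨by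
    rcases hg.1 with rfl | rfl
    · exact hh.1
    · rcases hh.1 with rfl | rfl
      · exact Or.inr rfl
      · exact Or.inr rfl, H.mul_mem hh.2 hg.2⟩
  nAdm := fun {x n} hn => ⟨Or.inl rfl, by
    cases x
    · exact hn
    · have hn' : n ∈ (⊥ : Subgroup Γ) := hn
      rw [Subgroup.mem_bot] at hn'
      subst hn'
      exact H.one_mem
    · have hn' : n ∈ (⊥ : Subgroup Γ) := hn
      rw [Subgroup.mem_bot] at hn'
      subst hn'
      exact H.one_mem⟩
  conj := fun {x y g n} hg hn => by
    cases x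
    · have hH : n ∈ H := by
        cases y
        · exact hn
        · have hn' : n ∈ (⊥ : Subgroup Γ) := hn
          rw [Subgroup.mem_bot] at hn'
          subst hn'
          exact H.one_mem
        · have hn' : n ∈ (⊥ : Subgroup Γ) := hn
          rw [Subgroup.mem_bot] at hn'
          subst hn'
          exact H.one_mem
      exact H.mul_mem (H.mul_mem (H.inv_mem hg.2) hH) hg.2
    · have hn' : n ∈ (⊥ : Subgroup Γ) := by
        rcases hg.1 with h | h
        · subst h
          exact hn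
        · subst h
          exact hn
      rw [Subgroup.mem_bot] at hn'
      subst hn'
      change g⁻¹ * 1 * g ∈ (⊥ : Subgroup Γ)
      rw [Subgroup.mem_bot]
      group
    · have hn' : n ∈ (⊥ : Subgroup Γ) := by
        rcases hg.1 with h | h
        · subst h
          exact hn
        · subst h
          exact hn
      rw [Subgroup.mem_bot] at hn'
      subst hn'
      change g⁻¹ * 1 * g ∈ (⊥ : Subgroup Γ)
      rw [Subgroup.mem_bot]
      group

/-- two arrows `1, m : 0 → 1` and a group `H` commuting with `m`, acting on both objects -/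
def kc (H : Subgroup Γ) (m : Γ) (hm : ∀ h ∈ H, h * m = m * h) : ActCat Γ where
  Ob := Bool
  Adm x g y := (x = y ∧ g ∈ H) ∨ (x = false ∧ y = true ∧ (g ∈ H ∨ m⁻¹ * g ∈ H))
  N _ := ⊥
  one x := Or.inl ⟨rfl, H.one_mem⟩
  mul := fun {x y z g h} hg hh => by
    rcases hg with ⟨rfl, hg⟩ | ⟨rfl, rfl, hg⟩
    · rcases hh with ⟨rfl, hh⟩ | ⟨rfl, rfl, hh⟩
      · exact Or.inl ⟨rfl, H.mul_mem hh hg⟩
      · refine Or.inr ⟨rfl, rfl, ?_⟩
        rcases hh with hh | hh
        · exact Or.inl (H.mul_mem hh hg)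
        · right
          rw [← mul_assoc]
          exact H.mul_mem hh hg
    · rcases hh with ⟨rfl, hh⟩ | ⟨h1, _, _⟩
      · refine Or.inr ⟨rfl, rfl, ?_⟩
        rcases hg with hg | hg
        · exact Or.inl (H.mul_mem hh hg)
        · right
          have h2 : m⁻¹ * (h * g) = h * (m⁻¹ * g) := by
            have h3 : m⁻¹ * h = h * m⁻¹ := by
              rw [inv_mul_eq_iff_eq_mul, ← mul_assoc, ← hm h hh, mul_assoc, mul_inv_cancel,
                mul_one]
            rw [← mul_assoc, h3, mul_assoc]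
          rw [h2]
          exact H.mul_mem hh hg
      · exact absurd h1 (by decide)
  nAdm := fun {x n} hn => by
    rw [Subgroup.mem_bot] at hn
    subst hn
    exact Or.inl ⟨rfl, H.one_mem⟩
  conj := fun {x y g n} hg hn => by
    rw [Subgroup.mem_bot] at hn ⊢
    subst hn
    group

/-- the same with `Aut 0` killed -/
def kr (H : Subgroup Γ) (m : Γ) (hm : ∀ h ∈ H, h * m = m * h) : ActCat Γ :=
  (kc H m hm).enl (fun x => match x with
    | false => H
    | true => ⊥)
    (fun {x n} hn => by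
      cases x
      · exact Or.inl ⟨rfl, hn⟩
      · have hn' : n ∈ (⊥ : Subgroup Γ) := hn
        rw [Subgroup.mem_bot] at hn'
        subst hn'
        exact Or.inl ⟨rfl, H.one_mem⟩)
    (fun {x y g n} hg hn => by
      cases y
      · rcases hg with ⟨rfl, hg⟩ | ⟨_, h2, _⟩
        · exact H.mul_mem (H.mul_mem (H.inv_mem hg) hn) hg
        · exact absurd h2 (by decide)
      · have hn' : n ∈ (⊥ : Subgroup Γ) := hn
        rw [Subgroup.mem_bot] at hn'
        subst hn'
        have h1 : g⁻¹ * 1 * g = 1 := by group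
        rw [h1]
        exact Subgroup.one_mem _)

/-- twisted functor: `g ↦ (c b)⁻¹ g (c a)` -/
def twFun {A A' : ActCat Γ} (f : A.Ob → A'.Ob) (c : A.Ob → Γ)
    (hAdm : ∀ {a b : A.Ob} {g : Γ}, A.Adm a g b → A'.Adm (f a) ((c b)⁻¹ * g * c a) (f b))
    (hN : ∀ {a : A.Ob} {n : Γ}, n ∈ A.N a → (c a)⁻¹ * n * c a ∈ A'.N (f a)) :
    A.Obj ⥤ A'.Obj where
  obj x := ⟨f x.o⟩
  map {x y} u := Quotient.lift (fun g : {g : Γ // A.Adm x.o g y.o} =>
      A'.cl ((c y.o)⁻¹ * g.1 * c x.o) (hAdm g.2)) (by
    rintro ⟨g, hg⟩ ⟨g', hg'⟩ (e : g⁻¹ * g' ∈ A.N x.o)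
    rw [cl_eq]
    have h1 := hN e
    have h2 : ((c y.o)⁻¹ * g * c x.o)⁻¹ * ((c y.o)⁻¹ * g' * c x.o) =
      (c x.o)⁻¹ * (g⁻¹ * g') * c x.o := by group
    rw [h2]
    exact h1) u
  map_id x := by
    refine cl_eq.2 ?_
    have : ((c x.o)⁻¹ * 1 * c x.o)⁻¹ * 1 = 1 := by group
    rw [this]
    exact Subgroup.one_mem _
  map_comp {x y z} u v := by
    induction u using ActCat.ind with
    | h g hg =>
      induction v using ActCat.ind with
      | h h hh =>
        refine cl_eq.2 ?_
        have : ((c z.o)⁻¹ * (h * g) * c x.o)⁻¹ *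
          (((c z.o)⁻¹ * h * c y.o) * ((c y.o)⁻¹ * g * c x.o)) = 1 := by group
        rw [this]
        exact Subgroup.one_mem _

end ActCat
end C715
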