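import Pool.Agent.Work.MP_c71557_gt.H.Rows

set_option autoImplicit false

/-!
# MP_c71557_gt, module H/Eps1: `Tot (hoco (overL R)) → C_*(T)` is a quasi-isomorphism (M)

Apply `DCx.RowAug.qis` to `eps1 R`.  For fixed `q` the row is
`p ↦ ⨁_{σ ∈ N_p B} ℚ[OvS R (σ 0) q]`, a basis being the pairs `(σ, x)`, `x = (τ, f : R τ_q → σ_0)`.
Contraction: `s (σ, x) = (cons (R τ_q) σ f, (τ, 𝟙))` (`Sx.cons`), a linear map
`BarX (ovF R q) p → BarX (ovF R q) (p+1)`, and `s_{-1} : NC T q → BarX (ovF R q) 0`,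
`τ ↦ (point R τ_q, (τ, 𝟙))`.  Identities: face `0` of `s (σ, x)` is `(σ, x)`
(`pre (dl 0) (cons c σ f) = σ` and pushing `𝟙` along `f` gives `f`), face `i + 1` of `s (σ, x)` is
`s` of the face `i` of `(σ, x)` (for `i = 0`: the face `0` of `(σ,x)` is `(pre (dl 0) σ, f ≫ σ_{01})`;
for `i > 0`, `f` unchanged), and in degree `p = 0` the face `1` of `s (σ, x)` is
`s_{-1} (e (σ, x))`.  Hence `dh s + s dh = id` (`p ≥ 1`), `dh s + s_{-1} e = id` (`p = 0`),
`e s_{-1} = id`.  Surjectivity and exactness of the augmented rows follow.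
Suggested lemmas: `pre (dl 0) (Sx.cons c σ f) = σ` (by `rfl` or `ext`),
`pre (dl i.succ) (Sx.cons c σ f) = Sx.cons c (pre (dl i) σ) (f ≫ σ.m 0 (dl i 0) _)`.
Work on generators `bof _ σ (Finsupp.single x a)`.
-/

namespace C715

open CategoryTheory

variable {T B : Type} [SmallCategory T] [SmallCategory B]

namespace Eps1

theorem ext_heq {C : Type} [SmallCategory C] {n : ℕ} {σ τ : Sx C n}
    (ho : ∀ i, σ.o i = τ.o i) (hm : ∀ i j h, HEq (σ.m i j h) (τ.m i j h)) : σ = τ := by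
  cases σ with
  | mk o m h1 h2 =>
    cases τ with
    | mk o' m' h1' h2' =>
      have h : o = o' := funext ho
      subst h
      have h' : m = m' := by
        funext i j h
        exact eq_of_heq (hm i j h)
      subst h'
      rfl

theorem pre_zero_cons {p : ℕ} (c : B) (σ : Sx B p) (f : c ⟶ σ.o 0) :
    pre (dl 0) (Sx.cons c σ f) = σ := by
  refine ext_heq (fun i => ?_) (fun i j h => ?_)
  · rfl
  · exact HEq.rfl

/-- extension of a monotone map by `0 ↦ 0` -/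
def consO {m n : ℕ} (ψ : Fin (m + 1) →o Fin (n + 1)) : Fin (m + 2) →o Fin (n + 2) where
  toFun i := Fin.cases (motive := fun _ => Fin (n + 2)) 0 (fun j => (ψ j).succ) i
  monotone' := by
    intro i j
    refine Fin.cases ?_ (fun i => ?_) i
    · intro _
      exact Fin.zero_le _
    · refine Fin.cases ?_ (fun j => ?_) j
      · intro h
        exact absurd h (by simp)
      · intro h
        exact Fin.succ_le_succ_iff.2 (ψ.monotone (Fin.succ_le_succ_iff.1 h))

theorem dl_succ {n : ℕ} (i : Fin (n + 2)) : dl i.succ = consO (dl i) := by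
  ext j
  refine Fin.cases ?_ (fun j => ?_) j
  · change ((i.succ.succAbove 0 : Fin (n + 3)) : ℕ) = 0
    rw [Fin.succ_succAbove_zero]
    rfl
  · change ((i.succ.succAbove j.succ : Fin (n + 3)) : ℕ) = ((i.succAbove j).succ : Fin (n + 3))
    rw [Fin.succ_succAbove_succ]

theorem pre_consO {m p : ℕ} (c : B) (σ : Sx B p) (f : c ⟶ σ.o 0) (ψ : Fin (m + 1) →o Fin (p + 1)) :
    pre (consO ψ) (Sx.cons c σ f) =
      Sx.cons c (pre ψ σ) (f ≫ σ.m 0 (ψ 0) (Fin.zero_le _)) := by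
  refine ext_heq (fun i => ?_) (fun i j h => ?_)
  · refine Fin.cases ?_ (fun i => ?_) i
    · rfl
    · rfl
  · revert h
    refine Fin.cases ?_ (fun i => ?_) i
    · refine Fin.cases ?_ (fun j => ?_) j
      · intro h
        exact HEq.rfl
      · intro h
        refine heq_of_eq ?_
        change f ≫ σ.m 0 (ψ j) _ = (f ≫ σ.m 0 (ψ 0) _) ≫ σ.m (ψ 0) (ψ j) _
        rw [Category.assoc, σ.m_comp]
    · refine Fin.cases ?_ (fun j => ?_) j
      · intro h
        exact absurd h (by simp)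
      · intro h
        exact HEq.rfl

/-- basis elements of `BarX (ovF R q) p` -/
noncomputable def pt (R : T ⥤ B) (q : ℕ) {p : ℕ} (σ : Sx B p) (x : OvS R (σ.o 0) q) :
    BarX (ovF R q) p :=
  bof (ovF R q) σ (Finsupp.single x 1 : OvS R (σ.o 0) q →₀ ℚ)

theorem pt_congr (R : T ⥤ B) (q : ℕ) {p : ℕ} {σ σ' : Sx B p} (h : σ = σ') {x : OvS R (σ.o 0) q}
    {x' : OvS R (σ'.o 0) q} (hτ : x.τ = x'.τ) (hf : HEq x.f x'.f) : pt R q σ x = pt R q σ' x' := by
  subst h
  cases x with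
  | mk τ f =>
    cases x' with
    | mk τ' f' =>
      subst hτ
      obtain rfl := eq_of_heq hf
      rfl

theorem pt_ind (R : T ⥤ B) (q : ℕ) {p : ℕ} {V : Type} [AddCommGroup V] [Module ℚ V]
    {f g : BarX (ovF R q) p →ₗ[ℚ] V} (h : ∀ σ x, f (pt R q σ x) = g (pt R q σ x)) : f = g := by
  refine bar_ext _ fun σ y => ?_
  have h2 : f.comp (bof (ovF R q) σ) = g.comp (bof (ovF R q) σ) := by
    refine Finsupp.lhom_ext' fun x => LinearMap.ext_ring ?_
    exact h σ x
  exact LinearMap.congr_fun h2 y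

theorem d_pt (R : T ⥤ B) (q : ℕ) {p : ℕ} (σ : Sx B (p + 1)) (x : OvS R (σ.o 0) q) :
    (barC (ovF R q)).d p (pt R q σ x) = ∑ i : Fin (p + 2), ((-1 : ℚ) ^ (i : ℕ)) •
      pt R q (pre (dl i) σ) (x.push (σ.m 0 (dl i 0) (Fin.zero_le _))) := by
  change (barS (ovF R q)).alt p _ = _
  rw [SMod.alt_apply]
  refine Finset.sum_congr rfl fun i _ => ?_
  congr 1
  change barMap _ _ (bof _ _ _) = bof _ _ _
  rw [barMap_bof]
  congr 1
  exact Finsupp.mapDomain_single

/-- the contraction -/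
noncomputable def s (R : T ⥤ B) (q p : ℕ) : BarX (ovF R q) p →ₗ[ℚ] BarX (ovF R q) (p + 1) :=
  bdesc (ovF R q) fun σ => Finsupp.linearCombination ℚ fun x : OvS R (σ.o 0) q =>
    pt R q (Sx.cons (R.obj (x.τ.o (Fin.last q))) σ x.f) ⟨x.τ, 𝟙 _⟩

theorem s_pt (R : T ⥤ B) (q : ℕ) {p : ℕ} (σ : Sx B p) (x : OvS R (σ.o 0) q) :
    s R q p (pt R q σ x) = pt R q (Sx.cons (R.obj (x.τ.o (Fin.last q))) σ x.f) ⟨x.τ, 𝟙 _⟩ := by
  unfold s
  rw [pt, bdesc_bof]
  exact (Finsupp.linearCombination_single ℚ _ _).trans (one_smul _ _)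

/-- the constant simplex of dimension zero -/
def cst (b : B) : Sx B 0 where
  o _ := b
  m _ _ _ := 𝟙 b
  m_self _ := rfl
  m_comp _ _ _ _ _ := Category.comp_id _

/-- the augmentation splitting -/
noncomputable def sm (R : T ⥤ B) (q : ℕ) : (Sx T q →₀ ℚ) →ₗ[ℚ] BarX (ovF R q) 0 :=
  Finsupp.linearCombination ℚ fun τ : Sx T q =>
    pt R q (cst (R.obj (τ.o (Fin.last q)))) ⟨τ, 𝟙 _⟩

theorem e_pt (R : T ⥤ B) (q : ℕ) (σ : Sx B 0) (x : OvS R (σ.o 0) q) :
    (eps1 R).e q (pt R q σ x) = Finsupp.single x.τ 1 := by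
  change bdesc _ _ (bof _ _ _) = _
  rw [bdesc_bof]
  exact Finsupp.mapDomain_single

theorem e_sm (R : T ⥤ B) (q : ℕ) (y : Sx T q →₀ ℚ) : (eps1 R).e q (sm R q y) = y := by
  have : ((eps1 R).e q).comp (sm R q) = LinearMap.id := by
    refine Finsupp.lhom_ext' fun x => LinearMap.ext_ring ?_
    change (eps1 R).e q (sm R q (Finsupp.single x 1)) = Finsupp.single x 1
    unfold sm
    rw [Finsupp.linearCombination_single, one_smul]
    exact e_pt R q _ _
  exact LinearMap.congr_fun this y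

theorem ds_zero (R : T ⥤ B) (q : ℕ) (x : BarX (ovF R q) 0) :
    (barC (ovF R q)).d 0 (s R q 0 x) + sm R q ((eps1 R).e q x) = x := by
  have : ((barC (ovF R q)).d 0).comp (s R q 0) + (sm R q).comp ((eps1 R).e q) =
      LinearMap.id := by
    refine pt_ind R q fun σ x => ?_
    change (barC (ovF R q)).d 0 (s R q 0 (pt R q σ x)) + sm R q ((eps1 R).e q (pt R q σ x)) =
      pt R q σ x
    rw [s_pt, e_pt, d_pt, Fin.sum_univ_two]
    unfold sm
    rw [Finsupp.linearCombination_single, one_smul]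
    have h0 : pt R q (pre (dl 0) (Sx.cons (R.obj (x.τ.o (Fin.last q))) σ x.f))
        (OvS.push ((Sx.cons (R.obj (x.τ.o (Fin.last q))) σ x.f).m 0 (dl 0 0) (Fin.zero_le _))
          ⟨x.τ, 𝟙 _⟩) = pt R q σ x := by
      refine pt_congr R q (pre_zero_cons _ _ _) rfl ?_
      refine heq_of_eq ?_
      change 𝟙 _ ≫ (x.f ≫ σ.m 0 0 _) = x.f
      rw [σ.m_self, Category.comp_id, Category.id_comp]
    have h1 : pt R q (pre (dl 1) (Sx.cons (R.obj (x.τ.o (Fin.last q))) σ x.f))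
        (OvS.push ((Sx.cons (R.obj (x.τ.o (Fin.last q))) σ x.f).m 0 (dl 1 0) (Fin.zero_le _))
          ⟨x.τ, 𝟙 _⟩) = pt R q (cst (R.obj (x.τ.o (Fin.last q)))) ⟨x.τ, 𝟙 _⟩ := by
      refine pt_congr R q ?_ rfl ?_
      · refine ext_heq (fun i => ?_) (fun i j h => ?_)
        · obtain rfl : i = 0 := Fin.ext (Nat.lt_one_iff.1 i.2)
          rfl
        · obtain rfl : i = 0 := Fin.ext (Nat.lt_one_iff.1 i.2)
          obtain rfl : j = 0 := Fin.ext (Nat.lt_one_iff.1 j.2)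
          exact HEq.rfl
      · refine heq_of_eq ?_
        change 𝟙 _ ≫ 𝟙 _ = 𝟙 _
        rw [Category.comp_id]
    rw [h0, h1]
    simp
  exact LinearMap.congr_fun this x

theorem ds_succ (R : T ⥤ B) (q p : ℕ) (x : BarX (ovF R q) (p + 1)) :
    (barC (ovF R q)).d (p + 1) (s R q (p + 1) x) + s R q p ((barC (ovF R q)).d p x) = x := by
  have : ((barC (ovF R q)).d (p + 1)).comp (s R q (p + 1)) +
      (s R q p).comp ((barC (ovF R q)).d p) = LinearMap.id := by
    refine pt_ind R q fun σ x => ?_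
    change (barC (ovF R q)).d (p + 1) (s R q (p + 1) (pt R q σ x)) +
      s R q p ((barC (ovF R q)).d p (pt R q σ x)) = pt R q σ x
    rw [s_pt, d_pt, d_pt, Fin.sum_univ_succ, map_sum]
    have h0 : pt R q (pre (dl 0) (Sx.cons (R.obj (x.τ.o (Fin.last q))) σ x.f))
        (OvS.push ((Sx.cons (R.obj (x.τ.o (Fin.last q))) σ x.f).m 0 (dl 0 0) (Fin.zero_le _))
          ⟨x.τ, 𝟙 _⟩) = pt R q σ x := by
      refine pt_congr R q (pre_zero_cons _ _ _) rfl ?_
      refine heq_of_eq ?_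
      change 𝟙 _ ≫ (x.f ≫ σ.m 0 0 _) = x.f
      rw [σ.m_self, Category.comp_id, Category.id_comp]
    have h1 : ∀ i : Fin (p + 2),
        pt R q (pre (dl i.succ) (Sx.cons (R.obj (x.τ.o (Fin.last q))) σ x.f))
        (OvS.push ((Sx.cons (R.obj (x.τ.o (Fin.last q))) σ x.f).m 0 (dl i.succ 0)
          (Fin.zero_le _)) ⟨x.τ, 𝟙 _⟩) =
        s R q p (pt R q (pre (dl i) σ) (x.push (σ.m 0 (dl i 0) (Fin.zero_le _)))) := by
      intro i
      rw [s_pt]
      refine pt_congr R q ?_ rfl ?_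
      · rw [dl_succ, pre_consO]
      · refine heq_of_eq ?_
        change 𝟙 _ ≫ 𝟙 _ = 𝟙 _
        rw [Category.comp_id]
    rw [h0]
    simp only [h1, map_smul, Fin.val_succ, pow_succ, Fin.val_zero, pow_zero, one_smul]
    rw [add_assoc, ← Finset.sum_add_distrib]
    simp
  exact LinearMap.congr_fun this x

end Eps1

theorem eps1_qis (R : T ⥤ B) : Cx.Qis (eps1 R).hom := by
  refine DCx.RowAug.qis (eps1 R) (fun q y => ?_) (fun q x hx => ?_) (fun p q x hx => ?_)
  · exact ⟨Eps1.sm R q y, Eps1.e_sm R q y⟩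
  · refine ⟨Eps1.s R q 0 x, ?_⟩
    have h := Eps1.ds_zero R q x
    rw [hx, map_zero, add_zero] at h
    exact h
  · refine ⟨Eps1.s R q (p + 1) x, ?_⟩
    have h := Eps1.ds_succ R q p x
    have hx' : (barC (ovF R q)).d p x = 0 := hx
    rw [hx', map_zero, add_zero] at h
    exact h

end C715
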