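import Pool.Agent.Work.MP_c71557_gt.H.Defs5
import Pool.Agent.Work.MP_c71557_gt.H.Equiv
import Pool.Agent.Work.MP_c71557_gt.H.Five

/-!
# MP_c71557_gt, module H/MVU: Mayer-Vietoris for small categories (M)

`P`, `Q` predicates on the objects of `C`, closed under sources (`a → b`, `P b` imply `P a`), with
`P c ∨ Q c` for all `c`.  A simplex whose last object satisfies `P` has all objects in `P`.  Hence
`0 → NC (P ∧ Q) → NC P × NC Q → NC C → 0` (first map `(i, -i)`, second map the sum) is short exact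
(`mv_ses`): bases: `Sx (FSub P) n` is the set of simplices of `C` with all objects in `P`.
* `mv_hiso`: five lemma (`Cx.qis_right`; a product of quasi-isomorphisms is one).
* `mv_acy`: compare with the point, or use the long exact sequence.
* `mv_circle`: `P`, `Q` acyclic, `P ∧ Q` the disjoint union of two acyclic pieces `U`, `W` (both
  closed under sources and targets inside `P ∧ Q`): `H_n(P ∧ Q) = H_n(U) ⊕ H_n(W)`, so the long
  exact sequence gives `H_0 = ℚ`, `H_1 ≅ ℚ`, `H_n = 0` for `n ≥ 2`.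
* `circle_hiso`: a functor between two such categories respecting all the pieces is a homology
  isomorphism.
-/

set_option autoImplicit false

namespace C715

open CategoryTheory

variable {C : Type} [SmallCategory C] {D : Type} [SmallCategory D]

/-- closed under sources -/
def SrcClosed (P : C → Prop) : Prop := ∀ ⦃a b : C⦄, (a ⟶ b) → P b → P a

private theorem all_of_last {P : C → Prop} (hP : SrcClosed P) {n : ℕ} (σ : Sx C n)
    (h : P (σ.o (Fin.last n))) (i : Fin (n + 1)) : P (σ.o i) :=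
  hP (σ.m i (Fin.last n) (Fin.le_last _)) h

private theorem mheq {n : ℕ} {s t : Sx C n} (h : s = t)
    (i j : Fin (n + 1)) (hij : i ≤ j) : HEq (s.m i j hij) (t.m i j hij) := by
  subst h
  exact HEq.rfl

private theorem sxheq {n : ℕ} {σ τ : Sx C n}
    (ho : ∀ i, σ.o i = τ.o i) (hm : ∀ i j h, HEq (σ.m i j h) (τ.m i j h)) : σ = τ := by
  cases σ with
  | mk o m h1 h2 =>
    cases τ with
    | mk o' m' h1' h2' =>
      have h : o = o' := funext ho
      subst h
      have h' : m = m' := by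
        funext i j h
        exact eq_of_heq (hm i j h)
      subst h'
      rfl

private theorem ipush_inj (P : C → Prop) (n : ℕ) :
    Function.Injective (fun σ : Sx (FSub P) n => σ.push (FSub.incl P)) := by
  intro σ τ h
  refine sxheq (fun i => FSub.ext (congrFun (congrArg Sx.o h) i)) (fun i j hij => ?_)
  exact mheq h i j hij

/-- lift of a simplex to a full subcategory -/
private def lftS (P : C → Prop) {n : ℕ} (σ : Sx C n) (h : ∀ i, P (σ.o i)) : Sx (FSub P) n where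
  o i := ⟨σ.o i, h i⟩
  m i j hij := σ.m i j hij
  m_self i := σ.m_self i
  m_comp i j k h h' := σ.m_comp i j k h h'

private theorem lftS_push (P : C → Prop) {n : ℕ} (σ : Sx C n) (h : ∀ i, P (σ.o i)) :
    (lftS P σ h).push (FSub.incl P) = σ := rfl

private theorem incl_inj (P : C → Prop) (n : ℕ) :
    Function.Injective ((NCmap (FSub.incl P)).f n) := Finsupp.mapDomain_injective (ipush_inj P n)

private theorem mem_range (P : C → Prop) (n : ℕ) (z : Sx C n →₀ ℚ) :
    (∃ x, (NCmap (FSub.incl P)).f n x = z) ↔ ∀ σ ∈ z.support, ∀ i, P (σ.o i) := by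
  classical
  constructor
  · rintro ⟨x, rfl⟩ σ hσ i
    have h1 := Finsupp.mapDomain_support (f := fun σ : Sx (FSub P) n => σ.push (FSub.incl P))
      (s := x) hσ
    obtain ⟨τ, -, rfl⟩ := Finset.mem_image.1 h1
    exact (τ.o i).h
  · intro h
    have h1 : z = ∑ σ ∈ z.support, Finsupp.single σ (z σ) := (Finsupp.sum_single z).symm
    have h2 : (∑ σ ∈ z.support, Finsupp.single σ (z σ)) ∈
        LinearMap.range ((NCmap (FSub.incl P)).f n) := by
      refine Submodule.sum_mem _ fun σ hσ => ?_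
      refine ⟨Finsupp.single (lftS P σ (h σ hσ)) (z σ), ?_⟩
      rw [NCmap_single, lftS_push]
    rw [← h1] at h2
    exact h2

/-- inclusion between full subcategories -/
private abbrev jm (P Q : C → Prop) (h : ∀ c, P c → Q c) : FSub P ⥤ FSub Q :=
  FSub.map (𝟭 C) P Q h

private theorem jm_incl (P Q : C → Prop) (h : ∀ c, P c → Q c) (n : ℕ) (x : (NC (FSub P)).X n) :
    (NCmap (FSub.incl Q)).f n ((NCmap (jm P Q h)).f n x) = (NCmap (FSub.incl P)).f n x := by
  have : ((NCmap (FSub.incl Q)).f n).comp ((NCmap (jm P Q h)).f n) =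
      (NCmap (FSub.incl P)).f n := by
    refine Finsupp.lhom_ext fun σ a => ?_
    rw [LinearMap.comp_apply, NCmap_single, NCmap_single, NCmap_single]
    rfl
  exact LinearMap.congr_fun this x

/-- direct sum of chain maps to a common target -/
private def sumH {A B E : Cx} (f : Cx.Hom A E) (g : Cx.Hom B E) : Cx.Hom (A.prod B) E where
  f n := (f.f n).coprod (g.f n)
  comm n x := by
    change f.f n (A.d n x.1) + g.f n (B.d n x.2) = E.d n (f.f (n + 1) x.1 + g.f (n + 1) x.2)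
    rw [f.comm, g.comm, map_add]

private def diagH {A B E : Cx} (f : Cx.Hom E A) (g : Cx.Hom E B) : Cx.Hom E (A.prod B) where
  f n := (f.f n).prod (-(g.f n))
  comm n x := by
    refine Prod.ext (f.comm n x) ?_
    change -(g.f n (E.d n x)) = B.d n (-(g.f (n + 1) x))
    rw [g.comm, map_neg]

private def prodH {A B A' B' : Cx} (f : Cx.Hom A A') (g : Cx.Hom B B') :
    Cx.Hom (A.prod B) (A'.prod B') where
  f n := (f.f n).prodMap (g.f n)
  comm n x := Prod.ext (f.comm n x.1) (g.comm n x.2)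

private theorem prod_Z {A B : Cx} {n : ℕ} {x : (A.prod B).X n} :
    x ∈ (A.prod B).Z n ↔ x.1 ∈ A.Z n ∧ x.2 ∈ B.Z n := by
  cases n with
  | zero => exact ⟨fun _ => ⟨trivial, trivial⟩, fun _ => trivial⟩
  | succ n =>
    rw [Cx.mem_Z_succ, Cx.mem_Z_succ, Cx.mem_Z_succ]
    exact Prod.ext_iff

private theorem prod_qis {A B A' B' : Cx} {f : Cx.Hom A A'} {g : Cx.Hom B B'} (hf : Cx.Qis f)
    (hg : Cx.Qis g) : Cx.Qis (prodH f g) := by
  intro n
  constructor
  · rw [injective_iff_map_eq_zero]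
    intro y hy
    obtain ⟨x, hx, rfl⟩ := Cx.H_surj y
    rw [Cx.H_cls, Cx.cls_eq_zero] at hy
    obtain ⟨z, hz⟩ := hy
    obtain ⟨hx1, hx2⟩ := prod_Z.1 hx
    have h1 : f.H n (A.cls n x.1 hx1) = 0 := by
      rw [Cx.H_cls, Cx.cls_eq_zero]
      exact ⟨z.1, congrArg Prod.fst hz⟩
    have h2 : g.H n (B.cls n x.2 hx2) = 0 := by
      rw [Cx.H_cls, Cx.cls_eq_zero]
      exact ⟨z.2, congrArg Prod.snd hz⟩
    obtain ⟨a, ha⟩ := Cx.cls_eq_zero.1 ((injective_iff_map_eq_zero _).1 (hf n).1 _ h1)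
    obtain ⟨b, hb⟩ := Cx.cls_eq_zero.1 ((injective_iff_map_eq_zero _).1 (hg n).1 _ h2)
    exact Cx.cls_eq_zero.2 ⟨(a, b), Prod.ext ha hb⟩
  · intro y
    obtain ⟨x, hx, rfl⟩ := Cx.H_surj y
    obtain ⟨hx1, hx2⟩ := prod_Z.1 hx
    obtain ⟨a, ha⟩ := (hf n).2 (A'.cls n x.1 hx1)
    obtain ⟨b, hb⟩ := (hg n).2 (B'.cls n x.2 hx2)
    obtain ⟨a, ha', rfl⟩ := Cx.H_surj a
    obtain ⟨b, hb', rfl⟩ := Cx.H_surj b
    rw [Cx.H_cls, Cx.cls_eq] at ha hb
    obtain ⟨u, hu⟩ := ha
    obtain ⟨v, hv⟩ := hb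
    refine ⟨(A.prod B).cls n (a, b) (prod_Z.2 ⟨ha', hb'⟩), ?_⟩
    rw [Cx.H_cls, Cx.cls_eq]
    exact ⟨(u, v), Prod.ext hu hv⟩

private theorem prod_sub {A B : Cx} {n : ℕ} (h1 : Subsingleton (A.H n))
    (h2 : Subsingleton (B.H n)) : Subsingleton ((A.prod B).H n) := by
  rw [Cx.H_subsingleton] at h1 h2 ⊢
  intro x hx
  obtain ⟨hx1, hx2⟩ := prod_Z.1 hx
  obtain ⟨a, ha⟩ := h1 _ hx1
  obtain ⟨b, hb⟩ := h2 _ hx2
  exact ⟨(a, b), Prod.ext ha hb⟩

theorem mv_ses (P Q : C → Prop) (hP : SrcClosed P) (hQ : SrcClosed Q) (hcov : ∀ c, P c ∨ Q c) :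
    ∃ (i : Cx.Hom (NC (FSub fun c => P c ∧ Q c)) ((NC (FSub P)).prod (NC (FSub Q))))
      (p : Cx.Hom ((NC (FSub P)).prod (NC (FSub Q))) (NC C)), Cx.SES i p ∧
      (∀ n x, i.f n x = ((NCmap (FSub.map (𝟭 C) (fun c => P c ∧ Q c) P (fun _ h => h.1))).f n x,
        - (NCmap (FSub.map (𝟭 C) (fun c => P c ∧ Q c) Q (fun _ h => h.2))).f n x)) ∧
      ∀ n x, p.f n x = (NCmap (FSub.incl P)).f n x.1 + (NCmap (FSub.incl Q)).f n x.2 := by
  refine ⟨diagH (NCmap (jm (fun c => P c ∧ Q c) P (fun _ h => h.1)))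
    (NCmap (jm (fun c => P c ∧ Q c) Q (fun _ h => h.2))),
    sumH (NCmap (FSub.incl P)) (NCmap (FSub.incl Q)), ⟨fun n => ?_, fun n z => ?_, fun n => ?_⟩,
    fun n x => rfl, fun n x => rfl⟩
  · intro x y h
    have h1 : (NCmap (jm (fun c => P c ∧ Q c) P (fun _ h => h.1))).f n x =
      (NCmap (jm (fun c => P c ∧ Q c) P (fun _ h => h.1))).f n y := congrArg Prod.fst h
    refine incl_inj (fun c => P c ∧ Q c) n ?_
    rw [← jm_incl (fun c => P c ∧ Q c) P (fun _ h => h.1), h1, jm_incl]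
  · obtain ⟨x, y⟩ := z
    constructor
    · intro h
      have h1 : (NCmap (FSub.incl P)).f n x + (NCmap (FSub.incl Q)).f n y = 0 := h
      have h2 : (NCmap (FSub.incl P)).f n x = (NCmap (FSub.incl Q)).f n (-y) := by
        rw [map_neg]
        exact eq_neg_of_add_eq_zero_left h1
      have h3 := (mem_range P n _).1 ⟨x, rfl⟩
      have h4 := (mem_range Q n _).1 ⟨-y, rfl⟩
      rw [← h2] at h4
      obtain ⟨w, hw⟩ := (mem_range (fun c => P c ∧ Q c) n ((NCmap (FSub.incl P)).f n x)).2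
        (fun σ hσ i => ⟨h3 σ hσ i, h4 σ hσ i⟩)
      refine ⟨w, Prod.ext ?_ ?_⟩
      · refine incl_inj P n ?_
        change (NCmap (FSub.incl P)).f n ((NCmap (jm (fun c => P c ∧ Q c) P _)).f n w) = _
        rw [jm_incl, hw]
      · refine incl_inj Q n ?_
        change (NCmap (FSub.incl Q)).f n (-((NCmap (jm (fun c => P c ∧ Q c) Q _)).f n w)) = _
        rw [map_neg, jm_incl, hw, h2, map_neg, neg_neg]
    · rintro ⟨w, hw⟩
      rw [← hw]
      change (NCmap (FSub.incl P)).f n ((NCmap (jm (fun c => P c ∧ Q c) P _)).f n w) +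
        (NCmap (FSub.incl Q)).f n (-((NCmap (jm (fun c => P c ∧ Q c) Q _)).f n w)) = 0
      rw [map_neg, jm_incl, jm_incl, add_neg_cancel]
  · intro z
    induction z using Finsupp.induction_linear with
    | zero => exact ⟨0, map_zero _⟩
    | add f g hf hg =>
      obtain ⟨a, rfl⟩ := hf
      obtain ⟨b, rfl⟩ := hg
      exact ⟨a + b, map_add _ _ _⟩
    | single σ a =>
      rcases hcov (σ.o (Fin.last n)) with h | h
      · refine ⟨(Finsupp.single (lftS P σ (all_of_last hP σ h)) a, 0), ?_⟩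
        change (NCmap (FSub.incl P)).f n (Finsupp.single (lftS P σ (all_of_last hP σ h)) a) +
          (NCmap (FSub.incl Q)).f n 0 = _
        rw [NCmap_single, lftS_push, map_zero, add_zero]
      · refine ⟨(0, Finsupp.single (lftS Q σ (all_of_last hQ σ h)) a), ?_⟩
        change (NCmap (FSub.incl P)).f n 0 +
          (NCmap (FSub.incl Q)).f n (Finsupp.single (lftS Q σ (all_of_last hQ σ h)) a) = _
        rw [NCmap_single, lftS_push, map_zero, zero_add]

theorem mv_hiso (P Q : C → Prop) (hP : SrcClosed P) (hQ : SrcClosed Q) (hcov : ∀ c, P c ∨ Q c)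
    (P' Q' : D → Prop) (hP' : SrcClosed P') (hQ' : SrcClosed Q') (hcov' : ∀ c, P' c ∨ Q' c)
    (F : C ⥤ D) (hFP : ∀ c, P c → P' (F.obj c)) (hFQ : ∀ c, Q c → Q' (F.obj c))
    (h1 : HIso (FSub.map F P P' hFP)) (h2 : HIso (FSub.map F Q Q' hFQ))
    (h3 : HIso (FSub.map F (fun c => P c ∧ Q c) (fun c => P' c ∧ Q' c)
      (fun c h => ⟨hFP c h.1, hFQ c h.2⟩))) : HIso F := by
  obtain ⟨i, p, hs, hi, hp⟩ := mv_ses P Q hP hQ hcov
  obtain ⟨i', p', hs', hi', hp'⟩ := mv_ses P' Q' hP' hQ' hcov'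
  refine Cx.qis_right hs hs' (NCmap (FSub.map F (fun c => P c ∧ Q c) (fun c => P' c ∧ Q' c)
      (fun c h => ⟨hFP c h.1, hFQ c h.2⟩)))
    (prodH (NCmap (FSub.map F P P' hFP)) (NCmap (FSub.map F Q Q' hFQ))) (NCmap F) ?_ ?_ h3
    (prod_qis h1 h2)
  · intro n x
    rw [hi, hi']
    refine Prod.ext ?_ ?_
    · change (NCmap (FSub.map F P P' hFP)).f n ((NCmap (jm (fun c => P c ∧ Q c) P _)).f n x) =
        (NCmap (jm (fun c => P' c ∧ Q' c) P' _)).f n
          ((NCmap (FSub.map F (fun c => P c ∧ Q c) (fun c => P' c ∧ Q' c) _)).f n x)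
      have : ((NCmap (FSub.map F P P' hFP)).f n).comp
          ((NCmap (jm (fun c => P c ∧ Q c) P (fun _ h => h.1))).f n) =
        ((NCmap (jm (fun c => P' c ∧ Q' c) P' (fun _ h => h.1))).f n).comp
          ((NCmap (FSub.map F (fun c => P c ∧ Q c) (fun c => P' c ∧ Q' c)
            (fun c h => ⟨hFP c h.1, hFQ c h.2⟩))).f n) := by
        refine Finsupp.lhom_ext fun σ a => ?_
        rw [LinearMap.comp_apply, LinearMap.comp_apply, NCmap_single, NCmap_single, NCmap_single,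
          NCmap_single]
        rfl
      exact LinearMap.congr_fun this x
    · change (NCmap (FSub.map F Q Q' hFQ)).f n (-(NCmap (jm (fun c => P c ∧ Q c) Q _)).f n x) =
        -(NCmap (jm (fun c => P' c ∧ Q' c) Q' _)).f n
          ((NCmap (FSub.map F (fun c => P c ∧ Q c) (fun c => P' c ∧ Q' c) _)).f n x)
      have : ((NCmap (FSub.map F Q Q' hFQ)).f n).comp
          ((NCmap (jm (fun c => P c ∧ Q c) Q (fun _ h => h.2))).f n) =
        ((NCmap (jm (fun c => P' c ∧ Q' c) Q' (fun _ h => h.2))).f n).comp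
          ((NCmap (FSub.map F (fun c => P c ∧ Q c) (fun c => P' c ∧ Q' c)
            (fun c h => ⟨hFP c h.1, hFQ c h.2⟩))).f n) := by
        refine Finsupp.lhom_ext fun σ a => ?_
        rw [LinearMap.comp_apply, LinearMap.comp_apply, NCmap_single, NCmap_single, NCmap_single,
          NCmap_single]
        rfl
      rw [map_neg]
      exact congrArg Neg.neg (LinearMap.congr_fun this x)
  · intro n x
    rw [hp, hp', map_add]
    have e1 : ∀ (R : C → Prop) (R' : D → Prop) (h : ∀ c, R c → R' (F.obj c))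
        (y : (NC (FSub R)).X n), (NCmap F).f n ((NCmap (FSub.incl R)).f n y) =
          (NCmap (FSub.incl R')).f n ((NCmap (FSub.map F R R' h)).f n y) := by
      intro R R' h y
      have : ((NCmap F).f n).comp ((NCmap (FSub.incl R)).f n) =
          ((NCmap (FSub.incl R')).f n).comp ((NCmap (FSub.map F R R' h)).f n) := by
        refine Finsupp.lhom_ext fun σ a => ?_
        rw [LinearMap.comp_apply, LinearMap.comp_apply, NCmap_single, NCmap_single, NCmap_single,
          NCmap_single]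
        rfl
      exact LinearMap.congr_fun this y
    rw [e1 P P' hFP, e1 Q Q' hFQ]
    rfl

private theorem hiso_acy (F : C ⥤ D) (h1 : Acy C) (h2 : Acy D) : HIso F := by
  rw [acy_iff] at h1 h2
  exact HIso.of_comp_right (G := toPt D) h2 h1

private theorem acy_fsub_pt (P : ActCat.Pt → Prop) (h : ∀ x, P x) : Acy (FSub P) := by
  refine acy_of_initial (⟨⟨PUnit.unit⟩, h _⟩ : FSub P) fun d => ?_
  refine ⟨(𝟙 _ : (⟨PUnit.unit⟩ : ActCat.Pt) ⟶ _), trivial, fun f _ => ?_⟩
  exact Subsingleton.elim (α := ((⟨PUnit.unit⟩ : ActCat.Pt) ⟶ d.o)) _ _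

theorem mv_acy (P Q : C → Prop) (hP : SrcClosed P) (hQ : SrcClosed Q) (hcov : ∀ c, P c ∨ Q c)
    (h1 : Acy (FSub P)) (h2 : Acy (FSub Q)) (h3 : Acy (FSub fun c => P c ∧ Q c)) : Acy C := by
  rw [acy_iff]
  refine mv_hiso P Q hP hQ hcov (fun _ => True) (fun _ => True) (fun _ _ _ _ => trivial)
    (fun _ _ _ _ => trivial) (fun _ => Or.inl trivial) (toPt C) (fun _ _ => trivial)
    (fun _ _ => trivial) ?_ ?_ ?_
  · exact hiso_acy _ h1 (acy_fsub_pt _ fun _ => trivial)
  · exact hiso_acy _ h2 (acy_fsub_pt _ fun _ => trivial)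
  · exact hiso_acy _ h3 (acy_fsub_pt _ fun _ => ⟨trivial, trivial⟩)

/-- the data of a circle -/
structure Circ (C : Type) [SmallCategory C] (P Q U W : C → Prop) : Prop where
  hP : SrcClosed P
  hQ : SrcClosed Q
  cov : ∀ c, P c ∨ Q c
  hU : ∀ c, U c → P c ∧ Q c
  hW : ∀ c, W c → P c ∧ Q c
  cov' : ∀ c, P c → Q c → U c ∨ W c
  disj : ∀ c, U c → W c → False
  srcU : SrcClosed U
  srcW : SrcClosed W
  aP : Acy (FSub P)
  aQ : Acy (FSub Q)
  aU : Acy (FSub U)
  aW : Acy (FSub W)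

/-- chains on a disjoint union -/
private theorem dec_bij {U W V : C → Prop} (hU : ∀ c, U c → V c) (hW : ∀ c, W c → V c)
    (cov : ∀ c, V c → U c ∨ W c) (disj : ∀ c, U c → W c → False) (srcU : SrcClosed U)
    (srcW : SrcClosed W) (n : ℕ) :
    Function.Bijective ((sumH (NCmap (jm U V hU)) (NCmap (jm W V hW))).f n) := by
  constructor
  · rw [injective_iff_map_eq_zero]
    rintro ⟨x, y⟩ h
    have h1 : (NCmap (jm U V hU)).f n x + (NCmap (jm W V hW)).f n y = 0 := h
    have h2 := congrArg ((NCmap (FSub.incl V)).f n) h1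
    rw [map_add, jm_incl, jm_incl, map_zero] at h2
    have h3 : (NCmap (FSub.incl U)).f n x = (NCmap (FSub.incl W)).f n (-y) := by
      rw [map_neg]
      exact eq_neg_of_add_eq_zero_left h2
    have h4 := (mem_range U n _).1 ⟨x, rfl⟩
    have h5 := (mem_range W n _).1 ⟨-y, rfl⟩
    rw [← h3] at h5
    have h6 : (NCmap (FSub.incl U)).f n x = 0 := by
      refine Finsupp.support_eq_empty.1 (Finset.eq_empty_of_forall_notMem fun σ hσ => ?_)
      exact disj _ (h4 σ hσ 0) (h5 σ hσ 0)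
    have h7 : x = 0 := incl_inj U n (h6.trans (map_zero _).symm)
    rw [h6] at h3
    have h8 : -y = 0 := incl_inj W n (h3.symm.trans (map_zero _).symm)
    exact Prod.ext h7 (neg_eq_zero.1 h8)
  · intro z
    induction z using Finsupp.induction_linear with
    | zero => exact ⟨0, map_zero _⟩
    | add f g hf hg =>
      obtain ⟨a, rfl⟩ := hf
      obtain ⟨b, rfl⟩ := hg
      exact ⟨a + b, map_add _ _ _⟩
    | single σ a =>
      have hall : ∀ (R : C → Prop), SrcClosed R → R (σ.o (Fin.last n)).o → ∀ i, R (σ.o i).o :=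
        fun R hR h i => hR (show (σ.o i).o ⟶ (σ.o (Fin.last n)).o from
          σ.m i (Fin.last n) (Fin.le_last _)) h
      rcases cov (σ.o (Fin.last n)).o (σ.o (Fin.last n)).h with h | h
      · let τ : Sx (FSub U) n := lftS U (σ.push (FSub.incl V)) (hall U srcU h)
        refine ⟨(Finsupp.single τ a, 0), ?_⟩
        change (NCmap (jm U V hU)).f n (Finsupp.single τ a) + (NCmap (jm W V hW)).f n 0 = _
        rw [NCmap_single, map_zero, add_zero]
        rfl
      · let τ : Sx (FSub W) n := lftS W (σ.push (FSub.incl V)) (hall W srcW h)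
        refine ⟨(0, Finsupp.single τ a), ?_⟩
        change (NCmap (jm U V hU)).f n 0 + (NCmap (jm W V hW)).f n (Finsupp.single τ a) = _
        rw [NCmap_single, map_zero, zero_add]
        rfl

private theorem qbij {A B : Cx} (f : Cx.Hom A B) (h : ∀ n, Function.Bijective (f.f n)) :
    Cx.Qis f := by
  intro n
  constructor
  · rw [injective_iff_map_eq_zero]
    intro y hy
    obtain ⟨x, hx, rfl⟩ := Cx.H_surj y
    rw [Cx.H_cls, Cx.cls_eq_zero, Cx.mem_Bd] at hy
    obtain ⟨z, hz⟩ := hy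
    obtain ⟨w, rfl⟩ := (h (n + 1)).2 z
    rw [← f.comm] at hz
    exact Cx.cls_eq_zero.2 ⟨w, (h n).1 hz⟩
  · intro y
    obtain ⟨x, hx, rfl⟩ := Cx.H_surj y
    obtain ⟨w, rfl⟩ := (h n).2 x
    have hw : w ∈ A.Z n := by
      cases n with
      | zero => trivial
      | succ n =>
        rw [Cx.mem_Z_succ] at hx ⊢
        refine (h n).1 ?_
        rw [f.comm, hx, map_zero]
    exact ⟨A.cls n w hw, rfl⟩

/-- sum of the coefficients -/
private noncomputable def ag (C : Type) [SmallCategory C] : (NC C).X 0 →ₗ[ℚ] ℚ :=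
  Finsupp.linearCombination ℚ (fun _ : Sx C 0 => (1 : ℚ))

private theorem ag_single {C : Type} [SmallCategory C] (σ : Sx C 0) (a : ℚ) :
    ag C (Finsupp.single σ a) = a := by
  unfold ag
  rw [Finsupp.linearCombination_single]
  simp

private theorem ag_d {C : Type} [SmallCategory C] (x : (NC C).X 1) : ag C ((NC C).d 0 x) = 0 := by
  have : (ag C).comp ((NC C).d 0) = 0 := by
    refine Finsupp.lhom_ext fun σ a => ?_
    rw [LinearMap.comp_apply, NC_d_single, map_sum, Fin.sum_univ_two, map_smul, map_smul,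
      ag_single, ag_single]
    simp
  exact LinearMap.congr_fun this x

private theorem ag_map {C D : Type} [SmallCategory C] [SmallCategory D] (F : C ⥤ D)
    (x : (NC C).X 0) : ag D ((NCmap F).f 0 x) = ag C x := by
  have : (ag D).comp ((NCmap F).f 0) = ag C := by
    refine Finsupp.lhom_ext fun σ a => ?_
    rw [LinearMap.comp_apply, NCmap_single, ag_single, ag_single]
  exact LinearMap.congr_fun this x

/-- functional on `H_0` of a product -/
private noncomputable def psi (C D : Type) [SmallCategory C] [SmallCategory D] (a b : ℚ) :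
    ((NC C).prod (NC D)).H 0 →ₗ[ℚ] ℚ :=
  Submodule.liftQ _ ((((a • ag C).coprod (b • ag D))).comp (((NC C).prod (NC D)).Z 0).subtype) (by
    rintro ⟨x, hx⟩ ⟨y, hy⟩
    have hy' : ((NC C).prod (NC D)).d 0 y = x := hy
    change a • ag C x.1 + b • ag D x.2 = 0
    rw [← hy']
    change a • ag C ((NC C).d 0 y.1) + b • ag D ((NC D).d 0 y.2) = 0
    rw [ag_d, ag_d, smul_zero, smul_zero, add_zero])

private theorem psi_cls {C D : Type} [SmallCategory C] [SmallCategory D] (a b : ℚ)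
    (x : ((NC C).prod (NC D)).X 0) (hx : x ∈ ((NC C).prod (NC D)).Z 0) :
    psi C D a b (((NC C).prod (NC D)).cls 0 x hx) = a • ag C x.1 + b • ag D x.2 := rfl

theorem mv_circle {P Q U W : C → Prop} (h : Circ C P Q U W) :
    Nonempty C ∧ (∀ x : (NC C).X 0, Finsupp.linearCombination ℚ (fun _ => (1 : ℚ)) x = 0 →
      x ∈ (NC C).Bd 0) ∧ Nonempty (HC C 1 ≃ₗ[ℚ] ℚ) ∧ ∀ n, Subsingleton (HC C (n + 2)) := by
  obtain ⟨i, p, hs, hi, hp⟩ := mv_ses P Q h.hP h.hQ h.cov
  obtain ⟨u0⟩ := h.aU.1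
  obtain ⟨w0⟩ := h.aW.1
  have hdec := dec_bij (V := fun c => P c ∧ Q c) h.hU h.hW (fun c hc => h.cov' c hc.1 hc.2)
    h.disj h.srcU h.srcW
  have hsq := qbij _ hdec
  have hpr : ∀ n, Subsingleton (((NC (FSub P)).prod (NC (FSub Q))).H (n + 1)) := fun n =>
    prod_sub (h.aP.2.2 n) (h.aQ.2.2 n)
  have hI : ∀ n, Subsingleton (HC (FSub fun c => P c ∧ Q c) (n + 1)) := by
    intro n
    have h1 : Subsingleton (((NC (FSub U)).prod (NC (FSub W))).H (n + 1)) :=
      prod_sub (h.aU.2.2 n) (h.aW.2.2 n)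
    refine ⟨fun a b => ?_⟩
    obtain ⟨a, rfl⟩ := (hsq (n + 1)).2 a
    obtain ⟨b, rfl⟩ := (hsq (n + 1)).2 b
    rw [h1.elim a b]
  have hker : ∀ n (y : HC C (n + 1)), Cx.delta hs n y = 0 → y = 0 := by
    intro n y hy
    obtain ⟨z, rfl⟩ := (Cx.exact_right hs n y).1 hy
    rw [(hpr n).elim z 0, map_zero]
  refine ⟨⟨u0.o⟩, fun x hx => ?_, ?_, fun n => ⟨fun a b => ?_⟩⟩
  · obtain ⟨⟨u, v⟩, rfl⟩ := hs.surj 0 x
    have hx' : ag C (p.f 0 (u, v)) = 0 := hx
    rw [hp, map_add, ag_map, ag_map] at hx'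
    change ag _ u + ag _ v = 0 at hx'
    let w : (NC (FSub fun c => P c ∧ Q c)).X 0 :=
      Finsupp.single (Sx.pt (⟨u0.o, h.hU _ u0.h⟩ : FSub fun c => P c ∧ Q c)) (ag _ u)
    have hw : ag _ w = ag _ u := ag_single _ _
    obtain ⟨a, ha⟩ := h.aP.2.1 (u - (NCmap (FSub.map (𝟭 C) (fun c => P c ∧ Q c) P
      (fun _ h => h.1))).f 0 w) (by
        change ag _ _ = 0
        rw [map_sub, ag_map, hw, sub_self])
    obtain ⟨b, hb⟩ := h.aQ.2.1 (v + (NCmap (FSub.map (𝟭 C) (fun c => P c ∧ Q c) Q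
      (fun _ h => h.2))).f 0 w) (by
        change ag _ _ = 0
        rw [map_add, ag_map, hw, add_comm]
        exact hx')
    refine ⟨p.f 1 (a, b), ?_⟩
    rw [← p.comm]
    have h1 : ((NC (FSub P)).prod (NC (FSub Q))).d 0 (a, b) =
        (show ((NC (FSub P)).prod (NC (FSub Q))).X 0 from (u, v)) - i.f 0 w := by
      rw [hi]
      refine Prod.ext ha ?_
      change (NC (FSub Q)).d 0 b = v - -_
      rw [sub_neg_eq_add]
      exact hb
    rw [h1, map_sub, (hs.exact 0 _).2 ⟨w, rfl⟩, sub_zero]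
  · -- `H_1`
    let e : ((NC (FSub U)).prod (NC (FSub W))).H 0 ≃ₗ[ℚ] HC (FSub fun c => P c ∧ Q c) 0 :=
      LinearEquiv.ofBijective _ (hsq 0)
    have he : ∀ x y hx, e (((NC (FSub U)).prod (NC (FSub W))).cls 0 (x, y) hx) =
        (NC (FSub fun c => P c ∧ Q c)).cls 0 ((NCmap (jm U _ h.hU)).f 0 x +
          (NCmap (jm W _ h.hW)).f 0 y) trivial := fun x y hx => rfl
    -- the kernel of `i` on `H_0`
    have hi0 : ∀ z, i.H 0 (e z) = 0 ↔ psi (FSub U) (FSub W) 1 1 z = 0 := by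
      intro z
      obtain ⟨⟨x, y⟩, hx, rfl⟩ := Cx.H_surj z
      rw [he, psi_cls, Cx.H_cls, Cx.cls_eq_zero, hi]
      have hag : ag _ ((NCmap (jm U (fun c => P c ∧ Q c) h.hU)).f 0 x +
          (NCmap (jm W (fun c => P c ∧ Q c) h.hW)).f 0 y) =
          (1 : ℚ) • ag (FSub U) (x, y).1 + (1 : ℚ) • ag (FSub W) (x, y).2 := by
        rw [map_add, ag_map, ag_map, one_smul, one_smul]
      rw [← hag]
      constructor
      · rintro ⟨⟨a, b⟩, hab⟩
        have h1 : (NC (FSub P)).d 0 a = (NCmap (FSub.map (𝟭 C) (fun c => P c ∧ Q c) P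
            (fun _ h => h.1))).f 0 _ := congrArg Prod.fst hab
        have h2 := congrArg (ag _) h1
        rw [ag_d, ag_map] at h2
        exact h2.symm
      · intro h0
        obtain ⟨a, ha⟩ := h.aP.2.1 ((NCmap (FSub.map (𝟭 C) (fun c => P c ∧ Q c) P
          (fun _ h => h.1))).f 0 ((NCmap (jm U _ h.hU)).f 0 x +
          (NCmap (jm W _ h.hW)).f 0 y)) (by
            change ag _ _ = 0
            rw [ag_map]
            exact h0)
        obtain ⟨b, hb⟩ := h.aQ.2.1 (-(NCmap (FSub.map (𝟭 C) (fun c => P c ∧ Q c) Q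
          (fun _ h => h.2))).f 0 ((NCmap (jm U _ h.hU)).f 0 x +
          (NCmap (jm W _ h.hW)).f 0 y)) (by
            change ag _ _ = 0
            rw [map_neg, ag_map, neg_eq_zero]
            exact h0)
        exact ⟨(a, b), Prod.ext ha hb⟩
    have hz0 : ∀ z, psi (FSub U) (FSub W) 1 0 z = 0 → psi (FSub U) (FSub W) 1 1 z = 0 →
        z = 0 := by
      intro z h1 h2
      obtain ⟨⟨x, y⟩, hx, rfl⟩ := Cx.H_surj z
      rw [psi_cls] at h1 h2
      simp only [one_smul, zero_smul, add_zero] at h1 h2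
      rw [h1, zero_add] at h2
      obtain ⟨a, ha⟩ := h.aU.2.1 x h1
      obtain ⟨b, hb⟩ := h.aW.2.1 y h2
      exact Cx.cls_eq_zero.2 ⟨(a, b), Prod.ext ha hb⟩
    refine ⟨LinearEquiv.ofBijective ((psi (FSub U) (FSub W) 1 0).comp
      (e.symm.toLinearMap.comp (Cx.delta hs 0))) ⟨?_, ?_⟩⟩
    · rw [injective_iff_map_eq_zero]
      intro y hy
      have hy' : psi (FSub U) (FSub W) 1 0 (e.symm (Cx.delta hs 0 y)) = 0 := hy
      have h1 : i.H 0 (e (e.symm (Cx.delta hs 0 y))) = 0 := by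
        rw [LinearEquiv.apply_symm_apply]
        exact (Cx.exact_left hs 0 _).2 ⟨y, rfl⟩
      have h2 := hz0 _ hy' ((hi0 _).1 h1)
      rw [LinearEquiv.map_eq_zero_iff] at h2
      exact hker 0 y h2
    · intro t
      let z : ((NC (FSub U)).prod (NC (FSub W))).H 0 := ((NC (FSub U)).prod (NC (FSub W))).cls 0
        ((Finsupp.single (Sx.pt u0) t : Sx (FSub U) 0 →₀ ℚ),
          (Finsupp.single (Sx.pt w0) (-t) : Sx (FSub W) 0 →₀ ℚ)) trivial
      have hz1 : psi (FSub U) (FSub W) 1 1 z = 0 := by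
        change (1 : ℚ) • ag _ (Finsupp.single (Sx.pt u0) t) +
          (1 : ℚ) • ag _ (Finsupp.single (Sx.pt w0) (-t)) = 0
        rw [ag_single, ag_single]
        simp
      obtain ⟨y, hy⟩ := (Cx.exact_left hs 0 _).1 ((hi0 z).2 hz1)
      refine ⟨y, ?_⟩
      change psi (FSub U) (FSub W) 1 0 (e.symm (Cx.delta hs 0 y)) = t
      rw [hy, LinearEquiv.symm_apply_apply]
      change (1 : ℚ) • ag _ (Finsupp.single (Sx.pt u0) t) +
        (0 : ℚ) • ag _ (Finsupp.single (Sx.pt w0) (-t)) = t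
      rw [ag_single, ag_single]
      simp
  · have h1 : ∀ y : HC C (n + 2), y = 0 := fun y => hker (n + 1) y ((hI n).elim _ _)
    rw [h1 a, h1 b]

theorem circle_hiso {P Q U W : C → Prop} (h : Circ C P Q U W) {P' Q' U' W' : D → Prop}
    (h' : Circ D P' Q' U' W') (F : C ⥤ D) (hFP : ∀ c, P c → P' (F.obj c))
    (hFQ : ∀ c, Q c → Q' (F.obj c)) (hFU : ∀ c, U c → U' (F.obj c))
    (hFW : ∀ c, W c → W' (F.obj c)) : HIso F := by
  refine mv_hiso P Q h.hP h.hQ h.cov P' Q' h'.hP h'.hQ h'.cov F hFP hFQ (hiso_acy _ h.aP h'.aP)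
    (hiso_acy _ h.aQ h'.aQ) ?_
  have hs := qbij _ (dec_bij (V := fun c => P c ∧ Q c) h.hU h.hW (fun c hc => h.cov' c hc.1 hc.2)
    h.disj h.srcU h.srcW)
  have hs' := qbij _ (dec_bij (V := fun c => P' c ∧ Q' c) h'.hU h'.hW
    (fun c hc => h'.cov' c hc.1 hc.2) h'.disj h'.srcU h'.srcW)
  have hpr := prod_qis (hiso_acy (FSub.map F U U' hFU) h.aU h'.aU)
    (hiso_acy (FSub.map F W W' hFW) h.aW h'.aW)
  refine Cx.Qis.of_comp_left hs ?_
  have key : (sumH (NCmap (jm U (fun c => P c ∧ Q c) h.hU))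
      (NCmap (jm W (fun c => P c ∧ Q c) h.hW))).comp
      (NCmap (FSub.map F (fun c => P c ∧ Q c) (fun c => P' c ∧ Q' c)
        (fun c h => ⟨hFP c h.1, hFQ c h.2⟩))) =
      (prodH (NCmap (FSub.map F U U' hFU)) (NCmap (FSub.map F W W' hFW))).comp
        (sumH (NCmap (jm U' (fun c => P' c ∧ Q' c) h'.hU))
          (NCmap (jm W' (fun c => P' c ∧ Q' c) h'.hW))) := by
    refine Cx.Hom.ext (funext fun n => LinearMap.ext fun x => ?_)
    change (NCmap (FSub.map F (fun c => P c ∧ Q c) (fun c => P' c ∧ Q' c)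
        (fun c h => ⟨hFP c h.1, hFQ c h.2⟩))).f n
        ((NCmap (jm U (fun c => P c ∧ Q c) h.hU)).f n x.1 +
          (NCmap (jm W (fun c => P c ∧ Q c) h.hW)).f n x.2) =
      (NCmap (jm U' (fun c => P' c ∧ Q' c) h'.hU)).f n
        ((NCmap (FSub.map F U U' hFU)).f n x.1) +
      (NCmap (jm W' (fun c => P' c ∧ Q' c) h'.hW)).f n
        ((NCmap (FSub.map F W W' hFW)).f n x.2)
    rw [map_add]
    have e1 : ∀ (R : C → Prop) (R' : D → Prop) (hR : ∀ c, R c → R' (F.obj c))
        (h1 : ∀ c, R c → P c ∧ Q c) (h2 : ∀ c, R' c → P' c ∧ Q' c) (y : (NC (FSub R)).X n),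
        (NCmap (FSub.map F (fun c => P c ∧ Q c) (fun c => P' c ∧ Q' c)
          (fun c h => ⟨hFP c h.1, hFQ c h.2⟩))).f n
          ((NCmap (jm R (fun c => P c ∧ Q c) h1)).f n y) =
        (NCmap (jm R' (fun c => P' c ∧ Q' c) h2)).f n ((NCmap (FSub.map F R R' hR)).f n y) := by
      intro R R' hR h1 h2 y
      have : ((NCmap (FSub.map F (fun c => P c ∧ Q c) (fun c => P' c ∧ Q' c)
          (fun c h => ⟨hFP c h.1, hFQ c h.2⟩))).f n).comp
          ((NCmap (jm R (fun c => P c ∧ Q c) h1)).f n) =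
        ((NCmap (jm R' (fun c => P' c ∧ Q' c) h2)).f n).comp
          ((NCmap (FSub.map F R R' hR)).f n) := by
        refine Finsupp.lhom_ext fun σ a => ?_
        rw [LinearMap.comp_apply, LinearMap.comp_apply, NCmap_single, NCmap_single, NCmap_single,
          NCmap_single]
        rfl
      exact LinearMap.congr_fun this y
    rw [e1 U U' hFU h.hU h'.hU, e1 W W' hFW h.hW h'.hW]
  rw [key]
  exact Cx.Qis.comp hpr hs'

end C715
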