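import Pool.Agent.Work.MP_c71557_gt.H.Defs2

set_option autoImplicit false

/-!
# MP_c71557_gt, module H/Prism: natural transformations give homotopies (M)

`α : F ⟶ G` functors `C ⥤ D`.  For a simplex `σ` of `C` and `i : Fin (n+1)` put
`h_i σ = (F σ_0, …, F σ_i, G σ_i, …, G σ_n)`, i.e. the simplex of `D` with objects
`j ↦ if j ≤ i (as natural numbers) then F (σ (j)) else G (σ (j-1))` and the obvious arrows (the
arrow across the middle is `F(σ_a → σ_b) ≫ α`).  The chain homotopy is
`h σ = ∑_i (-1)^i h_i σ`, `∂ h + h ∂ = G_* - F_*`.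

Convenient construction: the monotone map `s_i : Fin (n+2) → Fin (n+1) × Fin 2`,
`j ↦ (predAbove i j, if j ≤ i then 0 else 1)` and the simplex of `D` indexed by
`Fin (n+1) × Fin 2`: objects `(j,0) ↦ F σ_j`, `(j,1) ↦ G σ_j`, arrows
`(j,0) → (k,0) : F`, `(j,1) → (k,1) : G`, `(j,0) → (k,1) : F(σ_j → σ_k) ≫ α_{σ_k}`.  Define a
general structure of functors from a preorder (as `Sx`), and restriction along monotone maps; then
the identities `pre (dl j) (h_i σ)` reduce to identities of monotone maps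
`s_i ∘ dl j = (dl j' × id) ∘ s_{i'}` (`j < i`: `s_{i-1}`, face `j`; `j > i + 1`: `s_i`, face `j-1`;
`j = i` and `j = i + 1` cancel in pairs `s_i ∘ dl i = s_{i-1} ∘ dl i`; the two remaining ones are
`s_0 ∘ dl 0 = (id, 1)` and `s_n ∘ dl (n+1) = (id, 0)`).  The bookkeeping of the signs is the same
as in Mathlib `CategoryTheory.SimplicialObject.Homotopy.ToChainHomotopy`, which may be copied.

`bar_natTrans` is the same with coefficients: for `x ∈ M(F σ_0)`, `h_i (σ, x) = (h_i σ, x)`.
-/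

namespace C715

open CategoryTheory

variable {C : Type} [SmallCategory C] {D : Type} [SmallCategory D]

private theorem prism_sum (n : ℕ) {V : Type} [AddCommGroup V] [Module ℚ V]
    (B : Fin (n + 3) → Fin (n + 2) → V) (A : Fin (n + 1) → Fin (n + 2) → V)
    (h1 : ∀ (i : Fin (n + 1)) (j : Fin (n + 2)), j ≤ i.castSucc → B j.castSucc i.succ = A i j)
    (h2 : ∀ (i : Fin (n + 1)) (j : Fin (n + 2)), i.castSucc < j → B j.succ i.castSucc = A i j)
    (h3 : ∀ i : Fin (n + 1), B i.castSucc.succ i.castSucc = B i.castSucc.succ i.succ) :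
    (∑ x : Fin (n + 3) × Fin (n + 2), ((-1 : ℚ) ^ (x.1 + x.2 : ℕ)) • B x.1 x.2) +
      (∑ x : Fin (n + 1) × Fin (n + 2), ((-1 : ℚ) ^ (x.1 + x.2 : ℕ)) • A x.1 x.2) =
      B 0 0 - B (Fin.last _) (Fin.last _) := by
  classical
  let α (x : Fin (n + 1) × Fin (n + 2)) : V := ((-1 : ℚ) ^ ((x.1 + x.2 : ℕ))) • A x.1 x.2
  let β (x : Fin (n + 3) × Fin (n + 2)) : V := ((-1 : ℚ) ^ ((x.1 + x.2 : ℕ))) • B x.1 x.2
  let S : Finset (Fin (n + 1) × Fin (n + 2)) := { x | x.1.castSucc < x.2 }
  let γ₁ (x : Fin (n + 1) × Fin (n + 2)) : Fin (n + 3) × Fin (n + 2) := (x.2.castSucc, x.1.succ)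
  let γ₂ (x : Fin (n + 1) × Fin (n + 2)) : Fin (n + 3) × Fin (n + 2) := (x.2.succ, x.1.castSucc)
  let γ₃ (i : Fin (n + 1)) : Fin (n + 3) × Fin (n + 2) := (i.castSucc.succ, i.succ)
  let γ₄ (i : Fin (n + 1)) : Fin (n + 3) × Fin (n + 2) := (i.castSucc.succ, i.castSucc)
  have hγ₁ : Function.Injective γ₁ := fun _ _ ↦ by aesop
  have hγ₂ : Function.Injective γ₂ := fun _ _ ↦ by aesop
  have hγ₃ : Function.Injective γ₃ := fun _ _ ↦ by aesop
  have hγ₄ : Function.Injective γ₄ := fun _ _ ↦ by aesop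
  have eq₁ : B 0 0 = β ⟨0, 0⟩ := by simp [β]
  have eq₂ : B (Fin.last _) (Fin.last _) = - β ⟨Fin.last _, Fin.last _⟩ := by
    have : ((-1 : ℚ) ^ ((n + 2) + (n + 1))) = -1 := by
      rw [show (n + 2) + (n + 1) = 2 * (n + 1) + 1 by ring, pow_succ, pow_mul]
      norm_num
    simp only [β, Fin.val_last, this, neg_smul, one_smul, neg_neg]
  have eq₃ : ∑ x ∈ Sᶜ, α x = - ∑ y ∈ Finset.image γ₁ Sᶜ, β y := by
    rw [← Finset.sum_neg_distrib, Finset.sum_image hγ₁.injOn]
    refine Finset.sum_congr rfl (fun x hx ↦ ?_)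
    have hx' : x.2 ≤ x.1.castSucc := by simpa [S] using hx
    simp only [α, β, γ₁, h1 x.1 x.2 hx', Fin.val_castSucc, Fin.val_succ]
    rw [← neg_smul]
    congr 1
    ring
  have eq₄ : ∑ x ∈ S, α x = - ∑ y ∈ Finset.image γ₂ S, β y := by
    rw [← Finset.sum_neg_distrib, Finset.sum_image hγ₂.injOn]
    refine Finset.sum_congr rfl (fun x hx ↦ ?_)
    have hx' : x.1.castSucc < x.2 := by simpa [S] using hx
    simp only [α, β, γ₂, h2 x.1 x.2 hx', Fin.val_castSucc, Fin.val_succ]
    rw [← neg_smul]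
    congr 1
    ring
  have eq₅ : ∑ x, β (γ₄ x) = - ∑ x, β (γ₃ x) := by
    rw [← Finset.sum_neg_distrib]
    refine Finset.sum_congr rfl (fun x hx ↦ ?_)
    simp only [β, γ₃, γ₄, h3, Fin.val_castSucc, Fin.val_succ]
    rw [← neg_smul]
    congr 1
    ring
  have h₁ : Disjoint (Finset.image γ₁ Sᶜ) (Finset.image γ₂ S) := by
    rw [Finset.disjoint_iff_ne]
    grind [Finset.mem_compl]
  have h₂ : Disjoint (Finset.image γ₃ .univ) (Finset.image γ₄ .univ) := by
    rw [Finset.disjoint_iff_ne]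
    grind
  have h₃ : Disjoint (Finset.disjUnion _ _ h₂) {(0, 0), (Fin.last _, Fin.last _)} := by
    rw [Finset.disjoint_iff_ne]
    simp only [Finset.mem_insert, forall_eq_or_imp, Prod.forall]
    rintro ⟨a, _⟩ ⟨b, _⟩
    simp
    grind
  have h₄ : Disjoint (Finset.disjUnion _ _ h₁) (Finset.disjUnion _ _ h₃) := by
    rw [Finset.disjoint_iff_ne]
    simp only [Finset.compl_filter, not_lt, Finset.disjUnion_eq_union, Finset.mem_union,
      Finset.mem_image, Finset.mem_filter, Finset.mem_univ, true_and, Prod.exists, ne_eq,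
      Finset.mem_insert, Finset.mem_singleton, Prod.forall, Prod.mk.injEq, not_and,
      S, γ₁, γ₂, γ₃, γ₄]
    rintro ⟨a, _⟩ ⟨b, _⟩ (⟨⟨j, _⟩, ⟨k, _⟩, h₁, h₂, h₃⟩ | ⟨⟨j, _⟩, ⟨k, _⟩, h₁, h₂, h₃⟩) _ _
      ((⟨⟨i, _⟩, h₄, h₅⟩ | ⟨⟨i, _⟩, h₄, h₅⟩) | (⟨rfl, rfl⟩ | ⟨rfl, rfl⟩)) <;>
        simp [Fin.ext_iff] at h₁ h₂ h₃ ⊢ <;> grind
  have H : (Finset.disjUnion _ _ h₁)ᶜ = Finset.disjUnion _ _ h₃ :=
    Finset.compl_eq_of_disjoint_of_card_add_eq h₄ (by
      rw [Finset.card_disjUnion, Finset.card_disjUnion, Finset.card_disjUnion,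
        Finset.card_image_of_injective _ hγ₁, Finset.card_image_of_injective _ hγ₂,
        Finset.card_image_of_injective _ hγ₃, Finset.card_image_of_injective _ hγ₄]
      simp
      lia)
  change ∑ x, β x + ∑ x, α x = _
  rw [eq₁, eq₂, ← S.sum_add_sum_compl α, eq₃, eq₄,
    ← (Finset.disjUnion _ _ h₁).sum_add_sum_compl β, H,
    Finset.sum_disjUnion, Finset.sum_disjUnion, Finset.sum_disjUnion,
    Finset.sum_image hγ₃.injOn, Finset.sum_image hγ₄.injOn,
    Finset.sum_insert (by simp), Finset.sum_singleton, eq₅]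
  abel

/-- simplicial homotopies of simplicial vector spaces give chain homotopies -/
theorem SMod.htpy {S T : SMod} (f g : Cx.Hom S.cx T.cx)
    (h : ∀ n (_ : Fin (n + 1)), S.X n →ₗ[ℚ] T.X (n + 1))
    (h0 : ∀ n x, T.map (dl 0) (h n 0 x) = g.f n x)
    (hl : ∀ n x, T.map (dl (Fin.last _)) (h n (Fin.last n) x) = f.f n x)
    (h1 : ∀ n (i : Fin (n + 1)) (j : Fin (n + 2)), j ≤ i.castSucc → ∀ x,
      T.map (dl j.castSucc) (h (n + 1) i.succ x) = h n i (S.map (dl j) x))
    (h2 : ∀ n (i : Fin (n + 1)) (j : Fin (n + 2)), i.castSucc < j → ∀ x,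
      T.map (dl j.succ) (h (n + 1) i.castSucc x) = h n i (S.map (dl j) x))
    (h3 : ∀ n (i : Fin (n + 1)) x,
      T.map (dl i.castSucc.succ) (h (n + 1) i.castSucc x) =
      T.map (dl i.castSucc.succ) (h (n + 1) i.succ x)) :
    Cx.Htpy g f := by
  refine ⟨fun n => ∑ i : Fin (n + 1), ((-1 : ℚ) ^ (i : ℕ)) • h n i, ?_, ?_⟩
  · intro x
    have hx : (∑ i : Fin (0 + 1), ((-1 : ℚ) ^ (i : ℕ)) • h 0 i) x = h 0 0 x := by
      simp
    change g.f 0 x - f.f 0 x = T.alt 0 ((∑ i : Fin (0 + 1), ((-1 : ℚ) ^ (i : ℕ)) • h 0 i) x)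
    rw [hx, SMod.alt_apply, Fin.sum_univ_two, ← h0 0 x, ← hl 0 x]
    change _ = ((-1 : ℚ) ^ (0 : ℕ)) • _ + ((-1 : ℚ) ^ (1 : ℕ)) • _
    rw [pow_zero, pow_one, one_smul, neg_smul, one_smul, sub_eq_add_neg]
    rfl
  · intro n x
    have hx : ∀ m (y : S.X m), (∑ i : Fin (m + 1), ((-1 : ℚ) ^ (i : ℕ)) • h m i) y =
        ∑ i : Fin (m + 1), ((-1 : ℚ) ^ (i : ℕ)) • h m i y := by
      intro m y
      simp
    change g.f (n + 1) x - f.f (n + 1) x =
      T.alt (n + 1) ((∑ i : Fin (n + 1 + 1), ((-1 : ℚ) ^ (i : ℕ)) • h (n + 1) i) x) +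
      (∑ i : Fin (n + 1), ((-1 : ℚ) ^ (i : ℕ)) • h n i) (S.alt n x)
    have key := prism_sum n (fun j i => T.map (dl j) (h (n + 1) i x))
      (fun i j => h n i (S.map (dl j) x)) (fun i j hij => h1 n i j hij x)
      (fun i j hij => h2 n i j hij x) (fun i => h3 n i x)
    rw [hx, hx, SMod.alt_apply, SMod.alt_apply, ← h0 (n + 1) x, ← hl (n + 1) x]
    refine key.symm.trans ?_
    congr 1
    · rw [Fintype.sum_prod_type]
      refine Finset.sum_congr rfl fun j _ => ?_
      rw [map_sum, Finset.smul_sum]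
      refine Finset.sum_congr rfl fun i _ => ?_
      rw [map_smul, smul_smul, pow_add]
    · rw [Fintype.sum_prod_type]
      refine Finset.sum_congr rfl fun i _ => ?_
      rw [map_sum, Finset.smul_sum]
      refine Finset.sum_congr rfl fun j _ => ?_
      rw [map_smul, smul_smul, pow_add]

/-- functors from a preorder -/
structure Px (P : Type) [Preorder P] (C : Type) [SmallCategory C] where
  o : P → C
  m : ∀ i j : P, i ≤ j → (o i ⟶ o j)
  m_self : ∀ i, m i i le_rfl = 𝟙 (o i)
  m_comp : ∀ i j k (h : i ≤ j) (h' : j ≤ k), m i j h ≫ m j k h' = m i k (h.trans h')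

/-- restriction along a monotone map -/
abbrev Px.pull {P : Type} [Preorder P] {C : Type} [SmallCategory C] {m : ℕ}
    (φ : Fin (m + 1) →o P) (σ : Px P C) : Sx C m where
  o i := σ.o (φ i)
  m i j h := σ.m (φ i) (φ j) (φ.monotone h)
  m_self _ := σ.m_self _
  m_comp _ _ _ _ _ := σ.m_comp _ _ _ _ _

/-- objects of the prism -/
abbrev prismO {F G : C ⥤ D} {n : ℕ} (σ : Sx C n) (a : Fin (n + 1)) : Bool → D
  | false => F.obj (σ.o a)
  | true => G.obj (σ.o a)

/-- arrows of the prism -/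
abbrev prismM {F G : C ⥤ D} (α : F ⟶ G) {n : ℕ} (σ : Sx C n) (a b : Fin (n + 1)) (h : a ≤ b) :
    ∀ x y : Bool, x ≤ y → (prismO (F := F) (G := G) σ a x ⟶ prismO (F := F) (G := G) σ b y)
  | false, false, _ => F.map (σ.m a b h)
  | false, true, _ => F.map (σ.m a b h) ≫ α.app (σ.o b)
  | true, true, _ => G.map (σ.m a b h)
  | true, false, h' => absurd h' (by decide)

/-- the prism over a simplex -/
abbrev prismX {F G : C ⥤ D} (α : F ⟶ G) {n : ℕ} (σ : Sx C n) : Px (Fin (n + 1) × Bool) D where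
  o x := prismO (F := F) (G := G) σ x.1 x.2
  m x y h := prismM α σ x.1 y.1 h.1 x.2 y.2 h.2
  m_self := by
    rintro ⟨a, x⟩
    cases x
    · change F.map (σ.m a a _) = _
      rw [σ.m_self, F.map_id]
    · change G.map (σ.m a a _) = _
      rw [σ.m_self, G.map_id]
  m_comp := by
    rintro ⟨a, x⟩ ⟨b, y⟩ ⟨c, z⟩ ⟨h1, h2⟩ ⟨h3, h4⟩
    cases x <;> cases y <;> cases z
    · change F.map (σ.m a b _) ≫ F.map (σ.m b c _) = F.map (σ.m a c _)
      rw [← F.map_comp, σ.m_comp]
    · change F.map (σ.m a b _) ≫ F.map (σ.m b c _) ≫ α.app _ = F.map (σ.m a c _) ≫ α.app _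
      rw [← Category.assoc, ← F.map_comp, σ.m_comp]
    · exact absurd (show true ≤ false from h4) (by decide)
    · change (F.map (σ.m a b _) ≫ α.app _) ≫ G.map (σ.m b c _) = F.map (σ.m a c _) ≫ α.app _
      rw [Category.assoc, ← α.naturality, ← Category.assoc, ← F.map_comp, σ.m_comp]
    · exact absurd (show true ≤ false from h2) (by decide)
    · exact absurd (show true ≤ false from h2) (by decide)
    · exact absurd (show true ≤ false from h4) (by decide)
    · change G.map (σ.m a b _) ≫ G.map (σ.m b c _) = G.map (σ.m a c _)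
      rw [← G.map_comp, σ.m_comp]

/-- the monotone map of the `i`-th simplex of the prism -/
def prs {n : ℕ} (i : Fin (n + 1)) : Fin (n + 2) →o Fin (n + 1) × Bool where
  toFun j := (i.predAbove j, decide (i.castSucc < j))
  monotone' := by
    intro a b h
    refine ⟨Fin.predAbove_right_monotone i h, ?_⟩
    change decide (i.castSucc < a) ≤ decide (i.castSucc < b)
    by_cases h1 : i.castSucc < a
    · rw [decide_eq_true h1, decide_eq_true (lt_of_lt_of_le h1 h)]
    · rw [decide_eq_false h1]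
      exact Bool.false_le _

/-- product of a monotone map with the identity -/
def prm {m n : ℕ} (φ : Fin (m + 1) →o Fin (n + 1)) : Fin (m + 1) × Bool →o Fin (n + 1) × Bool where
  toFun x := (φ x.1, x.2)
  monotone' _ _ h := ⟨φ.monotone h.1, h.2⟩

/-- the bottom or top of the prism -/
def prc {n : ℕ} (b : Bool) : Fin (n + 1) →o Fin (n + 1) × Bool where
  toFun k := (k, b)
  monotone' _ _ h := ⟨h, le_rfl⟩

private theorem sa_val {n : ℕ} (j : Fin (n + 2)) (k : Fin (n + 1)) :
    ((j.succAbove k : Fin (n + 2)) : ℕ) = if (k : ℕ) < j then (k : ℕ) else k + 1 := by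
  unfold Fin.succAbove
  by_cases h : k.castSucc < j
  · rw [if_pos h, if_pos (by simpa [Fin.lt_def] using h)]
    rfl
  · rw [if_neg h, if_neg (by simpa [Fin.lt_def] using h)]
    rfl

private theorem pa_val {n : ℕ} (i : Fin (n + 1)) (k : Fin (n + 2)) :
    ((i.predAbove k : Fin (n + 1)) : ℕ) = if (i : ℕ) < k then (k : ℕ) - 1 else k := by
  unfold Fin.predAbove
  by_cases h : i.castSucc < k
  · rw [dif_pos h, if_pos (by simpa [Fin.lt_def] using h)]
    rfl
  · rw [dif_neg h, if_neg (by simpa [Fin.lt_def] using h)]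
    rfl

theorem prs_zero {n : ℕ} : (prs (0 : Fin (n + 1))).comp (dl 0) = prc true := by
  ext k : 2
  refine Prod.ext (Fin.ext ?_) ?_
  · change (((0 : Fin (n + 1)).predAbove ((0 : Fin (n + 2)).succAbove k) : Fin (n + 1)) : ℕ) = k
    simp only [pa_val, sa_val, Fin.val_zero]
    split_ifs <;> omega
  · change decide (Fin.castSucc 0 < (0 : Fin (n + 2)).succAbove k) = true
    rw [decide_eq_true_iff, Fin.lt_def, sa_val]
    simp

theorem prs_last {n : ℕ} :
    (prs (Fin.last n)).comp (dl (Fin.last (n + 1))) = prc false := by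
  ext k : 2
  have hk := k.2
  refine Prod.ext (Fin.ext ?_) ?_
  · change (((Fin.last n).predAbove ((Fin.last (n + 1)).succAbove k) : Fin (n + 1)) : ℕ) = k
    simp only [pa_val, sa_val, Fin.val_last]
    split_ifs <;> omega
  · change decide ((Fin.last n).castSucc < (Fin.last (n + 1)).succAbove k) = false
    rw [decide_eq_false_iff_not, Fin.lt_def, sa_val, Fin.val_castSucc, Fin.val_last, Fin.val_last]
    split_ifs <;> omega

theorem prs_one {n : ℕ} (i : Fin (n + 1)) (j : Fin (n + 2)) (h : j ≤ i.castSucc) :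
    (prs i.succ).comp (dl j.castSucc) = (prm (dl j)).comp (prs i) := by
  rw [Fin.le_def, Fin.val_castSucc] at h
  ext k : 2
  refine Prod.ext (Fin.ext ?_) ?_
  · change ((i.succ.predAbove (j.castSucc.succAbove k) : Fin (n + 2)) : ℕ) =
      ((j.succAbove (i.predAbove k) : Fin (n + 2)) : ℕ)
    simp only [pa_val, sa_val, Fin.val_castSucc, Fin.val_succ]
    split_ifs <;> omega
  · change decide (i.succ.castSucc < j.castSucc.succAbove k) = decide (i.castSucc < k)
    rw [decide_eq_decide, Fin.lt_def, Fin.lt_def, sa_val, Fin.val_castSucc, Fin.val_castSucc,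
      Fin.val_castSucc, Fin.val_succ]
    split_ifs <;> omega

theorem prs_two {n : ℕ} (i : Fin (n + 1)) (j : Fin (n + 2)) (h : i.castSucc < j) :
    (prs i.castSucc).comp (dl j.succ) = (prm (dl j)).comp (prs i) := by
  rw [Fin.lt_def, Fin.val_castSucc] at h
  ext k : 2
  refine Prod.ext (Fin.ext ?_) ?_
  · change ((i.castSucc.predAbove (j.succ.succAbove k) : Fin (n + 2)) : ℕ) =
      ((j.succAbove (i.predAbove k) : Fin (n + 2)) : ℕ)
    simp only [pa_val, sa_val, Fin.val_castSucc, Fin.val_succ]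
    split_ifs <;> omega
  · change decide (i.castSucc.castSucc < j.succ.succAbove k) = decide (i.castSucc < k)
    rw [decide_eq_decide, Fin.lt_def, Fin.lt_def, sa_val, Fin.val_castSucc, Fin.val_castSucc,
      Fin.val_succ]
    split_ifs <;> omega

theorem prs_three {n : ℕ} (i : Fin (n + 1)) :
    (prs i.castSucc).comp (dl i.castSucc.succ) = (prs i.succ).comp (dl i.castSucc.succ) := by
  ext k : 2
  refine Prod.ext (Fin.ext ?_) ?_
  · change ((i.castSucc.predAbove (i.castSucc.succ.succAbove k) : Fin (n + 2)) : ℕ) =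
      ((i.succ.predAbove (i.castSucc.succ.succAbove k) : Fin (n + 2)) : ℕ)
    simp only [pa_val, sa_val, Fin.val_castSucc, Fin.val_succ]
    split_ifs <;> omega
  · change decide (i.castSucc.castSucc < i.castSucc.succ.succAbove k) =
      decide (i.succ.castSucc < i.castSucc.succ.succAbove k)
    rw [decide_eq_decide, Fin.lt_def, Fin.lt_def, sa_val]
    simp only [Fin.val_castSucc, Fin.val_succ]
    split_ifs <;> omega

theorem NCmap_htpy {F G : C ⥤ D} (α : F ⟶ G) : Cx.Htpy (NCmap G) (NCmap F) := by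
  refine SMod.htpy (S := NS C) (T := NS D) (NCmap F) (NCmap G)
    (fun n i => Finsupp.lmapDomain ℚ ℚ (fun σ : Sx C n => (prismX α σ).pull (prs i)))
    ?_ ?_ ?_ ?_ ?_
  · intro n x
    change Finsupp.mapDomain _ (Finsupp.mapDomain _ (x : Sx C n →₀ ℚ)) = Finsupp.mapDomain _ x
    rw [← Finsupp.mapDomain_comp]
    refine congrArg (fun f => Finsupp.mapDomain f x) (funext fun σ => ?_)
    change (prismX α σ).pull ((prs 0).comp (dl 0)) = _
    rw [prs_zero]
    rfl
  · intro n x
    change Finsupp.mapDomain _ (Finsupp.mapDomain _ (x : Sx C n →₀ ℚ)) = Finsupp.mapDomain _ x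
    rw [← Finsupp.mapDomain_comp]
    refine congrArg (fun f => Finsupp.mapDomain f x) (funext fun σ => ?_)
    change (prismX α σ).pull ((prs (Fin.last n)).comp (dl (Fin.last (n + 1)))) = _
    rw [prs_last]
    rfl
  · intro n i j h x
    change Finsupp.mapDomain _ (Finsupp.mapDomain _ (x : Sx C (n + 1) →₀ ℚ)) =
      Finsupp.mapDomain _ (Finsupp.mapDomain _ (x : Sx C (n + 1) →₀ ℚ))
    rw [← Finsupp.mapDomain_comp, ← Finsupp.mapDomain_comp]
    refine congrArg (fun f => Finsupp.mapDomain f x) (funext fun σ => ?_)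
    change (prismX α σ).pull ((prs i.succ).comp (dl j.castSucc)) =
      (prismX α σ).pull ((prm (dl j)).comp (prs i))
    rw [prs_one i j h]
  · intro n i j h x
    change Finsupp.mapDomain _ (Finsupp.mapDomain _ (x : Sx C (n + 1) →₀ ℚ)) =
      Finsupp.mapDomain _ (Finsupp.mapDomain _ (x : Sx C (n + 1) →₀ ℚ))
    rw [← Finsupp.mapDomain_comp, ← Finsupp.mapDomain_comp]
    refine congrArg (fun f => Finsupp.mapDomain f x) (funext fun σ => ?_)
    change (prismX α σ).pull ((prs i.castSucc).comp (dl j.succ)) =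
      (prismX α σ).pull ((prm (dl j)).comp (prs i))
    rw [prs_two i j h]
  · intro n i x
    change Finsupp.mapDomain _ (Finsupp.mapDomain _ (x : Sx C (n + 1) →₀ ℚ)) =
      Finsupp.mapDomain _ (Finsupp.mapDomain _ (x : Sx C (n + 1) →₀ ℚ))
    rw [← Finsupp.mapDomain_comp, ← Finsupp.mapDomain_comp]
    refine congrArg (fun f => Finsupp.mapDomain f x) (funext fun σ => ?_)
    change (prismX α σ).pull ((prs i.castSucc).comp (dl i.castSucc.succ)) =
      (prismX α σ).pull ((prs i.succ).comp (dl i.castSucc.succ))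
    rw [prs_three i]

theorem HCmap_natTrans {F G : C ⥤ D} (α : F ⟶ G) (n : ℕ) : HCmap F n = HCmap G n :=
  (NCmap_htpy α).H_eq n |>.symm

/-- the morphism of coefficient systems induced by a natural transformation -/
abbrev Coef.nat {F G : C ⥤ D} (α : F ⟶ G) (M : Coef D) : Coef.Hom (M.pull F) (M.pull G) where
  f c := M.map (α.app c)
  comm u x := by
    change M.map _ (M.map _ x) = M.map _ (M.map _ x)
    rw [← M.map_comp, ← M.map_comp, α.naturality]

/-- simplices of the prism, with coefficients -/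
noncomputable def barE {F G : C ⥤ D} (α : F ⟶ G) (M : Coef D) {n m : ℕ} (σ : Sx C n)
    (t : Fin (m + 1) →o Fin (n + 1) × Bool) : M.M (F.obj (σ.o 0)) →ₗ[ℚ] BarX M m :=
  (bof M ((prismX α σ).pull t)).comp
    (M.map ((prismX α σ).m (0, false) (t 0) ⟨Fin.zero_le _, Bool.false_le _⟩))

theorem barMap_barE {F G : C ⥤ D} (α : F ⟶ G) (M : Coef D) {n m l : ℕ} (σ : Sx C n)
    (t : Fin (m + 1) →o Fin (n + 1) × Bool) (φ : Fin (l + 1) →o Fin (m + 1))
    (x : M.M (F.obj (σ.o 0))) :
    barMap M φ (barE α M σ t x) = barE α M σ (t.comp φ) x := by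
  unfold barE
  rw [LinearMap.comp_apply, LinearMap.comp_apply, barMap_bof, ← M.map_comp]
  refine congrArg (fun f => bof M ((prismX α σ).pull (t.comp φ)) (M.map f x)) ?_
  exact (prismX α σ).m_comp _ _ _ _ (t.monotone (Fin.zero_le _))

theorem barE_pre {F G : C ⥤ D} (α : F ⟶ G) (M : Coef D) {n n' m : ℕ} (σ : Sx C n')
    (ψ : Fin (n + 1) →o Fin (n' + 1)) (t : Fin (m + 1) →o Fin (n + 1) × Bool)
    (x : M.M (F.obj (σ.o 0))) :
    barE α M (pre ψ σ) t (M.map (F.map (σ.m 0 (ψ 0) (Fin.zero_le _))) x) =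
      barE α M σ ((prm ψ).comp t) x := by
  unfold barE
  rw [LinearMap.comp_apply, LinearMap.comp_apply, ← M.map_comp]
  refine congrArg (fun f => bof M ((prismX α σ).pull ((prm ψ).comp t)) (M.map f x)) ?_
  exact (prismX α σ).m_comp (0, false) (ψ 0, false) ((prm ψ).comp t 0)
    ⟨Fin.zero_le _, le_rfl⟩ ⟨ψ.monotone (Fin.zero_le _), Bool.false_le _⟩

theorem bar_natTrans {F G : C ⥤ D} (α : F ⟶ G) (M : Coef D) :
    Cx.Htpy ((barHom (Coef.nat α M)).comp (barPush G M)) (barPush F M) := by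
  have hb : ∀ n (i : Fin (n + 1)) (σ : Sx C n) (y : M.M (F.obj (σ.o 0))),
      bdesc (M.pull F) (fun σ => barE α M σ (prs i)) (bof (M.pull F) σ y) =
        barE α M σ (prs i) y := fun n i σ y => bdesc_bof _ _ _ _
  refine SMod.htpy (S := barS (M.pull F)) (T := barS M) (barPush F M)
    ((barHom (Coef.nat α M)).comp (barPush G M))
    (fun n i => bdesc (M.pull F) (fun σ => barE α M σ (prs i)))
    ?_ ?_ ?_ ?_ ?_
  · intro n x
    have : (barMap M (dl 0)).comp (bdesc (M.pull F) (fun σ => barE α M σ (prs (0 : Fin (n + 1))))) =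
        ((barHom (Coef.nat α M)).comp (barPush G M)).f n := by
      refine bar_ext _ fun σ y => ?_
      rw [LinearMap.comp_apply, hb, barMap_barE, prs_zero]
      have h1 : (barHom (Coef.nat α M)).f n (bof (M.pull F) σ y) =
        bof (M.pull G) σ (M.map (α.app (σ.o 0)) y) := bdesc_bof _ _ _ _
      have h2 : (barPush G M).f n (bof (M.pull G) σ (M.map (α.app (σ.o 0)) y)) =
        bof M (σ.push G) (M.map (α.app (σ.o 0)) y) := bdesc_bof _ _ _ _
      refine Eq.trans ?_ (h2.symm.trans (congrArg ((barPush G M).f n) h1.symm))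
      refine congrArg (fun f => bof M (σ.push G) (M.map f y)) ?_
      change F.map (σ.m 0 0 _) ≫ α.app (σ.o 0) = _
      rw [σ.m_self, F.map_id, Category.id_comp]
    exact LinearMap.congr_fun this x
  · intro n x
    have : (barMap M (dl (Fin.last (n + 1)))).comp
        (bdesc (M.pull F) (fun σ => barE α M σ (prs (Fin.last n)))) = (barPush F M).f n := by
      refine bar_ext _ fun σ y => ?_
      rw [LinearMap.comp_apply, hb, barMap_barE, prs_last]
      have h2 : (barPush F M).f n (bof (M.pull F) σ y) = bof M (σ.push F) y := bdesc_bof _ _ _ _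
      refine Eq.trans ?_ h2.symm
      refine congrArg (bof M (σ.push F)) ?_
      change M.map (F.map (σ.m 0 0 _)) y = y
      rw [σ.m_self, F.map_id, M.map_id]
    exact LinearMap.congr_fun this x
  · intro n i j h x
    have : (barMap M (dl j.castSucc)).comp (bdesc (M.pull F) (fun σ => barE α M σ (prs i.succ))) =
        (bdesc (M.pull F) (fun σ => barE α M σ (prs i))).comp (barMap (M.pull F) (dl j)) := by
      refine bar_ext _ fun σ y => ?_
      rw [LinearMap.comp_apply, LinearMap.comp_apply, hb, barMap_barE, barMap_bof, hb,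
        prs_one i j h]
      exact (barE_pre α M σ (dl j) (prs i) y).symm
    exact LinearMap.congr_fun this x
  · intro n i j h x
    have : (barMap M (dl j.succ)).comp (bdesc (M.pull F) (fun σ => barE α M σ (prs i.castSucc))) =
        (bdesc (M.pull F) (fun σ => barE α M σ (prs i))).comp (barMap (M.pull F) (dl j)) := by
      refine bar_ext _ fun σ y => ?_
      rw [LinearMap.comp_apply, LinearMap.comp_apply, hb, barMap_barE, barMap_bof, hb,
        prs_two i j h]
      exact (barE_pre α M σ (dl j) (prs i) y).symm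
    exact LinearMap.congr_fun this x
  · intro n i x
    have : (barMap M (dl i.castSucc.succ)).comp
        (bdesc (M.pull F) (fun σ => barE α M σ (prs i.castSucc))) =
        (barMap M (dl i.castSucc.succ)).comp
        (bdesc (M.pull F) (fun σ => barE α M σ (prs i.succ))) := by
      refine bar_ext _ fun σ y => ?_
      rw [LinearMap.comp_apply, LinearMap.comp_apply, hb, hb, barMap_barE, barMap_barE,
        prs_three i]
    exact LinearMap.congr_fun this x

end C715
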