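import Pool.Agent.Work.MP_c71557_gt.H.Defs6
import Pool.Agent.Work.MP_c71557_gt.H.RelPt
import Pool.Agent.Work.MP_c71557_gt.H.MVU
import Pool.Agent.Work.MP_c71557_gt.H.Prism
import Pool.Agent.Work.MP_c71557_gt.H.Eps1

set_option autoImplicit false

/-!
# MP_c71557_gt, module H/KrH: surjectivity for the two-arrow category (M)

`kc H m`: objects `0 = false`, `1 = true`, `Aut = H` at both, `Hom(0,1) = H ⊔ m H`
(`m` commutes with `H`, `m ∉ H`); `kr H m` the same with `Aut 0` killed, `Hom(0,1)` = two arrows.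
`kcPr : kc → kr` the projection.  CLAIM: `H_{n+2}(kc) → H_{n+2}(kr)` is surjective.

PROOF.  For `c = 1` and `c = m` let `kxc`, `kxr` be the subcategories with the crossing arrows `c H`
only.  A cycle `z` of `kr` is a sum `zα + zβ` of chains of `kxr 1` and `kxr m`; `d zα = - d zβ` lies
in both, so it is `p0 a + p1 b`, `a` a cycle of the point, `b` a cycle of `sg H`.  In `kxc c` the
arrow `c` gives a natural transformation between the inclusions `i0, i1` of `sg H`, hence chains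
`hα`, `hβ` with `d h = i1 b - i0 b`; `x = hα - hβ` is a cycle of `kc`.  As `kxr c` has the initial
object `0`, `zα - q hα` and `zβ + q hβ` are boundaries up to chains of the point, so
`z - π x` is a boundary.
-/

namespace C715

open CategoryTheory

section gen

variable {C : Type} [SmallCategory C] {D : Type} [SmallCategory D]

private theorem push_heq {n : ℕ} {s t : Sx C n} (h : s = t)
    (i j : Fin (n + 1)) (hij : i ≤ j) : HEq (s.m i j hij) (t.m i j hij) := by
  subst h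
  exact HEq.rfl

private theorem map_heq (F : C ⥤ D)
    (hF : ∀ {x y : C} (u v : x ⟶ y), F.map u = F.map v → u = v) {x y x' y' : C} (hx : x = x')
    (hy : y = y') (u : x ⟶ y) (u' : x' ⟶ y') (h : HEq (F.map u) (F.map u')) : HEq u u' := by
  subst hx
  subst hy
  exact heq_of_eq (hF _ _ (eq_of_heq h))

private theorem push_inj (F : C ⥤ D) (hobj : ∀ x y, F.obj x = F.obj y → x = y)
    (hF : ∀ {x y : C} (u v : x ⟶ y), F.map u = F.map v → u = v) (n : ℕ) :
    Function.Injective (fun σ : Sx C n => σ.push F) := by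
  intro σ τ h
  have h' : σ.push F = τ.push F := h
  have ho : ∀ i, σ.o i = τ.o i := fun i => hobj _ _ (congrFun (congrArg Sx.o h') i)
  exact Eps1.ext_heq ho (fun i j hij => map_heq F hF (ho i) (ho j) _ _ (push_heq h' i j hij))

private theorem lift_gen (F : C ⥤ D)
    (hF : ∀ {x y : C} (u v : x ⟶ y), F.map u = F.map v → u = v) {n : ℕ} (o : Fin (n + 1) → C)
    (m : ∀ i j : Fin (n + 1), i ≤ j → (F.obj (o i) ⟶ F.obj (o j)))
    (h1 : ∀ i, m i i le_rfl = 𝟙 (F.obj (o i)))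
    (h2 : ∀ i j k (h : i ≤ j) (h' : j ≤ k), m i j h ≫ m j k h' = m i k (h.trans h'))
    (hm : ∀ i j h, ∃ u : o i ⟶ o j, m i j h = F.map u) :
    ∃ τ : Sx C n, (⟨fun i => F.obj (o i), m, h1, h2⟩ : Sx D n) = τ.push F := by
  choose u hu using hm
  refine ⟨⟨o, u, fun i => hF _ _ ?_, fun i j k h h' => hF _ _ ?_⟩, ?_⟩
  · rw [← hu, h1, F.map_id]
  · rw [F.map_comp, ← hu, ← hu, ← hu, h2]
  · refine Sx.ext rfl (heq_of_eq ?_)
    funext i j h
    exact hu i j h

private theorem range_push (j : C ⥤ D) (n : ℕ) :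
    LinearMap.range ((NCmap j).f n) =
      Finsupp.supported ℚ ℚ (Set.range (fun σ : Sx C n => σ.push j)) := by
  have h := Finsupp.lmapDomain_supported (M := ℚ) (R := ℚ) (fun σ : Sx C n => σ.push j) Set.univ
  rw [Finsupp.supported_univ, Submodule.map_top, Set.image_univ] at h
  exact h

end gen

namespace ActCat

variable {Γ : Type} [Group Γ]

/-- projection `kc → kr` -/
def kcPr (H : Subgroup Γ) (m : Γ) (hm : ∀ h ∈ H, h * m = m * h) :
    (kc H m hm).Obj ⥤ (kr H m hm).Obj :=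
  idFun (A := kc H m hm) (A' := kr H m hm) (fun x => x) (fun h => h) (fun {x n} h => by
    have h' : n ∈ (⊥ : Subgroup Γ) := h
    rw [Subgroup.mem_bot] at h'
    subst h'
    exact Subgroup.one_mem _)

section kx

variable (H : Subgroup Γ) (c : Γ) (hc : ∀ h ∈ H, h * c = c * h)

/-- one class of crossing arrows -/
private def kxc : ActCat Γ where
  Ob := Bool
  Adm x g y := (x = y ∧ g ∈ H) ∨ (x = false ∧ y = true ∧ c⁻¹ * g ∈ H)
  N _ := ⊥
  one x := Or.inl ⟨rfl, H.one_mem⟩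
  mul := fun {x y z g h} hg hh => by
    rcases hg with ⟨rfl, hg⟩ | ⟨rfl, rfl, hg⟩
    · rcases hh with ⟨rfl, hh⟩ | ⟨rfl, rfl, hh⟩
      · exact Or.inl ⟨rfl, H.mul_mem hh hg⟩
      · refine Or.inr ⟨rfl, rfl, ?_⟩
        rw [← mul_assoc]
        exact H.mul_mem hh hg
    · rcases hh with ⟨rfl, hh⟩ | ⟨h1, _, _⟩
      · refine Or.inr ⟨rfl, rfl, ?_⟩
        have h2 : c⁻¹ * (h * g) = h * (c⁻¹ * g) := by
          have h3 : c⁻¹ * h = h * c⁻¹ := by
            rw [inv_mul_eq_iff_eq_mul, ← mul_assoc, ← hc h hh, mul_assoc, mul_inv_cancel,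
              mul_one]
          rw [← mul_assoc, h3, mul_assoc]
        rw [h2]
        exact H.mul_mem hh hg
      · exact absurd h1 (by decide)
  nAdm := fun {x n} hn => by
    rw [Subgroup.mem_bot] at hn
    subst hn
    exact Or.inl ⟨rfl, H.one_mem⟩
  conj := fun {x y g n} hg hn => by
    rw [Subgroup.mem_bot] at hn ⊢
    subst hn
    group

/-- the same with `Aut 0` killed -/
private def kxr : ActCat Γ :=
  (kxc H c hc).enl (fun x => match x with
    | false => H
    | true => ⊥)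
    (fun {x n} hn => by
      cases x
      · exact Or.inl ⟨rfl, hn⟩
      · have hn' : n ∈ (⊥ : Subgroup Γ) := hn
        rw [Subgroup.mem_bot] at hn'
        subst hn'
        exact Or.inl ⟨rfl, H.one_mem⟩)
    (fun {x y g n} hg hn => by
      cases y
      · rcases hg with ⟨rfl, hg⟩ | ⟨_, h2, _⟩
        · exact H.mul_mem (H.mul_mem (H.inv_mem hg) hn) hg
        · exact absurd h2 (by decide)
      · have hn' : n ∈ (⊥ : Subgroup Γ) := hn
        rw [Subgroup.mem_bot] at hn'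
        subst hn'
        have h1 : g⁻¹ * 1 * g = 1 := by group
        rw [h1]
        exact Subgroup.one_mem _)

private def i0 : (sg H).Obj ⥤ (kxc H c hc).Obj :=
  idFun (A := sg H) (A' := kxc H c hc) (fun _ => false) (fun h => Or.inl ⟨rfl, h⟩) (fun h => h)

private def i1 : (sg H).Obj ⥤ (kxc H c hc).Obj :=
  idFun (A := sg H) (A' := kxc H c hc) (fun _ => true) (fun h => Or.inl ⟨rfl, h⟩) (fun h => h)

private def p1 : (sg H).Obj ⥤ (kxr H c hc).Obj :=
  idFun (A := sg H) (A' := kxr H c hc) (fun _ => true) (fun h => Or.inl ⟨rfl, h⟩) (fun h => h)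

private def qq : (kxc H c hc).Obj ⥤ (kxr H c hc).Obj :=
  idFun (A := kxc H c hc) (A' := kxr H c hc) (fun x => x) (fun h => h) (fun {x n} h => by
    have h' : n ∈ (⊥ : Subgroup Γ) := h
    rw [Subgroup.mem_bot] at h'
    subst h'
    exact Subgroup.one_mem _)

private def nat01 : i0 H c hc ⟶ i1 H c hc where
  app x := (kxc H c hc).cl (a := false) (b := true) c (Or.inr ⟨rfl, rfl, by
    rw [inv_mul_cancel]
    exact H.one_mem⟩)
  naturality x y u := by
    induction u using ActCat.ind with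
    | h g hg =>
      refine (cl_eq (A := kxc H c hc) (a := false) (b := true)).2 ?_
      change (c * g)⁻¹ * (g * c) ∈ (⊥ : Subgroup Γ)
      rw [hc g hg, inv_mul_cancel]
      exact Subgroup.one_mem _

private theorem kxr_acy : Acy (kxr H c hc).Obj := by
  refine acy_of_initial (⟨false⟩ : (kxr H c hc).Obj) fun d => ?_
  obtain ⟨y⟩ := d
  cases y
  · refine ⟨(kxr H c hc).cl (a := false) (b := false) 1 (Or.inl ⟨rfl, H.one_mem⟩), trivial,
      fun u _ => ?_⟩
    obtain ⟨g, hg, e⟩ := hom_surj (A := kxr H c hc) (x := ⟨false⟩) (y := ⟨false⟩) u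
    rw [e]
    refine (cl_eq (A := kxr H c hc) (a := false) (b := false)).2 ?_
    change g⁻¹ * 1 ∈ H
    rw [mul_one]
    rcases hg with ⟨-, h⟩ | ⟨-, h, -⟩
    · exact H.inv_mem h
    · exact absurd h Bool.false_ne_true
  · refine ⟨(kxr H c hc).cl (a := false) (b := true) c (Or.inr ⟨rfl, rfl, by
      rw [inv_mul_cancel]
      exact H.one_mem⟩), trivial, fun u _ => ?_⟩
    obtain ⟨g, hg, e⟩ := hom_surj (A := kxr H c hc) (x := ⟨false⟩) (y := ⟨true⟩) u
    rw [e]
    refine (cl_eq (A := kxr H c hc) (a := false) (b := true)).2 ?_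
    change g⁻¹ * c ∈ H
    rcases hg with ⟨h, -⟩ | ⟨-, -, h⟩
    · exact absurd h Bool.false_ne_true
    · have := H.inv_mem h
      rwa [mul_inv_rev, inv_inv] at this

end kx

variable (H : Subgroup Γ) (m : Γ) (hm : ∀ h ∈ H, h * m = m * h)

private theorem h1c (H : Subgroup Γ) : ∀ h ∈ H, h * (1 : Γ) = 1 * h := fun h _ => by
  rw [mul_one, one_mul]

private def aA : (kxc H 1 (h1c H)).Obj ⥤ (kc H m hm).Obj :=
  idFun (A := kxc H 1 (h1c H)) (A' := kc H m hm) (fun x => x) (fun {x y g} h => by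
    rcases h with h | ⟨h, h', h''⟩
    · exact Or.inl h
    · rw [inv_one, one_mul] at h''
      exact Or.inr ⟨h, h', Or.inl h''⟩) (fun h => h)

private def bA : (kxc H m hm).Obj ⥤ (kc H m hm).Obj :=
  idFun (A := kxc H m hm) (A' := kc H m hm) (fun x => x) (fun {x y g} h => by
    rcases h with h | ⟨h, h', h''⟩
    · exact Or.inl h
    · exact Or.inr ⟨h, h', Or.inr h''⟩) (fun h => h)

private def aB : (kxr H 1 (h1c H)).Obj ⥤ (kr H m hm).Obj :=
  idFun (A := kxr H 1 (h1c H)) (A' := kr H m hm) (fun x => x) (fun {x y g} h => by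
    rcases h with h | ⟨h, h', h''⟩
    · exact Or.inl h
    · rw [inv_one, one_mul] at h''
      exact Or.inr ⟨h, h', Or.inl h''⟩) (fun {x n} h => by
    cases x
    · exact h
    · exact h)

private def bB : (kxr H m hm).Obj ⥤ (kr H m hm).Obj :=
  idFun (A := kxr H m hm) (A' := kr H m hm) (fun x => x) (fun {x y g} h => by
    rcases h with h | ⟨h, h', h''⟩
    · exact Or.inl h
    · exact Or.inr ⟨h, h', Or.inr h''⟩) (fun {x n} h => by
    cases x
    · exact h
    · exact h)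

private def P1 : (sg H).Obj ⥤ (kr H m hm).Obj :=
  idFun (A := sg H) (A' := kr H m hm) (fun _ => true) (fun h => Or.inl ⟨rfl, h⟩) (fun h => h)

private theorem aB_faith {x y : (kxr H 1 (h1c H)).Obj} (u v : x ⟶ y)
    (h : (aB H m hm).map u = (aB H m hm).map v) : u = v := by
  obtain ⟨g, hg, rfl⟩ := hom_surj (A := kxr H 1 (h1c H)) u
  obtain ⟨g', hg', rfl⟩ := hom_surj (A := kxr H 1 (h1c H)) v
  refine (cl_eq (A := kxr H 1 (h1c H)) (a := x.o) (b := y.o)).2 ?_
  have h2 : g⁻¹ * g' ∈ (kr H m hm).N x.o := (cl_eq (A := kr H m hm) (a := x.o) (b := y.o)).1 h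
  obtain ⟨x⟩ := x
  cases x
  · exact h2
  · exact h2

private theorem bB_faith {x y : (kxr H m hm).Obj} (u v : x ⟶ y)
    (h : (bB H m hm).map u = (bB H m hm).map v) : u = v := by
  obtain ⟨g, hg, rfl⟩ := hom_surj (A := kxr H m hm) u
  obtain ⟨g', hg', rfl⟩ := hom_surj (A := kxr H m hm) v
  refine (cl_eq (A := kxr H m hm) (a := x.o) (b := y.o)).2 ?_
  have h2 : g⁻¹ * g' ∈ (kr H m hm).N x.o := (cl_eq (A := kr H m hm) (a := x.o) (b := y.o)).1 h
  obtain ⟨x⟩ := x
  cases x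
  · exact h2
  · exact h2

private theorem P1_faith {x y : (sg H).Obj} (u v : x ⟶ y)
    (h : (P1 H m hm).map u = (P1 H m hm).map v) : u = v := by
  obtain ⟨g, hg, rfl⟩ := hom_surj (A := sg H) u
  obtain ⟨g', hg', rfl⟩ := hom_surj (A := sg H) v
  exact (cl_eq (A := sg H) (a := x.o) (b := y.o)).2
    ((cl_eq (A := kr H m hm) (a := true) (b := true)).1 h)

private theorem aB_inj (n : ℕ) : Function.Injective ((NCmap (aB H m hm)).f n) :=
  NCmap_inj _ (push_inj _ (fun x y h => Obj.ext (A := kxr H 1 (h1c H))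
    (show x.o = y.o from congrArg (fun z : (kr H m hm).Obj => z.o) h)) (aB_faith H m hm)) n

private theorem bB_inj (n : ℕ) : Function.Injective ((NCmap (bB H m hm)).f n) :=
  NCmap_inj _ (push_inj _ (fun x y h => Obj.ext (A := kxr H m hm)
    (show x.o = y.o from congrArg (fun z : (kr H m hm).Obj => z.o) h)) (bB_faith H m hm)) n

private theorem P1_inj (n : ℕ) : Function.Injective ((NCmap (P1 H m hm)).f n) :=
  NCmap_inj _ (push_inj _ (fun x y _ => by cases x; cases y; rfl) (P1_faith H m hm)) n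

private theorem kr_le (x : Bool) : (kr H m hm).N x ≤ H := by
  cases x
  · exact le_refl H
  · exact bot_le

/-- every simplex of `kr` crosses by one class of arrows -/
private theorem cross {n : ℕ} (σ : Sx (kr H m hm).Obj n) :
    (∃ τ, σ = Sx.push (aB H m hm) τ) ∨ ∃ τ, σ = Sx.push (bB H m hm) τ := by
  obtain ⟨o, M, h1, h2⟩ := σ
  have hr : ∀ i j (h : i ≤ j), ∃ g, ∃ hg : (kr H m hm).Adm (o i).o g (o j).o,
      M i j h = (kr H m hm).hom g hg := fun i j h => hom_surj (A := kr H m hm) (M i j h)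
  choose r hr hre using hr
  have hprod : ∀ i j (h : i ≤ j), (r j (Fin.last n) (Fin.le_last j) *
      (r i j h * r 0 i (Fin.zero_le i)))⁻¹ * r 0 (Fin.last n) (Fin.zero_le _) ∈ H := by
    intro i j h
    have h3 : (M 0 i (Fin.zero_le i) ≫ M i j h) ≫ M j (Fin.last n) (Fin.le_last j) =
        M 0 (Fin.last n) (Fin.zero_le _) := by
      rw [h2, h2]
    rw [hre, hre, hre, hre] at h3
    exact kr_le H m hm _ ((cl_eq (A := kr H m hm) (a := (o 0).o) (b := (o (Fin.last n)).o)).1 h3)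
  have hcase : ∀ i j (h : i ≤ j), (o i).o = (o j).o → r i j h ∈ H := by
    intro i j h e
    rcases hr i j h with ⟨-, h'⟩ | ⟨h', h'', -⟩
    · exact h'
    · rw [h', h''] at e
      exact absurd e Bool.false_ne_true
  have hcr : ∀ i j (h : i ≤ j), (o i).o ≠ (o j).o → (o i).o = false ∧ (o j).o = true ∧
      (r i j h ∈ H ∨ m⁻¹ * r i j h ∈ H) := by
    intro i j h e
    rcases hr i j h with ⟨h', -⟩ | h'
    · exact absurd h' e
    · exact h'
  have hmono : ∀ i j : Fin (n + 1), i ≤ j → (o i).o = true → (o j).o = true := by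
    intro i j h e
    by_contra h'
    have h3 := hcr i j h (by rw [e]; exact fun h4 => h' h4.symm)
    rw [e] at h3
    exact absurd h3.1.symm Bool.false_ne_true
  have hmono' : ∀ i j : Fin (n + 1), i ≤ j → (o j).o = false → (o i).o = false := by
    intro i j h e
    by_contra h'
    have hb : ∀ b : Bool, ¬ b = false → b = true := by decide
    have h3 := hmono i j h (hb _ h')
    rw [e] at h3
    exact absurd h3 Bool.false_ne_true
  have hin : ∀ i j (h : i ≤ j), (o i).o ≠ (o j).o →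
      (r i j h ∈ H ↔ r 0 (Fin.last n) (Fin.zero_le _) ∈ H) := by
    intro i j h e
    obtain ⟨e1, e2, -⟩ := hcr i j h e
    have h3 := hprod i j h
    have h4 : r j (Fin.last n) (Fin.le_last j) ∈ H := hcase _ _ _ (by
      rw [e2, hmono j (Fin.last n) (Fin.le_last j) e2])
    have h5 : r 0 i (Fin.zero_le i) ∈ H := hcase _ _ _ (by
      rw [e1, hmono' 0 i (Fin.zero_le i) e1])
    constructor
    · intro h6
      have := H.mul_mem (H.mul_mem h4 (H.mul_mem h6 h5)) h3
      rwa [mul_inv_cancel_left] at this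
    · intro h6
      have h7 := H.mul_mem h3 (H.inv_mem h6)
      rw [mul_assoc, mul_inv_cancel, mul_one] at h7
      have h8 := H.inv_mem h7
      rw [inv_inv] at h8
      have h9 := H.mul_mem (H.mul_mem (H.inv_mem h4) h8) (H.inv_mem h5)
      have h10 : (r j (Fin.last n) (Fin.le_last j))⁻¹ * (r j (Fin.last n) (Fin.le_last j) *
        (r i j h * r 0 i (Fin.zero_le i))) * (r 0 i (Fin.zero_le i))⁻¹ = r i j h := by group
      rwa [h10] at h9
  by_cases hcl : r 0 (Fin.last n) (Fin.zero_le _) ∈ H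
  · left
    refine lift_gen (aB H m hm) (aB_faith H m hm) (fun i => ⟨(o i).o⟩) M h1 h2 (fun i j h => ?_)
    have hA : (kxr H 1 (h1c H)).Adm (o i).o (r i j h) (o j).o := by
      by_cases e : (o i).o = (o j).o
      · exact Or.inl ⟨e, hcase i j h e⟩
      · obtain ⟨e1, e2, -⟩ := hcr i j h e
        refine Or.inr ⟨e1, e2, ?_⟩
        rw [inv_one, one_mul]
        exact (hin i j h e).2 hcl
    exact ⟨(kxr H 1 (h1c H)).cl (r i j h) hA, hre i j h⟩
  · right
    refine lift_gen (bB H m hm) (bB_faith H m hm) (fun i => ⟨(o i).o⟩) M h1 h2 (fun i j h => ?_)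
    have hA : (kxr H m hm).Adm (o i).o (r i j h) (o j).o := by
      by_cases e : (o i).o = (o j).o
      · exact Or.inl ⟨e, hcase i j h e⟩
      · obtain ⟨e1, e2, h3⟩ := hcr i j h e
        refine Or.inr ⟨e1, e2, ?_⟩
        rcases h3 with h3 | h3
        · exact absurd ((hin i j h e).1 h3) hcl
        · exact h3
    exact ⟨(kxr H m hm).cl (r i j h) hA, hre i j h⟩

/-- the simplex of the point -/
private def ptS (n : ℕ) : Sx Pt n where
  o _ := ⟨PUnit.unit⟩
  m _ _ _ := 𝟙 _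
  m_self _ := rfl
  m_comp _ _ _ _ _ := rfl

/-- the object `0` of `kr` -/
private abbrev P0 : Pt ⥤ (kr H m hm).Obj := ptF (⟨false⟩ : (kr H m hm).Obj)

/-- the common simplices of the two parts have only one object -/
private theorem both (hmH : m ∉ H) {n : ℕ} (σ : Sx (kr H m hm).Obj n)
    (hA : ∃ τ, σ = Sx.push (aB H m hm) τ) (hB : ∃ τ, σ = Sx.push (bB H m hm) τ) :
    (∃ ρ, σ = Sx.push (P0 H m hm) ρ) ∨ ∃ ρ, σ = Sx.push (P1 H m hm) ρ := by
  have hra : ∀ i j (h : i ≤ j), ∃ g, ∃ hg : (kr H m hm).Adm (σ.o i).o g (σ.o j).o,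
      g ∈ H ∧ σ.m i j h = (kr H m hm).hom g hg := by
    obtain ⟨τ, rfl⟩ := hA
    intro i j h
    obtain ⟨g, hg, e⟩ := hom_surj (A := kxr H 1 (h1c H)) (τ.m i j h)
    have hgH : g ∈ H := by
      rcases hg with ⟨-, h'⟩ | ⟨-, -, h'⟩
      · exact h'
      · rwa [inv_one, one_mul] at h'
    have hadm : (kr H m hm).Adm (τ.o i).o g (τ.o j).o := by
      rcases hg with h' | ⟨h', h'', -⟩
      · exact Or.inl h'
      · exact Or.inr ⟨h', h'', Or.inl hgH⟩
    refine ⟨g, hadm, hgH, ?_⟩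
    change (aB H m hm).map (τ.m i j h) = _
    rw [e]
    rfl
  have hrb : ∀ i j (h : i ≤ j), (σ.o i).o ≠ (σ.o j).o →
      ∃ g, ∃ hg : (kr H m hm).Adm (σ.o i).o g (σ.o j).o,
      m⁻¹ * g ∈ H ∧ σ.m i j h = (kr H m hm).hom g hg := by
    obtain ⟨τ, rfl⟩ := hB
    intro i j h hne
    obtain ⟨g, hg, e⟩ := hom_surj (A := kxr H m hm) (τ.m i j h)
    have hgH : m⁻¹ * g ∈ H := by
      rcases hg with ⟨h', -⟩ | ⟨-, -, h'⟩
      · exact absurd h' hne
      · exact h'
    have hadm : (kr H m hm).Adm (τ.o i).o g (τ.o j).o := by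
      rcases hg with h' | ⟨h', h'', -⟩
      · exact Or.inl h'
      · exact Or.inr ⟨h', h'', Or.inr hgH⟩
    refine ⟨g, hadm, hgH, ?_⟩
    change (bB H m hm).map (τ.m i j h) = _
    rw [e]
    rfl
  have hconst : ∀ i j (h : i ≤ j), (σ.o i).o = (σ.o j).o := by
    intro i j h
    by_contra hne
    obtain ⟨g, hg, hgH, e⟩ := hra i j h
    obtain ⟨g', hg', hgH', e'⟩ := hrb i j h hne
    rw [e] at e'
    have h1 := kr_le H m hm _ ((cl_eq (A := kr H m hm) (a := (σ.o i).o) (b := (σ.o j).o)).1 e')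
    have h2 := H.mul_mem hgH' (H.inv_mem (H.mul_mem hgH h1))
    have h3 : m⁻¹ * g' * (g * (g⁻¹ * g'))⁻¹ = m⁻¹ := by group
    rw [h3] at h2
    have h4 := H.inv_mem h2
    rw [inv_inv] at h4
    exact hmH h4
  obtain ⟨o, M, h1, h2⟩ := σ
  have ho : ∀ i, (o i).o = (o 0).o := fun i => (hconst 0 i (Fin.zero_le i)).symm
  have hbool : ∀ b : Bool, b = false ∨ b = true := by decide
  rcases hbool (o 0).o with h0 | h0
  · left
    obtain rfl : o = fun _ => ⟨false⟩ := funext fun i => Obj.ext ((ho i).trans h0)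
    refine ⟨ptS n, Sx.ext rfl (heq_of_eq ?_)⟩
    funext i j h
    obtain ⟨g, hg, hgH, e⟩ := hra i j h
    have e1 : M i j h = (kr H m hm).hom g hg := e
    refine e1.trans ?_
    refine (cl_eq (A := kr H m hm) (a := false) (b := false)).2 ?_
    change g⁻¹ * 1 ∈ H
    rw [mul_one]
    exact H.inv_mem hgH
  · right
    obtain rfl : o = fun _ => ⟨true⟩ := funext fun i => Obj.ext ((ho i).trans h0)
    refine lift_gen (P1 H m hm) (P1_faith H m hm) (fun _ => ⟨()⟩) M h1 h2 (fun i j h => ?_)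
    obtain ⟨g, hg, hgH, e⟩ := hra i j h
    exact ⟨(sg H).cl (a := ()) (b := ()) g hgH, e⟩

private theorem decomp {n : ℕ} (x : (NC (kr H m hm).Obj).X n) :
    ∃ a b, x = (NCmap (aB H m hm)).f n a + (NCmap (bB H m hm)).f n b := by
  have key : ∀ y : Sx (kr H m hm).Obj n →₀ ℚ, ∃ a b, y =
      (NCmap (aB H m hm)).f n a + (NCmap (bB H m hm)).f n b := by
    intro y
    induction y using Finsupp.induction_linear with
    | zero => exact ⟨0, 0, by rw [map_zero, map_zero, add_zero]⟩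
    | add f g hf hg =>
      obtain ⟨a, b, ha⟩ := hf
      obtain ⟨a', b', hb⟩ := hg
      refine ⟨a + a', b + b', ?_⟩
      rw [map_add, map_add, ha, hb]
      abel
    | single σ r =>
      rcases cross H m hm σ with ⟨τ, rfl⟩ | ⟨τ, rfl⟩
      · exact ⟨Finsupp.single τ r, 0, by rw [map_zero, add_zero, NCmap_single]⟩
      · exact ⟨0, Finsupp.single τ r, by rw [map_zero, zero_add, NCmap_single]⟩
  exact key x

private theorem inter (hmH : m ∉ H) {n : ℕ} (x : (NC (kr H m hm).Obj).X n)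
    (hA : x ∈ LinearMap.range ((NCmap (aB H m hm)).f n))
    (hB : x ∈ LinearMap.range ((NCmap (bB H m hm)).f n)) :
    ∃ a b, x = (NCmap (P0 H m hm)).f n a + (NCmap (P1 H m hm)).f n b := by
  rw [range_push] at hA hB
  have h1 : x ∈ Finsupp.supported ℚ ℚ (Set.range (Sx.push (n := n) (P0 H m hm)) ∪
      Set.range (Sx.push (n := n) (P1 H m hm))) := by
    rw [Finsupp.mem_supported] at hA hB ⊢
    intro σ hσ
    obtain ⟨τ, hτ⟩ := hA hσ
    obtain ⟨τ', hτ'⟩ := hB hσ
    rcases both H m hm hmH σ ⟨τ, hτ.symm⟩ ⟨τ', hτ'.symm⟩ with ⟨ρ, h⟩ | ⟨ρ, h⟩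
    · exact Or.inl ⟨ρ, h.symm⟩
    · exact Or.inr ⟨ρ, h.symm⟩
  rw [Finsupp.supported_union, Submodule.mem_sup] at h1
  obtain ⟨y, hy, z, hz, e⟩ := h1
  rw [← range_push (P0 H m hm)] at hy
  rw [← range_push (P1 H m hm)] at hz
  obtain ⟨a, ha⟩ := hy
  obtain ⟨b, hb⟩ := hz
  exact ⟨a, b, by rw [ha, hb, e]⟩

private theorem indep {n : ℕ} (a : (NC Pt).X n) (b : (NC (sg H).Obj).X n)
    (h : (NCmap (P0 H m hm)).f n a + (NCmap (P1 H m hm)).f n b = 0) : a = 0 ∧ b = 0 := by
  have h1 : (NCmap (P0 H m hm)).f n a ∈ LinearMap.range ((NCmap (P1 H m hm)).f n) := by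
    refine ⟨-b, ?_⟩
    rw [map_neg]
    exact (eq_neg_of_add_eq_zero_left h).symm
  have h2 : (NCmap (P0 H m hm)).f n a ∈ LinearMap.range ((NCmap (P0 H m hm)).f n) := ⟨a, rfl⟩
  rw [range_push, Finsupp.mem_supported] at h1 h2
  have h3 : (NCmap (P0 H m hm)).f n a = 0 := by
    have h4 : ((NCmap (P0 H m hm)).f n a : Sx (kr H m hm).Obj n →₀ ℚ).support = ∅ := by
      rw [Finset.eq_empty_iff_forall_notMem]
      intro σ hσ
      obtain ⟨τ, hτ⟩ := h1 hσ
      obtain ⟨τ', hτ'⟩ := h2 hσ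
      have e1 : (σ.o 0).o = true := by rw [← hτ]; rfl
      have e2 : (σ.o 0).o = false := by rw [← hτ']; rfl
      rw [e1] at e2
      exact Bool.false_ne_true e2.symm
    exact Finsupp.support_eq_empty.1 h4
  rw [h3, zero_add] at h
  exact ⟨ptF_inj _ n (by rw [h3, map_zero]), P1_inj H m hm n (by rw [h, map_zero])⟩

private theorem ncc {C D E : Type} [SmallCategory C] [SmallCategory D] [SmallCategory E]
    (F : C ⥤ D) (G : D ⥤ E) (K : C ⥤ E) (h : F ⋙ G = K) (n : ℕ) (x : (NC C).X n) :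
    (NCmap G).f n ((NCmap F).f n x) = (NCmap K).f n x := by
  rw [← h, ← NCmap_comp]
  rfl

private theorem i0q (c : Γ) (hc : ∀ h ∈ H, h * c = c * h) :
    i0 H c hc ⋙ qq H c hc = toPt _ ⋙ ptF (⟨false⟩ : (kxr H c hc).Obj) := by
  refine CategoryTheory.Functor.hext (fun x => rfl) (fun x y u => heq_of_eq ?_)
  induction u using ActCat.ind with
  | h g hg =>
    refine (cl_eq (A := kxr H c hc) (a := false) (b := false)).2 ?_
    change g⁻¹ * 1 ∈ H
    rw [mul_one]
    exact H.inv_mem hg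

private theorem i1q (c : Γ) (hc : ∀ h ∈ H, h * c = c * h) :
    i1 H c hc ⋙ qq H c hc = p1 H c hc := by
  refine CategoryTheory.Functor.hext (fun x => rfl) (fun x y u => heq_of_eq ?_)
  induction u using ActCat.ind with
  | h g hg => rfl

private theorem p1a : p1 H 1 (h1c H) ⋙ aB H m hm = P1 H m hm := by
  refine CategoryTheory.Functor.hext (fun x => rfl) (fun x y u => heq_of_eq ?_)
  induction u using ActCat.ind with
  | h g hg => rfl

private theorem p1b : p1 H m hm ⋙ bB H m hm = P1 H m hm := by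
  refine CategoryTheory.Functor.hext (fun x => rfl) (fun x y u => heq_of_eq ?_)
  induction u using ActCat.ind with
  | h g hg => rfl

private theorem i1ab : i1 H 1 (h1c H) ⋙ aA H m hm = i1 H m hm ⋙ bA H m hm := by
  refine CategoryTheory.Functor.hext (fun x => rfl) (fun x y u => heq_of_eq ?_)
  induction u using ActCat.ind with
  | h g hg => rfl

private theorem i0ab : i0 H 1 (h1c H) ⋙ aA H m hm = i0 H m hm ⋙ bA H m hm := by
  refine CategoryTheory.Functor.hext (fun x => rfl) (fun x y u => heq_of_eq ?_)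
  induction u using ActCat.ind with
  | h g hg => rfl

private theorem qa : qq H 1 (h1c H) ⋙ aB H m hm = aA H m hm ⋙ kcPr H m hm := by
  refine CategoryTheory.Functor.hext (fun x => rfl) (fun x y u => heq_of_eq ?_)
  induction u using ActCat.ind with
  | h g hg => rfl

private theorem qb : qq H m hm ⋙ bB H m hm = bA H m hm ⋙ kcPr H m hm := by
  refine CategoryTheory.Functor.hext (fun x => rfl) (fun x y u => heq_of_eq ?_)
  induction u using ActCat.ind with
  | h g hg => rfl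

/-- filling of a cycle of `sg H` in one of the two parts -/
private theorem fill (c : Γ) (hc : ∀ h ∈ H, h * c = c * h) (n : ℕ) (b : (NC (sg H).Obj).X (n + 1))
    (hb : (NC (sg H).Obj).d n b = 0) : ∃ h : (NC (kxc H c hc).Obj).X (n + 2),
      (NC (kxc H c hc).Obj).d (n + 1) h =
        (NCmap (i1 H c hc)).f (n + 1) b - (NCmap (i0 H c hc)).f (n + 1) b ∧
      (NC (kxr H c hc).Obj).d (n + 1) ((NCmap (qq H c hc)).f (n + 2) h) =
        (NCmap (p1 H c hc)).f (n + 1) b - (NCmap (ptF (⟨false⟩ : (kxr H c hc).Obj))).f (n + 1)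
          ((NCmap (toPt _)).f (n + 1) b) := by
  obtain ⟨h, -, h1⟩ := NCmap_htpy (nat01 H c hc)
  have h2 := h1 n b
  rw [hb, map_zero, add_zero] at h2
  refine ⟨h (n + 1) b, h2.symm, ?_⟩
  rw [← (NCmap (qq H c hc)).comm, ← h2, map_sub,
    ncc _ _ _ (i1q H c hc), ncc _ _ _ (i0q H c hc), ncc _ _ _ rfl]

theorem kc_surj (H : Subgroup Γ) (m : Γ) (hm : ∀ h ∈ H, h * m = m * h) (hmH : m ∉ H) (n : ℕ) :
    Function.Surjective (HCmap (kcPr H m hm) (n + 2)) := by
  intro y
  obtain ⟨z, hz, rfl⟩ := Cx.H_surj y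
  have hz0 := Cx.mem_Z_succ.1 hz
  obtain ⟨u, v, huv⟩ := decomp H m hm z
  have hd : (NCmap (aB H m hm)).f (n + 1) ((NC _).d (n + 1) u) +
      (NCmap (bB H m hm)).f (n + 1) ((NC _).d (n + 1) v) = 0 := by
    rw [(NCmap (aB H m hm)).comm, (NCmap (bB H m hm)).comm, ← map_add, ← huv, hz0]
  obtain ⟨a, b, hab⟩ := inter H m hm hmH
    ((NCmap (aB H m hm)).f (n + 1) ((NC _).d (n + 1) u)) ⟨_, rfl⟩
    ⟨-((NC _).d (n + 1) v), by
      rw [map_neg]
      exact (eq_neg_of_add_eq_zero_left hd).symm⟩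
  have e0a : ptF (⟨false⟩ : (kxr H 1 (h1c H)).Obj) ⋙ aB H m hm = P0 H m hm := rfl
  have e0b : ptF (⟨false⟩ : (kxr H m hm).Obj) ⋙ bB H m hm = P0 H m hm := rfl
  have e1a : p1 H 1 (h1c H) ⋙ aB H m hm = P1 H m hm := p1a H m hm
  have e1b : p1 H m hm ⋙ bB H m hm = P1 H m hm := p1b H m hm
  have hu : (NC _).d (n + 1) u = (NCmap (ptF (⟨false⟩ : (kxr H 1 (h1c H)).Obj))).f (n + 1) a +
      (NCmap (p1 H 1 (h1c H))).f (n + 1) b := by
    apply aB_inj H m hm
    rw [map_add, ncc _ _ _ e0a, ncc _ _ _ e1a, hab]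
  have hv : (NC _).d (n + 1) v = -((NCmap (ptF (⟨false⟩ : (kxr H m hm).Obj))).f (n + 1) a +
      (NCmap (p1 H m hm)).f (n + 1) b) := by
    apply bB_inj H m hm
    rw [map_neg, map_add, ncc _ _ _ e0b, ncc _ _ _ e1b, ← hab]
    exact eq_neg_of_add_eq_zero_right hd
  obtain ⟨ha0, hb0⟩ := indep H m hm ((NC Pt).d n a) ((NC (sg H).Obj).d n b) (by
    rw [(NCmap (P0 H m hm)).comm, (NCmap (P1 H m hm)).comm, ← map_add, ← hab,
      ← (NCmap (aB H m hm)).comm, Cx.dd, map_zero])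
  obtain ⟨hα, hα1, hα2⟩ := fill H 1 (h1c H) n b hb0
  obtain ⟨hβ, hβ1, hβ2⟩ := fill H m hm n b hb0
  -- the point
  have hpt := Cx.H_subsingleton.1 (acy_pt.2.2 n)
  obtain ⟨e, he⟩ := hpt a (Cx.mem_Z_succ.2 ha0)
  obtain ⟨e', he'⟩ := hpt ((NCmap (toPt (sg H).Obj)).f (n + 1) b) (Cx.mem_Z_succ.2 (by
    rw [← (NCmap (toPt (sg H).Obj)).comm, hb0, map_zero]))
  -- the cycle in `kc`
  have e3 := i1ab H m hm
  have e4 := i0ab H m hm
  have hx : (NCmap (aA H m hm)).f (n + 2) hα - (NCmap (bA H m hm)).f (n + 2) hβ ∈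
      (NC (kc H m hm).Obj).Z (n + 2) := by
    rw [Cx.mem_Z_succ, map_sub, ← (NCmap (aA H m hm)).comm, ← (NCmap (bA H m hm)).comm, hα1, hβ1,
      map_sub, map_sub, ncc _ _ _ e3, ncc _ _ _ e4, ncc _ _ _ rfl, ncc _ _ _ rfl, sub_self]
  refine ⟨(NC _).cls (n + 2) _ hx, ?_⟩
  -- the two parts
  obtain ⟨f1, hf1⟩ := Cx.H_subsingleton.1 ((kxr_acy H 1 (h1c H)).2.2 (n + 1))
    (u - (NCmap (qq H 1 (h1c H))).f (n + 2) hα -
      (NCmap (ptF (⟨false⟩ : (kxr H 1 (h1c H)).Obj))).f (n + 2) (e + e')) (by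
    rw [Cx.mem_Z_succ, map_sub, map_sub, hu, hα2,
      ← (NCmap (ptF (⟨false⟩ : (kxr H 1 (h1c H)).Obj))).comm, map_add, he, he', map_add]
    abel)
  obtain ⟨f2, hf2⟩ := Cx.H_subsingleton.1 ((kxr_acy H m hm).2.2 (n + 1))
    (v + (NCmap (qq H m hm)).f (n + 2) hβ +
      (NCmap (ptF (⟨false⟩ : (kxr H m hm).Obj))).f (n + 2) (e + e')) (by
    rw [Cx.mem_Z_succ, map_add, map_add, hv, hβ2,
      ← (NCmap (ptF (⟨false⟩ : (kxr H m hm).Obj))).comm, map_add, he, he', map_add]
    abel)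
  rw [Cx.H_cls, Cx.cls_eq]
  refine ⟨-((NCmap (aB H m hm)).f (n + 3) f1 + (NCmap (bB H m hm)).f (n + 3) f2), ?_⟩
  have e5 := qa H m hm
  have e6 := qb H m hm
  have k1 : ∀ x, (NCmap (aB H m hm)).f (n + 2) ((NCmap (qq H 1 (h1c H))).f (n + 2) x) =
      (NCmap (kcPr H m hm)).f (n + 2) ((NCmap (aA H m hm)).f (n + 2) x) := fun x =>
    (ncc _ _ _ e5 _ x).trans (ncc _ _ _ rfl _ x).symm
  have k2 : ∀ x, (NCmap (bB H m hm)).f (n + 2) ((NCmap (qq H m hm)).f (n + 2) x) =
      (NCmap (kcPr H m hm)).f (n + 2) ((NCmap (bA H m hm)).f (n + 2) x) := fun x =>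
    (ncc _ _ _ e6 _ x).trans (ncc _ _ _ rfl _ x).symm
  have g1 := congrArg ((NCmap (aB H m hm)).f (n + 2)) hf1
  have g2 := congrArg ((NCmap (bB H m hm)).f (n + 2)) hf2
  rw [map_sub, map_sub, k1, ncc _ _ _ e0a] at g1
  rw [map_add, map_add, k2, ncc _ _ _ e0b] at g2
  rw [(NCmap (aB H m hm)).comm] at g1
  rw [(NCmap (bB H m hm)).comm] at g2
  rw [map_neg, map_add, map_sub, g1, g2, huv]
  abel

end ActCat
end C715
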