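import Pool.Agent.Work.MP_c71557_gt.H.Equiv
import Pool.Agent.Work.MP_c71557_gt.H.Defs6

set_option autoImplicit false
set_option linter.unusedVariables false

/-!
# MP_c71557_gt, block H: functors twisted by group elements, natural transformations between them
-/

namespace C715

open CategoryTheory

namespace ActCat

variable {Γ Γ' : Type} [Group Γ] [Group Γ']

/-- twisted functor with a change of groups: `g ↦ (c b)⁻¹ (φ g) (c a)` -/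
def twFun2 {A : ActCat Γ} {A' : ActCat Γ'} (f : A.Ob → A'.Ob) (φ : Γ →* Γ') (c : A.Ob → Γ')
    (hAdm : ∀ {a b : A.Ob} {g : Γ}, A.Adm a g b → A'.Adm (f a) ((c b)⁻¹ * φ g * c a) (f b))
    (hN : ∀ {a : A.Ob} {n : Γ}, n ∈ A.N a → (c a)⁻¹ * φ n * c a ∈ A'.N (f a)) :
    A.Obj ⥤ A'.Obj where
  obj x := ⟨f x.o⟩
  map {x y} u := Quotient.lift (fun g : {g : Γ // A.Adm x.o g y.o} =>
      A'.cl ((c y.o)⁻¹ * φ g.1 * c x.o) (hAdm g.2)) (by
    rintro ⟨g, hg⟩ ⟨g', hg'⟩ (e : g⁻¹ * g' ∈ A.N x.o)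
    rw [cl_eq]
    have h1 := hN e
    rw [map_mul, map_inv] at h1
    have h2 : ((c y.o)⁻¹ * φ g * c x.o)⁻¹ * ((c y.o)⁻¹ * φ g' * c x.o) =
      (c x.o)⁻¹ * ((φ g)⁻¹ * φ g') * c x.o := by group
    rw [h2]
    exact h1) u
  map_id x := by
    refine cl_eq.2 ?_
    have : ((c x.o)⁻¹ * φ 1 * c x.o)⁻¹ * 1 = 1 := by
      rw [map_one]
      group
    rw [this]
    exact Subgroup.one_mem _
  map_comp {x y z} u v := by
    induction u using ActCat.ind with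
    | h g hg =>
      induction v using ActCat.ind with
      | h h hh =>
        refine cl_eq.2 ?_
        have : ((c z.o)⁻¹ * φ (h * g) * c x.o)⁻¹ *
          (((c z.o)⁻¹ * φ h * c y.o) * ((c y.o)⁻¹ * φ g * c x.o)) = 1 := by
          rw [map_mul]
          group
        rw [this]
        exact Subgroup.one_mem _

theorem twFun2_map {A : ActCat Γ} {A' : ActCat Γ'} (f : A.Ob → A'.Ob) (φ : Γ →* Γ') (c : A.Ob → Γ')
    (hAdm : ∀ {a b : A.Ob} {g : Γ}, A.Adm a g b → A'.Adm (f a) ((c b)⁻¹ * φ g * c a) (f b))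
    (hN : ∀ {a : A.Ob} {n : Γ}, n ∈ A.N a → (c a)⁻¹ * φ n * c a ∈ A'.N (f a)) {a b : A.Ob} {g : Γ}
    (hg : A.Adm a g b) : (twFun2 f φ c hAdm hN).map (A.hom g hg) =
      A'.hom ((c b)⁻¹ * φ g * c a) (hAdm hg) := rfl

/-- two twisted functors related by a natural transformation agree on homology -/
theorem tw_nat {A : ActCat Γ} {A' : ActCat Γ'} (f f' : A.Ob → A'.Ob) (φ φ' : Γ →* Γ')
    (c c' : A.Ob → Γ')
    (hAdm : ∀ {a b : A.Ob} {g : Γ}, A.Adm a g b → A'.Adm (f a) ((c b)⁻¹ * φ g * c a) (f b))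
    (hN : ∀ {a : A.Ob} {n : Γ}, n ∈ A.N a → (c a)⁻¹ * φ n * c a ∈ A'.N (f a))
    (hAdm' : ∀ {a b : A.Ob} {g : Γ}, A.Adm a g b → A'.Adm (f' a) ((c' b)⁻¹ * φ' g * c' a) (f' b))
    (hN' : ∀ {a : A.Ob} {n : Γ}, n ∈ A.N a → (c' a)⁻¹ * φ' n * c' a ∈ A'.N (f' a))
    (γ : A.Ob → Γ') (hγ : ∀ a, A'.Adm (f a) (γ a) (f' a))
    (hn : ∀ (a b : A.Ob) (g : Γ), A.Adm a g b →
      ((c' b)⁻¹ * φ' g * c' a * γ a)⁻¹ * (γ b * ((c b)⁻¹ * φ g * c a)) ∈ A'.N (f a)) (n : ℕ) :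
    HCmap (twFun2 f φ c hAdm hN) n = HCmap (twFun2 f' φ' c' hAdm' hN') n := by
  let α : twFun2 f φ c hAdm hN ⟶ twFun2 f' φ' c' hAdm' hN' :=
    { app := fun x => A'.hom (γ x.o) (hγ x.o)
      naturality := fun x y u => by
        induction u using ActCat.ind with
        | h g hg =>
          symm
          exact (cl_eq (A := A') (a := f x.o) (b := f' y.o)).2 (hn _ _ _ hg) }
  exact HCmap_natTrans α n

/-- twisted functor followed by an untwisted one -/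
theorem twFun2_comp {Γ'' : Type} [Group Γ''] {A : ActCat Γ} {A' : ActCat Γ'} {A'' : ActCat Γ''}
    (f : A.Ob → A'.Ob) (φ : Γ →* Γ') (c : A.Ob → Γ')
    (hAdm : ∀ {a b : A.Ob} {g : Γ}, A.Adm a g b → A'.Adm (f a) ((c b)⁻¹ * φ g * c a) (f b))
    (hN : ∀ {a : A.Ob} {n : Γ}, n ∈ A.N a → (c a)⁻¹ * φ n * c a ∈ A'.N (f a))
    (f' : A'.Ob → A''.Ob) (φ' : Γ' →* Γ'') (c' : A'.Ob → Γ'')
    (hAdm' : ∀ {a b : A'.Ob} {g : Γ'}, A'.Adm a g b →
      A''.Adm (f' a) ((c' b)⁻¹ * φ' g * c' a) (f' b))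
    (hN' : ∀ {a : A'.Ob} {n : Γ'}, n ∈ A'.N a → (c' a)⁻¹ * φ' n * c' a ∈ A''.N (f' a))
    (hAdm'' : ∀ {a b : A.Ob} {g : Γ}, A.Adm a g b → A''.Adm (f' (f a))
      ((φ' (c b) * c' (f b))⁻¹ * (φ'.comp φ) g * (φ' (c a) * c' (f a))) (f' (f b)))
    (hN'' : ∀ {a : A.Ob} {n : Γ}, n ∈ A.N a →
      (φ' (c a) * c' (f a))⁻¹ * (φ'.comp φ) n * (φ' (c a) * c' (f a)) ∈ A''.N (f' (f a))) :
    twFun2 f φ c hAdm hN ⋙ twFun2 f' φ' c' hAdm' hN' =
      twFun2 (fun a => f' (f a)) (φ'.comp φ) (fun a => φ' (c a) * c' (f a)) hAdm'' hN'' := by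
  refine CategoryTheory.Functor.hext (fun x => rfl) fun x y u => ?_
  induction u using ActCat.ind with
  | h g hg =>
    refine heq_of_eq ?_
    refine (cl_eq (A := A'') (a := f' (f x.o)) (b := f' (f y.o))).2 ?_
    have : ((c' (f y.o))⁻¹ * φ' ((c y.o)⁻¹ * φ g * c x.o) * c' (f x.o))⁻¹ *
        ((φ' (c y.o) * c' (f y.o))⁻¹ * (φ'.comp φ) g * (φ' (c x.o) * c' (f x.o))) = 1 := by
      rw [MonoidHom.comp_apply, map_mul, map_mul, map_inv]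
      group
    change ((c' (f y.o))⁻¹ * φ' ((c y.o)⁻¹ * φ g * c x.o) * c' (f x.o))⁻¹ *
        ((φ' (c y.o) * c' (f y.o))⁻¹ * (φ'.comp φ) g * (φ' (c x.o) * c' (f x.o))) ∈ A''.N (f' (f x.o))
    rw [this]
    exact Subgroup.one_mem _

end ActCat
end C715
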