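import Pool.Agent.Work.MP_c71557_gt.H.Defs6
import Pool.Agent.Work.MP_c71557_gt.H.RelPt
import Pool.Agent.Work.MP_c71557_gt.H.MVU
import Pool.Agent.Work.MP_c71557_gt.H.QA

set_option autoImplicit false

/-!
# MP_c71557_gt, module H/SuspH: the suspension category (M)

`susp H`: objects `a, b, t`, unique arrows `a → t ← b`, `Aut t = H`.  `suspP H`: the same, but
`Aut b = H`, `Hom(b,t) = H`.  (Hom sets: classes of `g ∈ H` modulo `N` of the source.)
* `suspP_acy`: the full subcategory `{a, t}` has the initial object `a`, and its inclusion is a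
  homology isomorphism by `quillenA_under` (the category under `b` has an initial object).
* `susp_rel`: both relative complexes map by quasi-isomorphisms to the complexes modulo `C({b,t})`
  (`sg H → {b,t}` is a homology isomorphism in `suspP`, `pt → {b,t}` in `susp`), and these have the
  same basis: the simplices containing `a`.
* `susp_H`: consequence: `H_{n+2}(susp H) ≅ H_{n+1}(H)` (`relAcy`, `relPt`), `H_1(susp H) = 0`,
  connected.
-/

namespace C715

open CategoryTheory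

section gen

variable {C : Type} [SmallCategory C] {D : Type} [SmallCategory D]
  {K : Type} [SmallCategory K] {K' : Type} [SmallCategory K']

private theorem push_heq {n : ℕ} {s t : Sx C n} (h : s = t)
    (i j : Fin (n + 1)) (hij : i ≤ j) : HEq (s.m i j hij) (t.m i j hij) := by
  subst h
  exact HEq.rfl

private theorem fsub_inj (P : C → Prop) (n : ℕ) :
    Function.Injective (fun σ : Sx (FSub P) n => σ.push (FSub.incl P)) := by
  intro σ τ h
  have h' : σ.push (FSub.incl P) = τ.push (FSub.incl P) := h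
  have ho : ∀ i, σ.o i = τ.o i := fun i => FSub.ext (congrFun (congrArg Sx.o h') i)
  exact Eps1.ext_heq ho (fun i j hij => push_heq h' i j hij)

private theorem fsub_lift (P : C → Prop) {n : ℕ} (σ : Sx C n) (h : ∀ i, P (σ.o i)) :
    ∃ τ : Sx (FSub P) n, σ = τ.push (FSub.incl P) :=
  ⟨{ o := fun i => ⟨σ.o i, h i⟩
     m := fun i j hij => σ.m i j hij
     m_self := fun i => σ.m_self i
     m_comp := fun i j k h h' => σ.m_comp i j k h h' }, rfl⟩

private theorem range_push (j : K ⥤ C) (n : ℕ) :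
    LinearMap.range ((NCmap j).f n) =
      Finsupp.supported ℚ ℚ (Set.range (fun σ : Sx K n => σ.push j)) := by
  have h := Finsupp.lmapDomain_supported (M := ℚ) (R := ℚ) (fun σ : Sx K n => σ.push j) Set.univ
  rw [Finsupp.supported_univ, Submodule.map_top, Set.image_univ] at h
  exact h

/-- bijectivity of the relative map in a degree -/
private theorem rel_bij (j : K ⥤ C) (j' : K' ⥤ D) (R : C ⥤ D) (R' : K ⥤ K')
    (h : ∀ n (σ : Sx K n), (σ.push j).push R = (σ.push R').push j') (n : ℕ)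
    (h1 : ∀ σ : Sx C n, (∃ τ' : Sx K' n, σ.push R = τ'.push j') → ∃ τ : Sx K n, σ = τ.push j)
    (h2 : ∀ σ σ' : Sx C n, σ.push R = σ'.push R → (∃ τ : Sx K n, σ = τ.push j) ∨ σ = σ')
    (h3 : ∀ σ' : Sx D n, (∃ τ' : Sx K' n, σ' = τ'.push j') ∨ ∃ σ : Sx C n, σ' = σ.push R) :
    Function.Bijective ((relMap j j' R R' h).f n) := by
  classical
  constructor
  · rw [injective_iff_map_eq_zero]
    intro y hy
    obtain ⟨x, rfl⟩ := Submodule.Quotient.mk_surjective _ y
    have hy1 : (Submodule.Quotient.mk ((NCmap R).f n x) : (relC j').X n) = 0 := hy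
    rw [Submodule.Quotient.mk_eq_zero] at hy1
    refine (Submodule.Quotient.mk_eq_zero _).2 ?_
    rw [range_push] at hy1 ⊢
    let S : Set (Sx C n) := Set.range (fun σ : Sx K n => σ.push j)
    let x1 : Sx C n →₀ ℚ := (x : Sx C n →₀ ℚ).filter (fun σ => σ ∈ S)
    let x2 : Sx C n →₀ ℚ := (x : Sx C n →₀ ℚ).filter (fun σ => ¬ σ ∈ S)
    have hx : (x : Sx C n →₀ ℚ) = x1 + x2 := (Finsupp.filter_add_filter_not _ _).symm
    have hx1 : x1 ∈ Finsupp.supported ℚ ℚ S := by
      rw [Finsupp.mem_supported]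
      intro σ hσ
      exact (Finsupp.mem_support_iff.1 hσ |> fun h => by
        by_contra hS
        exact h (Finsupp.filter_apply_neg _ _ hS))
    have hR1 : (NCmap R).f n x1 ∈ Finsupp.supported ℚ ℚ
        (Set.range (fun σ : Sx K' n => σ.push j')) := by
      have : x1 ∈ LinearMap.range ((NCmap j).f n) := by
        rw [range_push]
        exact hx1
      obtain ⟨z, hz⟩ := this
      rw [← range_push]
      refine ⟨(NCmap R').f n z, ?_⟩
      rw [← hz]
      change Finsupp.mapDomain _ (Finsupp.mapDomain _ (z : Sx K n →₀ ℚ)) =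
        Finsupp.mapDomain _ (Finsupp.mapDomain _ (z : Sx K n →₀ ℚ))
      rw [← Finsupp.mapDomain_comp, ← Finsupp.mapDomain_comp]
      congr 1
      exact funext fun σ => (h n σ).symm
    have hR2 : (NCmap R).f n x2 ∈ Finsupp.supported ℚ ℚ
        (Set.range (fun σ : Sx K' n => σ.push j')) := by
      have e : (NCmap R).f n x2 = (NCmap R).f n x - (NCmap R).f n x1 := by
        rw [hx, map_add, add_sub_cancel_left]
      rw [e]
      exact Submodule.sub_mem _ hy1 hR1
    have hx2S : ∀ σ ∈ x2.support, σ ∉ S := by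
      intro σ hσ hS
      exact (Finsupp.mem_support_iff.1 hσ) (Finsupp.filter_apply_neg _ _ (by simpa using hS))
    have hinj : Set.InjOn (fun σ : Sx C n => σ.push R) x2.support := by
      intro σ hσ σ' hσ' e
      rcases h2 σ σ' e with ⟨τ, hτ⟩ | h
      · exact absurd ⟨τ, hτ.symm⟩ (hx2S σ hσ)
      · exact h
    have hsup := Finsupp.mapDomain_support_of_injOn x2 hinj
    have hx20 : x2 = 0 := by
      rw [← Finsupp.support_eq_empty, Finset.eq_empty_iff_forall_notMem]
      intro σ hσ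
      have h5 : σ.push R ∈ (Finsupp.mapDomain (fun σ : Sx C n => σ.push R) x2).support := by
        rw [hsup]
        exact Finset.mem_image_of_mem _ hσ
      obtain ⟨τ', hτ'⟩ := (Finsupp.mem_supported _ _).1 hR2 h5
      obtain ⟨τ, hτ⟩ := h1 σ ⟨τ', hτ'.symm⟩
      exact hx2S σ hσ ⟨τ, hτ.symm⟩
    rw [hx, hx20, add_zero]
    exact hx1
  · intro y
    obtain ⟨y, rfl⟩ := Submodule.Quotient.mk_surjective _ y
    have key : ∀ y : Sx D n →₀ ℚ, ∃ x, (relMap j j' R R' h).f n x =
        (Submodule.Quotient.mk y : (relC j').X n) := by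
      intro y
      induction y using Finsupp.induction_linear with
      | zero => exact ⟨0, by rw [map_zero]; rfl⟩
      | add f g hf hg =>
        obtain ⟨a, ha⟩ := hf
        obtain ⟨b, hb⟩ := hg
        refine ⟨a + b, ?_⟩
        rw [map_add, ha, hb]
        rfl
      | single σ' r =>
        rcases h3 σ' with ⟨τ', rfl⟩ | ⟨σ, rfl⟩
        · refine ⟨0, ?_⟩
          rw [map_zero]
          symm
          refine (Submodule.Quotient.mk_eq_zero _).2 ⟨Finsupp.single τ' r, ?_⟩
          exact NCmap_single _ _ _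
        · refine ⟨Submodule.Quotient.mk (Finsupp.single σ r), ?_⟩
          change Submodule.Quotient.mk ((NCmap R).f n (Finsupp.single σ r)) = _
          rw [NCmap_single]
    exact key y

end gen

namespace ActCat

variable {Γ : Type} [Group Γ] (H : Subgroup Γ)

/-- `sg H` at the object `b` -/
def atB : (sg H).Obj ⥤ (suspP H).Obj :=
  idFun (A := sg H) (A' := suspP H) (fun _ => S3.b) (fun h => ⟨Or.inl rfl, h⟩) (fun h => h)

/-- `suspP H → susp H` -/
def suspPr : (suspP H).Obj ⥤ (susp H).Obj :=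
  idFun (A := suspP H) (A' := susp H) (fun x => x) (fun h => h) (fun {x n} h => by
    cases x
    · exact h
    · have h' : n ∈ (⊥ : Subgroup Γ) := h
      rw [Subgroup.mem_bot] at h'
      subst h'
      exact H.one_mem
    · exact h)

private theorem P_ind {p : (suspP H).Obj → Prop} (ha : p ⟨S3.a⟩) (hb : p ⟨S3.b⟩) (ht : p ⟨S3.t⟩)
    (x : (suspP H).Obj) : p x := by
  obtain ⟨o⟩ := x
  cases o
  · exact ha
  · exact hb
  · exact ht

private theorem Q_ind {p : (susp H).Obj → Prop} (ha : p ⟨S3.a⟩) (hb : p ⟨S3.b⟩) (ht : p ⟨S3.t⟩)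
    (x : (susp H).Obj) : p x := by
  obtain ⟨o⟩ := x
  cases o
  · exact ha
  · exact hb
  · exact ht

/-- the full subcategory `{a, t}` of `suspP` -/
private abbrev PA (x : (suspP H).Obj) : Prop := x.o ≠ S3.b

private theorem PA_acy : Acy (FSub (PA H)) := by
  refine acy_of_initial (⟨⟨S3.a⟩, by intro h; cases h⟩ : FSub (PA H)) fun d => ?_
  obtain ⟨⟨o⟩, hd⟩ := d
  have h1 : (suspP H).Adm S3.a 1 o := by
    cases o
    · exact ⟨Or.inl rfl, H.one_mem⟩
    · exact absurd rfl hd
    · exact ⟨Or.inr rfl, H.one_mem⟩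
  refine ⟨(suspP H).cl (a := S3.a) (b := o) 1 h1, trivial, fun u _ => ?_⟩
  obtain ⟨g, hg, e⟩ := hom_surj (A := suspP H) (x := ⟨S3.a⟩) (y := ⟨o⟩) u
  rw [e]
  refine (cl_eq (A := suspP H) (a := S3.a) (b := o)).2 ?_
  change g⁻¹ * 1 ∈ H
  rw [mul_one]
  exact H.inv_mem hg.2

/-- the category under an object of the full subcategory -/
private theorem under_self {C : Type} [SmallCategory C] (P : C → Prop) (c : C) (hc : P c) :
    Acy (StructuredArrow c (FSub.incl P)) := by
  refine acy_of_initial (StructuredArrow.mk (Y := (⟨c, hc⟩ : FSub P)) (𝟙 c)) fun d => ?_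
  refine ⟨StructuredArrow.homMk (show (⟨c, hc⟩ : FSub P) ⟶ d.right from d.hom)
    (Category.id_comp _), trivial, fun u _ => ?_⟩
  ext
  have := StructuredArrow.w u
  change u.right = _
  exact (Category.id_comp _).symm.trans this

theorem suspP_acy : Acy (suspP H).Obj := by
  refine (Acy.congr (F := FSub.incl (PA H)) (quillenA_under _ fun x => ?_)).1 (PA_acy H)
  revert x
  refine P_ind H ?_ ?_ ?_
  · exact under_self (PA H) _ (by intro h; cases h)
  · let c : StructuredArrow (⟨S3.b⟩ : (suspP H).Obj) (FSub.incl (PA H)) :=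
      StructuredArrow.mk (Y := (⟨⟨S3.t⟩, by intro h; cases h⟩ : FSub (PA H)))
        ((suspP H).hom (a := S3.b) (b := S3.t) 1 ⟨Or.inr rfl, H.one_mem⟩)
    refine acy_of_initial c fun d => ?_
    obtain ⟨⟨⟨o⟩, hd⟩, u, rfl⟩ := d.mk_surjective
    obtain ⟨g, hg, rfl⟩ := hom_surj (A := suspP H) (x := ⟨S3.b⟩) (y := ⟨o⟩) u
    have ho : o = S3.t := by
      rcases hg.1 with h | h
      · exact absurd h.symm hd
      · exact h
    subst ho
    refine ⟨StructuredArrow.homMk ((suspP H).hom (a := S3.t) (b := S3.t) g ⟨Or.inl rfl, hg.2⟩) ?_,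
      trivial, fun v _ => ?_⟩
    · refine (cl_eq (A := suspP H) (a := S3.b) (b := S3.t)).2 ?_
      change (g * 1)⁻¹ * g ∈ (⊥ : Subgroup Γ)
      rw [mul_one, inv_mul_cancel]
      exact Subgroup.one_mem _
    · ext
      have hw := StructuredArrow.w v
      obtain ⟨k, hk, e⟩ := hom_surj (A := suspP H) (x := ⟨S3.t⟩) (y := ⟨S3.t⟩) v.right
      have hw2 : (suspP H).comp ((suspP H).cl (a := S3.b) (b := S3.t) 1 ⟨Or.inr rfl, H.one_mem⟩)
        v.right = (suspP H).cl g hg := hw
      rw [e] at hw2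
      have hw3 := (cl_eq (A := suspP H) (a := S3.b) (b := S3.t)).1 hw2
      have hw4 : (k * 1)⁻¹ * g ∈ (⊥ : Subgroup Γ) := hw3
      change v.right = _
      rw [e]
      refine (cl_eq (A := suspP H) (a := S3.t) (b := S3.t)).2 ?_
      rwa [mul_one] at hw4
  · exact under_self (PA H) _ (by intro h; cases h)

private theorem obj_eq {K : Subgroup Γ} (x y : (sg K).Obj) : x = y := by
  cases x
  cases y
  rfl

theorem atB_inj (n : ℕ) : Function.Injective (fun σ : Sx (sg H).Obj n => σ.push (atB H)) := by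
  intro σ τ h
  refine Eps1.ext_heq (fun i => obj_eq _ _) (fun i j hij => ?_)
  have h1 := eq_of_heq (push_heq (show σ.push (atB H) = τ.push (atB H) from h) i j hij)
  obtain ⟨g, hg, e⟩ := hom_surj (A := sg H) (x := ⟨()⟩) (y := ⟨()⟩) (σ.m i j hij)
  obtain ⟨g', hg', e'⟩ := hom_surj (A := sg H) (x := ⟨()⟩) (y := ⟨()⟩) (τ.m i j hij)
  refine heq_of_eq (e.trans (Eq.trans ?_ e'.symm))
  have h2 : (atB H).map ((sg H).hom (a := ()) (b := ()) g hg) =
      (atB H).map ((sg H).hom (a := ()) (b := ()) g' hg') :=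
    (congrArg (fun u => (atB H).map (X := ⟨()⟩) (Y := ⟨()⟩) u) e).symm.trans
      (h1.trans (congrArg (fun u => (atB H).map (X := ⟨()⟩) (Y := ⟨()⟩) u) e'))
  have h3 : g⁻¹ * g' ∈ (⊥ : Subgroup Γ) :=
    (cl_eq (A := suspP H) (a := S3.b) (b := S3.b)).1 h2
  exact (cl_eq (A := sg H) (a := ()) (b := ())).2 h3

theorem atB_const (n : ℕ) (σ : Sx (sg H).Obj n) : (σ.push (atB H)).push (suspPr H) =
    (σ.push (toPt _)).push (ptF (⟨S3.b⟩ : (susp H).Obj)) := by
  refine Eps1.ext_heq (fun i => rfl) (fun i j hij => heq_of_eq ?_)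
  obtain ⟨g, hg, e⟩ := hom_surj (A := sg H) (x := ⟨()⟩) (y := ⟨()⟩) (σ.m i j hij)
  change (suspPr H).map ((atB H).map (σ.m i j hij)) = 𝟙 (⟨S3.b⟩ : (susp H).Obj)
  have h2 : (suspPr H).map ((atB H).map ((sg H).hom (a := ()) (b := ()) g hg)) =
      𝟙 (⟨S3.b⟩ : (susp H).Obj) := by
    refine (cl_eq (A := susp H) (a := S3.b) (b := S3.b)).2 ?_
    change g⁻¹ * 1 ∈ H
    rw [mul_one]
    exact H.inv_mem hg
  exact (congrArg (fun u => (suspPr H).map ((atB H).map (X := ⟨()⟩) (Y := ⟨()⟩) u)) e).trans h2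

/-- the full subcategories `{b, t}` -/
private abbrev PB (x : (suspP H).Obj) : Prop := x.o ≠ S3.a

private abbrev QB (x : (susp H).Obj) : Prop := x.o ≠ S3.a

/-- `sg H → {b, t}` -/
private def atBW : (sg H).Obj ⥤ FSub (PB H) where
  obj _ := ⟨⟨S3.b⟩, by intro h; cases h⟩
  map {x y} u := (atB H).map u
  map_id x := (atB H).map_id x
  map_comp u v := (atB H).map_comp u v

private theorem atBW_hiso : HIso (atBW H) := by
  refine quillenA_over _ fun x => ?_
  obtain ⟨⟨o⟩, hx⟩ := x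
  have hb : ∀ {g : Γ}, g ∈ H → (suspP H).Adm S3.b g o := fun {g} hg => by
    cases o
    · exact absurd rfl hx
    · exact ⟨Or.inl rfl, hg⟩
    · exact ⟨Or.inr rfl, hg⟩
  let c : CostructuredArrow (atBW H) (⟨⟨o⟩, hx⟩ : FSub (PB H)) :=
    CostructuredArrow.mk (Y := (⟨()⟩ : (sg H).Obj))
      (show (atBW H).obj ⟨()⟩ ⟶ _ from (suspP H).cl (a := S3.b) (b := o) 1 (hb H.one_mem))
  refine acy_of_initial c fun d => ?_
  obtain ⟨g, hg, e⟩ := hom_surj (A := suspP H) (x := ⟨S3.b⟩) (y := ⟨o⟩) d.hom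
  have hgH : g ∈ H := hg.2
  refine ⟨CostructuredArrow.homMk (show c.left ⟶ d.left from
    (sg H).cl (a := ()) (b := ()) g⁻¹ (H.inv_mem hgH)) ?_, trivial, fun v _ => ?_⟩
  · change (suspP H).comp ((suspP H).cl (a := S3.b) (b := S3.b) g⁻¹ ⟨Or.inl rfl, H.inv_mem hgH⟩)
      d.hom = _
    rw [e]
    refine (cl_eq (A := suspP H) (a := S3.b) (b := o)).2 ?_
    change (g * g⁻¹)⁻¹ * 1 ∈ (⊥ : Subgroup Γ)
    rw [mul_inv_cancel, inv_one, one_mul]
    exact Subgroup.one_mem _
  · ext
    have hw := CostructuredArrow.w v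
    obtain ⟨k, hk, e'⟩ := hom_surj (A := sg H) (x := ⟨()⟩) (y := ⟨()⟩) v.left
    have hw2 : (suspP H).comp ((atB H).map v.left) d.hom =
      (suspP H).cl (a := S3.b) (b := o) 1 (hb H.one_mem) := hw
    rw [e, e'] at hw2
    have hw3 : (g * k)⁻¹ * 1 ∈ (⊥ : Subgroup Γ) :=
      (cl_eq (A := suspP H) (a := S3.b) (b := o)).1 hw2
    change v.left = _
    rw [e']
    refine (cl_eq (A := sg H) (a := ()) (b := ())).2 ?_
    change k⁻¹ * g⁻¹ ∈ (⊥ : Subgroup Γ)
    rwa [mul_one, mul_inv_rev] at hw3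

private theorem QB_acy : Acy (FSub (QB H)) := by
  refine acy_of_initial (⟨⟨S3.b⟩, by intro h; cases h⟩ : FSub (QB H)) fun d => ?_
  obtain ⟨⟨o⟩, hd⟩ := d
  have h1 : (susp H).Adm S3.b 1 o := by
    cases o
    · exact absurd rfl hd
    · exact ⟨Or.inl rfl, H.one_mem⟩
    · exact ⟨Or.inr rfl, H.one_mem⟩
  refine ⟨(susp H).cl (a := S3.b) (b := o) 1 h1, trivial, fun u _ => ?_⟩
  obtain ⟨g, hg, e⟩ := hom_surj (A := susp H) (x := ⟨S3.b⟩) (y := ⟨o⟩) u
  rw [e]
  refine (cl_eq (A := susp H) (a := S3.b) (b := o)).2 ?_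
  change g⁻¹ * 1 ∈ H
  rw [mul_one]
  exact H.inv_mem hg.2

private theorem pr_heq {x y x' y' : (suspP H).Obj} (u : x ⟶ y) (u' : x' ⟶ y') (hx : x = x')
    (hy : y = y') (hb : x.o ≠ S3.b) (h : HEq ((suspPr H).map u) ((suspPr H).map u')) :
    HEq u u' := by
  subst hx
  subst hy
  have h1 := eq_of_heq h
  refine heq_of_eq ?_
  obtain ⟨g, hg, e⟩ := hom_surj (A := suspP H) u
  obtain ⟨g', hg', e'⟩ := hom_surj (A := suspP H) u'
  subst e
  subst e'
  have h2 : g⁻¹ * g' ∈ (susp H).N x.o := (cl_eq (A := susp H) (a := x.o) (b := y.o)).1 h1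
  refine (cl_eq (A := suspP H) (a := x.o) (b := y.o)).2 ?_
  obtain ⟨o⟩ := x
  cases o
  · exact h2
  · exact absurd rfl hb
  · exact h2

/-- a simplex of `suspP` containing `a` does not contain `b` -/
private theorem noB {n : ℕ} (σ : Sx (suspP H).Obj n) (i : Fin (n + 1)) (hi : (σ.o i).o = S3.a)
    (k : Fin (n + 1)) : (σ.o k).o ≠ S3.b := by
  intro hk
  rcases le_total i k with h | h
  · obtain ⟨g, hg, -⟩ := hom_surj (A := suspP H) (σ.m i k h)
    rcases hg.1 with h1 | h1
    · rw [hi, hk] at h1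
      cases h1
    · rw [hk] at h1
      cases h1
  · obtain ⟨g, hg, -⟩ := hom_surj (A := suspP H) (σ.m k i h)
    rcases hg.1 with h1 | h1
    · rw [hi, hk] at h1
      cases h1
    · rw [hi] at h1
      cases h1

private theorem noB' {n : ℕ} (σ : Sx (susp H).Obj n) (i : Fin (n + 1)) (hi : (σ.o i).o = S3.a)
    (k : Fin (n + 1)) : (σ.o k).o ≠ S3.b := by
  intro hk
  rcases le_total i k with h | h
  · obtain ⟨g, hg, -⟩ := hom_surj (A := susp H) (σ.m i k h)
    rcases hg.1 with h1 | h1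
    · rw [hi, hk] at h1
      cases h1
    · rw [hk] at h1
      cases h1
  · obtain ⟨g, hg, -⟩ := hom_surj (A := susp H) (σ.m k i h)
    rcases hg.1 with h1 | h1
    · rw [hi, hk] at h1
      cases h1
    · rw [hi] at h1
      cases h1

/-- the full subcategory without `b` maps back to `suspP` -/
private def back : ((susp H).restr (fun o => o ≠ S3.b)).Obj ⥤ (suspP H).Obj :=
  idFun (A := (susp H).restr (fun o => o ≠ S3.b)) (A' := suspP H) (fun a => a.1) (fun h => h)
    (fun {a n} h => by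
      obtain ⟨o, ho⟩ := a
      cases o
      · exact h
      · exact absurd rfl ho
      · exact h)

private theorem lift_noB {n : ℕ} (σ : Sx (susp H).Obj n) (h : ∀ i, (σ.o i).o ≠ S3.b) :
    ∃ τ : Sx (suspP H).Obj n, σ = τ.push (suspPr H) := by
  let τ : Sx ((susp H).restr (fun o => o ≠ S3.b)).Obj n :=
    { o := fun i => ⟨⟨(σ.o i).o, h i⟩⟩
      m := fun i j hij => σ.m i j hij
      m_self := fun i => σ.m_self i
      m_comp := fun i j k h h' => σ.m_comp i j k h h' }
  refine ⟨τ.push (back H), ?_⟩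
  refine Eps1.ext_heq (fun i => rfl) (fun i j hij => heq_of_eq ?_)
  obtain ⟨g, hg, e⟩ := hom_surj (A := (susp H).restr (fun o => o ≠ S3.b)) (τ.m i j hij)
  change τ.m i j hij = (suspPr H).map ((back H).map (τ.m i j hij))
  rw [e]
  rfl

private theorem fsub_map_comm {n : ℕ} (σ : Sx (FSub (PB H)) n) :
    (σ.push (FSub.incl (PB H))).push (suspPr H) =
      (σ.push (FSub.map (suspPr H) (PB H) (QB H) (fun _ h => h))).push (FSub.incl (QB H)) := rfl

private theorem exc_qis : Cx.Qis (relMap (FSub.incl (PB H)) (FSub.incl (QB H)) (suspPr H)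
    (FSub.map (suspPr H) (PB H) (QB H) (fun _ h => h)) (fun _ σ => fsub_map_comm H σ)) := by
  refine qis_of_bij _ fun n => rel_bij _ _ _ _ _ n ?_ ?_ ?_
  · rintro σ ⟨τ', hτ'⟩
    refine fsub_lift (PB H) σ fun i => ?_
    have h1 : (σ.push (suspPr H)).o i = (τ'.push (FSub.incl (QB H))).o i := by rw [hτ']
    have h2 := (τ'.o i).h
    intro h3
    apply h2
    have h4 : ((τ'.push (FSub.incl (QB H))).o i).o = (τ'.o i).o.o := rfl
    rw [← h4, ← h1]
    exact h3
  · intro σ σ' e
    by_cases h : ∀ i, (σ.o i).o ≠ S3.a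
    · exact Or.inl (fsub_lift (PB H) σ h)
    · right
      push Not at h
      obtain ⟨i, hi⟩ := h
      have ho : ∀ k, σ.o k = σ'.o k := fun k => by
        have h1 : ((σ.push (suspPr H)).o k).o = ((σ'.push (suspPr H)).o k).o := by rw [e]
        exact Obj.ext h1
      exact Eps1.ext_heq ho (fun k l hkl => pr_heq H _ _ (ho k) (ho l) (noB H σ i hi k)
        (push_heq e k l hkl))
  · intro σ'
    by_cases h : ∀ i, (σ'.o i).o ≠ S3.a
    · exact Or.inl (fsub_lift (QB H) σ' h)
    · push Not at h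
      obtain ⟨i, hi⟩ := h
      exact Or.inr (lift_noB H σ' (noB' H σ' i hi))

private theorem id_qis {C : Type} [SmallCategory C] : Cx.Qis (NCmap (𝟭 C)) := by
  rw [NCmap_id]
  intro n
  have : (⇑((Cx.Hom.id (NC C)).H n) : (NC C).H n → _) = id := funext fun y => Cx.H_id _ n y
  rw [this]
  exact Function.bijective_id

/-- comparison of the relative complexes, `suspP` -/
private theorem left_qis : Cx.Qis (relMap (atB H) (FSub.incl (PB H)) (𝟭 _) (atBW H)
    (fun _ _ => rfl)) := by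
  refine Cx.coker_qis _ _ (NCmap_inj (atB H) (atB_inj H)) (NCmap_inj _ (fsub_inj _)) _ _ _
    (atBW_hiso H) id_qis

/-- comparison of the relative complexes, `susp` -/
private theorem right_qis : Cx.Qis (relMap (ptF (⟨S3.b⟩ : (susp H).Obj)) (FSub.incl (QB H)) (𝟭 _)
    (ptF (⟨⟨S3.b⟩, by intro h; cases h⟩ : FSub (QB H))) (fun _ _ => rfl)) :=
  Cx.coker_qis _ _ (ptF_inj _) (NCmap_inj _ (fsub_inj _)) _ _ _
    (Acy.hiso _ acy_pt (QB_acy H)) id_qis

theorem susp_rel : Cx.Qis (relMap (atB H) (ptF (⟨S3.b⟩ : (susp H).Obj)) (suspPr H) (toPt _)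
    (atB_const H)) := by
  have h1 := Cx.Qis.comp (left_qis H) (exc_qis H)
  refine Cx.Qis.of_comp_right (right_qis H) ?_
  have e : (relMap (atB H) (ptF (⟨S3.b⟩ : (susp H).Obj)) (suspPr H) (toPt _)
      (atB_const H)).comp (relMap (ptF (⟨S3.b⟩ : (susp H).Obj)) (FSub.incl (QB H)) (𝟭 _)
        (ptF (⟨⟨S3.b⟩, by intro h; cases h⟩ : FSub (QB H))) (fun _ _ => rfl)) =
      (relMap (atB H) (FSub.incl (PB H)) (𝟭 _) (atBW H) (fun _ _ => rfl)).comp
        (relMap (FSub.incl (PB H)) (FSub.incl (QB H)) (suspPr H)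
          (FSub.map (suspPr H) (PB H) (QB H) (fun _ h => h)) (fun _ σ => fsub_map_comm H σ)) := by
    refine Cx.Hom.ext (funext fun n => LinearMap.ext fun y => ?_)
    obtain ⟨y, rfl⟩ := Submodule.Quotient.mk_surjective _ y
    refine congrArg Submodule.Quotient.mk ?_
    change (NCmap (𝟭 _)).f n ((NCmap (suspPr H)).f n y) =
      (NCmap (suspPr H)).f n ((NCmap (𝟭 _)).f n y)
    rw [NCmap_id, NCmap_id]
    rfl
  rw [e]
  exact h1

theorem susp_conn (x : (NC (susp H).Obj).X 0)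
    (hx : Finsupp.linearCombination ℚ (fun _ => (1 : ℚ)) x = 0) :
    x ∈ (NC (susp H).Obj).Bd 0 := by
  refine H0_of_connected (fun a b => ?_) x hx
  have ht : ∀ a : (susp H).Obj, Nonempty (a ⟶ (⟨S3.t⟩ : (susp H).Obj)) := fun a =>
    ⟨(susp H).cl (a := a.o) (b := S3.t) 1 ⟨Or.inr rfl, H.one_mem⟩⟩
  exact Relation.EqvGen.trans _ _ _ (Relation.EqvGen.rel _ _ (ht a))
    (Relation.EqvGen.symm _ _ (Relation.EqvGen.rel _ _ (ht b)))

theorem susp_H : Subsingleton (HC (susp H).Obj 1) ∧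
    ∀ n, Nonempty (HC (susp H).Obj (n + 2) ≃ₗ[ℚ] HC (sg H).Obj (n + 1)) := by
  have hK0 : ∀ x : (NC (sg H).Obj).X 0, Finsupp.linearCombination ℚ (fun _ => (1 : ℚ)) x = 0 →
      x ∈ (NC (sg H).Obj).Bd 0 := fun x hx => by
    refine H0_of_connected (fun a b => ?_) x hx
    rw [obj_eq a b]
    exact Relation.EqvGen.refl b
  obtain ⟨h1, -, h2⟩ := relAcy (suspP_acy H) (atB H) (atB_inj H) ⟨⟨()⟩⟩ hK0
  have hr := susp_rel H
  have hp := relPt (⟨S3.b⟩ : (susp H).Obj)
  refine ⟨?_, fun n => ⟨?_⟩⟩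
  · have h3 : Subsingleton ((relC (ptF (⟨S3.b⟩ : (susp H).Obj))).H 1) :=
      (hr 1).2.subsingleton
    exact (hp 0).1.subsingleton
  · exact (LinearEquiv.ofBijective _ (hp (n + 1))).trans
      ((LinearEquiv.ofBijective _ (hr (n + 2))).symm.trans (LinearEquiv.ofBijective _ (h1 n)))

end ActCat

end C715
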