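import Pool.Agent.Work.MP_c71557_gt.H.DC

set_option autoImplicit false
set_option linter.unusedVariables false

/-!
# MP_c71557_gt, block H: categories of partial group elements

`Hom(a,b) = {g : Adm a g b} / N a`.
-/

namespace C715

open CategoryTheory

/-- data of a category of partial elements of a group -/
structure ActCat (Γ : Type) [Group Γ] where
  Ob : Type
  Adm : Ob → Γ → Ob → Prop
  N : Ob → Subgroup Γ
  one : ∀ a, Adm a 1 a
  mul : ∀ {a b c : Ob} {g h : Γ}, Adm a g b → Adm b h c → Adm a (h * g) c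
  nAdm : ∀ {a : Ob} {n : Γ}, n ∈ N a → Adm a n a
  conj : ∀ {a b : Ob} {g n : Γ}, Adm a g b → n ∈ N b → g⁻¹ * n * g ∈ N a

namespace ActCat

variable {Γ : Type} [Group Γ]

/-- objects -/
@[ext] structure Obj (A : ActCat Γ) where
  o : A.Ob

/-- equality of germs -/
abbrev setoid (A : ActCat Γ) (a b : A.Ob) : Setoid {g : Γ // A.Adm a g b} where
  r g g' := g.1⁻¹ * g'.1 ∈ A.N a
  iseqv :=
    { refl := fun g => by simp
      symm := fun {g g'} h => by simpa using (A.N a).inv_mem h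
      trans := fun {g g' g''} h h' => by
        have := (A.N a).mul_mem h h'
        rwa [mul_assoc, mul_inv_cancel_left] at this }

/-- morphisms -/
def Hm (A : ActCat Γ) (a b : A.Ob) : Type := Quotient (A.setoid a b)

/-- class of an admissible element -/
def cl (A : ActCat Γ) {a b : A.Ob} (g : Γ) (h : A.Adm a g b) : A.Hm a b :=
  Quotient.mk (A.setoid a b) ⟨g, h⟩

theorem cl_eq {A : ActCat Γ} {a b : A.Ob} {g g' : Γ} {h : A.Adm a g b} {h' : A.Adm a g' b} :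
    A.cl g h = A.cl g' h' ↔ g⁻¹ * g' ∈ A.N a := Quotient.eq (r := A.setoid a b)

theorem ind {A : ActCat Γ} {a b : A.Ob} {p : A.Hm a b → Prop}
    (h : ∀ g (hg : A.Adm a g b), p (A.cl g hg)) (x : A.Hm a b) : p x :=
  Quotient.ind (fun g => h g.1 g.2) x

/-- composition -/
def comp (A : ActCat Γ) {a b c : A.Ob} (f : A.Hm a b) (g : A.Hm b c) : A.Hm a c :=
  Quotient.lift₂ (fun f g => A.cl (g.1 * f.1) (A.mul f.2 g.2)) (by
    rintro ⟨g, hg⟩ ⟨h, hh⟩ ⟨g', hg'⟩ ⟨h', hh'⟩ (e : g⁻¹ * g' ∈ A.N a) (e' : h⁻¹ * h' ∈ A.N b)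
    rw [cl_eq]
    have h1 := A.conj hg e'
    have h2 := (A.N a).mul_mem h1 e
    have h3 : (h * g)⁻¹ * (h' * g') = g⁻¹ * (h⁻¹ * h') * g * (g⁻¹ * g') := by group
    change (h * g)⁻¹ * (h' * g') ∈ A.N a
    rw [h3]
    exact h2) f g

theorem comp_cl {A : ActCat Γ} {a b c : A.Ob} {g h : Γ} (hg : A.Adm a g b) (hh : A.Adm b h c) :
    A.comp (A.cl g hg) (A.cl h hh) = A.cl (h * g) (A.mul hg hh) := rfl

instance (A : ActCat Γ) : SmallCategory A.Obj where
  Hom x y := A.Hm x.o y.o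
  id x := A.cl 1 (A.one _)
  comp f g := A.comp f g
  id_comp f := by
    induction f using ActCat.ind with
    | h g hg => exact cl_eq.2 (by simp)
  comp_id f := by
    induction f using ActCat.ind with
    | h g hg => exact cl_eq.2 (by simp)
  assoc f g h := by
    induction f using ActCat.ind with
    | h f hf =>
      induction g using ActCat.ind with
      | h g hg =>
        induction h using ActCat.ind with
        | h h hh => exact cl_eq.2 (by simp [mul_assoc])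

/-- morphism given by an admissible element -/
def hom (A : ActCat Γ) {a b : A.Ob} (g : Γ) (h : A.Adm a g b) : (⟨a⟩ : A.Obj) ⟶ ⟨b⟩ := A.cl g h

theorem hom_eq {A : ActCat Γ} {a b : A.Ob} {g g' : Γ} {h : A.Adm a g b} {h' : A.Adm a g' b} :
    A.hom g h = A.hom g' h' ↔ g⁻¹ * g' ∈ A.N a := cl_eq

theorem hom_comp {A : ActCat Γ} {a b c : A.Ob} {g h : Γ} (hg : A.Adm a g b) (hh : A.Adm b h c) :
    A.hom g hg ≫ A.hom h hh = A.hom (h * g) (A.mul hg hh) := rfl

theorem hom_surj {A : ActCat Γ} {x y : A.Obj} (f : x ⟶ y) :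
    ∃ g, ∃ h : A.Adm x.o g y.o, f = A.hom g h := by
  induction f using ActCat.ind with
  | h g hg => exact ⟨g, hg, rfl⟩

/-- functor induced by a map of objects and a group homomorphism -/
def functor {Γ' : Type} [Group Γ'] {A : ActCat Γ} {A' : ActCat Γ'} (f : A.Ob → A'.Ob)
    (φ : Γ →* Γ') (hAdm : ∀ {a b : A.Ob} {g : Γ}, A.Adm a g b → A'.Adm (f a) (φ g) (f b))
    (hN : ∀ {a : A.Ob} {n : Γ}, n ∈ A.N a → φ n ∈ A'.N (f a)) : A.Obj ⥤ A'.Obj where
  obj x := ⟨f x.o⟩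
  map {x y} u := Quotient.lift (fun g => A'.cl (φ g.1) (hAdm g.2)) (by
    rintro ⟨g, hg⟩ ⟨g', hg'⟩ (e : g⁻¹ * g' ∈ A.N x.o)
    rw [cl_eq]
    have := hN e
    rwa [map_mul, map_inv] at this) u
  map_id x := by
    change A'.cl (φ 1) (hAdm (A.one _)) = A'.cl 1 (A'.one _)
    exact cl_eq.2 (by simp)
  map_comp u v := by
    induction u using ActCat.ind with
    | h f hf =>
      induction v using ActCat.ind with
      | h g hg => exact cl_eq.2 (by simp)

theorem functor_map {Γ' : Type} [Group Γ'] {A : ActCat Γ} {A' : ActCat Γ'} (f : A.Ob → A'.Ob)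
    (φ : Γ →* Γ') (hAdm : ∀ {a b : A.Ob} {g : Γ}, A.Adm a g b → A'.Adm (f a) (φ g) (f b))
    (hN : ∀ {a : A.Ob} {n : Γ}, n ∈ A.N a → φ n ∈ A'.N (f a)) {a b : A.Ob} {g : Γ}
    (hg : A.Adm a g b) :
    (functor f φ hAdm hN).map (A.hom g hg) = A'.hom (φ g) (hAdm hg) := rfl

/-- the one object category `N' / N` -/
def grp (N' N : Subgroup Γ) (hle : N ≤ N') (hn : ∀ g ∈ N', ∀ n ∈ N, g⁻¹ * n * g ∈ N) :
    ActCat Γ where
  Ob := Unit
  Adm _ g _ := g ∈ N'
  N _ := N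
  one _ := N'.one_mem
  mul hg hh := N'.mul_mem hh hg
  nAdm hn := hle hn
  conj hg hn' := hn _ hg _ hn'

/-- a subgroup as a one object category -/
def sg (K : Subgroup Γ) : ActCat Γ :=
  grp K ⊥ bot_le (fun g _ n hn => by
    rw [Subgroup.mem_bot] at hn ⊢
    subst hn
    group)

/-- enlarging `N` to `N'` -/
def enl (A : ActCat Γ) (N' : A.Ob → Subgroup Γ) (h1 : ∀ {a n}, n ∈ N' a → A.Adm a n a)
    (h2 : ∀ {a b g n}, A.Adm a g b → n ∈ N' b → g⁻¹ * n * g ∈ N' a) : ActCat Γ where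
  Ob := A.Ob
  Adm := A.Adm
  N := N'
  one := A.one
  mul := A.mul
  nAdm := h1
  conj := h2

/-- the projection `A → A.enl N'` -/
def proj (A : ActCat Γ) (N' : A.Ob → Subgroup Γ) (h1 : ∀ {a n}, n ∈ N' a → A.Adm a n a)
    (h2 : ∀ {a b g n}, A.Adm a g b → n ∈ N' b → g⁻¹ * n * g ∈ N' a)
    (hle : ∀ a, A.N a ≤ N' a) : A.Obj ⥤ (A.enl N' h1 h2).Obj :=
  functor (A' := A.enl N' h1 h2) (fun a => a) (MonoidHom.id Γ) (fun h => h) (fun h => hle _ h)

/-- the fibre group of `proj` at `a`, as a one object category -/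
def fib (A : ActCat Γ) (N' : A.Ob → Subgroup Γ) (h1 : ∀ {a n}, n ∈ N' a → A.Adm a n a)
    (hle : ∀ a, A.N a ≤ N' a) (a : A.Ob) : ActCat Γ :=
  grp (N' a) (A.N a) (hle a) (fun g hg n hn => A.conj (h1 hg) hn)

/-- inclusion of the fibre -/
def fibIncl (A : ActCat Γ) (N' : A.Ob → Subgroup Γ) (h1 : ∀ {a n}, n ∈ N' a → A.Adm a n a)
    (hle : ∀ a, A.N a ≤ N' a) (a : A.Ob) : (A.fib N' h1 hle a).Obj ⥤ A.Obj :=
  functor (A := A.fib N' h1 hle a) (fun _ => a) (MonoidHom.id Γ) (fun h => h1 h) (fun h => h)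

/-- conjugation `fib b → fib a` for `g : a → b` -/
def fibConj (A : ActCat Γ) (N' : A.Ob → Subgroup Γ) (h1 : ∀ {a n}, n ∈ N' a → A.Adm a n a)
    (h2 : ∀ {a b g n}, A.Adm a g b → n ∈ N' b → g⁻¹ * n * g ∈ N' a)
    (hle : ∀ a, A.N a ≤ N' a) {a b : A.Ob} {g : Γ} (hg : A.Adm a g b) :
    (A.fib N' h1 hle b).Obj ⥤ (A.fib N' h1 hle a).Obj :=
  functor (A := A.fib N' h1 hle b) (A' := A.fib N' h1 hle a) (fun _ => ())
    (MulAut.conj g⁻¹).toMonoidHom
    (fun {_ _ n} h => by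
      change g⁻¹ * n * g⁻¹⁻¹ ∈ N' a
      rw [inv_inv]
      exact h2 hg h)
    (fun {_ n} h => by
      change g⁻¹ * n * g⁻¹⁻¹ ∈ A.N a
      rw [inv_inv]
      exact A.conj hg h)

/-- the point category -/
abbrev Pt : Type := Discrete PUnit.{1}

end ActCat
end C715
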