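import Pool.Agent.Work.MP_c71557_gt.H.Prism
import Pool.Agent.Work.MP_c71557_gt.H.BarEx

set_option autoImplicit false

/-!
# MP_c71557_gt, module H/CK: center kills (S)

`ζ : 𝟭 ⟶ 𝟭` a natural endomorphism of the identity functor such that `M(ζ) - 1` is bijective on
every `M c`.  Then the homology with coefficients in `M` vanishes.
PROOF.  `bar_natTrans` for `F = G = 𝟭`: `barHom (M ζ)` composed with `barPush 𝟭` is homotopic to
`barPush 𝟭`; `barPush 𝟭` is the identity on generators (bijective), so `barHom (M ζ)` acts as the
identity on homology.  But `barHom (M ζ) - id = barHom (M ζ - 1)` is bijective on chains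
(`barHom_bij`: `M ζ - 1` is an isomorphism of coefficient systems), hence on homology, and it is
zero on homology.
-/

namespace C715

open CategoryTheory

variable {C : Type} [SmallCategory C]

private theorem barPush_id (M : Coef C) (n : ℕ) (x : BarX M n) :
    (barPush (𝟭 C) M).f n x = x := by
  have : (barPush (𝟭 C) M).f n = (LinearMap.id : BarX M n →ₗ[ℚ] BarX M n) := by
    refine bar_ext M fun σ y => ?_
    exact bdesc_bof _ _ _ _
  exact LinearMap.congr_fun this x

theorem center_kills (ζ : 𝟭 C ⟶ 𝟭 C) (M : Coef C)
    (h : ∀ c : C, Function.Bijective (fun x : M.M c => M.map (show c ⟶ c from ζ.app c) x - x))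
    (n : ℕ) : Subsingleton ((barC M).H n) := by
  let Z : Coef.Hom M M := Coef.nat ζ M
  let N : Coef.Hom M M :=
    { f := fun c => Z.f c - LinearMap.id
      comm := fun {a b} u x => by
        change Z.f b (M.map u x) - M.map u x = M.map u (Z.f a x - x)
        rw [map_sub, Z.comm] }
  have hN := barHom_bij N h
  have hq := qis_of_bij (barHom N) hN n
  have hsub : ∀ (m : ℕ) (x : BarX M m), (barHom N).f m x = (barHom Z).f m x - x := by
    intro m x
    induction x using bar_ind with
    | h0 => rw [map_zero, map_zero, sub_zero]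
    | h1 σ y =>
      have h1 : (barHom N).f m (bof M σ y) = bof M σ (N.f _ y) := bdesc_bof _ _ _ _
      have h2 : (barHom Z).f m (bof M σ y) = bof M σ (Z.f _ y) := bdesc_bof _ _ _ _
      rw [h1, h2, ← map_sub]
      rfl
    | h2 x y hx hy => rw [map_add, map_add, hx, hy]; abel
  have hz : ∀ y : (barC M).H n, (barHom N).H n y = 0 := by
    intro y
    induction y using Cx.H_ind with
    | h x hx =>
      have e := LinearMap.congr_fun ((bar_natTrans ζ M).H_eq n) ((barC M).cls n x hx)
      have e2 : (barC M).cls n ((barPush (𝟭 C) M).f n ((barHom Z).f n x))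
          ((barPush (𝟭 C) M).map_Z n ((barHom Z).map_Z n hx)) =
        (barC M).cls n ((barPush (𝟭 C) M).f n x) ((barPush (𝟭 C) M).map_Z n hx) := e
      rw [Cx.cls_eq, barPush_id, barPush_id, ← hsub] at e2
      exact Cx.cls_eq_zero.2 e2
  refine ⟨fun a b => ?_⟩
  exact hq.1 ((hz a).trans (hz b).symm)

end C715
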