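import Pool.Agent.Work.MP_c71557_gt.H.Devis
import Pool.Agent.Work.MP_c71557_gt.H.Prism
import Pool.Agent.Work.MP_c71557_gt.H.ActEl
import Pool.Agent.Work.MP_c71557_gt.H.H1

set_option autoImplicit false

/-!
# MP_c71557_gt, module H/Cyc: homology of an infinite cyclic group (M)

`M = ⟨t⟩` infinite cyclic acts on `X = ℤ`, `t^k · x = x + k`.  Exact sequence of coefficient systems
on `sg M`: `0 → ℚ[X] →(1 - τ) ℚ[X] → ℚ → 0`, `τ` translation by `1`.  `barC (free X) ≅ NC (E)`,
`E` the category of elements (one arrow between any two objects: acyclic,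
`acy_of_initial`).  `τ` acts as the identity on `H_0(E) = ℚ`.  Long exact sequence:
`H_{n+2}(M) = 0`, `H_1(M) ≅ H_0(E) = ℚ`.  The class `lp t` generates `H_1` (`lp_span`,
`lp_comp`), and is nonzero by `lp_char` for `χ(t^k) = k`; so the isomorphism may also be obtained
from this.
-/

namespace C715

open CategoryTheory

namespace ActCat

variable {Γ : Type} [Group Γ]

/-- left multiplication -/
private def lmul (K : Subgroup Γ) (g : Γ) (hg : g ∈ K) (x : K) : K := ⟨g * x.1, K.mul_mem hg x.2⟩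

/-- the regular representation -/
private def regS (K : Subgroup Γ) : ActSet (sg K) where
  X _ := K
  act {_ _ g} hg x := lmul K g hg x
  act_one _ x := Subtype.ext (one_mul x.1)
  act_mul {_ _ _ g h} _ _ x := Subtype.ext (mul_assoc h g x.1)
  act_n {_ n} hn x := by
    have hn' : n ∈ (⊥ : Subgroup Γ) := hn
    rw [Subgroup.mem_bot] at hn'
    subst hn'
    exact Subtype.ext (one_mul x.1)

private theorem reg_acy (K : Subgroup Γ) : Acy (regS K).toF.Elements := by
  refine acy_of_initial ⟨⟨()⟩, (1 : K)⟩ ?_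
  rintro ⟨⟨⟨⟩⟩, y⟩
  have hy : y.1 ∈ K := y.2
  refine ⟨⟨(sg K).hom (a := ()) (b := ()) y.1 hy, ?_⟩, trivial, ?_⟩
  · change lmul K y.1 hy (1 : K) = y
    refine Subtype.ext ?_
    change y.1 * 1 = y.1
    rw [mul_one]
  · rintro ⟨f, hf⟩ _
    obtain ⟨g, hg, rfl⟩ := hom_surj f
    refine Subtype.ext ?_
    change lmul K g hg (1 : K) = y at hf
    have h1 : g * 1 = y.1 := congrArg Subtype.val hf
    rw [mul_one] at h1
    have h2 : g⁻¹ * y.1 ∈ (⊥ : Subgroup Γ) := by
      rw [h1, inv_mul_cancel, Subgroup.mem_bot]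
    exact (hom_eq (A := sg K) (a := ()) (b := ()) (h := hg) (h' := hy)).2 h2

private theorem reg_H (K : Subgroup Γ) (n : ℕ) :
    Subsingleton ((barC (Coef.free (regS K).toF)).H (n + 1)) := by
  have h1 := (reg_acy K).2.2 n
  exact ((qis_of_bij _ (freeIso_bij (regS K).toF) (n + 1)).2).subsingleton

/-- `NC C ≅ barC (const C ℚ)` -/
private noncomputable def nI (C : Type) [SmallCategory C] :
    Cx.Hom (NC C) (barC (Coef.const C ℚ)) where
  f n := Finsupp.lsum ℚ (fun σ : Sx C n => bof (Coef.const C ℚ) σ)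
  comm n x := by
    have : (Finsupp.lsum ℚ (fun σ : Sx C n => bof (Coef.const C ℚ) σ)).comp ((NC C).d n) =
        ((barC (Coef.const C ℚ)).d n).comp
          (Finsupp.lsum ℚ (fun σ : Sx C (n + 1) => bof (Coef.const C ℚ) σ)) := by
      refine Finsupp.lhom_ext fun σ a => ?_
      rw [LinearMap.comp_apply, LinearMap.comp_apply, NC_d_single, map_sum, Finsupp.lsum_single]
      change _ = (barS (Coef.const C ℚ)).alt n _
      rw [SMod.alt_apply]
      refine Finset.sum_congr rfl fun i _ => ?_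
      rw [map_smul, Finsupp.lsum_single]
      congr 1
      exact (barMap_bof _ _ _ _).symm
    exact LinearMap.congr_fun this x

private theorem nI_single {C : Type} [SmallCategory C] {n : ℕ} (σ : Sx C n) (a : ℚ) :
    (nI C).f n (Finsupp.single σ a) = bof (Coef.const C ℚ) σ a := Finsupp.lsum_single _ _ _ _

private theorem nI_bij {C : Type} [SmallCategory C] (n : ℕ) :
    Function.Bijective ((nI C).f n) := by
  let g : BarX (Coef.const C ℚ) n →ₗ[ℚ] (Sx C n →₀ ℚ) :=
    bdesc (Coef.const C ℚ) fun σ => Finsupp.lsingle σ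
  have h1 : g.comp ((nI C).f n) = LinearMap.id := by
    refine Finsupp.lhom_ext fun σ a => ?_
    rw [LinearMap.comp_apply, nI_single]
    exact bdesc_bof _ _ _ _
  have h2 : ((nI C).f n).comp g = LinearMap.id := by
    refine bar_ext (Coef.const C ℚ) fun σ a => ?_
    change (nI C).f n (g (bof (Coef.const C ℚ) σ a)) = _
    have h3 : g (bof (Coef.const C ℚ) σ a) = Finsupp.single σ a := bdesc_bof _ _ _ _
    rw [h3, nI_single]
    rfl
  exact ⟨Function.LeftInverse.injective (g := g) fun x => LinearMap.congr_fun h1 x,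
    Function.RightInverse.surjective (g := g) fun x => LinearMap.congr_fun h2 x⟩

private theorem md_sub {X : Type} (f g : X → X) (h : ∀ z, g (f z) = f (g z)) (x : X →₀ ℚ) :
    Finsupp.mapDomain f x - Finsupp.mapDomain g (Finsupp.mapDomain f x) =
      Finsupp.mapDomain f (x - Finsupp.mapDomain g x) := by
  have h1 : Finsupp.mapDomain f (x - Finsupp.mapDomain g x) =
      Finsupp.mapDomain f x - Finsupp.mapDomain f (Finsupp.mapDomain g x) :=
    map_sub (Finsupp.lmapDomain ℚ ℚ f) x _
  rw [h1, ← Finsupp.mapDomain_comp, ← Finsupp.mapDomain_comp]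
  congr 2
  exact funext h

private theorem lc_md {X : Type} (f : X → X) (x : X →₀ ℚ) :
    Finsupp.linearCombination ℚ (fun _ : X => (1 : ℚ)) (Finsupp.mapDomain f x) =
      Finsupp.linearCombination ℚ (fun _ : X => (1 : ℚ)) x := by
  rw [Finsupp.linearCombination_mapDomain]
  rfl

private theorem lc_sub {X : Type} (f : X → X) (x : X →₀ ℚ) :
    Finsupp.linearCombination ℚ (fun _ : X => (1 : ℚ)) (x - Finsupp.mapDomain f x) = 0 := by
  rw [map_sub, lc_md, sub_self]

private theorem lc_single {X : Type} (z : X) (y : ℚ) :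
    Finsupp.linearCombination ℚ (fun _ : X => (1 : ℚ)) (Finsupp.single z y) = y := by
  rw [Finsupp.linearCombination_single, smul_eq_mul, mul_one]

/-- right multiplication by the generator -/
private def rmul (t : Γ) (x : Subgroup.zpowers t) : Subgroup.zpowers t :=
  x * ⟨t, Subgroup.mem_zpowers t⟩

/-- `1 - τ` on a vector space -/
private noncomputable def dV (t : Γ) :
    (Subgroup.zpowers t →₀ ℚ) →ₗ[ℚ] (Subgroup.zpowers t →₀ ℚ) :=
  LinearMap.id - Finsupp.lmapDomain ℚ ℚ (rmul t)

private theorem dV_apply (t : Γ) (x : Subgroup.zpowers t →₀ ℚ) :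
    dV t x = x - Finsupp.mapDomain (rmul t) x := rfl

/-- the augmentation -/
private noncomputable def eV (t : Γ) : (Subgroup.zpowers t →₀ ℚ) →ₗ[ℚ] ℚ :=
  Finsupp.linearCombination ℚ (fun _ : Subgroup.zpowers t => (1 : ℚ))

private theorem dV_comm (t : Γ) (g : Γ) (hg : g ∈ Subgroup.zpowers t)
    (x : Subgroup.zpowers t →₀ ℚ) :
    dV t (Finsupp.lmapDomain ℚ ℚ (lmul _ g hg) x) = Finsupp.lmapDomain ℚ ℚ (lmul _ g hg) (dV t x) := by
  rw [dV_apply, dV_apply]
  refine md_sub (lmul _ g hg) (rmul t) (fun z => Subtype.ext ?_) x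
  exact mul_assoc g z.1 t

private theorem eV_comm (t : Γ) (g : Γ) (hg : g ∈ Subgroup.zpowers t)
    (x : Subgroup.zpowers t →₀ ℚ) :
    eV t (Finsupp.lmapDomain ℚ ℚ (lmul _ g hg) x) = eV t x := lc_md _ _

/-- `1 - τ` -/
private noncomputable def dCyc (t : Γ) :
    Coef.Hom (Coef.free (regS (Subgroup.zpowers t)).toF)
      (Coef.free (regS (Subgroup.zpowers t)).toF) where
  f _ := dV t
  comm {a b} u x := by
    induction u using ActCat.ind with
    | h g hg => exact dV_comm t g hg x

/-- the augmentation -/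
private noncomputable def eCyc (t : Γ) :
    Coef.Hom (Coef.free (regS (Subgroup.zpowers t)).toF)
      (Coef.const (sg (Subgroup.zpowers t)).Obj ℚ) where
  f _ := eV t
  comm {a b} u x := by
    induction u using ActCat.ind with
    | h g hg => exact eV_comm t g hg x

private theorem cyc_inj (t : Γ) (ht : ∀ k : ℤ, t ^ k = 1 → k = 0)
    (x : Subgroup.zpowers t →₀ ℚ) (hx : dV t x = 0) : x = 0 := by
  rw [dV_apply] at hx
  have hinj : Function.Injective (rmul t) := mul_left_injective _
  have h1 : ∀ h : Subgroup.zpowers t, x (rmul t h) = x h := by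
    intro h
    have e := congrArg (fun z => z (rmul t h)) (sub_eq_zero.1 hx)
    have e2 : Finsupp.mapDomain (rmul t) x (rmul t h) = x h := Finsupp.mapDomain_apply hinj x h
    exact (show x (rmul t h) = _ from e).trans e2
  have h2 : ∀ (h : Subgroup.zpowers t) (k : ℤ),
      x (h * (⟨t, Subgroup.mem_zpowers t⟩ : Subgroup.zpowers t) ^ k) = x h := by
    intro h k
    induction k using Int.induction_on with
    | zero => rw [zpow_zero, mul_one]
    | succ i ih =>
      rw [zpow_add_one, ← mul_assoc]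
      exact (h1 _).trans ih
    | pred i ih =>
      rw [← ih, ← h1 (h * _ ^ (-(i : ℤ) - 1))]
      unfold rmul
      rw [mul_assoc, ← zpow_add_one, sub_add_cancel]
  by_contra hne
  obtain ⟨h, hh⟩ := Finsupp.ne_iff.1 hne
  have h3 : ∀ k : ℤ, h * (⟨t, Subgroup.mem_zpowers t⟩ : Subgroup.zpowers t) ^ k ∈ x.support :=
    fun k => by
      rw [Finsupp.mem_support_iff, h2]
      exact hh
  have h4 : Function.Injective
      (fun k : ℤ => h * (⟨t, Subgroup.mem_zpowers t⟩ : Subgroup.zpowers t) ^ k) := by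
    intro k l hkl
    have h5 := mul_left_cancel hkl
    have h6 : t ^ (k - l) = 1 := by
      have h7 : t ^ k = t ^ l := congrArg Subtype.val h5
      rw [zpow_sub, h7, mul_inv_cancel]
    exact sub_eq_zero.1 (ht _ h6)
  exact Set.infinite_of_injective_forall_mem h4 (s := (x.support : Set (Subgroup.zpowers t)))
    (fun k => h3 k) x.support.finite_toSet

private theorem cyc_exact (t : Γ) (x : Subgroup.zpowers t →₀ ℚ) :
    x - Finsupp.single 1 (eV t x) ∈ LinearMap.range (dV t) := by
  have hstep : ∀ (h : Subgroup.zpowers t) (a : ℚ),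
      Finsupp.single h a - Finsupp.single (rmul t h) a ∈ LinearMap.range (dV t) := by
    intro h a
    refine ⟨Finsupp.single h a, ?_⟩
    rw [dV_apply, Finsupp.mapDomain_single]
  have hk : ∀ (k : ℤ) (a : ℚ), Finsupp.single
      ((⟨t, Subgroup.mem_zpowers t⟩ : Subgroup.zpowers t) ^ k) a - Finsupp.single 1 a ∈
      LinearMap.range (dV t) := by
    intro k a
    induction k using Int.induction_on with
    | zero => rw [zpow_zero, sub_self]; exact Submodule.zero_mem _
    | succ i ih =>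
      have := Submodule.sub_mem _ ih
        (hstep ((⟨t, Subgroup.mem_zpowers t⟩ : Subgroup.zpowers t) ^ (i : ℤ)) a)
      unfold rmul at this
      rw [← zpow_add_one, sub_sub_sub_cancel_left] at this
      exact this
    | pred i ih =>
      have := Submodule.add_mem _ ih
        (hstep ((⟨t, Subgroup.mem_zpowers t⟩ : Subgroup.zpowers t) ^ (-(i : ℤ) - 1)) a)
      unfold rmul at this
      rw [← zpow_add_one, sub_add_cancel, add_comm, sub_add_sub_cancel] at this
      exact this
  induction x using Finsupp.induction_linear with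
  | zero => rw [map_zero, Finsupp.single_zero, sub_zero]; exact Submodule.zero_mem _
  | add x y hx hy =>
    have := Submodule.add_mem _ hx hy
    rw [map_add, Finsupp.single_add, add_sub_add_comm]
    exact this
  | single h a =>
    have h1 : eV t (Finsupp.single h a) = a := lc_single _ _
    rw [h1]
    obtain ⟨h, k, rfl⟩ := h
    exact hk k a

private theorem cyc_exact' (t : Γ) (x : Subgroup.zpowers t →₀ ℚ) (h2 : eV t x = 0) :
    x ∈ LinearMap.range (dV t) := by
  have h1 := cyc_exact t x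
  rwa [h2, Finsupp.single_zero, sub_zero] at h1

private theorem cyc_SES (t : Γ) (ht : ∀ k : ℤ, t ^ k = 1 → k = 0) :
    Cx.SES (barHom (dCyc t)) (barHom (eCyc t)) := by
  refine bar_SES _ _ (fun c => ?_) (fun c x => ?_) (fun c y => ?_)
  · rw [injective_iff_map_eq_zero]
    intro x hx
    exact cyc_inj t ht x hx
  · constructor
    · intro hx
      exact cyc_exact' t x hx
    · rintro ⟨y, rfl⟩
      exact lc_sub (X := Subgroup.zpowers t) _ y
  · exact ⟨Finsupp.single (1 : Subgroup.zpowers t) y, lc_single (X := Subgroup.zpowers t) _ _⟩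

private theorem cyc_two (t : Γ) (ht : ∀ k : ℤ, t ^ k = 1 → k = 0) (n : ℕ) :
    Subsingleton (HC (sg (Subgroup.zpowers t)).Obj (n + 2)) := by
  have hs := cyc_SES t ht
  have h1 : Subsingleton ((barC (Coef.const (sg (Subgroup.zpowers t)).Obj ℚ)).H (n + 2)) := by
    refine subsingleton_of_forall_eq 0 fun y => ?_
    have hA := reg_H (Subgroup.zpowers t) n
    have hB := reg_H (Subgroup.zpowers t) (n + 1)
    obtain ⟨x, rfl⟩ := (Cx.exact_right hs (n + 1) y).1 (hA.elim _ _)
    rw [hB.elim x 0, map_zero]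
  exact ((qis_of_bij _ nI_bij (n + 2)).1).subsingleton

theorem cyc_H (t : Γ) (ht : ∀ k : ℤ, t ^ k = 1 → k = 0) :
    Nonempty (HC (sg (Subgroup.zpowers t)).Obj 1 ≃ₗ[ℚ] ℚ) ∧
      ∀ n, Subsingleton (HC (sg (Subgroup.zpowers t)).Obj (n + 2)) := by
  refine ⟨?_, cyc_two t ht⟩
  classical
  have hsub : Subsingleton (sg (Subgroup.zpowers t)).Ob :=
    ⟨fun _ _ => Subsingleton.elim (α := Unit) _ _⟩
  have hT : t ∈ Subgroup.zpowers t := Subgroup.mem_zpowers t
  -- the character
  let e : ∀ g : Γ, g ∈ Subgroup.zpowers t → ℤ := fun g hg => (Subgroup.mem_zpowers_iff.1 hg).choose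
  have he : ∀ g hg, t ^ (e g hg) = g := fun g hg => (Subgroup.mem_zpowers_iff.1 hg).choose_spec
  have huniq : ∀ k l : ℤ, t ^ k = t ^ l → k = l := by
    intro k l h
    exact sub_eq_zero.1 (ht _ (by rw [zpow_sub, h, mul_inv_cancel]))
  have hadd : ∀ (f g : Γ) (hf : f ∈ Subgroup.zpowers t) (hg : g ∈ Subgroup.zpowers t)
      (hgf : g * f ∈ Subgroup.zpowers t), ((e (g * f) hgf : ℤ) : ℚ) =
        ((e f hf : ℤ) : ℚ) + ((e g hg : ℤ) : ℚ) := by
    intro f g hf hg hgf
    rw [← Int.cast_add]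
    congr 1
    refine huniq _ _ ?_
    rw [he (g * f) hgf, add_comm, zpow_add, he g hg, he f hf]
  let χ : ∀ {a b : (sg (Subgroup.zpowers t)).Obj}, (a ⟶ b) → ℚ := fun {a b} f =>
    Quotient.lift (fun g : {g : Γ // g ∈ Subgroup.zpowers t} => ((e g.1 g.2 : ℤ) : ℚ)) (by
      rintro ⟨g, hg⟩ ⟨g', hg'⟩ (h : g⁻¹ * g' ∈ (⊥ : Subgroup Γ))
      rw [Subgroup.mem_bot, inv_mul_eq_one] at h
      subst h
      rfl) f
  have hχ : ∀ {a b c : (sg (Subgroup.zpowers t)).Obj} (f : a ⟶ b) (g : b ⟶ c),
      χ (f ≫ g) = χ f + χ g := by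
    intro a b c f g
    obtain ⟨f, hf, rfl⟩ := hom_surj f
    obtain ⟨g, hg, rfl⟩ := hom_surj g
    exact hadd f g hf hg (mul_mem hg hf)
  obtain ⟨l, hl⟩ := lp_char ℚ χ hχ
  let P : ∀ g : Γ, g ∈ Subgroup.zpowers t → HC (sg (Subgroup.zpowers t)).Obj 1 := fun g hg =>
    lp ((sg (Subgroup.zpowers t)).hom (a := ()) (b := ()) g hg)
  have hP : ∀ g hg g' hg', g = g' → P g hg = P g' hg' := by
    intro g hg g' hg' e
    subst e
    rfl
  have hPmul : ∀ (f g : Γ) (hf : f ∈ Subgroup.zpowers t) (hg : g ∈ Subgroup.zpowers t)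
      (hgf : g * f ∈ Subgroup.zpowers t), P (g * f) hgf = P f hf + P g hg := by
    intro f g hf hg hgf
    exact lp_comp ((sg (Subgroup.zpowers t)).hom (a := ()) (b := ()) f hf)
      ((sg (Subgroup.zpowers t)).hom (a := ()) (b := ()) g hg)
  have hlP : ∀ g hg, l (P g hg) = ((e g hg : ℤ) : ℚ) := fun g hg => hl _ _
  have hlT : l (P t hT) = 1 := by
    rw [hlP]
    have : e t hT = 1 := huniq _ _ (by rw [he t hT, zpow_one])
    rw [this, Int.cast_one]
  have hPdef : ∀ g (hg : g ∈ Subgroup.zpowers t),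
      lp ((sg (Subgroup.zpowers t)).hom (a := ()) (b := ()) g hg) = P g hg := fun g hg => rfl
  clear_value P
  -- every class of a loop is a multiple of `P t`
  have hone : ∀ h1 : (1 : Γ) ∈ Subgroup.zpowers t, P 1 h1 = 0 := by
    intro h1
    have h2 := hPmul 1 1 h1 h1 (by rw [mul_one]; exact h1)
    rw [hP (1 * 1) _ 1 h1 (mul_one 1)] at h2
    exact left_eq_add.1 h2
  have hk : ∀ (k : ℤ) (h : t ^ k ∈ Subgroup.zpowers t), P (t ^ k) h = (k : ℚ) • P t hT := by
    intro k
    induction k using Int.induction_on with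
    | zero =>
      intro h
      rw [hP _ h 1 (one_mem _) (zpow_zero t), hone, Int.cast_zero, zero_smul]
    | succ i ih =>
      intro h
      have hi : t ^ (i : ℤ) ∈ Subgroup.zpowers t := Subgroup.zpow_mem _ hT _
      have h2 := hPmul (t ^ (i : ℤ)) t hi hT (mul_mem hT hi)
      rw [ih hi] at h2
      rw [hP _ h (t * t ^ (i : ℤ)) (mul_mem hT hi) (by
        rw [zpow_add_one, (Commute.zpow_self t (i : ℤ)).eq]), h2]
      push_cast
      rw [add_smul, one_smul]
    | pred i ih =>
      intro h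
      have hi : t ^ (-(i : ℤ)) ∈ Subgroup.zpowers t := Subgroup.zpow_mem _ hT _
      have h2 := hPmul (t ^ (-(i : ℤ) - 1)) t h hT (mul_mem hT h)
      rw [hP (t * t ^ (-(i : ℤ) - 1)) (mul_mem hT h) (t ^ (-(i : ℤ))) hi (by
        rw [← (Commute.zpow_self t (-(i : ℤ) - 1)).eq, ← zpow_add_one, sub_add_cancel]),
        ih hi] at h2
      have h3 : P (t ^ (-(i : ℤ) - 1)) h = ((-(i : ℤ) : ℤ) : ℚ) • P t hT - P t hT :=
        eq_sub_of_add_eq h2.symm
      rw [h3]
      push_cast
      rw [sub_smul, one_smul]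
  have hall : ∀ y : HC (sg (Subgroup.zpowers t)).Obj 1, ∃ c : ℚ, y = c • P t hT := by
    intro y
    have h1 := lp_span (sg (Subgroup.zpowers t)) ()
    have h3 := Submodule.mem_top (x := y) (R := ℚ)
    rw [← h1] at h3
    induction h3 using Submodule.span_induction with
    | mem x hx =>
      obtain ⟨g, hg, rfl⟩ := hx
      obtain ⟨k, rfl⟩ := Subgroup.mem_zpowers_iff.1 (show g ∈ Subgroup.zpowers t from hg)
      exact ⟨k, (hPdef _ hg).trans (hk k hg)⟩
    | zero => exact ⟨0, (zero_smul _ _).symm⟩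
    | add x y _ _ hx hy =>
      obtain ⟨c, rfl⟩ := hx
      obtain ⟨d, rfl⟩ := hy
      exact ⟨c + d, (add_smul _ _ _).symm⟩
    | smul r x _ hx =>
      obtain ⟨c, rfl⟩ := hx
      exact ⟨r * c, (mul_smul _ _ _).symm⟩
  refine ⟨LinearEquiv.ofBijective l ⟨?_, ?_⟩⟩
  · rw [injective_iff_map_eq_zero]
    intro y hy
    obtain ⟨c, rfl⟩ := hall y
    rw [map_smul, hlT, smul_eq_mul, mul_one] at hy
    rw [hy, zero_smul]
  · intro q
    exact ⟨q • P t hT, by rw [map_smul, hlT, smul_eq_mul, mul_one]⟩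

end ActCat
end C715
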