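import Pool.Agent.Work.MP_c71557_gt.H.Nerve

set_option autoImplicit false
set_option linter.unusedVariables false

/-!
# MP_c71557_gt, block H: double complexes, complexes of coefficient systems
-/

namespace C715

open CategoryTheory

/-- first quadrant double complexes, with commuting differentials -/
structure DCx where
  X : ℕ → ℕ → Type
  [ac : ∀ p q, AddCommGroup (X p q)]
  [mo : ∀ p q, Module ℚ (X p q)]
  dh : ∀ p q, X (p + 1) q →ₗ[ℚ] X p q
  dv : ∀ p q, X p (q + 1) →ₗ[ℚ] X p q
  hh : ∀ p q (x : X (p + 2) q), dh p q (dh (p + 1) q x) = 0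
  vv : ∀ p q (x : X p (q + 2)), dv p q (dv p (q + 1) x) = 0
  hv : ∀ p q (x : X (p + 1) (q + 1)), dh p q (dv (p + 1) q x) = dv p q (dh p (q + 1) x)

attribute [instance] DCx.ac DCx.mo

namespace DCx

variable (K : DCx)

/-- families concentrated on the antidiagonal `p + q = n` -/
def totX (n : ℕ) : Submodule ℚ ((p : ℕ) → (q : ℕ) → K.X p q) where
  carrier := {a | ∀ p q, p + q ≠ n → a p q = 0}
  add_mem' {a b} ha hb p q h := by
    change a p q + b p q = 0
    rw [ha p q h, hb p q h, add_zero]
  zero_mem' p q _ := rfl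
  smul_mem' c a ha p q h := by
    change c • a p q = 0
    rw [ha p q h, smul_zero]

/-- total differential on families -/
def totd : ((p : ℕ) → (q : ℕ) → K.X p q) →ₗ[ℚ] ((p : ℕ) → (q : ℕ) → K.X p q) where
  toFun a p q := K.dh p q (a (p + 1) q) + ((-1 : ℚ) ^ p) • K.dv p q (a p (q + 1))
  map_add' a b := by
    funext p q
    simp only [Pi.add_apply, map_add, smul_add]
    abel
  map_smul' c a := by
    funext p q
    simp only [Pi.smul_apply, map_smul, smul_add, RingHom.id_apply]
    rw [smul_comm]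

theorem totd_apply (a : (p : ℕ) → (q : ℕ) → K.X p q) (p q : ℕ) :
    K.totd a p q = K.dh p q (a (p + 1) q) + ((-1 : ℚ) ^ p) • K.dv p q (a p (q + 1)) := rfl

theorem totd_totd (a : (p : ℕ) → (q : ℕ) → K.X p q) : K.totd (K.totd a) = 0 := by
  funext p q
  simp only [totd_apply, map_add, map_smul, K.hh, K.vv, K.hv, smul_zero, add_zero, zero_add,
    Pi.zero_apply, pow_succ]
  module

theorem totd_mem {n : ℕ} {a : (p : ℕ) → (q : ℕ) → K.X p q} (ha : a ∈ K.totX (n + 1)) :
    K.totd a ∈ K.totX n := by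
  intro p q h
  rw [totd_apply, ha (p + 1) q (by omega), ha p (q + 1) (by omega)]
  simp

/-- total complex -/
def Tot : Cx where
  X n := K.totX n
  d n := K.totd.restrict fun a ha => K.totd_mem ha
  dd n x := Subtype.ext (K.totd_totd x.1)

/-- rows -/
abbrev row (q : ℕ) : Cx where
  X p := K.X p q
  d p := K.dh p q
  dd p x := K.hh p q x

/-- columns -/
abbrev col (p : ℕ) : Cx where
  X q := K.X p q
  d q := K.dv p q
  dd q x := K.vv p q x

/-- the horizontal differential as a chain map of columns -/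
abbrev colMap (p : ℕ) : Cx.Hom (K.col (p + 1)) (K.col p) where
  f q := K.dh p q
  comm q x := K.hv p q x

theorem E1_dd (p q : ℕ) (x : (K.col (p + 2)).H q) :
    (K.colMap p).H q ((K.colMap (p + 1)).H q x) = 0 := by
  obtain ⟨⟨x, hx⟩, rfl⟩ := Submodule.Quotient.mk_surjective _ x
  change Submodule.Quotient.mk _ = _
  rw [Submodule.Quotient.mk_eq_zero]
  have h : K.dh p q (K.dh (p + 1) q x) = 0 := K.hh p q x
  change K.dh p q (K.dh (p + 1) q x) ∈ (K.col p).Bd q
  rw [h]
  exact Submodule.zero_mem _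

/-- the `q`-th line of the `E¹` page: `p ↦ H_q` of the `p`-th column -/
noncomputable abbrev E1 (q : ℕ) : Cx where
  X p := (K.col p).H q
  d p := (K.colMap p).H q
  dd p x := K.E1_dd p q x

/-- morphisms of double complexes -/
@[ext] structure Hom (K L : DCx) where
  f : ∀ p q, K.X p q →ₗ[ℚ] L.X p q
  hcomm : ∀ p q (x : K.X (p + 1) q), f p q (K.dh p q x) = L.dh p q (f (p + 1) q x)
  vcomm : ∀ p q (x : K.X p (q + 1)), f p q (K.dv p q x) = L.dv p q (f p (q + 1) x)

/-- induced map of total complexes -/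
def Hom.tot {K L : DCx} (g : Hom K L) : Cx.Hom K.Tot L.Tot where
  f n := LinearMap.restrict (LinearMap.pi fun p => LinearMap.pi fun q =>
      (g.f p q).comp ((LinearMap.proj q).comp (LinearMap.proj p))) (fun a ha p q h => by
        change g.f p q (a p q) = 0
        rw [ha p q h, map_zero])
  comm n x := by
    refine Subtype.ext (funext fun p => funext fun q => ?_)
    change g.f p q (K.dh p q (x.1 (p + 1) q) + ((-1 : ℚ) ^ p) • K.dv p q (x.1 p (q + 1))) =
      L.dh p q (g.f (p + 1) q (x.1 (p + 1) q)) + ((-1 : ℚ) ^ p) •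
        L.dv p q (g.f p (q + 1) (x.1 p (q + 1)))
    rw [map_add, map_smul, g.hcomm, g.vcomm]

/-- an augmentation of the rows: `K_{0,q} → A_q` -/
structure RowAug (K : DCx) (A : Cx) where
  e : ∀ q, K.X 0 q →ₗ[ℚ] A.X q
  comm : ∀ q (x : K.X 0 (q + 1)), e q (K.dv 0 q x) = A.d q (e (q + 1) x)
  zero : ∀ q (x : K.X 1 q), e q (K.dh 0 q x) = 0

/-- the induced map `Tot K → A` -/
def RowAug.hom {K : DCx} {A : Cx} (r : RowAug K A) : Cx.Hom K.Tot A where
  f n := (r.e n).comp ((LinearMap.proj n).comp ((LinearMap.proj 0).comp (K.totX n).subtype))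
  comm n x := by
    change r.e n (K.dh 0 n (x.1 1 n) + ((-1 : ℚ) ^ 0) • K.dv 0 n (x.1 0 (n + 1))) =
      A.d n (r.e (n + 1) (x.1 0 (n + 1)))
    rw [map_add, r.zero, pow_zero, one_smul, zero_add, r.comm]

/-- an augmentation of the columns: `K_{p,0} → A_p` -/
structure ColAug (K : DCx) (A : Cx) where
  e : ∀ p, K.X p 0 →ₗ[ℚ] A.X p
  comm : ∀ p (x : K.X (p + 1) 0), e p (K.dh p 0 x) = A.d p (e (p + 1) x)
  zero : ∀ p (x : K.X p 1), e p (K.dv p 0 x) = 0

/-- the induced map `Tot K → A` -/
def ColAug.hom {K : DCx} {A : Cx} (r : ColAug K A) : Cx.Hom K.Tot A where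
  f n := (r.e n).comp ((LinearMap.proj 0).comp ((LinearMap.proj n).comp (K.totX n).subtype))
  comm n x := by
    change r.e n (K.dh n 0 (x.1 (n + 1) 0) + ((-1 : ℚ) ^ n) • K.dv n 0 (x.1 n 1)) =
      A.d n (r.e (n + 1) (x.1 (n + 1) 0))
    rw [map_add, map_smul, r.zero, smul_zero, add_zero, r.comm]

end DCx

/-- complexes of coefficient systems -/
structure CoefCx (C : Type) [SmallCategory C] where
  F : ℕ → Coef C
  d : ∀ q, Coef.Hom (F (q + 1)) (F q)
  dd : ∀ q (c : C) (x : (F (q + 2)).M c), (d q).f c ((d (q + 1)).f c x) = 0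

namespace CoefCx

variable {C : Type} [SmallCategory C] (L : CoefCx C)

/-- value at an object -/
abbrev at' (c : C) : Cx where
  X q := (L.F q).M c
  d q := (L.d q).f c
  dd q x := L.dd q c x

/-- functoriality of the values -/
abbrev mapAt {a b : C} (u : a ⟶ b) : Cx.Hom (L.at' a) (L.at' b) where
  f q := (L.F q).map u
  comm q x := ((L.d q).comm u x).symm

/-- the homology coefficient system `c ↦ H_q (L c)` -/
noncomputable abbrev HF (q : ℕ) : Coef C where
  M c := (L.at' c).H q
  map u := (L.mapAt u).H q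
  map_id a x := by
    obtain ⟨⟨x, hx⟩, rfl⟩ := Submodule.Quotient.mk_surjective _ x
    refine congrArg Submodule.Quotient.mk (Subtype.ext ?_)
    exact (L.F q).map_id a x
  map_comp u v x := by
    obtain ⟨⟨x, hx⟩, rfl⟩ := Submodule.Quotient.mk_surjective _ x
    refine congrArg Submodule.Quotient.mk (Subtype.ext ?_)
    exact (L.F q).map_comp u v x

/-- the homotopy colimit double complex: `X p q = ⨁_{σ ∈ N_p C} L_q (σ 0)` -/
noncomputable abbrev hoco : DCx where
  X p q := BarX (L.F q) p
  dh p q := (barC (L.F q)).d p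
  dv p q := (barHom (L.d q)).f p
  hh p q x := (barC (L.F q)).dd p x
  vv p q x := by
    induction x using bar_ind with
    | h0 => simp
    | h1 σ y =>
      have h1 : (barHom (L.d (q + 1))).f p (bof (L.F (q + 2)) σ y) =
        bof (L.F (q + 1)) σ ((L.d (q + 1)).f _ y) := bdesc_bof _ _ _ _
      have h2 : (barHom (L.d q)).f p (bof (L.F (q + 1)) σ ((L.d (q + 1)).f _ y)) =
        bof (L.F q) σ ((L.d q).f _ ((L.d (q + 1)).f _ y)) := bdesc_bof _ _ _ _
      rw [h1, h2, L.dd, map_zero]
    | h2 x y hx hy => rw [map_add, map_add, hx, hy, add_zero]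
  hv p q x := ((barHom (L.d q)).comm p x).symm

end CoefCx

section overcat

variable {T B : Type} [SmallCategory T] [SmallCategory B]

/-- `q`-simplices of the category of objects of `T` over `b` -/
@[ext] structure OvS (R : T ⥤ B) (b : B) (q : ℕ) where
  τ : Sx T q
  f : R.obj (τ.o (Fin.last q)) ⟶ b

/-- simplicial structure -/
abbrev OvS.pre {R : T ⥤ B} {b : B} {m n : ℕ} (φ : Fin (m + 1) →o Fin (n + 1)) (x : OvS R b n) :
    OvS R b m where
  τ := C715.pre φ x.τ
  f := R.map (x.τ.m (φ (Fin.last m)) (Fin.last n) (Fin.le_last _)) ≫ x.f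

/-- functoriality in `b` -/
abbrev OvS.push {R : T ⥤ B} {b b' : B} {n : ℕ} (g : b ⟶ b') (x : OvS R b n) : OvS R b' n where
  τ := x.τ
  f := x.f ≫ g

theorem OvS.pre_id {R : T ⥤ B} {b : B} {n : ℕ} (x : OvS R b n) :
    OvS.pre OrderHom.id x = x := by
  cases x with
  | mk τ f =>
    have : τ.m (OrderHom.id (Fin.last n)) (Fin.last n) (Fin.le_last _) = 𝟙 _ := τ.m_self _
    simp only [OvS.pre, OvS.mk.injEq]
    refine ⟨rfl, heq_of_eq ?_⟩
    exact (congrArg (fun u => R.map u ≫ f) this).trans (by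
      change R.map (𝟙 _) ≫ f = f
      rw [R.map_id, Category.id_comp])

theorem OvS.pre_pre {R : T ⥤ B} {b : B} {l m n : ℕ} (φ : Fin (l + 1) →o Fin (m + 1))
    (ψ : Fin (m + 1) →o Fin (n + 1)) (x : OvS R b n) :
    OvS.pre φ (OvS.pre ψ x) = OvS.pre (ψ.comp φ) x := by
  cases x with
  | mk τ f =>
    simp only [OvS.pre, OvS.mk.injEq]
    refine ⟨rfl, heq_of_eq ?_⟩
    change R.map (τ.m (ψ (φ (Fin.last l))) (ψ (Fin.last m)) _) ≫
      R.map (τ.m (ψ (Fin.last m)) (Fin.last n) _) ≫ f =
      R.map (τ.m (ψ (φ (Fin.last l))) (Fin.last n) _) ≫ f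
    rw [← Category.assoc, ← R.map_comp, τ.m_comp]

theorem OvS.pre_push {R : T ⥤ B} {b b' : B} {m n : ℕ} (φ : Fin (m + 1) →o Fin (n + 1))
    (g : b ⟶ b') (x : OvS R b n) : OvS.pre φ (x.push g) = (OvS.pre φ x).push g := by
  cases x with
  | mk τ f =>
    simp only [OvS.pre, OvS.push, OvS.mk.injEq]
    exact ⟨trivial, heq_of_eq (Category.assoc _ _ _).symm⟩

/-- the simplicial module of the category over `b` -/
noncomputable abbrev ovS (R : T ⥤ B) (b : B) : SMod where
  X n := OvS R b n →₀ ℚ
  map φ := Finsupp.lmapDomain ℚ ℚ (OvS.pre φ)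
  map_id x := by
    change Finsupp.mapDomain _ x = x
    rw [show (OvS.pre OrderHom.id : OvS R b _ → OvS R b _) = _root_.id from
      funext fun x => OvS.pre_id x]
    exact Finsupp.mapDomain_id
  map_comp φ ψ x := by
    change Finsupp.mapDomain _ x = Finsupp.mapDomain _ (Finsupp.mapDomain _ x)
    rw [← Finsupp.mapDomain_comp]
    congr 1
    exact funext fun x => (OvS.pre_pre φ ψ x).symm

/-- `b ↦` simplices over `b`, as coefficient systems -/
noncomputable abbrev ovF (R : T ⥤ B) (q : ℕ) : Coef B where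
  M b := OvS R b q →₀ ℚ
  map g := Finsupp.lmapDomain ℚ ℚ (OvS.push g)
  map_id b x := by
    change Finsupp.mapDomain _ x = x
    rw [show (OvS.push (𝟙 b) : OvS R b q → OvS R b q) = _root_.id from
      funext fun x => by cases x; simp [OvS.push]]
    exact Finsupp.mapDomain_id
  map_comp f g x := by
    change Finsupp.mapDomain _ x = Finsupp.mapDomain _ (Finsupp.mapDomain _ x)
    rw [← Finsupp.mapDomain_comp]
    congr 1
    exact funext fun x => by cases x; simp [OvS.push]

/-- the complex of coefficient systems `b ↦ C_*(R / b)` -/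
noncomputable abbrev overL (R : T ⥤ B) : CoefCx B where
  F := ovF R
  d q :=
    { f := fun b => (ovS R b).alt q
      comm := by
        intro a b u x
        rw [SMod.alt_apply, SMod.alt_apply, map_sum]
        refine Finset.sum_congr rfl fun i _ => ?_
        rw [map_smul]
        congr 1
        change Finsupp.mapDomain _ (Finsupp.mapDomain _ (x : OvS R a (q + 1) →₀ ℚ)) =
          Finsupp.mapDomain _ (Finsupp.mapDomain _ (x : OvS R a (q + 1) →₀ ℚ))
        rw [← Finsupp.mapDomain_comp, ← Finsupp.mapDomain_comp]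
        congr 1
        exact funext fun x => OvS.pre_push _ _ x }
  dd q c x := (ovS R c).alt_alt q x

/-- first augmentation: `Tot (hoco (overL R)) → C_*(T)` -/
noncomputable def eps1 (R : T ⥤ B) : DCx.RowAug (overL R).hoco (NC T) where
  e q := bdesc (ovF R q) fun σ => Finsupp.lmapDomain ℚ ℚ (fun x : OvS R (σ.o 0) q => x.τ)
  comm q x := by
    induction x using bar_ind with
    | h0 => simp only [map_zero]
    | h1 σ y =>
      have h1 : (barHom ((overL R).d q)).f 0 (bof (ovF R (q + 1)) σ y) =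
        bof (ovF R q) σ ((ovS R (σ.o 0)).alt q y) := bdesc_bof _ _ _ _
      change bdesc _ _ ((barHom ((overL R).d q)).f 0 (bof (ovF R (q + 1)) σ y)) = _
      rw [h1, bdesc_bof, bdesc_bof, SMod.alt_apply, map_sum]
      change _ = (NS T).alt q _
      rw [SMod.alt_apply]
      refine Finset.sum_congr rfl fun i _ => ?_
      rw [map_smul]
      congr 1
      change Finsupp.mapDomain _ (Finsupp.mapDomain _ (y : OvS R (σ.o 0) (q + 1) →₀ ℚ)) =
        Finsupp.mapDomain _ (Finsupp.mapDomain _ (y : OvS R (σ.o 0) (q + 1) →₀ ℚ))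
      rw [← Finsupp.mapDomain_comp, ← Finsupp.mapDomain_comp]
      rfl
    | h2 x y hx hy => simp only [map_add, hx, hy]
  zero q x := by
    induction x using bar_ind with
    | h0 => simp only [map_zero]
    | h1 σ y =>
      change bdesc _ _ ((barS (ovF R q)).alt 0 (bof (ovF R q) σ y)) = 0
      rw [SMod.alt_apply, Fin.sum_univ_two]
      change bdesc _ _ (_ • barMap _ _ _ + _ • barMap _ _ _) = 0
      rw [barMap_bof, barMap_bof, map_add, map_smul, map_smul, bdesc_bof, bdesc_bof]
      change (_ : ℚ) • Finsupp.mapDomain _ (Finsupp.mapDomain _ (y : OvS R (σ.o 0) q →₀ ℚ)) +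
        (_ : ℚ) • Finsupp.mapDomain _ (Finsupp.mapDomain _ (y : OvS R (σ.o 0) q →₀ ℚ)) = 0
      rw [← Finsupp.mapDomain_comp, ← Finsupp.mapDomain_comp]
      change (_ : ℚ) • Finsupp.mapDomain (fun x : OvS R (σ.o 0) q => x.τ) y +
        (_ : ℚ) • Finsupp.mapDomain (fun x : OvS R (σ.o 0) q => x.τ) y = 0
      rw [← add_smul]
      norm_num
    | h2 x y hx hy => simp only [map_add, hx, hy, add_zero]

/-- second augmentation: `Tot (hoco (overL R)) → C_*(B)` -/
noncomputable def eps2 (R : T ⥤ B) : DCx.ColAug (overL R).hoco (NC B) where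
  e p := bdesc (ovF R 0) fun σ => (Finsupp.lsingle σ).comp
    (Finsupp.linearCombination ℚ (fun _ : OvS R (σ.o 0) 0 => (1 : ℚ)))
  comm p x := by
    induction x using bar_ind with
    | h0 => simp only [map_zero]
    | h1 σ y =>
      change bdesc _ _ ((barS (ovF R 0)).alt p (bof (ovF R 0) σ y)) = (NS B).alt p _
      rw [SMod.alt_apply, SMod.alt_apply, map_sum, bdesc_bof]
      refine Finset.sum_congr rfl fun i _ => ?_
      rw [map_smul]
      congr 1
      change bdesc _ _ (barMap _ _ _) = _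
      rw [barMap_bof, bdesc_bof]
      change Finsupp.single _ (Finsupp.linearCombination ℚ _ (Finsupp.mapDomain _ _)) =
        Finsupp.mapDomain _ (Finsupp.single _ _)
      rw [Finsupp.mapDomain_single, Finsupp.linearCombination_mapDomain]
      rfl
    | h2 x y hx hy => simp only [map_add, hx, hy]
  zero p x := by
    induction x using bar_ind with
    | h0 => simp only [map_zero]
    | h1 σ y =>
      have h1 : (barHom ((overL R).d 0)).f p (bof (ovF R 1) σ y) =
        bof (ovF R 0) σ ((ovS R (σ.o 0)).alt 0 y) := bdesc_bof _ _ _ _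
      change bdesc _ _ ((barHom ((overL R).d 0)).f p (bof (ovF R 1) σ y)) = _
      rw [h1, bdesc_bof, SMod.alt_apply, Fin.sum_univ_two]
      change Finsupp.single _ (Finsupp.linearCombination ℚ _
        ((_ : ℚ) • Finsupp.mapDomain _ _ + (_ : ℚ) • Finsupp.mapDomain _ _)) = 0
      rw [map_add, map_smul, map_smul, Finsupp.linearCombination_mapDomain,
        Finsupp.linearCombination_mapDomain]
      change Finsupp.single σ ((_ : ℚ) • Finsupp.linearCombination ℚ (fun _ => (1 : ℚ)) y +
        (_ : ℚ) • Finsupp.linearCombination ℚ (fun _ => (1 : ℚ)) y) = 0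
      rw [← add_smul]
      norm_num
    | h2 x y hx hy => simp only [map_add, hx, hy, add_zero]

end overcat
end C715
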