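import Pool.Agent.Work.MP_c71557_gt.H.Defs3

set_option autoImplicit false

/-!
# MP_c71557_gt, module H/FG: homology classes come from finitely generated subgroups (S-M)

A simplex of `sg K` is a family of classes modulo `⊥` of elements of `K`; a chain involves finitely
many elements.  Take `K0` generated by them: the chain lifts, and the lift is a cycle because
`σ ↦ σ.push (sgIncl h)` is injective.  For `fg_zero` add the elements occurring in a chain `w` with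
`d w = ` the image of a cycle representing `x`.
-/

namespace C715

open CategoryTheory

namespace ActCat

variable {Γ : Type} [Group Γ]

private theorem sgIncl_faithful {K0 K : Subgroup Γ} (h : K0 ≤ K) {x y : (sg K0).Obj} (f g : x ⟶ y)
    (e : (sgIncl h).map f = (sgIncl h).map g) : f = g := by
  obtain ⟨a, ha, rfl⟩ := hom_surj f
  obtain ⟨b, hb, rfl⟩ := hom_surj g
  have e' : (sg K).hom (a := ()) (b := ()) a (h ha) = (sg K).hom (a := ()) (b := ()) b (h hb) := e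
  have e2 := (hom_eq (A := sg K)).1 e'
  exact (hom_eq (A := sg K0)).2 e2

private theorem sx_cases {K : Subgroup Γ} {n : ℕ} (σ : Sx (sg K).Obj n) :
    ∃ (g : ∀ i j : Fin (n + 1), i ≤ j → Γ) (hg : ∀ i j hij, g i j hij ∈ K) (h1 : _) (h2 : _),
      σ = ⟨fun _ => ⟨()⟩, fun i j hij =>
        (sg K).hom (a := ()) (b := ()) (g i j hij) (hg i j hij), h1, h2⟩ := by
  obtain ⟨o, m, h1, h2⟩ := σ
  obtain rfl : o = fun _ => ⟨()⟩ := funext fun i => rfl
  have h0 : ∀ i j hij, ∃ g, ∃ hg : g ∈ K,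
      m i j hij = (sg K).hom (a := ()) (b := ()) g hg := fun i j hij =>
    hom_surj (A := sg K) (x := ⟨()⟩) (y := ⟨()⟩) (m i j hij)
  choose g hg e using h0
  obtain rfl : m = _ := funext fun i => funext fun j => funext fun hij => e i j hij
  exact ⟨g, hg, h1, h2, rfl⟩

private theorem push_inj {K0 K : Subgroup Γ} (h : K0 ≤ K) (n : ℕ) :
    Function.Injective (fun σ : Sx (sg K0).Obj n => σ.push (sgIncl h)) := by
  intro σ τ e
  obtain ⟨g, hg, h1, h2, rfl⟩ := sx_cases σ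
  obtain ⟨k, hk, h3, h4, rfl⟩ := sx_cases τ
  have e2 := eq_of_heq (Sx.ext_iff.1 e).2
  refine Sx.ext rfl (heq_of_eq ?_)
  funext i j hij
  exact sgIncl_faithful h _ _ (congrFun (congrFun (congrFun e2 i) j) hij)

private theorem map_inj {K0 K : Subgroup Γ} (h : K0 ≤ K) (n : ℕ) :
    Function.Injective ((NCmap (sgIncl h)).f n) :=
  Finsupp.mapDomain_injective (push_inj h n)

private theorem exists_lift (K : Subgroup Γ) (n : ℕ) (w : Sx (sg K).Obj n →₀ ℚ) :
    ∃ K' : Subgroup Γ, K' ≤ K ∧ K'.FG ∧ ∀ (K1 : Subgroup Γ) (h1 : K1 ≤ K), K' ≤ K1 →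
      ∃ w1 : Sx (sg K1).Obj n →₀ ℚ, (NCmap (sgIncl h1)).f n w1 = w := by
  induction w using Finsupp.induction_linear with
  | zero => exact ⟨⊥, bot_le, (Subgroup.fg_iff _).2 ⟨∅, Subgroup.closure_empty, Set.finite_empty⟩,
      fun K1 h1 _ => ⟨0, map_zero _⟩⟩
  | add w v hw hv =>
    obtain ⟨A, hA, hA1, hA2⟩ := hw
    obtain ⟨B, hB, hB1, hB2⟩ := hv
    refine ⟨A ⊔ B, sup_le hA hB, hA1.sup hB1, fun K1 h1 h2 => ?_⟩
    obtain ⟨a, ha⟩ := hA2 K1 h1 (le_sup_left.trans h2)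
    obtain ⟨b, hb⟩ := hB2 K1 h1 (le_sup_right.trans h2)
    exact ⟨a + b, by rw [map_add, ha, hb]⟩
  | single σ c =>
    obtain ⟨g, hg, h1, h2, rfl⟩ := sx_cases σ
    let q : {p : Fin (n + 1) × Fin (n + 1) // p.1 ≤ p.2} → Γ := fun p => g p.1.1 p.1.2 p.2
    refine ⟨Subgroup.closure (Set.range q), ?_, ?_, fun K1 hK hle => ?_⟩
    · rw [Subgroup.closure_le]
      rintro _ ⟨p, rfl⟩
      exact hg _ _ _
    · exact (Subgroup.fg_iff _).2 ⟨Set.range q, rfl, Set.finite_range q⟩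
    · have hg1 : ∀ i j hij, g i j hij ∈ K1 := fun i j hij =>
        hle (Subgroup.subset_closure ⟨⟨(i, j), hij⟩, rfl⟩)
      let τ : Sx (sg K1).Obj n :=
        { o := fun _ => ⟨()⟩
          m := fun i j hij => (sg K1).hom (a := ()) (b := ()) (g i j hij) (hg1 i j hij)
          m_self := fun i => sgIncl_faithful hK _ _ ((h1 i).trans ((sgIncl hK).map_id _).symm)
          m_comp := fun i j k hij hjk => sgIncl_faithful hK _ _
            (((sgIncl hK).map_comp _ _).trans (h2 i j k hij hjk)) }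
      refine ⟨Finsupp.single τ c, ?_⟩
      rw [NCmap_single]
      rfl

theorem exists_fg (K : Subgroup Γ) (n : ℕ) (x : HC (sg K).Obj n) :
    ∃ (K0 : Subgroup Γ) (h : K0 ≤ K), K0.FG ∧ x ∈ LinearMap.range (HCmap (sgIncl h) n) := by
  obtain ⟨z, hz, rfl⟩ := Cx.H_surj x
  obtain ⟨K0, h, hfg, hl⟩ := exists_lift K n z
  obtain ⟨w, hw⟩ := hl K0 h le_rfl
  have hw' : w ∈ (NC (sg K0).Obj).Z n := by
    cases n with
    | zero => trivial
    | succ n =>
      rw [Cx.mem_Z_succ]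
      refine map_inj h n ?_
      rw [(NCmap (sgIncl h)).comm, hw, Cx.mem_Z_succ.1 hz, map_zero]
  refine ⟨K0, h, hfg, (NC (sg K0).Obj).cls n w hw', ?_⟩
  rw [Cx.H_cls]
  congr 1

theorem fg_zero {K0 K : Subgroup Γ} (h : K0 ≤ K) (hfg : K0.FG) (n : ℕ)
    (x : HC (sg K0).Obj n) (hx : HCmap (sgIncl h) n x = 0) :
    ∃ (K1 : Subgroup Γ) (h01 : K0 ≤ K1) (_ : K1 ≤ K), K1.FG ∧
      HCmap (sgIncl h01) n x = 0 := by
  obtain ⟨z, hz, rfl⟩ := Cx.H_surj x
  rw [Cx.H_cls, Cx.cls_eq_zero] at hx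
  obtain ⟨w, hw⟩ := hx
  obtain ⟨K', h', hfg', hl⟩ := exists_lift K (n + 1) w
  have hK1 : K0 ⊔ K' ≤ K := sup_le h h'
  refine ⟨K0 ⊔ K', le_sup_left, hK1, hfg.sup hfg', ?_⟩
  obtain ⟨v, hv⟩ := hl (K0 ⊔ K') hK1 le_sup_right
  rw [Cx.H_cls, Cx.cls_eq_zero]
  refine ⟨v, map_inj hK1 n ?_⟩
  rw [(NCmap (sgIncl hK1)).comm, hv, hw]
  have h2 : (NCmap (sgIncl (le_sup_left : K0 ≤ K0 ⊔ K'))).comp (NCmap (sgIncl hK1)) =
      NCmap (sgIncl h) := by
    rw [NCmap_comp]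
    congr 1
    refine CategoryTheory.Functor.hext (fun _ => rfl) (fun x y f => ?_)
    obtain ⟨a, ha, rfl⟩ := hom_surj f
    rfl
  rw [← h2]
  rfl

end ActCat
end C715
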