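import Pool.Agent.Work.MP_c71557_gt.H.Wang
import Pool.Agent.Work.MP_c71557_gt.H.FG
import Pool.Agent.Work.MP_c71557_gt.H.Filt

set_option autoImplicit false

/-!
# MP_c71557_gt, module H/Dbl: the doubling map on the homology of torsion free abelian groups (M)

`dbl_bij`: `N` abelian and torsion free, `z n z⁻¹ = n²` on `N`, `T` = conjugation by `z` on
`H_n(N)`.  For all `(k, n) ≠ (0, 0)` the map `2^k T - 1` is bijective on `H_n(N; ℚ)`.

PROOF.  (1) `N = ⊥`: `H_0 = ℚ` with `T = 1` and `2^k - 1 ≠ 0` for `k ≥ 1`; `H_n = 0` for `n ≥ 1`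
(`sg ⊥` is equivalent to the point).
(2) Step from `N` to `M = N ⟨t⟩` (`wang`): `H_n(M)` is an extension of `H_{n-1}(N)`, on which the
operator is `2^{k+1} T - 1`, by `H_n(N)` with `2^k T - 1`: both bijective, so bijective on `H_n(M)`
(five lemma).  In degree `0`: `H_0(M) ≅ H_0(N)`.
(3) Finitely generated `N`: `Additive N` is a finitely generated torsion free `ℤ`-module, hence free
(Mathlib `Module.free_of_finite_type_torsion_free'`), with basis `t_1, …, t_r`; induct on the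
subgroups `N_i` generated by `t_1, …, t_i`.  All of them are stable under squaring.
(4) General `N`: `exists_fg`, `fg_zero`.  Every finitely generated subgroup is stable under
conjugation by `z`.  Injectivity: `(2^k T - 1) x = 0`, `x` comes from `x0 ∈ H_n(N0)`, and
`(2^k T - 1) x0` dies in a finitely generated `N1 ≥ N0`, so `x0` dies in `N1`.  Surjectivity:
every class comes from some `N0`.
-/

namespace C715

open CategoryTheory

namespace ActCat

variable {Γ : Type} [Group Γ]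

/-- the statement for `N` -/
private def DB (N : Subgroup Γ) (z : Γ) (hzN : ∀ n ∈ N, z * n * z⁻¹ ∈ N) : Prop :=
  ∀ k n : ℕ, ¬ (k = 0 ∧ n = 0) → Function.Bijective (fun x : HC (sg N).Obj n =>
      (2 : ℚ) ^ k • HCmap (cj z N hzN) n x - x)

private theorem cj_nat {N M : Subgroup Γ} (hNM : N ≤ M) (z : Γ)
    (hzM : ∀ m ∈ M, z * m * z⁻¹ ∈ M) (hzN : ∀ n ∈ N, z * n * z⁻¹ ∈ N) (n : ℕ)
    (x : HC (sg N).Obj n) :
    HCmap (cj z M hzM) n (HCmap (sgIncl hNM) n x) =
      HCmap (sgIncl hNM) n (HCmap (cj z N hzN) n x) := by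
  have h : sgIncl hNM ⋙ cj z M hzM = cj z N hzN ⋙ sgIncl hNM := by
    refine CategoryTheory.Functor.hext (fun _ => rfl) (fun x y f => ?_)
    obtain ⟨a, ha, rfl⟩ := hom_surj f
    rfl
  rw [← HCmap_comp, ← HCmap_comp, h]

private theorem incl_comp {K0 K1 K : Subgroup Γ} (h01 : K0 ≤ K1) (h1 : K1 ≤ K) (n : ℕ)
    (x : HC (sg K0).Obj n) :
    HCmap (sgIncl h1) n (HCmap (sgIncl h01) n x) = HCmap (sgIncl (h01.trans h1)) n x := by
  have h : sgIncl h01 ⋙ sgIncl h1 = sgIncl (h01.trans h1) := by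
    refine CategoryTheory.Functor.hext (fun _ => rfl) (fun x y f => ?_)
    obtain ⟨a, ha, rfl⟩ := hom_surj f
    rfl
  rw [← HCmap_comp, h]

private theorem bij_iso {V W : Type} [AddCommGroup V] [Module ℚ V] [AddCommGroup W] [Module ℚ W]
    (i : V →ₗ[ℚ] W) (hi : Function.Bijective i) (u : V → V) (w : W → W)
    (hc : ∀ x, w (i x) = i (u x)) (hu : Function.Bijective u) : Function.Bijective w := by
  have h : w ∘ i = i ∘ u := funext hc
  exact (Function.Bijective.of_comp_iff w hi).1 (h ▸ hi.comp hu)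

private theorem bij_ext {A B C : Type} [AddCommGroup A] [Module ℚ A] [AddCommGroup B] [Module ℚ B]
    [AddCommGroup C] [Module ℚ C] (i : A →ₗ[ℚ] B) (δ : B →ₗ[ℚ] C) (hi : Function.Injective i)
    (he : Function.Exact i δ) (hδ : Function.Surjective δ) (u : A →ₗ[ℚ] A) (w : B →ₗ[ℚ] B)
    (c : C →ₗ[ℚ] C) (h1 : ∀ x, w (i x) = i (u x)) (h2 : ∀ y, δ (w y) = c (δ y))
    (hu : Function.Bijective u) (hc : Function.Bijective c) : Function.Bijective w := by
  constructor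
  · rw [injective_iff_map_eq_zero]
    intro y hy
    have h3 : c (δ y) = 0 := by rw [← h2, hy, map_zero]
    have h4 : δ y = 0 := (injective_iff_map_eq_zero c).1 hc.1 _ h3
    obtain ⟨x, rfl⟩ := (he y).1 h4
    rw [h1] at hy
    have h5 : u x = 0 := (injective_iff_map_eq_zero i).1 hi _ hy
    rw [(injective_iff_map_eq_zero u).1 hu.1 _ h5, map_zero]
  · intro y
    obtain ⟨w', hw'⟩ := hc.2 (δ y)
    obtain ⟨y', rfl⟩ := hδ w'
    have h3 : δ (y - w y') = 0 := by rw [map_sub, h2, hw', sub_self]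
    obtain ⟨x, hx⟩ := (he _).1 h3
    obtain ⟨x', rfl⟩ := hu.2 x
    refine ⟨y' + i x', ?_⟩
    rw [map_add, h1, hx, add_sub_cancel]

private theorem db_step (N M : Subgroup Γ) (hNM : N ≤ M) (t z : Γ) (ht : t ∈ M)
    (hcomm : ∀ a ∈ M, ∀ b ∈ M, a * b = b * a) (hgen : ∀ m ∈ M, ∃ n ∈ N, ∃ k : ℤ, m = n * t ^ k)
    (htf : ∀ k : ℤ, t ^ k ∈ N → k = 0) (hz : ∀ m ∈ M, z * m * z⁻¹ = m * m)
    (hzM : ∀ m ∈ M, z * m * z⁻¹ ∈ M) (hzN : ∀ n ∈ N, z * n * z⁻¹ ∈ N) (h : DB N z hzN) :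
    DB M z hzM := by
  obtain ⟨h0, hs⟩ := wang N M hNM t z ht hcomm hgen htf hz hzM hzN
  intro k n hkn
  cases n with
  | zero =>
    refine bij_iso (HCmap (sgIncl hNM) 0) h0 _ _ (fun x => ?_) (h k 0 hkn)
    rw [cj_nat hNM z hzM hzN, map_sub, map_smul]
  | succ n =>
    obtain ⟨δ, hi, he, hδ, hT⟩ := hs n
    refine bij_ext (HCmap (sgIncl hNM) (n + 1)) δ hi he hδ
      ((2 : ℚ) ^ k • HCmap (cj z N hzN) (n + 1) - LinearMap.id)
      ((2 : ℚ) ^ k • HCmap (cj z M hzM) (n + 1) - LinearMap.id)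
      ((2 : ℚ) ^ (k + 1) • HCmap (cj z N hzN) n - LinearMap.id) (fun x => ?_) (fun y => ?_)
      (h k (n + 1) (by omega)) (h (k + 1) n (by omega))
    · change (2 : ℚ) ^ k • HCmap (cj z M hzM) (n + 1) (HCmap (sgIncl hNM) (n + 1) x) -
        HCmap (sgIncl hNM) (n + 1) x = HCmap (sgIncl hNM) (n + 1)
          ((2 : ℚ) ^ k • HCmap (cj z N hzN) (n + 1) x - x)
      rw [cj_nat hNM z hzM hzN, map_sub, map_smul]
    · change δ ((2 : ℚ) ^ k • HCmap (cj z M hzM) (n + 1) y - y) =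
        (2 : ℚ) ^ (k + 1) • HCmap (cj z N hzN) n (δ y) - δ y
      rw [map_sub, map_smul, hT, smul_smul, pow_succ]

private theorem cj_bot (z : Γ) (hz : ∀ n ∈ (⊥ : Subgroup Γ), z * n * z⁻¹ ∈ (⊥ : Subgroup Γ)) :
    cj z ⊥ hz = 𝟭 _ := by
  refine CategoryTheory.Functor.hext (fun _ => rfl) (fun x y f => ?_)
  obtain ⟨g, hg, rfl⟩ := hom_surj f
  have hg' : g = 1 := Subgroup.mem_bot.1 hg
  subst hg'
  refine heq_of_eq (hom_eq.2 ?_)
  change (z * 1 * z⁻¹)⁻¹ * 1 ∈ (⊥ : Subgroup Γ)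
  rw [Subgroup.mem_bot]
  group

private theorem acy_bot : Acy (sg (⊥ : Subgroup Γ)).Obj := by
  refine acy_of_directed ⟨⟨()⟩⟩ (fun a b f g => ?_) fun a b => ⟨⟨()⟩, ⟨?_⟩, ⟨?_⟩⟩
  · obtain ⟨u, hu, rfl⟩ := hom_surj f
    obtain ⟨v, hv, rfl⟩ := hom_surj g
    have hu' : u = 1 := Subgroup.mem_bot.1 hu
    have hv' : v = 1 := Subgroup.mem_bot.1 hv
    subst hu'
    subst hv'
    rfl
  · exact 𝟙 _
  · exact 𝟙 _

private theorem db_bot (N : Subgroup Γ) (hN : N = ⊥) (z : Γ) (hz : ∀ n ∈ N, z * n * z⁻¹ ∈ N) :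
    DB N z hz := by
  subst hN
  intro k n hkn
  cases n with
  | succ n =>
    have := acy_bot (Γ := Γ) |>.2.2 n
    exact ⟨fun a b _ => Subsingleton.elim a b, fun a => ⟨0, Subsingleton.elim _ _⟩⟩
  | zero =>
    have hk : k ≠ 0 := fun h => hkn ⟨h, rfl⟩
    have h2 : (2 : ℚ) ^ k - 1 ≠ 0 := by
      have h3 : (1 : ℚ) < 2 ^ k := one_lt_pow₀ (by norm_num) hk
      intro h
      linarith
    have e : ∀ x : HC (sg (⊥ : Subgroup Γ)).Obj 0,
        (2 : ℚ) ^ k • HCmap (cj z ⊥ hz) 0 x - x = ((2 : ℚ) ^ k - 1) • x := by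
      intro x
      rw [cj_bot, HCmap_id, sub_smul, one_smul]
    constructor
    · intro x y hxy
      simp only [e] at hxy
      exact smul_right_injective _ h2 hxy
    · intro y
      refine ⟨((2 : ℚ) ^ k - 1)⁻¹ • y, ?_⟩
      simp only [e]
      rw [smul_smul, mul_inv_cancel₀ h2, one_smul]

private theorem db_congr {N N' : Subgroup Γ} (h : N = N') (z : Γ)
    (hd : ∀ hz : (∀ n ∈ N, z * n * z⁻¹ ∈ N), DB N z hz) (hz : ∀ n ∈ N', z * n * z⁻¹ ∈ N') :
    DB N' z hz := by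
  subst h
  exact hd hz

private theorem exists_coords (K : Subgroup Γ) (hcomm : ∀ a ∈ K, ∀ b ∈ K, a * b = b * a)
    (htf : ∀ a ∈ K, ∀ m : ℕ, 1 ≤ m → a ^ m = 1 → a = 1) (hfg : K.FG) :
    ∃ (r : ℕ) (b : Fin r → K) (φ : Fin r → K →* Multiplicative ℤ),
      (∀ i j, φ i (b j) = if i = j then Multiplicative.ofAdd 1 else 1) ∧
      ∀ x, (∀ i, φ i x = 1) → x = 1 := by
  classical
  let _ : CommGroup K :=
    { (inferInstance : Group K) with
      mul_comm := fun a b => Subtype.ext (hcomm a a.2 b b.2) }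
  have : Group.FG K := (Group.fg_iff_subgroup_fg K).2 hfg
  have : AddGroup.FG (Additive K) := GroupFG.iff_add_fg.1 inferInstance
  have : Module.Finite ℤ (Additive K) := Module.Finite.iff_addGroup_fg.2 inferInstance
  have : IsMulTorsionFree K := by
    refine ⟨fun n hn a b hab => ?_⟩
    have h1 : (a * b⁻¹) ^ n = 1 := by
      have hab' : a ^ n = b ^ n := hab
      rw [mul_pow, inv_pow, hab', mul_inv_cancel]
    have h2 : ((a * b⁻¹ : K) : Γ) = 1 :=
      htf _ (a * b⁻¹).2 n (Nat.one_le_iff_ne_zero.2 hn) (congrArg Subtype.val h1)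
    have h3 : a * b⁻¹ = 1 := Subtype.ext h2
    exact mul_inv_eq_one.1 h3
  have : IsAddTorsionFree (Additive K) := ⟨fun n hn a b hab =>
    IsMulTorsionFree.pow_left_injective (M := K) hn hab⟩
  have : Module.IsTorsionFree ℤ (Additive K) := inferInstance
  have : Module.Free ℤ (Additive K) := Module.free_of_finite_type_torsion_free'
  let b := Module.finBasis ℤ (Additive K)
  refine ⟨_, fun i => (b i).toMul, fun i =>
    { toFun := fun x => Multiplicative.ofAdd (b.repr (Additive.ofMul x) i)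
      map_one' := by
        change Multiplicative.ofAdd (b.repr 0 i) = 1
        rw [map_zero]
        rfl
      map_mul' := fun x y => by
        change Multiplicative.ofAdd (b.repr (Additive.ofMul x + Additive.ofMul y) i) = _
        rw [map_add]
        rfl }, fun i j => ?_, fun x hx => ?_⟩
  · change Multiplicative.ofAdd (b.repr (b j) i) = _
    rw [b.repr_self, Finsupp.single_apply]
    by_cases h : i = j
    · rw [if_pos h, if_pos h.symm]
    · rw [if_neg h, if_neg (fun h' => h h'.symm)]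
      rfl
  · have h1 : b.repr (Additive.ofMul x) = 0 := by
      ext i
      exact Multiplicative.ofAdd.injective (hx i)
    have h2 : Additive.ofMul x = 0 := by
      rw [← b.repr.map_eq_zero_iff]
      exact h1
    exact h2

/-- the subgroup where the coordinates `≥ i` vanish -/
private def NI (K : Subgroup Γ) {r : ℕ} (φ : Fin r → K →* Multiplicative ℤ) (i : ℕ) :
    Subgroup Γ :=
  (⨅ j : {j : Fin r // i ≤ (j : ℕ)}, (φ j.1).ker).map K.subtype

private theorem mem_NI {K : Subgroup Γ} {r : ℕ} {φ : Fin r → K →* Multiplicative ℤ} {i : ℕ}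
    {x : Γ} : x ∈ NI K φ i ↔ ∃ y : K, (∀ j : Fin r, i ≤ (j : ℕ) → φ j y = 1) ∧ (y : Γ) = x := by
  unfold NI
  rw [Subgroup.mem_map]
  constructor
  · rintro ⟨y, hy, rfl⟩
    rw [Subgroup.mem_iInf] at hy
    exact ⟨y, fun j hj => MonoidHom.mem_ker.1 (hy ⟨j, hj⟩), rfl⟩
  · rintro ⟨y, hy, rfl⟩
    refine ⟨y, ?_, rfl⟩
    rw [Subgroup.mem_iInf]
    exact fun j => MonoidHom.mem_ker.2 (hy j.1 j.2)

private theorem db_fg (K : Subgroup Γ) (z : Γ) (hcomm : ∀ a ∈ K, ∀ b ∈ K, a * b = b * a)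
    (htf : ∀ a ∈ K, ∀ m : ℕ, 1 ≤ m → a ^ m = 1 → a = 1) (hz : ∀ m ∈ K, z * m * z⁻¹ = m * m)
    (hfg : K.FG) (hzK : ∀ n ∈ K, z * n * z⁻¹ ∈ K) : DB K z hzK := by
  obtain ⟨r, b, φ, hb, hφ⟩ := exists_coords K hcomm htf hfg
  have hle : ∀ i, NI K φ i ≤ K := by
    intro i x hx
    obtain ⟨y, -, rfl⟩ := mem_NI.1 hx
    exact y.2
  have hzI : ∀ i, ∀ n ∈ NI K φ i, z * n * z⁻¹ ∈ NI K φ i := by
    intro i n hn
    rw [hz n (hle i hn)]
    exact (NI K φ i).mul_mem hn hn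
  have key : ∀ i, i ≤ r → ∀ hz' : (∀ n ∈ NI K φ i, z * n * z⁻¹ ∈ NI K φ i),
      DB (NI K φ i) z hz' := by
    intro i
    induction i with
    | zero =>
      intro _ hz'
      refine db_bot _ ?_ z hz'
      rw [eq_bot_iff]
      intro x hx
      obtain ⟨y, hy, rfl⟩ := mem_NI.1 hx
      rw [hφ y fun j => hy j (Nat.zero_le _)]
      exact Subgroup.mem_bot.2 rfl
    | succ i ih =>
      intro hi hz'
      have hir : i < r := hi
      set bi : K := b ⟨i, hir⟩ with hbi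
      refine db_step (NI K φ i) (NI K φ (i + 1)) ?_ (bi : Γ) z ?_ ?_ ?_ ?_ ?_ hz' (hzI i)
        (ih (by omega) (hzI i))
      · intro x hx
        obtain ⟨y, hy, rfl⟩ := mem_NI.1 hx
        exact mem_NI.2 ⟨y, fun j hj => hy j (by omega), rfl⟩
      · refine mem_NI.2 ⟨bi, fun j hj => ?_, rfl⟩
        rw [hbi, hb, if_neg]
        intro h
        rw [h] at hj
        simp at hj
      · intro a ha c hc
        exact hcomm a (hle _ ha) c (hle _ hc)
      · intro m hm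
        obtain ⟨y, hy, rfl⟩ := mem_NI.1 hm
        set k : ℤ := Multiplicative.toAdd (φ ⟨i, hir⟩ y) with hk
        refine ⟨((y * bi ^ (-k) : K) : Γ), mem_NI.2 ⟨y * bi ^ (-k), fun j hj => ?_, rfl⟩, k, ?_⟩
        · rw [map_mul, map_zpow]
          rcases Nat.eq_or_lt_of_le hj with hji | hji
          · have hj' : j = ⟨i, hir⟩ := Fin.ext hji.symm
            rw [hj', hbi, hb, if_pos rfl]
            apply Multiplicative.toAdd.injective
            rw [toAdd_mul, toAdd_zpow, ← hk, toAdd_ofAdd, toAdd_one]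
            simp
          · rw [hy j hji, one_mul, hbi, hb, if_neg, one_zpow]
            intro h
            rw [h] at hji
            simp at hji
        · push_cast
          group
      · intro k hk
        obtain ⟨y, hy, hyk⟩ := mem_NI.1 hk
        have hyk' : y = bi ^ k := Subtype.ext (by rw [hyk]; push_cast; rfl)
        have h1 := hy ⟨i, hir⟩ le_rfl
        rw [hyk', map_zpow, hbi, hb, if_pos rfl] at h1
        have h2 := congrArg Multiplicative.toAdd h1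
        rw [toAdd_zpow, toAdd_ofAdd, toAdd_one] at h2
        simpa using h2
      · intro m hm
        exact hz m (hle _ hm)
  refine db_congr (N := NI K φ r) ?_ z (key r le_rfl) hzK
  refine le_antisymm (hle r) fun x hx => mem_NI.2 ⟨⟨x, hx⟩, fun j hj => ?_, rfl⟩
  exact absurd j.2 (by omega)

theorem dbl_bij (N : Subgroup Γ) (z : Γ) (hcomm : ∀ a ∈ N, ∀ b ∈ N, a * b = b * a)
    (htf : ∀ a ∈ N, ∀ m : ℕ, 1 ≤ m → a ^ m = 1 → a = 1) (hz : ∀ m ∈ N, z * m * z⁻¹ = m * m)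
    (hzN : ∀ n ∈ N, z * n * z⁻¹ ∈ N) (k n : ℕ) (hkn : ¬ (k = 0 ∧ n = 0)) :
    Function.Bijective (fun x : HC (sg N).Obj n =>
      (2 : ℚ) ^ k • HCmap (cj z N hzN) n x - x) := by
  have hzK : ∀ K : Subgroup Γ, K ≤ N → ∀ m ∈ K, z * m * z⁻¹ ∈ K := by
    intro K hK m hm
    rw [hz m (hK hm)]
    exact K.mul_mem hm hm
  have hfg : ∀ K : Subgroup Γ, ∀ (hK : K ≤ N), K.FG → DB K z (hzK K hK) := fun K hK hKfg =>
    db_fg K z (fun a ha b hb => hcomm a (hK ha) b (hK hb))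
      (fun a ha m hm h => htf a (hK ha) m hm h) (fun m hm => hz m (hK hm)) hKfg (hzK K hK)
  have hlin : ∀ (K : Subgroup Γ) (hK : K ≤ N) (x : HC (sg K).Obj n),
      (2 : ℚ) ^ k • HCmap (cj z N hzN) n (HCmap (sgIncl hK) n x) - HCmap (sgIncl hK) n x =
        HCmap (sgIncl hK) n ((2 : ℚ) ^ k • HCmap (cj z K (hzK K hK)) n x - x) := by
    intro K hK x
    rw [cj_nat hK z hzN (hzK K hK), map_sub, map_smul]
  constructor
  · let U : HC (sg N).Obj n →ₗ[ℚ] HC (sg N).Obj n :=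
      (2 : ℚ) ^ k • HCmap (cj z N hzN) n - LinearMap.id
    change Function.Injective ⇑U
    rw [injective_iff_map_eq_zero]
    intro x hx
    change (2 : ℚ) ^ k • HCmap (cj z N hzN) n x - x = 0 at hx
    obtain ⟨K0, h0, hK0, x0, rfl⟩ := exists_fg N n x
    rw [hlin K0 h0] at hx
    obtain ⟨K1, h01, h1, hK1, hx1⟩ := fg_zero h0 hK0 n _ hx
    rw [map_sub, map_smul, ← cj_nat h01 z (hzK K1 h1) (hzK K0 h0)] at hx1
    have h2 : HCmap (sgIncl h01) n x0 = 0 := by
      refine (hfg K1 h1 hK1 k n hkn).1 ?_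
      change (2 : ℚ) ^ k • HCmap (cj z K1 (hzK K1 h1)) n (HCmap (sgIncl h01) n x0) -
        HCmap (sgIncl h01) n x0 = (2 : ℚ) ^ k • HCmap (cj z K1 (hzK K1 h1)) n 0 - 0
      rw [hx1, map_zero, smul_zero, sub_zero]
    rw [← incl_comp h01 h1, h2, map_zero]
  · intro y
    obtain ⟨K0, h0, hK0, y0, rfl⟩ := exists_fg N n y
    obtain ⟨x0, hx0⟩ := (hfg K0 h0 hK0 k n hkn).2 y0
    refine ⟨HCmap (sgIncl h0) n x0, ?_⟩
    change (2 : ℚ) ^ k • HCmap (cj z N hzN) n (HCmap (sgIncl h0) n x0) -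
      HCmap (sgIncl h0) n x0 = _
    rw [hlin K0 h0]
    exact congrArg _ hx0

end ActCat
end C715
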