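import Mathlib

set_option autoImplicit false

/-!
# MP_c71557_gt, block H: chain complexes of rational vector spaces, homology of small categories

All definitions of the block.  Chain complexes are families `X n` (`n ≥ 0`) of rational vector
spaces with `d n : X (n+1) → X n`.
-/

namespace C715

open CategoryTheory

/-- a chain complex of rational vector spaces -/
structure Cx where
  X : ℕ → Type
  [ac : ∀ n, AddCommGroup (X n)]
  [mo : ∀ n, Module ℚ (X n)]
  d : ∀ n, X (n + 1) →ₗ[ℚ] X n
  dd : ∀ n (x : X (n + 2)), d n (d (n + 1) x) = 0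

attribute [instance] Cx.ac Cx.mo

namespace Cx

/-- cycles -/
def Z (A : Cx) : (n : ℕ) → Submodule ℚ (A.X n)
  | 0 => ⊤
  | n + 1 => LinearMap.ker (A.d n)

/-- boundaries -/
def Bd (A : Cx) (n : ℕ) : Submodule ℚ (A.X n) := LinearMap.range (A.d n)

/-- homology -/
abbrev H (A : Cx) (n : ℕ) : Type := (A.Z n) ⧸ (A.Bd n).submoduleOf (A.Z n)

/-- class of a cycle -/
def cls (A : Cx) (n : ℕ) (x : A.X n) (hx : x ∈ A.Z n) : A.H n :=
  Submodule.Quotient.mk ⟨x, hx⟩

/-- chain maps -/
@[ext] structure Hom (A B : Cx) where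
  f : ∀ n, A.X n →ₗ[ℚ] B.X n
  comm : ∀ n (x : A.X (n + 1)), f n (A.d n x) = B.d n (f (n + 1) x)

/-- identity -/
def Hom.id (A : Cx) : Hom A A := ⟨fun _ => LinearMap.id, fun _ _ => rfl⟩

/-- composition, `f` first -/
def Hom.comp {A B C : Cx} (f : Hom A B) (g : Hom B C) : Hom A C :=
  ⟨fun n => (g.f n).comp (f.f n), fun n x => by simp [f.comm, g.comm]⟩

theorem Hom.map_Z {A B : Cx} (f : Hom A B) (n : ℕ) : A.Z n ≤ (B.Z n).comap (f.f n) := by
  intro x hx
  cases n with
  | zero => trivial
  | succ n =>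
    simp only [Z, LinearMap.mem_ker, Submodule.mem_comap] at hx ⊢
    rw [← f.comm, hx, map_zero]

/-- induced map on homology -/
noncomputable def Hom.H {A B : Cx} (f : Hom A B) (n : ℕ) : A.H n →ₗ[ℚ] B.H n :=
  Submodule.mapQ _ _ ((f.f n).restrict (f.map_Z n)) (by
    rintro ⟨x, hx⟩ ⟨y, hy⟩
    refine ⟨f.f (n + 1) y, ?_⟩
    have h1 : A.d n y = x := hy
    change B.d n (f.f (n + 1) y) = f.f n x
    rw [← f.comm, h1])

/-- a short exact sequence of complexes `0 → A → B → C → 0` -/
structure SES {A B C : Cx} (i : Hom A B) (p : Hom B C) : Prop where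
  inj : ∀ n, Function.Injective (i.f n)
  exact : ∀ n, Function.Exact (i.f n) (p.f n)
  surj : ∀ n, Function.Surjective (p.f n)

/-- a complex with vanishing homology in degrees `≥ 1` -/
def Acyclic (A : Cx) : Prop := ∀ n, Subsingleton (A.H (n + 1))

/-- quasi-isomorphism -/
def Qis {A B : Cx} (f : Hom A B) : Prop := ∀ n, Function.Bijective (f.H n)

/-- cokernel complex -/
def coker {A B : Cx} (f : Hom A B) : Cx where
  X n := B.X n ⧸ LinearMap.range (f.f n)
  d n := Submodule.mapQ _ _ (B.d n) (by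
    rintro _ ⟨y, rfl⟩
    exact ⟨A.d n y, f.comm n y⟩)
  dd n x := by
    obtain ⟨x, rfl⟩ := Submodule.Quotient.mk_surjective _ x
    exact congrArg Submodule.Quotient.mk (B.dd n x)

/-- projection to the cokernel -/
def toCoker {A B : Cx} (f : Hom A B) : Hom B (coker f) :=
  ⟨fun _ => Submodule.mkQ _, fun _ _ => rfl⟩

/-- maps of cokernels induced by a commutative square -/
def cokerMap {A B A' B' : Cx} (f : Hom A B) (f' : Hom A' B') (a : Hom A A') (b : Hom B B')
    (h : ∀ n x, b.f n (f.f n x) = f'.f n (a.f n x)) : Hom (coker f) (coker f') where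
  f n := Submodule.mapQ _ _ (b.f n) (by
    rintro _ ⟨y, rfl⟩
    exact ⟨a.f n y, (h n y).symm⟩)
  comm n x := by
    obtain ⟨x, rfl⟩ := Submodule.Quotient.mk_surjective _ x
    exact congrArg Submodule.Quotient.mk (b.comm n x)

end Cx

/-- a class of rational vector spaces closed under subspaces, quotients and extensions -/
structure Serre where
  P : (V : Type) → [AddCommGroup V] → [Module ℚ V] → Prop
  zero : ∀ (V : Type) [AddCommGroup V] [Module ℚ V], Subsingleton V → P V
  ext3 : ∀ (U V W : Type) [AddCommGroup U] [Module ℚ U] [AddCommGroup V] [Module ℚ V]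
    [AddCommGroup W] [Module ℚ W] (f : U →ₗ[ℚ] V) (g : V →ₗ[ℚ] W),
    (∀ x, g x = 0 → x ∈ LinearMap.range f) → P U → P W → P V

end C715
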