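import Pool.Agent.Work.MP_c71557_gt.H.Base

set_option autoImplicit false
set_option linter.unusedVariables false

/-!
# MP_c71557_gt, block H: further definitions (quotients and kernels of double complexes,
prepending an object to a simplex, relative complexes)
-/

namespace C715

open CategoryTheory

namespace DCx

/-- the columns of a morphism of double complexes -/
abbrev Hom.col {K L : DCx} (g : Hom K L) (p : ℕ) : Cx.Hom (K.col p) (L.col p) where
  f q := g.f p q
  comm q x := g.vcomm p q x

/-- cokernel of a morphism of double complexes -/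
def coker {K L : DCx} (g : Hom K L) : DCx where
  X p q := L.X p q ⧸ LinearMap.range (g.f p q)
  dh p q := Submodule.mapQ _ _ (L.dh p q) (by
    rintro _ ⟨y, rfl⟩
    exact ⟨K.dh p q y, g.hcomm p q y⟩)
  dv p q := Submodule.mapQ _ _ (L.dv p q) (by
    rintro _ ⟨y, rfl⟩
    exact ⟨K.dv p q y, g.vcomm p q y⟩)
  hh p q x := by
    obtain ⟨x, rfl⟩ := Submodule.Quotient.mk_surjective _ x
    exact congrArg Submodule.Quotient.mk (L.hh p q x)
  vv p q x := by
    obtain ⟨x, rfl⟩ := Submodule.Quotient.mk_surjective _ x
    exact congrArg Submodule.Quotient.mk (L.vv p q x)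
  hv p q x := by
    obtain ⟨x, rfl⟩ := Submodule.Quotient.mk_surjective _ x
    exact congrArg Submodule.Quotient.mk (L.hv p q x)

/-- projection to the cokernel -/
def toCoker {K L : DCx} (g : Hom K L) : Hom L (coker g) where
  f _ _ := Submodule.mkQ _
  hcomm _ _ _ := rfl
  vcomm _ _ _ := rfl

/-- row augmentation of a cokernel -/
def RowAug.coker {K L : DCx} (g : Hom K L) {A B : Cx} (i : Cx.Hom A B) (r : RowAug K A)
    (s : RowAug L B) (h : ∀ q x, s.e q (g.f 0 q x) = i.f q (r.e q x)) :
    RowAug (DCx.coker g) (Cx.coker i) where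
  e q := Submodule.mapQ _ _ (s.e q) (by
    rintro _ ⟨y, rfl⟩
    exact ⟨r.e q y, (h q y).symm⟩)
  comm q x := by
    obtain ⟨x, rfl⟩ := Submodule.Quotient.mk_surjective _ x
    exact congrArg Submodule.Quotient.mk (s.comm q x)
  zero q x := by
    obtain ⟨x, rfl⟩ := Submodule.Quotient.mk_surjective _ x
    exact congrArg Submodule.Quotient.mk (s.zero q x)

/-- column augmentation of a cokernel -/
def ColAug.coker {K L : DCx} (g : Hom K L) {A B : Cx} (i : Cx.Hom A B) (r : ColAug K A)
    (s : ColAug L B) (h : ∀ p x, s.e p (g.f p 0 x) = i.f p (r.e p x)) :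
    ColAug (DCx.coker g) (Cx.coker i) where
  e p := Submodule.mapQ _ _ (s.e p) (by
    rintro _ ⟨y, rfl⟩
    exact ⟨r.e p y, (h p y).symm⟩)
  comm p x := by
    obtain ⟨x, rfl⟩ := Submodule.Quotient.mk_surjective _ x
    exact congrArg Submodule.Quotient.mk (s.comm p x)
  zero p x := by
    obtain ⟨x, rfl⟩ := Submodule.Quotient.mk_surjective _ x
    exact congrArg Submodule.Quotient.mk (s.zero p x)

end DCx

/-- tensor product of a complex with a vector space -/
noncomputable def Cx.tens (A : Cx) (V : Type) [AddCommGroup V] [Module ℚ V] : Cx where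
  X n := TensorProduct ℚ (A.X n) V
  d n := LinearMap.rTensor V (A.d n)
  dd n x := by
    induction x using TensorProduct.induction_on with
    | zero => simp
    | tmul x y => simp [A.dd]
    | add x y hx hy => rw [map_add, map_add, hx, hy, add_zero]

section cons

variable {C : Type} [SmallCategory C]

/-- prepend an object to a simplex -/
def Sx.cons {n : ℕ} (c : C) (σ : Sx C n) (f : c ⟶ σ.o 0) : Sx C (n + 1) where
  o := fun i => Fin.cases (motive := fun _ => C) c σ.o i
  m := fun i j h =>
    Fin.cases (motive := fun i => i ≤ j → (Fin.cases (motive := fun _ => C) c σ.o i ⟶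
        Fin.cases (motive := fun _ => C) c σ.o j))
      (fun _ => Fin.cases (motive := fun j => (c ⟶ Fin.cases (motive := fun _ => C) c σ.o j))
        (𝟙 c) (fun j => f ≫ σ.m 0 j (Fin.zero_le _)) j)
      (fun i => Fin.cases (motive := fun j => i.succ ≤ j → (σ.o i ⟶
          Fin.cases (motive := fun _ => C) c σ.o j))
        (fun h => absurd h (by simp)) (fun j h => σ.m i j (Fin.succ_le_succ_iff.1 h)) j) i h
  m_self := fun i => by
    refine Fin.cases ?_ (fun i => ?_) i
    · rfl
    · exact σ.m_self i
  m_comp := fun i j k => by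
    refine Fin.cases ?_ (fun i => ?_) i
    · refine Fin.cases ?_ (fun j => ?_) j
      · intro h h'
        exact Category.id_comp _
      · refine Fin.cases ?_ (fun k => ?_) k
        · intro h h'
          exact absurd h' (by simp)
        · intro h h'
          change (f ≫ σ.m 0 j _) ≫ σ.m j k _ = f ≫ σ.m 0 k _
          rw [Category.assoc, σ.m_comp]
    · refine Fin.cases ?_ (fun j => ?_) j
      · intro h h'
        exact absurd h (by simp)
      · refine Fin.cases ?_ (fun k => ?_) k
        · intro h h'
          exact absurd h' (by simp)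
        · intro h h'
          exact σ.m_comp i j k _ _

end cons

/-- the functor from the point category -/
abbrev ptF {C : Type} [SmallCategory C] (c : C) : ActCat.Pt ⥤ C := Functor.fromPUnit c

/-- `C_*(C) / C_*(K)` for a functor `K ⥤ C` -/
noncomputable abbrev relC {K C : Type} [SmallCategory K] [SmallCategory C] (j : K ⥤ C) : Cx :=
  Cx.coker (NCmap j)

/-- map of relative complexes of a strictly commutative square -/
noncomputable abbrev relMap {K C K' C' : Type} [SmallCategory K] [SmallCategory C]
    [SmallCategory K'] [SmallCategory C'] (j : K ⥤ C) (j' : K' ⥤ C') (R : C ⥤ C')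
    (R' : K ⥤ K') (h : ∀ n (σ : Sx K n), (σ.push j).push R = (σ.push R').push j') :
    Cx.Hom (relC j) (relC j') :=
  Cx.cokerMap (NCmap j) (NCmap j') (NCmap R') (NCmap R) (fun n x => by
    change Finsupp.mapDomain _ (Finsupp.mapDomain _ (x : Sx K n →₀ ℚ)) =
      Finsupp.mapDomain _ (Finsupp.mapDomain _ (x : Sx K n →₀ ℚ))
    rw [← Finsupp.mapDomain_comp, ← Finsupp.mapDomain_comp]
    congr 1
    exact funext (h n))

/-- the functor to the point category -/
abbrev toPt (C : Type) [SmallCategory C] : C ⥤ ActCat.Pt := Functor.star C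

end C715
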