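import Pool.Agent.Work.MP_c71557_gt.H.Defs4
import Pool.Agent.Work.MP_c71557_gt.H.Const
import Pool.Agent.Work.MP_c71557_gt.H.Five

/-!
# MP_c71557_gt, module H/Devis: devissage along an exact sequence of coefficient systems (M)

* `qis_ses`: `0 → F → G → K → 0` short exact (objectwise) coefficient systems on `D`, `κ : C ⥤ D`;
  if `barPush κ` is a quasi-isomorphism for two of them then for the third: `bar_SES` on `D` and
  for the pulled back systems on `C`, five lemma (`Cx.qis_left`, `Cx.qis_mid`, `Cx.qis_right`).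
* `devis`: `0 → F0 → F1 → F2 → ℚ → 0` exact: split with the kernel `I` of `ε` (a coefficient
  system); `barPush κ` is a quasi-isomorphism for `I`, then for `const ℚ`; and `NC C ≅ barC (const
  C ℚ)` naturally (`exists_constIso` with `V = ℚ` or directly), so `HIso κ`.
* `qis_anti`: `F.anti ι` is a retract of `F` when `ι² = 1`: section `[x] ↦ (x - ι x)/2`, a morphism
  of coefficient systems; a retract of a bijective map is bijective.
-/

set_option autoImplicit false

namespace C715

open CategoryTheory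

variable {C : Type} [SmallCategory C] {D : Type} [SmallCategory D]

private abbrev pullH (κ : C ⥤ D) {F G : Coef D} (α : Coef.Hom F G) :
    Coef.Hom (F.pull κ) (G.pull κ) where
  f c := α.f (κ.obj c)
  comm u x := α.comm (κ.map u) x

private theorem bh_bof {F G : Coef C} (α : Coef.Hom F G) {n : ℕ} (σ : Sx C n)
    (y : F.M (σ.o 0)) : (barHom α).f n (bof F σ y) = bof G σ (α.f _ y) := bdesc_bof _ _ _ _

private theorem push_nat (κ : C ⥤ D) {F G : Coef D} (α : Coef.Hom F G) :
    (barHom (pullH κ α)).comp (barPush κ G) = (barPush κ F).comp (barHom α) := by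
  refine Cx.Hom.ext (funext fun n => bar_ext _ fun σ y => ?_)
  change (barPush κ G).f n ((barHom (pullH κ α)).f n (bof (F.pull κ) σ y)) =
    (barHom α).f n ((barPush κ F).f n (bof (F.pull κ) σ y))
  have h1 : (barHom (pullH κ α)).f n (bof (F.pull κ) σ y) = bof (G.pull κ) σ (α.f _ y) :=
    bdesc_bof _ _ _ _
  have h2 : (barPush κ F).f n (bof (F.pull κ) σ y) = bof F (σ.push κ) y := bdesc_bof _ _ _ _
  have h3 : (barPush κ G).f n (bof (G.pull κ) σ (α.f _ y)) = bof G (σ.push κ) (α.f _ y) :=
    bdesc_bof _ _ _ _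
  have h4 : (barHom α).f n (bof F (σ.push κ) y) = bof G (σ.push κ) (α.f _ y) :=
    bdesc_bof _ _ _ _
  rw [h1, h2, h3, h4]

private theorem push_nat' (κ : C ⥤ D) {F G : Coef D} (α : Coef.Hom F G) (n : ℕ)
    (x : BarX (F.pull κ) n) :
    (barPush κ G).f n ((barHom (pullH κ α)).f n x) = (barHom α).f n ((barPush κ F).f n x) :=
  congrArg (fun f : Cx.Hom (barC (F.pull κ)) (barC G) => f.f n x) (push_nat κ α)

theorem qis_ses (κ : C ⥤ D) (F G K : Coef D) (i : Coef.Hom F G) (p : Coef.Hom G K)
    (h1 : ∀ c, Function.Injective (i.f c)) (h2 : ∀ c, Function.Exact (i.f c) (p.f c))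
    (h3 : ∀ c, Function.Surjective (p.f c)) :
    (Cx.Qis (barPush κ F) → Cx.Qis (barPush κ G) → Cx.Qis (barPush κ K)) ∧
    (Cx.Qis (barPush κ F) → Cx.Qis (barPush κ K) → Cx.Qis (barPush κ G)) ∧
    (Cx.Qis (barPush κ G) → Cx.Qis (barPush κ K) → Cx.Qis (barPush κ F)) := by
  have hD := bar_SES i p h1 h2 h3
  have hC := bar_SES (pullH κ i) (pullH κ p) (fun c => h1 (κ.obj c)) (fun c => h2 (κ.obj c))
    (fun c => h3 (κ.obj c))
  exact ⟨Cx.qis_right hC hD _ _ _ (push_nat' κ i) (push_nat' κ p),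
    Cx.qis_mid hC hD _ _ _ (push_nat' κ i) (push_nat' κ p),
    Cx.qis_left hC hD _ _ _ (push_nat' κ i) (push_nat' κ p)⟩

/-- the kernel of a morphism of coefficient systems -/
private def kerC {F G : Coef D} (α : Coef.Hom F G) : Coef D where
  M c := LinearMap.ker (α.f c)
  map {a b} u := (F.map u).restrict (fun x hx => by
    rw [LinearMap.mem_ker] at hx ⊢
    rw [α.comm, hx, map_zero])
  map_id a x := Subtype.ext (F.map_id a x.1)
  map_comp u v x := Subtype.ext (F.map_comp u v x.1)

/-- `NC C ≅ barC (const C ℚ)` -/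
private noncomputable def nI (C : Type) [SmallCategory C] :
    Cx.Hom (NC C) (barC (Coef.const C ℚ)) where
  f n := Finsupp.lsum ℚ (fun σ : Sx C n => bof (Coef.const C ℚ) σ)
  comm n x := by
    have : (Finsupp.lsum ℚ (fun σ : Sx C n => bof (Coef.const C ℚ) σ)).comp ((NC C).d n) =
        ((barC (Coef.const C ℚ)).d n).comp
          (Finsupp.lsum ℚ (fun σ : Sx C (n + 1) => bof (Coef.const C ℚ) σ)) := by
      refine Finsupp.lhom_ext fun σ a => ?_
      rw [LinearMap.comp_apply, LinearMap.comp_apply, NC_d_single, map_sum, Finsupp.lsum_single]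
      change _ = (barS (Coef.const C ℚ)).alt n _
      rw [SMod.alt_apply]
      refine Finset.sum_congr rfl fun i _ => ?_
      rw [map_smul, Finsupp.lsum_single]
      congr 1
      exact (barMap_bof _ _ _ _).symm
    exact LinearMap.congr_fun this x

private theorem nI_single {n : ℕ} (σ : Sx C n) (a : ℚ) :
    (nI C).f n (Finsupp.single σ a) = bof (Coef.const C ℚ) σ a := Finsupp.lsum_single _ _ _ _

private theorem nI_bij (n : ℕ) : Function.Bijective ((nI C).f n) := by
  let g : BarX (Coef.const C ℚ) n →ₗ[ℚ] (Sx C n →₀ ℚ) :=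
    bdesc (Coef.const C ℚ) fun σ => Finsupp.lsingle σ
  have h1 : g.comp ((nI C).f n) = LinearMap.id := by
    refine Finsupp.lhom_ext fun σ a => ?_
    rw [LinearMap.comp_apply, nI_single]
    exact bdesc_bof _ _ _ _
  have h2 : ((nI C).f n).comp g = LinearMap.id := by
    refine bar_ext (Coef.const C ℚ) fun σ a => ?_
    change (nI C).f n (g (bof (Coef.const C ℚ) σ a)) = _
    have h3 : g (bof (Coef.const C ℚ) σ a) = Finsupp.single σ a := bdesc_bof _ _ _ _
    rw [h3, nI_single]
    rfl
  exact ⟨Function.LeftInverse.injective (g := g) fun x => LinearMap.congr_fun h1 x,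
    Function.RightInverse.surjective (g := g) fun x => LinearMap.congr_fun h2 x⟩

private theorem nI_nat (κ : C ⥤ D) :
    (NCmap κ).comp (nI D) = (nI C).comp (barPush κ (Coef.const D ℚ)) := by
  refine Cx.Hom.ext (funext fun n => Finsupp.lhom_ext fun σ a => ?_)
  change (nI D).f n ((NCmap κ).f n (Finsupp.single σ a)) =
    (barPush κ (Coef.const D ℚ)).f n ((nI C).f n (Finsupp.single σ a))
  have h3 : (barPush κ (Coef.const D ℚ)).f n (bof (Coef.const C ℚ) σ a) =
    bof (Coef.const D ℚ) (σ.push κ) a :=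
    bdesc_bof ((Coef.const D ℚ).pull κ) (fun σ => bof (Coef.const D ℚ) (σ.push κ)) σ a
  rw [NCmap_single, nI_single, nI_single, h3]

theorem devis (κ : C ⥤ D) (F0 F1 F2 : Coef D) (d0 : Coef.Hom F0 F1) (d1 : Coef.Hom F1 F2)
    (ε : Coef.Hom F2 (Coef.const D ℚ)) (h0 : ∀ c, Function.Injective (d0.f c))
    (h1 : ∀ c, Function.Exact (d0.f c) (d1.f c)) (h2 : ∀ c, Function.Exact (d1.f c) (ε.f c))
    (h3 : ∀ c, Function.Surjective (ε.f c)) (q0 : Cx.Qis (barPush κ F0))
    (q1 : Cx.Qis (barPush κ F1)) (q2 : Cx.Qis (barPush κ F2)) : HIso κ := by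
  let d1' : Coef.Hom F1 (kerC ε) :=
    { f := fun c => (d1.f c).codRestrict _ (fun x => (h2 c _).2 ⟨x, rfl⟩)
      comm := fun u x => Subtype.ext (d1.comm u x) }
  let ι : Coef.Hom (kerC ε) F2 :=
    { f := fun c => (LinearMap.ker (ε.f c)).subtype
      comm := fun u x => rfl }
  have qI : Cx.Qis (barPush κ (kerC ε)) := by
    refine (qis_ses κ F0 F1 (kerC ε) d0 d1' h0 (fun c x => ?_) (fun c y => ?_)).1 q0 q1
    · rw [← h1 c x]
      exact ⟨fun h => congrArg Subtype.val h, fun h => Subtype.ext h⟩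
    · obtain ⟨x, hx⟩ := (h2 c y.1).1 y.2
      exact ⟨x, Subtype.ext hx⟩
  have qc : Cx.Qis (barPush κ (Coef.const D ℚ)) := by
    refine (qis_ses κ (kerC ε) F2 (Coef.const D ℚ) ι ε (fun c => Subtype.val_injective)
      (fun c x => ?_) h3).1 qI q2
    exact ⟨fun h => ⟨⟨x, h⟩, rfl⟩, fun ⟨y, hy⟩ => by rw [← hy]; exact y.2⟩
  have h4 : Cx.Qis ((NCmap κ).comp (nI D)) := by
    rw [nI_nat]
    exact Cx.Qis.comp (f := nI C) (g := barPush κ (Coef.const D ℚ)) (qis_of_bij _ nI_bij) qc
  exact Cx.Qis.of_comp_right (qis_of_bij _ nI_bij) h4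

theorem qis_anti (κ : C ⥤ D) (F : Coef D) (ι : Coef.Hom F F)
    (hι : ∀ c x, ι.f c (ι.f c x) = x) (h : Cx.Qis (barPush κ F)) :
    Cx.Qis (barPush κ (F.anti ι)) := by
  let r : Coef.Hom F (F.anti ι) := F.toAnti ι
  let s : Coef.Hom (F.anti ι) F :=
    { f := fun c => Submodule.liftQ _ ((1 / 2 : ℚ) • (LinearMap.id - ι.f c)) (by
        rintro _ ⟨y, rfl⟩
        rw [LinearMap.mem_ker]
        simp only [LinearMap.smul_apply, LinearMap.sub_apply, LinearMap.add_apply,
          LinearMap.id_apply, map_add, hι]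
        module)
      comm := fun u x => by
        obtain ⟨x, rfl⟩ := Submodule.Quotient.mk_surjective _ x
        change (1 / 2 : ℚ) • (F.map u x - ι.f _ (F.map u x)) =
          F.map u ((1 / 2 : ℚ) • (x - ι.f _ x))
        rw [ι.comm, map_smul, map_sub] }
  have hrs : ∀ c x, r.f c (s.f c x) = x := by
    intro c x
    obtain ⟨x, rfl⟩ := Submodule.Quotient.mk_surjective _ x
    change (Submodule.Quotient.mk ((1 / 2 : ℚ) • (x - ι.f c x)) :
      F.M c ⧸ LinearMap.range (LinearMap.id + ι.f c)) = Submodule.Quotient.mk x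
    rw [Submodule.Quotient.eq]
    refine ⟨(-1 / 2 : ℚ) • x, ?_⟩
    simp only [LinearMap.add_apply, LinearMap.id_apply, map_smul]
    module
  have hrsC : ∀ n x, (barHom (pullH κ r)).f n ((barHom (pullH κ s)).f n x) = x := by
    intro n x
    induction x using bar_ind with
    | h0 => simp only [map_zero]
    | h1 σ y =>
      rw [bh_bof, bh_bof]
      exact congrArg _ (hrs _ _)
    | h2 x y hx hy => simp only [map_add, hx, hy]
  have hrsD : ∀ n x, (barHom r).f n ((barHom s).f n x) = x := by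
    intro n x
    induction x using bar_ind with
    | h0 => simp only [map_zero]
    | h1 σ y =>
      rw [bh_bof, bh_bof]
      exact congrArg _ (hrs _ _)
    | h2 x y hx hy => simp only [map_add, hx, hy]
  have hHC : ∀ n y, (barHom (pullH κ r)).H n ((barHom (pullH κ s)).H n y) = y := by
    intro n y
    rw [← Cx.H_comp]
    have : (barHom (pullH κ s)).comp (barHom (pullH κ r)) = Cx.Hom.id _ :=
      Cx.Hom.ext (funext fun n => LinearMap.ext fun x => hrsC n x)
    rw [this, Cx.H_id]
  have hHD : ∀ n y, (barHom r).H n ((barHom s).H n y) = y := by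
    intro n y
    rw [← Cx.H_comp]
    have : (barHom s).comp (barHom r) = Cx.Hom.id _ :=
      Cx.Hom.ext (funext fun n => LinearMap.ext fun x => hrsD n x)
    rw [this, Cx.H_id]
  have hr : ∀ n y, (barPush κ (F.anti ι)).H n ((barHom (pullH κ r)).H n y) =
      (barHom r).H n ((barPush κ F).H n y) := by
    intro n y
    rw [← Cx.H_comp, ← Cx.H_comp, push_nat]
  have hs : ∀ n y, (barPush κ F).H n ((barHom (pullH κ s)).H n y) =
      (barHom s).H n ((barPush κ (F.anti ι)).H n y) := by
    intro n y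
    rw [← Cx.H_comp, ← Cx.H_comp, push_nat]
  intro n
  constructor
  · rw [injective_iff_map_eq_zero]
    intro y hy
    have h1 := hs n y
    rw [hy, map_zero] at h1
    have h2 := (injective_iff_map_eq_zero _).1 (h n).1 _ h1
    rw [← hHC n y, h2, map_zero]
  · intro y
    obtain ⟨z, hz⟩ := (h n).2 ((barHom s).H n y)
    refine ⟨(barHom (pullH κ r)).H n z, ?_⟩
    rw [hr, hz, hHD]

end C715
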