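import Pool.Agent.Work.MP_c71557_gt.H.Eps1
import Pool.Agent.Work.MP_c71557_gt.H.OvIso

set_option autoImplicit false
set_option linter.unusedVariables false

/-!
# MP_c71557_gt, module H/Join: the join homotopy

`jn R n σ x` (`n = p + q + 1`) is the join of a simplex `x = (τ, f)` over `σ_0` and a simplex `σ` of
`B`: the simplex `(R τ_0, …, R τ_q, σ_0, …, σ_p)` of `B`.  `hh R n a` is the alternating sum of the
joins, signs `(-1)^((p + 1) q)`; `d_hh_zero`, `d_hh_succ`: `d h + h D = eps2 - R eps1`.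
-/

namespace C715

open CategoryTheory

variable {T B : Type} [SmallCategory T] [SmallCategory B]

namespace Join

/-- diagrams on a preorder -/
structure Dg (C : Type) [SmallCategory C] (I : Type) [Preorder I] where
  o : I → C
  m : ∀ i j : I, i ≤ j → (o i ⟶ o j)
  m_self : ∀ i, m i i le_rfl = 𝟙 (o i)
  m_comp : ∀ i j k (h : i ≤ j) (h' : j ≤ k), m i j h ≫ m j k h' = m i k (h.trans h')

/-- restriction to simplices -/
abbrev Dg.sx {C : Type} [SmallCategory C] {I : Type} [Preorder I] (D : Dg C I) {n : ℕ}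
    (φ : Fin (n + 1) →o I) : Sx C n where
  o i := D.o (φ i)
  m i j h := D.m (φ i) (φ j) (φ.monotone h)
  m_self i := D.m_self _
  m_comp i j k h h' := D.m_comp _ _ _ _ _

/-- restriction -/
abbrev Dg.res {C : Type} [SmallCategory C] {I I' : Type} [Preorder I] [Preorder I'] (D : Dg C I)
    (φ : I' →o I) : Dg C I' where
  o i := D.o (φ i)
  m i j h := D.m (φ i) (φ j) (φ.monotone h)
  m_self i := D.m_self _
  m_comp i j k h h' := D.m_comp _ _ _ _ _

theorem Dg.ext_heq {C : Type} [SmallCategory C] {I : Type} [Preorder I] {σ τ : Dg C I}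
    (ho : ∀ i, σ.o i = τ.o i) (hm : ∀ i j h, HEq (σ.m i j h) (τ.m i j h)) : σ = τ := by
  cases σ with
  | mk o m h1 h2 =>
    cases τ with
    | mk o' m' h1' h2' =>
      have h : o = o' := funext ho
      subst h
      have h' : m = m' := by
        funext i j h
        exact eq_of_heq (hm i j h)
      subst h'
      rfl

/-- the index set of a join -/
inductive Jn (q p : ℕ) : Type
  | l : Fin (q + 1) → Jn q p
  | r : Fin (p + 1) → Jn q p

/-- the order of the join -/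
def Jn.le' {q p : ℕ} : Jn q p → Jn q p → Prop
  | .l i, .l j => i ≤ j
  | .l _, .r _ => True
  | .r _, .l _ => False
  | .r i, .r j => i ≤ j

instance (q p : ℕ) : Preorder (Jn q p) where
  le := Jn.le'
  le_refl a := by
    cases a with
    | l i => exact le_refl i
    | r i => exact le_refl i
  le_trans a b c h h' := by
    cases a with
    | l i =>
      cases b with
      | l j =>
        cases c with
        | l k => exact le_trans (show i ≤ j from h) h'
        | r k => exact trivial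
      | r j =>
        cases c with
        | l k => exact h'.elim
        | r k => exact trivial
    | r i =>
      cases b with
      | l j => exact h.elim
      | r j =>
        cases c with
        | l k => exact h'.elim
        | r k => exact le_trans (show i ≤ j from h) h'

theorem Jn.le_ll {q p : ℕ} {i j : Fin (q + 1)} : (Jn.l i : Jn q p) ≤ Jn.l j ↔ i ≤ j := Iff.rfl
theorem Jn.le_rr {q p : ℕ} {i j : Fin (p + 1)} : (Jn.r i : Jn q p) ≤ Jn.r j ↔ i ≤ j := Iff.rfl
theorem Jn.le_lr {q p : ℕ} {i : Fin (q + 1)} {j : Fin (p + 1)} : (Jn.l i : Jn q p) ≤ Jn.r j :=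
  trivial
theorem Jn.le_rl {q p : ℕ} {i : Fin (q + 1)} {j : Fin (p + 1)} (h : (Jn.r j : Jn q p) ≤ Jn.l i) :
    False := h

/-- the diagram of a join -/
def jd (R : T ⥤ B) {p q : ℕ} (σ : Sx B p) (x : OvS R (σ.o 0) q) : Dg B (Jn q p) where
  o a := match a with
    | .l i => R.obj (x.τ.o i)
    | .r j => σ.o j
  m a b h := match a, b, h with
    | .l i, .l j, h => R.map (x.τ.m i j h)
    | .l i, .r j, _ => R.map (x.τ.m i (Fin.last q) (Fin.le_last _)) ≫ x.f ≫
        σ.m 0 j (Fin.zero_le _)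
    | .r _, .l _, h => h.elim
    | .r i, .r j, h => σ.m i j h
  m_self a := by
    cases a with
    | l i => exact (congrArg R.map (x.τ.m_self i)).trans (R.map_id _)
    | r j => exact σ.m_self j
  m_comp a b c h h' := by
    cases a with
    | l i =>
      cases b with
      | l j =>
        cases c with
        | l k =>
          change R.map _ ≫ R.map _ = R.map _
          rw [← R.map_comp, x.τ.m_comp]
        | r k =>
          change R.map _ ≫ R.map _ ≫ x.f ≫ _ = R.map _ ≫ x.f ≫ _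
          rw [← Category.assoc, ← R.map_comp, x.τ.m_comp]
      | r j =>
        cases c with
        | l k => exact h'.elim
        | r k =>
          change (R.map _ ≫ x.f ≫ σ.m 0 j _) ≫ σ.m j k _ = R.map _ ≫ x.f ≫ σ.m 0 k _
          rw [Category.assoc, Category.assoc, σ.m_comp]
    | r i =>
      cases b with
      | l j => exact h.elim
      | r j =>
        cases c with
        | l k => exact h'.elim
        | r k => exact σ.m_comp _ _ _ _ _

/-- the monotone map from a simplex to the join -/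
def jm (q p n : ℕ) : Fin (n + 1) →o Jn q p where
  toFun k := if (k : ℕ) ≤ q then .l ⟨min k q, by omega⟩ else .r ⟨min (k - q - 1) p, by omega⟩
  monotone' := by
    intro k k' h
    have h' : (k : ℕ) ≤ k' := h
    dsimp only
    split_ifs with h1 h2 h2
    · rw [Jn.le_ll, Fin.mk_le_mk]
      omega
    · exact Jn.le_lr
    · omega
    · rw [Jn.le_rr, Fin.mk_le_mk]
      omega

theorem jm_l {q p n : ℕ} {k : Fin (n + 1)} (h : (k : ℕ) ≤ q) :
    jm q p n k = .l ⟨k, by omega⟩ := by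
  have : jm q p n k = .l ⟨min k q, by omega⟩ := if_pos h
  rw [this]
  congr 1
  exact Fin.ext (min_eq_left h)

theorem jm_r {q p n : ℕ} {k : Fin (n + 1)} (h : ¬ (k : ℕ) ≤ q) :
    jm q p n k = .r ⟨min (k - q - 1) p, by omega⟩ := if_neg h

/-- faces with natural number index -/
def dlN (n i : ℕ) : Fin (n + 1) →o Fin (n + 2) where
  toFun k := ⟨if (k : ℕ) < i then (k : ℕ) else (k : ℕ) + 1, by split_ifs <;> omega⟩
  monotone' := by
    intro k k' h
    have h' : (k : ℕ) ≤ k' := h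
    rw [Fin.mk_le_mk]
    split_ifs <;> omega

theorem dlN_val (n i : ℕ) (k : Fin (n + 1)) :
    (dlN n i k : ℕ) = if (k : ℕ) < i then (k : ℕ) else (k : ℕ) + 1 := rfl

theorem dl_val {n : ℕ} (i : Fin (n + 2)) (k : Fin (n + 1)) :
    (dl i k : ℕ) = if (k : ℕ) < i then (k : ℕ) else (k : ℕ) + 1 := by
  rw [dl_apply, Fin.succAbove]
  by_cases h : k.castSucc < i
  · rw [if_pos h, if_pos (by simpa [Fin.lt_def] using h)]
    rfl
  · rw [if_neg h, if_neg (by simpa [Fin.lt_def] using h)]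
    rfl

theorem dl_eq {n : ℕ} (i : Fin (n + 2)) : dl i = dlN n i := by
  refine OrderHom.ext _ _ (funext fun k => Fin.ext ?_)
  rw [dl_val, dlN_val]

/-- maps of joins -/
def jmap {q p q' p' : ℕ} (u : Fin (q' + 1) →o Fin (q + 1)) (v : Fin (p' + 1) →o Fin (p + 1)) :
    Jn q' p' →o Jn q p where
  toFun a := match a with
    | .l i => .l (u i)
    | .r j => .r (v j)
  monotone' := by
    intro a b h
    cases a with
    | l i =>
      cases b with
      | l j => exact u.monotone h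
      | r j => exact Jn.le_lr
    | r i =>
      cases b with
      | l j => exact h.elim
      | r j => exact v.monotone h

theorem res_l (R : T ⥤ B) {p q q' : ℕ} (σ : Sx B p) (x : OvS R (σ.o 0) q)
    (u : Fin (q' + 1) →o Fin (q + 1)) :
    (jd R σ x).res (jmap u OrderHom.id) = jd R σ (OvS.pre u x) := by
  refine Dg.ext_heq (fun a => ?_) (fun a b h => ?_)
  · cases a with
    | l i => rfl
    | r j => rfl
  · cases a with
    | l i =>
      cases b with
      | l j => exact HEq.rfl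
      | r j =>
        refine heq_of_eq ?_
        change R.map (x.τ.m (u i) (Fin.last q) _) ≫ x.f ≫ σ.m 0 j _ =
          R.map (x.τ.m (u i) (u (Fin.last q')) _) ≫
            (R.map (x.τ.m (u (Fin.last q')) (Fin.last q) _) ≫ x.f) ≫ σ.m 0 j _
        rw [Category.assoc, ← Category.assoc (R.map (x.τ.m (u i) (u (Fin.last q')) _)),
          ← R.map_comp, x.τ.m_comp]
    | r i =>
      cases b with
      | l j => exact h.elim
      | r j => exact HEq.rfl

theorem res_r (R : T ⥤ B) {p q p' : ℕ} (σ : Sx B p) (x : OvS R (σ.o 0) q)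
    (v : Fin (p' + 1) →o Fin (p + 1)) :
    (jd R σ x).res (jmap OrderHom.id v) =
      jd R (pre v σ) (x.push (σ.m 0 (v 0) (Fin.zero_le _))) := by
  refine Dg.ext_heq (fun a => ?_) (fun a b h => ?_)
  · cases a with
    | l i => rfl
    | r j => rfl
  · cases a with
    | l i =>
      cases b with
      | l j => exact HEq.rfl
      | r j =>
        refine heq_of_eq ?_
        change R.map _ ≫ x.f ≫ σ.m 0 (v j) _ = R.map _ ≫ (x.f ≫ σ.m 0 (v 0) _) ≫ σ.m (v 0) (v j) _
        rw [Category.assoc, σ.m_comp]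
        rfl
    | r i =>
      cases b with
      | l j => exact h.elim
      | r j => exact HEq.rfl

/-- the join simplex -/
def jn (R : T ⥤ B) (n : ℕ) {p q : ℕ} (σ : Sx B p) (x : OvS R (σ.o 0) q) : Sx B n :=
  (jd R σ x).sx (jm q p n)

theorem comp_l {p q m : ℕ} (i : Fin (q + 2)) :
    (jm (q + 1) p (m + 1)).comp (dlN m i) = (jmap (dl i) OrderHom.id).comp (jm q p m) := by
  refine OrderHom.ext _ _ (funext fun k => ?_)
  change jm (q + 1) p (m + 1) (dlN m i k) = jmap (dl i) OrderHom.id (jm q p m k)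
  have hi := i.2
  have hv := dlN_val m i k
  by_cases h : (k : ℕ) ≤ q
  · rw [jm_l h]
    change _ = Jn.l (dl i _)
    rw [jm_l (by rw [hv]; split_ifs <;> omega)]
    congr 1
    refine Fin.ext ?_
    rw [dl_val]
    exact hv
  · rw [jm_r h]
    rw [if_neg (by omega)] at hv
    rw [jm_r (by omega)]
    change Jn.r _ = Jn.r _
    congr 1
    refine Fin.ext ?_
    change min _ _ = min _ _
    rw [hv]
    congr 1
    omega

theorem comp_r {p q m : ℕ} (hm : p + q + 1 = m) (j : Fin (p + 2)) :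
    (jm q (p + 1) (m + 1)).comp (dlN m (q + 1 + j)) =
      (jmap OrderHom.id (dl j)).comp (jm q p m) := by
  refine OrderHom.ext _ _ (funext fun k => ?_)
  change jm q (p + 1) (m + 1) (dlN m (q + 1 + j) k) = jmap OrderHom.id (dl j) (jm q p m k)
  have hj := j.2
  have hk := k.2
  have hv := dlN_val m (q + 1 + j) k
  by_cases h : (k : ℕ) ≤ q
  · rw [jm_l h]
    rw [if_pos (by omega)] at hv
    rw [jm_l (by omega)]
    change Jn.l _ = Jn.l _
    congr 1
    exact Fin.ext hv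
  · rw [jm_r h]
    change _ = Jn.r (dl j _)
    rw [jm_r (by rw [hv]; split_ifs <;> omega)]
    congr 1
    refine Fin.ext ?_
    rw [dl_val]
    change min ((dlN m (q + 1 + j) k : ℕ) - q - 1) (p + 1) = if min ((k : ℕ) - q - 1) p < j then
      min ((k : ℕ) - q - 1) p else min ((k : ℕ) - q - 1) p + 1
    rw [hv]
    split_ifs <;> omega

theorem face_l (R : T ⥤ B) {p q m : ℕ} (σ : Sx B p) (x : OvS R (σ.o 0) (q + 1))
    (i : Fin (q + 2)) :
    pre (dlN m i) (jn R (m + 1) σ x) = jn R m σ (OvS.pre (dl i) x) := by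
  change (jd R σ x).sx ((jm (q + 1) p (m + 1)).comp (dlN m i)) = _
  rw [comp_l, jn, ← res_l]
  rfl

theorem face_r (R : T ⥤ B) {p q m : ℕ} (hm : p + q + 1 = m) (σ : Sx B (p + 1))
    (x : OvS R (σ.o 0) q) (j : Fin (p + 2)) :
    pre (dlN m (q + 1 + j)) (jn R (m + 1) σ x) =
      jn R m (pre (dl j) σ) (x.push (σ.m 0 (dl j 0) (Fin.zero_le _))) := by
  change (jd R σ x).sx ((jm q (p + 1) (m + 1)).comp (dlN m (q + 1 + j))) = _
  rw [comp_r hm, jn, ← res_r]
  rfl

theorem face_l0 (R : T ⥤ B) {n : ℕ} (σ : Sx B n) (x : OvS R (σ.o 0) 0) :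
    pre (dlN n 0) (jn R (n + 1) σ x) = σ := by
  have key : ∀ k, jm 0 n (n + 1) (dlN n 0 k) = .r k := by
    intro k
    have hv := dlN_val n 0 k
    rw [if_neg (by omega)] at hv
    rw [jm_r (by omega)]
    congr 1
    refine Fin.ext ?_
    change min ((dlN n 0 k : ℕ) - 0 - 1) n = k
    rw [hv]
    have := k.2
    omega
  refine Eps1.ext_heq (fun i => ?_) (fun i j h => ?_)
  · change (jd R σ x).o (jm 0 n (n + 1) (dlN n 0 i)) = σ.o i
    rw [key]
    rfl
  · change HEq ((jd R σ x).m (jm 0 n (n + 1) (dlN n 0 i)) (jm 0 n (n + 1) (dlN n 0 j)) _) _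
    have : ∀ a b (hab : a ≤ b) (ha : a = Jn.r i) (hb : b = Jn.r j),
        HEq ((jd R σ x).m a b hab) (σ.m i j h) := by
      intro a b hab ha hb
      subst ha hb
      exact HEq.rfl
    exact this _ _ _ (key i) (key j)

theorem face_r0 (R : T ⥤ B) {n : ℕ} (σ : Sx B 0) (x : OvS R (σ.o 0) n) :
    pre (dlN n (n + 1)) (jn R (n + 1) σ x) = x.τ.push R := by
  have key : ∀ k, jm n 0 (n + 1) (dlN n (n + 1) k) = .l k := by
    intro k
    have hv := dlN_val n (n + 1) k
    have := k.2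
    rw [if_pos (by omega)] at hv
    rw [jm_l (by omega)]
    congr 1
    exact Fin.ext hv
  refine Eps1.ext_heq (fun i => ?_) (fun i j h => ?_)
  · change (jd R σ x).o (jm n 0 (n + 1) (dlN n (n + 1) i)) = _
    rw [key]
    rfl
  · change HEq ((jd R σ x).m (jm n 0 (n + 1) (dlN n (n + 1) i))
      (jm n 0 (n + 1) (dlN n (n + 1) j)) _) _
    have : ∀ a b (hab : a ≤ b) (ha : a = Jn.l i) (hb : b = Jn.l j),
        HEq ((jd R σ x).m a b hab) (R.map (x.τ.m i j h)) := by
      intro a b hab ha hb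
      subst ha hb
      exact HEq.rfl
    exact this _ _ _ (key i) (key j)

/-- the linear map of the join -/
noncomputable def jl (R : T ⥤ B) (n p q : ℕ) : BarX (ovF R q) p →ₗ[ℚ] (Sx B n →₀ ℚ) :=
  bdesc (ovF R q) fun σ => Finsupp.lmapDomain ℚ ℚ (fun x : OvS R (σ.o 0) q => jn R n σ x)

theorem jl_pt (R : T ⥤ B) (n p q : ℕ) (σ : Sx B p) (x : OvS R (σ.o 0) q) :
    jl R n p q (Eps1.pt R q σ x) = Finsupp.single (jn R n σ x) 1 := by
  unfold jl
  rw [Eps1.pt, bdesc_bof]
  exact Finsupp.mapDomain_single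

theorem pt_ext (R : T ⥤ B) (q : ℕ) {p : ℕ} {V : Type} [AddCommGroup V] [Module ℚ V]
    (f g : BarX (ovF R q) p →ₗ[ℚ] V) (h : ∀ σ x, f (Eps1.pt R q σ x) = g (Eps1.pt R q σ x))
    (y : BarX (ovF R q) p) : f y = g y := LinearMap.congr_fun (Eps1.pt_ind R q h) y

/-- the first faces -/
noncomputable def fl (n q : ℕ) : (Sx B (n + 1) →₀ ℚ) →ₗ[ℚ] (Sx B n →₀ ℚ) :=
  ∑ i : Fin (q + 1), ((-1 : ℚ) ^ (i : ℕ)) • Finsupp.lmapDomain ℚ ℚ (pre (dlN n i))

/-- the last faces -/
noncomputable def fr (n p q : ℕ) : (Sx B (n + 1) →₀ ℚ) →ₗ[ℚ] (Sx B n →₀ ℚ) :=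
  ∑ j : Fin (p + 1), ((-1 : ℚ) ^ (j : ℕ)) • Finsupp.lmapDomain ℚ ℚ (pre (dlN n (q + 1 + j)))

theorem fl_single (n q : ℕ) (σ : Sx B (n + 1)) : fl n q (Finsupp.single σ 1) =
    ∑ i : Fin (q + 1), ((-1 : ℚ) ^ (i : ℕ)) • Finsupp.single (pre (dlN n i) σ) (1 : ℚ) := by
  unfold fl
  rw [LinearMap.sum_apply]
  refine Finset.sum_congr rfl fun i _ => ?_
  rw [LinearMap.smul_apply]
  congr 1
  exact Finsupp.mapDomain_single

theorem fr_single (n p q : ℕ) (σ : Sx B (n + 1)) : fr n p q (Finsupp.single σ 1) =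
    ∑ j : Fin (p + 1), ((-1 : ℚ) ^ (j : ℕ)) •
      Finsupp.single (pre (dlN n (q + 1 + j)) σ) (1 : ℚ) := by
  unfold fr
  rw [LinearMap.sum_apply]
  refine Finset.sum_congr rfl fun i _ => ?_
  rw [LinearMap.smul_apply]
  congr 1
  exact Finsupp.mapDomain_single

theorem sum_split {M : Type} [AddCommMonoid M] (N a b : ℕ) (h : N = a + b) (f : ℕ → M) :
    ∑ i : Fin N, f i = ∑ i : Fin a, f i + ∑ j : Fin b, f (a + j) := by
  subst h
  rw [Fin.sum_univ_add]
  rfl

theorem d_eq (n p q : ℕ) (h : p + q = n) (y : Sx B (n + 1) →₀ ℚ) :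
    (NC B).d n y = fl n q y + ((-1 : ℚ) ^ (q + 1)) • fr n p q y := by
  have : (NC B).d n = fl n q + ((-1 : ℚ) ^ (q + 1)) • fr n p q := by
    refine Finsupp.lhom_ext' fun σ => LinearMap.ext_ring ?_
    change (NC B).d n (Finsupp.single σ 1) = fl n q (Finsupp.single σ 1) +
      ((-1 : ℚ) ^ (q + 1)) • fr n p q (Finsupp.single σ 1)
    rw [NC_d_single, fl_single, fr_single]
    have h2 := sum_split (n + 2) (q + 1) (p + 1) (by omega)
      (fun i : ℕ => ((-1 : ℚ) ^ i) • Finsupp.single (pre (dlN n i) σ) (1 : ℚ))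
    have h3 : (∑ i : Fin (n + 2), ((-1 : ℚ) ^ (i : ℕ)) • Finsupp.single (pre (dl i) σ) (1 : ℚ)) =
        ∑ i : Fin (n + 2), ((-1 : ℚ) ^ (i : ℕ)) • Finsupp.single (pre (dlN n i) σ) (1 : ℚ) :=
      Finset.sum_congr rfl fun i _ => by rw [dl_eq]
    rw [h3, h2, Finset.smul_sum]
    congr 1
    refine Finset.sum_congr rfl fun i _ => ?_
    rw [smul_smul, pow_add]
  exact LinearMap.congr_fun this y

theorem V0 (R : T ⥤ B) (n : ℕ) (x : BarX (ovF R 0) n) :
    fl n 0 (jl R (n + 1) n 0 x) = (eps2 R).e n x := by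
  refine pt_ext R 0 ((fl n 0).comp (jl R (n + 1) n 0)) ((eps2 R).e n) (fun σ x => ?_) x
  rw [LinearMap.comp_apply, jl_pt, fl_single, Fin.sum_univ_one]
  change _ • Finsupp.single (pre (dlN n 0) _) (1 : ℚ) = bdesc _ _ (bof _ _ _)
  rw [face_l0, bdesc_bof]
  change _ = Finsupp.single σ (Finsupp.linearCombination ℚ _ (Finsupp.single x 1))
  rw [Finsupp.linearCombination_single]
  simp

theorem VS (R : T ⥤ B) (n p q : ℕ) (h : p + q = n) (x : BarX (ovF R (q + 1)) p) :
    fl (n + 1) (q + 1) (jl R (n + 2) p (q + 1) x) =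
      jl R (n + 1) p q ((overL R).hoco.dv p q x) := by
  refine pt_ext R (q + 1) ((fl (n + 1) (q + 1)).comp (jl R (n + 2) p (q + 1)))
    ((jl R (n + 1) p q).comp ((overL R).hoco.dv p q)) (fun σ x => ?_) x
  rw [LinearMap.comp_apply, LinearMap.comp_apply, jl_pt, fl_single]
  have h1 : (overL R).hoco.dv p q (Eps1.pt R (q + 1) σ x) =
      ∑ i : Fin (q + 2), ((-1 : ℚ) ^ (i : ℕ)) • Eps1.pt R q σ (OvS.pre (dl i) x) := by
    refine (OvIso.barHom_bof _ _ _).trans ?_
    change bof (ovF R q) σ ((ovS R (σ.o 0)).alt q (Finsupp.single x 1)) = _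
    rw [SMod.alt_apply, map_sum]
    refine Finset.sum_congr rfl fun i _ => ?_
    rw [map_smul]
    congr 2
    exact Finsupp.mapDomain_single
  rw [h1, map_sum]
  refine Finset.sum_congr rfl fun i _ => ?_
  rw [map_smul, jl_pt, face_l]

theorem W0 (R : T ⥤ B) (n : ℕ) (x : BarX (ovF R n) 0) :
    fr n 0 n (jl R (n + 1) 0 n x) = (NCmap R).f n ((eps1 R).e n x) := by
  refine pt_ext R n ((fr n 0 n).comp (jl R (n + 1) 0 n)) (((NCmap R).f n).comp ((eps1 R).e n))
    (fun σ x => ?_) x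
  rw [LinearMap.comp_apply, LinearMap.comp_apply, jl_pt, fr_single, Fin.sum_univ_one, Eps1.e_pt,
    NCmap_single]
  change _ • Finsupp.single (pre (dlN n (n + 1)) _) (1 : ℚ) = _
  rw [face_r0]
  simp

theorem WS (R : T ⥤ B) (n p q : ℕ) (h : p + q = n) (x : BarX (ovF R q) (p + 1)) :
    fr (n + 1) (p + 1) q (jl R (n + 2) (p + 1) q x) =
      jl R (n + 1) p q ((overL R).hoco.dh p q x) := by
  refine pt_ext R q ((fr (n + 1) (p + 1) q).comp (jl R (n + 2) (p + 1) q))
    ((jl R (n + 1) p q).comp ((overL R).hoco.dh p q)) (fun σ x => ?_) x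
  rw [LinearMap.comp_apply, LinearMap.comp_apply, jl_pt, fr_single]
  have h1 : (overL R).hoco.dh p q (Eps1.pt R q σ x) = _ := Eps1.d_pt R q σ x
  rw [h1, map_sum]
  refine Finset.sum_congr rfl fun i _ => ?_
  rw [map_smul, jl_pt, face_r R (by omega)]

/-- signs -/
def sg (p q : ℕ) : ℚ := (-1) ^ ((p + 1) * q)

theorem sg0 (p : ℕ) : sg p 0 = 1 := by simp [sg]

theorem sgq (p q : ℕ) : sg p (q + 1) = - ((-1) ^ p * sg p q) := by
  unfold sg
  rw [Nat.mul_succ, pow_add, pow_succ]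
  ring

theorem sgp (p q : ℕ) : sg (p + 1) q = (-1) ^ q * sg p q := by
  unfold sg
  rw [← pow_add]
  congr 1
  ring

theorem sg1 (q : ℕ) : sg 0 q = (-1) ^ q := by simp [sg]

theorem sq1 (q : ℕ) : ((-1 : ℚ) ^ q) * ((-1) ^ q) = 1 := by
  rw [← mul_pow]
  norm_num

/-- the homotopy -/
noncomputable def hh (R : T ⥤ B) (n : ℕ) (a : (p q : ℕ) → (overL R).hoco.X p q) :
    Sx B (n + 1) →₀ ℚ :=
  ∑ pq ∈ Finset.HasAntidiagonal.antidiagonal n, sg pq.1 pq.2 • jl R (n + 1) pq.1 pq.2 (a pq.1 pq.2)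

theorem d_hh_zero (R : T ⥤ B) (a : (p q : ℕ) → (overL R).hoco.X p q) :
    (NC B).d 0 (hh R 0 a) = (eps2 R).e 0 (a 0 0) - (NCmap R).f 0 ((eps1 R).e 0 (a 0 0)) := by
  unfold hh
  rw [Finset.Nat.antidiagonal_zero, Finset.sum_singleton, sg0, one_smul, d_eq 0 0 0 rfl, V0, W0]
  simp [sub_eq_add_neg]

open Finset.HasAntidiagonal in
theorem abs_sum {M : Type} [AddCommGroup M] [Module ℚ M] (n : ℕ) (F W X Y : ℕ → ℕ → M)
    (E1 E2 : M) (hF0 : F (n + 1) 0 = E2) (hFS : ∀ p q, p + q = n → F p (q + 1) = X p q)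
    (hW0 : W 0 (n + 1) = E1) (hWS : ∀ p q, p + q = n → W (p + 1) q = Y p q) :
    (∑ pq ∈ antidiagonal (n + 1), (sg pq.1 pq.2 • F pq.1 pq.2 +
      (sg pq.1 pq.2 * (-1) ^ (pq.2 + 1)) • W pq.1 pq.2)) +
      ∑ pq ∈ antidiagonal n, sg pq.1 pq.2 • (Y pq.1 pq.2 + ((-1 : ℚ) ^ pq.1) • X pq.1 pq.2) =
      E2 - E1 := by
  rw [Finset.sum_add_distrib, Finset.Nat.sum_antidiagonal_succ', Finset.Nat.sum_antidiagonal_succ]
  have h2 : ∀ pq ∈ antidiagonal n, sg pq.1 (pq.2 + 1) • F pq.1 (pq.2 + 1) =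
      (- ((-1) ^ pq.1 * sg pq.1 pq.2)) • X pq.1 pq.2 := by
    intro pq hpq
    rw [mem_antidiagonal] at hpq
    rw [hFS pq.1 pq.2 hpq, sgq]
  have h3 : ∀ pq ∈ antidiagonal n, (sg (pq.1 + 1) pq.2 * (-1) ^ (pq.2 + 1)) • W (pq.1 + 1) pq.2 =
      (- sg pq.1 pq.2) • Y pq.1 pq.2 := by
    intro pq hpq
    rw [mem_antidiagonal] at hpq
    rw [hWS pq.1 pq.2 hpq, sgp]
    congr 1
    rw [pow_succ]
    linear_combination (- sg pq.1 pq.2) * sq1 pq.2
  have h4 : ∀ pq ∈ antidiagonal n, sg pq.1 pq.2 • (Y pq.1 pq.2 + ((-1 : ℚ) ^ pq.1) • X pq.1 pq.2) =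
      sg pq.1 pq.2 • Y pq.1 pq.2 + ((-1) ^ pq.1 * sg pq.1 pq.2) • X pq.1 pq.2 := by
    intro pq _
    rw [smul_add, smul_smul, mul_comm]
  rw [Finset.sum_congr rfl h4, Finset.sum_add_distrib]
  have h2' := Finset.sum_congr rfl h2
  have h3' := Finset.sum_congr rfl h3
  have h5 : (sg 0 (n + 1) * (-1) ^ (n + 1 + 1)) = -1 := by
    rw [sg1, pow_succ ((-1 : ℚ)) (n + 1), ← mul_assoc, sq1]
    norm_num
  simp only [h2', h3', hF0, hW0, h5, sg0, one_smul, neg_smul, Finset.sum_neg_distrib]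
  abel

theorem d_hh_succ (R : T ⥤ B) (n : ℕ) (a : (p q : ℕ) → (overL R).hoco.X p q) :
    (NC B).d (n + 1) (hh R (n + 1) a) + hh R n ((overL R).hoco.totd a) =
      (eps2 R).e (n + 1) (a (n + 1) 0) - (NCmap R).f (n + 1) ((eps1 R).e (n + 1) (a 0 (n + 1))) := by
  have h1 : (NC B).d (n + 1) (hh R (n + 1) a) =
      ∑ pq ∈ Finset.HasAntidiagonal.antidiagonal (n + 1),
      (sg pq.1 pq.2 • fl (n + 1) pq.2 (jl R (n + 2) pq.1 pq.2 (a pq.1 pq.2)) +
        (sg pq.1 pq.2 * (-1) ^ (pq.2 + 1)) •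
          fr (n + 1) pq.1 pq.2 (jl R (n + 2) pq.1 pq.2 (a pq.1 pq.2))) := by
    unfold hh
    rw [map_sum]
    refine Finset.sum_congr rfl fun pq hpq => ?_
    rw [Finset.HasAntidiagonal.mem_antidiagonal] at hpq
    rw [map_smul, d_eq (n + 1) pq.1 pq.2 hpq, smul_add, smul_smul]
  have h2 : hh R n ((overL R).hoco.totd a) = ∑ pq ∈ Finset.HasAntidiagonal.antidiagonal n,
      sg pq.1 pq.2 • (jl R (n + 1) pq.1 pq.2 ((overL R).hoco.dh pq.1 pq.2 (a (pq.1 + 1) pq.2)) +
        ((-1 : ℚ) ^ pq.1) • jl R (n + 1) pq.1 pq.2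
          ((overL R).hoco.dv pq.1 pq.2 (a pq.1 (pq.2 + 1)))) := by
    unfold hh
    refine Finset.sum_congr rfl fun pq hpq => ?_
    rw [DCx.totd_apply, map_add, map_smul]
  rw [h1, h2]
  exact abs_sum n (fun p q => fl (n + 1) q (jl R (n + 2) p q (a p q)))
    (fun p q => fr (n + 1) p q (jl R (n + 2) p q (a p q)))
    (fun p q => jl R (n + 1) p q ((overL R).hoco.dv p q (a p (q + 1))))
    (fun p q => jl R (n + 1) p q ((overL R).hoco.dh p q (a (p + 1) q))) _ _
    (V0 R (n + 1) _) (fun p q h => VS R n p q h _) (W0 R (n + 1) _) (fun p q h => WS R n p q h _)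

end Join
end C715
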