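import Pool.Agent.Work.MP_c71557_gt.H.Prism
import Pool.Agent.Work.MP_c71557_gt.H.Defs3

set_option autoImplicit false

/-!
# MP_c71557_gt, module H/LocNat: locally naturally isomorphic functors (M)

`HCmap_locNat`: `F, G : C ⥤ D`; for every finite set `O` of objects and every finite set `M` of
arrows there are `t x : F x ⟶ G x` (`x ∈ O`), natural for the arrows in `M` between objects of `O`.
Then `F`, `G` induce the same maps on homology.

PROOF.  Let `z` be a cycle, a finite combination of simplices; `O` the set of their objects,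
`M` the set of all arrows `σ.m i j`.  Let `C0` be the category with objects `{x // x ∈ O}` and
arrows the arrows of `C` for which `t` is natural: `{f : a ⟶ b // F f ≫ t b = t a ≫ G f}` (closed
under composition and identities).  There is a faithful functor `i : C0 ⥤ C`; all simplices of `z`
lift to `C0`, the lifted chain is a cycle because `σ ↦ σ.push i` is injective, and `t` is a natural
transformation `i ⋙ F ⟶ i ⋙ G`.  Use `HCmap_natTrans` and `HCmap_comp`.

`HCmap_locConj` is the special case of one object categories `N'/N`.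
-/

namespace C715

open CategoryTheory

variable {C : Type} [SmallCategory C] {D : Type} [SmallCategory D]

/-- objects of `O` -/
private structure LO {F G : C ⥤ D} {O : Set C} (t : ∀ x : C, x ∈ O → (F.obj x ⟶ G.obj x)) where
  x : C
  hx : x ∈ O

section lo

variable {F G : C ⥤ D} {O : Set C} (t : ∀ x : C, x ∈ O → (F.obj x ⟶ G.obj x))

private instance : SmallCategory (LO t) where
  Hom a b := {f : a.x ⟶ b.x // F.map f ≫ t b.x b.hx = t a.x a.hx ≫ G.map f}
  id a := ⟨𝟙 a.x, by rw [F.map_id, G.map_id, Category.id_comp, Category.comp_id]⟩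
  comp f g := ⟨f.1 ≫ g.1, by
    rw [F.map_comp, G.map_comp, Category.assoc, g.2, ← Category.assoc, f.2, Category.assoc]⟩
  id_comp f := Subtype.ext (Category.id_comp _)
  comp_id f := Subtype.ext (Category.comp_id _)
  assoc f g h := Subtype.ext (Category.assoc _ _ _)

/-- the inclusion -/
private def inc : LO t ⥤ C where
  obj a := a.x
  map f := f.1
  map_id _ := rfl
  map_comp _ _ := rfl

/-- the natural transformation -/
private def nt : inc t ⋙ F ⟶ inc t ⋙ G where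
  app a := t a.x a.hx
  naturality _ _ f := f.2

/-- simplices that lift -/
private def Good {n : ℕ} (σ : Sx C n) : Prop :=
  ∃ h : ∀ i, σ.o i ∈ O, ∀ i j hij,
    F.map (σ.m i j hij) ≫ t _ (h j) = t _ (h i) ≫ G.map (σ.m i j hij)

variable {t}

private theorem Good.pre {m n : ℕ} {σ : Sx C n} (h : Good t σ)
    (φ : Fin (m + 1) →o Fin (n + 1)) : Good t (pre φ σ) :=
  ⟨fun i => h.1 (φ i), fun i j hij => h.2 (φ i) (φ j) (φ.monotone hij)⟩

variable (t)

/-- the lift -/
private def lft {n : ℕ} (σ : Sx C n) (h : Good t σ) : Sx (LO t) n where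
  o i := ⟨σ.o i, h.1 i⟩
  m i j hij := ⟨σ.m i j hij, h.2 i j hij⟩
  m_self i := Subtype.ext (σ.m_self i)
  m_comp i j k h h' := Subtype.ext (σ.m_comp i j k h h')

open Classical in
/-- linear lift -/
private noncomputable def lin (n : ℕ) : (NC C).X n →ₗ[ℚ] (NC (LO t)).X n :=
  Finsupp.lsum ℚ fun σ => if h : Good t σ then Finsupp.lsingle (lft t σ h) else 0

private theorem lin_single {n : ℕ} (σ : Sx C n) (h : Good t σ)
    (a : ℚ) : lin t n (Finsupp.single σ a) = Finsupp.single (lft t σ h) a := by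
  unfold lin
  rw [Finsupp.lsum_single, dif_pos h]
  rfl

private theorem good_ind {n : ℕ} {V : Type} [AddCommGroup V]
    [Module ℚ V] (f g : (NC C).X n →ₗ[ℚ] V) (h : ∀ σ a, Good t σ →
      f (Finsupp.single σ a) = g (Finsupp.single σ a)) (y : Sx C n →₀ ℚ)
    (hy : ∀ σ ∈ y.support, Good t σ) : f y = g y := by
  have h1 : y = ∑ σ ∈ y.support, Finsupp.single σ (y σ) := (Finsupp.sum_single y).symm
  rw [h1]
  refine (map_sum f _ _).trans (Eq.trans ?_ (map_sum g _ _).symm)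
  exact Finset.sum_congr rfl fun σ hσ => h σ _ (hy σ hσ)

private theorem lin_d {n : ℕ} (y : Sx C (n + 1) →₀ ℚ)
    (hy : ∀ σ ∈ y.support, Good t σ) :
    lin t n ((NC C).d n y) = (NC (LO t)).d n (lin t (n + 1) y) := by
  refine good_ind t ((lin t n).comp ((NC C).d n)) (((NC (LO t)).d n).comp (lin t (n + 1)))
    (fun σ a h => ?_) y hy
  rw [LinearMap.comp_apply, LinearMap.comp_apply, NC_d_single, lin_single t σ h, NC_d_single,
    map_sum]
  refine Finset.sum_congr rfl fun i _ => ?_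
  rw [map_smul, lin_single t _ (h.pre (dl i))]
  rfl

private theorem lin_push {n : ℕ} (y : Sx C n →₀ ℚ)
    (hy : ∀ σ ∈ y.support, Good t σ) :
    (NCmap (inc t)).f n (lin t n y) = y := by
  refine good_ind t (((NCmap (inc t)).f n).comp (lin t n)) LinearMap.id
    (fun σ a h => ?_) y hy
  rw [LinearMap.comp_apply, lin_single t σ h, NCmap_single]
  rfl

private theorem lin_Z {n : ℕ} (y : Sx C n →₀ ℚ)
    (hy : ∀ σ ∈ y.support, Good t σ) (hz : y ∈ (NC C).Z n) : lin t n y ∈ (NC (LO t)).Z n := by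
  cases n with
  | zero => trivial
  | succ n =>
    rw [Cx.mem_Z_succ, ← lin_d t y hy, Cx.mem_Z_succ.1 hz, map_zero]

end lo

theorem HCmap_locNat (F G : C ⥤ D)
    (h : ∀ (O : Set C) (M : Set (Σ a b : C, (a ⟶ b))), O.Finite → M.Finite →
      ∃ t : ∀ x : C, x ∈ O → (F.obj x ⟶ G.obj x),
        ∀ (a b : C) (f : a ⟶ b) (ha : a ∈ O) (hb : b ∈ O),
          (⟨a, b, f⟩ : Σ a b : C, (a ⟶ b)) ∈ M → F.map f ≫ t b hb = t a ha ≫ G.map f)
    (n : ℕ) : HCmap F n = HCmap G n := by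
  classical
  refine LinearMap.ext fun x => ?_
  obtain ⟨z, hz, rfl⟩ := Cx.H_surj x
  let g : {σ // σ ∈ Finsupp.support (z : Sx C n →₀ ℚ)} ×
      {q : Fin (n + 1) × Fin (n + 1) // q.1 ≤ q.2} → (Σ a b : C, (a ⟶ b)) := fun p =>
    ⟨p.1.1.o p.2.1.1, p.1.1.o p.2.1.2, p.1.1.m _ _ p.2.2⟩
  let q : {σ // σ ∈ Finsupp.support (z : Sx C n →₀ ℚ)} × Fin (n + 1) → C := fun p => p.1.1.o p.2
  obtain ⟨t, ht⟩ := h (Set.range q) (Set.range g) (Set.finite_range q) (Set.finite_range g)
  have hgood : ∀ σ ∈ Finsupp.support (z : Sx C n →₀ ℚ), Good t σ := fun σ hσ =>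
    ⟨fun i => ⟨(⟨σ, hσ⟩, i), rfl⟩, fun i j hij => ht _ _ _ _ _ ⟨(⟨σ, hσ⟩, ⟨(i, j), hij⟩), rfl⟩⟩
  have hZ := lin_Z t z hgood hz
  have h1 : (NC C).cls n z hz = HCmap (inc t) n ((NC (LO t)).cls n _ hZ) := by
    rw [Cx.H_cls, Cx.cls_eq, lin_push t z hgood, sub_self]
    exact Submodule.zero_mem _
  rw [h1, ← HCmap_comp, ← HCmap_comp, HCmap_natTrans (nt t) n]

theorem HCmap_locConj {Γ : Type} [Group Γ] (A : ActCat Γ) [Subsingleton A.Ob] (a : A.Ob)
    (F G : A.Obj ⥤ D)
    (h : ∀ M : Set Γ, M.Finite → (∀ g ∈ M, A.Adm a g a) →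
      ∃ t : F.obj ⟨a⟩ ⟶ G.obj ⟨a⟩, ∀ (g : Γ) (hg : A.Adm a g a), g ∈ M →
        F.map (A.hom g hg) ≫ t = t ≫ G.map (A.hom g hg))
    (n : ℕ) : HCmap F n = HCmap G n := by
  refine HCmap_locNat F G (fun O M hO hM => ?_) n
  have key : ∀ x : A.Obj, x = ⟨a⟩ := fun x => ActCat.Obj.ext (Subsingleton.elim _ _)
  have h0 : ∀ f : (Σ x y : A.Obj, (x ⟶ y)), ∃ g : Γ, ∃ hg : A.Adm f.1.o g f.2.1.o,
      f.2.2 = A.hom g hg := fun f => ActCat.hom_surj _
  choose r hr e using h0
  have hr' : ∀ g ∈ r '' M, A.Adm a g a := by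
    rintro _ ⟨f, hf, rfl⟩
    have h1 := hr f
    rwa [Subsingleton.elim f.1.o a, Subsingleton.elim f.2.1.o a] at h1
  obtain ⟨t, ht⟩ := h (r '' M) (hM.image r) hr'
  refine ⟨fun x _ => eqToHom (by rw [key x]) ≫ t ≫ eqToHom (by rw [key x]), ?_⟩
  intro x y f hx hy hf
  obtain rfl := key x
  obtain rfl := key y
  beta_reduce
  rw [eqToHom_refl, eqToHom_refl, Category.id_comp, Category.comp_id]
  have h2 := ht (r ⟨⟨a⟩, ⟨a⟩, f⟩) (hr ⟨⟨a⟩, ⟨a⟩, f⟩) ⟨_, hf, rfl⟩
  have h3 := e ⟨⟨a⟩, ⟨a⟩, f⟩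
  change f = _ at h3
  rw [h3]
  exact h2

end C715
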