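import Pool.Agent.Work.MP_c71557_gt.H.Defs

set_option autoImplicit false
set_option linter.unusedVariables false

/-!
# MP_c71557_gt, block H: simplicial modules, the chain complex of a small category

Simplices of the nerve are *functions* (structure `Sx`), so that all simplicial identities are
definitional.
-/

namespace C715

open CategoryTheory

/-- the `i`-th face `[n] → [n+1]` -/
def dl {n : ℕ} (i : Fin (n + 2)) : Fin (n + 1) →o Fin (n + 2) :=
  (Fin.succAboveOrderEmb i).toOrderHom

theorem dl_apply {n : ℕ} (i : Fin (n + 2)) (k : Fin (n + 1)) : dl i k = i.succAbove k := rfl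

theorem dl_comp {n : ℕ} {i j : Fin (n + 2)} (h : i ≤ j) :
    (dl j.succ).comp (dl i) = (dl i.castSucc).comp (dl j) := by
  ext k
  change ((j.succ.succAbove (i.succAbove k) : Fin (n + 3)) : ℕ) =
    ((i.castSucc.succAbove (j.succAbove k) : Fin (n + 3)) : ℕ)
  dsimp [Fin.succAbove]
  rcases i with ⟨i, _⟩
  rcases j with ⟨j, _⟩
  rcases k with ⟨k, _⟩
  split_ifs <;> · simp at * <;> lia

/-- a simplicial rational vector space (contravariant action of monotone maps) -/
structure SMod where
  X : ℕ → Type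
  [ac : ∀ n, AddCommGroup (X n)]
  [mo : ∀ n, Module ℚ (X n)]
  map : ∀ {m n : ℕ}, (Fin (m + 1) →o Fin (n + 1)) → X n →ₗ[ℚ] X m
  map_id : ∀ {n : ℕ} (x : X n), map OrderHom.id x = x
  map_comp : ∀ {l m n : ℕ} (φ : Fin (l + 1) →o Fin (m + 1)) (ψ : Fin (m + 1) →o Fin (n + 1))
    (x : X n), map (ψ.comp φ) x = map φ (map ψ x)

attribute [instance] SMod.ac SMod.mo

namespace SMod

/-- alternating sum of the faces -/
def alt (S : SMod) (n : ℕ) : S.X (n + 1) →ₗ[ℚ] S.X n :=
  ∑ i : Fin (n + 2), ((-1 : ℚ) ^ (i : ℕ)) • S.map (dl i)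

theorem alt_apply (S : SMod) (n : ℕ) (x : S.X (n + 1)) :
    S.alt n x = ∑ i : Fin (n + 2), ((-1 : ℚ) ^ (i : ℕ)) • S.map (dl i) x := by
  simp [alt]

theorem alt_alt (S : SMod) (n : ℕ) (x : S.X (n + 2)) : S.alt n (S.alt (n + 1) x) = 0 := by
  simp only [alt_apply, map_sum, map_smul, Finset.smul_sum, smul_smul]
  rw [Finset.sum_comm]
  rw [← Finset.sum_product']
  let P := Fin (n + 2) × Fin (n + 3)
  let S' : Finset P := {ij : P | (ij.2 : ℕ) ≤ (ij.1 : ℕ)}
  rw [Finset.univ_product_univ, ← Finset.sum_add_sum_compl S', ← eq_neg_iff_add_eq_zero,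
    ← Finset.sum_neg_distrib]
  let φ : ∀ ij : P, ij ∈ S' → P := fun ij hij =>
    (Fin.castLT ij.2 (lt_of_le_of_lt (Finset.mem_filter.mp hij).right (Fin.is_lt ij.1)), ij.1.succ)
  apply Finset.sum_bij φ
  · intro ij hij
    simp_rw [S', φ, Finset.compl_filter, Finset.mem_filter_univ, Fin.val_succ,
      Fin.val_castLT] at hij ⊢
    lia
  · rintro ⟨i, j⟩ hij ⟨i', j'⟩ hij' h
    rw [Prod.mk_inj]
    exact ⟨by simpa [φ] using! congr_arg Prod.snd h,
      by simpa [φ, Fin.castSucc_castLT] using! congr_arg Fin.castSucc (congr_arg Prod.fst h)⟩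
  · rintro ⟨i', j'⟩ hij'
    simp_rw [S', Finset.compl_filter, Finset.mem_filter_univ, not_le] at hij'
    refine ⟨(j'.pred <| ?_, Fin.castSucc i'), ?_, ?_⟩
    · rintro rfl
      simp only [Fin.val_zero, not_lt_zero] at hij'
    · simpa [S'] using! Nat.le_sub_one_of_lt hij'
    · simp only [φ, Fin.castLT_castSucc, Fin.succ_pred]
  · rintro ⟨i, j⟩ hij
    have hle : (j : ℕ) ≤ (i : ℕ) := (Finset.mem_filter.mp hij).right
    have hc : (Fin.castLT j (lt_of_le_of_lt hle i.is_lt) : Fin (n + 2)) ≤ i := by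
      simpa [Fin.le_def] using hle
    have key := dl_comp hc
    rw [Fin.castSucc_castLT] at key
    simp only [φ, Fin.val_succ, Fin.val_castLT]
    rw [← S.map_comp, ← S.map_comp, key, ← neg_smul]
    congr 1
    ring

/-- the alternating face complex -/
abbrev cx (S : SMod) : Cx where
  X := S.X
  d := S.alt
  dd := S.alt_alt

/-- morphisms of simplicial modules -/
@[ext] structure Hom (S T : SMod) where
  f : ∀ n, S.X n →ₗ[ℚ] T.X n
  comm : ∀ {m n : ℕ} (φ : Fin (m + 1) →o Fin (n + 1)) (x : S.X n),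
    f m (S.map φ x) = T.map φ (f n x)

/-- induced chain map -/
abbrev Hom.cx {S T : SMod} (f : Hom S T) : Cx.Hom S.cx T.cx where
  f := f.f
  comm n x := by
    change f.f n (S.alt n x) = T.alt n (f.f (n + 1) x)
    rw [alt_apply, alt_apply, map_sum]
    exact Finset.sum_congr rfl fun i _ => by rw [map_smul, f.comm]

end SMod

section nerve

/-- `n`-simplices of the nerve of a small category -/
@[ext] structure Sx (C : Type) [SmallCategory C] (n : ℕ) where
  o : Fin (n + 1) → C
  m : ∀ i j : Fin (n + 1), i ≤ j → (o i ⟶ o j)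
  m_self : ∀ i, m i i le_rfl = 𝟙 (o i)
  m_comp : ∀ i j k (h : i ≤ j) (h' : j ≤ k), m i j h ≫ m j k h' = m i k (h.trans h')

variable {C : Type} [SmallCategory C] {D : Type} [SmallCategory D]

/-- precomposition with a monotone map -/
abbrev pre {m n : ℕ} (φ : Fin (m + 1) →o Fin (n + 1)) (σ : Sx C n) : Sx C m where
  o i := σ.o (φ i)
  m i j h := σ.m (φ i) (φ j) (φ.monotone h)
  m_self i := σ.m_self _
  m_comp i j k h h' := σ.m_comp _ _ _ _ _

/-- image of a simplex under a functor -/
abbrev Sx.push {n : ℕ} (F : C ⥤ D) (σ : Sx C n) : Sx D n where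
  o i := F.obj (σ.o i)
  m i j h := F.map (σ.m i j h)
  m_self i := by rw [σ.m_self, F.map_id]
  m_comp i j k h h' := by rw [← F.map_comp, σ.m_comp]

theorem pre_id {n : ℕ} (σ : Sx C n) : pre OrderHom.id σ = σ := rfl

theorem pre_pre {l m n : ℕ} (φ : Fin (l + 1) →o Fin (m + 1)) (ψ : Fin (m + 1) →o Fin (n + 1))
    (σ : Sx C n) : pre φ (pre ψ σ) = pre (ψ.comp φ) σ := rfl

theorem pre_push {m n : ℕ} (φ : Fin (m + 1) →o Fin (n + 1)) (F : C ⥤ D) (σ : Sx C n) :
    pre φ (σ.push F) = (pre φ σ).push F := rfl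

variable (C)

/-- the simplicial module of chains of the nerve -/
noncomputable abbrev NS : SMod where
  X n := Sx C n →₀ ℚ
  map φ := Finsupp.lmapDomain ℚ ℚ (pre φ)
  map_id x := by
    change Finsupp.mapDomain _ x = x
    exact Finsupp.mapDomain_id
  map_comp φ ψ x := by
    change Finsupp.mapDomain _ x = Finsupp.mapDomain _ (Finsupp.mapDomain _ x)
    rw [← Finsupp.mapDomain_comp]
    rfl

/-- the chain complex of a small category (rational chains of the nerve) -/
noncomputable abbrev NC : Cx := (NS C).cx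

variable {C}

/-- the chain map of a functor -/
noncomputable abbrev NSmap (F : C ⥤ D) : SMod.Hom (NS C) (NS D) where
  f n := Finsupp.lmapDomain ℚ ℚ (fun σ : Sx C n => σ.push F)
  comm {m n} φ x := by
    change Finsupp.mapDomain (fun σ : Sx C m => σ.push F) (Finsupp.mapDomain (pre φ)
      (x : Sx C n →₀ ℚ)) = Finsupp.mapDomain (pre φ) (Finsupp.mapDomain
      (fun σ : Sx C n => σ.push F) (x : Sx C n →₀ ℚ))
    rw [← Finsupp.mapDomain_comp, ← Finsupp.mapDomain_comp]
    rfl

/-- the chain map of a functor -/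
noncomputable abbrev NCmap (F : C ⥤ D) : Cx.Hom (NC C) (NC D) := (NSmap F).cx

theorem NC_d_single {n : ℕ} (σ : Sx C (n + 1)) (a : ℚ) :
    (NC C).d n (Finsupp.single σ a) =
      ∑ i : Fin (n + 2), ((-1 : ℚ) ^ (i : ℕ)) • Finsupp.single (pre (dl i) σ) a := by
  change (NS C).alt n _ = _
  rw [SMod.alt_apply]
  exact Finset.sum_congr rfl fun i _ => by
    change _ • Finsupp.mapDomain _ _ = _
    rw [Finsupp.mapDomain_single]

theorem NCmap_single {n : ℕ} (F : C ⥤ D) (σ : Sx C n) (a : ℚ) :
    (NCmap F).f n (Finsupp.single σ a) = Finsupp.single (σ.push F) a :=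
  Finsupp.mapDomain_single

variable (C) in
/-- homology of a small category with rational coefficients -/
abbrev HC (n : ℕ) : Type := (NC C).H n

/-- induced map on the homology of categories -/
noncomputable abbrev HCmap (F : C ⥤ D) (n : ℕ) : HC C n →ₗ[ℚ] HC D n := (NCmap F).H n

/-- a category whose homology is that of a point: connected (`H_0 = ℚ`, i.e. nonempty and all
objects homologous) and `H_n = 0` for `n ≥ 1` -/
def Acy (C : Type) [SmallCategory C] : Prop :=
  Nonempty C ∧ (∀ x : (NC C).X 0, (Finsupp.linearCombination ℚ (fun _ => (1 : ℚ)) x = 0) →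
    x ∈ (NC C).Bd 0) ∧ ∀ n, Subsingleton (HC C (n + 1))

/-- a functor inducing isomorphisms on homology -/
def HIso (F : C ⥤ D) : Prop := ∀ n, Function.Bijective (HCmap F n)

end nerve

section coef

/-- covariant coefficient systems -/
structure Coef (C : Type) [SmallCategory C] where
  M : C → Type
  [ac : ∀ c, AddCommGroup (M c)]
  [mo : ∀ c, Module ℚ (M c)]
  map : ∀ {a b : C}, (a ⟶ b) → M a →ₗ[ℚ] M b
  map_id : ∀ (a : C) (x : M a), map (𝟙 a) x = x
  map_comp : ∀ {a b c : C} (f : a ⟶ b) (g : b ⟶ c) (x : M a), map (f ≫ g) x = map g (map f x)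

attribute [instance] Coef.ac Coef.mo

variable {C : Type} [SmallCategory C] {D : Type} [SmallCategory D]

open scoped DirectSum

/-- chains with coefficients: `⨁_σ F (σ 0)` -/
abbrev BarX (F : Coef C) (n : ℕ) : Type := ⨁ σ : Sx C n, F.M (σ.o 0)

/-- the element `x` placed at the simplex `σ` -/
noncomputable def bof (F : Coef C) {n : ℕ} (σ : Sx C n) : F.M (σ.o 0) →ₗ[ℚ] BarX F n := by
  classical
  exact DirectSum.lof ℚ (Sx C n) (fun τ : Sx C n => F.M (τ.o 0)) σ

/-- linear maps out of the chains -/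
noncomputable def bdesc (F : Coef C) {n : ℕ} {V : Type} [AddCommGroup V] [Module ℚ V]
    (u : ∀ σ : Sx C n, F.M (σ.o 0) →ₗ[ℚ] V) : BarX F n →ₗ[ℚ] V := by
  classical
  exact DirectSum.toModule ℚ (Sx C n) V u

theorem bdesc_bof (F : Coef C) {n : ℕ} {V : Type} [AddCommGroup V] [Module ℚ V]
    (u : ∀ σ : Sx C n, F.M (σ.o 0) →ₗ[ℚ] V) (σ : Sx C n) (x : F.M (σ.o 0)) :
    bdesc F u (bof F σ x) = u σ x := by
  classical
  unfold bdesc bof
  rw [DirectSum.toModule_lof]

theorem bar_ind (F : Coef C) {n : ℕ} {p : BarX F n → Prop} (x : BarX F n)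
    (h0 : p 0) (h1 : ∀ σ y, p (bof F σ y)) (h2 : ∀ x y, p x → p y → p (x + y)) : p x := by
  classical
  induction x using DirectSum.induction_on with
  | zero => exact h0
  | of σ y => exact h1 σ y
  | add x y hx hy => exact h2 x y hx hy

theorem bar_ext (F : Coef C) {n : ℕ} {V : Type} [AddCommGroup V] [Module ℚ V]
    {f g : BarX F n →ₗ[ℚ] V} (h : ∀ σ y, f (bof F σ y) = g (bof F σ y)) : f = g := by
  ext1 x
  induction x using bar_ind with
  | h0 => rw [map_zero, map_zero]
  | h1 σ y => exact h σ y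
  | h2 x y hx hy => rw [map_add, map_add, hx, hy]

/-- simplicial structure -/
noncomputable def barMap (F : Coef C) {m n : ℕ} (φ : Fin (m + 1) →o Fin (n + 1)) :
    BarX F n →ₗ[ℚ] BarX F m :=
  bdesc F fun σ => (bof F (pre φ σ)).comp (F.map (σ.m 0 (φ 0) (Fin.zero_le _)))

theorem barMap_bof (F : Coef C) {m n : ℕ} (φ : Fin (m + 1) →o Fin (n + 1)) (σ : Sx C n)
    (x : F.M (σ.o 0)) :
    barMap F φ (bof F σ x) = bof F (pre φ σ) (F.map (σ.m 0 (φ 0) (Fin.zero_le _)) x) := by
  unfold barMap
  rw [bdesc_bof]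
  rfl

/-- the simplicial module of chains with coefficients -/
noncomputable abbrev barS (F : Coef C) : SMod where
  X := BarX F
  map φ := barMap F φ
  map_id x := by
    induction x using bar_ind with
    | h0 => simp
    | h1 σ y =>
      rw [barMap_bof]
      exact congrArg (bof F σ) ((congrArg (fun f => F.map f y) (σ.m_self 0)).trans (F.map_id _ y))
    | h2 x y hx hy => rw [map_add, hx, hy]
  map_comp φ ψ x := by
    induction x using bar_ind with
    | h0 => simp
    | h1 σ y =>
      rw [barMap_bof, barMap_bof, barMap_bof, ← F.map_comp]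
      congr 1
      congr 1
      rw [σ.m_comp]
      rfl
    | h2 x y hx hy => rw [map_add, map_add, map_add, hx, hy]

/-- the chain complex with coefficients -/
noncomputable abbrev barC (F : Coef C) : Cx := (barS F).cx

/-- morphisms of coefficient systems -/
@[ext] structure Coef.Hom (F G : Coef C) where
  f : ∀ c, F.M c →ₗ[ℚ] G.M c
  comm : ∀ {a b : C} (u : a ⟶ b) (x : F.M a), f b (F.map u x) = G.map u (f a x)

/-- induced chain map -/
noncomputable def barHom {F G : Coef C} (α : Coef.Hom F G) : Cx.Hom (barC F) (barC G) :=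
  SMod.Hom.cx
  { f := fun n => bdesc F fun σ => (bof G σ).comp (α.f (σ.o 0))
    comm := by
      intro m n φ x
      induction x using bar_ind with
      | h0 => simp
      | h1 σ y =>
        rw [barMap_bof, bdesc_bof, bdesc_bof]
        change (bof G (pre φ σ)) _ = barMap G φ (bof G σ _)
        rw [barMap_bof]
        exact congrArg _ (α.comm _ _)
      | h2 x y hx hy => rw [map_add, map_add, map_add, map_add, hx, hy] }

/-- pull back of a coefficient system along a functor -/
abbrev Coef.pull (R : C ⥤ D) (F : Coef D) : Coef C where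
  M c := F.M (R.obj c)
  map f := F.map (R.map f)
  map_id a x := by rw [R.map_id, F.map_id]
  map_comp f g x := by rw [R.map_comp, F.map_comp]

/-- induced chain map for a change of categories -/
noncomputable def barPush (R : C ⥤ D) (F : Coef D) : Cx.Hom (barC (F.pull R)) (barC F) :=
  SMod.Hom.cx
  { f := fun n => bdesc (F.pull R) fun σ => bof F (σ.push R)
    comm := by
      intro m n φ x
      induction x using bar_ind with
      | h0 => simp
      | h1 σ y =>
        rw [barMap_bof, bdesc_bof, bdesc_bof, barMap_bof]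
      | h2 x y hx hy => rw [map_add, map_add, map_add, map_add, hx, hy] }

/-- the constant coefficient system -/
abbrev Coef.const (C : Type) [SmallCategory C] (V : Type) [AddCommGroup V] [Module ℚ V] :
    Coef C where
  M _ := V
  map _ := LinearMap.id
  map_id _ _ := rfl
  map_comp _ _ _ := rfl

/-- the free coefficient system on a functor to types -/
noncomputable abbrev Coef.free (X : C ⥤ Type) : Coef C where
  M c := X.obj c →₀ ℚ
  map f := Finsupp.lmapDomain ℚ ℚ (X.map f)
  map_id a x := by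
    change Finsupp.mapDomain _ x = x
    rw [X.map_id]
    exact Finsupp.mapDomain_id
  map_comp f g x := by
    change Finsupp.mapDomain _ x = Finsupp.mapDomain _ (Finsupp.mapDomain _ x)
    rw [← Finsupp.mapDomain_comp, X.map_comp]
    rfl

end coef
end C715
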