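import Pool.Agent.Work.MP_c71557_gt.H.TotEx

set_option autoImplicit false

/-!
# MP_c71557_gt, module H/RowTwo: double complexes whose columns have homology only in degree two

Used by `H/RelTop`.  `K` a double complex with `H_q(column) = 0` for `q ≠ 2`.  `S2 K` is the
subcomplex of `K` with `0` in the rows `0`, `1`, the cycles in row `2` and everything in the rows
`≥ 3`; `S2 K → K` is a quasi-isomorphism, and `a ↦ [a_{n,2}]` is a quasi-isomorphism from
`Tot (S2 K)`, shifted by two, to the line `E1 2`.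
-/

namespace C715

namespace Cx

/-- shift by two -/
abbrev sh2 (A : Cx) : Cx where
  X n := A.X (n + 2)
  d n := A.d (n + 2)
  dd n x := A.dd (n + 2) x

/-- shift of a chain map -/
abbrev Hom.sh2 {A B : Cx} (f : Hom A B) : Hom A.sh2 B.sh2 where
  f n := f.f (n + 2)
  comm n x := f.comm (n + 2) x

theorem Z_sh2 (A : Cx) (n : ℕ) : A.Z (n + 2) ≤ A.sh2.Z n := by
  intro x hx
  cases n with
  | zero => trivial
  | succ n => exact hx

/-- comparison with the homology of the shifted complex -/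
noncomputable def shH (A : Cx) (n : ℕ) : A.H (n + 2) →ₗ[ℚ] A.sh2.H n :=
  Submodule.mapQ _ _ (Submodule.inclusion (A.Z_sh2 n)) (by
    rintro ⟨x, hx⟩ ⟨y, hy⟩
    exact ⟨y, hy⟩)

theorem shH_cls (A : Cx) (n : ℕ) (x : A.X (n + 2)) (hx : x ∈ A.Z (n + 2)) :
    A.shH n (A.cls (n + 2) x hx) = A.sh2.cls n x (A.Z_sh2 n hx) := rfl

theorem shH_nat {A B : Cx} (f : Hom A B) (n : ℕ) (y : A.H (n + 2)) :
    B.shH n (f.H (n + 2) y) = f.sh2.H n (A.shH n y) := by
  induction y using H_ind with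
  | h x hx => rfl

theorem shH_bij (A : Cx) (h : Subsingleton (A.X 1)) (n : ℕ) : Function.Bijective (A.shH n) := by
  constructor
  · rw [injective_iff_map_eq_zero]
    intro y hy
    induction y using H_ind with
    | h x hx =>
      rw [shH_cls, cls_eq_zero] at hy
      exact cls_eq_zero.2 hy
  · intro y
    obtain ⟨x, hx, rfl⟩ := H_surj y
    have hx' : x ∈ A.Z (n + 2) := by
      cases n with
      | zero => exact mem_Z_succ.2 (h.elim _ _)
      | succ n => exact hx
    exact ⟨A.cls (n + 2) x hx', rfl⟩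

/-- a short exact sequence with acyclic kernel -/
theorem qis_of_ker {A B C : Cx} {i : Hom A B} {p : Hom B C} (h : SES i p)
    (hA : ∀ n, Subsingleton (A.H n)) : Qis p := by
  intro n
  constructor
  · rw [injective_iff_map_eq_zero]
    intro y hy
    obtain ⟨x, rfl⟩ := (exact_mid h n y).1 hy
    rw [(hA n).elim x 0, map_zero]
  · cases n with
    | zero => exact surj_zero h
    | succ n =>
      intro y
      exact (exact_right h n y).1 ((hA n).elim _ _)

end Cx

namespace DCx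

/-- sub double complex -/
abbrev subD (K : DCx) (W : ∀ p q, Submodule ℚ (K.X p q))
    (h1 : ∀ p q, ∀ x ∈ W (p + 1) q, K.dh p q x ∈ W p q)
    (h2 : ∀ p q, ∀ x ∈ W p (q + 1), K.dv p q x ∈ W p q) : DCx where
  X p q := W p q
  dh p q := (K.dh p q).restrict (h1 p q)
  dv p q := (K.dv p q).restrict (h2 p q)
  hh p q x := Subtype.ext (K.hh p q x.1)
  vv p q x := Subtype.ext (K.vv p q x.1)
  hv p q x := Subtype.ext (K.hv p q x.1)

variable (K : DCx)

/-- zero in the rows `0`, `1`, cycles in the row `2` -/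
def W2 : ∀ p q, Submodule ℚ (K.X p q)
  | _, 0 => ⊥
  | _, 1 => ⊥
  | p, 2 => LinearMap.ker (K.dv p 1)
  | _, _ + 3 => ⊤

/-- zero in the rows `0`, `1`, boundaries in the row `2` -/
def V2 : ∀ p q, Submodule ℚ (K.X p q)
  | _, 0 => ⊥
  | _, 1 => ⊥
  | p, 2 => LinearMap.range (K.dv p 2)
  | _, _ + 3 => ⊤

theorem W2_h : ∀ p q, ∀ x ∈ K.W2 (p + 1) q, K.dh p q x ∈ K.W2 p q := by
  intro p q x hx
  match q, x, hx with
  | 0, x, hx =>
    have hx' : x = 0 := hx
    rw [hx', map_zero]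
    exact Submodule.zero_mem _
  | 1, x, hx =>
    have hx' : x = 0 := hx
    rw [hx', map_zero]
    exact Submodule.zero_mem _
  | 2, x, hx =>
    have hx' : K.dv (p + 1) 1 x = 0 := hx
    change K.dv p 1 (K.dh p 2 x) = 0
    rw [← K.hv, hx', map_zero]
  | _ + 3, x, hx => trivial

theorem W2_v : ∀ p q, ∀ x ∈ K.W2 p (q + 1), K.dv p q x ∈ K.W2 p q := by
  intro p q x hx
  match q, x, hx with
  | 0, x, hx =>
    have hx' : x = 0 := hx
    rw [hx', map_zero]
    exact Submodule.zero_mem _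
  | 1, x, hx =>
    have hx' : K.dv p 1 x = 0 := hx
    rw [hx']
    exact Submodule.zero_mem _
  | 2, x, hx => exact K.vv p 1 x
  | _ + 3, x, hx => trivial

theorem V2_h : ∀ p q, ∀ x ∈ K.V2 (p + 1) q, K.dh p q x ∈ K.V2 p q := by
  intro p q x hx
  match q, x, hx with
  | 0, x, hx =>
    have hx' : x = 0 := hx
    rw [hx', map_zero]
    exact Submodule.zero_mem _
  | 1, x, hx =>
    have hx' : x = 0 := hx
    rw [hx', map_zero]
    exact Submodule.zero_mem _
  | 2, x, hx =>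
    obtain ⟨y, rfl⟩ := hx
    exact ⟨K.dh p 3 y, (K.hv p 2 y).symm⟩
  | _ + 3, x, hx => trivial

theorem V2_v : ∀ p q, ∀ x ∈ K.V2 p (q + 1), K.dv p q x ∈ K.V2 p q := by
  intro p q x hx
  match q, x, hx with
  | 0, x, hx =>
    have hx' : x = 0 := hx
    rw [hx', map_zero]
    exact Submodule.zero_mem _
  | 1, x, hx =>
    obtain ⟨y, rfl⟩ := hx
    rw [K.vv]
    exact Submodule.zero_mem _
  | 2, x, hx => exact ⟨x, rfl⟩
  | _ + 3, x, hx => trivial

/-- rows `≥ 2`, cycles in the row `2` -/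
abbrev S2 : DCx := K.subD K.W2 K.W2_h K.W2_v

/-- rows `≥ 2`, boundaries in the row `2` -/
abbrev T2 : DCx := K.subD K.V2 K.V2_h K.V2_v

/-- inclusion -/
abbrev S2i : Hom K.S2 K where
  f p q := (K.W2 p q).subtype
  hcomm _ _ _ := rfl
  vcomm _ _ _ := rfl

theorem V2_le (p q : ℕ) : K.V2 p q ≤ K.W2 p q := by
  intro x hx
  match q, x, hx with
  | 0, x, hx => exact hx
  | 1, x, hx => exact hx
  | 2, x, hx =>
    obtain ⟨y, rfl⟩ := hx
    exact K.vv p 1 y
  | _ + 3, x, hx => trivial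

/-- inclusion -/
abbrev T2i : Hom K.T2 K.S2 where
  f p q := Submodule.inclusion (K.V2_le p q)
  hcomm _ _ _ := rfl
  vcomm _ _ _ := rfl

theorem S2i_col (h0 : ∀ p, Subsingleton ((K.col p).H 0)) (h1 : ∀ p, Subsingleton ((K.col p).H 1))
    (p : ℕ) : Cx.Qis (K.S2i.col p) := by
  intro q
  match q with
  | 0 =>
    have := h0 p
    refine ⟨?_, fun y => ⟨0, Subsingleton.elim _ _⟩⟩
    rw [injective_iff_map_eq_zero]
    intro y _
    obtain ⟨x, hx, rfl⟩ := Cx.H_surj y
    have : x = 0 := Subtype.ext x.2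
    exact Cx.cls_eq_zero.2 (by rw [this]; exact Submodule.zero_mem _)
  | 1 =>
    have := h1 p
    refine ⟨?_, fun y => ⟨0, Subsingleton.elim _ _⟩⟩
    rw [injective_iff_map_eq_zero]
    intro y _
    obtain ⟨x, hx, rfl⟩ := Cx.H_surj y
    have : x = 0 := Subtype.ext x.2
    exact Cx.cls_eq_zero.2 (by rw [this]; exact Submodule.zero_mem _)
  | 2 =>
    constructor
    · rw [injective_iff_map_eq_zero]
      intro y hy
      obtain ⟨x, hx, rfl⟩ := Cx.H_surj y
      rw [Cx.H_cls, Cx.cls_eq_zero] at hy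
      obtain ⟨z, hz⟩ := hy
      exact Cx.cls_eq_zero.2 ⟨⟨z, trivial⟩, Subtype.ext hz⟩
    · intro y
      obtain ⟨x, hx, rfl⟩ := Cx.H_surj y
      have hx' : K.dv p 1 x = 0 := hx
      exact ⟨(K.S2.col p).cls 2 ⟨x, hx'⟩ (Cx.mem_Z_succ.2 (Subtype.ext hx')), rfl⟩
  | q + 3 =>
    constructor
    · rw [injective_iff_map_eq_zero]
      intro y hy
      obtain ⟨x, hx, rfl⟩ := Cx.H_surj y
      rw [Cx.H_cls, Cx.cls_eq_zero] at hy
      obtain ⟨z, hz⟩ := hy
      exact Cx.cls_eq_zero.2 ⟨⟨z, trivial⟩, Subtype.ext hz⟩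
    · intro y
      obtain ⟨x, hx, rfl⟩ := Cx.H_surj y
      have hx' : K.dv p (q + 2) x = 0 := hx
      exact ⟨(K.S2.col p).cls (q + 3) ⟨x, trivial⟩ (Cx.mem_Z_succ.2 (Subtype.ext hx')), rfl⟩

theorem S2i_qis (h0 : ∀ p, Subsingleton ((K.col p).H 0))
    (h1 : ∀ p, Subsingleton ((K.col p).H 1)) : Cx.Qis K.S2i.tot :=
  tot_qis _ (K.S2i_col h0 h1)

theorem T2_col (h : ∀ p q, Subsingleton ((K.col p).H (q + 3))) (p q : ℕ) :
    Subsingleton ((K.T2.col p).H q) := by
  rw [Cx.H_subsingleton]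
  match q with
  | 0 =>
    intro x _
    have : x = 0 := Subtype.ext x.2
    rw [this]
    exact Submodule.zero_mem _
  | 1 =>
    intro x _
    have : x = 0 := Subtype.ext x.2
    rw [this]
    exact Submodule.zero_mem _
  | 2 =>
    intro x _
    obtain ⟨y, hy⟩ := x.2
    exact ⟨⟨y, trivial⟩, Subtype.ext hy⟩
  | q + 3 =>
    intro x hx
    have hx' : K.dv p (q + 2) x.1 = 0 := congrArg Subtype.val (Cx.mem_Z_succ.1 hx)
    obtain ⟨y, hy⟩ := Cx.H_subsingleton.1 (h p q) x.1 (Cx.mem_Z_succ.2 hx')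
    exact ⟨⟨y, trivial⟩, Subtype.ext hy⟩

theorem T2_tot (h : ∀ p q, Subsingleton ((K.col p).H (q + 3))) (n : ℕ) :
    Subsingleton (K.T2.Tot.H n) :=
  serre K.T2 Serre.triv n fun p q _ => by
    have h1 : ∀ p, Subsingleton ((K.T2.E1 q).X p) := fun p => K.T2_col h p q
    change Subsingleton ((K.T2.E1 q).H p)
    rw [Cx.H_subsingleton]
    intro x _
    have := h1 p
    rw [Subsingleton.elim x 0]
    exact Submodule.zero_mem _

theorem S2_tot_one : Subsingleton (K.S2.Tot.X 1) := by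
  refine ⟨fun a b => Subtype.ext (funext fun p => funext fun q => ?_)⟩
  match q with
  | 0 => exact Subtype.ext ((a.1 p 0).2.trans (b.1 p 0).2.symm)
  | 1 => exact Subtype.ext ((a.1 p 1).2.trans (b.1 p 1).2.symm)
  | q + 2 => rw [a.2 p (q + 2) (by omega), b.2 p (q + 2) (by omega)]

/-- the class of the component in the row `2` -/
noncomputable def S2p : Cx.Hom K.S2.Tot.sh2 (K.E1 2) where
  f n :=
    { toFun := fun a => (K.col n).cls 2 (a.1 n 2).1 (a.1 n 2).2
      map_add' := fun _ _ => rfl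
      map_smul' := fun _ _ => rfl }
  comm n a := by
    refine Eq.trans ?_ (?_ : (K.col n).cls 2 (K.dh n 2 (a.1 (n + 1) 2).1)
      ((K.colMap n).map_Z 2 (a.1 (n + 1) 2).2) = _)
    · refine Cx.cls_eq.2 ⟨((-1 : ℚ) ^ n) • (a.1 n 3).1, ?_⟩
      change K.dv n 2 (((-1 : ℚ) ^ n) • (a.1 n 3).1) =
        (K.dh n 2 (a.1 (n + 1) 2).1 + ((-1 : ℚ) ^ n) • K.dv n 2 (a.1 n 3).1) -
          K.dh n 2 (a.1 (n + 1) 2).1
      rw [map_smul, add_sub_cancel_left]
    · rfl

theorem S2p_apply (n : ℕ) (a : K.S2.Tot.X (n + 2)) :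
    K.S2p.f n a = (K.col n).cls 2 (a.1 n 2).1 (a.1 n 2).2 := rfl

theorem S2_SES : Cx.SES K.T2i.tot.sh2 K.S2p where
  inj n := by
    intro a b hab
    refine Subtype.ext (funext fun p => funext fun q => Subtype.ext ?_)
    have h := congrArg (fun c : K.S2.Tot.X (n + 2) => (c.1 p q).1) hab
    exact h
  exact n := by
    intro a
    constructor
    · intro ha
      have ha' : (a.1 n 2).1 ∈ (K.col n).Bd 2 := Cx.cls_eq_zero.1 ha
      have hmem : ∀ p q, (a.1 p q).1 ∈ K.V2 p q := by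
        intro p q
        match q with
        | 0 => exact (a.1 p 0).2
        | 1 => exact (a.1 p 1).2
        | 2 =>
          by_cases hp : p = n
          · subst hp
            exact ha'
          · have h1 : a.1 p 2 = 0 := a.2 p 2 (by omega)
            rw [h1]
            exact Submodule.zero_mem _
        | q + 3 => trivial
      refine ⟨⟨fun p q => ⟨(a.1 p q).1, hmem p q⟩, fun p q hpq => ?_⟩, ?_⟩
      · have h1 : a.1 p q = 0 := a.2 p q hpq
        have h2 : (a.1 p q).1 = 0 := by rw [h1]; rfl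
        exact Subtype.ext h2
      · rfl
    · rintro ⟨b, rfl⟩
      exact Cx.cls_eq_zero.2 (b.1 n 2).2
  surj n := by
    classical
    intro y
    obtain ⟨x, hx, rfl⟩ := Cx.H_surj y
    let w : K.S2.X n 2 := ⟨x, hx⟩
    refine ⟨⟨Pi.single n (Pi.single 2 w), fun p q hpq => ?_⟩, ?_⟩
    · by_cases hp : p = n
      · subst hp
        have hq : q ≠ 2 := fun h => hpq (by omega)
        rw [Pi.single_eq_same, Pi.single_eq_of_ne hq]
      · rw [Pi.single_eq_of_ne hp]
        rfl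
    · rw [S2p_apply]
      have h1 : (Pi.single n (Pi.single 2 w) : (p : ℕ) → (q : ℕ) → K.S2.X p q) n 2 = w := by
        rw [Pi.single_eq_same, Pi.single_eq_same]
      refine Cx.cls_eq.2 ?_
      change ((Pi.single n (Pi.single 2 w) : (p : ℕ) → (q : ℕ) → K.S2.X p q) n 2).1 - x ∈ _
      rw [h1, sub_self]
      exact Submodule.zero_mem _

theorem T2_sh2 (h : ∀ p q, Subsingleton ((K.col p).H (q + 3))) (n : ℕ) :
    Subsingleton (K.T2.Tot.sh2.H n) := by
  rw [Cx.H_subsingleton]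
  intro x hx
  have h1 : K.T2.Tot.X (n + 2) := x
  have hx' : x ∈ K.T2.Tot.Z (n + 2) := by
    cases n with
    | zero =>
      refine Cx.mem_Z_succ.2 (Subtype.ext (funext fun p => funext fun q => ?_))
      match q with
      | 0 => exact Subtype.ext ((K.T2.Tot.d 1 x).1 p 0).2
      | 1 => exact Subtype.ext ((K.T2.Tot.d 1 x).1 p 1).2
      | q + 2 => exact (K.T2.Tot.d 1 x).2 p (q + 2) (by omega)
    | succ n => exact hx
  exact Cx.H_subsingleton.1 (K.T2_tot h (n + 2)) x hx'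

theorem S2p_qis (h : ∀ p q, Subsingleton ((K.col p).H (q + 3))) : Cx.Qis K.S2p :=
  Cx.qis_of_ker K.S2_SES (K.T2_sh2 h)

variable {K}

theorem Hom.map_W2 {L : DCx} (g : Hom K L) (p q : ℕ) (x : K.X p q) (hx : x ∈ K.W2 p q) :
    g.f p q x ∈ L.W2 p q := by
  match q, x, hx with
  | 0, x, hx =>
    have hx' : x = 0 := hx
    rw [hx', map_zero]
    exact Submodule.zero_mem _
  | 1, x, hx =>
    have hx' : x = 0 := hx
    rw [hx', map_zero]
    exact Submodule.zero_mem _
  | 2, x, hx =>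
    have hx' : K.dv p 1 x = 0 := hx
    change L.dv p 1 (g.f p 2 x) = 0
    rw [← g.vcomm, hx', map_zero]
  | _ + 3, x, hx => trivial

/-- functoriality of `S2` -/
abbrev Hom.S2 {L : DCx} (g : Hom K L) : Hom K.S2 L.S2 where
  f p q := (g.f p q).restrict (g.map_W2 p q)
  hcomm p q x := Subtype.ext (g.hcomm p q x.1)
  vcomm p q x := Subtype.ext (g.vcomm p q x.1)

/-- functoriality of the lines of `E1` -/
noncomputable abbrev Hom.E1 {L : DCx} (g : Hom K L) (q : ℕ) : Cx.Hom (K.E1 q) (L.E1 q) where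
  f p := (g.col p).H q
  comm p x := by
    obtain ⟨x, hx, rfl⟩ := Cx.H_surj x
    refine Cx.cls_eq.2 ?_
    have h : g.f p q (K.dh p q x) = L.dh p q (g.f (p + 1) q x) := g.hcomm p q x
    change g.f p q (K.dh p q x) - L.dh p q (g.f (p + 1) q x) ∈ (L.col p).Bd q
    rw [h, sub_self]
    exact Submodule.zero_mem _

theorem S2i_nat {L : DCx} (g : Hom K L) (n : ℕ) (y : K.S2.Tot.H n) :
    g.tot.H n (K.S2i.tot.H n y) = L.S2i.tot.H n (g.S2.tot.H n y) := by
  induction y using Cx.H_ind with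
  | h x hx => rfl

theorem S2p_nat {L : DCx} (g : Hom K L) (n : ℕ) (y : K.S2.Tot.sh2.H n) :
    (g.E1 2).H n (K.S2p.H n y) = L.S2p.H n (g.S2.tot.sh2.H n y) := by
  induction y using Cx.H_ind with
  | h x hx => rfl

end DCx
end C715
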