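import Pool.Agent.Work.MP_c71557_gt.H.Defs6
import Pool.Agent.Work.MP_c71557_gt.H.AW
import Pool.Agent.Work.MP_c71557_gt.H.RowTwo
import Pool.Agent.Work.MP_c71557_gt.H.BarEx
import Pool.Agent.Work.MP_c71557_gt.H.Equiv

set_option autoImplicit false

/-!
# MP_c71557_gt, module H/RelG: the relative complexes over the objects of the base

Used by `H/RelTop`.  `G R : CoefCx B`, `b ↦ C_*(B/b) / C_*(R/b)`; `rho R` : the row augmentation
`hoco (G R) → relC R`, a quasi-isomorphism; the homology of `G R` at `b` is the reduced homology of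
`R/b`, shifted by one.
-/

namespace C715

open CategoryTheory

namespace RelG

variable {T B : Type} [SmallCategory T] [SmallCategory B] (R : T ⥤ B)

/-- `C_*(R/b) → C_*(B/b)` -/
noncomputable def alAt (b : B) : Cx.Hom ((overL R).at' b) ((overL (𝟭 B)).at' b) where
  f q := (AW.al R q).f b
  comm q x := AW.al_alt R q b x

theorem alAt_nat {a b : B} (u : a ⟶ b) (n : ℕ) (x : ((overL R).at' a).X n) :
    ((overL (𝟭 B)).mapAt u).f n ((alAt R a).f n x) =
      (alAt R b).f n (((overL R).mapAt u).f n x) :=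
  ((AW.al R n).comm u x).symm

/-- the relative chains over `b` -/
noncomputable abbrev GF (q : ℕ) : Coef B where
  M b := (Cx.coker (alAt R b)).X q
  map {a b} u := (Cx.cokerMap (alAt R a) (alAt R b) ((overL R).mapAt u) ((overL (𝟭 B)).mapAt u)
    (alAt_nat R u)).f q
  map_id a x := by
    obtain ⟨x, rfl⟩ := Submodule.Quotient.mk_surjective _ x
    exact congrArg Submodule.Quotient.mk ((ovF (𝟭 B) q).map_id a x)
  map_comp u v x := by
    obtain ⟨x, rfl⟩ := Submodule.Quotient.mk_surjective _ x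
    exact congrArg Submodule.Quotient.mk ((ovF (𝟭 B) q).map_comp u v x)

/-- the relative complexes over the objects -/
noncomputable abbrev G : CoefCx B where
  F := GF R
  d q :=
    { f := fun b => (Cx.coker (alAt R b)).d q
      comm := fun {a b} u x => ((Cx.cokerMap (alAt R a) (alAt R b) ((overL R).mapAt u)
        ((overL (𝟭 B)).mapAt u) (alAt_nat R u)).comm q x).symm }
  dd q b x := (Cx.coker (alAt R b)).dd q x

/-- the quotient map -/
noncomputable def qt (q : ℕ) : Coef.Hom (ovF (𝟭 B) q) (GF R q) where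
  f b := (Cx.toCoker (alAt R b)).f q
  comm _ _ := rfl

/-- the quotient map of the double complexes -/
noncomputable def tG : DCx.Hom (overL (𝟭 B)).hoco (G R).hoco where
  f p q := (barHom (qt R q)).f p
  hcomm p q x := (barHom (qt R q)).comm p x
  vcomm p q x := by
    have : ∀ x : BarX (ovF (𝟭 B) (q + 1)) p,
        (barHom (qt R q)).f p ((barHom ((overL (𝟭 B)).d q)).f p x) =
          (barHom ((G R).d q)).f p ((barHom (qt R (q + 1))).f p x) := by
      intro x
      induction x using bar_ind with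
      | h0 => simp only [map_zero]
      | h1 σ y =>
        rw [OvIso.barHom_bof, OvIso.barHom_bof, OvIso.barHom_bof, OvIso.barHom_bof]
        rfl
      | h2 x y hx hy => simp only [map_add, hx, hy]
    exact this x

/-- injectivity on simplices -/
def Inj : Prop := ∀ n, Function.Injective (fun σ : Sx T n => σ.push R)

variable {R}

theorem Inj.nc (h : Inj R) (n : ℕ) : Function.Injective ((NCmap R).f n) :=
  Finsupp.mapDomain_injective (h n)

theorem Inj.al (h : Inj R) (b : B) (n : ℕ) : Function.Injective ((alAt R b).f n) := by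
  refine Finsupp.mapDomain_injective fun x y hxy => ?_
  obtain ⟨τ, f⟩ := x
  obtain ⟨τ', f'⟩ := y
  have h1 : τ = τ' := h n (congrArg OvS.τ hxy)
  subst h1
  have h2 : f = f' := by
    have h3 := OvS.ext_iff.1 hxy
    exact eq_of_heq h3.2
  rw [h2]

theorem Inj.col (h : Inj R) (q : ℕ) : Cx.SES (barHom (AW.al R q)) (barHom (qt R q)) :=
  bar_SES _ _ (fun c => h.al c q) (fun c => (Cx.coker_SES _ (h.al c)).exact q)
    (fun c => (Cx.coker_SES _ (h.al c)).surj q)

theorem Inj.tot (h : Inj R) : Cx.SES (AW.g R).tot (tG R).tot :=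
  DCx.tot_SES _ _ (fun p q => (h.col q).inj p) (fun p q => (h.col q).exact p)
    (fun p q => (h.col q).surj p)

variable (R)

theorem qt_surj (q p : ℕ) : Function.Surjective ((barHom (qt R q)).f p) := by
  intro x
  refine OvIso.solve _ _ fun σ => ?_
  exact Submodule.mkQ_surjective _ _

/-- the components of the augmentation -/
noncomputable def rhoE (q : ℕ) : BarX (GF R q) 0 →ₗ[ℚ] (relC R).X q :=
  bdesc (GF R q) fun σ => Submodule.mapQ _ _
    (Finsupp.lmapDomain ℚ ℚ (fun x : OvS (𝟭 B) (σ.o 0) q => x.τ)) (by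
      rintro _ ⟨y, rfl⟩
      refine ⟨Finsupp.mapDomain (fun x : OvS R (σ.o 0) q => x.τ) y, ?_⟩
      change Finsupp.mapDomain _ (Finsupp.mapDomain _ (y : OvS R (σ.o 0) q →₀ ℚ)) =
        Finsupp.mapDomain _ (Finsupp.mapDomain _ (y : OvS R (σ.o 0) q →₀ ℚ))
      rw [← Finsupp.mapDomain_comp, ← Finsupp.mapDomain_comp]
      rfl)

theorem rhoE_qt (q : ℕ) (x : BarX (ovF (𝟭 B) q) 0) :
    rhoE R q ((barHom (qt R q)).f 0 x) = (Cx.toCoker (NCmap R)).f q ((eps1 (𝟭 B)).e q x) := by
  induction x using bar_ind with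
  | h0 => simp only [map_zero]
  | h1 σ y =>
    rw [OvIso.barHom_bof]
    change bdesc _ _ (bof (GF R q) σ _) = (Cx.toCoker (NCmap R)).f q (bdesc _ _ (bof _ σ y))
    rw [bdesc_bof, bdesc_bof]
    rfl
  | h2 x y hx hy => simp only [map_add, hx, hy]

/-- the augmentation `hoco (G R) → relC R` -/
noncomputable def rho : DCx.RowAug (G R).hoco (relC R) where
  e := rhoE R
  comm q x := by
    obtain ⟨y, rfl⟩ := qt_surj R (q + 1) 0 x
    have h1 := (tG R).vcomm 0 q y
    change rhoE R q ((G R).hoco.dv 0 q ((tG R).f 0 (q + 1) y)) = _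
    rw [← h1]
    change rhoE R q ((barHom (qt R q)).f 0 ((overL (𝟭 B)).hoco.dv 0 q y)) = _
    rw [rhoE_qt, (eps1 (𝟭 B)).comm, rhoE_qt]
    rfl
  zero q x := by
    obtain ⟨y, rfl⟩ := qt_surj R q 1 x
    have h1 := (tG R).hcomm 0 q y
    change rhoE R q ((G R).hoco.dh 0 q ((tG R).f 1 q y)) = _
    rw [← h1]
    change rhoE R q ((barHom (qt R q)).f 0 ((overL (𝟭 B)).hoco.dh 0 q y)) = _
    rw [rhoE_qt, (eps1 (𝟭 B)).zero, map_zero]

variable {R}

theorem Inj.rho (h : Inj R) : Cx.Qis (rho R).hom :=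
  Cx.qis_right h.tot (Cx.coker_SES (NCmap R) h.nc) (eps1 R).hom (eps1 (𝟭 B)).hom (RelG.rho R).hom
    (AW.eps1_g R) (fun n x => rhoE_qt R n (x.1 0 n)) (eps1_qis R) (eps1_qis (𝟭 B))

/-! ### the homology at an object -/

theorem acy_over (b : B) : Acy (CostructuredArrow (𝟭 B) b) :=
  acy_of_terminal (CostructuredArrow.mk (𝟙 b)) fun d =>
    ⟨CostructuredArrow.mkIdTerminal.from d, trivial, fun _ _ =>
      CostructuredArrow.mkIdTerminal.hom_ext _ _⟩

theorem Inj.ses (h : Inj R) (b : B) : Cx.SES (alAt R b) (Cx.toCoker (alAt R b)) :=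
  Cx.coker_SES _ (h.al b)

/-- the connecting map -/
noncomputable def dlt (h : Inj R) (b : B) (q : ℕ) :
    ((G R).at' b).H (q + 1) →ₗ[ℚ] ((overL R).at' b).H q := Cx.delta (h.ses b) q

theorem mid_zero (b : B) (q : ℕ) : Subsingleton (((overL (𝟭 B)).at' b).H (q + 1)) := by
  rw [Cx.H_subsingleton]
  intro x hx
  exact (ov_acy (𝟭 B) b (acy_over b)).2.1 q x (Cx.mem_Z_succ.1 hx)

theorem dlt_bij (h : Inj R) (b : B) (q : ℕ) : Function.Bijective (dlt h b (q + 1)) := by
  have h1 := mid_zero b q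
  have h2 := mid_zero b (q + 1)
  constructor
  · rw [injective_iff_map_eq_zero]
    intro y hy
    obtain ⟨z, rfl⟩ := (Cx.exact_right (h.ses b) (q + 1) y).1 hy
    rw [h2.elim z 0, map_zero]
  · intro y
    exact (Cx.exact_left (h.ses b) (q + 1) y).1 (h1.elim _ _)

/-- conditions on a category over an object: nonempty and connected -/
def Cn (R : T ⥤ B) (b : B) : Prop :=
  Nonempty (CostructuredArrow R b) ∧ ∀ x : (NC (CostructuredArrow R b)).X 0,
    Finsupp.linearCombination ℚ (fun _ => (1 : ℚ)) x = 0 → x ∈ (NC (CostructuredArrow R b)).Bd 0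

theorem Cn.ov {b : B} (h : Cn R b) : Nonempty (OvS R b 0) ∧ ∀ x : OvS R b 0 →₀ ℚ,
    Finsupp.linearCombination ℚ (fun _ => (1 : ℚ)) x = 0 → ∃ y, (ovS R b).alt 0 y = x := by
  obtain ⟨⟨c⟩, h0⟩ := h
  refine ⟨⟨OvIso.io R b 0 ⟨fun _ => c, fun _ _ _ => 𝟙 c, fun _ => rfl,
    fun _ _ _ _ _ => Category.comp_id _⟩⟩, fun x hx => ?_⟩
  obtain ⟨x', rfl⟩ := (ovIso_bij R b 0).2 x
  have ha : Finsupp.linearCombination ℚ (fun _ : Sx (CostructuredArrow R b) 0 => (1 : ℚ)) x' =
      0 := by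
    have h2 : (Finsupp.linearCombination ℚ (fun _ : OvS R b 0 => (1 : ℚ))).comp
        ((ovIso R b).f 0) =
        Finsupp.linearCombination ℚ (fun _ : Sx (CostructuredArrow R b) 0 => (1 : ℚ)) := by
      refine Finsupp.lhom_ext fun σ a => ?_
      change Finsupp.linearCombination ℚ _ ((ovIso R b).f 0 (Finsupp.single σ a)) = _
      rw [ovIso_single, Finsupp.linearCombination_single, Finsupp.linearCombination_single]
    rw [← h2]
    exact hx
  obtain ⟨y, hy⟩ := h0 x' ha
  refine ⟨(ovIso R b).f 1 y, ?_⟩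
  have := (ovIso R b).comm 0 y
  rw [hy] at this
  exact this.symm

theorem aug_alt (R : T ⥤ B) (b : B) (y : OvS R b 1 →₀ ℚ) :
    Finsupp.linearCombination ℚ (fun _ : OvS R b 0 => (1 : ℚ)) ((ovS R b).alt 0 y) = 0 := by
  rw [SMod.alt_apply, Fin.sum_univ_two]
  change Finsupp.linearCombination ℚ _
    ((_ : ℚ) • Finsupp.mapDomain _ _ + (_ : ℚ) • Finsupp.mapDomain _ _) = 0
  rw [map_add, map_smul, map_smul, Finsupp.linearCombination_mapDomain,
    Finsupp.linearCombination_mapDomain]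
  change (_ : ℚ) • Finsupp.linearCombination ℚ (fun _ => (1 : ℚ)) y +
    (_ : ℚ) • Finsupp.linearCombination ℚ (fun _ => (1 : ℚ)) y = 0
  rw [← add_smul]
  norm_num

theorem aug_al (R : T ⥤ B) (b : B) (y : OvS R b 0 →₀ ℚ) :
    Finsupp.linearCombination ℚ (fun _ : OvS (𝟭 B) b 0 => (1 : ℚ)) ((alAt R b).f 0 y) =
      Finsupp.linearCombination ℚ (fun _ : OvS R b 0 => (1 : ℚ)) y := by
  change Finsupp.linearCombination ℚ _ (Finsupp.mapDomain _ _) = _
  rw [Finsupp.linearCombination_mapDomain]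
  rfl

theorem G_zero {b : B} (hn : Nonempty (OvS R b 0)) : Subsingleton (((G R).at' b).H 0) := by
  rw [Cx.H_subsingleton]
  intro x _
  obtain ⟨x, rfl⟩ := Submodule.Quotient.mk_surjective _ x
  obtain ⟨o⟩ := hn
  set a : ℚ := Finsupp.linearCombination ℚ (fun _ : OvS (𝟭 B) b 0 => (1 : ℚ)) x with ha
  have h1 : Finsupp.linearCombination ℚ (fun _ : OvS (𝟭 B) b 0 => (1 : ℚ))
      (x - (alAt R b).f 0 (Finsupp.single o a : OvS R b 0 →₀ ℚ)) = 0 := by
    rw [map_sub, aug_al, Finsupp.linearCombination_single, ← ha, smul_eq_mul, mul_one, sub_self]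
  obtain ⟨y, hy⟩ := (ov_acy (𝟭 B) b (acy_over b)).1 _ h1
  refine ⟨Submodule.Quotient.mk y, ?_⟩
  change Submodule.Quotient.mk ((ovS (𝟭 B) b).alt 0 y) = _
  rw [hy]
  refine (Submodule.Quotient.eq _).2 ?_
  rw [sub_sub_cancel_left]
  exact Submodule.neg_mem _ ⟨_, rfl⟩

theorem G_one (h : Inj R) {b : B} (h0 : ∀ x : OvS R b 0 →₀ ℚ,
    Finsupp.linearCombination ℚ (fun _ => (1 : ℚ)) x = 0 → ∃ y, (ovS R b).alt 0 y = x) :
    Subsingleton (((G R).at' b).H 1) := by
  have hm := mid_zero (B := B) b 0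
  refine ⟨fun x y => ?_⟩
  have key : ∀ x : ((G R).at' b).H 1, x = 0 := by
    intro x
    have h1 : (alAt R b).H 0 (dlt h b 0 x) = 0 := (Cx.exact_left (h.ses b) 0 _).2 ⟨x, rfl⟩
    obtain ⟨z, hz, hz'⟩ := Cx.H_surj (dlt h b 0 x)
    rw [hz', Cx.H_cls, Cx.cls_eq_zero] at h1
    obtain ⟨y, hy⟩ := h1
    have h2 : Finsupp.linearCombination ℚ (fun _ : OvS R b 0 => (1 : ℚ)) z = 0 := by
      rw [← aug_al, ← hy]
      exact aug_alt (𝟭 B) b y
    have h3 : dlt h b 0 x = 0 := hz'.trans (Cx.cls_eq_zero.2 (h0 z h2))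
    obtain ⟨w, rfl⟩ := (Cx.exact_right (h.ses b) 0 x).1 h3
    rw [hm.elim w 0, map_zero]
  rw [key x, key y]

/-- isomorphism between the homology of `R/b` and the value of the coefficient system -/
noncomputable def io (R : T ⥤ B) (b : B) (q : ℕ) :
    HC (CostructuredArrow R b) q ≃ₗ[ℚ] ((overL R).at' b).H q :=
  LinearEquiv.ofBijective ((ovIso R b).H q) (qis_of_bij (ovIso R b) (ovIso_bij R b) q)

theorem io_nat (R : T ⥤ B) {b b' : B} (u : b ⟶ b') (q : ℕ) (y : HC (CostructuredArrow R b) q) :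
    io R b' q (HCmap (CostructuredArrow.map (S := R) u) q y) =
      ((overL R).mapAt u).H q (io R b q y) := by
  obtain ⟨x, hx, rfl⟩ := Cx.H_surj y
  refine Cx.cls_eq.2 ?_
  have h := ovIso_nat R u q x
  change (ovIso R b').f q ((NCmap (CostructuredArrow.map u)).f q x) -
    ((overL R).mapAt u).f q ((ovIso R b).f q x) ∈ _
  rw [h, sub_self]
  exact Submodule.zero_mem _

theorem G_succ (h : Inj R) (b : B) (q : ℕ) (hq : Subsingleton (HC (CostructuredArrow R b) (q + 1))) :
    Subsingleton (((G R).at' b).H (q + 2)) := by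
  have h1 : Subsingleton (((overL R).at' b).H (q + 1)) := (io R b (q + 1)).symm.injective.subsingleton
  exact (dlt_bij h b q).1.subsingleton

/-- everything vanishes over an object with acyclic `R/b` -/
theorem G_acy (h : Inj R) (b : B) (hb : Acy (CostructuredArrow R b)) (q : ℕ) :
    Subsingleton (((G R).at' b).H q) := by
  match q with
  | 0 => exact G_zero (Cn.ov ⟨hb.1, hb.2.1⟩).1
  | 1 => exact G_one h (Cn.ov ⟨hb.1, hb.2.1⟩).2
  | q + 2 => exact G_succ h b q (hb.2.2 q)

/-- naturality of the connecting map in `b` -/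
theorem dlt_nat (h : Inj R) {a b : B} (u : a ⟶ b) (q : ℕ) (y : ((G R).at' a).H (q + 1)) :
    ((overL R).mapAt u).H q (dlt h a q y) = dlt h b q (((G R).mapAt u).H (q + 1) y) :=
  Cx.delta_nat (h.ses a) (h.ses b) ((overL R).mapAt u) ((overL (𝟭 B)).mapAt u)
    ((G R).mapAt u) (alAt_nat R u) (fun _ _ => rfl) q y

end RelG
end C715
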