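import Pool.Agent.Work.MP_c71557_gt.H.AW
import Pool.Agent.Work.MP_c71557_gt.H.Join
import Pool.Agent.Work.MP_c71557_gt.H.Const
import Pool.Agent.Work.MP_c71557_gt.H.E2Aug
import Pool.Agent.Work.MP_c71557_gt.H.TotEx

set_option autoImplicit false

/-!
# MP_c71557_gt, module H/RelOver: relative homology of a functor with constant fibre homology (L)

`R : T ⥤ B`, `b0 : B`, `κ : K ⥤ CostructuredArrow R b0` a homology isomorphism whose composite
`j = κ ⋙ proj : K ⥤ T` is injective on simplices and such that `j ⋙ R` is constant at `b0`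
(strictly).  The coefficient systems `b ↦ H_q (R / b)` are constant (hypothesis `hθ`: compatible
isomorphisms `θ b : H_q (R / b) ≃ H_q (R / b0)`, `θ b0 = id`).
Compare `C_*(T)/C_*(K) → C_*(B)/C_*(b0)`.
(Changed 21:45: `hθ` replaces the two hypotheses `hne`, `hpar`; it is what `constCoef` gave.)
(Changed 22:05: new hypothesis `hid`, the structure arrows of the objects of `K` are identities.)

PROOF.
(1) `M :=` cokernel (`DCx.coker`) of `g : P → hoco (overL R)`, where `P_{p,q} = ℚ[Sx K q]` for every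
`p` (horizontal differential: alternating sum of `p + 2` identities), `g` sends `σ` to
`bof (constant simplex at b0) (single (σ.push j, (κ (σ last)).hom))`.  `g` is injective (`hinj`).
(`P` is `hoco` of the constant systems `ℚ[Sx K q]` on `Pt`, or define it directly.)
(2) Row augmentation `M → relC j` (`DCx.RowAug.coker` of the augmentation `P_{0,q} = NC K q` and
`eps1 R`); it is a quasi-isomorphism on `Tot`: for `P` by `RowAug.qis` (the row `ℚ[Sx K q]` constant
simplicial), for `hoco` by `eps1_qis`; then `Cx.qis_right` for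
`0 → Tot P → Tot hoco → Tot M → 0` (`tot_SES`) and `0 → NC K → NC T → relC j → 0`.
(3) Column augmentation `M → relC (ptF b0)` (`DCx.ColAug.coker`, `eps2 R`), with the hypotheses of
`ColAug.serre_ker/serre_coker`: `H_0` of the column `p` of `hoco` is `C_p(B)` (all `R/b` are
connected: by `hK0`, `hκ` for `b0`, and for all `b` because `H_0(R/b)` is one-dimensional by `θ`,
hence `R/b` is nonempty and the augmentation `H_0(R/b) → ℚ` is onto, so bijective), and `P_{p,0}/dv = H_0(K) = ℚ`.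
(4) For `q ≥ 1` the complex `M.E1 q` is isomorphic to `Cx.coker (constPt b0 V)`, `V = H_q(K)`:
`H_q` of the column `p` of `hoco` is `⨁_{σ ∈ N_p B} H_q(R/σ0) ≅ ⨁_σ V` (`exists_barE1`,
`hθ`), `H_q` of the column of `P` is `V` (embedded at the constant simplex, injective since
`κ` is a homology isomorphism), so `H_q` of the column of `M` is the quotient (long exact sequence,
the maps `H_{q-1}(P col) → H_{q-1}(hoco col)` being injective, also for `q - 1 = 0`).
(5) `serre_const` gives `S.P ((M.E1 q).H p)`; `ColAug.serre_ker`, `ColAug.serre_coker`.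
(6) On homology `H(Tot M) → H(relC (ptF b0))` (column augmentation) equals
`relMap ∘ (row augmentation)`: by the join homotopy `H/Join` (`d h + h D = eps2 - R eps1`), which
maps `P` to constant simplices (`hid`).
-/

namespace C715

open CategoryTheory

variable {T B K : Type} [SmallCategory T] [SmallCategory B] [SmallCategory K]

namespace RelOver

/-- the alternating sum of `p + 2` identities -/
def cc (p : ℕ) : ℚ := ∑ i : Fin (p + 2), (-1 : ℚ) ^ (i : ℕ)

theorem cc_eq (p : ℕ) : cc p = if Even p then 0 else 1 := by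
  unfold cc
  rw [Fin.sum_neg_one_pow]
  have : Even (p + 2) ↔ Even p := by
    rw [Nat.even_add]
    simp
  simp only [this]

theorem cc_mul (p : ℕ) : cc p * cc (p + 1) = 0 := by
  rw [cc_eq, cc_eq]
  by_cases h : Even p
  · rw [if_pos h, zero_mul]
  · rw [if_neg h, if_pos (by rw [Nat.even_add_one]; exact h), mul_zero]

/-- the double complex with constant simplicial rows -/
abbrev kP (A : Cx) : DCx where
  X _ q := A.X q
  dh p q := cc p • LinearMap.id
  dv _ q := A.d q
  hh p q x := by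
    change cc p • cc (p + 1) • x = 0
    rw [smul_smul, cc_mul, zero_smul]
  vv _ q x := A.dd q x
  hv p q x := by
    change cc p • A.d q x = A.d q (cc p • x)
    rw [map_smul]

theorem kP_dh (A : Cx) (p q : ℕ) (x : A.X q) : (kP A).dh p q x = cc p • x := rfl

/-- the row augmentation -/
def kRow (A : Cx) : DCx.RowAug (kP A) A where
  e q := LinearMap.id
  comm q x := rfl
  zero q x := by
    change cc 0 • x = 0
    rw [cc_eq]
    simp

theorem kRow_qis (A : Cx) : Cx.Qis (kRow A).hom := by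
  refine DCx.RowAug.qis (kRow A) (fun q y => ⟨y, rfl⟩) (fun q x hx => ⟨0, ?_⟩)
    (fun p q x hx => ?_)
  · rw [map_zero]
    exact hx.symm
  · change cc p • x = 0 at hx
    rw [cc_eq] at hx
    by_cases h : Even p
    · refine ⟨x, ?_⟩
      change cc (p + 1) • x = x
      rw [cc_eq, if_neg (by rw [Nat.even_add_one]; exact not_not.2 h), one_smul]
    · rw [if_neg h, one_smul] at hx
      exact ⟨0, by rw [map_zero]; exact hx.symm⟩

/-- the constant simplex -/
abbrev cst {C : Type} [SmallCategory C] (c : C) (n : ℕ) : Sx C n where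
  o _ := c
  m _ _ _ := 𝟙 c
  m_self _ := rfl
  m_comp _ _ _ _ _ := Category.comp_id _

instance ssub (n : ℕ) : Subsingleton (Sx ActCat.Pt n) :=
  ⟨fun σ τ => Eps1.ext_heq (fun i => Subsingleton.elim _ _) (fun i j h => Subsingleton.helim (by
    rw [Subsingleton.elim (σ.o i) (τ.o i), Subsingleton.elim (σ.o j) (τ.o j)]) _ _)⟩

theorem pt_push {b0 : B} {n : ℕ} (σ : Sx ActCat.Pt n) : σ.push (ptF b0) = cst b0 n := by
  refine Eps1.ext_heq (fun i => rfl) (fun i j h => heq_of_eq ?_)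
  rfl

/-- the embedding of `P` into the homotopy colimit -/
noncomputable def kG {A : Cx} (L : CoefCx B) (b0 : B) (g0 : Cx.Hom A (L.at' b0)) :
    DCx.Hom (kP A) L.hoco where
  f p q := (bof (L.F q) (cst b0 p)).comp (g0.f q)
  hcomm p q (x : A.X q) := by
    change bof (L.F q) (cst b0 p) (g0.f q (cc p • x)) =
      (barS (L.F q)).alt p (bof (L.F q) (cst b0 (p + 1)) (g0.f q x))
    rw [SMod.alt_apply, map_smul, map_smul, cc, Finset.sum_smul]
    refine Finset.sum_congr rfl fun i _ => ?_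
    congr 1
    change _ = barMap _ _ _
    rw [barMap_bof]
    exact congrArg (bof (L.F q) (cst b0 p)) ((L.F q).map_id b0 _).symm
  vcomm p q x := by
    change bof (L.F q) (cst b0 p) (g0.f q (A.d q x)) =
      (barHom (L.d q)).f p (bof (L.F (q + 1)) (cst b0 p) (g0.f (q + 1) x))
    rw [OvIso.barHom_bof, g0.comm]

theorem kG_f {A : Cx} (L : CoefCx B) (b0 : B) (g0 : Cx.Hom A (L.at' b0)) (p q : ℕ) (x : A.X q) :
    (kG L b0 g0).f p q x = bof (L.F q) (cst b0 p) (g0.f q x) := rfl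

theorem kG_inj {A : Cx} (L : CoefCx B) (b0 : B) (g0 : Cx.Hom A (L.at' b0))
    (h : ∀ q, Function.Injective (g0.f q)) (p q : ℕ) :
    Function.Injective ((kG L b0 g0).f p q) := by
  intro x y hxy
  rw [kG_f, kG_f] at hxy
  have := congrArg (OvIso.cmp (L.F q) (cst b0 p)) hxy
  rw [OvIso.cmp_self, OvIso.cmp_self] at this
  exact h q this

theorem kG_injH {A : Cx} (L : CoefCx B) (b0 : B) (g0 : Cx.Hom A (L.at' b0))
    (h : Cx.Qis g0) (p q : ℕ) : Function.Injective (((kG L b0 g0).col p).H q) := by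
  rw [injective_iff_map_eq_zero]
  intro y hy
  obtain ⟨x, hx, rfl⟩ := Cx.H_surj y
  rw [Cx.H_cls, Cx.cls_eq_zero] at hy
  obtain ⟨z, hz⟩ := hy
  have hz' : (barHom (L.d q)).f p z = bof (L.F q) (cst b0 p) (g0.f q x) := hz
  have h2 := OvIso.cmp_barHom (L.d q) (cst b0 p) z
  rw [hz', OvIso.cmp_self] at h2
  have h3 : g0.H q (A.cls q x hx) = 0 := by
    rw [Cx.H_cls, Cx.cls_eq_zero]
    exact ⟨_, h2.symm⟩
  exact (injective_iff_map_eq_zero (g0.H q)).1 (h q).1 _ h3

/-- columns of a cokernel -/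
theorem col_SES {K L : DCx} (g : DCx.Hom K L) (h1 : ∀ p q, Function.Injective (g.f p q)) (p : ℕ) :
    Cx.SES (g.col p) ((DCx.toCoker g).col p) where
  inj q := h1 p q
  exact q x := by
    change (Submodule.Quotient.mk x : L.X p q ⧸ LinearMap.range (g.f p q)) = 0 ↔ _
    rw [Submodule.Quotient.mk_eq_zero]
    rfl
  surj q := Submodule.mkQ_surjective _

/-- the map of `E¹` pages -/
noncomputable def gE1 {K L : DCx} (g : DCx.Hom K L) (q : ℕ) : Cx.Hom (K.E1 q) (L.E1 q) where
  f p := (g.col p).H q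
  comm p y := by
    obtain ⟨x, hx, rfl⟩ := Cx.H_surj (A := K.col (p + 1)) y
    refine Cx.cls_eq.2 ?_
    change g.f p q (K.dh p q x) - L.dh p q (g.f (p + 1) q x) ∈ _
    rw [g.hcomm, sub_self]
    exact Submodule.zero_mem _

theorem gE1_f {K L : DCx} (g : DCx.Hom K L) (p q : ℕ) (x : (K.col p).H q) :
    (gE1 g q).f p x = (g.col p).H q x := rfl

/-- `E¹` of a cokernel, if the map is injective on the homology of the columns -/
noncomputable def toE {K L : DCx} (g : DCx.Hom K L) (h1 : ∀ p q, Function.Injective (g.f p q))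
    (q : ℕ) : Cx.Hom (Cx.coker (gE1 g q)) ((DCx.coker g).E1 q) where
  f p := Submodule.liftQ _ (((DCx.toCoker g).col p).H q) (by
    rintro _ ⟨y, rfl⟩
    exact (Cx.exact_mid (col_SES g h1 p) q _).2 ⟨y, rfl⟩)
  comm p y := by
    obtain ⟨y, rfl⟩ := Submodule.Quotient.mk_surjective _ y
    obtain ⟨x, hx, rfl⟩ := Cx.H_surj (A := L.col (p + 1)) y
    rfl

theorem toE_bij {K L : DCx} (g : DCx.Hom K L) (h1 : ∀ p q, Function.Injective (g.f p q))
    (h2 : ∀ p q, Function.Injective ((g.col p).H q)) (q p : ℕ) :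
    Function.Bijective ((toE g h1 q).f p) := by
  constructor
  · rw [injective_iff_map_eq_zero]
    intro y hy
    obtain ⟨y, rfl⟩ := Submodule.Quotient.mk_surjective _ y
    have hy' : ((DCx.toCoker g).col p).H q y = 0 := hy
    have := (Cx.exact_mid (col_SES g h1 p) q _).1 hy'
    exact (Submodule.Quotient.mk_eq_zero _).2 this
  · have hs : Function.Surjective (((DCx.toCoker g).col p).H q) := by
      cases q with
      | zero => exact Cx.surj_zero (col_SES g h1 p)
      | succ q =>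
        intro z
        have h3 := (Cx.exact_left (col_SES g h1 p) q (Cx.delta (col_SES g h1 p) q z)).2 ⟨z, rfl⟩
        have h4 := (injective_iff_map_eq_zero ((g.col p).H q)).1 (h2 p q) _ h3
        exact (Cx.exact_right (col_SES g h1 p) q z).1 h4
    intro z
    obtain ⟨y, hy⟩ := hs z
    exact ⟨Submodule.Quotient.mk y, hy⟩

/-- Serre classes and bijective chain maps -/
theorem serre_bij {A B : Cx} (f : Cx.Hom A B) (h : ∀ n, Function.Bijective (f.f n)) (S : Serre)
    (n : ℕ) : S.P (A.H n) ↔ S.P (B.H n) :=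
  S.congr (LinearEquiv.ofBijective (f.H n) (qis_of_bij f h n))

/-- transport of cokernels -/
theorem serre_coker {A A' X Y : Cx} (f : Cx.Hom A X) (f' : Cx.Hom A' Y) (φ : Cx.Hom X Y)
    (hφ : ∀ n, Function.Bijective (φ.f n))
    (h1 : ∀ n x, ∃ y, f'.f n y = φ.f n (f.f n x))
    (h2 : ∀ n y, ∃ x, φ.f n (f.f n x) = f'.f n y) (S : Serre) (n : ℕ)
    (h : S.P ((Cx.coker f').H n)) : S.P ((Cx.coker f).H n) := by
  let ψ : Cx.Hom (Cx.coker f) (Cx.coker f') :=
    { f := fun n => Submodule.mapQ _ _ (φ.f n) (by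
        rintro _ ⟨x, rfl⟩
        exact h1 n x)
      comm := fun n x => by
        obtain ⟨x, rfl⟩ := Submodule.Quotient.mk_surjective _ x
        exact congrArg Submodule.Quotient.mk (φ.comm n x) }
  refine (serre_bij ψ (fun n => ⟨?_, ?_⟩) S n).2 h
  · rw [injective_iff_map_eq_zero]
    intro y hy
    obtain ⟨y, rfl⟩ := Submodule.Quotient.mk_surjective _ y
    have hy' : (Submodule.Quotient.mk (φ.f n y) : Y.X n ⧸ LinearMap.range (f'.f n)) = 0 := hy
    obtain ⟨z, hz⟩ := (Submodule.Quotient.mk_eq_zero _).1 hy'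
    obtain ⟨x, hx⟩ := h2 n z
    rw [hz] at hx
    refine (Submodule.Quotient.mk_eq_zero _).2 ⟨x, (hφ n).1 hx⟩
  · intro y
    obtain ⟨y, rfl⟩ := Submodule.Quotient.mk_surjective _ y
    obtain ⟨x, rfl⟩ := (hφ n).2 y
    exact ⟨Submodule.Quotient.mk x, rfl⟩

/-- the `E²` terms of the relative double complex -/
theorem kG_E1 {A : Cx} (L : CoefCx B) (b0 : B) (g0 : Cx.Hom A (L.at' b0))
    (hi : ∀ q, Function.Injective (g0.f q)) (hq : Cx.Qis g0) (q : ℕ)
    (θ : Coef.Hom (L.HF q) (Coef.const B ((L.at' b0).H q)))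
    (hθ : ∀ b, Function.Bijective (θ.f b)) (hθ0 : ∀ x, θ.f b0 x = x) (S : Serre) (p : ℕ)
    (h : S.P (TensorProduct ℚ ((relC (ptF b0)).H p) (A.H q))) :
    S.P (((DCx.coker (kG L b0 g0)).E1 q).H p) := by
  have h1 := kG_inj L b0 g0 hi
  have h2 := kG_injH L b0 g0 hq
  refine (serre_bij (toE (kG L b0 g0) h1 q) (toE_bij _ h1 h2 q) S p).1 ?_
  obtain ⟨e, he, hee⟩ := exists_barE1 L q
  let V := (L.at' b0).H q
  have hV : S.P (TensorProduct ℚ ((relC (ptF b0)).H p) V) :=
    (S.congr (LinearEquiv.lTensor _ (LinearEquiv.ofBijective (g0.H q) (hq q)))).1 h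
  have h3 := serre_const b0 V S p hV
  have key : ∀ p x (hx : x ∈ A.Z q), (barHom θ).f p (e.f p ((gE1 (kG L b0 g0) q).f p
      (A.cls q x hx))) = bof (Coef.const B V) (cst b0 p) (g0.H q (A.cls q x hx)) := by
    intro p x hx
    have h4 : (gE1 (kG L b0 g0) q).f p (A.cls q x hx) = (L.hoco.col p).cls q
      (bof (L.F q) (cst b0 p) (g0.f q x)) (((kG L b0 g0).col p).map_Z q hx) := rfl
    rw [h4, hee p (cst b0 p) (g0.f q x) (g0.map_Z q hx), OvIso.barHom_bof]
    exact congrArg (bof (Coef.const B V) (cst b0 p)) (hθ0 _)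
  have hpt : ∀ p (σ : Sx ActCat.Pt p) (v : V), (constPt b0 V).f p
      (bof ((Coef.const B V).pull (ptF b0)) σ v) = bof (Coef.const B V) (cst b0 p) v := by
    intro p σ v
    refine (bdesc_bof _ _ _ _).trans ?_
    rfl
  refine serre_coker (gE1 (kG L b0 g0) q) (constPt b0 V) (e.comp (barHom θ)) (fun n => ?_)
    (fun n y => ?_) (fun n y => ?_) S p h3
  · exact (barHom_bij θ hθ n).comp (he n)
  · obtain ⟨x, hx, rfl⟩ := Cx.H_surj (A := A) y
    refine ⟨bof ((Coef.const B V).pull (ptF b0)) (cst (Discrete.mk PUnit.unit) n)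
      (g0.H q (A.cls q x hx)), ?_⟩
    rw [hpt]
    exact (key n x hx).symm
  · induction y using bar_ind with
    | h0 => exact ⟨0, by simp only [map_zero]⟩
    | h1 σ v =>
      obtain ⟨y, rfl⟩ := (hq q).2 v
      obtain ⟨x, hx, rfl⟩ := Cx.H_surj y
      refine ⟨A.cls q x hx, ?_⟩
      rw [hpt]
      exact key n x hx
    | h2 x y hx hy =>
      obtain ⟨a, ha⟩ := hx
      obtain ⟨b, hb⟩ := hy
      refine ⟨a + b, ?_⟩
      rw [map_add, map_add, map_add, ha, hb]

/-- the sum of the coefficients -/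
noncomputable def lc (C : Type) [SmallCategory C] : (NC C).X 0 →ₗ[ℚ] ℚ :=
  Finsupp.linearCombination ℚ (fun _ : Sx C 0 => (1 : ℚ))

theorem lc_single {C : Type} [SmallCategory C] (σ : Sx C 0) (a : ℚ) :
    lc C (Finsupp.single σ a) = a := by
  unfold lc
  rw [Finsupp.linearCombination_single]
  simp

theorem lc_d {C : Type} [SmallCategory C] (x : (NC C).X 1) : lc C ((NC C).d 0 x) = 0 := by
  have : (lc C).comp ((NC C).d 0) = 0 := by
    refine Finsupp.lhom_ext fun σ a => ?_
    rw [LinearMap.comp_apply, NC_d_single, map_sum, Fin.sum_univ_two, map_smul, map_smul,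
      lc_single, lc_single]
    simp
  exact LinearMap.congr_fun this x

/-- the column augmentation of `P` -/
noncomputable def kCol (A : Cx) (ε : A.X 0 →ₗ[ℚ] ℚ) (h : ∀ x, ε (A.d 0 x) = 0) :
    DCx.ColAug (kP A) (NC ActCat.Pt) where
  e p := (Finsupp.lsingle (cst (Discrete.mk PUnit.unit) p)).comp ε
  comm p x := by
    change Finsupp.single _ (ε (cc p • x)) = (NC ActCat.Pt).d p (Finsupp.single _ (ε x))
    rw [NC_d_single, map_smul, ← Finsupp.smul_single, cc, Finset.sum_smul]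
  zero p x := by
    change Finsupp.single _ (ε (A.d 0 x)) = _
    rw [h, Finsupp.single_zero]

/-- exactness of the columns at `q = 0` -/
theorem eps2_ker (R : T ⥤ B)
    (h0 : ∀ b (x : OvS R b 0 →₀ ℚ), Finsupp.linearCombination ℚ (fun _ => (1 : ℚ)) x = 0 →
      ∃ y, (ovS R b).alt 0 y = x) (p : ℕ) (x : BarX (ovF R 0) p) (hx : (eps2 R).e p x = 0) :
    ∃ y, (overL R).hoco.dv p 0 y = x := by
  refine OvIso.solve ((overL R).d 0) x fun σ => ?_
  refine h0 (σ.o 0) _ ?_
  have key : ∀ x : BarX (ovF R 0) p, ((eps2 R).e p x : Sx B p →₀ ℚ) σ =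
      Finsupp.linearCombination ℚ (fun _ : OvS R (σ.o 0) 0 => (1 : ℚ))
        (OvIso.cmp (ovF R 0) σ x) := by
    intro x
    induction x using bar_ind with
    | h0 => simp only [map_zero]; rfl
    | h1 τ y =>
      have he : (eps2 R).e p (bof (ovF R 0) τ y) =
        Finsupp.single τ (Finsupp.linearCombination ℚ (fun _ : OvS R (τ.o 0) 0 => (1 : ℚ)) y) :=
        bdesc_bof _ _ _ _
      rw [he]
      by_cases hτ : τ = σ
      · subst hτ
        rw [OvIso.cmp_self, Finsupp.single_eq_same]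
      · rw [OvIso.cmp_ne _ hτ, map_zero]
        exact Finsupp.single_eq_of_ne (Ne.symm hτ)
    | h2 x y hx hy =>
      rw [map_add, map_add, map_add, ← hx, ← hy]
      rfl
  rw [← key, hx]
  rfl

theorem eps2_surj (R : T ⥤ B) (h0 : ∀ b, Nonempty (OvS R b 0)) (p : ℕ) :
    Function.Surjective ((eps2 R).e p) := by
  intro z
  induction z using Finsupp.induction_linear with
  | zero => exact ⟨0, map_zero _⟩
  | add f g hf hg =>
    obtain ⟨a, rfl⟩ := hf
    obtain ⟨b, rfl⟩ := hg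
    exact ⟨a + b, map_add _ _ _⟩
  | single σ a =>
    obtain ⟨x⟩ := h0 (σ.o 0)
    refine ⟨bof (ovF R 0) σ (Finsupp.single x a : OvS R (σ.o 0) 0 →₀ ℚ), ?_⟩
    refine (bdesc_bof _ _ _ _).trans ?_
    change Finsupp.single σ (Finsupp.linearCombination ℚ _ (Finsupp.single x a)) = _
    rw [Finsupp.linearCombination_single]
    simp

/-- the sum of the coefficients on homology -/
noncomputable def aug (C : Type) [SmallCategory C] : HC C 0 →ₗ[ℚ] ℚ :=
  Submodule.liftQ _ ((lc C).comp ((NC C).Z 0).subtype) (by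
    rintro ⟨x, hx⟩ ⟨y, hy⟩
    have hy' : (NC C).d 0 y = x := hy
    change lc C x = 0
    rw [← hy', lc_d])

theorem aug_cls {C : Type} [SmallCategory C] (x : (NC C).X 0) (hx : x ∈ (NC C).Z 0) :
    aug C ((NC C).cls 0 x hx) = lc C x := rfl

theorem lc_map {C D : Type} [SmallCategory C] [SmallCategory D] (F : C ⥤ D) (x : (NC C).X 0) :
    lc D ((NCmap F).f 0 x) = lc C x := by
  have : (lc D).comp ((NCmap F).f 0) = lc C := by
    refine Finsupp.lhom_ext fun σ a => ?_
    rw [LinearMap.comp_apply, NCmap_single, lc_single, lc_single]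
  exact LinearMap.congr_fun this x

/-- a category with one-dimensional `H_0` is nonempty and connected -/
theorem conn (C D : Type) [SmallCategory C] [SmallCategory D] (hD : Nonempty D)
    (h0 : ∀ x : (NC D).X 0, lc D x = 0 → x ∈ (NC D).Bd 0) (θ : HC C 0 ≃ₗ[ℚ] HC D 0) :
    Nonempty C ∧ ∀ x : (NC C).X 0, lc C x = 0 → x ∈ (NC C).Bd 0 := by
  obtain ⟨d⟩ := hD
  have hinj : ∀ y : HC D 0, aug D y = 0 → y = 0 := by
    intro y hy
    obtain ⟨x, hx, rfl⟩ := Cx.H_surj y
    exact Cx.cls_eq_zero.2 (h0 x hy)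
  have hne : Nonempty C := by
    by_contra hC
    have hE : IsEmpty (Sx C 0) := ⟨fun σ => hC ⟨σ.o 0⟩⟩
    have hs : ∀ y : HC C 0, y = 0 := by
      intro y
      obtain ⟨x, hx, rfl⟩ := Cx.H_surj y
      have : x = 0 := Subsingleton.elim (α := (Sx C 0 →₀ ℚ)) _ _
      subst this
      exact Cx.cls_eq_zero.2 (Submodule.zero_mem _)
    have h1 := hs (θ.symm ((NC D).cls 0 (Finsupp.single (cst d 0) 1) trivial))
    rw [LinearEquiv.map_eq_zero_iff] at h1
    have h2 := congrArg (aug D) h1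
    rw [aug_cls, lc_single, map_zero] at h2
    exact one_ne_zero h2
  refine ⟨hne, fun x hx => ?_⟩
  obtain ⟨c⟩ := hne
  let y1 : HC C 0 := (NC C).cls 0 (Finsupp.single (cst c 0) 1) trivial
  let y2 : HC C 0 := (NC C).cls 0 x trivial
  have h1 : aug C y1 = 1 := lc_single _ _
  have h2 : aug C y2 = 0 := hx
  have h3 : aug D (θ y2) • y1 = aug D (θ y1) • y2 := by
    apply θ.injective
    rw [map_smul, map_smul]
    refine sub_eq_zero.1 (hinj _ ?_)
    rw [map_sub, map_smul, map_smul, smul_eq_mul, smul_eq_mul, mul_comm, sub_self]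
  have h4 := congrArg (aug C) h3
  rw [map_smul, map_smul, h1, h2, smul_zero, smul_eq_mul, mul_one] at h4
  have h5 : θ y2 = 0 := hinj _ h4
  rw [LinearEquiv.map_eq_zero_iff] at h5
  exact Cx.cls_eq_zero.1 h5

/-- the chain map `C_*(K) → C_*(R / b0)` -/
noncomputable def g0 (R : T ⥤ B) (b0 : B) (κ : K ⥤ CostructuredArrow R b0) :
    Cx.Hom (NC K) ((overL R).at' b0) := (NCmap κ).comp (ovIso R b0)

theorem g0_single (R : T ⥤ B) (b0 : B) (κ : K ⥤ CostructuredArrow R b0) {n : ℕ} (σ : Sx K n)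
    (a : ℚ) : (g0 R b0 κ).f n (Finsupp.single σ a) =
      Finsupp.single (⟨σ.push (κ ⋙ CostructuredArrow.proj R b0),
        (κ.obj (σ.o (Fin.last n))).hom⟩ : OvS R b0 n) a := by
  change (ovIso R b0).f n ((NCmap κ).f n (Finsupp.single σ a)) = _
  rw [NCmap_single, ovIso_single]
  rfl

theorem g0_inj (R : T ⥤ B) (b0 : B) (κ : K ⥤ CostructuredArrow R b0)
    (hinj : ∀ n, Function.Injective
      (fun σ : Sx K n => σ.push (κ ⋙ CostructuredArrow.proj R b0))) (n : ℕ) :
    Function.Injective ((g0 R b0 κ).f n) := by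
  refine (ovIso_bij R b0 n).1.comp ?_
  refine Finsupp.mapDomain_injective fun σ τ h => hinj n ?_
  exact congrArg (Sx.push (CostructuredArrow.proj R b0)) h

theorem g0_qis (R : T ⥤ B) (b0 : B) (κ : K ⥤ CostructuredArrow R b0) (hκ : HIso κ) :
    Cx.Qis (g0 R b0 κ) :=
  Cx.Qis.comp (f := NCmap κ) (g := ovIso R b0) hκ (qis_of_bij (ovIso R b0) (ovIso_bij R b0))

theorem row_compat (R : T ⥤ B) (b0 : B) (κ : K ⥤ CostructuredArrow R b0) (q : ℕ)
    (x : (NC K).X q) : (eps1 R).e q ((kG (overL R) b0 (g0 R b0 κ)).f 0 q x) =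
      (NCmap (κ ⋙ CostructuredArrow.proj R b0)).f q ((kRow (NC K)).e q x) := by
  have : ((eps1 R).e q).comp ((kG (overL R) b0 (g0 R b0 κ)).f 0 q) =
      (NCmap (κ ⋙ CostructuredArrow.proj R b0)).f q := by
    refine Finsupp.lhom_ext' fun σ => LinearMap.ext_ring ?_
    change (eps1 R).e q ((kG (overL R) b0 (g0 R b0 κ)).f 0 q (Finsupp.single σ 1)) =
      (NCmap (κ ⋙ CostructuredArrow.proj R b0)).f q (Finsupp.single σ 1)
    rw [kG_f, g0_single, NCmap_single]
    exact Eps1.e_pt R q _ _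
  exact LinearMap.congr_fun this x

theorem col_compat (R : T ⥤ B) (b0 : B) (κ : K ⥤ CostructuredArrow R b0) (p : ℕ)
    (x : (NC K).X 0) : (eps2 R).e p ((kG (overL R) b0 (g0 R b0 κ)).f p 0 x) =
      (NCmap (ptF b0)).f p ((kCol (NC K) (lc K) lc_d).e p x) := by
  have : ((eps2 R).e p).comp ((kG (overL R) b0 (g0 R b0 κ)).f p 0) =
      ((NCmap (ptF b0)).f p).comp ((kCol (NC K) (lc K) lc_d).e p) := by
    refine Finsupp.lhom_ext' fun σ => LinearMap.ext_ring ?_
    change (eps2 R).e p ((kG (overL R) b0 (g0 R b0 κ)).f p 0 (Finsupp.single σ 1)) =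
      (NCmap (ptF b0)).f p (Finsupp.single _ (lc K (Finsupp.single σ 1)))
    rw [kG_f, g0_single, NCmap_single, lc_single]
    refine (bdesc_bof _ _ _ _).trans ?_
    change Finsupp.single _ (Finsupp.linearCombination ℚ _ (Finsupp.single _ 1)) = _
    rw [Finsupp.linearCombination_single]
    simp
    rfl
  exact LinearMap.congr_fun this x

/-- isomorphism `H_q (R / b) ≃ H_q` of the value of the coefficient system -/
noncomputable def ι (R : T ⥤ B) (b : B) (q : ℕ) :
    HC (CostructuredArrow R b) q ≃ₗ[ℚ] ((overL R).at' b).H q :=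
  LinearEquiv.ofBijective ((ovIso R b).H q) (qis_of_bij (ovIso R b) (ovIso_bij R b) q)

theorem ι_nat (R : T ⥤ B) {b b' : B} (u : b ⟶ b') (q : ℕ) (y : HC (CostructuredArrow R b) q) :
    ι R b' q (HCmap (CostructuredArrow.map (S := R) u) q y) =
      ((overL R).mapAt u).H q (ι R b q y) := by
  obtain ⟨x, hx, rfl⟩ := Cx.H_surj y
  refine Cx.cls_eq.2 ?_
  have h := ovIso_nat R u q x
  change (ovIso R b').f q ((NCmap (CostructuredArrow.map u)).f q x) -
    ((overL R).mapAt u).f q ((ovIso R b).f q x) ∈ _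
  rw [h, sub_self]
  exact Submodule.zero_mem _

theorem exists_θ (R : T ⥤ B) (b0 : B) (q : ℕ) (θ : ∀ b : B, HC (CostructuredArrow R b) q ≃ₗ[ℚ]
        HC (CostructuredArrow R b0) q) (h0 : ∀ x, θ b0 x = x)
    (h1 : ∀ (b b' : B) (u : b ⟶ b') (x : HC (CostructuredArrow R b) q),
        θ b' (HCmap (CostructuredArrow.map (S := R) u) q x) = θ b x) :
    ∃ θ' : Coef.Hom ((overL R).HF q) (Coef.const B (((overL R).at' b0).H q)),
      (∀ b, Function.Bijective (θ'.f b)) ∧ ∀ x, θ'.f b0 x = x := by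
  refine ⟨{ f := fun b => ((ι R b q).symm.trans ((θ b).trans (ι R b0 q))).toLinearMap
            comm := fun {a b} u x => ?_ }, fun b => ?_, fun x => ?_⟩
  · obtain ⟨y, rfl⟩ := (ι R a q).surjective x
    change ι R b0 q (θ b ((ι R b q).symm (((overL R).mapAt u).H q (ι R a q y)))) =
      ι R b0 q (θ a ((ι R a q).symm (ι R a q y)))
    rw [← ι_nat, LinearEquiv.symm_apply_apply, LinearEquiv.symm_apply_apply, h1]
  · exact LinearEquiv.bijective _
  · change ι R b0 q (θ b0 ((ι R b0 q).symm x)) = x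
    rw [h0, LinearEquiv.apply_symm_apply]

/-- transfer of `conn` to simplices over `b` -/
theorem ov_conn (R : T ⥤ B) (b : B) (h : Nonempty (CostructuredArrow R b))
    (h0 : ∀ x : (NC (CostructuredArrow R b)).X 0, lc _ x = 0 →
      x ∈ (NC (CostructuredArrow R b)).Bd 0) :
    Nonempty (OvS R b 0) ∧ ∀ x : OvS R b 0 →₀ ℚ,
      Finsupp.linearCombination ℚ (fun _ => (1 : ℚ)) x = 0 → ∃ y, (ovS R b).alt 0 y = x := by
  refine ⟨?_, fun x hx => ?_⟩
  · obtain ⟨c⟩ := h
    exact ⟨OvIso.io R b 0 (cst c 0)⟩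
  · obtain ⟨x', rfl⟩ := (ovIso_bij R b 0).2 x
    have ha : lc _ x' = 0 := by
      have h2 : (Finsupp.linearCombination ℚ (fun _ : OvS R b 0 => (1 : ℚ))).comp
          ((ovIso R b).f 0) = lc (CostructuredArrow R b) := by
        refine Finsupp.lhom_ext fun σ a => ?_
        change Finsupp.linearCombination ℚ _ ((ovIso R b).f 0 (Finsupp.single σ a)) = _
        rw [ovIso_single, Finsupp.linearCombination_single, lc_single]
        simp
      rw [← h2]
      exact hx
    obtain ⟨y, hy⟩ := h0 x' ha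
    refine ⟨(ovIso R b).f 1 y, ?_⟩
    have := (ovIso R b).comm 0 y
    rw [hy] at this
    exact this.symm

/-- the join of an element of `P` is constant -/
theorem jn_cst (R : T ⥤ B) (b0 : B) (κ : K ⥤ CostructuredArrow R b0) {p q : ℕ} (n : ℕ)
    (σ : Sx K q)
    (hid : (⟨(σ.push (κ ⋙ CostructuredArrow.proj R b0)).push R,
        (κ.obj (σ.o (Fin.last q))).hom⟩ : OvS (𝟭 B) b0 q) =
      ⟨(σ.push (toPt K)).push (ptF b0), 𝟙 b0⟩) :
    Join.jn R n (cst b0 p) (⟨σ.push (κ ⋙ CostructuredArrow.proj R b0),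
        (κ.obj (σ.o (Fin.last q))).hom⟩ : OvS R b0 q) = cst b0 n := by
  have h1 : Join.jn R n (cst b0 p) (⟨σ.push (κ ⋙ CostructuredArrow.proj R b0),
      (κ.obj (σ.o (Fin.last q))).hom⟩ : OvS R b0 q) =
      Join.jn (𝟭 B) n (cst b0 p) (⟨(σ.push (κ ⋙ CostructuredArrow.proj R b0)).push R,
        (κ.obj (σ.o (Fin.last q))).hom⟩ : OvS (𝟭 B) b0 q) := by
    unfold Join.jn
    congr 1
  rw [h1, hid]
  have ho : ∀ a, (Join.jd (𝟭 B) (cst b0 p) (⟨(σ.push (toPt K)).push (ptF b0), 𝟙 b0⟩ :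
      OvS (𝟭 B) b0 q)).o a = b0 := by
    intro a
    cases a with
    | l i => rfl
    | r j => rfl
  refine Eps1.ext_heq (fun i => ho _) (fun i j h => ?_)
  have hm : ∀ a b hab, HEq ((Join.jd (𝟭 B) (cst b0 p) (⟨(σ.push (toPt K)).push (ptF b0), 𝟙 b0⟩ :
      OvS (𝟭 B) b0 q)).m a b hab) (𝟙 b0) := by
    intro a b hab
    cases a with
    | l i =>
      cases b with
      | l j => exact HEq.rfl
      | r j =>
        refine heq_of_eq ?_
        change 𝟙 b0 ≫ 𝟙 b0 ≫ 𝟙 b0 = 𝟙 b0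
        rw [Category.comp_id, Category.comp_id]
    | r i =>
      cases b with
      | l j => exact hab.elim
      | r j => exact HEq.rfl
  exact hm _ _ _

theorem jl_kG (R : T ⥤ B) (b0 : B) (κ : K ⥤ CostructuredArrow R b0)
    (hid : ∀ n (σ : Sx K n), (⟨(σ.push (κ ⋙ CostructuredArrow.proj R b0)).push R,
        (κ.obj (σ.o (Fin.last n))).hom⟩ : OvS (𝟭 B) b0 n) =
      ⟨(σ.push (toPt K)).push (ptF b0), 𝟙 b0⟩) (n p q : ℕ) (x : (NC K).X q) :
    Join.jl R n p q ((kG (overL R) b0 (g0 R b0 κ)).f p q x) ∈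
      LinearMap.range ((NCmap (ptF b0)).f n) := by
  induction x using Finsupp.induction_linear with
  | zero =>
    rw [map_zero, map_zero]
    exact Submodule.zero_mem _
  | add f g hf hg =>
    rw [map_add, map_add]
    exact Submodule.add_mem _ hf hg
  | single σ a =>
    rw [kG_f, g0_single]
    refine ⟨Finsupp.single (cst (Discrete.mk PUnit.unit) n) a, ?_⟩
    rw [NCmap_single]
    have h1 : Join.jl R n p q (bof (ovF R q) (cst b0 p)
      (Finsupp.single (⟨σ.push (κ ⋙ CostructuredArrow.proj R b0),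
        (κ.obj (σ.o (Fin.last q))).hom⟩ : OvS R b0 q) a)) = Finsupp.single (cst b0 n) a := by
      refine (bdesc_bof _ _ _ _).trans ?_
      refine Finsupp.mapDomain_single.trans ?_
      rw [jn_cst R b0 κ n σ (hid q σ)]
    exact h1.symm

/-- on homology, the column augmentation factors through the row augmentation -/
theorem agree (R : T ⥤ B) (b0 : B) (κ : K ⥤ CostructuredArrow R b0)
    (gi : ∀ p q, Function.Injective ((kG (overL R) b0 (g0 R b0 κ)).f p q))
    (hid : ∀ n (σ : Sx K n), (⟨(σ.push (κ ⋙ CostructuredArrow.proj R b0)).push R,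
        (κ.obj (σ.o (Fin.last n))).hom⟩ : OvS (𝟭 B) b0 n) =
      ⟨(σ.push (toPt K)).push (ptF b0), 𝟙 b0⟩)
    (hconst : ∀ n (σ : Sx K n), (σ.push (κ ⋙ CostructuredArrow.proj R b0)).push R =
      (σ.push (toPt K)).push (ptF b0)) (n : ℕ)
    (y : (DCx.coker (kG (overL R) b0 (g0 R b0 κ))).Tot.H n) :
    (DCx.ColAug.coker _ (NCmap (ptF b0)) (kCol (NC K) (lc K) lc_d) (eps2 R)
      (col_compat R b0 κ)).hom.H n y =
    (relMap (κ ⋙ CostructuredArrow.proj R b0) (ptF b0) R (toPt K) hconst).H n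
      ((DCx.RowAug.coker _ (NCmap (κ ⋙ CostructuredArrow.proj R b0)) (kRow (NC K)) (eps1 R)
        (row_compat R b0 κ)).hom.H n y) := by
  obtain ⟨x, hx, rfl⟩ := Cx.H_surj y
  rw [Cx.H_cls, Cx.H_cls, Cx.H_cls, Cx.cls_eq]
  have hs := DCx.tot_SES (kG (overL R) b0 (g0 R b0 κ)) (DCx.toCoker _) gi
    (fun a b => (col_SES _ gi a).exact b) (fun a b => (col_SES _ gi a).surj b)
  obtain ⟨a, rfl⟩ := hs.surj n x
  have hj : ∀ m (z : (kP (NC K)).Tot.X m), Join.hh R m ((kG (overL R) b0 (g0 R b0 κ)).tot.f m z).1 ∈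
      LinearMap.range ((NCmap (ptF b0)).f (m + 1)) := by
    intro m z
    unfold Join.hh
    refine Submodule.sum_mem _ fun pq _ => Submodule.smul_mem _ _ ?_
    exact jl_kG R b0 κ hid (m + 1) pq.1 pq.2 _
  change (Submodule.Quotient.mk ((eps2 R).e n (a.1 n 0) - (NCmap R).f n ((eps1 R).e n (a.1 0 n))) :
    (NC B).X n ⧸ LinearMap.range ((NCmap (ptF b0)).f n)) ∈ _
  cases n with
  | zero =>
    rw [← Join.d_hh_zero R a.1]
    exact ⟨Submodule.Quotient.mk (Join.hh R 0 a.1), rfl⟩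
  | succ n =>
    rw [Cx.mem_Z_succ, ← (DCx.toCoker (kG (overL R) b0 (g0 R b0 κ))).tot.comm] at hx
    obtain ⟨z, hz⟩ := (hs.exact n _).1 hx
    have h2 := Join.d_hh_succ R n a.1
    have h3 : Join.hh R n ((overL R).hoco.totd a.1) ∈
        LinearMap.range ((NCmap (ptF b0)).f (n + 1)) := by
      have h4 := hj n z
      rw [hz] at h4
      exact h4
    rw [← h2]
    refine ⟨Submodule.Quotient.mk (Join.hh R (n + 1) a.1), ?_⟩
    have h5 : (Submodule.Quotient.mk (Join.hh R n ((overL R).hoco.totd a.1)) :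
      (NC B).X (n + 1) ⧸ LinearMap.range ((NCmap (ptF b0)).f (n + 1))) = 0 :=
      (Submodule.Quotient.mk_eq_zero _).2 h3
    rw [Submodule.Quotient.mk_add, h5, add_zero]
    rfl

end RelOver

theorem rel_over (R : T ⥤ B) (b0 : B) (κ : K ⥤ CostructuredArrow R b0) (hκ : HIso κ)
    (hinj : ∀ n, Function.Injective
      (fun σ : Sx K n => σ.push (κ ⋙ CostructuredArrow.proj R b0)))
    (hconst : ∀ n (σ : Sx K n), (σ.push (κ ⋙ CostructuredArrow.proj R b0)).push R =
      (σ.push (toPt K)).push (ptF b0))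
    (hid : ∀ n (σ : Sx K n), (⟨(σ.push (κ ⋙ CostructuredArrow.proj R b0)).push R,
        (κ.obj (σ.o (Fin.last n))).hom⟩ : OvS (𝟭 B) b0 n) =
      ⟨(σ.push (toPt K)).push (ptF b0), 𝟙 b0⟩)
    (hKne : Nonempty K)
    (hK0 : ∀ x : (NC K).X 0, Finsupp.linearCombination ℚ (fun _ => (1 : ℚ)) x = 0 →
      x ∈ (NC K).Bd 0)
    (hθ : ∀ q : ℕ, ∃ θ : ∀ b : B, HC (CostructuredArrow R b) q ≃ₗ[ℚ]
        HC (CostructuredArrow R b0) q, (∀ x, θ b0 x = x) ∧
      ∀ (b b' : B) (u : b ⟶ b') (x : HC (CostructuredArrow R b) q),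
        θ b' (HCmap (CostructuredArrow.map (S := R) u) q x) = θ b x)
    (S : Serre) (n : ℕ) :
    ((∀ p q, 1 ≤ q → p + q = n → S.P (TensorProduct ℚ ((relC (ptF b0)).H p) (HC K q))) →
      S.P (LinearMap.ker ((relMap (κ ⋙ CostructuredArrow.proj R b0) (ptF b0) R (toPt K)
        hconst).H n))) ∧
    ((∀ p q, 1 ≤ q → p + q + 1 = n → S.P (TensorProduct ℚ ((relC (ptF b0)).H p) (HC K q))) →
      S.P ((relC (ptF b0)).H n ⧸ LinearMap.range ((relMap (κ ⋙ CostructuredArrow.proj R b0)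
        (ptF b0) R (toPt K) hconst).H n))) := by
  have gi := RelOver.kG_inj (overL R) b0 (RelOver.g0 R b0 κ) (RelOver.g0_inj R b0 κ hinj)
  have gq := RelOver.g0_qis R b0 κ hκ
  have hs := DCx.tot_SES (RelOver.kG (overL R) b0 (RelOver.g0 R b0 κ)) (DCx.toCoker _) gi
    (fun a b => (RelOver.col_SES _ gi a).exact b) (fun a b => (RelOver.col_SES _ gi a).surj b)
  have hjn : ∀ n, Function.Injective ((NCmap (κ ⋙ CostructuredArrow.proj R b0)).f n) := fun n =>
    Finsupp.mapDomain_injective (hinj n)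
  have hag := RelOver.agree R b0 κ gi hid hconst n
  set ra := DCx.RowAug.coker (RelOver.kG (overL R) b0 (RelOver.g0 R b0 κ))
    (NCmap (κ ⋙ CostructuredArrow.proj R b0)) (RelOver.kRow (NC K)) (eps1 R)
    (RelOver.row_compat R b0 κ) with hra
  set ca := DCx.ColAug.coker (RelOver.kG (overL R) b0 (RelOver.g0 R b0 κ))
    (NCmap (ptF b0)) (RelOver.kCol (NC K) (RelOver.lc K) RelOver.lc_d) (eps2 R)
    (RelOver.col_compat R b0 κ) with hca
  have raq : Cx.Qis ra.hom := Cx.qis_right hs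
    (Cx.coker_SES (NCmap (κ ⋙ CostructuredArrow.proj R b0)) hjn) (RelOver.kRow (NC K)).hom
    (eps1 R).hom ra.hom (fun n x => RelOver.row_compat R b0 κ n (x.1 0 n)) (fun n x => rfl)
    (RelOver.kRow_qis (NC K)) (eps1_qis R)
  -- connectedness
  have hb0 : Nonempty (CostructuredArrow R b0) := ⟨κ.obj hKne.some⟩
  have hb1 : ∀ x : (NC (CostructuredArrow R b0)).X 0, RelOver.lc _ x = 0 →
      x ∈ (NC (CostructuredArrow R b0)).Bd 0 :=
    (RelOver.conn (CostructuredArrow R b0) K hKne hK0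
      (LinearEquiv.ofBijective (HCmap κ 0) (hκ 0)).symm).2
  have hconn : ∀ b, Nonempty (OvS R b 0) ∧ ∀ x : OvS R b 0 →₀ ℚ,
      Finsupp.linearCombination ℚ (fun _ => (1 : ℚ)) x = 0 → ∃ y, (ovS R b).alt 0 y = x := by
    intro b
    obtain ⟨θ, -, -⟩ := hθ 0
    obtain ⟨h1, h2⟩ := RelOver.conn (CostructuredArrow R b) (CostructuredArrow R b0) hb0 hb1 (θ b)
    exact RelOver.ov_conn R b h1 h2
  have c1 : ∀ p, Function.Surjective (ca.e p) := by
    intro p y
    obtain ⟨y, rfl⟩ := Submodule.Quotient.mk_surjective _ y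
    obtain ⟨x, rfl⟩ := RelOver.eps2_surj R (fun b => (hconn b).1) p y
    exact ⟨Submodule.Quotient.mk x, rfl⟩
  have c2 : ∀ p (x : (DCx.coker (RelOver.kG (overL R) b0 (RelOver.g0 R b0 κ))).X p 0),
      ca.e p x = 0 → ∃ y, (DCx.coker (RelOver.kG (overL R) b0 (RelOver.g0 R b0 κ))).dv p 0 y =
        x := by
    intro p x hx
    obtain ⟨x, rfl⟩ := Submodule.Quotient.mk_surjective _ x
    have hx' : (Submodule.Quotient.mk ((eps2 R).e p x) :
      (NC B).X p ⧸ LinearMap.range ((NCmap (ptF b0)).f p)) = 0 := hx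
    obtain ⟨z, hz⟩ := (Submodule.Quotient.mk_eq_zero _).1 hx'
    obtain ⟨k⟩ := hKne
    let a : ℚ := (z : Sx ActCat.Pt p →₀ ℚ) (RelOver.cst (Discrete.mk PUnit.unit) p)
    have hza : z = Finsupp.single (RelOver.cst (Discrete.mk PUnit.unit) p) a := by
      refine Finsupp.ext fun σ => ?_
      rw [Subsingleton.elim σ (RelOver.cst (Discrete.mk PUnit.unit) p), Finsupp.single_eq_same]
    let w : (NC K).X 0 := Finsupp.single (RelOver.cst k 0) a
    have hw : (eps2 R).e p ((RelOver.kG (overL R) b0 (RelOver.g0 R b0 κ)).f p 0 w) =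
        (eps2 R).e p x := by
      rw [RelOver.col_compat R b0 κ p w, ← hz, hza]
      change (NCmap (ptF b0)).f p (Finsupp.single _ (RelOver.lc K w)) = _
      rw [RelOver.lc_single]
    obtain ⟨y, hy⟩ := RelOver.eps2_ker R (fun b => (hconn b).2) p
      (x - (RelOver.kG (overL R) b0 (RelOver.g0 R b0 κ)).f p 0 w) (by
        rw [map_sub, hw, sub_self])
    refine ⟨Submodule.Quotient.mk y, ?_⟩
    change Submodule.Quotient.mk ((overL R).hoco.dv p 0 y) = _
    rw [hy, Submodule.Quotient.mk_sub, sub_eq_self]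
    exact (Submodule.Quotient.mk_eq_zero _).2 ⟨w, rfl⟩
  have hE : ∀ p q, S.P (TensorProduct ℚ ((relC (ptF b0)).H p) (HC K q)) →
      S.P (((DCx.coker (RelOver.kG (overL R) b0 (RelOver.g0 R b0 κ))).E1 q).H p) := by
    intro p q h
    obtain ⟨θ, h0, h1⟩ := hθ q
    obtain ⟨θ', h2, h3⟩ := RelOver.exists_θ R b0 q θ h0 h1
    exact RelOver.kG_E1 (overL R) b0 (RelOver.g0 R b0 κ) (RelOver.g0_inj R b0 κ hinj) gq q θ' h2
      h3 S p h
  constructor
  · intro h
    have h1 := DCx.ColAug.serre_ker ca c1 c2 S n (fun p q hq hpq => hE p q (h p q hq hpq))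
    refine S.of_surj (LinearMap.restrict (ra.hom.H n) (p := LinearMap.ker (ca.hom.H n))
      (q := LinearMap.ker ((relMap (κ ⋙ CostructuredArrow.proj R b0) (ptF b0) R (toPt K)
        hconst).H n)) (fun y hy => ?_)) ?_ h1
    · rw [LinearMap.mem_ker] at hy ⊢
      rw [← hag, hy]
    · rintro ⟨y, hy⟩
      obtain ⟨z, rfl⟩ := (raq n).2 y
      refine ⟨⟨z, ?_⟩, rfl⟩
      rw [LinearMap.mem_ker] at hy ⊢
      rw [hag, hy]
  · intro h
    have h1 := DCx.ColAug.serre_coker ca c1 c2 S n (fun p q hq hpq => hE p q (h p q hq hpq))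
    refine (S.congr (Submodule.quotEquivOfEq _ _ ?_)).1 h1
    ext y
    constructor
    · rintro ⟨z, rfl⟩
      exact ⟨_, (hag z).symm⟩
    · rintro ⟨z, rfl⟩
      obtain ⟨w, rfl⟩ := (raq n).2 z
      exact ⟨w, hag w⟩

end C715
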