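import Pool.Agent.Work.MP_c71557_gt.H.RelOver
import Pool.Agent.Work.MP_c71557_gt.H.Op

set_option autoImplicit false

/-!
# MP_c71557_gt, module H/RelUnder: the version of `rel_over` for categories under an object (M)

Apply `rel_over` to `R.op : Tᵒᵖ ⥤ Bᵒᵖ`, `op b0`, `Kᵒᵖ` and the functor
`κ.op ⋙ e : Kᵒᵖ ⥤ (StructuredArrow b0 R)ᵒᵖ ≌ CostructuredArrow R.op (op b0)`
(Mathlib: `StructuredArrow.toCostructuredArrow`, `structuredArrowOpEquivalence`), a homology
isomorphism by `hiso_op` and `hiso_of_equiv`.  The chain isomorphisms `opC` are natural (`opC_nat`)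
and bijective, so they induce bijective chain maps of the relative complexes
`relC (j.op) → relC j`, `relC (ptF (op b0)) → relC (ptF b0)` (identify `Ptᵒᵖ` with `Pt`; the
constant functor `Ptᵒᵖ ⥤ Bᵒᵖ`), compatible with `relMap`; `Cx.qis_of_bij`-type statements, and
`S.P` is invariant under isomorphisms (`Serre.congr`, see `H/Base`).
The hypothesis `hθ` of `rel_over` for `R.op` follows from `hθ` here through the isomorphisms
`H_q (CostructuredArrow R.op (op b)) ≅ H_q ((StructuredArrow b R)ᵒᵖ) ≅ H_q (StructuredArrow b R)`,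
natural in `b`.
(Extra hypothesis `hid` as in `rel_over`: the structure arrows of the objects of `K` are identities.)
-/

namespace C715

open CategoryTheory Opposite

variable {T B K : Type} [SmallCategory T] [SmallCategory B] [SmallCategory K]

private theorem rev_inj {C : Type} [SmallCategory C] {n : ℕ} {σ τ : Sx Cᵒᵖ n}
    (h : σ.rev = τ.rev) : σ = τ := by
  have h1 : (opC C).f n (Finsupp.single σ 1) = (opC C).f n (Finsupp.single τ 1) := by
    rw [opC_single, opC_single, h]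
  exact Finsupp.single_left_injective (one_ne_zero (α := ℚ)) ((opC_bij n).1 h1)

private theorem rev_push {C D : Type} [SmallCategory C] [SmallCategory D] (F : C ⥤ D) {n : ℕ}
    (σ : Sx Cᵒᵖ n) : (σ.push F.op).rev = σ.rev.push F := rfl

/-- the functor between opposite categories -/
private def kop (R : T ⥤ B) (b0 : B) (κ : K ⥤ StructuredArrow b0 R) :
    Kᵒᵖ ⥤ CostructuredArrow R.op (op b0) :=
  κ.op ⋙ StructuredArrow.toCostructuredArrow R b0

private theorem kop_proj (R : T ⥤ B) (b0 : B) (κ : K ⥤ StructuredArrow b0 R) :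
    kop R b0 κ ⋙ CostructuredArrow.proj R.op (op b0) = (κ ⋙ StructuredArrow.proj b0 R).op := rfl

private theorem toC_hiso (R : T ⥤ B) (b : B) : HIso (StructuredArrow.toCostructuredArrow R b) := by
  have : (StructuredArrow.toCostructuredArrow R b).IsEquivalence :=
    (structuredArrowOpEquivalence R b).isEquivalence_functor
  exact hiso_of_equiv _

private theorem kop_hiso (R : T ⥤ B) (b0 : B) (κ : K ⥤ StructuredArrow b0 R) (hκ : HIso κ) :
    HIso (kop R b0 κ) := ((hiso_op κ).2 hκ).comp (toC_hiso R b0)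

private theorem heq_op {C : Type} [SmallCategory C] {b0 x : C} (hx : x = b0) (f : b0 ⟶ x)
    (h : HEq f (𝟙 b0)) : HEq f.op (𝟙 (op b0)) := by
  subst hx
  obtain rfl := eq_of_heq h
  exact HEq.rfl

/-- transport of kernels and cokernels along a commutative square of isomorphisms -/
private theorem transp {V W V' W' : Type} [AddCommGroup V] [Module ℚ V] [AddCommGroup W]
    [Module ℚ W] [AddCommGroup V'] [Module ℚ V'] [AddCommGroup W'] [Module ℚ W']
    (f : V →ₗ[ℚ] W) (f' : V' →ₗ[ℚ] W') (a : V →ₗ[ℚ] V') (b : W →ₗ[ℚ] W')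
    (ha : Function.Bijective a) (hb : Function.Bijective b) (h : ∀ x, f' (a x) = b (f x))
    (S : Serre) :
    (S.P (LinearMap.ker f) → S.P (LinearMap.ker f')) ∧
    (S.P (W ⧸ LinearMap.range f) → S.P (W' ⧸ LinearMap.range f')) := by
  constructor
  · intro h1
    refine S.of_surj (LinearMap.restrict a (p := LinearMap.ker f) (q := LinearMap.ker f')
      (fun x hx => ?_)) ?_ h1
    · rw [LinearMap.mem_ker] at hx ⊢
      rw [h, hx, map_zero]
    · rintro ⟨y, hy⟩
      obtain ⟨x, rfl⟩ := ha.2 y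
      refine ⟨⟨x, ?_⟩, rfl⟩
      rw [LinearMap.mem_ker] at hy ⊢
      rw [h] at hy
      exact (injective_iff_map_eq_zero b).1 hb.1 _ hy
  · intro h1
    refine S.of_surj (Submodule.mapQ _ _ b ?_) ?_ h1
    · rintro _ ⟨x, rfl⟩
      exact ⟨a x, h x⟩
    · intro y
      obtain ⟨y, rfl⟩ := Submodule.Quotient.mk_surjective _ y
      obtain ⟨x, rfl⟩ := hb.2 y
      exact ⟨Submodule.Quotient.mk x, rfl⟩

private theorem opC_aug' {C : Type} [SmallCategory C] (x : (NC Cᵒᵖ).X 0) :
    RelOver.lc C ((opC C).f 0 x) = RelOver.lc Cᵒᵖ x := by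
  have : (RelOver.lc C).comp ((opC C).f 0) = RelOver.lc Cᵒᵖ := by
    refine Finsupp.lhom_ext fun σ a => ?_
    rw [LinearMap.comp_apply, opC_single, RelOver.lc_single, RelOver.lc_single]
    simp
  exact congrArg (fun l => l x) this

private theorem opC_Bd0' {C : Type} [SmallCategory C] (x : (NC Cᵒᵖ).X 0) :
    (opC C).f 0 x ∈ (NC C).Bd 0 ↔ x ∈ (NC Cᵒᵖ).Bd 0 := by
  have h1 := (opC_qis (C := C) 0).1
  rw [← Cx.cls_eq_zero (hx := Cx.mem_Z_zero x), ← map_eq_zero_iff _ h1, Cx.H_cls, Cx.cls_eq_zero]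

/-- naturality of the comparison of categories under and over -/
private theorem toC_nat (R : T ⥤ B) {b b' : B} (u : b ⟶ b') (q : ℕ)
    (y : HC (StructuredArrow b' R)ᵒᵖ q) :
    HCmap (CostructuredArrow.map (S := R.op) u.op) q
      (HCmap (StructuredArrow.toCostructuredArrow R b') q y) =
    HCmap (StructuredArrow.toCostructuredArrow R b) q
      (HCmap (StructuredArrow.map (T := R) u).op q y) := by
  rw [← HCmap_comp, ← HCmap_comp]
  refine LinearMap.congr_fun (HCmap_natTrans ?_ q) y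
  exact
  { app := fun X => CostructuredArrow.homMk (𝟙 _) (by
      change R.op.map (𝟙 _) ≫ _ = _
      rw [R.op.map_id, Category.id_comp]
      rfl)
    naturality := fun X Y f => by
      ext
      change _ ≫ 𝟙 _ = 𝟙 _ ≫ _
      rw [Category.comp_id, Category.id_comp]
      rfl }

private noncomputable def E1 (C : Type) [SmallCategory C] (q : ℕ) : HC Cᵒᵖ q ≃ₗ[ℚ] HC C q :=
  LinearEquiv.ofBijective ((opC C).H q) (opC_qis q)

private noncomputable def E2 (R : T ⥤ B) (b : B) (q : ℕ) :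
    HC (StructuredArrow b R)ᵒᵖ q ≃ₗ[ℚ] HC (CostructuredArrow R.op (op b)) q :=
  LinearEquiv.ofBijective (HCmap (StructuredArrow.toCostructuredArrow R b) q) (toC_hiso R b q)

private theorem E1_nat {C D : Type} [SmallCategory C] [SmallCategory D] (F : C ⥤ D) (q : ℕ)
    (y : HC Cᵒᵖ q) : E1 D q (HCmap F.op q y) = HCmap F q (E1 C q y) := by
  change (opC D).H q ((NCmap F.op).H q y) = (NCmap F).H q ((opC C).H q y)
  rw [← Cx.H_comp, ← Cx.H_comp, opC_nat]

private theorem theta_op (R : T ⥤ B) (b0 : B) (q : ℕ)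
    (h : ∃ θ : ∀ b : B, HC (StructuredArrow b R) q ≃ₗ[ℚ]
        HC (StructuredArrow b0 R) q, (∀ x, θ b0 x = x) ∧
      ∀ (b b' : B) (u : b ⟶ b') (x : HC (StructuredArrow b' R) q),
        θ b (HCmap (StructuredArrow.map (T := R) u) q x) = θ b' x) :
    ∃ θ : ∀ b : Bᵒᵖ, HC (CostructuredArrow R.op b) q ≃ₗ[ℚ]
        HC (CostructuredArrow R.op (op b0)) q, (∀ x, θ (op b0) x = x) ∧
      ∀ (b b' : Bᵒᵖ) (u : b ⟶ b') (x : HC (CostructuredArrow R.op b) q),
        θ b' (HCmap (CostructuredArrow.map (S := R.op) u) q x) = θ b x := by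
  obtain ⟨θ, h0, h1⟩ := h
  refine ⟨fun b => (E2 R b.unop q).symm.trans ((E1 _ q).trans ((θ b.unop).trans
    ((E1 _ q).symm.trans (E2 R b0 q)))), fun x => ?_, fun b b' u x => ?_⟩
  · change E2 R b0 q ((E1 _ q).symm (θ b0 (E1 _ q ((E2 R b0 q).symm x)))) = x
    rw [h0, LinearEquiv.symm_apply_apply, LinearEquiv.apply_symm_apply]
  · obtain ⟨y, rfl⟩ := (E2 R b.unop q).surjective x
    change E2 R b0 q ((E1 _ q).symm (θ b'.unop (E1 _ q ((E2 R b'.unop q).symm
      (HCmap (CostructuredArrow.map (S := R.op) u) q (E2 R b.unop q y)))))) =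
      E2 R b0 q ((E1 _ q).symm (θ b.unop (E1 _ q ((E2 R b.unop q).symm (E2 R b.unop q y)))))
    rw [LinearEquiv.symm_apply_apply]
    have h2 : HCmap (CostructuredArrow.map (S := R.op) u) q (E2 R b.unop q y) =
        E2 R b'.unop q (HCmap (StructuredArrow.map (T := R) u.unop).op q y) :=
      toC_nat R u.unop q y
    rw [h2, LinearEquiv.symm_apply_apply, E1_nat, h1]

/-- the comparison of the relative complexes of `T` -/
private noncomputable def alT {C D : Type} [SmallCategory C] [SmallCategory D] (j : C ⥤ D) :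
    Cx.Hom (relC j.op) (relC j) :=
  Cx.cokerMap (NCmap j.op) (NCmap j) (opC C) (opC D) (fun n x => by
    have := congrArg (fun f : Cx.Hom (NC Cᵒᵖ) (NC D) => f.f n x) (opC_nat j)
    exact this.symm)

private theorem alT_qis {C D : Type} [SmallCategory C] [SmallCategory D] (j : C ⥤ D)
    (hj : ∀ n, Function.Injective (fun σ : Sx C n => σ.push j))
    (hj' : ∀ n, Function.Injective (fun σ : Sx Cᵒᵖ n => σ.push j.op)) : Cx.Qis (alT j) :=
  Cx.coker_qis _ _ (fun n => Finsupp.mapDomain_injective (hj' n))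
    (fun n => Finsupp.mapDomain_injective (hj n)) _ _ _ opC_qis opC_qis

private noncomputable abbrev wPt : ActCat.Pt ⥤ ActCat.Ptᵒᵖ := ptF (op (Discrete.mk PUnit.unit))

private theorem wPt_hiso : HIso wPt := by
  have h1 : HIso (toPt (ActCat.Ptᵒᵖ)) := acy_iff.1 (acy_op.2 acy_pt)
  refine HIso.of_comp_right (G := toPt (ActCat.Ptᵒᵖ)) h1 ?_
  exact acy_iff.1 acy_pt

/-- the comparison of the relative complexes of `B` -/
private noncomputable def alB {C : Type} [SmallCategory C] (c : C) :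
    Cx.Hom (relC (ptF (op c))) (relC (ptF c)) :=
  Cx.cokerMap (NCmap (ptF (op c))) (NCmap (ptF c)) ((NCmap wPt).comp (opC ActCat.Pt)) (opC C)
    (fun n x => by
      have h1 := congrArg (fun f : Cx.Hom (NC ActCat.Ptᵒᵖ) (NC C) => f.f n ((NCmap wPt).f n x))
        (opC_nat (ptF c))
      have h2 : (NCmap (ptF (op c))).f n x = (NCmap (ptF c).op).f n ((NCmap wPt).f n x) := by
        have h3 : (NCmap wPt).comp (NCmap (ptF c).op) = NCmap (ptF (op c)) := NCmap_comp _ _
        rw [← h3]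
        rfl
      rw [h2]
      exact h1.symm)

private theorem ptF_inj {C : Type} [SmallCategory C] (c : C) (n : ℕ) :
    Function.Injective (fun σ : Sx ActCat.Pt n => σ.push (ptF c)) :=
  fun σ τ _ => Subsingleton.elim (h := RelOver.ssub n) σ τ

private theorem alB_qis {C : Type} [SmallCategory C] (c : C) : Cx.Qis (alB c) :=
  Cx.coker_qis _ _ (fun n => Finsupp.mapDomain_injective (ptF_inj _ n))
    (fun n => Finsupp.mapDomain_injective (ptF_inj _ n)) _ _ _
    (Cx.Qis.comp (f := NCmap wPt) (g := opC ActCat.Pt) wPt_hiso opC_qis) opC_qis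

theorem rel_under (R : T ⥤ B) (b0 : B) (κ : K ⥤ StructuredArrow b0 R) (hκ : HIso κ)
    (hinj : ∀ n, Function.Injective
      (fun σ : Sx K n => σ.push (κ ⋙ StructuredArrow.proj b0 R)))
    (hconst : ∀ n (σ : Sx K n), (σ.push (κ ⋙ StructuredArrow.proj b0 R)).push R =
      (σ.push (toPt K)).push (ptF b0))
    (hid : ∀ c : K, HEq (κ.obj c).hom (𝟙 b0))
    (hKne : Nonempty K)
    (hK0 : ∀ x : (NC K).X 0, Finsupp.linearCombination ℚ (fun _ => (1 : ℚ)) x = 0 →
      x ∈ (NC K).Bd 0)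
    (hθ : ∀ q : ℕ, ∃ θ : ∀ b : B, HC (StructuredArrow b R) q ≃ₗ[ℚ]
        HC (StructuredArrow b0 R) q, (∀ x, θ b0 x = x) ∧
      ∀ (b b' : B) (u : b ⟶ b') (x : HC (StructuredArrow b' R) q),
        θ b (HCmap (StructuredArrow.map (T := R) u) q x) = θ b' x)
    (S : Serre) (n : ℕ) :
    ((∀ p q, 1 ≤ q → p + q = n → S.P (TensorProduct ℚ ((relC (ptF b0)).H p) (HC K q))) →
      S.P (LinearMap.ker ((relMap (κ ⋙ StructuredArrow.proj b0 R) (ptF b0) R (toPt K)
        hconst).H n))) ∧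
    ((∀ p q, 1 ≤ q → p + q + 1 = n → S.P (TensorProduct ℚ ((relC (ptF b0)).H p) (HC K q))) →
      S.P ((relC (ptF b0)).H n ⧸ LinearMap.range ((relMap (κ ⋙ StructuredArrow.proj b0 R)
        (ptF b0) R (toPt K) hconst).H n))) := by
  have hinj' : ∀ n, Function.Injective (fun σ : Sx Kᵒᵖ n =>
      σ.push (κ ⋙ StructuredArrow.proj b0 R).op) := by
    intro n σ τ h
    refine rev_inj (hinj n ?_)
    exact congrArg Sx.rev h
  have hconst' : ∀ n (σ : Sx Kᵒᵖ n), (σ.push (κ ⋙ StructuredArrow.proj b0 R).op).push R.op =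
      (σ.push (toPt Kᵒᵖ)).push (ptF (op b0)) := by
    intro n σ
    refine rev_inj ?_
    exact hconst n σ.rev
  have hhom : ∀ c : K, R.obj (κ.obj c).right = b0 := by
    intro c
    have h := hconst 0 (RelOver.cst c 0)
    exact congrFun (congrArg Sx.o h) 0
  have hid' : ∀ n (σ : Sx Kᵒᵖ n),
      (⟨(σ.push (kop R b0 κ ⋙ CostructuredArrow.proj R.op (op b0))).push R.op,
        ((kop R b0 κ).obj (σ.o (Fin.last n))).hom⟩ : OvS (𝟭 Bᵒᵖ) (op b0) n) =
      ⟨(σ.push (toPt Kᵒᵖ)).push (ptF (op b0)), 𝟙 (op b0)⟩ := by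
    intro n σ
    rw [OvS.mk.injEq]
    refine ⟨hconst' n σ, ?_⟩
    exact heq_op (hhom _) _ (hid _)
  have hK0' : ∀ x : (NC Kᵒᵖ).X 0, Finsupp.linearCombination ℚ (fun _ => (1 : ℚ)) x = 0 →
      x ∈ (NC Kᵒᵖ).Bd 0 := by
    intro x hx
    rw [← opC_Bd0']
    refine hK0 _ ?_
    have := opC_aug' x
    exact this.trans hx
  have key := rel_over R.op (op b0) (kop R b0 κ) (kop_hiso R b0 κ hκ) hinj' hconst' hid'
    ⟨op hKne.some⟩ hK0' (fun q => theta_op R b0 q (hθ q)) S n
  have hsq : ∀ x, (relMap (κ ⋙ StructuredArrow.proj b0 R) (ptF b0) R (toPt K) hconst).H n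
      ((alT (κ ⋙ StructuredArrow.proj b0 R)).H n x) =
      (alB b0).H n ((relMap (κ ⋙ StructuredArrow.proj b0 R).op (ptF (op b0)) R.op (toPt Kᵒᵖ)
        hconst').H n x) := by
    intro x
    rw [← Cx.H_comp, ← Cx.H_comp]
    congr 2
    refine Cx.Hom.ext (funext fun m => LinearMap.ext fun y => ?_)
    obtain ⟨y, rfl⟩ := Submodule.Quotient.mk_surjective _ y
    have h1 := congrArg (fun f : Cx.Hom (NC Tᵒᵖ) (NC B) => f.f m y) (opC_nat R)
    exact congrArg (Submodule.Quotient.mk (p := LinearMap.range ((NCmap (ptF b0)).f m))) h1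
  have htr := transp _ _ _ _ (alT_qis (κ ⋙ StructuredArrow.proj b0 R) hinj hinj' n)
    (alB_qis b0 n) hsq S
  have hten : ∀ p q, S.P (TensorProduct ℚ ((relC (ptF b0)).H p) (HC K q)) →
      S.P (TensorProduct ℚ ((relC (ptF (op b0))).H p) (HC Kᵒᵖ q)) := by
    intro p q h
    exact (S.congr (TensorProduct.congr (LinearEquiv.ofBijective _ (alB_qis b0 p))
      (E1 K q))).2 h
  exact ⟨fun h => htr.1 (key.1 fun p q hq hpq => hten p q (h p q hq hpq)),
    fun h => htr.2 (key.2 fun p q hq hpq => hten p q (h p q hq hpq))⟩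

end C715
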