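import Pool.Agent.Work.MP_c71557_gt.H.Defs2

/-!
# MP_c71557_gt, module H/Rows: exact augmented rows (or columns) (M)

`RowAug.qis`: let `K` be a double complex with row augmentations `e q : K_{0,q} → A_q` such that
`K_{*,q} → A_q → 0` is exact for every `q`.  Then `Tot K → A`, `a ↦ e (a_{0,n})`, is a
quasi-isomorphism.  Choose (set theoretic) solutions with `Classical.choice`:

*Surjective on homology*: `x ∈ Z_n(A)`.  Construct `a_{p,n-p}` by recursion on `p`: `e a_{0,n} = x`;
`e(dv a_{0,n}) = d x = 0` (for `n ≥ 1`), so `dv a_{0,n} = - dh a_{1,n-1}` ; in general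
`dh a_{p+1,q} = - (-1)^p dv a_{p,q+1}`; the right side is killed by `dh` (if `p ≥ 1`, because
`dh dv a_{p,q+1} = dv dh a_{p,q+1} = ± dv dv a = 0`; if `p = 0`, by `e`).  To avoid casts define a
function `p ↦ (q ↦ a p q)` for all `q` at once: `a 0 q := if q = n then (lift of x) else 0`,
`a (p+1) q := s (-(-1)^p dv (a p (q+1)))` with `s : K_{p,q} → K_{p+1,q}` a function with
`dh (s z) = z` whenever `dh z = 0` (resp. `e z = 0` for `p = 0`) and `s 0 = 0`.  Then `a` is
supported on `p + q = n` and `totd a = 0`.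
*Injective*: `a ∈ Tot_n` a cycle with `e a_{0,n} = d x`.  Lift `x = e b_{0,n+1}` and construct
`b_{p+1,q}` (`p + q = n`) with `dh b_{p+1,q} = a_{p,q} - (-1)^p dv b_{p,q+1}` in the same way.
For `n = 0` all conditions `dv a_{0,0}` are absent.
`ColAug.qis` is the transposed statement; either repeat the proof (signs `(-1)^p`: use
`dv b = (-1)^p (a - dh b)`), or transpose the double complex.
-/

set_option autoImplicit false

namespace C715
namespace DCx

private theorem rows_sec {X Y : Type} [AddCommGroup X] [Module ℚ X] [AddCommGroup Y] [Module ℚ Y]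
    (f : X →ₗ[ℚ] Y) : ∃ s : Y →ₗ[ℚ] X, ∀ y, (∃ x, f x = y) → f (s y) = y := by
  obtain ⟨s0, hs0⟩ := f.rangeRestrict.exists_rightInverse_of_surjective f.range_rangeRestrict
  obtain ⟨s, hs⟩ := s0.exists_extend
  refine ⟨s, ?_⟩
  rintro y ⟨x, rfl⟩
  have h1 : s (f x) = s0 ⟨f x, x, rfl⟩ :=
    congrArg (fun g : LinearMap.range f →ₗ[ℚ] X => g ⟨f x, x, rfl⟩) hs
  have h2 : f.rangeRestrict (s0 ⟨f x, x, rfl⟩) = ⟨f x, x, rfl⟩ :=
    congrArg (fun g : LinearMap.range f →ₗ[ℚ] LinearMap.range f => g ⟨f x, x, rfl⟩) hs0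
  rw [h1]
  exact congrArg Subtype.val h2

private theorem rows_sq (p : ℕ) : ((-1 : ℚ) ^ p) * ((-1 : ℚ) ^ p) = 1 := by
  rw [← mul_pow]
  norm_num

/-- solution of `totd b = a` along the rows -/
private theorem rows_solve {K : DCx} {A : Cx} (r : RowAug K A)
    (h2 : ∀ q (x : K.X 0 q), r.e q x = 0 → ∃ y, K.dh 0 q y = x)
    (h3 : ∀ p q (x : K.X (p + 1) q), K.dh p q x = 0 → ∃ y, K.dh (p + 1) q y = x)
    (a : (p : ℕ) → (q : ℕ) → K.X p q) (ha : K.totd a = 0) (y0 : (q : ℕ) → K.X 0 q)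
    (hy0 : ∀ q, r.e q (a 0 q - K.dv 0 q (y0 (q + 1))) = 0) (n : ℕ)
    (hsa : ∀ p q, p + q + 1 ≠ n → a p q = 0) (hsy : ∀ q, q ≠ n → y0 q = 0) :
    ∃ b : (p : ℕ) → (q : ℕ) → K.X p q, b 0 = y0 ∧ K.totd b = a ∧ b ∈ K.totX n := by
  choose s hs using fun (p q : ℕ) => rows_sec (K.dh p q)
  let b : (p : ℕ) → (q : ℕ) → K.X p q := fun p =>
    Nat.rec (motive := fun p => (q : ℕ) → K.X p q) y0
      (fun p bp q => s p q (a p q - ((-1 : ℚ) ^ p) • K.dv p q (bp (q + 1)))) p
  have hb0 : b 0 = y0 := rfl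
  have hbs : ∀ p q, b (p + 1) q = s p q (a p q - ((-1 : ℚ) ^ p) • K.dv p q (b p (q + 1))) :=
    fun p q => rfl
  have ha' : ∀ p q, K.dh p q (a (p + 1) q) = - (((-1 : ℚ) ^ p) • K.dv p q (a p (q + 1))) := by
    intro p q
    have h := congrFun (congrFun ha p) q
    rw [totd_apply] at h
    exact eq_neg_of_add_eq_zero_left h
  have key : ∀ p q, K.dh p q (b (p + 1) q) = a p q - ((-1 : ℚ) ^ p) • K.dv p q (b p (q + 1)) := by
    intro p
    induction p with
    | zero =>
      intro q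
      rw [hbs]
      apply hs
      apply h2
      rw [pow_zero, one_smul, hb0]
      exact hy0 q
    | succ p ih =>
      intro q
      rw [hbs (p + 1)]
      apply hs
      apply h3
      rw [map_sub, map_smul, K.hv, ih (q + 1), map_sub, map_smul, K.vv, smul_zero, sub_zero, ha',
        pow_succ]
      module
  refine ⟨b, hb0, ?_, ?_⟩
  · funext p q
    rw [totd_apply, key]
    abel
  · intro p
    induction p with
    | zero =>
      intro q hq
      rw [hb0]
      exact hsy q (by omega)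
    | succ p ih =>
      intro q hq
      rw [hbs, hsa p q (by omega), ih (q + 1) (by omega), map_zero, smul_zero, sub_zero, map_zero]

theorem RowAug.qis {K : DCx} {A : Cx} (r : RowAug K A)
    (h1 : ∀ q, Function.Surjective (r.e q))
    (h2 : ∀ q (x : K.X 0 q), r.e q x = 0 → ∃ y, K.dh 0 q y = x)
    (h3 : ∀ p q (x : K.X (p + 1) q), K.dh p q x = 0 → ∃ y, K.dh (p + 1) q y = x) :
    Cx.Qis r.hom := by
  intro n
  constructor
  · rw [injective_iff_map_eq_zero]
    intro y hy
    obtain ⟨a, ha, rfl⟩ := Cx.H_surj y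
    rw [Cx.H_cls, Cx.cls_eq_zero] at hy
    obtain ⟨x, hx⟩ := hy
    have hx' : A.d n x = r.e n (a.1 0 n) := hx
    obtain ⟨y, hy⟩ := h1 (n + 1) x
    have htot : K.totd a.1 = 0 := by
      cases n with
      | zero =>
        funext p q
        rw [totd_apply, a.2 (p + 1) q (by omega), a.2 p (q + 1) (by omega)]
        simp
      | succ n =>
        rw [Cx.mem_Z_succ] at ha
        exact congrArg Subtype.val ha
    obtain ⟨b, hb0, hb, hbn⟩ := rows_solve r h2 h3 a.1 htot (Pi.single (n + 1) y) (by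
      intro q
      rw [map_sub, r.comm]
      by_cases hq : q = n
      · subst hq
        rw [Pi.single_eq_same, hy, hx', sub_self]
      · rw [Pi.single_eq_of_ne (by omega), a.2 0 q (by omega)]
        simp) (n + 1) (fun p q hpq => a.2 p q (by omega)) (fun q hq => Pi.single_eq_of_ne hq _)
    rw [Cx.cls_eq_zero]
    exact ⟨⟨b, hbn⟩, Subtype.ext hb⟩
  · intro y
    obtain ⟨x, hx, rfl⟩ := Cx.H_surj y
    obtain ⟨y, hy⟩ := h1 n x
    obtain ⟨b, hb0, hb, hbn⟩ := rows_solve r h2 h3 0 (by rw [map_zero]) (Pi.single n y) (by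
      intro q
      rw [map_sub, r.comm]
      by_cases hq : q + 1 = n
      · subst hq
        rw [Pi.single_eq_same, hy, Cx.mem_Z_succ.1 hx]
        simp
      · rw [Pi.single_eq_of_ne hq]
        simp) n (fun p q hpq => rfl) (fun q hq => Pi.single_eq_of_ne hq _)
    have hZ : (⟨b, hbn⟩ : K.Tot.X n) ∈ K.Tot.Z n := by
      cases n with
      | zero => trivial
      | succ n => exact Cx.mem_Z_succ.2 (Subtype.ext hb)
    refine ⟨K.Tot.cls n ⟨b, hbn⟩ hZ, ?_⟩
    rw [Cx.H_cls]
    have e : r.hom.f n ⟨b, hbn⟩ = x := by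
      show r.e n (b 0 n) = x
      rw [hb0, Pi.single_eq_same, hy]
    rw [Cx.cls_eq, e, sub_self]
    exact Submodule.zero_mem _

/-- solution of `totd b = a` along the columns -/
private theorem cols_solve {K : DCx} {A : Cx} (r : ColAug K A)
    (h2 : ∀ p (x : K.X p 0), r.e p x = 0 → ∃ y, K.dv p 0 y = x)
    (h3 : ∀ p q (x : K.X p (q + 1)), K.dv p q x = 0 → ∃ y, K.dv p (q + 1) y = x)
    (a : (p : ℕ) → (q : ℕ) → K.X p q) (ha : K.totd a = 0) (y0 : (p : ℕ) → K.X p 0)
    (hy0 : ∀ p, r.e p (a p 0 - K.dh p 0 (y0 (p + 1))) = 0) (n : ℕ)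
    (hsa : ∀ p q, p + q + 1 ≠ n → a p q = 0) (hsy : ∀ p, p ≠ n → y0 p = 0) :
    ∃ b : (p : ℕ) → (q : ℕ) → K.X p q, (∀ p, b p 0 = y0 p) ∧ K.totd b = a ∧ b ∈ K.totX n := by
  choose s hs using fun (p q : ℕ) => rows_sec (K.dv p q)
  let b' : (q : ℕ) → (p : ℕ) → K.X p q := fun q =>
    Nat.rec (motive := fun q => (p : ℕ) → K.X p q) y0
      (fun q bq p => s p q (((-1 : ℚ) ^ p) • (a p q - K.dh p q (bq (p + 1))))) q
  let b : (p : ℕ) → (q : ℕ) → K.X p q := fun p q => b' q p
  have hb0 : ∀ p, b p 0 = y0 p := fun p => rfl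
  have hbs : ∀ p q, b p (q + 1) = s p q (((-1 : ℚ) ^ p) • (a p q - K.dh p q (b (p + 1) q))) :=
    fun p q => rfl
  have ha' : ∀ p q, K.dh p q (a (p + 1) q) = - (((-1 : ℚ) ^ p) • K.dv p q (a p (q + 1))) := by
    intro p q
    have h := congrFun (congrFun ha p) q
    rw [totd_apply] at h
    exact eq_neg_of_add_eq_zero_left h
  have key : ∀ q p, K.dv p q (b p (q + 1)) = ((-1 : ℚ) ^ p) • (a p q - K.dh p q (b (p + 1) q)) := by
    intro q
    induction q with
    | zero =>
      intro p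
      rw [hbs]
      apply hs
      apply h2
      rw [map_smul, hb0, hy0, smul_zero]
    | succ q ih =>
      intro p
      rw [hbs p (q + 1)]
      apply hs
      apply h3
      rw [map_smul, map_sub, ← K.hv, ih (p + 1), map_smul, map_sub, K.hh, sub_zero, ha', pow_succ,
        smul_neg, smul_smul]
      have e : (-1 : ℚ) ^ p * -1 * (-1 : ℚ) ^ p = -1 := by
        have := rows_sq p
        linear_combination -this
      rw [e]
      module
  refine ⟨b, hb0, ?_, ?_⟩
  · funext p q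
    rw [totd_apply, key, smul_smul, rows_sq, one_smul]
    abel
  · intro p q
    induction q generalizing p with
    | zero =>
      intro hq
      rw [hb0]
      exact hsy p (by omega)
    | succ q ih =>
      intro hq
      rw [hbs, hsa p q (by omega), ih (p + 1) (by omega), map_zero, sub_zero, smul_zero, map_zero]

theorem ColAug.qis {K : DCx} {A : Cx} (r : ColAug K A)
    (h1 : ∀ p, Function.Surjective (r.e p))
    (h2 : ∀ p (x : K.X p 0), r.e p x = 0 → ∃ y, K.dv p 0 y = x)
    (h3 : ∀ p q (x : K.X p (q + 1)), K.dv p q x = 0 → ∃ y, K.dv p (q + 1) y = x) :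
    Cx.Qis r.hom := by
  intro n
  constructor
  · rw [injective_iff_map_eq_zero]
    intro y hy
    obtain ⟨a, ha, rfl⟩ := Cx.H_surj y
    rw [Cx.H_cls, Cx.cls_eq_zero] at hy
    obtain ⟨x, hx⟩ := hy
    have hx' : A.d n x = r.e n (a.1 n 0) := hx
    obtain ⟨y, hy⟩ := h1 (n + 1) x
    have htot : K.totd a.1 = 0 := by
      cases n with
      | zero =>
        funext p q
        rw [totd_apply, a.2 (p + 1) q (by omega), a.2 p (q + 1) (by omega)]
        simp
      | succ n =>
        rw [Cx.mem_Z_succ] at ha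
        exact congrArg Subtype.val ha
    obtain ⟨b, hb0, hb, hbn⟩ := cols_solve r h2 h3 a.1 htot
      (Pi.single (M := fun p => K.X p 0) (n + 1) y) (by
      intro p
      rw [map_sub, r.comm]
      by_cases hq : p = n
      · subst hq
        rw [Pi.single_eq_same, hy, hx', sub_self]
      · rw [Pi.single_eq_of_ne (by omega), a.2 p 0 (by omega)]
        simp) (n + 1) (fun p q hpq => a.2 p q (by omega)) (fun q hq => Pi.single_eq_of_ne hq _)
    rw [Cx.cls_eq_zero]
    exact ⟨⟨b, hbn⟩, Subtype.ext hb⟩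
  · intro y
    obtain ⟨x, hx, rfl⟩ := Cx.H_surj y
    obtain ⟨y, hy⟩ := h1 n x
    obtain ⟨b, hb0, hb, hbn⟩ := cols_solve r h2 h3 0 (by rw [map_zero])
      (Pi.single (M := fun p => K.X p 0) n y) (by
      intro p
      rw [map_sub, r.comm]
      by_cases hq : p + 1 = n
      · subst hq
        rw [Pi.single_eq_same, hy, Cx.mem_Z_succ.1 hx]
        simp
      · rw [Pi.single_eq_of_ne hq]
        simp) n (fun p q hpq => rfl) (fun q hq => Pi.single_eq_of_ne hq _)
    have hZ : (⟨b, hbn⟩ : K.Tot.X n) ∈ K.Tot.Z n := by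
      cases n with
      | zero => trivial
      | succ n => exact Cx.mem_Z_succ.2 (Subtype.ext hb)
    refine ⟨K.Tot.cls n ⟨b, hbn⟩ hZ, ?_⟩
    rw [Cx.H_cls]
    have e : r.hom.f n ⟨b, hbn⟩ = x := by
      show r.e n (b n 0) = x
      rw [hb0, Pi.single_eq_same, hy]
    rw [Cx.cls_eq, e, sub_self]
    exact Submodule.zero_mem _

end DCx
end C715
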