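import Pool.Agent.Work.MP_c71557_gt.H.Cyc
import Pool.Agent.Work.MP_c71557_gt.H.FG
import Pool.Agent.Work.MP_c71557_gt.H.RelAct
import Pool.Agent.Work.MP_c71557_gt.H.ConjIncl

set_option autoImplicit false

/-!
# MP_c71557_gt, module H/TorAb: torsion quotients are acyclic; quotients of rank one (M-L)

* `tor_acy`: `N'/N` abelian and torsion.  Every finite set of elements generates a finite subgroup
  of `N'/N`; averaging over it gives a contraction of the chains supported on it.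
* `rank_one`: `N'/N` abelian, `w : Γ → ℤ` additive on `N'`, zero on `N`, not zero on `N'`, and its
  kernel is torsion modulo `N`.  Then `H_{n+2}(N'/N) = 0`.  PROOF: `K = ker w ∩ N'`.  The functor
  `grp N' N → grp N' K` is `proj` with fibre `grp K N`, acyclic by `tor_acy`; by `fib_hiso` the
  categories under the object are acyclic, so `quillenA_under` applies.  Let `t ∈ N'` with `w t > 0`
  minimal; `N' = ⟨t⟩ K`, `⟨t⟩ ∩ K = 1`: `sgToGrp_hiso`, and `cyc_H`.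
* `xi_H`: if moreover instead of the torsion hypothesis `H_1(N'/N)` has dimension at most one: the
  linear map `H_1 → ℚ` of `lp_char` for `w` is nonzero, so injective, so every `a ∈ N'` with
  `w a = 0` has `lp a = 0` and is torsion modulo `N` by `lp_torsion`.
-/

namespace C715

open CategoryTheory

section avg

variable {C : Type} [SmallCategory C]

/-- averaged contraction -/
private noncomputable def avg (c : C) (F : ∀ d : C, Finset (c ⟶ d)) (n : ℕ) :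
    (Sx C n →₀ ℚ) →ₗ[ℚ] (Sx C (n + 1) →₀ ℚ) :=
  Finsupp.linearCombination ℚ (fun σ : Sx C n =>
    ((F (σ.o 0)).card : ℚ)⁻¹ • ∑ g ∈ F (σ.o 0), Finsupp.single (Sx.cons c σ g) (1 : ℚ))

private theorem avg_single (c : C) (F : ∀ d : C, Finset (c ⟶ d)) {n : ℕ} (σ : Sx C n) :
    avg c F n (Finsupp.single σ 1) =
      ((F (σ.o 0)).card : ℚ)⁻¹ • ∑ g ∈ F (σ.o 0), Finsupp.single (Sx.cons c σ g) (1 : ℚ) := by
  unfold avg
  rw [Finsupp.linearCombination_single, one_smul]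

private theorem d_cons (c : C) {n : ℕ} (σ : Sx C (n + 1)) (g : c ⟶ σ.o 0) :
    (NC C).d (n + 1) (Finsupp.single (Sx.cons c σ g) 1) = Finsupp.single σ (1 : ℚ) -
      ∑ i : Fin (n + 2), ((-1 : ℚ) ^ (i : ℕ)) •
        Finsupp.single (Sx.cons c (pre (dl i) σ) (g ≫ σ.m 0 (dl i 0) (Fin.zero_le _))) (1 : ℚ) := by
  rw [NC_d_single, Fin.sum_univ_succ, sub_eq_add_neg, ← Finset.sum_neg_distrib]
  congr 1
  · rw [Eps1.pre_zero_cons]
    simp
  · refine Finset.sum_congr rfl fun i _ => ?_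
    rw [Eps1.dl_succ, Eps1.pre_consO, Fin.val_succ, pow_succ, mul_neg_one, neg_smul]

private theorem avg_key (c : C) (F : ∀ d : C, Finset (c ⟶ d)) {n : ℕ} (σ : Sx C (n + 1))
    (hne : (F (σ.o 0)).Nonempty)
    (hg : ∀ i, Set.BijOn (fun g : c ⟶ σ.o 0 => g ≫ σ.m 0 i (Fin.zero_le _)) (F (σ.o 0))
      (F (σ.o i))) :
    (NC C).d (n + 1) (avg c F (n + 1) (Finsupp.single σ 1)) +
      avg c F n ((NC C).d n (Finsupp.single σ 1)) = Finsupp.single σ (1 : ℚ) := by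
  have hc : ((F (σ.o 0)).card : ℚ) ≠ 0 := by
    rw [Nat.cast_ne_zero]
    exact Finset.card_ne_zero.2 hne
  have h1 : (NC C).d (n + 1) (avg c F (n + 1) (Finsupp.single σ 1)) = Finsupp.single σ (1 : ℚ) -
      ∑ i : Fin (n + 2), ((-1 : ℚ) ^ (i : ℕ)) • (((F (σ.o 0)).card : ℚ)⁻¹ •
        ∑ g ∈ F (σ.o 0), Finsupp.single (Sx.cons c (pre (dl i) σ)
          (g ≫ σ.m 0 (dl i 0) (Fin.zero_le _))) (1 : ℚ)) := by
    rw [avg_single, map_smul, map_sum, Finset.sum_congr rfl fun g _ => d_cons c σ g,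
      Finset.sum_sub_distrib, Finset.sum_const, smul_sub, ← Nat.cast_smul_eq_nsmul ℚ, smul_smul,
      inv_mul_cancel₀ hc, one_smul, Finset.sum_comm, Finset.smul_sum]
    congr 1
    refine Finset.sum_congr rfl fun i _ => ?_
    rw [← Finset.smul_sum, smul_comm]
  have h2 : avg c F n ((NC C).d n (Finsupp.single σ 1)) =
      ∑ i : Fin (n + 2), ((-1 : ℚ) ^ (i : ℕ)) • (((F (σ.o 0)).card : ℚ)⁻¹ •
        ∑ g ∈ F (σ.o 0), Finsupp.single (Sx.cons c (pre (dl i) σ)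
          (g ≫ σ.m 0 (dl i 0) (Fin.zero_le _))) (1 : ℚ)) := by
    rw [NC_d_single, map_sum]
    refine Finset.sum_congr rfl fun i _ => ?_
    rw [map_smul, avg_single]
    congr 1
    have hb := hg (dl i 0)
    have hcard : (F (σ.o 0)).card = (F (σ.o (dl i 0))).card :=
      Finset.card_nbij (fun g : c ⟶ σ.o 0 => g ≫ σ.m 0 (dl i 0) (Fin.zero_le _)) hb.mapsTo
        hb.injOn hb.surjOn
    change ((F (σ.o (dl i 0))).card : ℚ)⁻¹ • ∑ g ∈ F (σ.o (dl i 0)),
      Finsupp.single (Sx.cons c (pre (dl i) σ) g) (1 : ℚ) = _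
    rw [← hcard]
    congr 1
    exact (Finset.sum_nbij (fun g : c ⟶ σ.o 0 => g ≫ σ.m 0 (dl i 0) (Fin.zero_le _)) hb.mapsTo
      hb.injOn hb.surjOn (fun g _ => rfl)).symm
  rw [h1, h2, sub_add_cancel]

/-- cycles on which the average is defined are boundaries -/
private theorem avg_bd (c : C) (F : ∀ d : C, Finset (c ⟶ d)) {n : ℕ} (x : (NC C).X (n + 1))
    (hx : x ∈ (NC C).Z (n + 1)) (hne : ∀ d, (F d).Nonempty)
    (hg : ∀ σ ∈ (x : Sx C (n + 1) →₀ ℚ).support, ∀ i,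
      Set.BijOn (fun g : c ⟶ σ.o 0 => g ≫ σ.m 0 i (Fin.zero_le _)) (F (σ.o 0)) (F (σ.o i))) :
    x ∈ (NC C).Bd (n + 1) := by
  have key : (NC C).d (n + 1) (avg c F (n + 1) x) + avg c F n ((NC C).d n x) = x := by
    have h1 : ∀ y : Sx C (n + 1) →₀ ℚ, y.support ⊆ (x : Sx C (n + 1) →₀ ℚ).support →
        (NC C).d (n + 1) (avg c F (n + 1) y) + avg c F n ((NC C).d n y) = y := by
      intro y hy
      rw [← Finsupp.sum_single y, Finsupp.sum]
      rw [map_sum, map_sum, map_sum, map_sum, ← Finset.sum_add_distrib]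
      refine Finset.sum_congr rfl fun σ hσ => ?_
      have h2 := avg_key c F σ (hne _) (hg σ (hy hσ))
      have h3 : (Finsupp.single σ (y σ) : Sx C (n + 1) →₀ ℚ) = (y σ) • Finsupp.single σ (1 : ℚ) := by
        rw [Finsupp.smul_single, smul_eq_mul, mul_one]
      rw [h3, map_smul, map_smul, map_smul, map_smul, ← smul_add, h2]
    exact h1 x (Finset.Subset.refl _)
  rw [Cx.mem_Z_succ] at hx
  rw [hx, map_zero, add_zero] at key
  exact ⟨_, key⟩

end avg

namespace ActCat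

variable {Γ : Type} [Group Γ]

/-- a finitely generated torsion abelian quotient is finite -/
private theorem fin_quot (K N : Subgroup Γ) (hfg : K.FG)
    (hn : ∀ g ∈ K, ∀ n ∈ N, g⁻¹ * n * g ∈ N)
    (hab : ∀ a ∈ K, ∀ b ∈ K, a⁻¹ * b⁻¹ * a * b ∈ N)
    (htor : ∀ a ∈ K, ∃ m : ℕ, 1 ≤ m ∧ a ^ m ∈ N) : Finite (K ⧸ N.subgroupOf K) := by
  have hN : (N.subgroupOf K).Normal := ⟨fun n hnn g => by
    rw [Subgroup.mem_subgroupOf] at hnn ⊢
    have := hn (g : Γ)⁻¹ (K.inv_mem g.2) _ hnn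
    rw [inv_inv] at this
    exact this⟩
  have hcomm : ∀ x y : K ⧸ N.subgroupOf K, x * y = y * x := by
    intro x y
    obtain ⟨x, rfl⟩ := QuotientGroup.mk_surjective x
    obtain ⟨y, rfl⟩ := QuotientGroup.mk_surjective y
    rw [← QuotientGroup.mk_mul, ← QuotientGroup.mk_mul, QuotientGroup.eq,
      Subgroup.mem_subgroupOf]
    have := hab y y.2 x x.2
    simpa [mul_assoc] using this
  let cg : CommGroup (K ⧸ N.subgroupOf K) :=
    { (inferInstance : Group (K ⧸ N.subgroupOf K)) with mul_comm := hcomm }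
  have h1 : Group.FG K := (Group.fg_iff_subgroup_fg K).2 hfg
  have h2 : Group.FG (K ⧸ N.subgroupOf K) := QuotientGroup.fg _
  refine CommGroup.finite_of_fg_isMulTorsion (G := K ⧸ N.subgroupOf K) ?_
  intro x
  obtain ⟨x, rfl⟩ := QuotientGroup.mk_surjective x
  obtain ⟨m, hm, hx⟩ := htor x x.2
  rw [isOfFinOrder_iff_pow_eq_one]
  refine ⟨m, hm, ?_⟩
  rw [← QuotientGroup.mk_pow, QuotientGroup.eq_one_iff, Subgroup.mem_subgroupOf]
  exact hx

theorem tor_acy (N' N : Subgroup Γ) (hle : N ≤ N') (hn : ∀ g ∈ N', ∀ n ∈ N, g⁻¹ * n * g ∈ N)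
    (hab : ∀ a ∈ N', ∀ b ∈ N', a⁻¹ * b⁻¹ * a * b ∈ N)
    (htor : ∀ a ∈ N', ∃ m : ℕ, 1 ≤ m ∧ a ^ m ∈ N) : Acy (grp N' N hle hn).Obj := by
  classical
  refine ⟨⟨⟨()⟩⟩, H0_of_connected (fun a b => ?_), fun n => ?_⟩
  · exact Relation.EqvGen.rel _ _ ⟨(grp N' N hle hn).cl (a := a.o) (b := b.o) 1 N'.one_mem⟩
  rw [Cx.H_subsingleton]
  intro x hx
  -- the finitely generated subgroup
  have hrep : ∀ p : (x : Sx (grp N' N hle hn).Obj (n + 1) →₀ ℚ).support × Fin (n + 2),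
      ∃ g, ∃ h : g ∈ N', p.1.1.m 0 p.2 (Fin.zero_le _) =
        (grp N' N hle hn).hom (a := ()) (b := ()) g h := fun p =>
    hom_surj (A := grp N' N hle hn) (x := ⟨()⟩) (y := ⟨()⟩) (p.1.1.m 0 p.2 (Fin.zero_le _))
  choose r hr hre using hrep
  have hfin : (Set.range r).Finite := Set.finite_range r
  let K : Subgroup Γ := Subgroup.closure (Set.range r)
  have hKN : K ≤ N' := by
    rw [Subgroup.closure_le]
    rintro _ ⟨p, rfl⟩
    exact hr p
  have hfg : K.FG := (Subgroup.fg_iff _).2 ⟨_, rfl, hfin⟩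
  have hq : Finite (K ⧸ N.subgroupOf K) := fin_quot K N hfg (fun g hg => hn g (hKN hg))
    (fun a ha b hb => hab a (hKN ha) b (hKN hb)) (fun a ha => htor a (hKN ha))
  let φ : (K ⧸ N.subgroupOf K) → (grp N' N hle hn).Hm () () :=
    Quotient.lift (fun k : K => (grp N' N hle hn).cl (a := ()) (b := ()) k.1 (hKN k.2)) (by
      intro k k' e
      have e1 : (k⁻¹ * k' : K) ∈ N.subgroupOf K := QuotientGroup.leftRel_apply.1 e
      rw [Subgroup.mem_subgroupOf] at e1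
      exact cl_eq.2 e1)
  have hφ : (Set.range φ).Finite := Set.finite_range φ
  have hmem : ∀ u : (grp N' N hle hn).Hm () (), u ∈ hφ.toFinset ↔
      ∃ k, ∃ h : k ∈ K, u = (grp N' N hle hn).cl (a := ()) (b := ()) k (hKN h) := by
    intro u
    rw [Set.Finite.mem_toFinset]
    constructor
    · rintro ⟨q, rfl⟩
      obtain ⟨k, rfl⟩ := Quotient.mk_surjective q
      exact ⟨k.1, k.2, rfl⟩
    · rintro ⟨k, h, rfl⟩
      exact ⟨QuotientGroup.mk ⟨k, h⟩, rfl⟩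
  refine avg_bd (C := (grp N' N hle hn).Obj) ⟨()⟩ (fun _ => hφ.toFinset) x hx (fun d => ?_) ?_
  · exact ⟨_, (hmem _).2 ⟨1, K.one_mem, rfl⟩⟩
  intro σ hσ i
  obtain ⟨g, hgK, hg, e⟩ : ∃ g, g ∈ K ∧ ∃ h : g ∈ N', σ.m 0 i (Fin.zero_le _) =
      (grp N' N hle hn).hom (a := ()) (b := ()) g h :=
    ⟨_, Subgroup.subset_closure ⟨_, rfl⟩, hr _, hre (⟨σ, hσ⟩, i)⟩
  have hcomp : ∀ u : (grp N' N hle hn).Hm () (), (show (⟨()⟩ : (grp N' N hle hn).Obj) ⟶ ⟨()⟩ from u) ≫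
      σ.m 0 i (Fin.zero_le _) = (grp N' N hle hn).comp (a := ()) (b := ()) (c := ()) u
        ((grp N' N hle hn).cl (a := ()) (b := ()) g hg) := fun u => by
    rw [e]
    rfl
  refine ⟨fun u hu => ?_, fun u _ v _ huv => ?_, fun v hv => ?_⟩
  · obtain ⟨k, hk, rfl⟩ := (hmem _).1 hu
    refine (hmem _).2 ⟨g * k, K.mul_mem hgK hk, ?_⟩
    exact hcomp _
  · obtain ⟨k, hk, rfl⟩ := ActCat.hom_surj (A := grp N' N hle hn) u
    obtain ⟨l, hl, rfl⟩ := ActCat.hom_surj (A := grp N' N hle hn) v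
    have h3 := ((hcomp _).symm.trans huv).trans (hcomp _)
    have h4 : (g * k)⁻¹ * (g * l) ∈ N := cl_eq.1 h3
    refine cl_eq.2 ?_
    have h5 : (g * k)⁻¹ * (g * l) = k⁻¹ * l := by group
    rwa [h5] at h4
  · obtain ⟨k, hk, hv'⟩ := (hmem _).1 hv
    refine ⟨(grp N' N hle hn).cl (a := ()) (b := ()) (g⁻¹ * k)
      (hKN (K.mul_mem (K.inv_mem hgK) hk)), (hmem _).2 ⟨_, K.mul_mem (K.inv_mem hgK) hk, rfl⟩, ?_⟩
    refine (hcomp _).trans ?_
    rw [hv']
    refine cl_eq.2 ?_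
    have h5 : (g * (g⁻¹ * k))⁻¹ * k = 1 := by group
    rw [h5]
    exact N.one_mem

/-- `w` as a homomorphism -/
private def wHom (N' : Subgroup Γ) (w : Γ → ℤ)
    (hw : ∀ a ∈ N', ∀ b ∈ N', w (a * b) = w a + w b) : N' →* Multiplicative ℤ :=
  MonoidHom.mk' (fun a => Multiplicative.ofAdd (w a)) (fun a b => by
    change Multiplicative.ofAdd (w (a * b)) = _
    rw [hw a a.2 b b.2]
    rfl)

private theorem w_zpow (N' : Subgroup Γ) (w : Γ → ℤ)
    (hw : ∀ a ∈ N', ∀ b ∈ N', w (a * b) = w a + w b) (t : Γ) (ht : t ∈ N') (k : ℤ) :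
    w (t ^ k) = k * w t := by
  have h1 := map_zpow (wHom N' w hw) ⟨t, ht⟩ k
  have h2 := congrArg Multiplicative.toAdd h1
  have h3 : w (t ^ k) = k • w t := h2
  rw [h3, smul_eq_mul]

private theorem w_one (N' : Subgroup Γ) (w : Γ → ℤ)
    (hw : ∀ a ∈ N', ∀ b ∈ N', w (a * b) = w a + w b) : w 1 = 0 := by
  have h1 := hw 1 N'.one_mem 1 N'.one_mem
  rw [mul_one] at h1
  linarith

private theorem w_inv (N' : Subgroup Γ) (w : Γ → ℤ)
    (hw : ∀ a ∈ N', ∀ b ∈ N', w (a * b) = w a + w b) (a : Γ) (ha : a ∈ N') : w a⁻¹ = - w a := by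
  have h1 := hw a ha a⁻¹ (N'.inv_mem ha)
  rw [mul_inv_cancel, w_one N' w hw] at h1
  linarith

/-- the kernel of `w` -/
private def wKer (N' : Subgroup Γ) (w : Γ → ℤ)
    (hw : ∀ a ∈ N', ∀ b ∈ N', w (a * b) = w a + w b) : Subgroup Γ where
  carrier := {a | a ∈ N' ∧ w a = 0}
  one_mem' := ⟨N'.one_mem, w_one N' w hw⟩
  mul_mem' := fun {a b} ha hb => ⟨N'.mul_mem ha.1 hb.1, by
    rw [hw a ha.1 b hb.1, ha.2, hb.2, add_zero]⟩
  inv_mem' := fun {a} ha => ⟨N'.inv_mem ha.1, by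
    rw [w_inv N' w hw a ha.1, ha.2, neg_zero]⟩

theorem rank_one (N' N : Subgroup Γ) (hle : N ≤ N') (hn : ∀ g ∈ N', ∀ n ∈ N, g⁻¹ * n * g ∈ N)
    (hab : ∀ a ∈ N', ∀ b ∈ N', a⁻¹ * b⁻¹ * a * b ∈ N) (w : Γ → ℤ)
    (hw : ∀ a ∈ N', ∀ b ∈ N', w (a * b) = w a + w b) (hwN : ∀ a ∈ N, w a = 0)
    (hw1 : ∃ a ∈ N', w a ≠ 0)
    (htor : ∀ a ∈ N', w a = 0 → ∃ m : ℕ, 1 ≤ m ∧ a ^ m ∈ N) (n : ℕ) :
    Subsingleton (HC (grp N' N hle hn).Obj (n + 2)) := by
  let K := wKer N' w hw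
  have hK : ∀ a, a ∈ K ↔ a ∈ N' ∧ w a = 0 := fun a => Iff.rfl
  have hNK : N ≤ K := fun a ha => ⟨hle ha, hwN a ha⟩
  have hKN : K ≤ N' := fun a ha => ha.1
  have hnK : ∀ g ∈ N', ∀ k ∈ K, g⁻¹ * k * g ∈ K := fun g hg k hk =>
    ⟨N'.mul_mem (N'.mul_mem (N'.inv_mem hg) hk.1) hg, by
      rw [hw _ (N'.mul_mem (N'.inv_mem hg) hk.1) _ hg, hw _ (N'.inv_mem hg) _ hk.1,
        w_inv N' w hw g hg, hk.2]
      ring⟩
  -- first step
  have hR : HIso ((grp N' N hle hn).proj (fun _ => K) (fun {a n} hn => hKN hn)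
      (fun {a b g n} hg hn => hnK g hg n hn) (fun _ => hNK)) := by
    refine quillenA_under _ fun b => ?_
    refine (Acy.congr (fib_hiso (grp N' N hle hn) (fun _ => K) (fun {a n} hn => hKN hn)
      (fun {a b g n} hg hn => hnK g hg n hn) (fun _ => hNK) b.o)).1 ?_
    exact tor_acy K N hNK (fun g hg n hnn => hn g (hKN hg) n hnn)
      (fun a ha b hb => hab a (hKN ha) b (hKN hb)) (fun a ha => htor a (hKN ha) ha.2)
  -- a generator modulo the kernel
  obtain ⟨t, ht, hwt, hmin⟩ : ∃ t ∈ N', 0 < w t ∧ ∀ a ∈ N', 0 < w a → w t ≤ w a := by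
    have hex : ∃ m : ℕ, ∃ a ∈ N', 0 < w a ∧ (w a).toNat = m := by
      obtain ⟨a, ha, ha0⟩ := hw1
      rcases lt_or_gt_of_ne ha0 with h | h
      · exact ⟨_, a⁻¹, N'.inv_mem ha, by rw [w_inv N' w hw a ha]; linarith, rfl⟩
      · exact ⟨_, a, ha, h, rfl⟩
    classical
    obtain ⟨t, ht, hwt, hm⟩ := Nat.find_spec hex
    refine ⟨t, ht, hwt, fun a ha hwa => ?_⟩
    have h1 := Nat.find_min' hex ⟨a, ha, hwa, rfl⟩
    rw [← hm] at h1
    omega
  have hq : ∀ g ∈ N', ∃ q : ℤ, w g = q * w t := by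
    intro g hg
    refine ⟨w g / w t, ?_⟩
    have h1 : w (t ^ (-(w g / w t)) * g) = w g % w t := by
      rw [hw _ (N'.zpow_mem ht _) _ hg, w_zpow N' w hw t ht]
      have := Int.emod_add_mul_ediv (w g) (w t)
      linarith
    have h2 := Int.emod_nonneg (w g) hwt.ne'
    have h3 := Int.emod_lt_of_pos (w g) hwt
    have h4 : w g % w t = 0 := by
      by_contra h0
      have h5 := hmin _ (N'.mul_mem (N'.zpow_mem ht (-(w g / w t))) hg) (by
        rw [h1]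
        omega)
      rw [h1] at h5
      omega
    have := Int.emod_add_mul_ediv (w g) (w t)
    rw [h4] at this
    linarith
  have hz : Subgroup.zpowers t ≤ N' := by
    rw [Subgroup.zpowers_le]
    exact ht
  have hS : HIso (sgToGrp (Subgroup.zpowers t) N' K hKN hnK hz) := by
    refine sgToGrp_hiso _ _ _ _ _ _ ?_ ?_
    · rintro _ ⟨j, rfl⟩ hj
      have h1 : w (t ^ j) = 0 := hj.2
      rw [w_zpow N' w hw t ht] at h1
      have h2 : j = 0 := by
        rcases mul_eq_zero.1 h1 with h | h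
        · exact h
        · exact absurd h hwt.ne'
      subst h2
      exact zpow_zero t
    · intro g hg
      obtain ⟨q, hq⟩ := hq g hg
      refine ⟨t ^ q, ⟨q, rfl⟩, N'.mul_mem (N'.inv_mem (N'.zpow_mem ht q)) hg, ?_⟩
      rw [← zpow_neg, hw _ (N'.zpow_mem ht _) _ hg, w_zpow N' w hw t ht, hq]
      ring
  have hC := (cyc_H t (fun k hk => by
    have h1 := w_zpow N' w hw t ht k
    rw [hk, w_one N' w hw] at h1
    rcases mul_eq_zero.1 h1.symm with h | h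
    · exact h
    · exact absurd h hwt.ne')).2 n
  have h1 : Subsingleton (HC (grp N' K hKN hnK).Obj (n + 2)) := (hS (n + 2)).2.subsingleton
  have h2 : Function.Injective (HCmap ((grp N' N hle hn).proj (fun _ => K)
    (fun {a n} hn => hKN hn) (fun {a b g n} hg hn => hnK g hg n hn) (fun _ => hNK)) (n + 2)) :=
    (hR (n + 2)).1
  exact Function.Injective.subsingleton (β := HC (grp N' K hKN hnK).Obj (n + 2)) h2

theorem xi_H (N' N : Subgroup Γ) (hle : N ≤ N') (hn : ∀ g ∈ N', ∀ n ∈ N, g⁻¹ * n * g ∈ N)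
    (hab : ∀ a ∈ N', ∀ b ∈ N', a⁻¹ * b⁻¹ * a * b ∈ N) (w : Γ → ℤ)
    (hw : ∀ a ∈ N', ∀ b ∈ N', w (a * b) = w a + w b) (hwN : ∀ a ∈ N, w a = 0)
    (hw1 : ∃ a ∈ N', w a ≠ 0)
    (hdim : ∀ x y : HC (grp N' N hle hn).Obj 1, ∃ a b : ℚ, ¬ (a = 0 ∧ b = 0) ∧
      a • x = b • y) :
    (∀ n, Subsingleton (HC (grp N' N hle hn).Obj (n + 2))) ∧
      Nontrivial (HC (grp N' N hle hn).Obj 1) := by
  obtain ⟨l, hl⟩ := lp_char (C := (grp N' N hle hn).Obj) ℚ
    (fun {x y} u => Quotient.lift (fun g : {g : Γ // (grp N' N hle hn).Adm x.o g y.o} =>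
      (w g.1 : ℚ)) (by
        rintro ⟨g, hg⟩ ⟨g', hg'⟩ (e : g⁻¹ * g' ∈ N)
        have h1 := hwN _ e
        have hg1 : g ∈ N' := hg
        have hg2 : g' ∈ N' := hg'
        rw [hw _ (N'.inv_mem hg1) _ hg2, w_inv N' w hw g hg1] at h1
        have h2 : w g = w g' := by linarith
        change (w g : ℚ) = w g'
        rw [h2]) u) (by
      intro x y z u v
      induction u using ActCat.ind with
      | h u hu =>
        induction v using ActCat.ind with
        | h v hv =>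
          have hu1 : u ∈ N' := hu
          have hv1 : v ∈ N' := hv
          change ((w (v * u) : ℤ) : ℚ) = (w u : ℚ) + (w v : ℚ)
          rw [hw v hv1 u hu1]
          push_cast
          ring)
  have hl' : ∀ (g : Γ) (hg : g ∈ N'), l (lp ((grp N' N hle hn).hom (a := ()) (b := ()) g hg)) =
      (w g : ℚ) := fun g hg => hl ⟨()⟩ ((grp N' N hle hn).hom (a := ()) (b := ()) g hg)
  obtain ⟨t, ht, hwt⟩ := hw1
  refine ⟨fun n => rank_one N' N hle hn hab w hw hwN ⟨t, ht, hwt⟩ (fun a ha hwa => ?_) n, ?_⟩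
  · obtain ⟨p, q, hpq, e⟩ := hdim (lp ((grp N' N hle hn).hom (a := ()) (b := ()) a ha))
      (lp ((grp N' N hle hn).hom (a := ()) (b := ()) t ht))
    have h1 := congrArg l e
    rw [map_smul, map_smul, hl', hl', hwa] at h1
    have hq : q = 0 := by
      have h2 : q * (w t : ℚ) = 0 := by
        rw [← smul_eq_mul, ← h1]
        simp
      rcases mul_eq_zero.1 h2 with h | h
      · exact h
      · exact absurd (by exact_mod_cast h) hwt
    have hp : p ≠ 0 := fun h => hpq ⟨h, hq⟩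
    rw [hq, zero_smul, smul_eq_zero] at e
    exact lp_torsion N' N hle hn hab a ha (e.resolve_left hp)
  · refine ⟨⟨lp ((grp N' N hle hn).hom (a := ()) (b := ()) t ht), 0, fun h => ?_⟩⟩
    have h1 := hl' t ht
    rw [h, map_zero] at h1
    exact hwt (by exact_mod_cast h1.symm)

end ActCat
end C715
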