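import Pool.Agent.Work.MP_c71557_gt.H.Dbl
import Pool.Agent.Work.MP_c71557_gt.H.CK
import Pool.Agent.Work.MP_c71557_gt.H.RelAct
import Pool.Agent.Work.MP_c71557_gt.H.E2Aug
import Pool.Agent.Work.MP_c71557_gt.H.ConjIncl

set_option autoImplicit false

/-!
# MP_c71557_gt, module H/TransL: killing translations (L)

`F ≤ Γ` a group with a normal abelian torsion free subgroup `N` and an element `z ∈ F`, central
modulo `N`, with `z n z⁻¹ = n²` for `n ∈ N`.  Then `sg F → grp F N` is a homology isomorphism;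
if `L ≤ F` is a complement of `N` then `sg L → sg F` is one.

PROOF.  `R : sg F → B = grp F N`.  (`R` is `ActCat.proj` for `A = sg F`, `N' = N`.)  Work with
`hoco (overL R)`: `eps1_qis`; `eps2`: use `ColAug.serre_ker/serre_coker` with the Serre class of zero
spaces: it is enough that `H_p` of `(hoco (overL R)).E1 q` vanishes for `q ≥ 1` and that
`H_0(R / ∗) = ℚ`.  By `exists_barE1`, `E1 q ≅ barC (HF q)`, `HF q (∗) = H_q (CostructuredArrow R ∗)`
with `B` acting.  The functor `j : sg N → CostructuredArrow R ∗`, `∗ ↦ (∗, 𝟙)`, `n ↦ n` is a homology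
isomorphism (all objects of the category over `∗` are isomorphic: an object is a class
`[g] ∈ F/N`, and `g` itself is an isomorphism from `(∗,[g])` to `(∗, 𝟙)`; the automorphisms of
`(∗, 𝟙)` are `N`: equivalence of categories).  The class of `f ∈ F` acts on `H_q(N)` as
conjugation: the functors `n ↦ n : (∗,[f]) → (∗,[f])` and `n ↦ f n f⁻¹ : (∗,𝟙) → (∗,𝟙)` are related
by the natural isomorphism `f`.  The natural endomorphism of the identity of `B` given by `z`
acts on `HF q` as `T` = conjugation by `z`, and `T - 1` is bijective for `q ≥ 1` (`dbl_bij` with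
`k = 0`).  `center_kills` gives the vanishing.  Finally `eps_agree`.
`H_0`: `CostructuredArrow R ∗` is connected.
`trans_hiso`: `sg L → sg F → grp F N` is `sgToGrp_hiso`, `HIso.of_comp`.
-/

namespace C715

open CategoryTheory

namespace ActCat

variable {Γ : Type} [Group Γ]

section trans

variable (F N : Subgroup Γ) (hle : N ≤ F) (hn : ∀ g ∈ F, ∀ n ∈ N, g⁻¹ * n * g ∈ N)

private abbrev RF : (sg F).Obj ⥤ (grp F N hle hn).Obj := sgToGrp F F N hle hn le_rfl

private abbrev bt : (grp F N hle hn).Obj := ⟨()⟩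

/-- the inclusion of `N` in the category over the object -/
private def jN : (sg N).Obj ⥤ CostructuredArrow (RF F N hle hn) (bt F N hle hn) where
  obj _ := CostructuredArrow.mk (Y := (⟨()⟩ : (sg F).Obj)) (𝟙 (bt F N hle hn))
  map u := CostructuredArrow.homMk ((sgIncl hle).map u) (by
    induction u using ActCat.ind with
    | h n hN =>
      refine (Category.comp_id _).trans (cl_eq.2 ?_)
      change n⁻¹ * 1 ∈ N
      rw [mul_one]
      exact N.inv_mem hN)
  map_id x := by
    ext1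
    exact (sgIncl hle).map_id x
  map_comp u v := by
    ext1
    exact (sgIncl hle).map_comp u v

/-- the arrow to the base object given by `g` -/
private def toB (X : CostructuredArrow (RF F N hle hn) (bt F N hle hn)) (g : Γ) (hg : g ∈ F)
    (e : X.hom = (grp F N hle hn).hom (a := ()) (b := ()) g hg) :
    X ⟶ (jN F N hle hn).obj ⟨()⟩ :=
  CostructuredArrow.homMk ((sg F).hom (a := ()) (b := ()) g hg) (by
    rw [e]
    exact Category.comp_id _)

private theorem sg_cancel {g g' : Γ} (hg : g ∈ F) (hg' : g' ∈ F)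
    (h : (sg F).hom (a := ()) (b := ()) g hg = (sg F).hom (a := ()) (b := ()) g' hg') : g = g' := by
  have h1 : g⁻¹ * g' ∈ (⊥ : Subgroup Γ) := hom_eq.1 h
  rw [Subgroup.mem_bot, inv_mul_eq_one] at h1
  exact h1

private theorem jN_hiso : HIso (jN F N hle hn) := by
  have h1 : (jN F N hle hn).Faithful := ⟨fun {x y} f g e => by
    obtain ⟨n, hnn, rfl⟩ := hom_surj f
    obtain ⟨m, hmm, rfl⟩ := hom_surj g
    have e2 : (sgIncl hle).map ((sg N).hom (a := ()) (b := ()) n hnn) =
      (sgIncl hle).map ((sg N).hom (a := ()) (b := ()) m hmm) := congrArg (fun t => t.left) e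
    have e3 := sg_cancel F (hle hnn) (hle hmm) e2
    subst e3
    rfl⟩
  have h2 : (jN F N hle hn).Full := ⟨fun {x y} f => by
    obtain ⟨n, hnn, e⟩ := hom_surj (A := sg F) (x := ⟨()⟩) (y := ⟨()⟩) f.left
    have hw := CostructuredArrow.w f
    rw [e] at hw
    have hN : n ∈ N := by
      have h3 : (grp F N hle hn).hom (a := ()) (b := ()) n hnn = (grp F N hle hn).hom (a := ())
        (b := ()) 1 F.one_mem := (Category.comp_id _).symm.trans hw
      have h4 : n⁻¹ * 1 ∈ N := hom_eq.1 h3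
      rw [mul_one] at h4
      exact (N.inv_mem_iff).1 h4
    refine ⟨(sg N).hom (a := ()) (b := ()) n hN, ?_⟩
    ext1
    exact e.symm⟩
  have h3 : (jN F N hle hn).EssSurj := ⟨fun X => by
    obtain ⟨g, hg, e⟩ := hom_surj (A := grp F N hle hn) X.hom
    refine ⟨⟨()⟩, ⟨?_⟩⟩
    refine (CostructuredArrow.isoMk (f := X) (f' := (jN F N hle hn).obj ⟨()⟩)
      ⟨(sg F).hom (a := ()) (b := ()) g hg, (sg F).hom (a := ()) (b := ()) g⁻¹ (F.inv_mem hg),
        ?_, ?_⟩ ?_).symm
    · refine (cl_eq (A := sg F)).2 ?_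
      change (g⁻¹ * g)⁻¹ * 1 ∈ (⊥ : Subgroup Γ)
      rw [Subgroup.mem_bot]
      group
    · refine (cl_eq (A := sg F)).2 ?_
      change (g * g⁻¹)⁻¹ * 1 ∈ (⊥ : Subgroup Γ)
      rw [Subgroup.mem_bot]
      group
    · rw [e]
      exact Category.comp_id _⟩
  have h4 : (jN F N hle hn).IsEquivalence := {}
  exact hiso_of_equiv _

private theorem ov_conn (X Y : CostructuredArrow (RF F N hle hn) (bt F N hle hn)) :
    Relation.EqvGen (fun x y => Nonempty (x ⟶ y)) X Y := by
  have h : ∀ X, Relation.EqvGen (fun x y => Nonempty (x ⟶ y)) X ((jN F N hle hn).obj ⟨()⟩) := by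
    intro X
    obtain ⟨g, hg, e⟩ := hom_surj (A := grp F N hle hn) X.hom
    exact Relation.EqvGen.rel _ _ ⟨toB F N hle hn X g hg e⟩
  exact Relation.EqvGen.trans _ _ _ (h X) (Relation.EqvGen.symm _ _ (h Y))

private theorem ov_zero_gen {T B : Type} [SmallCategory T] [SmallCategory B] (R : T ⥤ B) (b : B)
    (hc : ∀ X Y : CostructuredArrow R b, Relation.EqvGen (fun x y => Nonempty (x ⟶ y)) X Y)
    (x : OvS R b 0 →₀ ℚ) (hx : Finsupp.linearCombination ℚ (fun _ => (1 : ℚ)) x = 0) :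
    ∃ y, (ovS R b).alt 0 y = x := by
  obtain ⟨x', rfl⟩ := (ovIso_bij R b 0).2 x
  have ha : Finsupp.linearCombination ℚ (fun _ : Sx (CostructuredArrow R b) 0 => (1 : ℚ)) x' =
      0 := by
    have h2 : (Finsupp.linearCombination ℚ (fun _ : OvS R b 0 => (1 : ℚ))).comp
        ((ovIso R b).f 0) =
        Finsupp.linearCombination ℚ (fun _ : Sx (CostructuredArrow R b) 0 => (1 : ℚ)) := by
      refine Finsupp.lhom_ext fun σ a => ?_
      change Finsupp.linearCombination ℚ _ ((ovIso R b).f 0 (Finsupp.single σ a)) = _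
      rw [ovIso_single, Finsupp.linearCombination_single, Finsupp.linearCombination_single]
    rw [← h2]
    exact hx
  obtain ⟨y, hy⟩ := H0_of_connected hc x' ha
  refine ⟨(ovIso R b).f 1 y, ?_⟩
  have := (ovIso R b).comm 0 y
  rw [hy] at this
  exact this.symm

variable (z : Γ) (hzF : z ∈ F) (hzN : ∀ n ∈ N, z * n * z⁻¹ ∈ N)
  (hzc : ∀ f ∈ F, z⁻¹ * f⁻¹ * z * f ∈ N)

private def zet : 𝟭 (grp F N hle hn).Obj ⟶ 𝟭 (grp F N hle hn).Obj where
  app x := (grp F N hle hn).hom (a := ()) (b := ()) z hzF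
  naturality x y f := by
    induction f using ActCat.ind with
    | h g hg =>
      refine cl_eq.2 ?_
      change (z * g)⁻¹ * (g * z) ∈ N
      have h1 := N.inv_mem (hzc g hg)
      have h2 : (z * g)⁻¹ * (g * z) = (z⁻¹ * g⁻¹ * z * g)⁻¹ := by group
      rw [h2]
      exact h1

private def zTr : jN F N hle hn ⋙ CostructuredArrow.map
      ((grp F N hle hn).hom (a := ()) (b := ()) z hzF : bt F N hle hn ⟶ bt F N hle hn) ⟶
    cj z N hzN ⋙ jN F N hle hn where
  app x := toB F N hle hn _ z hzF (Category.id_comp _)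
  naturality x y f := by
    ext1
    induction f using ActCat.ind with
    | h n hN =>
      refine cl_eq.2 ?_
      change (z * n)⁻¹ * (z * n * z⁻¹ * z) ∈ (⊥ : Subgroup Γ)
      rw [Subgroup.mem_bot]
      group

include hzN in
private theorem act_bij (hcomm : ∀ a ∈ N, ∀ b ∈ N, a * b = b * a)
    (htf : ∀ a ∈ N, ∀ m : ℕ, 1 ≤ m → a ^ m = 1 → a = 1) (hz : ∀ n ∈ N, z * n * z⁻¹ = n * n)
    (q : ℕ) (hq : 1 ≤ q) (c : (grp F N hle hn).Obj) :
    Function.Bijective (fun x : ((overL (RF F N hle hn)).HF q).M c =>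
      ((overL (RF F N hle hn)).HF q).map
        (show c ⟶ c from (zet F N hle hn z hzF hzc).app c) x - x) := by
  obtain ⟨⟨⟩⟩ := c
  let R := RF F N hle hn
  let u : bt F N hle hn ⟶ bt F N hle hn := (grp F N hle hn).hom (a := ()) (b := ()) z hzF
  let e : HC (sg N).Obj q → ((overL R).at' (bt F N hle hn)).H q :=
    fun y => Cx.Hom.H (ovIso R (bt F N hle hn)) q (HCmap (jN F N hle hn) q y)
  have he : Function.Bijective e :=
    (qis_of_bij (ovIso R (bt F N hle hn)) (ovIso_bij R (bt F N hle hn)) q).comp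
      (jN_hiso F N hle hn q)
  have h1 : ∀ y, ((overL R).mapAt u).H q (e y) = e (HCmap (cj z N hzN) q y) := by
    intro y
    have h2 : (NCmap (CostructuredArrow.map u)).comp (ovIso R (bt F N hle hn)) =
        Cx.Hom.comp (ovIso R (bt F N hle hn)) ((overL R).mapAt u) :=
      Cx.Hom.ext (funext fun n => LinearMap.ext fun x => ovIso_nat R u n x)
    have h3 := congrArg (fun f : Cx.Hom (NC (CostructuredArrow R (bt F N hle hn)))
      ((overL R).at' (bt F N hle hn)) => f.H q (HCmap (jN F N hle hn) q y)) h2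
    simp only [Cx.H_comp] at h3
    refine h3.symm.trans ?_
    have h4 := LinearMap.congr_fun (HCmap_natTrans (zTr F N hle hn z hzF hzN) q) y
    rw [HCmap_comp, HCmap_comp] at h4
    exact congrArg _ h4
  have h5 := dbl_bij N z hcomm htf hz hzN 0 q (by omega)
  simp only [pow_zero, one_smul] at h5
  have h6 : (fun x : ((overL R).at' (bt F N hle hn)).H q => ((overL R).mapAt u).H q x - x) ∘ e =
      e ∘ (fun x => HCmap (cj z N hzN) q x - x) := by
    funext y
    change ((overL R).mapAt u).H q (e y) - e y = e (HCmap (cj z N hzN) q y - y)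
    rw [h1]
    change _ - _ = Cx.Hom.H (ovIso R (bt F N hle hn)) q (HCmap (jN F N hle hn) q _)
    rw [map_sub, map_sub]
  refine (Function.Bijective.of_comp_iff _ he).1 ?_
  change Function.Bijective ((fun x : ((overL R).at' (bt F N hle hn)).H q =>
    ((overL R).mapAt u).H q x - x) ∘ e)
  rw [h6]
  exact he.comp h5

end trans

theorem trans_grp (F N : Subgroup Γ) (hle : N ≤ F) (hn : ∀ g ∈ F, ∀ n ∈ N, g⁻¹ * n * g ∈ N)
    (z : Γ) (hzF : z ∈ F) (hcomm : ∀ a ∈ N, ∀ b ∈ N, a * b = b * a)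
    (htf : ∀ a ∈ N, ∀ m : ℕ, 1 ≤ m → a ^ m = 1 → a = 1) (hz : ∀ n ∈ N, z * n * z⁻¹ = n * n)
    (hzc : ∀ f ∈ F, z⁻¹ * f⁻¹ * z * f ∈ N) : HIso (sgToGrp F F N hle hn le_rfl) := by
  have hzN : ∀ n ∈ N, z * n * z⁻¹ ∈ N := fun n hnN => by
    rw [hz n hnN]
    exact N.mul_mem hnN hnN
  let R := RF F N hle hn
  let r := eps2 R
  have he : ∀ p (σ : Sx (grp F N hle hn).Obj p) (y : OvS R (σ.o 0) 0 →₀ ℚ),
      r.e p (bof (ovF R 0) σ y) =
      Finsupp.single σ (Finsupp.linearCombination ℚ (fun _ : OvS R (σ.o 0) 0 => (1 : ℚ)) y) := by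
    intro p σ y
    exact bdesc_bof _ _ _ _
  have hne : ∀ c : (grp F N hle hn).Obj, Nonempty (OvS R c 0) := by
    intro c
    obtain ⟨⟨⟩⟩ := c
    exact ⟨OvIso.io R (bt F N hle hn) 0
      { o := fun _ => (jN F N hle hn).obj ⟨()⟩, m := fun _ _ _ => 𝟙 _, m_self := fun _ => rfl,
        m_comp := fun _ _ _ _ _ => Category.comp_id _ }⟩
  have h1 : ∀ p, Function.Surjective (r.e p) := by
    intro p x
    induction x using Finsupp.induction_linear with
    | zero => exact ⟨0, map_zero _⟩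
    | add f g hf hg =>
      obtain ⟨a, rfl⟩ := hf
      obtain ⟨b, rfl⟩ := hg
      exact ⟨a + b, map_add _ _ _⟩
    | single σ a =>
      obtain ⟨x⟩ := hne (σ.o 0)
      refine ⟨bof (ovF R 0) σ (Finsupp.single x a : OvS R (σ.o 0) 0 →₀ ℚ), ?_⟩
      rw [he, Finsupp.linearCombination_single]
      simp
  have h2 : ∀ p (x : (overL R).hoco.X p 0), r.e p x = 0 → ∃ y, (overL R).hoco.dv p 0 y = x := by
    intro p x hx
    refine OvIso.solve ((overL R).d 0) x fun σ => ?_
    have key : ∀ x : BarX (ovF R 0) p, (r.e p x : Sx (grp F N hle hn).Obj p →₀ ℚ) σ =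
        Finsupp.linearCombination ℚ (fun _ : OvS R (σ.o 0) 0 => (1 : ℚ))
          (OvIso.cmp (ovF R 0) σ x) := by
      intro x
      classical
      induction x using bar_ind with
      | h0 => simp only [map_zero]; rfl
      | h1 τ y =>
        rw [he]
        by_cases hτ : τ = σ
        · subst hτ
          rw [OvIso.cmp_self, Finsupp.single_eq_same]
        · rw [OvIso.cmp_ne _ hτ, map_zero]
          exact Finsupp.single_eq_of_ne (Ne.symm hτ)
      | h2 x y hx hy =>
        rw [map_add, map_add, map_add, ← hx, ← hy]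
        rfl
    have hc : ∀ c : (grp F N hle hn).Obj, ∀ x : OvS R c 0 →₀ ℚ,
        Finsupp.linearCombination ℚ (fun _ => (1 : ℚ)) x = 0 → ∃ y, (ovS R c).alt 0 y = x := by
      intro c
      obtain ⟨⟨⟩⟩ := c
      exact ov_zero_gen R (bt F N hle hn) (ov_conn F N hle hn)
    refine hc (σ.o 0) _ ?_
    rw [← key, hx]
    rfl
  have h3 : ∀ p q, 1 ≤ q → Subsingleton (((overL R).hoco.E1 q).H p) := by
    intro p q hq
    obtain ⟨f, hf, _⟩ := exists_barE1 (overL R) q
    have := center_kills (zet F N hle hn z hzF hzc) ((overL R).HF q)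
      (act_bij F N hle hn z hzF hzN hzc hcomm htf hz q hq) p
    exact (qis_of_bij f hf p).1.subsingleton
  intro n
  have h4 : Serre.triv.P (LinearMap.ker (r.hom.H n)) :=
    DCx.ColAug.serre_ker r h1 h2 Serre.triv n (fun p q hq _ => h3 p q hq)
  have h5 : Serre.triv.P ((NC (grp F N hle hn).Obj).H n ⧸ LinearMap.range (r.hom.H n)) :=
    DCx.ColAug.serre_coker r h1 h2 Serre.triv n (fun p q hq _ => h3 p q hq)
  have h4' : Subsingleton (LinearMap.ker (r.hom.H n)) := h4
  have h5' : Subsingleton ((NC (grp F N hle hn).Obj).H n ⧸ LinearMap.range (r.hom.H n)) := h5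
  have h6 : Function.Bijective (r.hom.H n) :=
    ⟨LinearMap.ker_eq_bot.1 (Submodule.subsingleton_iff_eq_bot.1 h4'),
      LinearMap.range_eq_top.1 (Submodule.Quotient.subsingleton_iff.1 h5')⟩
  have h7 : (r.hom.H n : (overL R).hoco.Tot.H n → HC (grp F N hle hn).Obj n) =
      (HCmap R n) ∘ ((eps1 R).hom.H n) := funext fun y => eps_agree R n y
  rw [h7] at h6
  exact (Function.Bijective.of_comp_iff _ (eps1_qis R n)).1 h6

theorem trans_hiso (F N L : Subgroup Γ) (hle : N ≤ F)
    (hn : ∀ g ∈ F, ∀ n ∈ N, g⁻¹ * n * g ∈ N)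
    (z : Γ) (hzF : z ∈ F) (hcomm : ∀ a ∈ N, ∀ b ∈ N, a * b = b * a)
    (htf : ∀ a ∈ N, ∀ m : ℕ, 1 ≤ m → a ^ m = 1 → a = 1) (hz : ∀ n ∈ N, z * n * z⁻¹ = n * n)
    (hzc : ∀ f ∈ F, z⁻¹ * f⁻¹ * z * f ∈ N) (hL : L ≤ F) (h1 : ∀ l ∈ L, l ∈ N → l = 1)
    (h2 : ∀ f ∈ F, ∃ l ∈ L, l⁻¹ * f ∈ N) : HIso (sgIncl hL) := by
  have h3 := trans_grp F N hle hn z hzF hcomm htf hz hzc
  refine HIso.of_comp_right h3 ?_
  have e : sgIncl hL ⋙ sgToGrp F F N hle hn le_rfl = sgToGrp L F N hle hn hL := by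
    refine Functor.hext (fun x => rfl) fun x y f => ?_
    induction f using ActCat.ind with
    | h g hg => rfl
  rw [e]
  exact sgToGrp_hiso L F N hle hn hL h1 h2

end ActCat
end C715
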