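import Pool.Agent.Work.MP_c71557_gt.H.Prism
import Pool.Agent.Work.MP_c71557_gt.H.Five
import Pool.Agent.Work.MP_c71557_gt.H.ConjIncl

set_option autoImplicit false

/-!
# MP_c71557_gt, module H/Wang: adding one generator to an abelian group, with the doubling map (L)

`M` abelian, `N ≤ M`, `t ∈ M`, every `m ∈ M` is `n t^k`, `t^k ∈ N` only for `k = 0`; `z ∈ Γ` with
`z m z⁻¹ = m²` on `M`.  `T` = the map on homology induced by conjugation with `z`.
Then `0 → H_{n+1}(N) → H_{n+1}(M) → H_n(N) → 0` is exact, `H_0(N) ≅ H_0(M)`, and the second map `∂`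
satisfies `∂ T = 2 T ∂`.

PROOF.  Let `E` be the category with objects the integers and arrows `x → y` the elements `g` of
`M` with `g t^(x-y) ∈ N` (the category of elements of the action of `M` on `M / N = ℤ`).
`π : E → sg M`, translation `τ : x ↦ x + 1`, `ι : sg N → E` (the object `0`) an equivalence.
Simplices of `sg M` are the orbits of `τ` on the simplices of `E`, and the action of `τ^ℤ` is free:
`0 → NC E →(1 - τ) NC E →(π) NC (sg M) → 0` is a short exact sequence of complexes.
`t : x → x + 1` is a natural transformation `𝟭 ⟶ τ` (`M` is commutative), so `1 - τ` is zero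
on homology: the long exact sequence splits into the short ones.
Doubling: `δ : E → E, x ↦ 2x, g ↦ z g z⁻¹ = g²` satisfies `τ² δ = δ τ`, so
`δ (1 - τ) = (1 - τ) (1 + τ) δ`: the vertical maps `((1 + τ) δ, δ, conj z)` form a map of the short
exact sequence to itself.  Naturality of the connecting map (`Cx.delta_nat`) gives
`∂ T = (1 + τ)_* δ_* ∂ = 2 δ_* ∂`, and `δ ι = ι (conj z)`.
-/

namespace C715

open CategoryTheory

namespace ActCat

variable {Γ : Type} [Group Γ]

/-- conjugation by `z` as a functor -/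
abbrev cj (z : Γ) (N : Subgroup Γ) (h : ∀ n ∈ N, z * n * z⁻¹ ∈ N) :
    (sg N).Obj ⥤ (sg N).Obj :=
  sgMap (MulAut.conj z).toMonoidHom N N (fun n hn => h n hn)

section vals

variable {A : ActCat Γ}

/-- the group element of an arrow, when all `N` are trivial -/
private def vl (hA : ∀ a, A.N a = ⊥) {x y : A.Obj} (f : x ⟶ y) : Γ :=
  Quotient.lift (fun g : {g : Γ // A.Adm x.o g y.o} => g.1) (by
    rintro ⟨g, hg⟩ ⟨g', hg'⟩ (e : g⁻¹ * g' ∈ A.N x.o)
    rw [hA, Subgroup.mem_bot] at e
    exact inv_mul_eq_one.1 e) f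

private theorem vl_adm (hA : ∀ a, A.N a = ⊥) {x y : A.Obj} (f : x ⟶ y) :
    A.Adm x.o (vl hA f) y.o := by
  induction f using ActCat.ind with
  | h g hg => exact hg

private theorem vl_inj (hA : ∀ a, A.N a = ⊥) {x y : A.Obj} {f f' : x ⟶ y}
    (h : vl hA f = vl hA f') : f = f' := by
  induction f using ActCat.ind with
  | h g hg =>
    induction f' using ActCat.ind with
    | h g' hg' =>
      refine cl_eq.2 ?_
      have e : g = g' := h
      rw [hA, Subgroup.mem_bot, e, inv_mul_cancel]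

private theorem vl_comp (hA : ∀ a, A.N a = ⊥) {x y z : A.Obj} (f : x ⟶ y) (f' : y ⟶ z) :
    vl hA (f ≫ f') = vl hA f' * vl hA f := by
  induction f using ActCat.ind with
  | h g hg =>
    induction f' using ActCat.ind with
    | h g' hg' => rfl

private theorem vl_id (hA : ∀ a, A.N a = ⊥) (x : A.Obj) : vl hA (𝟙 x) = 1 := rfl

private theorem vl_hom (hA : ∀ a, A.N a = ⊥) {a b : A.Ob} (g : Γ) (h : A.Adm a g b) :
    vl hA (A.hom g h) = g := rfl

private theorem vl_sx_ext (hA : ∀ a, A.N a = ⊥) {n : ℕ} {σ τ : Sx A.Obj n}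
    (ho : ∀ i, (σ.o i).o = (τ.o i).o)
    (h : ∀ i j hij, vl hA (σ.m i j hij) = vl hA (τ.m i j hij)) : σ = τ := by
  rcases σ with ⟨o, m, h1, h2⟩
  rcases τ with ⟨o', m', h1', h2'⟩
  have ho : o = o' := funext fun i => ActCat.Obj.ext (ho i)
  subst ho
  have hm : m = m' := by
    funext i j hij
    exact vl_inj hA (h i j hij)
  subst hm
  rfl

end vals

/-- the category of elements of `M / N = ℤ` -/
private def EE (N M : Subgroup Γ) (t : Γ) (ht : t ∈ M)
    (hcomm : ∀ a ∈ M, ∀ b ∈ M, a * b = b * a) : ActCat Γ where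
  Ob := ℤ
  Adm x g y := g ∈ M ∧ g * t ^ (x - y) ∈ N
  N _ := ⊥
  one x := ⟨M.one_mem, by
    rw [sub_self, zpow_zero, mul_one]
    exact N.one_mem⟩
  mul := fun {x y w g h} hg hh => ⟨M.mul_mem hh.1 hg.1, by
    have h1 := N.mul_mem hh.2 hg.2
    have h2 : t ^ (y - w) * g = g * t ^ (y - w) := hcomm _ (M.zpow_mem ht _) _ hg.1
    have h3 : h * t ^ (y - w) * (g * t ^ (x - y)) = h * g * t ^ (x - w) := by
      rw [mul_assoc h, ← mul_assoc (t ^ (y - w)), h2, mul_assoc g, ← zpow_add, ← mul_assoc]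
      congr 2
      ring
    rwa [h3] at h1⟩
  nAdm := fun {x n} hn => by
    rw [Subgroup.mem_bot] at hn
    subst hn
    refine ⟨M.one_mem, ?_⟩
    rw [sub_self, zpow_zero, mul_one]
    exact N.one_mem
  conj := fun {x y g n} _ hn => by
    rw [Subgroup.mem_bot] at hn ⊢
    subst hn
    group

section

variable (N M : Subgroup Γ) (t : Γ) (ht : t ∈ M) (hcomm : ∀ a ∈ M, ∀ b ∈ M, a * b = b * a)

private theorem EE_N (a : (EE N M t ht hcomm).Ob) : (EE N M t ht hcomm).N a = ⊥ := rfl

private theorem sg_N (a : (sg M).Ob) : (sg M).N a = ⊥ := rfl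

/-- object as an integer -/
private def oz (a : (EE N M t ht hcomm).Ob) : ℤ := a

/-- integer as an object -/
private def zo (a : ℤ) : (EE N M t ht hcomm).Ob := a

private theorem oz_zo (a : ℤ) : oz N M t ht hcomm (zo N M t ht hcomm a) = a := rfl

private theorem oz_inj {a b : (EE N M t ht hcomm).Ob}
    (h : oz N M t ht hcomm a = oz N M t ht hcomm b) : a = b := h

private theorem EE_adm {x y : (EE N M t ht hcomm).Ob} {g : Γ} :
    (EE N M t ht hcomm).Adm x g y ↔
      g ∈ M ∧ g * t ^ (oz N M t ht hcomm x - oz N M t ht hcomm y) ∈ N := Iff.rfl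

/-- projection to `sg M` -/
private def pr : (EE N M t ht hcomm).Obj ⥤ (sg M).Obj :=
  idFun (A := EE N M t ht hcomm) (A' := sg M) (fun _ => ()) (fun h => h.1) (fun h => h)

/-- shift by `k` -/
private def sh (k : ℤ) : (EE N M t ht hcomm).Obj ⥤ (EE N M t ht hcomm).Obj :=
  idFun (A := EE N M t ht hcomm) (A' := EE N M t ht hcomm)
    (fun x => zo N M t ht hcomm (oz N M t ht hcomm x + k))
    (fun {x y g} h => by
      rw [EE_adm] at h ⊢
      rw [oz_zo, oz_zo, add_sub_add_right_eq_sub]
      exact h) (fun h => h)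

/-- the object `0` -/
private def io (hNM : N ≤ M) : (sg N).Obj ⥤ (EE N M t ht hcomm).Obj :=
  idFun (A := sg N) (A' := EE N M t ht hcomm) (fun _ => zo N M t ht hcomm 0)
    (fun {x y g} h => by
      rw [EE_adm, sub_self, zpow_zero, mul_one]
      exact ⟨hNM h, h⟩) (fun h => h)

private theorem vl_pr {x y : (EE N M t ht hcomm).Obj} (u : x ⟶ y) :
    vl (sg_N M) ((pr N M t ht hcomm).map u) = vl (EE_N N M t ht hcomm) u := by
  induction u using ActCat.ind with
  | h g hg => rfl

private theorem vl_sh (k : ℤ) {x y : (EE N M t ht hcomm).Obj} (u : x ⟶ y) :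
    vl (EE_N N M t ht hcomm) ((sh N M t ht hcomm k).map u) = vl (EE_N N M t ht hcomm) u := by
  induction u using ActCat.ind with
  | h g hg => rfl

private theorem vl_io (hNM : N ≤ M) {x y : (sg N).Obj} (u : x ⟶ y) :
    vl (EE_N N M t ht hcomm) ((io N M t ht hcomm hNM).map u) = vl (sg_N N) u := by
  induction u using ActCat.ind with
  | h g hg => rfl

/-- the first vertex of a simplex as an integer -/
private def fo {n : ℕ} (ρ : Sx (EE N M t ht hcomm).Obj n) : ℤ := oz N M t ht hcomm (ρ.o 0).o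

private theorem sh_sh (k l : ℤ) {n : ℕ} (ρ : Sx (EE N M t ht hcomm).Obj n) :
    (ρ.push (sh N M t ht hcomm k)).push (sh N M t ht hcomm l) =
      ρ.push (sh N M t ht hcomm (k + l)) := by
  refine vl_sx_ext (EE_N N M t ht hcomm) (fun i => ?_) (fun i j hij => ?_)
  · refine oz_inj N M t ht hcomm ?_
    change (oz N M t ht hcomm (ρ.o i).o + k) + l = oz N M t ht hcomm (ρ.o i).o + (k + l)
    ring
  · exact (vl_sh N M t ht hcomm l _).trans ((vl_sh N M t ht hcomm k _).trans
      (vl_sh N M t ht hcomm (k + l) _).symm)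

private theorem sh_zero {n : ℕ} (ρ : Sx (EE N M t ht hcomm).Obj n) :
    ρ.push (sh N M t ht hcomm 0) = ρ := by
  refine vl_sx_ext (EE_N N M t ht hcomm) (fun i => ?_) (fun i j hij => ?_)
  · refine oz_inj N M t ht hcomm ?_
    change oz N M t ht hcomm (ρ.o i).o + 0 = oz N M t ht hcomm (ρ.o i).o
    ring
  · exact vl_sh N M t ht hcomm 0 _

private theorem sh_pr (k : ℤ) {n : ℕ} (ρ : Sx (EE N M t ht hcomm).Obj n) :
    (ρ.push (sh N M t ht hcomm k)).push (pr N M t ht hcomm) = ρ.push (pr N M t ht hcomm) := by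
  refine vl_sx_ext (sg_N M) (fun i => rfl) (fun i j hij => ?_)
  exact (vl_pr N M t ht hcomm _).trans ((vl_sh N M t ht hcomm k _).trans
    (vl_pr N M t ht hcomm _).symm)

private theorem pr_eq (htf : ∀ k : ℤ, t ^ k ∈ N → k = 0) {n : ℕ}
    (ρ ρ' : Sx (EE N M t ht hcomm).Obj n)
    (h : ρ.push (pr N M t ht hcomm) = ρ'.push (pr N M t ht hcomm)) :
    ρ' = ρ.push (sh N M t ht hcomm (fo N M t ht hcomm ρ' - fo N M t ht hcomm ρ)) := by
  have hv : ∀ i j hij, vl (EE_N N M t ht hcomm) (ρ.m i j hij) =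
      vl (EE_N N M t ht hcomm) (ρ'.m i j hij) := by
    intro i j hij
    rw [← vl_pr, ← vl_pr]
    change vl (sg_N M) ((ρ.push (pr N M t ht hcomm)).m i j hij) =
      vl (sg_N M) ((ρ'.push (pr N M t ht hcomm)).m i j hij)
    rw [h]
  refine vl_sx_ext (EE_N N M t ht hcomm) (fun i => ?_) (fun i j hij => ?_)
  · refine oz_inj N M t ht hcomm ?_
    change oz N M t ht hcomm (ρ'.o i).o = oz N M t ht hcomm (ρ.o i).o +
      (oz N M t ht hcomm (ρ'.o 0).o - oz N M t ht hcomm (ρ.o 0).o)
    have h1 := ((EE_adm N M t ht hcomm).1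
      (vl_adm (EE_N N M t ht hcomm) (ρ.m 0 i (Fin.zero_le _)))).2
    have h2 := ((EE_adm N M t ht hcomm).1
      (vl_adm (EE_N N M t ht hcomm) (ρ'.m 0 i (Fin.zero_le _)))).2
    rw [← hv] at h2
    have h3 := N.mul_mem (N.inv_mem h1) h2
    rw [mul_inv_rev, mul_assoc, inv_mul_cancel_left, ← zpow_neg, ← zpow_add] at h3
    have h4 := htf _ h3
    linarith
  · rw [← hv]
    exact (vl_sh N M t ht hcomm _ _).symm

private theorem pr_surj (hgen : ∀ m ∈ M, ∃ n ∈ N, ∃ k : ℤ, m = n * t ^ k) {n : ℕ}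
    (σ : Sx (sg M).Obj n) : ∃ ρ : Sx (EE N M t ht hcomm).Obj n,
      ρ.push (pr N M t ht hcomm) = σ := by
  have hm : ∀ i j hij, vl (sg_N M) (σ.m i j hij) ∈ M := fun i j hij =>
    vl_adm (sg_N M) (σ.m i j hij)
  have h1 : ∀ i, ∃ k : ℤ, vl (sg_N M) (σ.m 0 i (Fin.zero_le _)) * t ^ (-k) ∈ N := by
    intro i
    obtain ⟨a, ha, k, hk⟩ := hgen _ (hm 0 i (Fin.zero_le _))
    refine ⟨k, ?_⟩
    rw [hk, mul_assoc, ← zpow_add, add_neg_cancel, zpow_zero, mul_one]
    exact ha
  choose e he using h1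
  have h2 : ∀ i j hij, vl (sg_N M) (σ.m i j hij) * t ^ (e i - e j) ∈ N := by
    intro i j hij
    have h3 : vl (sg_N M) (σ.m 0 j (Fin.zero_le _)) =
        vl (sg_N M) (σ.m i j hij) * vl (sg_N M) (σ.m 0 i (Fin.zero_le _)) := by
      rw [← vl_comp, σ.m_comp]
    have h4 := he j
    have h5 := N.mul_mem h4 (N.inv_mem (he i))
    have h6 : vl (sg_N M) (σ.m 0 i (Fin.zero_le _)) * t ^ (-e j) =
        t ^ (-e j) * vl (sg_N M) (σ.m 0 i (Fin.zero_le _)) :=
      hcomm _ (hm 0 i _) _ (M.zpow_mem ht _)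
    rw [h3, mul_assoc (vl (sg_N M) (σ.m i j hij)), h6, mul_inv_rev] at h5
    have h7 : vl (sg_N M) (σ.m i j hij) * (t ^ (-e j) * vl (sg_N M) (σ.m 0 i (Fin.zero_le _))) *
        ((t ^ (-e i))⁻¹ * (vl (sg_N M) (σ.m 0 i (Fin.zero_le _)))⁻¹) =
        vl (sg_N M) (σ.m i j hij) * t ^ (e i - e j) := by
      have h8 : (t ^ (-e i))⁻¹ * (vl (sg_N M) (σ.m 0 i (Fin.zero_le _)))⁻¹ =
          (vl (sg_N M) (σ.m 0 i (Fin.zero_le _)))⁻¹ * (t ^ (-e i))⁻¹ :=
        hcomm _ (M.inv_mem (M.zpow_mem ht _)) _ (M.inv_mem (hm 0 i _))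
      rw [h8, mul_assoc, mul_assoc (t ^ (-e j)), mul_inv_cancel_left, ← zpow_neg, ← zpow_add]
      congr 2
      ring
    rwa [h7] at h5
  refine ⟨
    { o := fun i => ⟨zo N M t ht hcomm (e i)⟩
      m := fun i j hij => (EE N M t ht hcomm).hom (vl (sg_N M) (σ.m i j hij))
        ⟨hm i j hij, h2 i j hij⟩
      m_self := fun i => vl_inj (EE_N N M t ht hcomm) (by
        change vl (sg_N M) (σ.m i i le_rfl) = 1
        rw [σ.m_self, vl_id])
      m_comp := fun i j k hij hjk => vl_inj (EE_N N M t ht hcomm) (by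
        change vl (sg_N M) (σ.m j k hjk) * vl (sg_N M) (σ.m i j hij) =
          vl (sg_N M) (σ.m i k (hij.trans hjk))
        rw [← vl_comp, σ.m_comp]) }, ?_⟩
  exact vl_sx_ext (sg_N M) (fun i => rfl) (fun i j hij => rfl)

/-- the map `1 - τ` on chains -/
private noncomputable def om : Cx.Hom (NC (EE N M t ht hcomm).Obj) (NC (EE N M t ht hcomm).Obj) where
  f n := LinearMap.id - (NCmap (sh N M t ht hcomm 1)).f n
  comm n x := by
    change (NC (EE N M t ht hcomm).Obj).d n x -
        (NCmap (sh N M t ht hcomm 1)).f n ((NC (EE N M t ht hcomm).Obj).d n x) =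
      (NC (EE N M t ht hcomm).Obj).d n (x - (NCmap (sh N M t ht hcomm 1)).f (n + 1) x)
    rw [map_sub, (NCmap (sh N M t ht hcomm 1)).comm]

private theorem om_apply (n : ℕ) (x : (NC (EE N M t ht hcomm).Obj).X n) :
    (om N M t ht hcomm).f n x = x - (NCmap (sh N M t ht hcomm 1)).f n x := rfl

private theorem om_inj (n : ℕ) : Function.Injective ((om N M t ht hcomm).f n) := by
  classical
  rw [injective_iff_map_eq_zero]
  intro z hz
  by_contra hne
  have hne' : (z : Sx (EE N M t ht hcomm).Obj n →₀ ℚ).support.Nonempty :=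
    Finsupp.support_nonempty_iff.2 hne
  obtain ⟨σ, hσ, hmin⟩ := Finset.exists_min_image _ (fo N M t ht hcomm) hne'
  have h1 : (z : Sx (EE N M t ht hcomm).Obj n →₀ ℚ) σ -
      Finsupp.mapDomain (fun σ : Sx (EE N M t ht hcomm).Obj n => σ.push (sh N M t ht hcomm 1))
        (z : Sx (EE N M t ht hcomm).Obj n →₀ ℚ) σ = 0 := by
    have := congrArg (fun w : Sx (EE N M t ht hcomm).Obj n →₀ ℚ => w σ) hz
    exact this
  have h2 : σ ∉ (Finsupp.mapDomain
      (fun σ : Sx (EE N M t ht hcomm).Obj n => σ.push (sh N M t ht hcomm 1))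
        (z : Sx (EE N M t ht hcomm).Obj n →₀ ℚ)).support := by
    intro h3
    have h4 := Finsupp.mapDomain_support h3
    rw [Finset.mem_image] at h4
    obtain ⟨τ, hτ, rfl⟩ := h4
    have h5 := hmin τ hτ
    have h6 : fo N M t ht hcomm (τ.push (sh N M t ht hcomm 1)) = fo N M t ht hcomm τ + 1 := rfl
    rw [h6] at h5
    linarith
  rw [Finsupp.notMem_support_iff] at h2
  rw [h2, sub_zero] at h1
  exact (Finsupp.mem_support_iff.1 hσ) h1

private theorem om_single (n : ℕ) (ρ : Sx (EE N M t ht hcomm).Obj n) (a : ℚ) (k : ℤ) :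
    (Finsupp.single (ρ.push (sh N M t ht hcomm k)) a - Finsupp.single ρ a :
      Sx (EE N M t ht hcomm).Obj n →₀ ℚ) ∈ LinearMap.range ((om N M t ht hcomm).f n) := by
  have step : ∀ ρ : Sx (EE N M t ht hcomm).Obj n,
      (Finsupp.single (ρ.push (sh N M t ht hcomm 1)) a - Finsupp.single ρ a :
        Sx (EE N M t ht hcomm).Obj n →₀ ℚ) ∈ LinearMap.range ((om N M t ht hcomm).f n) := by
    intro ρ
    refine ⟨-Finsupp.single ρ a, ?_⟩
    rw [map_neg, om_apply, NCmap_single]
    abel
  induction k using Int.induction_on with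
  | zero =>
    rw [sh_zero, sub_self]
    exact Submodule.zero_mem _
  | succ i ih =>
    have h1 := step (ρ.push (sh N M t ht hcomm i))
    rw [sh_sh] at h1
    have h2 := Submodule.add_mem _ h1 ih
    rwa [sub_add_sub_cancel] at h2
  | pred i ih =>
    have h1 := step (ρ.push (sh N M t ht hcomm (-(i : ℤ) - 1)))
    rw [sh_sh, sub_add_cancel] at h1
    have h2 := Submodule.sub_mem _ ih h1
    rwa [sub_sub_sub_cancel_left] at h2

private theorem om_SES (hgen : ∀ m ∈ M, ∃ n ∈ N, ∃ k : ℤ, m = n * t ^ k)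
    (htf : ∀ k : ℤ, t ^ k ∈ N → k = 0) :
    Cx.SES (om N M t ht hcomm) (NCmap (pr N M t ht hcomm)) where
  inj := om_inj N M t ht hcomm
  exact n := by
    intro z
    constructor
    · intro hz
      choose s hs using pr_surj N M t ht hcomm hgen (n := n)
      let S : (Sx (sg M).Obj n →₀ ℚ) →ₗ[ℚ] (Sx (EE N M t ht hcomm).Obj n →₀ ℚ) :=
        Finsupp.lmapDomain ℚ ℚ s
      have key : ∀ z : Sx (EE N M t ht hcomm).Obj n →₀ ℚ,
          z - S ((NCmap (pr N M t ht hcomm)).f n z) ∈
            LinearMap.range ((om N M t ht hcomm).f n) := by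
        intro z
        induction z using Finsupp.induction_linear with
        | zero =>
          rw [map_zero, map_zero, sub_zero]
          exact Submodule.zero_mem _
        | add x y hx hy =>
          have := Submodule.add_mem _ hx hy
          rw [map_add, map_add, add_sub_add_comm]
          exact this
        | single ρ a =>
          rw [NCmap_single]
          have h1 : S (Finsupp.single (ρ.push (pr N M t ht hcomm)) a) =
            Finsupp.single (s (ρ.push (pr N M t ht hcomm))) a := Finsupp.mapDomain_single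
          rw [h1]
          have h2 := pr_eq N M t ht hcomm htf (s (ρ.push (pr N M t ht hcomm))) ρ (hs _)
          have h3 := om_single N M t ht hcomm n (s (ρ.push (pr N M t ht hcomm))) a
            (fo N M t ht hcomm ρ - fo N M t ht hcomm (s (ρ.push (pr N M t ht hcomm))))
          rw [← h2] at h3
          exact h3
      have h1 := key z
      rw [hz, map_zero, sub_zero] at h1
      exact h1
    · rintro ⟨x, rfl⟩
      have : ((NCmap (pr N M t ht hcomm)).f n).comp ((om N M t ht hcomm).f n) = 0 := by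
        refine Finsupp.lhom_ext fun ρ a => ?_
        rw [LinearMap.comp_apply, om_apply, map_sub, NCmap_single, NCmap_single, NCmap_single,
          sh_pr, sub_self, LinearMap.zero_apply]
      exact LinearMap.congr_fun this x
  surj n := by
    have h := pr_surj N M t ht hcomm hgen (n := n)
    have : Function.Surjective
        (Finsupp.mapDomain (M := ℚ) (fun σ : Sx (EE N M t ht hcomm).Obj n =>
          σ.push (pr N M t ht hcomm))) := Finsupp.mapDomain_surjective h
    exact this

/-- `t` as a natural transformation -/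
private def tt : 𝟭 (EE N M t ht hcomm).Obj ⟶ sh N M t ht hcomm 1 where
  app x := (EE N M t ht hcomm).hom (a := x.o)
    (b := zo N M t ht hcomm (oz N M t ht hcomm x.o + 1)) t (by
      rw [EE_adm, oz_zo]
      have : oz N M t ht hcomm x.o - (oz N M t ht hcomm x.o + 1) = -1 := by ring
      rw [this, zpow_neg, zpow_one, mul_inv_cancel]
      exact ⟨ht, N.one_mem⟩)
  naturality x y f := vl_inj (EE_N N M t ht hcomm) (by
    refine (vl_comp _ _ _).trans (Eq.trans ?_ (vl_comp _ _ _).symm)
    have h1 := vl_sh N M t ht hcomm 1 f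
    change t * vl (EE_N N M t ht hcomm) f =
      vl (EE_N N M t ht hcomm) ((sh N M t ht hcomm 1).map f) * t
    rw [h1]
    exact hcomm _ ht _ (vl_adm (EE_N N M t ht hcomm) f).1)

private theorem sh_H (n : ℕ) (y : HC (EE N M t ht hcomm).Obj n) :
    HCmap (sh N M t ht hcomm 1) n y = y := by
  rw [← HCmap_natTrans (tt N M t ht hcomm) n, HCmap_id]

private theorem om_H (n : ℕ) (y : HC (EE N M t ht hcomm).Obj n) : (om N M t ht hcomm).H n y = 0 := by
  have h1 := sh_H N M t ht hcomm n y
  induction y using Cx.H_ind with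
  | h x hx =>
    rw [HCmap, Cx.H_cls, Cx.cls_eq] at h1
    rw [Cx.H_cls, Cx.cls_eq_zero, om_apply]
    have h2 := Submodule.neg_mem _ h1
    rwa [neg_sub] at h2

private theorem io_hiso (hNM : N ≤ M) : HIso (io N M t ht hcomm hNM) := by
  have hf : (io N M t ht hcomm hNM).Faithful := ⟨fun {x y f f'} e => by
    refine vl_inj (sg_N N) ?_
    have h1 := congrArg (fun u => vl (EE_N N M t ht hcomm) u) e
    exact (vl_io N M t ht hcomm hNM f).symm.trans (h1.trans (vl_io N M t ht hcomm hNM f'))⟩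
  have hl : (io N M t ht hcomm hNM).Full := ⟨fun {x y} f => by
    have h1 := ((EE_adm N M t ht hcomm).1 (vl_adm (EE_N N M t ht hcomm) f)).2
    have h2 : vl (EE_N N M t ht hcomm) f ∈ N := by
      have h3 : oz N M t ht hcomm ((io N M t ht hcomm hNM).obj x).o -
        oz N M t ht hcomm ((io N M t ht hcomm hNM).obj y).o = 0 := rfl
      rw [h3, zpow_zero, mul_one] at h1
      exact h1
    refine ⟨(sg N).hom (a := x.o) (b := y.o) _ h2, vl_inj (EE_N N M t ht hcomm) ?_⟩
    exact (vl_io N M t ht hcomm hNM _).trans rfl⟩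
  have he : (io N M t ht hcomm hNM).EssSurj := ⟨fun y => by
    refine ⟨⟨()⟩, ⟨⟨(EE N M t ht hcomm).hom (a := zo N M t ht hcomm 0) (b := y.o)
      (t ^ oz N M t ht hcomm y.o) ((EE_adm N M t ht hcomm).2 ⟨M.zpow_mem ht _, ?_⟩),
      (EE N M t ht hcomm).hom (a := y.o) (b := zo N M t ht hcomm 0)
      (t ^ (-oz N M t ht hcomm y.o)) ((EE_adm N M t ht hcomm).2 ⟨M.zpow_mem ht _, ?_⟩),
      ?_, ?_⟩⟩⟩
    · rw [← zpow_add, oz_zo, zero_sub, add_neg_cancel, zpow_zero]
      exact N.one_mem
    · rw [← zpow_add, oz_zo, sub_zero, neg_add_cancel, zpow_zero]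
      exact N.one_mem
    · refine vl_inj (EE_N N M t ht hcomm) ?_
      refine (vl_comp _ _ _).trans ?_
      change t ^ (-oz N M t ht hcomm y.o) * t ^ (oz N M t ht hcomm y.o) = 1
      rw [← zpow_add, neg_add_cancel, zpow_zero]
    · refine vl_inj (EE_N N M t ht hcomm) ?_
      refine (vl_comp _ _ _).trans ?_
      change t ^ (oz N M t ht hcomm y.o) * t ^ (-oz N M t ht hcomm y.o) = 1
      rw [← zpow_add, add_neg_cancel, zpow_zero]⟩
  have : (io N M t ht hcomm hNM).IsEquivalence := { }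
  exact hiso_of_equiv _

/-- the doubling functor -/
private def db (z : Γ) (hz : ∀ m ∈ M, z * m * z⁻¹ = m * m) (hzM : ∀ m ∈ M, z * m * z⁻¹ ∈ M) :
    (EE N M t ht hcomm).Obj ⥤ (EE N M t ht hcomm).Obj :=
  functor (A := EE N M t ht hcomm) (A' := EE N M t ht hcomm)
    (fun x => zo N M t ht hcomm (2 * oz N M t ht hcomm x))
    (MulAut.conj z).toMonoidHom (fun {x y g} h => by
      rw [EE_adm] at h ⊢
      obtain ⟨h1, h2⟩ := h
      refine ⟨hzM g h1, ?_⟩
      rw [oz_zo, oz_zo]
      generalize oz N M t ht hcomm x = x at *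
      generalize oz N M t ht hcomm y = y at *
      change z * g * z⁻¹ * t ^ (2 * x - 2 * y) ∈ N
      rw [hz g h1]
      have h3 := N.mul_mem h2 h2
      have h4 : g * t ^ (x - y) * (g * t ^ (x - y)) = g * g * t ^ (2 * x - 2 * y) := by
        have h5 : t ^ (x - y) * g = g * t ^ (x - y) := hcomm _ (M.zpow_mem ht _) _ h1
        rw [mul_assoc g, ← mul_assoc (t ^ (x - y)), h5, mul_assoc g, ← zpow_add, ← mul_assoc]
        congr 2
        ring
      rwa [h4] at h3)
    (fun {x n} hn => by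
      have hn' : n ∈ (⊥ : Subgroup Γ) := hn
      rw [Subgroup.mem_bot] at hn'
      subst hn'
      change z * 1 * z⁻¹ ∈ (⊥ : Subgroup Γ)
      rw [Subgroup.mem_bot]
      group)

private theorem vl_db (z : Γ) (hz : ∀ m ∈ M, z * m * z⁻¹ = m * m)
    (hzM : ∀ m ∈ M, z * m * z⁻¹ ∈ M) {x y : (EE N M t ht hcomm).Obj} (u : x ⟶ y) :
    vl (EE_N N M t ht hcomm) ((db N M t ht hcomm z hz hzM).map u) =
      z * vl (EE_N N M t ht hcomm) u * z⁻¹ := by
  induction u using ActCat.ind with
  | h g hg => rfl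

private theorem vl_cj (z : Γ) (hzN : ∀ n ∈ N, z * n * z⁻¹ ∈ N) {x y : (sg N).Obj} (u : x ⟶ y) :
    vl (sg_N N) ((cj z N hzN).map u) = z * vl (sg_N N) u * z⁻¹ := by
  induction u using ActCat.ind with
  | h g hg => rfl

private theorem vl_incl (hNM : N ≤ M) {x y : (sg N).Obj} (u : x ⟶ y) :
    vl (sg_N M) ((sgIncl hNM).map u) = vl (sg_N N) u := by
  induction u using ActCat.ind with
  | h g hg => rfl

end

private theorem NC_comp_congr {C D D' E : Type} [SmallCategory C] [SmallCategory D]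
    [SmallCategory D'] [SmallCategory E] (F : C ⥤ D) (G : D ⥤ E) (F' : C ⥤ D') (G' : D' ⥤ E)
    (h : ∀ n (σ : Sx C n), (σ.push F).push G = (σ.push F').push G') (n : ℕ) (x : (NC C).X n) :
    (NCmap G).f n ((NCmap F).f n x) = (NCmap G').f n ((NCmap F').f n x) := by
  have : ((NCmap G).f n).comp ((NCmap F).f n) = ((NCmap G').f n).comp ((NCmap F').f n) := by
    refine Finsupp.lhom_ext fun σ a => ?_
    rw [LinearMap.comp_apply, LinearMap.comp_apply, NCmap_single, NCmap_single, NCmap_single,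
      NCmap_single, h]
  exact LinearMap.congr_fun this x

private theorem HC_comp_congr {C D D' E : Type} [SmallCategory C] [SmallCategory D]
    [SmallCategory D'] [SmallCategory E] (F : C ⥤ D) (G : D ⥤ E) (F' : C ⥤ D') (G' : D' ⥤ E)
    (h : ∀ n (σ : Sx C n), (σ.push F).push G = (σ.push F').push G') (n : ℕ) (y : HC C n) :
    HCmap G n (HCmap F n y) = HCmap G' n (HCmap F' n y) := by
  induction y using Cx.H_ind with
  | h x hx =>
    have e := NC_comp_congr F G F' G' h n x
    rw [HCmap, HCmap, HCmap, HCmap, Cx.H_cls, Cx.H_cls, Cx.H_cls, Cx.H_cls, Cx.cls_eq, e, sub_self]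
    exact Submodule.zero_mem _

theorem wang (N M : Subgroup Γ) (hNM : N ≤ M) (t z : Γ) (ht : t ∈ M)
    (hcomm : ∀ a ∈ M, ∀ b ∈ M, a * b = b * a) (hgen : ∀ m ∈ M, ∃ n ∈ N, ∃ k : ℤ, m = n * t ^ k)
    (htf : ∀ k : ℤ, t ^ k ∈ N → k = 0) (hz : ∀ m ∈ M, z * m * z⁻¹ = m * m)
    (hzM : ∀ m ∈ M, z * m * z⁻¹ ∈ M) (hzN : ∀ n ∈ N, z * n * z⁻¹ ∈ N) :
    Function.Bijective (HCmap (sgIncl hNM) 0) ∧
    ∀ n, ∃ δ : HC (sg M).Obj (n + 1) →ₗ[ℚ] HC (sg N).Obj n,
      Function.Injective (HCmap (sgIncl hNM) (n + 1)) ∧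
      Function.Exact (HCmap (sgIncl hNM) (n + 1)) δ ∧ Function.Surjective δ ∧
      ∀ y, δ (HCmap (cj z M hzM) (n + 1) y) = (2 : ℚ) • HCmap (cj z N hzN) n (δ y) := by
  have hS := om_SES N M t ht hcomm hgen htf
  have hio := io_hiso N M t ht hcomm hNM
  -- `sgIncl` is `io` followed by `pr`
  have hfac : ∀ n y, HCmap (sgIncl hNM) n y =
      HCmap (pr N M t ht hcomm) n (HCmap (io N M t ht hcomm hNM) n y) := by
    intro n y
    have h1 := HC_comp_congr (io N M t ht hcomm hNM) (pr N M t ht hcomm) (sgIncl hNM)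
      (𝟭 (sg M).Obj) (fun n σ => vl_sx_ext (sg_N M) (fun i => rfl) (fun i j hij => by
        refine (vl_pr N M t ht hcomm _).trans ((vl_io N M t ht hcomm hNM _).trans ?_)
        exact (vl_incl N M hNM _).symm)) n y
    rw [h1, HCmap_id]
  have hprinj : ∀ n, Function.Injective (HCmap (pr N M t ht hcomm) n) := by
    intro n
    rw [injective_iff_map_eq_zero]
    intro y hy
    obtain ⟨x, rfl⟩ := (Cx.exact_mid hS n y).1 hy
    exact om_H N M t ht hcomm n x
  have hinj : ∀ n, Function.Injective (HCmap (sgIncl hNM) n) := by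
    intro n x y hxy
    rw [hfac, hfac] at hxy
    exact (hio n).1 (hprinj n hxy)
  refine ⟨⟨hinj 0, fun y => ?_⟩, fun n => ?_⟩
  · obtain ⟨x, hx⟩ := Cx.surj_zero hS y
    obtain ⟨w, rfl⟩ := (hio 0).2 x
    exact ⟨w, (hfac 0 w).trans hx⟩
  · let e : HC (sg N).Obj n ≃ₗ[ℚ] HC (EE N M t ht hcomm).Obj n :=
      LinearEquiv.ofBijective (HCmap (io N M t ht hcomm hNM) n) (hio n)
    have he : ∀ w, e w = HCmap (io N M t ht hcomm hNM) n w := fun w => rfl
    let δ : HC (sg M).Obj (n + 1) →ₗ[ℚ] HC (sg N).Obj n :=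
      e.symm.toLinearMap.comp (Cx.delta hS n)
    have hδ : ∀ y, HCmap (io N M t ht hcomm hNM) n (δ y) = Cx.delta hS n y := by
      intro y
      exact e.apply_symm_apply _
    refine ⟨δ, hinj (n + 1), fun y => ?_, fun y => ?_, fun y => ?_⟩
    · constructor
      · intro hy
        have h1 : Cx.delta hS n y = 0 := by rw [← hδ, hy, map_zero]
        obtain ⟨x, hx⟩ := (Cx.exact_right hS n y).1 h1
        obtain ⟨w, rfl⟩ := (hio (n + 1)).2 x
        exact ⟨w, (hfac (n + 1) w).trans hx⟩
      · rintro ⟨w, rfl⟩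
        refine (hio n).1 ?_
        rw [hδ, map_zero, hfac]
        exact (Cx.exact_right hS n _).2 ⟨_, rfl⟩
    · have h1 : (om N M t ht hcomm).H n (HCmap (io N M t ht hcomm hNM) n y) = 0 :=
        om_H N M t ht hcomm n _
      obtain ⟨x, hx⟩ := (Cx.exact_left hS n _).1 h1
      refine ⟨x, (hio n).1 ?_⟩
      rw [hδ, hx]
    · let a : Cx.Hom (NC (EE N M t ht hcomm).Obj) (NC (EE N M t ht hcomm).Obj) :=
        { f := fun m => (NCmap (db N M t ht hcomm z hz hzM)).f m +
            ((NCmap (sh N M t ht hcomm 1)).f m).comp ((NCmap (db N M t ht hcomm z hz hzM)).f m)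
          comm := fun m x => by
            rw [LinearMap.add_apply, LinearMap.add_apply, LinearMap.comp_apply,
              LinearMap.comp_apply, map_add, (NCmap (db N M t ht hcomm z hz hzM)).comm,
              (NCmap (sh N M t ht hcomm 1)).comm] }
      have haf : ∀ m x, a.f m x = (NCmap (db N M t ht hcomm z hz hzM)).f m x +
          (NCmap (sh N M t ht hcomm 1)).f m ((NCmap (db N M t ht hcomm z hz hzM)).f m x) :=
        fun m x => rfl
      have hi : ∀ m x, (NCmap (db N M t ht hcomm z hz hzM)).f m ((om N M t ht hcomm).f m x) =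
          (om N M t ht hcomm).f m (a.f m x) := by
        intro m x
        have h1 := NC_comp_congr (sh N M t ht hcomm 1) (db N M t ht hcomm z hz hzM)
          (db N M t ht hcomm z hz hzM) (sh N M t ht hcomm 2) (fun n σ =>
            vl_sx_ext (EE_N N M t ht hcomm) (fun i => by
              refine oz_inj N M t ht hcomm ?_
              change 2 * (oz N M t ht hcomm (σ.o i).o + 1) = 2 * oz N M t ht hcomm (σ.o i).o + 2
              ring) (fun i j hij => by
              refine (vl_db N M t ht hcomm z hz hzM _).trans ?_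
              refine Eq.trans ?_ (vl_sh N M t ht hcomm 2 _).symm
              refine Eq.trans ?_ (vl_db N M t ht hcomm z hz hzM _).symm
              exact congrArg (fun g => z * g * z⁻¹) (vl_sh N M t ht hcomm 1 _))) m x
        have h2 : ∀ w, (NCmap (sh N M t ht hcomm 1)).f m ((NCmap (sh N M t ht hcomm 1)).f m w) =
            (NCmap (sh N M t ht hcomm 2)).f m w := by
          intro w
          have h3 := NC_comp_congr (sh N M t ht hcomm 1) (sh N M t ht hcomm 1)
            (sh N M t ht hcomm 2) (𝟭 _) (fun n σ => by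
              rw [sh_sh]
              rfl) m w
          rw [h3, NCmap_id]
          rfl
        rw [om_apply, om_apply, haf, map_sub, map_add, h2, h1]
        abel
      have hp : ∀ m x, (NCmap (cj z M hzM)).f m ((NCmap (pr N M t ht hcomm)).f m x) =
          (NCmap (pr N M t ht hcomm)).f m ((NCmap (db N M t ht hcomm z hz hzM)).f m x) :=
        NC_comp_congr _ _ _ _ (fun n σ => vl_sx_ext (sg_N M) (fun i => rfl) (fun i j hij => by
          refine (vl_cj M z hzM _).trans ?_
          refine Eq.trans ?_ (vl_pr N M t ht hcomm _).symm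
          refine Eq.trans ?_ (vl_db N M t ht hcomm z hz hzM _).symm
          exact congrArg (fun g => z * g * z⁻¹) (vl_pr N M t ht hcomm _)))
      have hnat := Cx.delta_nat hS hS a (NCmap (db N M t ht hcomm z hz hzM)) (NCmap (cj z M hzM))
        hi hp n y
      have haH : ∀ w, a.H n w = (2 : ℚ) • HCmap (db N M t ht hcomm z hz hzM) n w := by
        intro w
        have h1 : a.H n w = HCmap (db N M t ht hcomm z hz hzM) n w +
            HCmap (sh N M t ht hcomm 1) n (HCmap (db N M t ht hcomm z hz hzM) n w) := by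
          induction w using Cx.H_ind with
          | h x hx => rfl
        rw [h1, sh_H, two_smul]
      have hdb : ∀ w, HCmap (db N M t ht hcomm z hz hzM) n (HCmap (io N M t ht hcomm hNM) n w) =
          HCmap (io N M t ht hcomm hNM) n (HCmap (cj z N hzN) n w) :=
        HC_comp_congr (io N M t ht hcomm hNM) (db N M t ht hcomm z hz hzM) (cj z N hzN)
          (io N M t ht hcomm hNM) (fun n σ => vl_sx_ext (EE_N N M t ht hcomm) (fun i => rfl)
          (fun i j hij => by
            refine (vl_db N M t ht hcomm z hz hzM _).trans ?_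
            refine Eq.trans ?_ (vl_io N M t ht hcomm hNM _).symm
            refine Eq.trans ?_ (vl_cj N z hzN _).symm
            exact congrArg (fun g => z * g * z⁻¹) (vl_io N M t ht hcomm hNM _))) n
      refine (hio n).1 ?_
      rw [hδ, map_smul, ← hdb, hδ, ← haH, hnat]

end ActCat
end C715
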